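import Pool.Agent.R350.Finish

/-!
# The grid theorem: the core
-/

set_option autoImplicit false

namespace Pool.Agent.R350

open Module Finset

section

variable {k A : Type*} [Field k] [Field A] [Algebra k A]

/-- the number of indices of the third block which are needed -/
def sunPhi (m v K : ℕ) (n : ℕ) : ℕ := K + (m + m * n) * (m + m * n + v) + n + 1

theorem sunPhi_mono (m v K : ℕ) : Monotone (sunPhi m v K) := by
  intro a b h
  unfold sunPhi
  gcongr

/-- **Core of the grid theorem.** -/
theorem core {v m : ℕ} {L : Submodule k A} (hL : HypV v L) (h1L : (1 : A) ∈ L) (h2 : (2 : k) ≠ 0)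
    {m1 I K r1 M : ℕ} (Ω0 : Submodule k A) [FiniteDimensional k Ω0] (h0m : finrank k Ω0 ≤ m)
    (h1m : m1 ≤ m) (x : Fin I → A) (y : Fin K → A) (s : Fin M → A) (ω : Fin m1 → A)
    (hxL : ∀ i, x i ∈ L) (hyL : ∀ j, y j ∈ L) (hsL : ∀ d, s d ∈ L)
    (hF : ∀ z : Fin m1 → Fin I → k, ∃ φ : A →ₗ[k] k, (∀ o ∈ Ω0, φ o = 0) ∧
      (∀ a i, φ (ω a * x i) = z a i) ∧ ∀ a j, φ (ω a * y j) = 0)
    (hF2 : ∀ z : Fin m1 → Fin K → k, ∃ φ : A →ₗ[k] k, (∀ o ∈ Ω0, φ o = 0) ∧
      (∀ a i, φ (ω a * x i) = 0) ∧ (∀ a j, φ (ω a * y j) = z a j) ∧ ∀ a d, φ (ω a * s d) = 0)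
    (hy1 : ∀ (c0 : k) (c : Fin K → k), c0 • (1 : A) + ∑ j, c j • y j = 0 → ∀ j, c j = 0)
    (hs1 : LinearIndependent k s)
    (hr1 : 2 * (2 * m + 1) ^ 2 ≤ r1) (hI : I = r1 + m)
    (hK : 4 * ((m + 3 * (m * I)) * (m + 3 * (m * I) + v)) + 1 + (m + m * I + v) ≤ K)
    (hM : sB (sunPhi m v K) (1 + m * (I * K)) (I + K) ≤ M)
    (hexc : ∀ i j d, ∃ δ : Fin m1 → A, (∀ a, δ a ∈ L) ∧ ∑ a, ω a * δ a ∉ Ω0 ∧
      (x i + y j + s d) * ∑ a, ω a * δ a ∈ Ω0 * L) : False := by
  classical
  choose δ hδL hδ0 hδE using hexc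
  -- the sunflower
  let R : Fin M → Submodule k A := fun d => Submodule.span k {s d} ⊔
    Submodule.span k (Set.range (fun q : Fin m1 × (Fin I × Fin K) => δ q.2.1 q.2.2 d q.1))
  have hRspan : ∀ d, FiniteDimensional k (Submodule.span k
      (Set.range (fun q : Fin m1 × (Fin I × Fin K) => δ q.2.1 q.2.2 d q.1))) := fun d =>
    FiniteDimensional.span_of_finite k (Set.finite_range _)
  have hRf : ∀ d, FiniteDimensional k (R d) := fun d => by
    have := hRspan d
    exact inferInstanceAs (FiniteDimensional k (Submodule.span k {s d} ⊔ Submodule.span k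
      (Set.range (fun q : Fin m1 × (Fin I × Fin K) => δ q.2.1 q.2.2 d q.1)) : Submodule k A))
  let W0 : Submodule k A := Submodule.span k (Set.range x) ⊔ Submodule.span k (Set.range y)
  have hxf : FiniteDimensional k (Submodule.span k (Set.range x)) :=
    FiniteDimensional.span_of_finite k (Set.finite_range _)
  have hyf : FiniteDimensional k (Submodule.span k (Set.range y)) :=
    FiniteDimensional.span_of_finite k (Set.finite_range _)
  have hW0f : FiniteDimensional k W0 :=
    inferInstanceAs (FiniteDimensional k (Submodule.span k (Set.range x) ⊔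
      Submodule.span k (Set.range y) : Submodule k A))
  have hW0r : finrank k W0 ≤ I + K := by
    refine (Submodule.finrank_add_le_finrank_add_finrank _ _).trans ?_
    have e1 := finrank_range_le_card (R := k) x
    have e2 := finrank_range_le_card (R := k) y
    rw [Fintype.card_fin] at e1 e2
    exact Nat.add_le_add e1 e2
  have hRr : ∀ d, finrank k (R d) ≤ 1 + m * (I * K) := by
    intro d
    have := hRspan d
    refine (Submodule.finrank_add_le_finrank_add_finrank _ _).trans ?_
    have e1 : finrank k (Submodule.span k {s d}) ≤ 1 := by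
      have := finrank_span_finset_le_card (R := k) ({s d} : Finset A)
      rwa [Finset.coe_singleton, Finset.card_singleton] at this
    have e2 := finrank_range_le_card (R := k)
      (fun q : Fin m1 × (Fin I × Fin K) => δ q.2.1 q.2.2 d q.1)
    rw [Fintype.card_prod, Fintype.card_prod, Fintype.card_fin, Fintype.card_fin,
      Fintype.card_fin] at e2
    exact Nat.add_le_add e1 (e2.trans (Nat.mul_le_mul_right _ h1m))
  obtain ⟨W, hW0W, hWf, D, -, hDc, hD⟩ := sunflower (sunPhi m v K) (sunPhi_mono m v K) R hRf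
    (1 + m * (I * K)) (I + K) W0 Finset.univ hW0f hW0r (fun d _ => by
      have := hRf d
      have e1 := Submodule.finrank_add_le_finrank_add_finrank (R d) W0
      have e2 := hRr d
      omega) (by rwa [Finset.card_univ, Fintype.card_fin])
  set n := finrank k W with hn
  have hxW : ∀ i, x i ∈ W := fun i => hW0W (Submodule.mem_sup_left (Submodule.subset_span ⟨i, rfl⟩))
  have hyW : ∀ j, y j ∈ W := fun j =>
    hW0W (Submodule.mem_sup_right (Submodule.subset_span ⟨j, rfl⟩))
  have hδR : ∀ i j d a, δ i j d a ∈ R d := fun i j d a =>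
    Submodule.mem_sup_right (Submodule.subset_span ⟨(a, (i, j)), rfl⟩)
  have hsR : ∀ d, s d ∈ R d := fun d =>
    Submodule.mem_sup_left (Submodule.mem_span_singleton_self _)
  obtain ⟨b, hbli, hbspan, hbmul⟩ := mem_mul_basis Ω0 L
  have hbΩ0 : ∀ a, b a ∈ Ω0 := fun a => by
    rw [← hbspan]
    exact Submodule.subset_span ⟨a, rfl⟩
  have hγ : ∀ i j d, ∃ γ : Fin (finrank k Ω0) → A, (∀ a, γ a ∈ L) ∧
      (x i + y j + s d) * ∑ a, ω a * δ i j d a = ∑ a, b a * γ a := fun i j d =>
    hbmul _ (hδE i j d)
  choose γ hγL hγe using hγ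
  -- the indices with `s d ∈ W`
  have hdrop : (D.filter fun d => s d ∈ W).card ≤ n := by
    have h3 : LinearIndependent k
        (fun d : (D.filter fun d => s d ∈ W : Finset (Fin M)) =>
          (⟨s d, (Finset.mem_filter.1 d.2).2⟩ : W)) := by
      apply LinearIndependent.of_comp W.subtype
      exact hs1.comp _ Subtype.val_injective
    have h4 := h3.fintype_card_le_finrank
    rwa [Fintype.card_coe] at h4
  -- rich columns
  let Rich : Fin M → Fin K → Prop := fun d j => ∃ i : Fin r1 → Fin I, ∀ c : Fin r1 → k,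
      (∀ a, ∑ t, c t • δ (i t) j d a ∈ W) → ∀ t, c t = 0
  let Heavy : Fin M → Prop := fun d => 3 * K < 4 * (Finset.univ.filter fun j => Rich d j).card
  have hheavy : (D.filter Heavy).card < K := by
    by_contra hlt
    push Not at hlt
    obtain ⟨D', hD', hD'c⟩ := Finset.exists_subset_card_eq hlt
    have hD'D : D' ⊆ D := fun d hd => (Finset.mem_filter.1 (hD' hd)).1
    let Pr : Finset (Fin M × Fin K) := (D' ×ˢ Finset.univ).filter fun q => Rich q.1 q.2
    have hPr : ∀ q : Pr, Rich q.1.1 q.1.2 := fun q => (Finset.mem_filter.1 q.2).2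
    choose ii hii using hPr
    -- the space
    let gen : Fin m1 × (Fin I ⊕ (Fin K ⊕ D')) → A := fun q =>
      ω q.1 * Sum.elim x (Sum.elim y (fun d : D' => s d)) q.2
    let Ω : Submodule k A := Ω0 ⊔ Submodule.span k (Set.range gen)
    have hgenf : FiniteDimensional k (Submodule.span k (Set.range gen)) :=
      FiniteDimensional.span_of_finite k (Set.finite_range gen)
    have hΩf : FiniteDimensional k Ω :=
      inferInstanceAs (FiniteDimensional k (Ω0 ⊔ Submodule.span k (Set.range gen) : Submodule k A))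
    have hΩfin : finrank k Ω ≤ m + m * (I + (K + K)) := by
      refine (Submodule.finrank_add_le_finrank_add_finrank _ _).trans ?_
      have h8 := finrank_range_le_card (R := k) gen
      rw [Set.finrank, Fintype.card_prod, Fintype.card_sum, Fintype.card_sum, Fintype.card_fin,
        Fintype.card_fin, Fintype.card_fin, Fintype.card_coe, hD'c] at h8
      exact Nat.add_le_add h0m (h8.trans (Nat.mul_le_mul_right _ h1m))
    have hgen : ∀ q, gen q ∈ Ω := fun q => Submodule.mem_sup_right (Submodule.subset_span ⟨q, rfl⟩)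
    have hfin := hL.dual (κ := Pr × Fin r1) (τ := Fin m1 ⊕ Fin (finrank k Ω0)) Ω
      (fun q => Sum.elim (fun a => ω a * (x (ii q.1 q.2) + y q.1.1.2 + s q.1.1.1)) b)
      (fun q => Sum.elim (fun a => δ (ii q.1 q.2) q.1.1.2 q.1.1.1 a)
        (fun a => -γ (ii q.1 q.2) q.1.1.2 q.1.1.1 a)) ?_ ?_ ?_ ?_
    · rw [Fintype.card_prod, Fintype.card_coe, Fintype.card_fin] at hfin
      have h3 : 3 * K * K < 4 * Pr.card := by
        have h4 : Pr.card = ∑ d ∈ D', (Finset.univ.filter fun j => Rich d j).card := by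
          have h5 : Pr = (D'.sigma (fun d => (Finset.univ.filter fun j => Rich d j))).map
              (Equiv.sigmaEquivProd (Fin M) (Fin K)).toEmbedding := by
            ext ⟨d, j⟩
            simp [Pr]
          rw [h5, Finset.card_map, Finset.card_sigma]
        rw [h4, Finset.mul_sum]
        have h5 : ∑ d ∈ D', 3 * K < ∑ d ∈ D', 4 * (Finset.univ.filter fun j => Rich d j).card := by
          refine Finset.sum_lt_sum_of_nonempty ?_ (fun d hd => (Finset.mem_filter.1 (hD' hd)).2)
          rw [← Finset.card_pos, hD'c]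
          omega
        rw [Finset.sum_const, hD'c, smul_eq_mul] at h5
        calc 3 * K * K = K * (3 * K) := by ring
          _ < _ := h5
      have h4 : m + m * (I + (K + K)) + v ≤ (2 * m + 1) * K := by
        have e1 : m * (I + (K + K)) = m * I + 2 * (m * K) := by ring
        have e2 : (2 * m + 1) * K = 2 * (m * K) + K := by ring
        omega
      have h5 : Pr.card * r1 ≤ ((2 * m + 1) * K) * ((2 * m + 1) * K) :=
        hfin.trans (Nat.mul_le_mul (hΩfin.trans (by omega)) ((Nat.add_le_add_right hΩfin v).trans h4))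
      have h6 : 3 * K * K * r1 ≤ 4 * (((2 * m + 1) * K) * ((2 * m + 1) * K)) := by
        calc 3 * K * K * r1 ≤ 4 * Pr.card * r1 := Nat.mul_le_mul_right _ h3.le
          _ = 4 * (Pr.card * r1) := by ring
          _ ≤ _ := Nat.mul_le_mul_left _ h5
      have h7 : 3 * K * K * (2 * (2 * m + 1) ^ 2) ≤ 4 * (((2 * m + 1) * K) * ((2 * m + 1) * K)) :=
        (Nat.mul_le_mul_left _ hr1).trans h6
      have h8 : 6 * ((2 * m + 1) * K) ^ 2 ≤ 4 * ((2 * m + 1) * K) ^ 2 := by
        calc 6 * ((2 * m + 1) * K) ^ 2 = 3 * K * K * (2 * (2 * m + 1) ^ 2) := by ring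
          _ ≤ _ := h7
          _ = _ := by ring
      have h9 : 0 < ((2 * m + 1) * K) ^ 2 := by
        have : 0 < K := by omega
        positivity
      omega
    · rintro q (a | a)
      · change ω a * (x (ii q.1 q.2) + y q.1.1.2 + s q.1.1.1) ∈ Ω
        rw [mul_add, mul_add]
        have hd : q.1.1.1 ∈ D' := (Finset.mem_product.1 (Finset.mem_filter.1 q.1.2).1).1
        exact Ω.add_mem (Ω.add_mem (hgen (a, Sum.inl _)) (hgen (a, Sum.inr (Sum.inl _))))
          (hgen (a, Sum.inr (Sum.inr ⟨_, hd⟩)))
      · exact Submodule.mem_sup_left (hbΩ0 a)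
    · rintro q (a | a)
      · exact hδL _ _ _ _
      · exact L.neg_mem (hγL _ _ _ _)
    · intro q
      rw [Fintype.sum_sum_type]
      simp only [Sum.elim_inl, Sum.elim_inr, mul_neg, Finset.sum_neg_distrib]
      rw [← hγe, Finset.mul_sum, ← sub_eq_add_neg, sub_eq_zero]
      refine Finset.sum_congr rfl fun a _ => ?_
      ring
    · intro η hη q0
      by_contra hne
      apply hne
      set d0 := q0.1.1.1 with hd0
      set j0 := q0.1.1.2 with hj0
      have hd0D : d0 ∈ D' := (Finset.mem_product.1 (Finset.mem_filter.1 q0.1.2).1).1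
      -- the coefficient of one pair
      have hone : ∀ a, ∑ t, η (q0.1, t) • δ (ii q0.1 t) j0 d0 a ∈ W := by
        intro a0
        obtain ⟨φ, hφ0, hφx, hφy, hφs⟩ := hF2 (fun a j => if a = a0 ∧ j = j0 then 1 else 0)
        have h3 := hη φ
        have h4 : ∀ q : Pr × Fin r1, ∑ t : Fin m1 ⊕ Fin (finrank k Ω0),
            φ (Sum.elim (fun a => ω a * (x (ii q.1 q.2) + y q.1.1.2 + s q.1.1.1)) b t) •
            (Sum.elim (fun a => δ (ii q.1 q.2) q.1.1.2 q.1.1.1 a)
              (fun a => -γ (ii q.1 q.2) q.1.1.2 q.1.1.1 a) t : A) =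
            if q.1.1.2 = j0 then δ (ii q.1 q.2) q.1.1.2 q.1.1.1 a0 else 0 := by
          intro q
          rw [Fintype.sum_sum_type]
          simp only [Sum.elim_inl, Sum.elim_inr]
          rw [Finset.sum_eq_zero (s := (Finset.univ : Finset (Fin (finrank k Ω0))))
            (fun a _ => by rw [hφ0 _ (hbΩ0 a), zero_smul]), add_zero]
          rw [Finset.sum_eq_single a0]
          · rw [mul_add, mul_add, map_add, map_add, hφx, hφy, hφs, zero_add, add_zero]
            by_cases h : q.1.1.2 = j0
            · simp [h]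
            · simp [h]
          · intro a _ ha
            rw [mul_add, mul_add, map_add, map_add, hφx, hφy, hφs, zero_add, add_zero]
            simp [ha]
          · intro h; exact absurd (Finset.mem_univ _) h
        simp only [h4] at h3
        -- split by `d`
        let vv : Fin M → A := fun d => ∑ q : Pr × Fin r1, if q.1.1.1 = d then
          η q • (if q.1.1.2 = j0 then δ (ii q.1 q.2) q.1.1.2 q.1.1.1 a0 else 0) else 0
        have h5 := (hD.mono hD'D) vv (fun d hd => by
          refine Submodule.sum_mem _ fun q _ => ?_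
          split_ifs with e1 e2
          · refine Submodule.smul_mem _ _ (Submodule.mem_sup_left ?_)
            rw [← e1]
            exact hδR _ _ _ _
          · rw [smul_zero]; exact Submodule.zero_mem _
          · exact Submodule.zero_mem _) (by
          have h6 : ∑ d ∈ D', vv d = ∑ q : Pr × Fin r1,
              η q • (if q.1.1.2 = j0 then δ (ii q.1 q.2) q.1.1.2 q.1.1.1 a0 else 0) := by
            simp only [vv]
            rw [Finset.sum_comm]
            refine Finset.sum_congr rfl fun q _ => ?_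
            have hd : q.1.1.1 ∈ D' := (Finset.mem_product.1 (Finset.mem_filter.1 q.1.2).1).1
            rw [Finset.sum_ite_eq, if_pos hd]
          rw [h6, h3]
          exact W.zero_mem) d0 hd0D
        have h6 : vv d0 = ∑ t, η (q0.1, t) • δ (ii q0.1 t) j0 d0 a0 := by
          simp only [vv]
          rw [Fintype.sum_prod_type, Finset.sum_eq_single q0.1]
          · refine Finset.sum_congr rfl fun t _ => ?_
            rw [if_pos rfl, if_pos rfl]
          · intro p _ hp
            refine Finset.sum_eq_zero fun t _ => ?_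
            by_cases e1 : p.1.1 = d0
            · by_cases e2 : p.1.2 = j0
              · exact absurd (Subtype.ext (Prod.ext e1 e2)) hp
              · rw [if_neg (c := p.1.2 = j0) e2, smul_zero, ite_self]
            · rw [if_neg e1]
          · intro h; exact absurd (Finset.mem_univ _) h
        rwa [h6] at h5
      exact hii q0.1 (fun t => η (q0.1, t)) hone q0.2
  -- the bad indices
  let Bad : Fin M → Prop := fun d => ∃ κ : Fin I → Fin K → k,
    (∀ a, ∑ i, ∑ j, κ i j • δ i j d a ∈ W) ∧ ∃ φ : A →ₗ[k] k, (∀ o ∈ Ω0, φ o = 0) ∧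
      ∑ i, ∑ j, κ i j • ∑ a, φ (ω a * (x i + y j)) • δ i j d a +
        φ (∑ a, ω a * ∑ i, ∑ j, κ i j • δ i j d a) • s d ∉ W
  have hbad : (D.filter Bad).card ≤ (m + m * n) * (m + m * n + v) := by
    have hB : ∀ d, Bad d → ∃ (κ : Fin I → Fin K → k) (φ : A →ₗ[k] k),
        (∀ a, ∑ i, ∑ j, κ i j • δ i j d a ∈ W) ∧ (∀ o ∈ Ω0, φ o = 0) ∧
        ∑ i, ∑ j, κ i j • ∑ a, φ (ω a * (x i + y j)) • δ i j d a +
          φ (∑ a, ω a * ∑ i, ∑ j, κ i j • δ i j d a) • s d ∉ W := by
      rintro d ⟨κ, h3, φ, h4, h5⟩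
      exact ⟨κ, φ, h3, h4, h5⟩
    choose! κ φ hκW hφ0 hφW using hB
    obtain ⟨bW, -, hbWspan, -⟩ := mem_mul_basis W L
    let gen : Fin m1 × Fin n → A := fun q => ω q.1 * bW q.2
    let Ω : Submodule k A := Ω0 ⊔ Submodule.span k (Set.range gen)
    have hgenf : FiniteDimensional k (Submodule.span k (Set.range gen)) :=
      FiniteDimensional.span_of_finite k (Set.finite_range gen)
    have hΩf : FiniteDimensional k Ω :=
      inferInstanceAs (FiniteDimensional k (Ω0 ⊔ Submodule.span k (Set.range gen) : Submodule k A))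
    have hΩfin : finrank k Ω ≤ m + m * n := by
      refine (Submodule.finrank_add_le_finrank_add_finrank _ _).trans ?_
      have h8 := finrank_range_le_card (R := k) gen
      rw [Set.finrank, Fintype.card_prod, Fintype.card_fin, Fintype.card_fin] at h8
      exact Nat.add_le_add h0m (h8.trans (Nat.mul_le_mul_right _ h1m))
    have hgen : ∀ a, ∀ w ∈ W, ω a * w ∈ Ω := by
      intro a w hw
      rw [← hbWspan] at hw
      obtain ⟨c, rfl⟩ := (Submodule.mem_span_range_iff_exists_fun k).1 hw
      rw [Finset.mul_sum]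
      refine Submodule.sum_mem _ fun u _ => ?_
      rw [mul_smul_comm]
      exact Submodule.smul_mem _ _ (Submodule.mem_sup_right (Submodule.subset_span ⟨(a, u), rfl⟩))
    have hDB : ∀ d ∈ D.filter Bad, Bad d := fun d hd => (Finset.mem_filter.1 hd).2
    have hfin := key hL (τ := (Fin I × Fin K × Fin m1) ⊕ (Unit ⊕ Fin (finrank k Ω0))) Ω Ω0 W R
      (D.filter Bad) (hD.mono (Finset.filter_subset _ _))
      (fun d => Sum.elim (fun q => κ d q.1 q.2.1 • (ω q.2.2 * (x q.1 + y q.2.1)))
        (Sum.elim (fun _ => ∑ a, ω a * ∑ i, ∑ j, κ d i j • δ i j d a) b))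
      (fun d => Sum.elim (fun q => δ q.1 q.2.1 d q.2.2)
        (Sum.elim (fun _ => s d) (fun a => -∑ i, ∑ j, κ d i j • γ i j d a))) φ ?_ ?_ ?_ ?_ ?_ ?_
    · exact hfin.trans (Nat.mul_le_mul hΩfin (Nat.add_le_add_right hΩfin v))
    · rintro d hd (q | (u | a))
      · exact Ω.smul_mem _ (hgen _ _ (W.add_mem (hxW _) (hyW _)))
      · change ∑ a, ω a * ∑ i, ∑ j, κ d i j • δ i j d a ∈ Ω
        exact Submodule.sum_mem _ fun a _ => hgen a _ (hκW d (hDB d hd) a)
      · exact Submodule.mem_sup_left (hbΩ0 a)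
    · rintro d hd (q | (u | a))
      · exact hδL _ _ _ _
      · exact hsL d
      · exact L.neg_mem (Submodule.sum_mem _ fun i _ => Submodule.sum_mem _ fun j _ =>
          L.smul_mem _ (hγL _ _ _ _))
    · intro d hd
      rw [Fintype.sum_sum_type, Fintype.sum_sum_type, Fintype.sum_prod_type]
      simp only [Fintype.sum_prod_type, Sum.elim_inl, Sum.elim_inr, Finset.univ_unique,
        Finset.sum_singleton, mul_neg, Finset.sum_neg_distrib]
      have e1 : ∑ a, b a * ∑ i, ∑ j, κ d i j • γ i j d a =
          ∑ i, ∑ j, κ d i j • ((x i + y j + s d) * ∑ a, ω a * δ i j d a) := by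
        simp only [hγe, Finset.mul_sum, Finset.smul_sum]
        rw [Finset.sum_comm]
        refine Finset.sum_congr rfl fun i _ => ?_
        rw [Finset.sum_comm]
        refine Finset.sum_congr rfl fun j _ => Finset.sum_congr rfl fun a _ => ?_
        rw [mul_smul_comm]
      have e2 : (∑ a, ω a * ∑ i, ∑ j, κ d i j • δ i j d a) * s d =
          ∑ i, ∑ j, ∑ a, κ d i j • (ω a * δ i j d a * s d) := by
        simp only [Finset.mul_sum, Finset.sum_mul]
        rw [Finset.sum_comm]
        refine Finset.sum_congr rfl fun i _ => ?_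
        rw [Finset.sum_comm]
        refine Finset.sum_congr rfl fun j _ => Finset.sum_congr rfl fun a _ => ?_
        rw [mul_smul_comm, smul_mul_assoc]
      rw [e1, e2]
      simp only [Finset.mul_sum, Finset.smul_sum]
      rw [← add_assoc, ← Finset.sum_add_distrib, ← sub_eq_add_neg, sub_eq_zero]
      refine Finset.sum_congr rfl fun i _ => ?_
      rw [← Finset.sum_add_distrib]
      refine Finset.sum_congr rfl fun j _ => ?_
      rw [← Finset.sum_add_distrib]
      refine Finset.sum_congr rfl fun a _ => ?_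
      rw [smul_mul_assoc, ← smul_add]
      congr 1
      ring
    · intro d hd z hz
      exact hφ0 d (hDB d hd) z hz
    · rintro d hd (q | (u | a))
      · exact Or.inr (Submodule.mem_sup_left (hδR _ _ _ _))
      · exact Or.inr (Submodule.mem_sup_left (hsR d))
      · exact Or.inl (hbΩ0 a)
    · intro d hd hmem
      apply hφW d (hDB d hd)
      refine (congrArg (· ∈ W) ?_).mp hmem
      rw [Fintype.sum_sum_type, Fintype.sum_sum_type, Fintype.sum_prod_type]
      simp only [Fintype.sum_prod_type, Sum.elim_inl, Sum.elim_inr, Finset.univ_unique,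
        Finset.sum_singleton]
      rw [Finset.sum_eq_zero (s := (Finset.univ : Finset (Fin (finrank k Ω0))))
        (fun a _ => by rw [hφ0 d (hDB d hd) _ (hbΩ0 a), zero_smul]), add_zero]
      congr 1
      refine Finset.sum_congr rfl fun i _ => Finset.sum_congr rfl fun j _ => ?_
      rw [Finset.smul_sum]
      refine Finset.sum_congr rfl fun a _ => ?_
      rw [map_smul, smul_smul, smul_eq_mul]
  -- a good index
  have hgood : ∃ d ∈ D, s d ∉ W ∧ ¬ Heavy d ∧ ¬ Bad d := by
    by_contra hno
    push Not at hno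
    have h3 : D ⊆ (D.filter fun d => s d ∈ W) ∪ D.filter Heavy ∪ D.filter Bad := by
      intro d hd
      by_cases e1 : s d ∈ W
      · simp [hd, e1]
      · by_cases e2 : Heavy d
        · simp [hd, e2]
        · have := hno d hd e1 e2
          simp [hd, this]
    have h4 := Finset.card_le_card h3
    have h5 := Finset.card_union_le ((D.filter fun d => s d ∈ W) ∪ D.filter Heavy) (D.filter Bad)
    have h6 := Finset.card_union_le (D.filter fun d => s d ∈ W) (D.filter Heavy)
    have h7 : sunPhi m v K n = K + (m + m * n) * (m + m * n + v) + n + 1 := rfl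
    omega
  obtain ⟨d, hdD, hdW, hdH, hdB⟩ := hgood
  have hfin := finish hL h1L h2 (r1 := r1) (by omega) Ω0 W hdW (hsL d) x y ω
    (fun a i j => δ i j d a) hxL hyL hF hy1 (fun i j => hδ0 i j d) (fun i j => hδE i j d) (by
      intro κ hκ φ hφ
      by_contra hnot
      exact hdB ⟨κ, hκ, φ, hφ, hnot⟩) (Finset.univ.filter fun j => ¬ Rich d j) (by
      intro j hj
      exact (Finset.mem_filter.1 hj).2)
  have h3 := Finset.card_filter_add_card_filter_not (s := (Finset.univ : Finset (Fin K)))
    (fun j => Rich d j)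
  rw [Finset.card_univ, Fintype.card_fin] at h3
  have h4 : 4 * (Finset.univ.filter fun j => Rich d j).card ≤ 3 * K := not_lt.1 hdH
  have h5 : (finrank k Ω0 + 3 * (m1 * I)) * (finrank k Ω0 + 3 * (m1 * I) + v) ≤
      (m + 3 * (m * I)) * (m + 3 * (m * I) + v) := by gcongr
  omega

end

end Pool.Agent.R350
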