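import Pool.Agent.R350.Grid
import Pool.Agent.TH681.QC.Rate

/-!
# Generic integers: the density theorem
-/

set_option autoImplicit false

namespace Pool.Agent.R350

open Module Finset

section

variable {k A : Type*} [Field k] [Field A] [Algebra k A]

theorem HypV.mono {v v' : ℕ} {L L' : Submodule k A} (h : HypV v L) (hv : v ≤ v') (hL : L' ≤ L) :
    HypV v' L' := by
  intro d l x a hx ha h0 hi
  exact (h d l x a hx (fun i j => hL (ha i j)) h0 hi).trans
    (Nat.mul_le_mul_left _ (Nat.add_le_add_left hv _))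

/-- adding a finite dimensional space -/
theorem HypV.sup {v u : ℕ} {L : Submodule k A} (hL : HypV v L) (V : Submodule k A)
    [FiniteDimensional k V] (hV : finrank k V ≤ u) : HypV (v + u) (L ⊔ V) := by
  classical
  intro d l x a hx ha h0 hi
  let Vq : Submodule k (A ⧸ L) := V.map L.mkQ
  have hVq : finrank k Vq ≤ u := (Submodule.finrank_map_le L.mkQ V).trans hV
  have hmem : ∀ z ∈ L ⊔ V, L.mkQ z ∈ Vq := by
    intro z hz
    obtain ⟨y, hy, w, hw, rfl⟩ := Submodule.mem_sup.1 hz
    rw [map_add, (Submodule.mkQ_apply L y), (Submodule.Quotient.mk_eq_zero L).2 hy, zero_add]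
    exact Submodule.mem_map_of_mem hw
  let T : (Fin l → k) →ₗ[k] (Fin d → Vq) := LinearMap.pi fun i =>
    LinearMap.codRestrict Vq (Fintype.linearCombination k (fun j => L.mkQ (a i j))) (by
      intro c
      rw [Fintype.linearCombination_apply]
      exact Submodule.sum_mem _ fun j _ => Submodule.smul_mem _ _ (hmem _ (ha i j)))
  have hrank := T.finrank_range_add_finrank_ker
  rw [Module.finrank_fin_fun] at hrank
  have hrange : finrank k (LinearMap.range T) ≤ d * u := by
    refine (Submodule.finrank_le _).trans ?_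
    rw [Module.finrank_pi_fintype, Finset.sum_const, Finset.card_univ, Fintype.card_fin,
      smul_eq_mul]
    exact Nat.mul_le_mul_left _ hVq
  let b := Module.finBasis k (LinearMap.ker T)
  have hb : ∀ j' i, ∑ j, ((b j' : LinearMap.ker T) : Fin l → k) j • a i j ∈ L := by
    intro j' i
    have h1 : T (b j' : LinearMap.ker T) = 0 := (b j').2
    have h2 := congrArg (fun z : Fin d → Vq => ((z i : Vq) : A ⧸ L)) h1
    simp only [T, LinearMap.pi_apply, LinearMap.codRestrict_apply,
      Fintype.linearCombination_apply, Pi.zero_apply, Submodule.coe_zero] at h2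
    rw [← Submodule.Quotient.mk_eq_zero, ← Submodule.mkQ_apply, map_sum]
    rw [← h2]
    exact Finset.sum_congr rfl fun j _ => by rw [map_smul]
  have h3 := hL d (finrank k (LinearMap.ker T)) x
    (fun i j' => ∑ j, ((b j' : LinearMap.ker T) : Fin l → k) j • a i j) hx (fun i j' => hb j' i)
    (fun j' => by
      have h4 : ∑ i, x i * ∑ j, ((b j' : LinearMap.ker T) : Fin l → k) j • a i j =
          ∑ j, ((b j' : LinearMap.ker T) : Fin l → k) j • ∑ i, x i * a i j := by
        simp only [Finset.mul_sum, Finset.smul_sum]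
        rw [Finset.sum_comm]
        exact Finset.sum_congr rfl fun j _ => Finset.sum_congr rfl fun i _ => by
          rw [mul_smul_comm]
      rw [h4]
      exact Finset.sum_eq_zero fun j _ => by rw [h0 j, smul_zero])
    (by
      rw [Fintype.linearIndependent_iff]
      intro η hη
      have h5 : ∑ j, (∑ j', η j' * ((b j' : LinearMap.ker T) : Fin l → k) j) •
          (fun i => a i j) = 0 := by
        funext i
        have h6 := congrFun hη i
        simp only [Finset.sum_apply, Pi.smul_apply, Pi.zero_apply, Finset.smul_sum,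
          smul_smul] at h6 ⊢
        rw [← h6, Finset.sum_comm]
        exact Finset.sum_congr rfl fun j _ => by rw [Finset.sum_smul]
      have h6 := Fintype.linearIndependent_iff.1 hi _ h5
      have h7 : ∑ j', η j' • b j' = 0 := by
        apply Subtype.ext
        funext j
        have h8 := h6 j
        simp only [Submodule.coe_sum, Submodule.coe_smul, Finset.sum_apply, Pi.smul_apply,
          smul_eq_mul, Submodule.coe_zero, Pi.zero_apply]
        exact h8
      exact Fintype.linearIndependent_iff.1 b.linearIndependent η h7)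
  have h4 : d * (d + (v + u)) = d * (d + v) + d * u := by ring
  omega

/-- the support of the relations over `Ω` -/
theorem exists_support {v : ℕ} {L : Submodule k A} (hL : HypV v L) (Ω : Submodule k A)
    [FiniteDimensional k Ω] : ∃ F : Submodule k A, FiniteDimensional k F ∧
      finrank k F ≤ finrank k Ω * (finrank k Ω + v) * finrank k Ω ∧ F ≤ L ∧
      ∀ (τ : Type) [Fintype τ] (ω ℓ : τ → A), (∀ t, ω t ∈ Ω) → (∀ t, ℓ t ∈ L) →
        ∑ t, ω t * ℓ t = 0 → ∀ φ : A →ₗ[k] k, ∑ t, φ (ω t) • ℓ t ∈ F := by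
  classical
  let b := Module.finBasis k Ω
  have hbl : LinearIndependent k (fun u => ((b u : Ω) : A)) :=
    b.linearIndependent.map' Ω.subtype Ω.ker_subtype
  let Rel : Submodule k (Fin (finrank k Ω) → A) :=
    { carrier := {ℓ | (∀ u, ℓ u ∈ L) ∧ ∑ u, ((b u : Ω) : A) * ℓ u = 0}
      add_mem' := by
        rintro ℓ ℓ' ⟨h1, h2⟩ ⟨h3, h4⟩
        refine ⟨fun u => L.add_mem (h1 u) (h3 u), ?_⟩
        simp only [Pi.add_apply, mul_add, Finset.sum_add_distrib, h2, h4, add_zero]
      zero_mem' := ⟨fun _ => L.zero_mem, by simp⟩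
      smul_mem' := by
        rintro c ℓ ⟨h1, h2⟩
        refine ⟨fun u => L.smul_mem _ (h1 u), ?_⟩
        simp only [Pi.smul_apply, mul_smul_comm, ← Finset.smul_sum, h2, smul_zero] }
  have hrank : Module.rank k Rel ≤ (finrank k Ω * (finrank k Ω + v) : ℕ) := by
    apply rank_le
    intro s hs
    let e := Fintype.equivFin s
    rw [← Fintype.card_coe s]
    refine hL (finrank k Ω) (Fintype.card s) (fun u => ((b u : Ω) : A))
      (fun u j => ((e.symm j : s) : Rel).1 u) hbl (fun u j => ((e.symm j : s) : Rel).2.1 u)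
      (fun j => ((e.symm j : s) : Rel).2.2) ?_
    have h1 := (hs.map' Rel.subtype Rel.ker_subtype).comp e.symm e.symm.injective
    exact h1
  have hfin : Module.Finite k Rel := by
    rw [← Module.rank_lt_aleph0_iff]
    exact lt_of_le_of_lt hrank Cardinal.natCast_lt_aleph0
  have hfr : finrank k Rel ≤ finrank k Ω * (finrank k Ω + v) := Module.finrank_le_of_rank_le hrank
  let r := Module.finBasis k Rel
  let gen : Fin (finrank k Rel) × Fin (finrank k Ω) → A := fun q => (r q.1 : Rel).1 q.2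
  refine ⟨Submodule.span k (Set.range gen), FiniteDimensional.span_of_finite k
    (Set.finite_range gen), ?_, ?_, ?_⟩
  · have h8 := finrank_range_le_card (R := k) gen
    rw [Set.finrank, Fintype.card_prod, Fintype.card_fin, Fintype.card_fin] at h8
    exact h8.trans (Nat.mul_le_mul_right _ hfr)
  · rw [Submodule.span_le]
    rintro _ ⟨q, rfl⟩
    exact (r q.1 : Rel).2.1 q.2
  · intro τ _ ω ℓ hω hℓ h0 φ
    have hrepr : ∀ t, ∑ u, (b.repr ⟨ω t, hω t⟩ u) • ((b u : Ω) : A) = ω t := by
      intro t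
      have h1 := b.sum_repr ⟨ω t, hω t⟩
      have h2 := congrArg (fun z : Ω => (z : A)) h1
      simp only [Submodule.coe_sum, Submodule.coe_smul] at h2
      exact h2
    let ℓ' : Rel := ⟨fun u => ∑ t, (b.repr ⟨ω t, hω t⟩ u) • ℓ t, by
      refine ⟨fun u => Submodule.sum_mem _ fun t _ => L.smul_mem _ (hℓ t), ?_⟩
      rw [← h0]
      simp only [Finset.mul_sum]
      rw [Finset.sum_comm]
      refine Finset.sum_congr rfl fun t _ => ?_
      nth_rewrite 2 [← hrepr t]
      rw [Finset.sum_mul]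
      refine Finset.sum_congr rfl fun u _ => ?_
      rw [mul_smul_comm, smul_mul_assoc]⟩
    have hmem : ∀ u, ℓ'.1 u ∈ Submodule.span k (Set.range gen) := by
      intro u
      have h1 := r.sum_repr ℓ'
      have h2 := congrArg (fun z : Rel => z.1 u) h1
      simp only [Submodule.coe_sum, Submodule.coe_smul, Finset.sum_apply, Pi.smul_apply] at h2
      rw [← h2]
      exact Submodule.sum_mem _ fun q _ => Submodule.smul_mem _ _
        (Submodule.subset_span ⟨(q, u), rfl⟩)
    have h1 : ∑ t, φ (ω t) • ℓ t = ∑ u, φ ((b u : Ω) : A) • ℓ'.1 u := by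
      have h2 : ∀ t, φ (ω t) = ∑ u, (b.repr ⟨ω t, hω t⟩ u) * φ ((b u : Ω) : A) := by
        intro t
        nth_rewrite 1 [← hrepr t]
        rw [map_sum]
        exact Finset.sum_congr rfl fun u _ => by rw [map_smul, smul_eq_mul]
      simp only [h2, Finset.sum_smul, ℓ', Finset.smul_sum, smul_smul]
      rw [Finset.sum_comm]
      exact Finset.sum_congr rfl fun u _ => Finset.sum_congr rfl fun t _ => by rw [mul_comm]
    rw [h1]
    exact Submodule.sum_mem _ fun u _ => Submodule.smul_mem _ _ (hmem u)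

/-- the grid theorem, avoiding a finite dimensional space -/
theorem grid_avoid {v m : ℕ} {L : Submodule k A} (hL : HypV v L) (h1L : (1 : A) ∈ L)
    (h2 : (2 : k) ≠ 0) (Ω0 Ω1 F : Submodule k A) [FiniteDimensional k Ω0]
    [FiniteDimensional k Ω1] [FiniteDimensional k F]
    (h0m : finrank k Ω0 ≤ m) (h1m : finrank k Ω1 ≤ m) (hFm : finrank k F ≤ m) {z : A}
    (hz : z ∈ L) (w : Fin (gridR m v + m + 1) → A) (hwL : ∀ i, w i ∈ L)
    (hw : LinearIndependent k w) :
    ∃ S : Finset (Fin (gridR m v + m + 1)), S.card = 3 ∧ z + ∑ i ∈ S, w i ∉ F ∧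
      ¬ Exc L Ω0 Ω1 (z + ∑ i ∈ S, w i) := by
  classical
  obtain ⟨T, hT, hTi⟩ := deletion w hw (F ⊔ Submodule.span k {z})
  have hV : finrank k (F ⊔ Submodule.span k {z} : Submodule k A) ≤ m + 1 := by
    refine (Submodule.finrank_add_le_finrank_add_finrank _ _).trans ?_
    have := finrank_span_finset_le_card (R := k) ({z} : Finset A)
    rw [Finset.coe_singleton, Finset.card_singleton] at this
    exact Nat.add_le_add hFm this
  rw [Fintype.card_fin] at hT
  obtain ⟨f⟩ := Function.Embedding.nonempty_of_card_le (α := Fin (gridR m v)) (β := T) (by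
    rw [Fintype.card_fin, Fintype.card_coe]
    omega)
  have hfi : Function.Injective (fun e => (f e).1) := fun a b h => f.injective (Subtype.ext h)
  obtain ⟨S, hS, hSE⟩ := grid hL h1L h2 Ω0 Ω1 h0m h1m hz (fun i => w (f i)) (fun i => hwL _)
    (hw.comp _ hfi)
  refine ⟨S.map ⟨fun i => (f i).1, hfi⟩, by rw [Finset.card_map, hS], ?_, ?_⟩
  · rw [Finset.sum_map]
    intro hmem
    have h1 : ∑ i ∈ S, w (f i) ∈ (F ⊔ Submodule.span k {z} : Submodule k A) := by
      have h2 := Submodule.sub_mem (F ⊔ Submodule.span k {z})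
        (Submodule.mem_sup_left (T := Submodule.span k {z}) hmem)
        (Submodule.mem_sup_right (S := F) (Submodule.mem_span_singleton_self z))
      rwa [add_sub_cancel_left] at h2
    obtain ⟨i0, hi0⟩ : S.Nonempty := by rw [← Finset.card_pos, hS]; norm_num
    have h3 := hTi (fun i => if i ∈ S.map ⟨fun i => (f i).1, hfi⟩ then 1 else 0) (by
      intro i hi
      rw [if_neg]
      rintro h
      obtain ⟨j, -, rfl⟩ := Finset.mem_map.1 h
      exact hi (f j).2) (by
      simp only [ite_smul, one_smul, zero_smul]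
      rw [Finset.sum_ite_mem, Finset.univ_inter, Finset.sum_map]
      exact h1) (f i0)
    simp only [ite_eq_right_iff, one_ne_zero, imp_false] at h3
    exact h3 (Finset.mem_map.2 ⟨i0, hi0, rfl⟩)
  · rw [Finset.sum_map]
    exact hSE

end

open Pool.Agent.W245 Pool.Agent.W245.PB Pool.Agent.TH681.QC

/-- the setting: a space `L` with the hyperplane property which contains `1` and the values of a
logarithm -/
structure Setup (v : ℕ) {κ C : Type*} [Field κ] [Field C] [Algebra κ C] (lg : ℕ → C)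
    (L : Submodule κ C) : Prop where
  two : (2 : κ) ≠ 0
  lglike : LogLike κ lg
  hyp : HypV v L
  one : (1 : C) ∈ L
  mem : ∀ n, 0 < n → lg n ∈ L

/-- **The one-variable density theorem.** -/
theorem one_var (m v : ℕ) : ∃ c : ℕ, ∀ x ≥ 16,
    ∀ (κ C : Type) [Field κ] [Field C] [Algebra κ C] (lg : ℕ → C) (L : Submodule κ C),
    Setup v lg L → ∀ Ω0 Ω1 F : Submodule κ C, Module.Finite κ Ω0 → Module.Finite κ Ω1 →
    Module.Finite κ F → finrank κ Ω0 ≤ m → finrank κ Ω1 ≤ m → finrank κ F ≤ m →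
    ∀ A : Finset ℕ, A ⊆ Ioc 0 x → (∀ n ∈ A, lg n ∈ F ∨ Exc L Ω0 Ω1 (lg n)) →
    (A.card : ℝ) ≤ er c x * x := by
  classical
  obtain ⟨c, hc⟩ := cubes_er (gridR m v + m + 1) 0
  refine ⟨c, fun x hx κ C _ _ _ lg L hS Ω0 Ω1 F h1 h2 h3 h4 h5 h6 A hA hbad => ?_⟩
  by_contra hcon
  push Not at hcon
  obtain ⟨a, p, q, ha, hp, hq, hinj, hcube⟩ := hc x hx A hA hcon
  obtain ⟨S, -, hS1, hS2⟩ := grid_avoid hS.hyp hS.one hS.two Ω0 Ω1 F h4 h5 h6
    (z := lg (a * ∏ i, p i)) (hS.mem _ (Nat.mul_pos ha
      (Finset.prod_pos fun i _ => (hp i).1.pos)))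
    (fun i => lg (q i) - lg (p i))
    (fun i => L.sub_mem (hS.mem _ (hq i).1.pos) (hS.mem _ (hp i).1.pos))
    (hS.lglike.indep _ p q (fun i => (hp i).1) (fun i => (hq i).1) hinj)
  have h7 := hbad _ (hcube S)
  rw [hS.lglike.cube a p q ha (fun i => (hp i).1.pos) (fun i => (hq i).1.pos) S] at h7
  rcases h7 with h7 | h7
  · exact hS1 h7
  · exact hS2 h7

/-- the number `a j` is bad with respect to spaces which depend on the preceding ones -/
def BadAt {κ C : Type*} [Field κ] [Field C] [Algebra κ C] (lg : ℕ → C) (L : Submodule κ C)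
    {k : ℕ} (Ω0 Ω1 F : Fin k → (Fin k → ℕ) → Submodule κ C) (a : Fin k → ℕ) (j : Fin k) : Prop :=
  lg (a j) ∈ F j a ∨ Exc L (Ω0 j a) (Ω1 j a) (lg (a j))

/-- spaces of bounded dimension which depend on the preceding coordinates -/
structure Pred (m : ℕ) {κ C : Type*} [Field κ] [Field C] [Algebra κ C]
    {k : ℕ} (Ω : Fin k → (Fin k → ℕ) → Submodule κ C) : Prop where
  dep : ∀ j a b, (∀ i < j, a i = b i) → Ω j a = Ω j b
  fin : ∀ j a, Module.Finite κ (Ω j a)
  le : ∀ j a, finrank κ (Ω j a) ≤ m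

theorem Pred.tail {m : ℕ} {κ C : Type*} [Field κ] [Field C] [Algebra κ C]
    {k : ℕ} {Ω : Fin (k + 1) → (Fin (k + 1) → ℕ) → Submodule κ C} (h : Pred m Ω) (a0 : ℕ) :
    Pred m (fun (j : Fin k) (a : Fin k → ℕ) => Ω j.succ (Fin.cons a0 a)) := by
  refine ⟨fun j a b hab => h.dep _ _ _ ?_, fun j a => h.fin _ _, fun j a => h.le _ _⟩
  intro i hi
  refine Fin.cases ?_ ?_ i hi
  · intro _; simp
  · intro i' hi'
    simp only [Fin.cons_succ]
    exact hab i' (by simpa using hi')

/-- **The density theorem for tuples.** -/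
theorem chain (m v : ℕ) (k : ℕ) : ∃ c : ℕ, ∀ x ≥ 16,
    ∀ (κ C : Type) [Field κ] [Field C] [Algebra κ C] (lg : ℕ → C) (L : Submodule κ C),
    Setup v lg L → ∀ Ω0 Ω1 F : Fin k → (Fin k → ℕ) → Submodule κ C, Pred m Ω0 → Pred m Ω1 →
    Pred m F → ∀ B : Finset (Fin k → ℕ), B ⊆ Fintype.piFinset (fun _ : Fin k => Ioc 0 x) →
    (∀ a ∈ B, ∃ j, BadAt lg L Ω0 Ω1 F a j) → (B.card : ℝ) ≤ er c x * x ^ k := by
  classical
  induction k with
  | zero =>
    refine ⟨0, fun x hx κ C _ _ _ lg L hS Ω0 Ω1 F h0 h1 hF B hB hbad => ?_⟩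
    have : B = ∅ := by
      rw [Finset.eq_empty_iff_forall_notMem]
      intro a ha
      obtain ⟨j, -⟩ := hbad a ha
      exact j.elim0
    rw [this]
    simp [er_nonneg 0 hx]
  | succ k ih =>
    obtain ⟨c₁, hc₁⟩ := one_var m v
    obtain ⟨c₂, hc₂⟩ := ih
    refine ⟨2 * (c₁ + c₂ + 1), fun x hx κ C _ _ _ lg L hS Ω0 Ω1 F h0 h1 hF B hB hbad => ?_⟩
    refine count_cons k x _ (er_pos _ (by omega) hx) (fun a => ∃ j, BadAt lg L Ω0 Ω1 F a j)
      ((Ioc 0 x).filter (fun n => lg n ∈ F 0 (fun _ => n) ∨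
        Exc L (Ω0 0 (fun _ => n)) (Ω1 0 (fun _ => n)) (lg n)))
      (Finset.filter_subset _ _) ?_ ?_ B hB hbad
    · have e0 : ∀ n : ℕ, Ω0 0 (fun _ => n) = Ω0 0 (fun _ => 0) := fun n =>
        h0.dep _ _ _ (fun i hi => absurd hi (Fin.not_lt_zero i))
      have e1 : ∀ n : ℕ, Ω1 0 (fun _ => n) = Ω1 0 (fun _ => 0) := fun n =>
        h1.dep _ _ _ (fun i hi => absurd hi (Fin.not_lt_zero i))
      have e2 : ∀ n : ℕ, F 0 (fun _ => n) = F 0 (fun _ => 0) := fun n =>
        hF.dep _ _ _ (fun i hi => absurd hi (Fin.not_lt_zero i))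
      refine (hc₁ x hx κ C lg L hS (Ω0 0 (fun _ => 0)) (Ω1 0 (fun _ => 0)) (F 0 (fun _ => 0))
        (h0.fin _ _) (h1.fin _ _) (hF.fin _ _) (h0.le _ _) (h1.le _ _) (hF.le _ _)
        _ (Finset.filter_subset _ _) (fun n hn => by
          have h3 := (Finset.mem_filter.1 hn).2
          rwa [e0, e1, e2] at h3)).trans ?_
      have := er_half (c := c₁) (d := c₁ + c₂ + 1) (by omega) hx
      gcongr
    · intro a0 ha0 ha0A B' hB' hbad'
      have ha : ¬ (lg a0 ∈ F 0 (fun _ => a0) ∨
          Exc L (Ω0 0 (fun _ => a0)) (Ω1 0 (fun _ => a0)) (lg a0)) := fun h =>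
        ha0A (Finset.mem_filter.2 ⟨ha0, h⟩)
      refine (hc₂ x hx κ C lg L hS _ _ _ (h0.tail a0) (h1.tail a0) (hF.tail a0) B' hB' ?_).trans ?_
      · intro a haB
        obtain ⟨j, hj⟩ := hbad' a haB
        revert hj
        refine Fin.cases ?_ ?_ j
        · intro hj
          exfalso
          apply ha
          unfold BadAt at hj
          rw [Fin.cons_zero] at hj
          rwa [h0.dep 0 (Fin.cons a0 a) (fun _ => a0)
            (fun i hi => absurd hi (Fin.not_lt_zero i)),
            h1.dep 0 (Fin.cons a0 a) (fun _ => a0) (fun i hi => absurd hi (Fin.not_lt_zero i)),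
            hF.dep 0 (Fin.cons a0 a) (fun _ => a0)
              (fun i hi => absurd hi (Fin.not_lt_zero i))] at hj
        · intro j' hj
          refine ⟨j', ?_⟩
          unfold BadAt at hj ⊢
          rwa [Fin.cons_succ] at hj
      · have := er_half (c := c₂) (d := c₁ + c₂ + 1) (by omega) hx
        gcongr

end Pool.Agent.R350
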