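import Pool.Agent.R350.Sun

/-!
# The grid theorem: one good index
-/

set_option autoImplicit false

namespace Pool.Agent.R350

open Module Finset

section

variable {k A : Type*} [Field k] [Field A] [Algebra k A]

/-- elements of `Ω * L` for a finitely generated `Ω` -/
theorem mem_mul_span {τ : Type*} [Fintype τ] (ω : τ → A) (L : Submodule k A) {z : A}
    (hz : z ∈ Submodule.span k (Set.range ω) * L) :
    ∃ δ : τ → A, (∀ a, δ a ∈ L) ∧ z = ∑ a, ω a * δ a := by
  classical
  induction hz using Submodule.mul_induction_on' with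
  | mem_mul_mem p hp l hl =>
    obtain ⟨c, hc⟩ := (Submodule.mem_span_range_iff_exists_fun k).1 hp
    refine ⟨fun a => c a • l, fun a => L.smul_mem _ hl, ?_⟩
    rw [← hc, Finset.sum_mul]
    refine Finset.sum_congr rfl fun a _ => ?_
    rw [smul_mul_assoc, mul_smul_comm]
  | add p _ q _ hp hq =>
    obtain ⟨δ, h1, h2⟩ := hp
    obtain ⟨δ', h3, h4⟩ := hq
    refine ⟨fun a => δ a + δ' a, fun a => L.add_mem (h1 a) (h3 a), ?_⟩
    rw [h2, h4, ← Finset.sum_add_distrib]
    refine Finset.sum_congr rfl fun a _ => ?_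
    ring

/-- elements of `Ω * L` for a finite dimensional `Ω` -/
theorem mem_mul_basis (Ω : Submodule k A) [FiniteDimensional k Ω] (L : Submodule k A) :
    ∃ ω : Fin (finrank k Ω) → A, LinearIndependent k ω ∧ Submodule.span k (Set.range ω) = Ω ∧
      ∀ z ∈ Ω * L, ∃ δ : Fin (finrank k Ω) → A, (∀ a, δ a ∈ L) ∧ z = ∑ a, ω a * δ a := by
  classical
  let b := Module.finBasis k Ω
  have h1 : Submodule.span k (Set.range fun u => ((b u : Ω) : A)) = Ω := by
    have h2 := b.span_eq
    have h3 := congrArg (Submodule.map Ω.subtype) h2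
    rw [Submodule.map_span, Submodule.map_top, Submodule.range_subtype, ← Set.range_comp] at h3
    exact h3
  refine ⟨fun u => ((b u : Ω) : A), b.linearIndependent.map' Ω.subtype Ω.ker_subtype, h1, ?_⟩
  intro z hz
  rw [← h1] at hz
  exact mem_mul_span _ L hz

/-- a nontrivial relation with prescribed support -/
theorem exists_rel {ι : Type*} [Fintype ι] {n : ℕ} (S : Finset ι) (α : ι → Fin n → k)
    (h : n < S.card) : ∃ c : ι → k, (∀ i, c i ≠ 0 → i ∈ S) ∧ (∃ i, c i ≠ 0) ∧
      ∀ a, ∑ i, c i * α i a = 0 := by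
  classical
  have hdep : ¬ LinearIndependent k (fun i : S => α i) := by
    intro h'
    have := h'.fintype_card_le_finrank
    rw [Fintype.card_coe, Module.finrank_fin_fun] at this
    omega
  rw [Fintype.not_linearIndependent_iff] at hdep
  obtain ⟨c, hc1, i0, hc2⟩ := hdep
  let c' : ι → k := fun i => if h : i ∈ S then c ⟨i, h⟩ else 0
  have hc' : ∀ i : S, c' i = c i := fun i => dif_pos i.2
  have hc'' : ∀ i, i ∉ S → c' i = 0 := fun i hi => dif_neg hi
  refine ⟨c', fun i hi => ?_, ⟨i0, ?_⟩, fun a => ?_⟩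
  · by_contra h'
    exact hi (hc'' i h')
  · rw [hc']
    exact hc2
  · have h8 := congrFun hc1 a
    simp only [Finset.sum_apply, Pi.smul_apply, smul_eq_mul, Pi.zero_apply] at h8
    refine Eq.trans ?_ h8
    rw [← Finset.sum_subset (Finset.subset_univ S)
      (fun i _ hi => by rw [hc'' i hi, zero_mul]), ← Finset.sum_coe_sort S]
    exact Finset.sum_congr rfl fun i _ => by rw [hc']

theorem expand {ι : Type*} [Fintype ι] (c : ι → k) (X F G : ι → A) (y s : A) :
    ∑ i, c i • (F i * (s * s) + s * G i + (X i + y) * G i - (X i + y) * (X i + y) * F i) =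
      (∑ i, c i • F i) * (s * s) + s * (∑ i, c i • G i) +
      (∑ i, c i • (X i * G i) + y * (∑ i, c i • G i)) -
      (∑ i, c i • (X i * X i * F i) + (2 : k) • (y * ∑ i, c i • (X i * F i)) +
        y * y * ∑ i, c i • F i) := by
  simp only [Finset.sum_mul, Finset.mul_sum, Finset.smul_sum, ← Finset.sum_add_distrib,
    ← Finset.sum_sub_distrib]
  refine Finset.sum_congr rfl fun i _ => ?_
  simp only [Algebra.smul_def, map_ofNat]
  ring

/-- **One good index.** -/
theorem finish {v : ℕ} {L : Submodule k A} (hL : HypV v L) (h1L : (1 : A) ∈ L) (h2 : (2 : k) ≠ 0)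
    {m1 I K r1 : ℕ} (hI : r1 + m1 ≤ I) (Ω0 W : Submodule k A) [FiniteDimensional k Ω0] {s : A}
    (hs : s ∉ W) (hsL : s ∈ L)
    (x : Fin I → A) (y : Fin K → A) (ω : Fin m1 → A) (δ : Fin m1 → Fin I → Fin K → A)
    (hxL : ∀ i, x i ∈ L) (hyL : ∀ j, y j ∈ L)
    (hF : ∀ z : Fin m1 → Fin I → k, ∃ φ : A →ₗ[k] k, (∀ o ∈ Ω0, φ o = 0) ∧
      (∀ a i, φ (ω a * x i) = z a i) ∧ ∀ a j, φ (ω a * y j) = 0)
    (hy1 : ∀ (c0 : k) (c : Fin K → k), c0 • (1 : A) + ∑ j, c j • y j = 0 → ∀ j, c j = 0)
    (hm : ∀ i j, ∑ a, ω a * δ a i j ∉ Ω0)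
    (hE : ∀ i j, (x i + y j + s) * ∑ a, ω a * δ a i j ∈ Ω0 * L)
    (hG : ∀ κ : Fin I → Fin K → k, (∀ a, ∑ i, ∑ j, κ i j • δ a i j ∈ W) →
      ∀ φ : A →ₗ[k] k, (∀ o ∈ Ω0, φ o = 0) →
      ∑ i, ∑ j, κ i j • ∑ a, φ (ω a * (x i + y j)) • δ a i j +
        φ (∑ a, ω a * ∑ i, ∑ j, κ i j • δ a i j) • s ∈ W)
    (J : Finset (Fin K)) (hJ : ∀ j ∈ J, ¬ ∃ i : Fin r1 → Fin I, ∀ c : Fin r1 → k,
      (∀ a, ∑ t, c t • δ a (i t) j ∈ W) → ∀ t, c t = 0) :
    J.card ≤ (finrank k Ω0 + 3 * (m1 * I)) * (finrank k Ω0 + 3 * (m1 * I) + v) := by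
  classical
  set Nice : Fin I → Fin K → Prop := fun i j => ∀ a, δ a i j ∈ W ⊔ Submodule.span k {s} with hNice
  -- step 4
  have h4 : ∀ j ∈ J, (Finset.univ.filter fun i => ¬ Nice i j).card < r1 := by
    intro j hj
    by_contra hlt
    push Not at hlt
    obtain ⟨T, hT, hTc⟩ := Finset.exists_subset_card_eq hlt
    apply hJ j hj
    let f := T.orderEmbOfFin hTc
    refine ⟨fun t => f t, fun c hc t0 => ?_⟩
    by_contra hne
    have hnn : ¬ Nice (f t0) j := (Finset.mem_filter.1 (hT (Finset.orderEmbOfFin_mem T hTc t0))).2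
    apply hnn
    intro a0
    obtain ⟨φ, hφ0, hφx, hφy⟩ := hF (fun a i => if a = a0 ∧ i = f t0 then 1 else 0)
    let κ : Fin I → Fin K → k := fun i j' => if j' = j then ∑ t, (if f t = i then c t else 0) else 0
    have hκ : ∀ (g : Fin I → Fin K → A),
        ∑ i, ∑ j', κ i j' • g i j' = ∑ t, c t • g (f t) j := by
      intro g
      have e1 : ∀ i, ∑ j', κ i j' • g i j' = ∑ t, (if f t = i then c t • g i j else 0) := by
        intro i
        rw [Finset.sum_eq_single j]
        · simp only [κ, if_true, Finset.sum_smul]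
          refine Finset.sum_congr rfl fun t _ => ?_
          split_ifs <;> simp
        · intro b _ hb
          simp [κ, hb]
        · intro h; exact absurd (Finset.mem_univ _) h
      rw [Finset.sum_congr rfl fun i _ => e1 i, Finset.sum_comm]
      refine Finset.sum_congr rfl fun t _ => ?_
      rw [Finset.sum_ite_eq]
      simp
    have hG' := hG κ (fun a => by rw [hκ (fun i j => δ a i j)]; exact hc a) φ hφ0
    rw [hκ (fun i j => ∑ a, φ (ω a * (x i + y j)) • δ a i j)] at hG'
    have e2 : ∑ t, c t • ∑ a, φ (ω a * (x (f t) + y j)) • δ a (f t) j =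
        c t0 • δ a0 (f t0) j := by
      rw [Finset.sum_eq_single t0]
      · congr 1
        rw [Finset.sum_eq_single a0]
        · rw [mul_add, map_add, hφx, hφy]
          simp
        · intro b _ hb
          rw [mul_add, map_add, hφx, hφy]
          simp [hb]
        · intro h; exact absurd (Finset.mem_univ _) h
      · intro t _ ht
        rw [Finset.sum_eq_zero, smul_zero]
        intro a _
        rw [mul_add, map_add, hφx, hφy]
        have : f t ≠ f t0 := fun h => ht (f.injective h)
        simp [this]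
      · intro h; exact absurd (Finset.mem_univ _) h
    rw [e2] at hG'
    set u := φ (∑ a, ω a * ∑ i, ∑ j, κ i j • δ a i j) with hu
    have e3 : δ a0 (f t0) j = (c t0)⁻¹ • (c t0 • δ a0 (f t0) j + u • s) +
        (-((c t0)⁻¹ * u)) • s := by
      rw [smul_add, smul_smul, smul_smul, inv_mul_cancel₀ hne, one_smul, neg_smul]
      ring
    change δ a0 (f t0) j ∈ _
    rw [e3]
    exact Submodule.add_mem_sup (W.smul_mem _ hG') (Submodule.smul_mem _ _
      (Submodule.mem_span_singleton_self s))
  -- step 5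
  have h5 : ∀ i j, Nice i j → ∃ (α : Fin m1 → k) (w : Fin m1 → A), (∀ a, w a ∈ W) ∧
      ∀ a, δ a i j = α a • s + w a := by
    intro i j hn
    have : ∀ a, ∃ (α : k) (w : A), w ∈ W ∧ δ a i j = α • s + w := by
      intro a
      obtain ⟨w, hw, u, hu, h⟩ := Submodule.mem_sup.1 (hn a)
      obtain ⟨α, rfl⟩ := Submodule.mem_span_singleton.1 hu
      exact ⟨α, w, hw, by rw [← h, add_comm]⟩
    choose α w h1 h2 using this
    exact ⟨α, w, h1, h2⟩
  choose! α w hwW hαw using h5
  let AA : Fin I → Fin K → A := fun i j => ∑ a, α i j a • ω a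
  let ww : Fin I → Fin K → A := fun i j => ∑ a, ω a * w i j a
  -- step 5b
  have h5b : ∀ κ : Fin I → Fin K → k, (∀ i j, κ i j ≠ 0 → Nice i j) →
      (∀ a, ∑ i, ∑ j, κ i j * α i j a = 0) →
      ∑ i, ∑ j, κ i j • ((x i + y j) * AA i j + ww i j) ∈ Ω0 := by
    intro κ hκn hκα
    by_contra hne
    obtain ⟨φ, hφ0, hφ1⟩ := exists_dual_ne Ω0 hne
    have e1 : ∀ a i j, κ i j • δ a i j = (κ i j * α i j a) • s + κ i j • w i j a := by
      intro a i j
      by_cases h : κ i j = 0
      · simp [h]
      · rw [hαw i j (hκn i j h) a, smul_add, smul_smul]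
    have e2 : ∀ a, ∑ i, ∑ j, κ i j • δ a i j = ∑ i, ∑ j, κ i j • w i j a := by
      intro a
      simp only [e1, Finset.sum_add_distrib, ← Finset.sum_smul, hκα a, zero_smul, zero_add]
    have hκw : ∀ a i j, κ i j • w i j a ∈ W := by
      intro a i j
      by_cases h : κ i j = 0
      · rw [h, zero_smul]; exact W.zero_mem
      · exact W.smul_mem _ (hwW i j (hκn i j h) a)
    have hG' := hG κ (fun a => by
      rw [e2 a]
      exact Submodule.sum_mem _ fun i _ => Submodule.sum_mem _ fun j _ => hκw a i j) φ hφ0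
    have e3 : ∑ i, ∑ j, κ i j • ∑ a, φ (ω a * (x i + y j)) • δ a i j +
        φ (∑ a, ω a * ∑ i, ∑ j, κ i j • δ a i j) • s =
        φ (∑ i, ∑ j, κ i j • ((x i + y j) * AA i j + ww i j)) • s +
          ∑ i, ∑ j, ∑ a, φ (ω a * (x i + y j)) • κ i j • w i j a := by
      have e4 : ∀ i j, κ i j • ∑ a, φ (ω a * (x i + y j)) • δ a i j =
          (κ i j * φ ((x i + y j) * AA i j)) • s +
            ∑ a, φ (ω a * (x i + y j)) • κ i j • w i j a := by
        intro i j
        have e5 : φ ((x i + y j) * AA i j) = ∑ a, α i j a * φ (ω a * (x i + y j)) := by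
          simp only [AA, Finset.mul_sum, map_sum]
          refine Finset.sum_congr rfl fun a _ => ?_
          rw [mul_smul_comm, map_smul, smul_eq_mul, mul_comm (x i + y j)]
        rw [e5, Finset.smul_sum, Finset.mul_sum, Finset.sum_smul, ← Finset.sum_add_distrib]
        refine Finset.sum_congr rfl fun a _ => ?_
        rw [smul_comm, e1 a i j, smul_add, smul_smul]
        congr 2
        ring
      have e6 : φ (∑ a, ω a * ∑ i, ∑ j, κ i j • δ a i j) =
          ∑ i, ∑ j, κ i j * φ (ww i j) := by
        have e7 : ∑ a, ω a * ∑ i, ∑ j, κ i j • δ a i j = ∑ i, ∑ j, κ i j • ww i j := by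
          simp only [e2, ww, Finset.mul_sum, Finset.smul_sum]
          rw [Finset.sum_comm]
          refine Finset.sum_congr rfl fun i _ => ?_
          rw [Finset.sum_comm]
          refine Finset.sum_congr rfl fun j _ => ?_
          refine Finset.sum_congr rfl fun a _ => ?_
          rw [mul_smul_comm]
        rw [e7]
        simp only [map_sum, map_smul, smul_eq_mul]
      have e8 : φ (∑ i, ∑ j, κ i j • ((x i + y j) * AA i j + ww i j)) =
          ∑ i, ∑ j, κ i j * φ ((x i + y j) * AA i j) + ∑ i, ∑ j, κ i j * φ (ww i j) := by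
        rw [map_sum, ← Finset.sum_add_distrib]
        refine Finset.sum_congr rfl fun i _ => ?_
        rw [map_sum, ← Finset.sum_add_distrib]
        refine Finset.sum_congr rfl fun j _ => ?_
        rw [map_smul, map_add, smul_eq_mul, mul_add]
      have e9 : ∑ i, ∑ j, κ i j • ∑ a, φ (ω a * (x i + y j)) • δ a i j =
          (∑ i, ∑ j, κ i j * φ ((x i + y j) * AA i j)) • s +
          ∑ i, ∑ j, ∑ a, φ (ω a * (x i + y j)) • κ i j • w i j a := by
        rw [Finset.sum_smul, ← Finset.sum_add_distrib]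
        refine Finset.sum_congr rfl fun i _ => ?_
        rw [Finset.sum_smul, ← Finset.sum_add_distrib]
        exact Finset.sum_congr rfl fun j _ => e4 i j
      rw [e6, e8, e9, add_smul]
      ring
    rw [e3, hφ1, one_smul] at hG'
    apply hs
    have h6 : ∑ i, ∑ j, ∑ a, φ (ω a * (x i + y j)) • κ i j • w i j a ∈ W :=
      Submodule.sum_mem _ fun i _ => Submodule.sum_mem _ fun j _ => Submodule.sum_mem _ fun a _ =>
        W.smul_mem _ (hκw a i j)
    have h7 := W.sub_mem hG' h6
    rwa [add_sub_cancel_right] at h7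
  -- step 5a
  have h5a : ∀ i j, Nice i j → ∃ a, α i j a ≠ 0 := by
    intro i0 j0 hn
    by_contra hα
    push Not at hα
    have h6 := h5b (fun i j => if i = i0 ∧ j = j0 then 1 else 0) (by
      intro i j h
      have : i = i0 ∧ j = j0 := by
        by_contra h'
        simp [h'] at h
      rw [this.1, this.2]
      exact hn) (by
      intro a
      refine Finset.sum_eq_zero fun i _ => Finset.sum_eq_zero fun j _ => ?_
      split_ifs with h
      · rw [h.1, h.2, hα a, mul_zero]
      · rw [zero_mul])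
    have e1 : ∑ i, ∑ j, (if i = i0 ∧ j = j0 then (1 : k) else 0) • ((x i + y j) * AA i j + ww i j) =
        (x i0 + y j0) * AA i0 j0 + ww i0 j0 := by
      rw [Finset.sum_eq_single i0, Finset.sum_eq_single j0]
      · simp
      · intro j _ hj; simp [hj]
      · intro h; exact absurd (Finset.mem_univ _) h
      · intro i _ hi
        refine Finset.sum_eq_zero fun j _ => ?_
        simp [hi]
      · intro h; exact absurd (Finset.mem_univ _) h
    rw [e1] at h6
    have e2 : AA i0 j0 = 0 := Finset.sum_eq_zero fun a _ => by rw [hα a, zero_smul]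
    have e3 : ww i0 j0 = ∑ a, ω a * δ a i0 j0 := by
      refine Finset.sum_congr rfl fun a _ => ?_
      rw [hαw i0 j0 hn a, hα a, zero_smul, zero_add]
    rw [e2, mul_zero, zero_add, e3] at h6
    exact hm i0 j0 h6
  -- step 6: the linear map
  obtain ⟨g, hg⟩ : ∃ g : Fin m1 → A, ∀ i j, Nice i j →
      (x i + y j) * AA i j + ww i j - ∑ a, α i j a • g a ∈ Ω0 := by
    let P : (Fin I × Fin K → k) →ₗ[k] (Fin m1 → k) := Fintype.linearCombination k
      (fun q : Fin I × Fin K => if Nice q.1 q.2 then α q.1 q.2 else 0)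
    let F : (Fin I × Fin K → k) →ₗ[k] (A ⧸ Ω0) := Fintype.linearCombination k
      (fun q : Fin I × Fin K => if Nice q.1 q.2 then
        Ω0.mkQ ((x q.1 + y q.2) * AA q.1 q.2 + ww q.1 q.2) else 0)
    have hker : ∀ κ, P κ = 0 → F κ = 0 := by
      intro κ hκ
      have h6 := h5b (fun i j => if Nice i j then κ (i, j) else 0) (by
        intro i j h
        by_contra h'
        simp [h'] at h) (by
        intro a
        have h7 := congrFun hκ a
        simp only [P, Fintype.linearCombination_apply, Finset.sum_apply, Pi.smul_apply,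
          Pi.zero_apply, smul_eq_mul] at h7
        rw [Fintype.sum_prod_type] at h7
        refine Eq.trans ?_ h7
        refine Finset.sum_congr rfl fun i _ => Finset.sum_congr rfl fun j _ => ?_
        by_cases h : Nice i j
        · simp only [h, if_true]
        · simp only [h, if_false, zero_mul, Pi.zero_apply, mul_zero])
      have h7 : F κ = Ω0.mkQ (∑ i, ∑ j, (if Nice i j then κ (i, j) else 0) •
          ((x i + y j) * AA i j + ww i j)) := by
        simp only [F, Fintype.linearCombination_apply, map_sum, map_smul]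
        rw [Fintype.sum_prod_type]
        refine Finset.sum_congr rfl fun i _ => Finset.sum_congr rfl fun j _ => ?_
        by_cases h : Nice i j
        · simp only [h, if_true]
        · simp only [h, if_false, zero_smul, smul_zero]
      rw [h7, Submodule.mkQ_apply, Submodule.Quotient.mk_eq_zero]
      exact h6
    obtain ⟨R0, hR0⟩ := P.rangeRestrict.exists_rightInverse_of_surjective P.range_rangeRestrict
    obtain ⟨G, hG1⟩ := LinearMap.exists_extend (F ∘ₗ R0)
    have hGP : ∀ κ, G (P κ) = F κ := by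
      intro κ
      have h6 := LinearMap.congr_fun hG1 ⟨P κ, LinearMap.mem_range_self P κ⟩
      rw [LinearMap.comp_apply, Submodule.subtype_apply] at h6
      change G (P κ) = _ at h6
      rw [h6, LinearMap.comp_apply]
      have h7 := LinearMap.congr_fun hR0 ⟨P κ, LinearMap.mem_range_self P κ⟩
      have h8 : P (R0 ⟨P κ, LinearMap.mem_range_self P κ⟩) = P κ := congrArg Subtype.val h7
      have h9 := hker (R0 ⟨P κ, LinearMap.mem_range_self P κ⟩ - κ) (by
        rw [map_sub, h8, sub_self])
      rwa [map_sub, sub_eq_zero] at h9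
    have hsurj : ∀ a : Fin m1, ∃ ga : A, Ω0.mkQ ga = G (Pi.single a 1) := fun a =>
      Ω0.mkQ_surjective _
    choose g hg using hsurj
    refine ⟨g, fun i j hn => ?_⟩
    rw [← Submodule.Quotient.mk_eq_zero, ← Submodule.mkQ_apply, map_sub, map_sum]
    have h6 : F (Pi.single (i, j) 1) = Ω0.mkQ ((x i + y j) * AA i j + ww i j) := by
      simp only [F, Fintype.linearCombination_apply_single, one_smul]
      simp only [hn, if_true]
    have h7 : P (Pi.single (i, j) 1) = α i j := by
      simp only [P, Fintype.linearCombination_apply_single, one_smul]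
      simp only [hn, if_true]
    rw [← h6, ← hGP, h7]
    have h8 : α i j = ∑ a, α i j a • (Pi.single a (1 : k) : Fin m1 → k) := by
      funext b
      simp [Finset.sum_apply, Pi.single_apply]
    nth_rewrite 1 [h8]
    rw [map_sum, sub_eq_zero]
    refine Finset.sum_congr rfl fun a _ => ?_
    rw [map_smul, map_smul, hg]
  -- step 7: a relation in each column
  have h7 : ∀ j : J, ∃ c : Fin I → k, (∀ i, c i ≠ 0 → Nice i j) ∧ (∃ i, c i ≠ 0) ∧
      ∀ a, ∑ i, c i * α i j a = 0 := by
    intro j
    have hcard : m1 < (Finset.univ.filter fun i => Nice i j).card := by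
      have h8 := h4 j j.2
      have h9 := Finset.card_filter_add_card_filter_not (s := (Finset.univ : Finset (Fin I)))
        (fun i => Nice i j)
      rw [Finset.card_univ, Fintype.card_fin] at h9
      omega
    obtain ⟨c, hc1, hc2, hc3⟩ := exists_rel _ (fun i a => α i j a) hcard
    exact ⟨c, fun i hi => (Finset.mem_filter.1 (hc1 i hi)).2, hc2, hc3⟩
  choose c hcn hc0 hcα using h7
  obtain ⟨b, hbli, hbspan, hbmul⟩ := mem_mul_basis Ω0 L
  let h : J → A := fun j => ∑ i, c j i • (x i * AA i j)
  let f : J → A := fun j => ∑ i, c j i • (x i * ∑ a, α i j a • g a) -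
    ∑ i, c j i • (x i * x i * AA i j)
  have hAA : ∀ j : J, ∑ i, c j i • AA i j = 0 := by
    intro j
    have : ∑ i, c j i • AA i j = ∑ a, (∑ i, c j i * α i j a) • ω a := by
      simp only [AA, Finset.smul_sum, Finset.sum_smul, smul_smul]
      rw [Finset.sum_comm]
    rw [this]
    exact Finset.sum_eq_zero fun a _ => by rw [hcα j a, zero_smul]
  have hgg : ∀ j : J, ∑ i, c j i • ∑ a, α i j a • g a = 0 := by
    intro j
    have : ∑ i, c j i • ∑ a, α i j a • g a = ∑ a, (∑ i, c j i * α i j a) • g a := by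
      simp only [Finset.smul_sum, Finset.sum_smul, smul_smul]
      rw [Finset.sum_comm]
    rw [this]
    exact Finset.sum_eq_zero fun a _ => by rw [hcα j a, zero_smul]
  have hmem : ∀ j : J, f j - (2 : k) • (y j * h j) ∈ Ω0 * L := by
    intro j
    have h8 : ∀ i, Nice i j → AA i j * (s * s) + s * (∑ a, α i j a • g a) +
        (x i + y j) * (∑ a, α i j a • g a) - (x i + y j) * (x i + y j) * AA i j ∈ Ω0 * L := by
      intro i hn
      have h9 := hE i j
      have h10 : ∑ a, ω a * δ a i j = AA i j * s + ww i j := by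
        simp only [AA, ww, Finset.sum_mul, ← Finset.sum_add_distrib]
        refine Finset.sum_congr rfl fun a _ => ?_
        rw [hαw i j hn a, mul_add, smul_mul_assoc, mul_smul_comm]
      rw [h10] at h9
      have h11 := Submodule.mul_mem_mul (hg i j hn) (L.add_mem hsL (L.add_mem (hxL i) (hyL j)))
      have h12 := (Ω0 * L).sub_mem h9 h11
      refine (congrArg (· ∈ Ω0 * L) ?_).mp h12
      ring
    have h9 : ∑ i, c j i • (AA i j * (s * s) + s * (∑ a, α i j a • g a) +
        (x i + y j) * (∑ a, α i j a • g a) - (x i + y j) * (x i + y j) * AA i j) ∈ Ω0 * L := by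
      refine Submodule.sum_mem _ fun i _ => ?_
      by_cases h0 : c j i = 0
      · rw [h0, zero_smul]; exact Submodule.zero_mem _
      · exact Submodule.smul_mem _ _ (h8 i (hcn j i h0))
    have h10 : ∑ i, c j i • (AA i j * (s * s) + s * (∑ a, α i j a • g a) +
        (x i + y j) * (∑ a, α i j a • g a) - (x i + y j) * (x i + y j) * AA i j) =
        (∑ i, c j i • AA i j) * (s * s) + s * (∑ i, c j i • ∑ a, α i j a • g a) +
        (∑ i, c j i • (x i * ∑ a, α i j a • g a) + y j * (∑ i, c j i • ∑ a, α i j a • g a)) -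
        (∑ i, c j i • (x i * x i * AA i j) + (2 : k) • (y j * ∑ i, c j i • (x i * AA i j)) +
          y j * y j * ∑ i, c j i • AA i j) := by
      exact expand (c j) x (fun i => AA i j) (fun i => ∑ a, α i j a • g a) (y j) s
    rw [h10, hAA, hgg] at h9
    simp only [zero_mul, mul_zero, add_zero, zero_add] at h9
    refine (congrArg (· ∈ Ω0 * L) ?_).mp h9
    simp only [f, h]
    ring
  -- the final count
  let gen : (Fin m1 × Fin I) × Fin 3 → A := fun q =>
    ![x q.1.2 * g q.1.1, x q.1.2 * x q.1.2 * ω q.1.1, ω q.1.1 * x q.1.2] q.2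
  let Ω : Submodule k A := Ω0 ⊔ Submodule.span k (Set.range gen)
  have hgenf : FiniteDimensional k (Submodule.span k (Set.range gen)) :=
    FiniteDimensional.span_of_finite k (Set.finite_range gen)
  have hΩf : FiniteDimensional k Ω :=
    inferInstanceAs (FiniteDimensional k (Ω0 ⊔ Submodule.span k (Set.range gen) : Submodule k A))
  have hΩfin : finrank k Ω ≤ finrank k Ω0 + 3 * (m1 * I) := by
    refine (Submodule.finrank_add_le_finrank_add_finrank _ _).trans ?_
    have h8 := finrank_range_le_card (R := k) gen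
    rw [Set.finrank] at h8
    have h9 : Fintype.card ((Fin m1 × Fin I) × Fin 3) = 3 * (m1 * I) := by
      simp only [Fintype.card_prod, Fintype.card_fin]
      ring
    rw [h9] at h8
    exact Nat.add_le_add_left h8 _
  have hgen : ∀ q, gen q ∈ Ω := fun q => Submodule.mem_sup_right (Submodule.subset_span ⟨q, rfl⟩)
  have hhmem : ∀ j : J, h j ∈ Ω := by
    intro j
    refine Submodule.sum_mem _ fun i _ => Submodule.smul_mem _ _ ?_
    simp only [AA, Finset.mul_sum]
    refine Submodule.sum_mem _ fun a _ => ?_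
    rw [mul_smul_comm, mul_comm]
    exact Submodule.smul_mem _ _ (hgen ((a, i), 2))
  have hfmem : ∀ j : J, f j ∈ Ω := by
    intro j
    refine Submodule.sub_mem _ (Submodule.sum_mem _ fun i _ => Submodule.smul_mem _ _ ?_)
      (Submodule.sum_mem _ fun i _ => Submodule.smul_mem _ _ ?_)
    · rw [Finset.mul_sum]
      refine Submodule.sum_mem _ fun a _ => ?_
      rw [mul_smul_comm]
      exact Submodule.smul_mem _ _ (hgen ((a, i), 0))
    · simp only [AA, Finset.mul_sum]
      refine Submodule.sum_mem _ fun a _ => ?_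
      rw [mul_smul_comm]
      exact Submodule.smul_mem _ _ (hgen ((a, i), 1))
  have hγ : ∀ j : J, ∃ γ : Fin (finrank k Ω0) → A, (∀ a, γ a ∈ L) ∧
      f j - (2 : k) • (y j * h j) = ∑ a, b a * γ a := fun j => hbmul _ (hmem j)
  choose γ hγL hγe using hγ
  have hbΩ0 : ∀ a, b a ∈ Ω0 := fun a => by
    rw [← hbspan]
    exact Submodule.subset_span ⟨a, rfl⟩
  have hfin := hL.dual (κ := J) (τ := Fin 2 ⊕ Fin (finrank k Ω0)) Ω
    (fun j => Sum.elim ![f j, h j] b)
    (fun j => Sum.elim ![1, -((2 : k) • y j)] (fun a => -γ j a)) ?_ ?_ ?_ ?_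
  · rw [Fintype.card_coe] at hfin
    exact hfin.trans (Nat.mul_le_mul hΩfin (Nat.add_le_add_right hΩfin v))
  · rintro j (t | t)
    · fin_cases t
      · exact hfmem j
      · exact hhmem j
    · exact Submodule.mem_sup_left (hbΩ0 t)
  · rintro j (t | t)
    · fin_cases t
      · exact h1L
      · exact L.neg_mem (L.smul_mem _ (hyL j))
    · exact L.neg_mem (hγL j t)
  · intro j
    rw [Fintype.sum_sum_type, Fin.sum_univ_two]
    simp only [Sum.elim_inl, Sum.elim_inr, Matrix.cons_val_zero, Matrix.cons_val_one,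
      mul_neg, Finset.sum_neg_distrib, ← hγe j, mul_one]
    rw [mul_smul_comm, mul_comm (h j)]
    ring
  · intro η hη j0
    by_contra hne
    obtain ⟨i0, hi0⟩ := hc0 j0
    obtain ⟨a0, ha0⟩ := h5a i0 j0 (hcn j0 i0 hi0)
    obtain ⟨φ, hφ0, hφx, hφy⟩ := hF (fun a i => if a = a0 ∧ i = i0 then 1 else 0)
    have h8 := hη φ
    have h9 : ∀ j : J, ∑ t : Fin 2 ⊕ Fin (finrank k Ω0), φ (Sum.elim ![f j, h j] b t) •
        (Sum.elim ![1, -((2 : k) • y j)] (fun a => -γ j a) t : A) =
        φ (f j) • (1 : A) - (2 * φ (h j)) • y j := by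
      intro j
      rw [Fintype.sum_sum_type, Fin.sum_univ_two]
      simp only [Sum.elim_inl, Sum.elim_inr, Matrix.cons_val_zero, Matrix.cons_val_one]
      rw [Finset.sum_eq_zero (fun a _ => by rw [hφ0 _ (hbΩ0 a), zero_smul]), add_zero,
        smul_neg, smul_smul, mul_comm (φ (h j)), sub_eq_add_neg]
    simp only [h9] at h8
    let c' : Fin K → k := fun j => if hj : j ∈ J then η ⟨j, hj⟩ * (2 * φ (h ⟨j, hj⟩)) else 0
    have hc' : ∀ j : J, c' j = η j * (2 * φ (h j)) := fun j => dif_pos j.2
    have h10 := hy1 (∑ j, η j * φ (f j)) (fun j => -c' j) (by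
      rw [← h8]
      have h11 : ∑ j, -c' j • y j = ∑ j : J, -(η j * (2 * φ (h j))) • y j := by
        rw [← Finset.sum_subset (Finset.subset_univ J) (fun j _ hj => by
          simp only [c']
          rw [dif_neg hj, neg_zero, zero_smul]), ← Finset.sum_coe_sort J]
        exact Finset.sum_congr rfl fun j _ => by rw [hc']
      rw [h11, Finset.sum_smul, ← Finset.sum_add_distrib]
      refine Finset.sum_congr rfl fun j _ => ?_
      rw [smul_sub, smul_smul, smul_smul, neg_smul, sub_eq_add_neg]) j0
    simp only [neg_eq_zero] at h10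
    rw [hc' j0] at h10
    have h11 : φ (h j0) = c j0 i0 * α i0 j0 a0 := by
      have e1 : ∀ i, φ (x i * AA i j0) = ∑ a, α i j0 a * φ (ω a * x i) := by
        intro i
        simp only [AA, Finset.mul_sum, map_sum]
        refine Finset.sum_congr rfl fun a _ => ?_
        rw [mul_smul_comm, map_smul, smul_eq_mul, mul_comm (x i)]
      have e2 : φ (h j0) = ∑ i, c j0 i * ∑ a, α i j0 a * φ (ω a * x i) := by
        simp only [h]
        rw [map_sum]
        exact Finset.sum_congr rfl fun i _ => by rw [map_smul, smul_eq_mul, e1 i]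
      rw [e2, Finset.sum_eq_single i0]
      · rw [Finset.sum_eq_single a0]
        · rw [hφx]; simp
        · intro a _ ha
          rw [hφx]; simp [ha]
        · intro h; exact absurd (Finset.mem_univ _) h
      · intro i _ hi
        rw [Finset.sum_eq_zero, mul_zero]
        intro a _
        rw [hφx]; simp [hi]
      · intro h; exact absurd (Finset.mem_univ _) h
    rw [h11] at h10
    exact (mul_ne_zero hne (mul_ne_zero h2 (mul_ne_zero hi0 ha0))) h10

end

end Pool.Agent.R350
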