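import Pool.Agent.R350.GD

/-!
# Relations of higher degree: sunflowers of generic members, splitting of families
-/

set_option autoImplicit false

namespace Pool.Agent.R350

open Module Finset

section

variable {k A : Type*} [Field k] [Field A] [Algebra k A]

/-- the dimension of a product -/
theorem finrank_mul_bound (V W : Submodule k A) [FiniteDimensional k V] [FiniteDimensional k W] :
    FiniteDimensional k (V * W : Submodule k A) ∧
      finrank k (V * W : Submodule k A) ≤ finrank k V * finrank k W := by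
  classical
  obtain ⟨b, -, hb, -⟩ := mem_mul_basis V (⊤ : Submodule k A)
  obtain ⟨c, -, hc, -⟩ := mem_mul_basis W (⊤ : Submodule k A)
  let gen : Fin (finrank k V) × Fin (finrank k W) → A := fun q => b q.1 * c q.2
  have h1 : V * W ≤ Submodule.span k (Set.range gen) := by
    have h2 : V * W = Submodule.span k (Set.range b) * Submodule.span k (Set.range c) := by
      rw [hb, hc]
    rw [h2, Submodule.span_mul_span, Submodule.span_le]
    rintro _ ⟨_, ⟨i, rfl⟩, _, ⟨j, rfl⟩, rfl⟩
    exact Submodule.subset_span ⟨(i, j), rfl⟩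
  have hf : FiniteDimensional k (Submodule.span k (Set.range gen)) :=
    FiniteDimensional.span_of_finite k (Set.finite_range gen)
  refine ⟨Submodule.finiteDimensional_of_le h1, (Submodule.finrank_mono h1).trans ?_⟩
  have h8 := finrank_range_le_card (R := k) gen
  rw [Set.finrank, Fintype.card_prod, Fintype.card_fin, Fintype.card_fin] at h8
  exact h8

theorem finrank_pow_bound (W : Submodule k A) [FiniteDimensional k W] (d : ℕ) :
    FiniteDimensional k (W ^ d : Submodule k A) ∧
      finrank k (W ^ d : Submodule k A) ≤ finrank k W ^ d := by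
  induction d with
  | zero =>
    rw [pow_zero, pow_zero, Submodule.one_eq_span]
    refine ⟨FiniteDimensional.span_of_finite k (Set.finite_singleton _), ?_⟩
    have := finrank_span_finset_le_card (R := k) ({1} : Finset A)
    rwa [Finset.coe_singleton, Finset.card_singleton] at this
  | succ d ih =>
    obtain ⟨h1, h2⟩ := ih
    rw [pow_succ, pow_succ]
    obtain ⟨h3, h4⟩ := finrank_mul_bound (W ^ d) W
    exact ⟨h3, h4.trans (Nat.mul_le_mul_right _ h2)⟩

theorem finrank_mul_pow_bound (Ω W : Submodule k A) [FiniteDimensional k Ω]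
    [FiniteDimensional k W] (d : ℕ) : FiniteDimensional k (Ω * W ^ d : Submodule k A) ∧
      finrank k (Ω * W ^ d : Submodule k A) ≤ finrank k Ω * finrank k W ^ d := by
  obtain ⟨h1, h2⟩ := finrank_pow_bound W d
  obtain ⟨h3, h4⟩ := finrank_mul_bound Ω (W ^ d)
  exact ⟨h3, h4.trans (Nat.mul_le_mul_left _ h2)⟩

theorem pow_mono_of_one_mem {W : Submodule k A} (h1 : (1 : A) ∈ W) {i j : ℕ} (h : i ≤ j) :
    W ^ i ≤ W ^ j := by
  obtain ⟨e, rfl⟩ := Nat.exists_eq_add_of_le h
  rw [pow_add]
  intro z hz
  have h2 : (1 : A) ∈ W ^ e := by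
    have := Submodule.pow_mem_pow W h1 e
    rwa [one_pow] at this
  have := Submodule.mul_mem_mul hz h2
  rwa [mul_one] at this

theorem pow_le_pow_sub {W W' : Submodule k A} (h : W ≤ W') (i : ℕ) : W ^ i ≤ W' ^ i := by
  induction i with
  | zero => rw [pow_zero, pow_zero]
  | succ i ih => rw [pow_succ, pow_succ]; exact mul_le_mul' ih h

/-- dimension bound along the process -/
def sN (Φ : ℕ → ℕ) : ℕ → ℕ → ℕ
  | 0, n0 => n0
  | (r + 1), n0 => sN Φ r (n0 + (r + 1) * Φ n0)

theorem le_sN (Φ : ℕ → ℕ) (r : ℕ) : ∀ n0, n0 ≤ sN Φ r n0 := by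
  induction r with
  | zero => intro n0; exact le_rfl
  | succ r ih => intro n0; exact (Nat.le_add_right _ _).trans (ih _)

/-- sunflowers of generic members -/
theorem sunG (Φ : ℕ → ℕ) (hΦ : Monotone Φ) {ι : Type*} [Fintype ι] (R : ι → Submodule k A)
    (hRf : ∀ d, FiniteDimensional k (R d)) (L0 B : Submodule k A) (hRL : ∀ d, R d ≤ L0)
    (G : Submodule k A → ι → Prop)
    (hanti : ∀ W W' d, B ≤ W → W ≤ W' → G W' d → G W d)
    (hout : ∀ W d, B ≤ W → G W d → ¬ R d ≤ W) (r : ℕ) : ∀ n0 : ℕ,
    ∀ (W0 : Submodule k A), B ≤ W0 → FiniteDimensional k W0 → finrank k W0 ≤ n0 → W0 ≤ L0 →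
      (∀ d, G W0 d → finrank k (R d ⊔ W0 : Submodule k A) ≤ finrank k W0 + r) →
      (∀ W, W0 ≤ W → FiniteDimensional k W → finrank k W ≤ sN Φ r n0 → ∃ d, G W d) →
      ∃ W : Submodule k A, W0 ≤ W ∧ W ≤ L0 ∧ FiniteDimensional k W ∧
        ∃ D : Finset ι, (∀ d ∈ D, G W d) ∧ Φ (finrank k W) ≤ D.card ∧ IndFam W R D := by
  classical
  induction r with
  | zero =>
    intro n0 W0 hB hWf hW0 hWL hR hne
    exfalso
    obtain ⟨d, hd⟩ := hne W0 le_rfl hWf hW0
    apply hout W0 d hB hd
    have h1 : W0 = R d ⊔ W0 := by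
      have := hRf d
      apply Submodule.eq_of_le_of_finrank_le le_sup_right
      have := hR d hd
      omega
    rw [h1]
    exact le_sup_left
  | succ r ih =>
    intro n0 W0 hB hWf hW0 hWL hR hne
    have h := ih (n0 + (r + 1) * Φ n0)
    obtain ⟨D, hD, hmax⟩ := ((Finset.univ.filter (G W0)).powerset.filter (IndFam W0 R)).exists_maximal
      ⟨∅, Finset.mem_filter.2 ⟨Finset.empty_mem_powerset _, fun v _ _ d hd => absurd hd
        (Finset.notMem_empty d)⟩⟩
    rw [Finset.mem_filter, Finset.mem_powerset] at hD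
    have hDG : ∀ d ∈ D, G W0 d := fun d hd => (Finset.mem_filter.1 (hD.1 hd)).2
    rcases Nat.lt_or_ge D.card (Φ (finrank k W0)) with hlt | hge
    · -- enlarge the space
      set W1 : Submodule k A := W0 ⊔ ⨆ d ∈ D, R d with hW1
      have hW1f : FiniteDimensional k W1 := by
        have : FiniteDimensional k (⨆ d ∈ D, R d : Submodule k A) := by
          have := hRf
          exact Submodule.finite_finset_sup D R |> fun h => by
            rwa [Finset.sup_eq_iSup] at h
        rw [hW1]; infer_instance
      have hW1r : ∀ D' ⊆ D, finrank k (W0 ⊔ ⨆ d ∈ D', R d : Submodule k A) ≤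
          finrank k W0 + (r + 1) * D'.card := by
        intro D'
        induction D' using Finset.induction_on with
        | empty =>
          intro _
          have : (W0 ⊔ ⨆ d ∈ (∅ : Finset ι), R d : Submodule k A) = W0 := by simp
          rw [this]
          simp
        | insert d D' hd ih' =>
          intro hsub
          have h1 := ih' ((Finset.subset_insert d D').trans hsub)
          have hdD : d ∈ D := hsub (Finset.mem_insert_self d D')
          have h2 : (W0 ⊔ ⨆ e ∈ insert d D', R e : Submodule k A) =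
              (R d ⊔ W0) ⊔ (W0 ⊔ ⨆ e ∈ D', R e) := by
            rw [Finset.iSup_insert]
            apply le_antisymm
            · refine sup_le (le_sup_of_le_right le_sup_left) (sup_le
                (le_sup_of_le_left le_sup_left) (le_sup_of_le_right le_sup_right))
            · refine sup_le (sup_le (le_sup_of_le_right le_sup_left) le_sup_left)
                (sup_le le_sup_left (le_sup_of_le_right le_sup_right))
          have := hRf d
          have : FiniteDimensional k (⨆ e ∈ D', R e : Submodule k A) := by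
            have := hRf
            exact Submodule.finite_finset_sup D' R |> fun h => by
              rwa [Finset.sup_eq_iSup] at h
          rw [h2, Finset.card_insert_of_notMem hd]
          have h3 := Submodule.finrank_sup_add_finrank_inf_eq (R d ⊔ W0)
            (W0 ⊔ ⨆ e ∈ D', R e : Submodule k A)
          have h4 : finrank k W0 ≤ finrank k ((R d ⊔ W0) ⊓ (W0 ⊔ ⨆ e ∈ D', R e) :
              Submodule k A) :=
            Submodule.finrank_mono (le_inf le_sup_right le_sup_left)
          have h5 := hR d (hDG d hdD)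
          have h6 : (r + 1) * (D'.card + 1) = (r + 1) * D'.card + (r + 1) := by ring
          omega
      have hW1n : finrank k W1 ≤ n0 + (r + 1) * Φ n0 := by
        refine (hW1r D Subset.rfl).trans ?_
        have h1 : D.card ≤ Φ n0 := hlt.le.trans (hΦ hW0)
        have h2 : (r + 1) * D.card ≤ (r + 1) * Φ n0 := Nat.mul_le_mul_left _ h1
        omega
      have hBW1 : B ≤ W1 := hB.trans le_sup_left
      have hstep : ∀ d, G W1 d → finrank k (R d ⊔ W1 : Submodule k A) ≤ finrank k W1 + r := by
        intro d hdG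
        have hd0 : G W0 d := hanti W0 W1 d hB le_sup_left hdG
        have hdD : d ∉ D := by
          intro hdD
          apply hout W1 d hBW1 hdG
          exact le_sup_of_le_right (le_iSup₂_of_le d hdD le_rfl)
        have h1 : ¬ IndFam W0 R (insert d D) := by
          intro h'
          have h2 := hmax (Finset.mem_filter.2 ⟨Finset.mem_powerset.2
            (Finset.insert_subset (Finset.mem_filter.2 ⟨Finset.mem_univ _, hd0⟩) hD.1), h'⟩)
            (Finset.subset_insert d D)
          exact hdD (h2 (Finset.mem_insert_self d D))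
        unfold IndFam at h1
        push Not at h1
        obtain ⟨v, hv, hs, e, he, hve⟩ := h1
        have hvd : v d ∉ W0 := by
          intro h0
          apply hve
          rcases Finset.mem_insert.1 he with rfl | heD
          · exact h0
          · refine hD.2 v (fun d' hd' => hv d' (Finset.mem_insert_of_mem hd')) ?_ e heD
            rw [Finset.sum_insert hdD] at hs
            have := W0.sub_mem hs h0
            rwa [add_sub_cancel_left] at this
        have hvW1 : v d ∈ W1 := by
          rw [Finset.sum_insert hdD] at hs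
          have h2 : ∑ e ∈ D, v e ∈ W1 := by
            refine Submodule.sum_mem _ fun e he => ?_
            refine (sup_le ?_ le_sup_left : R e ⊔ W0 ≤ W1) (hv e (Finset.mem_insert_of_mem he))
            exact le_sup_of_le_right (le_iSup₂_of_le e he le_rfl)
          have h3 := W1.sub_mem ((le_sup_left : W0 ≤ W1) hs) h2
          rwa [add_sub_cancel_right] at h3
        have := hRf d
        have h3 := Submodule.finrank_sup_add_finrank_inf_eq (R d ⊔ W0) W1
        have h4 : finrank k W0 < finrank k ((R d ⊔ W0) ⊓ W1 : Submodule k A) := by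
          apply Submodule.finrank_lt_finrank_of_lt
          refine lt_of_le_of_ne (le_inf le_sup_right le_sup_left) ?_
          intro heq
          apply hvd
          rw [heq]
          exact ⟨hv d (Finset.mem_insert_self d D), hvW1⟩
        have h5 := hR d hd0
        have h6 : ((R d ⊔ W0) ⊔ W1 : Submodule k A) = R d ⊔ W1 := by
          rw [sup_assoc, sup_eq_right.2 (le_sup_left : W0 ≤ W1)]
        rw [h6] at h3
        omega
      have hW1L : W1 ≤ L0 := sup_le hWL (iSup₂_le fun d _ => hRL d)
      obtain ⟨W, h1, h2, h3, D', h4, h5, h6⟩ := h W1 hBW1 hW1f hW1n hW1L hstep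
        (fun W h7 h8 h9 => hne W (le_sup_left.trans h7) h8 h9)
      exact ⟨W, le_sup_left.trans h1, h2, h3, D', h4, h5, h6⟩
    · exact ⟨W0, le_rfl, hWL, hWf, D, hDG, hge, hD.2⟩

/-- a member of a large independent family in which all relations are trivial -/
theorem exists_star {v : ℕ} {L : Submodule k A} (hL : HypV v L) {ι : Type*}
    (Ω W : Submodule k A) [FiniteDimensional k Ω] (R : ι → Submodule k A)
    (hRL : ∀ d, R d ≤ L) (hWL : W ≤ L) (D : Finset ι) (hD : IndFam W R D)
    (hc : finrank k Ω * (finrank k Ω + v) < D.card) :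
    ∃ d ∈ D, ∀ (τ : Type) [Fintype τ] (ω ℓ : τ → A), (∀ t, ω t ∈ Ω) → (∀ t, ℓ t ∈ R d ⊔ W) →
      ∑ t, ω t * ℓ t = 0 → ∀ φ : A →ₗ[k] k, ∑ t, φ (ω t) • ℓ t ∈ W := by
  classical
  by_contra hcon
  push Not at hcon
  let b := Module.finBasis k Ω
  have hrepr : ∀ (w : A) (hw : w ∈ Ω), ∑ u, (b.repr ⟨w, hw⟩ u) • ((b u : Ω) : A) = w := by
    intro w hw
    have h1 := b.sum_repr ⟨w, hw⟩
    have h2 := congrArg (fun z : Ω => (z : A)) h1
    simp only [Submodule.coe_sum, Submodule.coe_smul] at h2
    exact h2
  have h : ∀ d ∈ D, ∃ (ℓ : Fin (finrank k Ω) → A) (φ : A →ₗ[k] k),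
      (∀ u, ℓ u ∈ R d ⊔ W) ∧ ∑ u, ((b u : Ω) : A) * ℓ u = 0 ∧
      ∑ u, φ ((b u : Ω) : A) • ℓ u ∉ W := by
    intro d hd
    obtain ⟨τ, _, ω, ℓ, hω, hℓ, h0, φ, hφ⟩ := hcon d hd
    refine ⟨fun u => ∑ t, (b.repr ⟨ω t, hω t⟩ u) • ℓ t, φ, fun u =>
      Submodule.sum_mem _ fun t _ => Submodule.smul_mem _ _ (hℓ t), ?_, ?_⟩
    · rw [← h0]
      simp only [Finset.mul_sum]
      rw [Finset.sum_comm]
      refine Finset.sum_congr rfl fun t _ => ?_
      nth_rewrite 2 [← hrepr (ω t) (hω t)]
      rw [Finset.sum_mul]
      refine Finset.sum_congr rfl fun u _ => ?_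
      rw [mul_smul_comm, smul_mul_assoc]
    · have h2 : ∀ t, φ (ω t) = ∑ u, (b.repr ⟨ω t, hω t⟩ u) * φ ((b u : Ω) : A) := by
        intro t
        nth_rewrite 1 [← hrepr (ω t) (hω t)]
        rw [map_sum]
        exact Finset.sum_congr rfl fun u _ => by rw [map_smul, smul_eq_mul]
      have h3 : ∑ u, φ ((b u : Ω) : A) • ∑ t, (b.repr ⟨ω t, hω t⟩ u) • ℓ t =
          ∑ t, φ (ω t) • ℓ t := by
        simp only [h2, Finset.sum_smul, Finset.smul_sum, smul_smul]
        rw [Finset.sum_comm]
        exact Finset.sum_congr rfl fun u _ => Finset.sum_congr rfl fun t _ => by rw [mul_comm]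
      rw [h3]
      exact hφ
  choose! ℓ φ h1 h2 h3 using h
  have h4 := key hL (τ := Fin (finrank k Ω)) Ω ⊥ W R D hD (fun _ u => ((b u : Ω) : A)) ℓ φ
    (fun d _ t => (b t).2) (fun d hd t => (sup_le (hRL d) hWL : R d ⊔ W ≤ L) (h1 d hd t))
    (fun d hd => h2 d hd) (fun d _ z hz => by rw [Submodule.mem_bot] at hz; rw [hz, map_zero])
    (fun d hd t => Or.inr (h1 d hd t)) (fun d hd => h3 d hd)
  omega

end

section Split

variable {k M : Type*} [Field k] [AddCommGroup M] [Module k M]

/-- deletion, for modules -/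
theorem deletionM {ι : Type*} [Fintype ι] [DecidableEq ι] (w : ι → M)
    (hw : LinearIndependent k w) (V : Submodule k M) [FiniteDimensional k V] :
    ∃ T : Finset ι, Fintype.card ι ≤ T.card + finrank k V ∧
      ∀ c : ι → k, (∀ i ∉ T, c i = 0) → ∑ i, c i • w i ∈ V → ∀ i, c i = 0 := by
  classical
  let P : Finset ι → Prop := fun T =>
    ∀ c : ι → k, (∀ i ∉ T, c i = 0) → ∑ i, c i • w i ∈ V → ∀ i, c i = 0
  have hP : P ∅ := fun c hc _ i => hc i (Finset.notMem_empty i)
  obtain ⟨T, hT, hmax⟩ := (Finset.univ.filter P).exists_maximal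
    ⟨∅, Finset.mem_filter.2 ⟨Finset.mem_univ _, hP⟩⟩
  rw [Finset.mem_filter] at hT
  refine ⟨T, ?_, hT.2⟩
  set U : Submodule k M := V ⊔ Submodule.span k ((T.image w : Finset M) : Set M) with hU
  have hUfin : FiniteDimensional k U := by
    rw [hU]; infer_instance
  have hmem : ∀ i, w i ∈ U := by
    intro i
    by_cases hi : i ∈ T
    · exact Submodule.mem_sup_right (Submodule.subset_span (by
        rw [Finset.coe_image]; exact ⟨i, hi, rfl⟩))
    · have h1 : ¬ P (insert i T) := by
        intro h
        have h2 := hmax (Finset.mem_filter.2 ⟨Finset.mem_univ _, h⟩) (Finset.subset_insert i T)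
        exact hi (h2 (Finset.mem_insert_self i T))
      simp only [P] at h1
      push Not at h1
      obtain ⟨c, hc1, hc2, j, hj⟩ := h1
      have hci : c i ≠ 0 := by
        intro h0
        apply hj
        refine hT.2 c (fun l hl => ?_) hc2 j
        by_cases hli : l = i
        · rw [hli, h0]
        · exact hc1 l (by simp [hli, hl])
      have h3 : c i • w i ∈ U := by
        have h4 : c i • w i = (∑ l, c l • w l) - ∑ l ∈ Finset.univ.erase i, c l • w l := by
          rw [← Finset.add_sum_erase _ _ (Finset.mem_univ i), add_sub_cancel_right]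
        rw [h4]
        refine Submodule.sub_mem _ (Submodule.mem_sup_left hc2) (Submodule.sum_mem _ fun l hl => ?_)
        by_cases hlT : l ∈ T
        · exact U.smul_mem _ (Submodule.mem_sup_right (Submodule.subset_span (by
            rw [Finset.coe_image]; exact ⟨l, hlT, rfl⟩)))
        · rw [hc1 l (by
            rw [Finset.mem_insert, not_or]
            exact ⟨(Finset.mem_erase.1 hl).1, hlT⟩), zero_smul]
          exact U.zero_mem
      have h5 := U.smul_mem (c i)⁻¹ h3
      rwa [smul_smul, inv_mul_cancel₀ hci, one_smul] at h5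
  have h6 : Fintype.card ι ≤ finrank k U := by
    have h7 : LinearIndependent k (fun i => (⟨w i, hmem i⟩ : U)) := by
      apply LinearIndependent.of_comp U.subtype
      exact hw
    exact h7.fintype_card_le_finrank
  have h8 : finrank k U ≤ finrank k V + T.card := by
    refine (Submodule.finrank_add_le_finrank_add_finrank _ _).trans ?_
    gcongr
    exact (finrank_span_finset_le_card _).trans Finset.card_image_le
  omega

/-- `r` members of the family `f`, with indices in `P`, are independent modulo `U` -/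
def IndN (U : Submodule k M) {Q : Type*} (f : Q → M) (P : Q → Prop) (r : ℕ) : Prop :=
  ∃ g : Fin r → Q, (∀ i, P (g i)) ∧ ∀ c : Fin r → k, ∑ i, c i • f (g i) ∈ U → ∀ i, c i = 0

theorem IndN.of_family {U : Submodule k M} {Q : Type*} {f : Q → M} {P : Q → Prop} {ι : Type*}
    [Fintype ι] (g : ι → Q) (hg : ∀ i, P (g i))
    (h : ∀ c : ι → k, ∑ i, c i • f (g i) ∈ U → ∀ i, c i = 0) {r : ℕ} (hr : r ≤ Fintype.card ι) :
    IndN U f P r := by
  classical
  obtain ⟨e⟩ := Function.Embedding.nonempty_of_card_le (α := Fin r) (β := ι)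
    (by rwa [Fintype.card_fin])
  refine ⟨fun i => g (e i), fun i => hg _, fun c hc i => ?_⟩
  have h1 := h (Function.extend e c 0) (by
    rw [← Finset.sum_of_injOn e (t := (Finset.univ : Finset ι)) (s := Finset.univ)
      (f := fun i => c i • f (g (e i))) e.injective.injOn
      (fun _ _ => Finset.mem_coe.2 (Finset.mem_univ _)) ?_ ?_]
    · exact hc
    · intro b _ hb
      rw [Function.extend_apply' _ _ _ (by
        rintro ⟨a, rfl⟩
        exact hb ⟨a, Finset.mem_coe.2 (Finset.mem_univ _), rfl⟩), Pi.zero_apply, zero_smul]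
    · intro a _
      rw [e.injective.extend_apply]) (e i)
  rwa [e.injective.extend_apply] at h1

theorem IndN.imp {U : Submodule k M} {Q : Type*} {f : Q → M} {P P' : Q → Prop} {r : ℕ}
    (h : IndN U f P r) (hP : ∀ q, P q → P' q) : IndN U f P' r := by
  obtain ⟨g, h1, h2⟩ := h
  exact ⟨g, fun i => hP _ (h1 i), h2⟩

theorem IndN.le {U : Submodule k M} {Q : Type*} {f : Q → M} {P : Q → Prop} {r r' : ℕ}
    (h : IndN U f P r) (hr : r' ≤ r) : IndN U f P r' := by
  obtain ⟨g, h1, h2⟩ := h
  exact IndN.of_family g h1 h2 (by rwa [Fintype.card_fin])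

/-- enlarging the space by dimension `m` -/
theorem IndN.drop {U U' V : Submodule k M} [FiniteDimensional k V] (hU : U ≤ U' ⊔ V) {Q : Type*}
    {f : Q → M} {P : Q → Prop} {N m : ℕ} (hm : finrank k V ≤ m) (h : IndN U' f P (N + m)) :
    IndN U f P N := by
  classical
  obtain ⟨g, hg, hi⟩ := h
  have hli : LinearIndependent k (fun i => U'.mkQ (f (g i))) := by
    rw [Fintype.linearIndependent_iff]
    intro c hc
    apply hi c
    rw [← Submodule.ker_mkQ U', LinearMap.mem_ker, map_sum]
    simpa using hc
  obtain ⟨T, hT, hTi⟩ := deletionM _ hli (V.map U'.mkQ)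
  have h1 := (Submodule.finrank_map_le U'.mkQ V).trans hm
  rw [Fintype.card_fin] at hT
  refine IndN.of_family (ι := T) (fun i => g i) (fun i => hg i) ?_ (by
    rw [Fintype.card_coe]; omega)
  intro c hc i
  let c' : Fin (N + m) → k := fun i => if h : i ∈ T then c ⟨i, h⟩ else 0
  have hc' : ∀ i : T, c' i = c i := fun i => dif_pos i.2
  have hc'' : ∀ i, i ∉ T → c' i = 0 := fun i hi => dif_neg hi
  have h2 := hTi c' hc'' (by
    have h3 : ∑ i, c' i • U'.mkQ (f (g i)) = U'.mkQ (∑ i : T, c i • f (g i)) := by
      rw [map_sum, ← Finset.sum_subset (Finset.subset_univ T)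
        (fun i _ hi => by rw [hc'' i hi, zero_smul]), ← Finset.sum_coe_sort T]
      exact Finset.sum_congr rfl fun i _ => by rw [hc', map_smul]
    rw [h3]
    obtain ⟨u, hu, w, hw, he⟩ := Submodule.mem_sup.1 (hU hc)
    rw [← he, map_add, (Submodule.mkQ_apply U' u), (Submodule.Quotient.mk_eq_zero U').2 hu,
      zero_add]
    exact Submodule.mem_map_of_mem hw) i
  rwa [hc'] at h2

/-- splitting along one coordinate -/
theorem IndN.split {U U' : Submodule k M} {Q : Type*} [Fintype Q] {f : Q → M} {P : Q → Prop}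
    {n : ℕ} (e : Q → Fin n)
    (hcl : ∀ κ : Q → k, (∀ q, κ q ≠ 0 → P q) → ∑ q, κ q • f q ∈ U' →
      ∀ l, ∑ q, (if e q = l then κ q else 0) • f q ∈ U) {r : ℕ}
    (h : ∀ l, IndN U f (fun q => P q ∧ e q = l) r) : IndN U' f P (n * r) := by
  classical
  choose g hg hi using h
  refine IndN.of_family (ι := Fin n × Fin r) (fun q => g q.1 q.2) (fun q => (hg q.1 q.2).1) ?_
    (by rw [Fintype.card_prod, Fintype.card_fin, Fintype.card_fin])
  intro c hc
  have h1 : ∀ F : Q → M, ∀ c : Fin n × Fin r → k, ∑ q, (∑ t, if g t.1 t.2 = q then c t else 0) • F q =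
      ∑ t, c t • F (g t.1 t.2) := by
    intro F c
    simp only [Finset.sum_smul]
    rw [Finset.sum_comm]
    refine Finset.sum_congr rfl fun t _ => ?_
    rw [Finset.sum_eq_single (g t.1 t.2)]
    · rw [if_pos rfl]
    · intro q _ hq
      rw [if_neg (fun h => hq h.symm), zero_smul]
    · intro h; exact absurd (Finset.mem_univ _) h
  rintro ⟨l, i⟩
  have h2 := hcl (fun q => ∑ t, if g t.1 t.2 = q then c t else 0) (by
    intro q hq
    by_contra hno
    apply hq
    refine Finset.sum_eq_zero fun t _ => ?_
    rw [if_neg]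
    rintro rfl
    exact hno (hg t.1 t.2).1) (by
    rw [h1]
    exact hc) l
  have h3 : ∑ q, (if e q = l then ∑ t, (if g t.1 t.2 = q then c t else 0) else 0) • f q =
      ∑ i, c (l, i) • f (g l i) := by
    have h4 : ∀ q, (if e q = l then ∑ t, (if g t.1 t.2 = q then c t else 0) else 0) =
        ∑ t : Fin n × Fin r, if g t.1 t.2 = q then (if t.1 = l then c t else 0) else 0 := by
      intro q
      split_ifs with h5
      · refine Finset.sum_congr rfl fun t _ => ?_
        by_cases h6 : g t.1 t.2 = q
        · rw [if_pos h6, if_pos h6, if_pos]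
          rw [← h5, ← h6]
          exact ((hg t.1 t.2).2).symm
        · rw [if_neg h6, if_neg h6]
      · symm
        refine Finset.sum_eq_zero fun t _ => ?_
        by_cases h6 : g t.1 t.2 = q
        · rw [if_pos h6, if_neg]
          intro h7
          apply h5
          rw [← h6, ← h7]
          exact (hg t.1 t.2).2
        · rw [if_neg h6]
    simp only [h4]
    rw [h1 f (fun t => if t.1 = l then c t else 0), Fintype.sum_prod_type,
      Finset.sum_eq_single l]
    · refine Finset.sum_congr rfl fun i _ => ?_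
      rw [if_pos rfl]
    · intro l' _ hl'
      refine Finset.sum_eq_zero fun i _ => ?_
      rw [if_neg hl', zero_smul]
    · intro h; exact absurd (Finset.mem_univ _) h
  rw [h3] at h2
  exact hi l (fun i => c (l, i)) h2 i

/-- the iterated splitting -/
theorem exists_slice {U U' V : Submodule k M} [FiniteDimensional k V] (hU : U ≤ U' ⊔ V)
    {m : ℕ} (hm : finrank k V ≤ m) {B : Type*} [Fintype B] {X p : ℕ} (hX : 0 < X)
    (f : B × (Fin p → Fin (X + m)) → M)
    (hcl : ∀ κ : B × (Fin p → Fin (X + m)) → k, ∑ q, κ q • f q ∈ U' →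
      ∀ t l, ∑ q, (if q.2 t = l then κ q else 0) • f q ∈ U)
    (hb : ¬ IndN U f (fun _ => True) (X ^ p)) :
    ∃ r : Fin p → Fin (X + m), ∀ b, f (b, r) ∈ U := by
  classical
  by_contra hno
  push Not at hno
  apply hb
  have main : ∀ u ≤ p, ∀ r : Fin p → Fin (X + m),
      IndN U f (fun q => ∀ i : Fin p, i.1 < p - u → q.2 i = r i) (X ^ u) := by
    intro u
    induction u with
    | zero =>
      intro _ r
      obtain ⟨b, hb⟩ := hno r
      refine IndN.of_family (ι := Unit) (fun _ => (b, r)) (fun _ i _ => rfl) ?_ (by simp)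
      intro c hc i
      by_contra hne
      apply hb
      simp only [Finset.univ_unique, Finset.sum_singleton] at hc
      have := U.smul_mem (c i)⁻¹ hc
      rwa [smul_smul, inv_mul_cancel₀ hne, one_smul] at this
    | succ u ih =>
      intro hu r
      have h1 := IndN.split (U := U) (U' := U') (f := f)
        (P := fun q => ∀ i : Fin p, i.1 < p - (u + 1) → q.2 i = r i)
        (fun q => q.2 ⟨p - (u + 1), by omega⟩) (fun κ _ h0 l => hcl κ h0 _ l) (r := X ^ u)
        (fun l => (ih (by omega) (Function.update r ⟨p - (u + 1), by omega⟩ l)).imp (by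
          intro q hq
          refine ⟨fun i hi => ?_, ?_⟩
          · rw [hq i (by omega), Function.update_of_ne]
            intro h
            rw [h] at hi
            simp at hi
          · rw [hq _ (by simp only; omega), Function.update_self]))
      refine IndN.drop hU hm (h1.le ?_)
      have h2 : 1 ≤ X ^ u := Nat.one_le_pow _ _ hX
      calc X ^ (u + 1) + m ≤ X ^ (u + 1) + m * X ^ u := by
            have := Nat.mul_le_mul_left m h2
            omega
        _ = (X + m) * X ^ u := by ring
  obtain ⟨g, -, h2⟩ := main p le_rfl (fun _ => ⟨0, by omega⟩)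
  exact ⟨g, fun _ => trivial, h2⟩

end Split

end Pool.Agent.R350
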