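import Pool.Agent.R350.GA

/-!
# Relations of higher degree: one good member
-/

set_option autoImplicit false

namespace Pool.Agent.R350

open Module Finset

section

variable {k A : Type*} [Field k] [Field A] [Algebra k A]

/-- the situation for one good member -/
structure Ctx (D : ℕ) (L Ω W R : Submodule k A) (s : A) {m1 : ℕ} (ω : Fin m1 → A) {Q : Type}
    [Fintype Q] (μ : Q → A) (δ : Q → ℕ → Fin m1 → A) : Prop where
  h1L : (1 : A) ∈ L
  h1W : (1 : A) ∈ W
  hWL : W ≤ L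
  h1Ω : (1 : A) ∈ Ω
  hω : ∀ a, ω a ∈ Ω
  hs : s ∈ L
  hsR : s ∈ R
  hRL : R ≤ L
  hGD : GD D L (Ω * W ^ (D + 1)) s
  hns : s ∉ suppI L (Ω * W ^ (D + 1)) ⊔ (Ω * W ^ (D + 1))
  hstar : ∀ (τ : Type) [Fintype τ] (ω ℓ : τ → A), (∀ t, ω t ∈ Ω * W ^ (D + 1)) →
      (∀ t, ℓ t ∈ R ⊔ W) → ∑ t, ω t * ℓ t = 0 → ∀ φ : A →ₗ[k] k, ∑ t, φ (ω t) • ℓ t ∈ W
  hμ : ∀ q, μ q ∈ W
  hδ : ∀ q l a, δ q l a ∈ R
  hrel : ∀ q, ∑ l ∈ range (D + 2), (μ q + s) ^ l * ∑ a, ω a * δ q l a = 0

/-- the coefficients of the combined relation -/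
def MM (D : ℕ) {m1 : ℕ} (ω : Fin m1 → A) {Q : Type} [Fintype Q] (μ : Q → A)
    (δ : Q → ℕ → Fin m1 → A) (κ : Q → k) (i : ℕ) : A :=
  ∑ q, κ q • ∑ l ∈ range (D + 2), (l.choose i : A) * μ q ^ (l - i) * ∑ a, ω a * δ q l a

namespace Ctx

variable {D : ℕ} {L Ω W R : Submodule k A} {s : A} {m1 : ℕ} {ω : Fin m1 → A} {Q : Type}
    [Fintype Q] {μ : Q → A} {δ : Q → ℕ → Fin m1 → A}

theorem h1ΩW (H : Ctx D L Ω W R s ω μ δ) : (1 : A) ∈ Ω * W ^ (D + 1) := by
  have := Submodule.mul_mem_mul H.h1Ω (Submodule.pow_mem_pow W H.h1W (D + 1))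
  rwa [one_pow, one_mul] at this

theorem mem_pow (H : Ctx D L Ω W R s ω μ δ) (q : Q) {n : ℕ} (hn : n ≤ D + 1) (a : Fin m1) :
    μ q ^ n * ω a ∈ Ω * W ^ (D + 1) := by
  rw [mul_comm (μ q ^ n)]
  exact Submodule.mul_mem_mul (H.hω a) (pow_mono_of_one_mem H.h1W hn
    (Submodule.pow_mem_pow W (H.hμ q) n))

theorem mem_coef (H : Ctx D L Ω W R s ω μ δ) (q : Q) {l i : ℕ} (hl : l < D + 2) (a : Fin m1) :
    (l.choose i : A) * μ q ^ (l - i) * ω a ∈ Ω * W ^ (D + 1) := by
  rw [mul_assoc, ← nsmul_eq_mul]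
  exact nsmul_mem (H.mem_pow q (by omega) a) _

theorem hsW (H : Ctx D L Ω W R s ω μ δ) : s ∉ W := by
  intro h
  apply H.hns
  refine Submodule.mem_sup_right ?_
  have := Submodule.mul_mem_mul H.h1Ω (pow_mono_of_one_mem H.h1W (i := 1) (j := D + 1) (by omega)
    (by rw [pow_one]; exact h))
  rwa [one_mul] at this

theorem MM_mem (H : Ctx D L Ω W R s ω μ δ) (κ : Q → k) (i : ℕ) :
    MM D ω μ δ κ i ∈ Ω * W ^ (D + 1) * L := by
  refine Submodule.sum_mem _ fun q _ => Submodule.smul_mem _ _ (Submodule.sum_mem _ fun l hl => ?_)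
  rw [Finset.mul_sum]
  refine Submodule.sum_mem _ fun a _ => ?_
  rw [← mul_assoc]
  exact Submodule.mul_mem_mul (H.mem_coef q (Finset.mem_range.1 hl) a) (H.hRL (H.hδ _ _ _))

theorem sum_MM (H : Ctx D L Ω W R s ω μ δ) (κ : Q → k) :
    ∑ i ∈ range (D + 2), s ^ i * MM D ω μ δ κ i = 0 := by
  have h1 : ∀ q, ∀ l ∈ range (D + 2), (μ q + s) ^ l =
      ∑ i ∈ range (D + 2), s ^ i * ((l.choose i : A) * μ q ^ (l - i)) := by
    intro q l hl
    rw [add_comm, add_pow]
    rw [Finset.mem_range] at hl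
    rw [← Finset.sum_subset (s₁ := range (l + 1)) (s₂ := range (D + 2))]
    · refine Finset.sum_congr rfl fun i _ => ?_
      ring
    · intro i hi
      rw [Finset.mem_range] at hi ⊢
      omega
    · intro i _ hi
      rw [Finset.mem_range, not_lt] at hi
      rw [Nat.choose_eq_zero_of_lt (by omega)]
      simp
  unfold MM
  simp only [Finset.mul_sum]
  rw [Finset.sum_comm]
  refine Finset.sum_eq_zero fun q _ => ?_
  have h2 := H.hrel q
  rw [Finset.sum_congr rfl (fun l hl => by rw [h1 q l hl])] at h2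
  have h3 : ∑ i ∈ range (D + 2), s ^ i * κ q • ∑ l ∈ range (D + 2),
      ∑ a, (l.choose i : A) * μ q ^ (l - i) * (ω a * δ q l a) = κ q • ∑ l ∈ range (D + 2),
      (∑ i ∈ range (D + 2), s ^ i * ((l.choose i : A) * μ q ^ (l - i))) *
        ∑ a, ω a * δ q l a := by
    simp only [mul_smul_comm, Finset.smul_sum, Finset.mul_sum, Finset.sum_mul]
    rw [Finset.sum_comm]
    refine Finset.sum_congr rfl fun l _ => ?_
    rw [Finset.sum_comm]
    refine Finset.sum_congr rfl fun a _ => ?_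
    refine Finset.sum_congr rfl fun i _ => ?_
    congr 1
    ring
  rw [h3, h2, smul_zero]

/-- linearization of the relations -/
theorem star (H : Ctx D L Ω W R s ω μ δ) (κ : Q → k) (i : ℕ) {u u' : A}
    (hu : u ∈ Ω * W ^ (D + 1)) (hu' : u' ∈ Ω * W ^ (D + 1))
    (h0 : MM D ω μ δ κ i - u + s * u' = 0) (φ : A →ₗ[k] k) :
    ∑ q, κ q • ∑ l ∈ range (D + 2), ∑ a, φ ((l.choose i : A) * μ q ^ (l - i) * ω a) • δ q l a -
      φ u • (1 : A) + φ u' • s ∈ W := by
  have h1 := H.hstar ((Q × Fin (D + 2) × Fin m1) ⊕ Fin 2)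
    (Sum.elim (fun t => κ t.1 • (((t.2.1 : ℕ).choose i : A) * μ t.1 ^ ((t.2.1 : ℕ) - i) *
      ω t.2.2)) ![-u, u']) (Sum.elim (fun t => δ t.1 t.2.1 t.2.2) ![1, s]) ?_ ?_ ?_ φ
  · rw [Fintype.sum_sum_type, Fin.sum_univ_two] at h1
    simp only [Sum.elim_inl, Sum.elim_inr, Matrix.cons_val_zero, Matrix.cons_val_one,
      map_smul, map_neg, neg_smul, smul_eq_mul] at h1
    refine (congrArg (· ∈ W) ?_).mp h1
    rw [Fintype.sum_prod_type]
    have h2 : ∀ q, ∑ t : Fin (D + 2) × Fin m1, (κ q * φ (((t.1 : ℕ).choose i : A) *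
        μ q ^ ((t.1 : ℕ) - i) * ω t.2)) • δ q t.1 t.2 = κ q • ∑ l ∈ range (D + 2), ∑ a,
        φ ((l.choose i : A) * μ q ^ (l - i) * ω a) • δ q l a := by
      intro q
      rw [Fintype.sum_prod_type, Finset.sum_range (fun l => ∑ a,
        φ ((l.choose i : A) * μ q ^ (l - i) * ω a) • δ q l a), Finset.smul_sum]
      refine Finset.sum_congr rfl fun l _ => ?_
      rw [Finset.smul_sum]
      refine Finset.sum_congr rfl fun a _ => ?_
      rw [mul_smul]
    rw [Finset.sum_congr rfl (fun q _ => h2 q)]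
    ring
  · rintro (t | t)
    · exact Submodule.smul_mem _ _ (H.mem_coef t.1 t.2.1.2 t.2.2)
    · fin_cases t
      · exact Submodule.neg_mem _ hu
      · exact hu'
  · rintro (t | t)
    · exact Submodule.mem_sup_left (H.hδ _ _ _)
    · fin_cases t
      · exact Submodule.mem_sup_right H.h1W
      · exact Submodule.mem_sup_left H.hsR
  · rw [Fintype.sum_sum_type, Fin.sum_univ_two]
    simp only [Sum.elim_inl, Sum.elim_inr, Matrix.cons_val_zero, Matrix.cons_val_one]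
    rw [← h0]
    unfold MM
    rw [Fintype.sum_prod_type]
    have h2 : ∀ q, ∑ t : Fin (D + 2) × Fin m1, κ q • (((t.1 : ℕ).choose i : A) *
        μ q ^ ((t.1 : ℕ) - i) * ω t.2) * δ q t.1 t.2 = κ q • ∑ l ∈ range (D + 2),
        (l.choose i : A) * μ q ^ (l - i) * ∑ a, ω a * δ q l a := by
      intro q
      rw [Fintype.sum_prod_type, Finset.sum_range (fun l =>
        (l.choose i : A) * μ q ^ (l - i) * ∑ a, ω a * δ q l a), Finset.smul_sum]
      refine Finset.sum_congr rfl fun l _ => ?_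
      rw [Finset.mul_sum, Finset.smul_sum]
      refine Finset.sum_congr rfl fun a _ => ?_
      rw [smul_mul_assoc, mul_assoc]
    rw [Finset.sum_congr rfl (fun q _ => h2 q)]
    ring

/-- the top coefficient -/
theorem MM_top (κ : Q → k) : MM D ω μ δ κ (D + 1) = ∑ a, ω a * ∑ q, κ q • δ q (D + 1) a := by
  unfold MM
  simp only [Finset.mul_sum]
  rw [Finset.sum_comm]
  refine Finset.sum_congr rfl fun q _ => ?_
  rw [Finset.sum_eq_single (D + 1)]
  · rw [Nat.choose_self, Nat.sub_self, Nat.cast_one, pow_zero, mul_one, Finset.smul_sum]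
    refine Finset.sum_congr rfl fun a _ => ?_
    rw [one_mul, mul_smul_comm]
  · intro l hl hne
    rw [Finset.mem_range] at hl
    rw [Nat.choose_eq_zero_of_lt (by omega)]
    simp
  · intro h
    exact absurd (Finset.mem_range.2 (by omega)) h

/-- closure -/
theorem close (H : Ctx D L Ω W R s ω μ δ) (κ : Q → k)
    (hκ : ∀ a, ∑ q, κ q • δ q (D + 1) a ∈ W) :
    MM D ω μ δ κ (D + 1) ∈ Ω * W ^ (D + 1) ∧ ∃ u u' : A, u ∈ Ω * W ^ (D + 1) ∧
      u' ∈ Ω * W ^ (D + 1) ∧ MM D ω μ δ κ D - u + s * MM D ω μ δ κ (D + 1) = 0 ∧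
      (D = 0 → u = 0) ∧ ∀ E, D = E + 1 → MM D ω μ δ κ E - u' + s * u = 0 := by
  have hw : MM D ω μ δ κ (D + 1) ∈ Ω * W ^ (D + 1) := by
    rw [MM_top]
    refine Submodule.sum_mem _ fun a _ => Submodule.mul_mem_mul (H.hω a)
      (pow_mono_of_one_mem H.h1W (i := 1) (j := D + 1) (by omega) ?_)
    rw [pow_one]
    exact hκ a
  refine ⟨hw, ?_⟩
  obtain ⟨w, h1, h2, h3, h4⟩ := H.hGD.formal H.hs
    (fun j => if j = D then MM D ω μ δ κ D + s * MM D ω μ δ κ (D + 1) else MM D ω μ δ κ j)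
    (by
      intro j _
      by_cases hj : j = D
      · simp only [hj, if_true]
        refine Submodule.add_mem _ (H.MM_mem κ D) ?_
        rw [mul_comm s]
        exact Submodule.mul_mem_mul hw H.hs
      · simp only [hj, if_false]
        exact H.MM_mem κ j) (by
      have h5 := H.sum_MM κ
      rw [Finset.sum_range_succ, Finset.sum_range_succ] at h5
      rw [Finset.sum_range_succ, ← h5]
      simp only [if_true]
      have : ∑ j ∈ range D, s ^ j * (if j = D then MM D ω μ δ κ D +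
          s * MM D ω μ δ κ (D + 1) else MM D ω μ δ κ j) =
          ∑ j ∈ range D, s ^ j * MM D ω μ δ κ j := by
        refine Finset.sum_congr rfl fun j hj => ?_
        rw [if_neg (ne_of_lt (Finset.mem_range.mp hj))]
      rw [this]
      ring)
  refine ⟨w D, w (D - 1), h1 _, h1 _, ?_, ?_, ?_⟩
  · have h5 := h4 D le_rfl
    simp only [if_true] at h5
    rw [h3 (D + 1) (by omega), mul_zero, sub_zero] at h5
    rw [← h5]; ring
  · intro h
    rw [h]
    exact h2
  · intro E hE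
    have h5 := h4 E (by omega)
    rw [if_neg (by omega)] at h5
    rw [h5]
    subst hE
    simp

end Ctx

end

end Pool.Agent.R350
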