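import Pool.Agent.R350.GB

/-!
# Relations of higher degree: slices and the final count
-/

set_option autoImplicit false

namespace Pool.Agent.R350

open Module Finset

section

variable {k A : Type*} [Field k] [Field A] [Algebra k A]

/-- linear maps factor -/
theorem exists_factor {Q : Type*} [Fintype Q] [DecidableEq Q] {m1 : ℕ} (α : Q → Fin m1 → k)
    (f : Q → A)
    (h : ∀ κ : Q → k, (∀ a, ∑ q, κ q * α q a = 0) → ∑ q, κ q • f q = 0) :
    ∃ g : Fin m1 → A, ∀ q, f q = ∑ a, α q a • g a := by
  classical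
  let P : (Q → k) →ₗ[k] (Fin m1 → k) := Fintype.linearCombination k α
  let F : (Q → k) →ₗ[k] A := Fintype.linearCombination k f
  have hker : ∀ κ, P κ = 0 → F κ = 0 := by
    intro κ hκ
    have h6 := h κ (by
      intro a
      have h7 := congrFun hκ a
      simp only [P, Fintype.linearCombination_apply, Finset.sum_apply, Pi.smul_apply,
        Pi.zero_apply, smul_eq_mul] at h7
      exact h7)
    simp only [F, Fintype.linearCombination_apply]
    exact h6
  obtain ⟨R0, hR0⟩ := P.rangeRestrict.exists_rightInverse_of_surjective P.range_rangeRestrict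
  obtain ⟨G, hG1⟩ := LinearMap.exists_extend (F ∘ₗ R0)
  have hGP : ∀ κ, G (P κ) = F κ := by
    intro κ
    have h6 := LinearMap.congr_fun hG1 ⟨P κ, LinearMap.mem_range_self P κ⟩
    rw [LinearMap.comp_apply, Submodule.subtype_apply] at h6
    change G (P κ) = _ at h6
    rw [h6, LinearMap.comp_apply]
    have h7 := LinearMap.congr_fun hR0 ⟨P κ, LinearMap.mem_range_self P κ⟩
    have h8 : P (R0 ⟨P κ, LinearMap.mem_range_self P κ⟩) = P κ := congrArg Subtype.val h7
    have h9 := hker (R0 ⟨P κ, LinearMap.mem_range_self P κ⟩ - κ) (by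
      rw [map_sub, h8, sub_self])
    rwa [map_sub, sub_eq_zero] at h9
  refine ⟨fun a => G (Pi.single a 1), fun q => ?_⟩
  have h6 : F (Pi.single q 1) = f q := by
    simp only [F, Fintype.linearCombination_apply_single, one_smul]
  have h7 : P (Pi.single q 1) = α q := by
    simp only [P, Fintype.linearCombination_apply_single, one_smul]
  rw [← h6, ← hGP, h7]
  have h8 : α q = ∑ a, α q a • (Pi.single a (1 : k) : Fin m1 → k) := by
    funext b
    simp [Finset.sum_apply, Pi.single_apply]
  nth_rewrite 1 [h8]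
  rw [map_sum]
  refine Finset.sum_congr rfl fun a _ => ?_
  rw [map_smul]

theorem eq_zero_of_dual {z : A} (h : ∀ φ : A →ₗ[k] k, φ z = 0) : z = 0 := by
  by_contra hne
  obtain ⟨φ, -, hφ⟩ := exists_dual_ne (⊥ : Submodule k A) (z := z) (by
    rw [Submodule.mem_bot]; exact hne)
  rw [h φ] at hφ
  exact zero_ne_one hφ

/-- polynomials in `s` of degree less than `n` with coefficients in `Ω` -/
def polyU (s : A) (Ω : Submodule k A) (n : ℕ) : Submodule k A where
  carrier := {z | ∃ u : ℕ → A, (∀ i, u i ∈ Ω) ∧ z = ∑ i ∈ range n, s ^ i * u i}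
  add_mem' := by
    rintro _ _ ⟨u, h1, rfl⟩ ⟨u', h2, rfl⟩
    refine ⟨fun i => u i + u' i, fun i => Ω.add_mem (h1 i) (h2 i), ?_⟩
    rw [← Finset.sum_add_distrib]
    exact Finset.sum_congr rfl fun i _ => by ring
  zero_mem' := ⟨fun _ => 0, fun _ => Ω.zero_mem, by simp⟩
  smul_mem' := by
    rintro c _ ⟨u, h1, rfl⟩
    refine ⟨fun i => c • u i, fun i => Ω.smul_mem _ (h1 i), ?_⟩
    rw [Finset.smul_sum]
    exact Finset.sum_congr rfl fun i _ => by rw [mul_smul_comm]

theorem mem_polyU {s : A} {Ω : Submodule k A} {n : ℕ} (u : ℕ → A) (h : ∀ i < n, u i ∈ Ω) :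
    ∑ i ∈ range n, s ^ i * u i ∈ polyU s Ω n := by
  refine ⟨fun i => if i < n then u i else 0, fun i => ?_, ?_⟩
  · by_cases hi : i < n
    · simp only [hi, if_true]; exact h i hi
    · simp only [hi, if_false]; exact Ω.zero_mem
  · refine Finset.sum_congr rfl fun i hi => ?_
    simp only [if_pos (Finset.mem_range.1 hi)]

namespace Ctx

variable {D : ℕ} {L Ω W R : Submodule k A} {s : A} {m1 : ℕ} {ω : Fin m1 → A} {Q : Type}
    [Fintype Q] {μ : Q → A} {δ : Q → ℕ → Fin m1 → A}

theorem comp (H : Ctx D L Ω W R s ω μ δ) {Q' : Type} [Fintype Q'] (g : Q' → Q) :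
    Ctx D L Ω W R s ω (fun q => μ (g q)) (fun q => δ (g q)) :=
  ⟨H.h1L, H.h1W, H.hWL, H.h1Ω, H.hω, H.hs, H.hsR, H.hRL, H.hGD, H.hns, H.hstar,
    fun _ => H.hμ _, fun _ _ _ => H.hδ _ _ _, fun _ => H.hrel _⟩

omit [Fintype Q] in
theorem expand_pow (q : Q) (l : ℕ) (a : Fin m1) : (μ q + s) ^ l * ω a =
    ∑ i ∈ range (l + 1), s ^ i * ((l.choose i : A) * μ q ^ (l - i) * ω a) := by
  rw [add_comm, add_pow, Finset.sum_mul]
  exact Finset.sum_congr rfl fun i _ => by ring

/-- a functional which picks the top coefficient -/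
theorem exists_top (H : Ctx D L Ω W R s ω μ δ) (hωli : LinearIndependent k ω) (a0 : Fin m1) :
    ∃ φ : A →ₗ[k] k, (∀ q a, ∀ l ≤ D, φ ((μ q + s) ^ l * ω a) = 0) ∧
      ∀ q a, φ ((μ q + s) ^ (D + 1) * ω a) = if a = a0 then 1 else 0 := by
  classical
  obtain ⟨φ, h1, h2⟩ := exists_dual (polyU s (Ω * W ^ (D + 1)) (D + 1))
    (fun a => s ^ (D + 1) * ω a) (by
      intro c hc
      obtain ⟨u, hu, he⟩ := hc
      have h3 := free_poly H.hs H.h1L H.h1ΩW H.hns H.hGD (D + 1) le_rfl
        (fun i => if i = D + 1 then ∑ a, c a • ω a else -u i) (by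
          intro i _
          by_cases hi : i = D + 1
          · simp only [hi, if_true]
            refine Submodule.sum_mem _ fun a _ => Submodule.smul_mem _ _ ?_
            have := Submodule.mul_mem_mul (H.hω a) (Submodule.pow_mem_pow W H.h1W (D + 1))
            rwa [one_pow, mul_one] at this
          · simp only [hi, if_false]
            exact Submodule.neg_mem _ (hu i)) (by
          rw [Finset.sum_range_succ]
          simp only [if_true]
          have h4 : ∑ i ∈ range (D + 1), s ^ i * (if i = D + 1 then ∑ a, c a • ω a else -u i) =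
              -∑ i ∈ range (D + 1), s ^ i * u i := by
            rw [← Finset.sum_neg_distrib]
            refine Finset.sum_congr rfl fun i hi => ?_
            rw [if_neg (ne_of_lt (Finset.mem_range.mp hi))]
            ring
          rw [h4, ← he, Finset.mul_sum]
          simp only [mul_smul_comm]
          ring) (D + 1) le_rfl
      simp only [if_true] at h3
      exact Fintype.linearIndependent_iff.1 hωli c h3) (fun a => if a = a0 then 1 else 0)
  refine ⟨φ, fun q a l hl => ?_, fun q a => ?_⟩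
  · apply h1
    rw [expand_pow]
    rw [Finset.sum_subset (s₁ := range (l + 1)) (s₂ := range (D + 1))]
    · exact mem_polyU _ fun i hi => H.mem_coef q (by omega) a
    · intro i hi
      rw [Finset.mem_range] at hi ⊢
      omega
    · intro i _ hi
      rw [Finset.mem_range, not_lt] at hi
      rw [Nat.choose_eq_zero_of_lt (by omega)]
      simp
  · rw [expand_pow, Finset.sum_range_succ, map_add, h1 _ (mem_polyU _ fun i hi =>
      H.mem_coef q (by omega) a), zero_add, Nat.choose_self, Nat.sub_self, Nat.cast_one, pow_zero,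
      one_mul, one_mul, h2]

/-- the rank bound -/
theorem rank_bound (H : Ctx D L Ω W R s ω μ δ) {v : ℕ} (hL : HypV v L)
    (hωli : LinearIndependent k ω) (W0 : Submodule k A)
    [FiniteDimensional k (Ω * W0 ^ (D + 1) : Submodule k A)] (h1 : (1 : A) ∈ W0)
    (hs0 : s ∈ W0) (hμ0 : ∀ q, μ q ∈ W0) {N : ℕ}
    (hN : finrank k (Ω * W0 ^ (D + 1) : Submodule k A) ≤ N) {r : ℕ}
    (U : Submodule k (Fin m1 → A))
    (h : IndN U (fun (q : Q) (a : Fin m1) => δ q (D + 1) a) (fun _ => True) r) :
    r ≤ N * (N + v) := by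
  classical
  obtain ⟨g, -, hg⟩ := h
  have hfin := hL.dual (κ := Fin r) (τ := Fin (D + 2) × Fin m1) (Ω * W0 ^ (D + 1))
    (fun c t => (μ (g c) + s) ^ (t.1 : ℕ) * ω t.2) (fun c t => δ (g c) t.1 t.2) ?_ ?_ ?_ ?_
  · rw [Fintype.card_fin] at hfin
    exact hfin.trans (Nat.mul_le_mul hN (Nat.add_le_add_right hN v))
  · intro c t
    rw [mul_comm _ (ω t.2)]
    refine Submodule.mul_mem_mul (H.hω _) (pow_mono_of_one_mem h1 (Nat.le_of_lt_succ t.1.2)
      (Submodule.pow_mem_pow _ (W0.add_mem (hμ0 _) hs0) _))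
  · intro c t
    exact H.hRL (H.hδ _ _ _)
  · intro c
    rw [← H.hrel (g c), Fintype.sum_prod_type, Finset.sum_range]
    refine Finset.sum_congr rfl fun l _ => ?_
    rw [Finset.mul_sum]
    exact Finset.sum_congr rfl fun a _ => by rw [mul_assoc]
  · intro η hη
    apply hg η
    have h2 : ∑ c, η c • (fun (a : Fin m1) => δ (g c) (D + 1) a) = 0 := by
      funext a0
      obtain ⟨φ, h3, h4⟩ := H.exists_top hωli a0
      have h5 := hη φ
      rw [Finset.sum_apply, Pi.zero_apply, ← h5]
      refine Finset.sum_congr rfl fun c _ => ?_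
      rw [Pi.smul_apply]
      congr 1
      rw [Fintype.sum_prod_type, Finset.sum_eq_single (Fin.last (D + 1))]
      · rw [Finset.sum_eq_single a0]
        · simp only [Fin.val_last]
          rw [h4, if_pos rfl, one_smul]
        · intro a _ ha
          simp only [Fin.val_last]
          rw [h4, if_neg ha, zero_smul]
        · intro h; exact absurd (Finset.mem_univ _) h
      · intro l _ hl
        have hl' : (l : ℕ) ≤ D := by
          have h6 : (l : ℕ) ≠ D + 1 := fun h => hl (Fin.ext h)
          omega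
        refine Finset.sum_eq_zero fun a _ => ?_
        simp only
        rw [h3 _ _ _ hl', zero_smul]
      · intro h; exact absurd (Finset.mem_univ _) h
    rw [h2]
    exact U.zero_mem

/-- the projection of the relations -/
theorem sigma (H : Ctx D L Ω W R s ω μ δ) (σ : A →ₗ[k] k) (hσ : ∀ w ∈ W, σ w = 0)
    (hσs : σ s = 1) (κ : Q → k) (i : ℕ) {u u' : A}
    (hu : u ∈ Ω * W ^ (D + 1)) (hu' : u' ∈ Ω * W ^ (D + 1))
    (h0 : MM D ω μ δ κ i - u + s * u' = 0) :
    ∑ q, κ q • ∑ l ∈ range (D + 2), (l.choose i : A) * μ q ^ (l - i) *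
      ∑ a, σ (δ q l a) • ω a + u' = 0 := by
  apply eq_zero_of_dual (k := k)
  intro φ
  have h1 := hσ _ (H.star κ i hu hu' h0 φ)
  rw [map_add, map_sub, map_smul, map_smul, hσs, hσ _ H.h1W, smul_zero, sub_zero, smul_eq_mul,
    mul_one, map_sum] at h1
  rw [map_add, map_sum, ← h1]
  congr 1
  refine Finset.sum_congr rfl fun q _ => ?_
  rw [map_smul, map_smul, map_sum, map_sum]
  congr 1
  refine Finset.sum_congr rfl fun l _ => ?_
  rw [Finset.mul_sum, map_sum, map_sum]
  refine Finset.sum_congr rfl fun a _ => ?_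
  rw [mul_smul_comm, map_smul, map_smul, smul_eq_mul, smul_eq_mul, mul_comm]

/-- closure of the slices -/
theorem slice_closure [CharZero k] {B : Type} [Fintype B] {p n : ℕ}
    {μ : B × (Fin p → Fin n) → A} {δ : B × (Fin p → Fin n) → ℕ → Fin m1 → A}
    (H : Ctx D L Ω W R s ω μ δ)
    (hdual : ∀ (t : Fin p) (l : Fin n) (a0 : Fin m1), ∃ φ : A →ₗ[k] k, (∀ o ∈ Ω, φ o = 0) ∧
      ∀ q a, φ (μ q * ω a) = if q.2 t = l ∧ a = a0 then 1 else 0)
    (κ : B × (Fin p → Fin n) → k)
    (hκ : ∑ q, κ q • (fun a => δ q (D + 1) a) ∈ Submodule.pi (R := k) Set.univ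
      (fun _ : Fin m1 => W)) (t : Fin p) (l : Fin n) :
    ∑ q, (if q.2 t = l then κ q else 0) • (fun a => δ q (D + 1) a) ∈
      Submodule.pi (R := k) Set.univ (fun _ : Fin m1 => W ⊔ Submodule.span k {s}) := by
  classical
  rw [Submodule.mem_pi]
  intro a0 _
  obtain ⟨φ, h1, h2⟩ := hdual t l a0
  have hκ' : ∀ a, ∑ q, κ q • δ q (D + 1) a ∈ W := by
    intro a
    have := (Submodule.mem_pi (R := k)).1 hκ a (Set.mem_univ _)
    rwa [Finset.sum_apply] at this
  obtain ⟨h3, u, u', hu, hu', h4, -, -⟩ := H.close κ hκ'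
  have h5 := H.star κ D hu h3 h4 φ
  have h6 : ∀ q, ∑ l ∈ range (D + 2), ∑ a, φ ((l.choose D : A) * μ q ^ (l - D) * ω a) • δ q l a =
      ((D + 1 : ℕ) : k) • (if q.2 t = l then δ q (D + 1) a0 else 0) := by
    intro q
    rw [Finset.sum_range_succ, Finset.sum_range_succ, Finset.sum_eq_zero, zero_add]
    · rw [Finset.sum_eq_zero, zero_add]
      · rw [Finset.sum_eq_single a0]
        · rw [Nat.choose_succ_self_right, Nat.add_sub_cancel_left, pow_one, mul_assoc,
            ← nsmul_eq_mul, map_nsmul, h2, ← Nat.cast_smul_eq_nsmul k, smul_eq_mul]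
          by_cases h7 : q.2 t = l
          · simp [h7]
          · simp [h7]
        · intro a _ ha
          rw [mul_assoc, ← nsmul_eq_mul, map_nsmul, Nat.add_sub_cancel_left, pow_one, h2]
          simp [ha]
        · intro h; exact absurd (Finset.mem_univ _) h
      · intro a _
        rw [Nat.choose_self, Nat.sub_self, Nat.cast_one, pow_zero, one_mul, one_mul,
          h1 _ (H.hω a), zero_smul]
    · intro l hl
      rw [Finset.mem_range] at hl
      rw [Nat.choose_eq_zero_of_lt hl]
      simp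
  simp only [h6] at h5
  have h7 : ∑ q, κ q • ((D + 1 : ℕ) : k) • (if q.2 t = l then δ q (D + 1) a0 else 0) =
      ((D + 1 : ℕ) : k) • ∑ q, (if q.2 t = l then κ q else 0) • δ q (D + 1) a0 := by
    rw [Finset.smul_sum]
    refine Finset.sum_congr rfl fun q _ => ?_
    by_cases h7 : q.2 t = l
    · rw [if_pos h7, if_pos h7, smul_comm]
    · rw [if_neg h7, if_neg h7, smul_zero, smul_zero, zero_smul, smul_zero]
  rw [h7] at h5
  have h8 : ((D + 1 : ℕ) : k) • ∑ q, (if q.2 t = l then κ q else 0) • δ q (D + 1) a0 ∈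
      W ⊔ Submodule.span k {s} := by
    have h9 := Submodule.sub_mem _ (Submodule.add_mem _ (Submodule.mem_sup_left
      (T := Submodule.span k {s}) h5) (Submodule.mem_sup_left (T := Submodule.span k {s})
      (W.smul_mem (φ u) H.h1W))) (Submodule.mem_sup_right (S := W)
      (Submodule.smul_mem _ (φ (MM D ω μ δ κ (D + 1))) (Submodule.mem_span_singleton_self s)))
    refine (congrArg (· ∈ W ⊔ Submodule.span k {s}) ?_).mp h9
    ring
  have h9 := Submodule.smul_mem _ (((D + 1 : ℕ) : k)⁻¹) h8
  rw [smul_smul, inv_mul_cancel₀ (by exact_mod_cast Nat.succ_ne_zero D), one_smul] at h9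
  rw [Finset.sum_apply]
  exact h9

/-- **The final count.** -/
theorem finish [CharZero k] {v I K : ℕ} (hL : HypV v L) (hI : m1 < I)
    [FiniteDimensional k Ω]
    (x : Fin I → A) (y : Fin K → A) {δ : Fin I × Fin K → ℕ → Fin m1 → A}
    (H : Ctx D L Ω W R s ω (fun q : Fin I × Fin K => x q.1 + y q.2) δ)
    (hxL : ∀ i, x i ∈ L) (hyL : ∀ j, y j ∈ L)
    (hF : ∀ z : Fin m1 → Fin I → k, ∃ φ : A →ₗ[k] k, (∀ o ∈ Ω, φ o = 0) ∧
      (∀ a i, φ (ω a * x i) = z a i))
    (hy1 : ∀ (c0 : k) (c : Fin K → k), c0 • (1 : A) + ∑ j, c j • y j = 0 → ∀ j, c j = 0)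
    (hm : ∀ q, ∑ a, ω a * δ q (D + 1) a ∉ Ω)
    (hW : ∀ q a, δ q (D + 1) a ∈ W ⊔ Submodule.span k {s}) :
    K ≤ (finrank k Ω + 3 * (m1 * I)) * (finrank k Ω + 3 * (m1 * I) + v) := by
  classical
  obtain ⟨σ, hσ, hσs⟩ := exists_dual_ne W H.hsW
  set μ : Fin I × Fin K → A := fun q => x q.1 + y q.2 with hμ
  let α : Fin I × Fin K → Fin m1 → k := fun q a => σ (δ q (D + 1) a)
  let w : Fin I × Fin K → Fin m1 → A := fun q a => δ q (D + 1) a - α q a • s
  have hw : ∀ q a, w q a ∈ W := by
    intro q a
    obtain ⟨w', hw', z, hz, he⟩ := Submodule.mem_sup.1 (hW q a)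
    obtain ⟨c, rfl⟩ := Submodule.mem_span_singleton.1 hz
    have h1 : α q a = c := by
      simp only [α]
      rw [← he, map_add, hσ _ hw', map_smul, hσs, smul_eq_mul, mul_one, zero_add]
    simp only [w]
    rw [h1, ← he, add_sub_cancel_right]
    exact hw'
  let AA : Fin I × Fin K → A := fun q => ∑ a, α q a • ω a
  let BB : Fin I × Fin K → ℕ → A := fun q l => ∑ a, σ (δ q l a) • ω a
  have hBΩ : ∀ q l, BB q l ∈ Ω := fun q l =>
    Submodule.sum_mem _ fun a _ => Ω.smul_mem _ (H.hω a)
  let ww : Fin I × Fin K → A := fun q => ∑ a, ω a * w q a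
  have hmw : ∀ q, ∑ a, ω a * δ q (D + 1) a = AA q * s + ww q := by
    intro q
    simp only [AA, ww, w, Finset.sum_mul, ← Finset.sum_add_distrib]
    refine Finset.sum_congr rfl fun a _ => ?_
    rw [smul_mul_assoc, mul_sub, mul_smul_comm]
    ring
  -- the basic identities
  have hbasic : ∀ κ : Fin I × Fin K → k, (∀ a, ∑ q, κ q * α q a = 0) →
      ∑ q, κ q • (BB q D + ((D + 1 : ℕ) : A) * (μ q * AA q)) +
        ∑ q, κ q • ww q = 0 ∧
      ∃ u b : A, b ∈ Ω ∧ MM D ω μ δ κ D - u + s * ∑ q, κ q • ww q = 0 ∧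
        2 * u + ((D * (D + 1) : ℕ) : A) * ∑ q, κ q • (μ q * μ q * AA q) +
          2 * (D : A) * ∑ q, κ q • (μ q * BB q D) = b := by
    intro κ hκ
    have hAAκ : ∑ q, κ q • AA q = 0 := by
      have : ∑ q, κ q • AA q = ∑ a, (∑ q, κ q * α q a) • ω a := by
        simp only [AA, Finset.smul_sum, Finset.sum_smul, smul_smul]
        rw [Finset.sum_comm]
      rw [this]
      exact Finset.sum_eq_zero fun a _ => by rw [hκ a, zero_smul]
    have hκW : ∀ a, ∑ q, κ q • δ q (D + 1) a ∈ W := by
      intro a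
      have h1 : ∑ q, κ q • δ q (D + 1) a = ∑ q, κ q • w q a := by
        have h2 : ∑ q, κ q • w q a = ∑ q, κ q • δ q (D + 1) a - (∑ q, κ q * α q a) • s := by
          simp only [w, smul_sub, smul_smul, Finset.sum_sub_distrib, Finset.sum_smul]
        rw [h2, hκ a, zero_smul, sub_zero]
      rw [h1]
      exact Submodule.sum_mem _ fun q _ => W.smul_mem _ (hw q a)
    have htop : MM D ω μ δ κ (D + 1) = ∑ q, κ q • ww q := by
      rw [MM_top]
      have h1 : ∑ a, ω a * ∑ q, κ q • δ q (D + 1) a = ∑ q, κ q • ∑ a, ω a * δ q (D + 1) a := by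
        simp only [Finset.mul_sum, Finset.smul_sum, mul_smul_comm]
        rw [Finset.sum_comm]
      rw [h1]
      have h2 : ∑ q, κ q • ∑ a, ω a * δ q (D + 1) a = (∑ q, κ q • AA q) * s +
          ∑ q, κ q • ww q := by
        rw [Finset.sum_mul, ← Finset.sum_add_distrib]
        refine Finset.sum_congr rfl fun q _ => ?_
        rw [hmw q, smul_add, smul_mul_assoc]
      rw [h2, hAAκ, zero_mul, zero_add]
    obtain ⟨h3, u, u', hu, hu', h4, h5, h6⟩ := H.close κ hκW
    have h7 := H.sigma σ hσ hσs κ D hu h3 h4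
    refine ⟨?_, ?_⟩
    · rw [htop] at h7
      rw [← h7]
      congr 1
      refine Finset.sum_congr rfl fun q _ => ?_
      congr 1
      rw [Finset.sum_range_succ, Finset.sum_range_succ, Finset.sum_eq_zero, zero_add]
      · rw [Nat.choose_self, Nat.sub_self, Nat.cast_one, pow_zero, one_mul, one_mul,
          Nat.choose_succ_self_right, Nat.add_sub_cancel_left, pow_one, mul_assoc]
      · intro l hl
        rw [Finset.mem_range] at hl
        rw [Nat.choose_eq_zero_of_lt hl]
        simp
    · rw [htop] at h4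
      rcases Nat.eq_zero_or_pos D with hD | hD
      · refine ⟨u, 0, Ω.zero_mem, h4, ?_⟩
        rw [h5 hD, hD]
        simp
      · obtain ⟨E, rfl⟩ : ∃ E, D = E + 1 := ⟨D - 1, by omega⟩
        have h8 := H.sigma σ hσ hσs κ E hu' hu (h6 E rfl)
        refine ⟨u, -(2 * ∑ q, κ q • BB q E), Ω.neg_mem ?_, h4, ?_⟩
        · have h9 : ∑ q, κ q • BB q E ∈ Ω :=
            Submodule.sum_mem _ fun q _ => Ω.smul_mem _ (hBΩ q E)
          rw [two_mul]
          exact Ω.add_mem h9 h9
        · have h9 : ∑ q, κ q • ∑ l ∈ range (E + 1 + 2), (l.choose E : A) * μ q ^ (l - E) *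
              ∑ a, σ (δ q l a) • ω a = ∑ q, κ q • BB q E +
              ((E + 1 : ℕ) : A) * ∑ q, κ q • (μ q * BB q (E + 1)) +
              ((E + 2).choose E : A) * ∑ q, κ q • (μ q * μ q * AA q) := by
            rw [Finset.mul_sum, Finset.mul_sum, ← Finset.sum_add_distrib,
              ← Finset.sum_add_distrib]
            refine Finset.sum_congr rfl fun q _ => ?_
            rw [Finset.sum_range_succ, Finset.sum_range_succ, Finset.sum_range_succ,
              Finset.sum_eq_zero, zero_add]
            · rw [Nat.choose_self, Nat.sub_self, Nat.cast_one, pow_zero, one_mul, one_mul,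
                Nat.choose_succ_self_right, Nat.add_sub_cancel_left, pow_one]
              have e1 : E + 1 + 1 - E = 2 := by omega
              rw [e1, smul_add, smul_add, mul_smul_comm, mul_smul_comm]
              change κ q • BB q E + κ q • (((E + 1 : ℕ) : A) * μ q * BB q (E + 1)) +
                κ q • (((E + 1 + 1).choose E : A) * μ q ^ 2 * AA q) = _
              congr 1
              · congr 1
                rw [mul_assoc]
              · rw [mul_assoc, pow_two]
            · intro l hl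
              rw [Finset.mem_range] at hl
              rw [Nat.choose_eq_zero_of_lt hl]
              simp
          rw [h9] at h8
          have h10 : 2 * ((E + 2).choose E : A) = (((E + 1) * (E + 1 + 1) : ℕ) : A) := by
            have e1 : (E + 2).choose E = (E + 2).choose 2 := by
              rw [← Nat.choose_symm (by omega : 2 ≤ E + 2)]
              simp
            have e2 : (E + 2).choose 2 * 2 = (E + 2) * (E + 1) := by
              rw [Nat.choose_two_right]
              have e3 : E + 2 - 1 = E + 1 := by omega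
              rw [e3]
              exact Nat.div_mul_cancel (by
                have := Nat.even_mul_succ_self (E + 1)
                rw [mul_comm]
                exact this.two_dvd)
            rw [e1]
            have e3 : 2 * (E + 2).choose 2 = (E + 1) * (E + 1 + 1) := by
              rw [mul_comm, e2]; ring
            exact_mod_cast congrArg (Nat.cast : ℕ → A) e3
          have h11 : (((E + 1) * (E + 1 + 1) : ℕ) : A) = 2 * ((E + 2).choose E : A) := h10.symm
          rw [h11]
          linear_combination 2 * h8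
  -- the linear map
  obtain ⟨g, hg⟩ := exists_factor α (fun q => BB q D + ((D + 1 : ℕ) : A) * (μ q * AA q) + ww q)
    (by
      intro κ hκ
      rw [← (hbasic κ hκ).1, ← Finset.sum_add_distrib]
      exact Finset.sum_congr rfl fun q _ => by rw [smul_add])
  -- no zero
  have h5a : ∀ q, ∃ a, α q a ≠ 0 := by
    intro q
    by_contra hα
    push Not at hα
    apply hm q
    have h1 : AA q = 0 := Finset.sum_eq_zero fun a _ => by rw [hα a, zero_smul]
    have h2 := hg q
    rw [h1, mul_zero, mul_zero, add_zero, Finset.sum_eq_zero (fun a _ => by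
      rw [hα a, zero_smul])] at h2
    rw [hmw q, h1, zero_mul, zero_add]
    rw [eq_neg_of_add_eq_zero_right h2]
    exact Ω.neg_mem (hBΩ _ _)
  -- the relations in `Ω L`
  have hΩL : ∀ κ : Fin I × Fin K → k, (∀ a, ∑ q, κ q * α q a = 0) →
      (2 : A) * ∑ q, κ q • (μ q * ∑ a, α q a • g a) -
        ((D + 2 : ℕ) : A) * ∑ q, κ q • (μ q * μ q * AA q) ∈ Ω * L := by
    intro κ hκ
    obtain ⟨h1, u, b, hb, h2, h3⟩ := hbasic κ hκ
    have hμL : ∀ q, μ q ∈ L := fun q => L.add_mem (hxL _) (hyL _)
    have h4 : MM D ω μ δ κ D = ∑ q, κ q • ∑ a, ω a * δ q D a + ((D + 1 : ℕ) : A) *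
        (s * ∑ q, κ q • (μ q * AA q) + ∑ q, κ q • (μ q * ww q)) := by
      unfold MM
      rw [Finset.mul_sum, ← Finset.sum_add_distrib, Finset.mul_sum, ← Finset.sum_add_distrib]
      refine Finset.sum_congr rfl fun q _ => ?_
      rw [Finset.sum_range_succ, Finset.sum_range_succ, Finset.sum_eq_zero, zero_add]
      · rw [Nat.choose_self, Nat.sub_self, Nat.cast_one, pow_zero, one_mul, one_mul,
          Nat.choose_succ_self_right, Nat.add_sub_cancel_left, pow_one, hmw q, smul_add]
        congr 1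
        simp only [Algebra.smul_def]
        ring
      · intro l hl
        rw [Finset.mem_range] at hl
        rw [Nat.choose_eq_zero_of_lt hl]
        simp
    have h5 : ∑ q, κ q • (μ q * ww q) = ∑ q, κ q • (μ q * ∑ a, α q a • g a) -
        ((D + 1 : ℕ) : A) * ∑ q, κ q • (μ q * μ q * AA q) - ∑ q, κ q • (μ q * BB q D) := by
      rw [Finset.mul_sum, ← Finset.sum_sub_distrib, ← Finset.sum_sub_distrib]
      refine Finset.sum_congr rfl fun q _ => ?_
      rw [← hg q]
      simp only [Algebra.smul_def]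
      ring
    have h6 : ∑ q, κ q • ww q = -(∑ q, κ q • BB q D +
        ((D + 1 : ℕ) : A) * ∑ q, κ q • (μ q * AA q)) := by
      rw [eq_neg_iff_add_eq_zero, ← h1, add_comm]
      congr 1
      rw [Finset.mul_sum, ← Finset.sum_add_distrib]
      refine Finset.sum_congr rfl fun q _ => ?_
      rw [smul_add, mul_smul_comm]
    have h7 : ((D + 1 : ℕ) : A) * ((2 : A) * ∑ q, κ q • (μ q * ∑ a, α q a • g a) -
        ((D + 2 : ℕ) : A) * ∑ q, κ q • (μ q * μ q * AA q)) =
        b - (2 : A) * ∑ q, κ q • ∑ a, ω a * δ q D a +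
        (2 : A) * (s * ∑ q, κ q • BB q D) + (2 : A) * ∑ q, κ q • (μ q * BB q D) := by
      rw [h4, h5, h6] at h2
      push_cast at h2 h3 ⊢
      linear_combination 2 * h2 + h3
    have h8 : ((D + 1 : ℕ) : k) • ((2 : A) * ∑ q, κ q • (μ q * ∑ a, α q a • g a) -
        ((D + 2 : ℕ) : A) * ∑ q, κ q • (μ q * μ q * AA q)) ∈ Ω * L := by
      rw [Nat.cast_smul_eq_nsmul, nsmul_eq_mul, h7]
      have two_mem : ∀ z ∈ Ω * L, (2 : A) * z ∈ Ω * L := by
        intro z hz
        rw [two_mul]
        exact Submodule.add_mem _ hz hz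
      refine Submodule.add_mem _ (Submodule.add_mem _ (Submodule.sub_mem _ ?_ (two_mem _ ?_))
        (two_mem _ ?_)) (two_mem _ ?_)
      · have := Submodule.mul_mem_mul hb H.h1L
        rwa [mul_one] at this
      · refine Submodule.sum_mem _ fun q _ => Submodule.smul_mem _ _
          (Submodule.sum_mem _ fun a _ => Submodule.mul_mem_mul (H.hω a) (H.hRL (H.hδ _ _ _)))
      · rw [mul_comm s]
        exact Submodule.mul_mem_mul (Submodule.sum_mem _ fun q _ => Ω.smul_mem _ (hBΩ q D)) H.hs
      · refine Submodule.sum_mem _ fun q _ => Submodule.smul_mem _ _ ?_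
        rw [mul_comm (μ q)]
        exact Submodule.mul_mem_mul (hBΩ q D) (hμL q)
    have h9 := Submodule.smul_mem _ (((D + 1 : ℕ) : k)⁻¹) h8
    rwa [smul_smul, inv_mul_cancel₀ (by exact_mod_cast Nat.succ_ne_zero D), one_smul] at h9
  -- a relation in each column
  have h7 : ∀ j : Fin K, ∃ c : Fin I → k, (∃ i, c i ≠ 0) ∧
      ∀ a, ∑ i, c i * α (i, j) a = 0 := by
    intro j
    obtain ⟨c, -, hc2, hc3⟩ := exists_rel (Finset.univ : Finset (Fin I))
      (fun i a => α (i, j) a) (by rwa [Finset.card_univ, Fintype.card_fin])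
    exact ⟨c, hc2, hc3⟩
  choose c hc0 hcα using h7
  obtain ⟨b, hbli, hbspan, hbmul⟩ := mem_mul_basis Ω L
  let h : Fin K → A := fun j => ∑ i, c j i • (x i * AA (i, j))
  let f : Fin K → A := fun j => (2 : A) * ∑ i, c j i • (x i * ∑ a, α (i, j) a • g a) -
    ((D + 2 : ℕ) : A) * ∑ i, c j i • (x i * x i * AA (i, j))
  have hAA : ∀ j : Fin K, ∑ i, c j i • AA (i, j) = 0 := by
    intro j
    have : ∑ i, c j i • AA (i, j) = ∑ a, (∑ i, c j i * α (i, j) a) • ω a := by
      simp only [AA, Finset.smul_sum, Finset.sum_smul, smul_smul]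
      rw [Finset.sum_comm]
    rw [this]
    exact Finset.sum_eq_zero fun a _ => by rw [hcα j a, zero_smul]
  have hgg : ∀ j : Fin K, ∑ i, c j i • ∑ a, α (i, j) a • g a = 0 := by
    intro j
    have : ∑ i, c j i • ∑ a, α (i, j) a • g a = ∑ a, (∑ i, c j i * α (i, j) a) • g a := by
      simp only [Finset.smul_sum, Finset.sum_smul, smul_smul]
      rw [Finset.sum_comm]
    rw [this]
    exact Finset.sum_eq_zero fun a _ => by rw [hcα j a, zero_smul]
  have hsum : ∀ (j : Fin K) (F : Fin I × Fin K → A),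
      ∑ q : Fin I × Fin K, (if q.2 = j then c j q.1 else 0) • F q = ∑ i, c j i • F (i, j) := by
    intro j F
    rw [Fintype.sum_prod_type]
    refine Finset.sum_congr rfl fun i _ => ?_
    rw [Finset.sum_eq_single j]
    · simp
    · intro j' _ hj'; simp [hj']
    · intro h; exact absurd (Finset.mem_univ _) h
  have hmem : ∀ j : Fin K, f j - ((2 * (D + 2) : ℕ) : k) • (y j * h j) ∈ Ω * L := by
    intro j
    have h9 := hΩL (fun q => if q.2 = j then c j q.1 else 0) (by
      intro a
      have h10 : ∑ q : Fin I × Fin K, (if q.2 = j then c j q.1 else 0) * α q a =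
          ∑ i, c j i * α (i, j) a := by
        rw [Fintype.sum_prod_type]
        refine Finset.sum_congr rfl fun i _ => ?_
        rw [Finset.sum_eq_single j]
        · simp
        · intro j' _ hj'; simp [hj']
        · intro h; exact absurd (Finset.mem_univ _) h
      rw [h10]
      exact hcα j a)
    rw [hsum j (fun q => μ q * ∑ a, α q a • g a), hsum j (fun q => μ q * μ q * AA q)] at h9
    refine (congrArg (· ∈ Ω * L) ?_).mp h9
    have e1 : ∑ i, c j i • (μ (i, j) * ∑ a, α (i, j) a • g a) =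
        ∑ i, c j i • (x i * ∑ a, α (i, j) a • g a) + y j * ∑ i, c j i • ∑ a, α (i, j) a • g a := by
      rw [Finset.mul_sum, ← Finset.sum_add_distrib]
      refine Finset.sum_congr rfl fun i _ => ?_
      rw [mul_smul_comm, ← smul_add]
      congr 1
      simp only [hμ]
      ring
    have e2 : ∑ i, c j i • (μ (i, j) * μ (i, j) * AA (i, j)) =
        ∑ i, c j i • (x i * x i * AA (i, j)) + 2 * (y j * h j) +
          y j * y j * ∑ i, c j i • AA (i, j) := by
      simp only [h]
      rw [Finset.mul_sum, Finset.mul_sum, Finset.mul_sum, ← Finset.sum_add_distrib,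
        ← Finset.sum_add_distrib]
      refine Finset.sum_congr rfl fun i _ => ?_
      rw [mul_smul_comm, mul_smul_comm, mul_smul_comm, ← smul_add, ← smul_add]
      congr 1
      simp only [hμ]
      ring
    rw [e1, e2, hAA, hgg, Nat.cast_smul_eq_nsmul, nsmul_eq_mul]
    simp only [f]
    push_cast
    ring
  -- the final count
  let gen : (Fin m1 × Fin I) × Fin 3 → A := fun q =>
    ![x q.1.2 * g q.1.1, x q.1.2 * x q.1.2 * ω q.1.1, ω q.1.1 * x q.1.2] q.2
  let Ω' : Submodule k A := Ω ⊔ Submodule.span k (Set.range gen)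
  have hgenf : FiniteDimensional k (Submodule.span k (Set.range gen)) :=
    FiniteDimensional.span_of_finite k (Set.finite_range gen)
  have hΩf : FiniteDimensional k Ω' :=
    inferInstanceAs (FiniteDimensional k (Ω ⊔ Submodule.span k (Set.range gen) : Submodule k A))
  have hΩfin : finrank k Ω' ≤ finrank k Ω + 3 * (m1 * I) := by
    refine (Submodule.finrank_add_le_finrank_add_finrank _ _).trans ?_
    have h8 := finrank_range_le_card (R := k) gen
    rw [Set.finrank] at h8
    have h9 : Fintype.card ((Fin m1 × Fin I) × Fin 3) = 3 * (m1 * I) := by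
      simp only [Fintype.card_prod, Fintype.card_fin]
      ring
    rw [h9] at h8
    exact Nat.add_le_add_left h8 _
  have hgen : ∀ q, gen q ∈ Ω' := fun q => Submodule.mem_sup_right (Submodule.subset_span ⟨q, rfl⟩)
  have hhmem : ∀ j : Fin K, h j ∈ Ω' := by
    intro j
    refine Submodule.sum_mem _ fun i _ => Submodule.smul_mem _ _ ?_
    simp only [AA, Finset.mul_sum]
    refine Submodule.sum_mem _ fun a _ => ?_
    rw [mul_smul_comm, mul_comm]
    exact Submodule.smul_mem _ _ (hgen ((a, i), 2))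
  have hfmem : ∀ j : Fin K, f j ∈ Ω' := by
    intro j
    refine Submodule.sub_mem _ ?_ ?_
    · rw [two_mul]
      have h9 : ∑ i, c j i • (x i * ∑ a, α (i, j) a • g a) ∈ Ω' := by
        refine Submodule.sum_mem _ fun i _ => Submodule.smul_mem _ _ ?_
        rw [Finset.mul_sum]
        refine Submodule.sum_mem _ fun a _ => ?_
        rw [mul_smul_comm]
        exact Submodule.smul_mem _ _ (hgen ((a, i), 0))
      exact Submodule.add_mem _ h9 h9
    · rw [← nsmul_eq_mul]
      refine nsmul_mem (Submodule.sum_mem _ fun i _ => Submodule.smul_mem _ _ ?_) _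
      simp only [AA, Finset.mul_sum]
      refine Submodule.sum_mem _ fun a _ => ?_
      rw [mul_smul_comm]
      exact Submodule.smul_mem _ _ (hgen ((a, i), 1))
  have hγ : ∀ j : Fin K, ∃ γ : Fin (finrank k Ω) → A, (∀ a, γ a ∈ L) ∧
      f j - ((2 * (D + 2) : ℕ) : k) • (y j * h j) = ∑ a, b a * γ a := fun j => hbmul _ (hmem j)
  choose γ hγL hγe using hγ
  have hbΩ0 : ∀ a, b a ∈ Ω := fun a => by
    rw [← hbspan]
    exact Submodule.subset_span ⟨a, rfl⟩
  have hfin := hL.dual (κ := Fin K) (τ := Fin 2 ⊕ Fin (finrank k Ω)) Ω'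
    (fun j => Sum.elim ![f j, h j] b)
    (fun j => Sum.elim ![1, -(((2 * (D + 2) : ℕ) : k) • y j)] (fun a => -γ j a)) ?_ ?_ ?_ ?_
  · rw [Fintype.card_fin] at hfin
    exact hfin.trans (Nat.mul_le_mul hΩfin (Nat.add_le_add_right hΩfin v))
  · rintro j (t | t)
    · fin_cases t
      · exact hfmem j
      · exact hhmem j
    · exact Submodule.mem_sup_left (hbΩ0 t)
  · rintro j (t | t)
    · fin_cases t
      · exact H.h1L
      · exact L.neg_mem (L.smul_mem _ (hyL j))
    · exact L.neg_mem (hγL j t)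
  · intro j
    rw [Fintype.sum_sum_type, Fin.sum_univ_two]
    simp only [Sum.elim_inl, Sum.elim_inr, Matrix.cons_val_zero, Matrix.cons_val_one,
      mul_neg, Finset.sum_neg_distrib, ← hγe j, mul_one]
    rw [mul_smul_comm, mul_comm (h j)]
    ring
  · intro η hη j0
    by_contra hne
    obtain ⟨i0, hi0⟩ := hc0 j0
    obtain ⟨a0, ha0⟩ := h5a (i0, j0)
    obtain ⟨φ, hφ0, hφx⟩ := hF (fun a i => if a = a0 ∧ i = i0 then 1 else 0)
    have h8 := hη φ
    have h9 : ∀ j : Fin K, ∑ t : Fin 2 ⊕ Fin (finrank k Ω), φ (Sum.elim ![f j, h j] b t) •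
        (Sum.elim ![1, -(((2 * (D + 2) : ℕ) : k) • y j)] (fun a => -γ j a) t : A) =
        φ (f j) • (1 : A) - (((2 * (D + 2) : ℕ) : k) * φ (h j)) • y j := by
      intro j
      rw [Fintype.sum_sum_type, Fin.sum_univ_two]
      simp only [Sum.elim_inl, Sum.elim_inr, Matrix.cons_val_zero, Matrix.cons_val_one]
      rw [Finset.sum_eq_zero (fun a _ => by rw [hφ0 _ (hbΩ0 a), zero_smul]), add_zero,
        smul_neg, smul_smul, mul_comm (φ (h j)), sub_eq_add_neg]
    simp only [h9] at h8
    have h10 := hy1 (∑ j, η j * φ (f j))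
      (fun j => -(η j * (((2 * (D + 2) : ℕ) : k) * φ (h j)))) (by
      rw [← h8, Finset.sum_smul, ← Finset.sum_add_distrib]
      refine Finset.sum_congr rfl fun j _ => ?_
      rw [smul_sub, smul_smul, smul_smul, neg_smul, sub_eq_add_neg]) j0
    simp only [neg_eq_zero] at h10
    have h11 : φ (h j0) = c j0 i0 * α (i0, j0) a0 := by
      have e1 : ∀ i, φ (x i * AA (i, j0)) = ∑ a, α (i, j0) a * φ (ω a * x i) := by
        intro i
        simp only [AA, Finset.mul_sum, map_sum]
        refine Finset.sum_congr rfl fun a _ => ?_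
        rw [mul_smul_comm, map_smul, smul_eq_mul, mul_comm (x i)]
      have e2 : φ (h j0) = ∑ i, c j0 i * ∑ a, α (i, j0) a * φ (ω a * x i) := by
        simp only [h]
        rw [map_sum]
        exact Finset.sum_congr rfl fun i _ => by rw [map_smul, smul_eq_mul, e1 i]
      rw [e2, Finset.sum_eq_single i0]
      · rw [Finset.sum_eq_single a0]
        · rw [hφx]; simp
        · intro a _ ha
          rw [hφx]; simp [ha]
        · intro h; exact absurd (Finset.mem_univ _) h
      · intro i _ hi
        rw [Finset.sum_eq_zero, mul_zero]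
        intro a _
        rw [hφx]; simp [hi]
      · intro h; exact absurd (Finset.mem_univ _) h
    rw [h11] at h10
    exact (mul_ne_zero hne (mul_ne_zero (by exact_mod_cast (by omega : 2 * (D + 2) ≠ 0))
      (mul_ne_zero hi0 ha0))) h10

end Ctx

end

end Pool.Agent.R350
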