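import Pool.Agent.R350.Dens

/-!
# Relations of higher degree: generic elements
-/

set_option autoImplicit false

namespace Pool.Agent.R350

open Module Finset

section

variable {k A : Type*} [Field k] [Field A] [Algebra k A]

/-- all relations of degree at most `D` of `z` with coefficients in `Ω L` have their top coefficient
in `Ω` -/
def GD (D : ℕ) (L Ω : Submodule k A) (z : A) : Prop :=
  ∀ m : ℕ → A, (∀ j ≤ D, m j ∈ Ω * L) → ∑ j ∈ range (D + 1), z ^ j * m j = 0 → m D ∈ Ω

theorem GD.pred {D : ℕ} {L Ω : Submodule k A} {z : A} (h : GD (D + 1) L Ω z) : GD D L Ω z := by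
  intro m hm h0
  have h1 := h (fun j => if j = 0 then 0 else m (j - 1)) (by
    intro j hj
    by_cases hj0 : j = 0
    · simp only [hj0, if_true]
      exact Submodule.zero_mem _
    · simp only [hj0, if_false]
      exact hm _ (by omega)) (by
    rw [Finset.sum_range_succ']
    simp only [Nat.succ_ne_zero, if_false, Nat.add_sub_cancel, if_true, mul_zero, add_zero]
    have : ∑ j ∈ range (D + 1), z ^ (j + 1) * m j = z * ∑ j ∈ range (D + 1), z ^ j * m j := by
      rw [Finset.mul_sum]
      exact Finset.sum_congr rfl fun j _ => by ring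
    rw [this, h0, mul_zero])
  simpa using h1

theorem GD.le {D : ℕ} {L Ω : Submodule k A} {z : A} (h : GD D L Ω z) :
    ∀ n ≤ D, GD n L Ω z := by
  induction D with
  | zero =>
    intro n hn
    have : n = 0 := by omega
    rw [this]; exact h
  | succ D ih =>
    intro n hn
    rcases Nat.lt_or_ge n (D + 1) with h1 | h1
    · exact ih h.pred n (by omega)
    · have : n = D + 1 := by omega
      rw [this]; exact h

/-- the relations of a generic element are formal -/
theorem GD.formal {D : ℕ} {L Ω : Submodule k A} {z : A} (hz : z ∈ L) (h : GD D L Ω z) :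
    ∀ m : ℕ → A, (∀ j ≤ D, m j ∈ Ω * L) → ∑ j ∈ range (D + 1), z ^ j * m j = 0 →
      ∃ ω : ℕ → A, (∀ j, ω j ∈ Ω) ∧ ω 0 = 0 ∧ (∀ j, D < j → ω j = 0) ∧
        ∀ j ≤ D, m j = ω j - z * ω (j + 1) := by
  induction D with
  | zero =>
    intro m hm h0
    refine ⟨fun _ => 0, fun _ => Ω.zero_mem, rfl, fun _ _ => rfl, fun j hj => ?_⟩
    have : j = 0 := by omega
    subst this
    simpa using h0
  | succ D ih =>
    intro m hm h0
    have hD : m (D + 1) ∈ Ω := h m hm h0
    obtain ⟨ω', h1, h2, h3, h4⟩ := ih h.pred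
      (fun j => if j = D then m D + z * m (D + 1) else m j) (by
        intro j hj
        by_cases hjD : j = D
        · simp only [hjD, if_true]
          refine Submodule.add_mem _ (hm D (by omega)) ?_
          rw [mul_comm z]
          exact Submodule.mul_mem_mul hD hz
        · simp only [hjD, if_false]
          exact hm j (by omega)) (by
        rw [Finset.sum_range_succ]
        rw [Finset.sum_range_succ, Finset.sum_range_succ] at h0
        rw [← h0]
        simp only [if_true]
        have : ∑ j ∈ range D, z ^ j * (if j = D then m D + z * m (D + 1) else m j) =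
            ∑ j ∈ range D, z ^ j * m j := by
          refine Finset.sum_congr rfl fun j hj => ?_
          rw [if_neg (ne_of_lt (Finset.mem_range.mp hj))]
        rw [this]
        ring)
    refine ⟨fun j => if j = D + 1 then m (D + 1) else ω' j, fun j => ?_, ?_, fun j hj => ?_,
      fun j hj => ?_⟩
    · by_cases hj : j = D + 1
      · simp only [hj, if_true]; exact hD
      · simp only [hj, if_false]; exact h1 j
    · simp only [(Nat.succ_ne_zero D).symm, if_false]
      exact h2
    · simp only [if_neg (show j ≠ D + 1 by omega)]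
      exact h3 j (by omega)
    · rcases Nat.lt_trichotomy j D with hlt | heq | hgt
      · have h5 := h4 j (by omega)
        rw [if_neg (show j ≠ D by omega)] at h5
        simp only [if_neg (show j ≠ D + 1 by omega), if_neg (show j + 1 ≠ D + 1 by omega)]
        exact h5
      · subst heq
        have h5 := h4 j le_rfl
        rw [if_pos rfl, h3 (j + 1) (by omega), mul_zero, sub_zero] at h5
        simp only [if_neg (show j ≠ j + 1 by omega), if_true]
        rw [← h5]; ring
      · have hj' : j = D + 1 := by omega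
        subst hj'
        simp only [if_true, if_neg (show D + 1 + 1 ≠ D + 1 by omega)]
        rw [h3 _ (by omega), mul_zero, sub_zero]

/-- the space of all elements which occur in the relations over `Ω` -/
def suppI (L Ω : Submodule k A) : Submodule k A :=
  Submodule.span k {y | ∃ (n : ℕ) (ω ℓ : Fin n → A), (∀ t, ω t ∈ Ω) ∧ (∀ t, ℓ t ∈ L) ∧
    ∑ t, ω t * ℓ t = 0 ∧ ∃ φ : A →ₗ[k] k, y = ∑ t, φ (ω t) • ℓ t}

theorem suppI_mono (L : Submodule k A) {Ω Ω' : Submodule k A} (h : Ω ≤ Ω') :
    suppI L Ω ≤ suppI L Ω' := by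
  refine Submodule.span_mono ?_
  rintro y ⟨n, ω, ℓ, h1, h2, h3, h4⟩
  exact ⟨n, ω, ℓ, fun t => h (h1 t), h2, h3, h4⟩

theorem mem_suppI {L Ω : Submodule k A} {τ : Type*} [Fintype τ] (ω ℓ : τ → A)
    (hω : ∀ t, ω t ∈ Ω) (hℓ : ∀ t, ℓ t ∈ L) (h0 : ∑ t, ω t * ℓ t = 0) (φ : A →ₗ[k] k) :
    ∑ t, φ (ω t) • ℓ t ∈ suppI L Ω := by
  refine Submodule.subset_span ⟨Fintype.card τ, ω ∘ (Fintype.equivFin τ).symm,
    ℓ ∘ (Fintype.equivFin τ).symm, fun t => hω _, fun t => hℓ _, ?_, φ, ?_⟩
  · rw [← h0]
    exact Fintype.sum_equiv (Fintype.equivFin τ).symm _ _ (fun t => rfl)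
  · exact (Fintype.sum_equiv (Fintype.equivFin τ).symm _ _ (fun t => rfl)).symm

theorem suppI_bound {v : ℕ} {L : Submodule k A} (hL : HypV v L) (Ω : Submodule k A)
    [FiniteDimensional k Ω] : FiniteDimensional k (suppI L Ω) ∧
      finrank k (suppI L Ω) ≤ finrank k Ω * (finrank k Ω + v) * finrank k Ω := by
  obtain ⟨F, h1, h2, h3, h4⟩ := exists_support hL Ω
  have h5 : suppI L Ω ≤ F := by
    unfold suppI
    rw [Submodule.span_le]
    rintro y ⟨n, ω, ℓ, h6, h7, h8, φ, rfl⟩
    exact h4 (Fin n) ω ℓ h6 h7 h8 φ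
  exact ⟨Submodule.finiteDimensional_of_le h5, (Submodule.finrank_mono h5).trans h2⟩

/-- no fractions -/
theorem no_frac {L Ω : Submodule k A} {z : A} (hzL : z ∈ L) (h1L : (1 : A) ∈ L)
    (h1Ω : (1 : A) ∈ Ω) (hns : z ∉ suppI L Ω ⊔ Ω) {ω : A} (hω : ω ∈ Ω) (h : z * ω ∈ Ω) :
    ω = 0 := by
  by_contra hne
  obtain ⟨φ, -, hφ⟩ := exists_dual_ne (⊥ : Submodule k A) (z := ω) (by
    rw [Submodule.mem_bot]; exact hne)
  have h1 := mem_suppI (L := L) (Ω := Ω) ![ω, z * ω] ![z, -1] (by
    intro t
    fin_cases t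
    · exact hω
    · exact h) (by
    intro t
    fin_cases t
    · exact hzL
    · exact L.neg_mem h1L) (by
    rw [Fin.sum_univ_two]
    simp only [Matrix.cons_val_zero, Matrix.cons_val_one]
    ring) φ
  rw [Fin.sum_univ_two] at h1
  simp only [Matrix.cons_val_zero, Matrix.cons_val_one] at h1
  rw [hφ, one_smul, smul_neg] at h1
  apply hns
  have h2 := Submodule.add_mem _ (Submodule.mem_sup_left (T := Ω) h1)
    (Submodule.mem_sup_right (S := suppI L Ω) (Ω.smul_mem (φ (z * ω)) h1Ω))
  rwa [neg_add_cancel_right] at h2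

/-- a generic element satisfies no polynomial relation -/
theorem free_poly {D : ℕ} {L Ω : Submodule k A} {z : A} (hzL : z ∈ L) (h1L : (1 : A) ∈ L)
    (h1Ω : (1 : A) ∈ Ω) (hns : z ∉ suppI L Ω ⊔ Ω) (h : GD D L Ω z) :
    ∀ n ≤ D + 1, ∀ ω : ℕ → A, (∀ i ≤ n, ω i ∈ Ω) → ∑ i ∈ range (n + 1), z ^ i * ω i = 0 →
      ∀ i ≤ n, ω i = 0 := by
  intro n
  induction n with
  | zero =>
    intro _ ω hω h0 i hi
    have : i = 0 := by omega
    subst this
    simpa using h0
  | succ n ih =>
    intro hn ω hω h0
    have h1 := (h.le n (by omega)) (fun i => if i = n then ω n + z * ω (n + 1) else ω i) (by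
      intro j hj
      by_cases hjn : j = n
      · simp only [hjn, if_true]
        refine Submodule.add_mem _ ?_ ?_
        · have := Submodule.mul_mem_mul (hω n (by omega)) h1L
          rwa [mul_one] at this
        · rw [mul_comm z]
          exact Submodule.mul_mem_mul (hω (n + 1) le_rfl) hzL
      · simp only [hjn, if_false]
        have := Submodule.mul_mem_mul (hω j (by omega)) h1L
        rwa [mul_one] at this) (by
      rw [Finset.sum_range_succ]
      rw [Finset.sum_range_succ, Finset.sum_range_succ] at h0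
      rw [← h0]
      simp only [if_true]
      have : ∑ j ∈ range n, z ^ j * (if j = n then ω n + z * ω (n + 1) else ω j) =
          ∑ j ∈ range n, z ^ j * ω j := by
        refine Finset.sum_congr rfl fun j hj => ?_
        rw [if_neg (ne_of_lt (Finset.mem_range.mp hj))]
      rw [this]
      ring)
    simp only [if_true] at h1
    have h2 : z * ω (n + 1) ∈ Ω := by
      have := Ω.sub_mem h1 (hω n (by omega))
      rwa [add_sub_cancel_left] at this
    have h3 := no_frac hzL h1L h1Ω hns (hω (n + 1) le_rfl) h2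
    intro i hi
    rcases Nat.lt_or_ge i (n + 1) with hlt | hge
    · refine ih (by omega) ω (fun i hi => hω i (by omega)) ?_ i (by omega)
      rw [Finset.sum_range_succ, h3, mul_zero, add_zero] at h0
      exact h0
    · have : i = n + 1 := by omega
      rw [this]; exact h3

/-- elements of `Ω * L` as finite sums -/
theorem exists_sum_of_mem_mul {Ω L : Submodule k A} {z : A} (hz : z ∈ Ω * L) :
    ∃ (n : ℕ) (ω ℓ : Fin n → A), (∀ t, ω t ∈ Ω) ∧ (∀ t, ℓ t ∈ L) ∧ z = ∑ t, ω t * ℓ t := by
  induction hz using Submodule.mul_induction_on' with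
  | mem_mul_mem p hp l hl =>
    exact ⟨1, fun _ => p, fun _ => l, fun _ => hp, fun _ => hl, by simp⟩
  | add p _ q _ hp hq =>
    obtain ⟨n, ω, ℓ, h1, h2, h3⟩ := hp
    obtain ⟨n', ω', ℓ', h4, h5, h6⟩ := hq
    refine ⟨n + n', Fin.append ω ω', Fin.append ℓ ℓ', fun t => ?_, fun t => ?_, ?_⟩
    · refine Fin.addCases (fun i => ?_) (fun i => ?_) t
      · rw [Fin.append_left]; exact h1 i
      · rw [Fin.append_right]; exact h4 i
    · refine Fin.addCases (fun i => ?_) (fun i => ?_) t
      · rw [Fin.append_left]; exact h2 i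
      · rw [Fin.append_right]; exact h5 i
    · rw [Fin.sum_univ_add, h3, h6]
      simp only [Fin.append_left, Fin.append_right]

/-- the generic property is inherited by smaller spaces -/
theorem GD.mono {D : ℕ} {L Ω Ω' : Submodule k A} {z : A} (hΩ : Ω ≤ Ω') (hzL : z ∈ L)
    (h1L : (1 : A) ∈ L) (h1Ω : (1 : A) ∈ Ω') (hns : z ∉ suppI L Ω' ⊔ Ω') (h : GD D L Ω' z) :
    GD D L Ω z := by
  intro m hm h0
  obtain ⟨ω, h1, h2, h3, h4⟩ := h.formal hzL m
    (fun j hj => mul_le_mul' hΩ le_rfl (hm j hj)) h0
  have hmD : m D = ω D := by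
    rw [h4 D le_rfl, h3 (D + 1) (by omega), mul_zero, sub_zero]
  rw [hmD]
  by_contra hno
  rcases D with _ | D
  · rw [h2] at hno
    exact hno Ω.zero_mem
  · obtain ⟨φ, hφ0, hφ1⟩ := exists_dual_ne Ω hno
    obtain ⟨n, ω', ℓ', h5, h6, h7⟩ := exists_sum_of_mem_mul (hm D (by omega))
    have h8 := mem_suppI (L := L) (Ω := Ω') (Sum.elim ω' ![ω (D + 1), ω D])
      (Sum.elim ℓ' ![z, -1]) (by
        rintro (t | t)
        · exact hΩ (h5 t)
        · fin_cases t
          · exact h1 _
          · exact h1 _) (by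
        rintro (t | t)
        · exact h6 t
        · fin_cases t
          · exact hzL
          · exact L.neg_mem h1L) (by
        rw [Fintype.sum_sum_type, Fin.sum_univ_two]
        simp only [Sum.elim_inl, Sum.elim_inr, Matrix.cons_val_zero, Matrix.cons_val_one]
        rw [← h7, h4 D (by omega)]
        ring) φ
    rw [Fintype.sum_sum_type, Fin.sum_univ_two] at h8
    simp only [Sum.elim_inl, Sum.elim_inr, Matrix.cons_val_zero, Matrix.cons_val_one] at h8
    rw [Finset.sum_eq_zero (fun t _ => by rw [hφ0 _ (h5 t), zero_smul]), hφ1, one_smul,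
      zero_add, smul_neg] at h8
    apply hns
    have h9 := Submodule.add_mem _ (Submodule.mem_sup_left (T := Ω') h8)
      (Submodule.mem_sup_right (S := suppI L Ω') (Ω'.smul_mem (φ (ω D)) h1Ω))
    rwa [neg_add_cancel_right] at h9

end

end Pool.Agent.R350
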