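import Pool.Agent.R350.GC

/-!
# Relations of higher degree: generic members of a family
-/

set_option autoImplicit false

namespace Pool.Agent.R350

open Module Finset

/-- the existence of members of large families which are generic for relations of degree `D` -/
def PD (D : ℕ) : Prop := ∀ m v : ℕ, ∃ R : ℕ, ∀ (k A : Type) [Field k] [CharZero k] [Field A]
  [Algebra k A] (L Ω F : Submodule k A), FiniteDimensional k Ω → FiniteDimensional k F →
  HypV v L → (1 : A) ∈ L → (1 : A) ∈ Ω → finrank k Ω ≤ m → finrank k F ≤ m →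
  ∀ z ∈ L, ∀ w : Fin R → A, (∀ i, w i ∈ L) → LinearIndependent k w →
    ∃ S : Finset (Fin R), S.Nonempty ∧ z + ∑ i ∈ S, w i ∉ F ∧ GD D L Ω (z + ∑ i ∈ S, w i)

section

variable {k A : Type*} [Field k] [Field A] [Algebra k A]

theorem not_mem_of_free {R : ℕ} {F : Submodule k A} {z : A} {w : Fin R → A} {T : Finset (Fin R)}
    (V : Submodule k A) (hFV : F ≤ V) (hzV : z ∈ V)
    (hTi : ∀ c : Fin R → k, (∀ i ∉ T, c i = 0) → ∑ i, c i • w i ∈ V → ∀ i, c i = 0)
    {S : Finset (Fin R)} (hS : S.Nonempty) (hST : S ⊆ T) : z + ∑ i ∈ S, w i ∉ F := by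
  classical
  intro hmem
  have h1 : ∑ i ∈ S, w i ∈ V := by
    have h2 := Submodule.sub_mem V (hFV hmem) hzV
    rwa [add_sub_cancel_left] at h2
  obtain ⟨i0, hi0⟩ := hS
  have h3 := hTi (fun i => if i ∈ S then 1 else 0) (by
    intro i hi
    rw [if_neg (fun h => hi (hST h))]) (by
    simp only [ite_smul, one_smul, zero_smul]
    rw [Finset.sum_ite_mem, Finset.univ_inter]
    exact h1) i0
  rw [if_pos hi0] at h3
  exact one_ne_zero h3

end

theorem PD_zero : PD 0 := by
  classical
  intro m v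
  refine ⟨m + 2, fun k A _ _ _ _ L Ω F _ _ hL h1L h1Ω hΩm hFm z hz w hwL hw => ?_⟩
  obtain ⟨T, hT, hTi⟩ := deletion w hw (F ⊔ Submodule.span k {z})
  have hV : finrank k (F ⊔ Submodule.span k {z} : Submodule k A) ≤ m + 1 := by
    refine (Submodule.finrank_add_le_finrank_add_finrank _ _).trans ?_
    have := finrank_span_finset_le_card (R := k) ({z} : Finset A)
    rw [Finset.coe_singleton, Finset.card_singleton] at this
    exact Nat.add_le_add hFm this
  rw [Fintype.card_fin] at hT
  obtain ⟨i, hi⟩ : T.Nonempty := by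
    rw [← Finset.card_pos]
    omega
  refine ⟨{i}, ⟨i, Finset.mem_singleton_self i⟩, ?_, ?_⟩
  · exact not_mem_of_free (F ⊔ Submodule.span k {z}) le_sup_left
      (Submodule.mem_sup_right (Submodule.mem_span_singleton_self z)) hTi
      ⟨i, Finset.mem_singleton_self i⟩ (Finset.singleton_subset_iff.2 hi)
  · intro m' hm' h0
    simp only [zero_add, Finset.range_one, Finset.sum_singleton, pow_zero, one_mul] at h0
    rw [h0]
    exact Ω.zero_mem

section Core

variable {k A : Type} [Field k] [CharZero k] [Field A] [Algebra k A]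

/-- the number of rows -/
def cI (m : ℕ) : ℕ := m + 1
/-- the number of columns -/
def cK (m v : ℕ) : ℕ := (m + 3 * (m * cI m)) * (m + 3 * (m * cI m) + v) + 1
/-- the number of further coordinates -/
def cP (D : ℕ) : ℕ := 2 * (D + 1) + 1
/-- a constant -/
def c0 (D m v : ℕ) : ℕ := 2 + cI m + cK m v + cP D * (1 + m)
/-- size of the coordinates -/
def cX (D m v : ℕ) : ℕ := (m * c0 D m v ^ (D + 1) + v) ^ 2 + 1
/-- dimension of the space of the variables -/
def cV (D m v : ℕ) : ℕ := 1 + cI m + cK m v + cP D * (cX D m v + m)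
/-- dimension of the spaces of the coefficients of the relations -/
def cr (D m v : ℕ) : ℕ :=
  1 + (cI m * cK m v * (cX D m v + m) ^ cP D) * ((D + 2) * m)
/-- number of members needed -/
def cPhi (D m v : ℕ) (n : ℕ) : ℕ := m * n ^ (D + 1) * (m * n ^ (D + 1) + v) + 1
/-- dimension bound -/
def cN (D m v : ℕ) : ℕ := m * sN (cPhi D m v) (cr D m v) (cV D m v) ^ (D + 1)

theorem cPhi_mono (D m v : ℕ) : Monotone (cPhi D m v) := by
  intro a b h
  unfold cPhi
  gcongr

theorem cX_bound (D m v : ℕ) :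
    m * (cV D m v + 1) ^ (D + 1) * (m * (cV D m v + 1) ^ (D + 1) + v) < cX D m v ^ cP D := by
  set X := cX D m v with hX
  have hX1 : 1 ≤ X := by rw [hX]; unfold cX; omega
  have h1 : cV D m v + 1 ≤ c0 D m v * X := by
    have e1 : cV D m v + 1 = 2 + cI m + cK m v + cP D * (X + m) := by
      unfold cV
      rw [← hX]
      omega
    have e2 : c0 D m v * X = 2 * X + cI m * X + cK m v * X + (cP D * X + cP D * m * X) := by
      unfold c0; ring
    have e3 : cP D * (X + m) = cP D * X + cP D * m := by ring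
    have e4 : cI m ≤ cI m * X := Nat.le_mul_of_pos_right _ hX1
    have e5 : cK m v ≤ cK m v * X := Nat.le_mul_of_pos_right _ hX1
    have e6 : cP D * m ≤ cP D * m * X := Nat.le_mul_of_pos_right _ hX1
    omega
  have h2 : m * (cV D m v + 1) ^ (D + 1) ≤ m * c0 D m v ^ (D + 1) * X ^ (D + 1) := by
    calc m * (cV D m v + 1) ^ (D + 1) ≤ m * (c0 D m v * X) ^ (D + 1) := by gcongr
      _ = _ := by rw [mul_pow]; ring
  have hXp : 1 ≤ X ^ (D + 1) := Nat.one_le_pow _ _ hX1
  have h3 : m * (cV D m v + 1) ^ (D + 1) + v ≤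
      (m * c0 D m v ^ (D + 1) + v) * X ^ (D + 1) := by
    have := Nat.le_mul_of_pos_right v hXp
    rw [add_mul]
    omega
  have h4 : m * (cV D m v + 1) ^ (D + 1) * (m * (cV D m v + 1) ^ (D + 1) + v) ≤
      (m * c0 D m v ^ (D + 1) + v) ^ 2 * (X ^ (D + 1) * X ^ (D + 1)) := by
    calc m * (cV D m v + 1) ^ (D + 1) * (m * (cV D m v + 1) ^ (D + 1) + v) ≤
        ((m * c0 D m v ^ (D + 1) + v) * X ^ (D + 1)) *
        ((m * c0 D m v ^ (D + 1) + v) * X ^ (D + 1)) := by
          refine Nat.mul_le_mul (h2.trans ?_) h3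
          gcongr
          omega
      _ = _ := by ring
  refine lt_of_le_of_lt h4 ?_
  have h5 : X ^ cP D = X * (X ^ (D + 1) * X ^ (D + 1)) := by
    unfold cP
    ring
  rw [h5]
  refine Nat.mul_lt_mul_of_pos_right ?_ (by positivity)
  rw [hX]
  unfold cX
  omega

/-- **Core of the induction.** -/
theorem coreD {D m v M : ℕ} {L Ω : Submodule k A} [FiniteDimensional k Ω] (hL : HypV v L)
    (h1L : (1 : A) ∈ L) (h1Ω : (1 : A) ∈ Ω) (hΩm : finrank k Ω ≤ m)
    (ω : Fin (finrank k Ω) → A) (hωli : LinearIndependent k ω)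
    (hωspan : Submodule.span k (Set.range ω) = Ω)
    (hωmul : ∀ z ∈ Ω * L, ∃ δ : Fin (finrank k Ω) → A, (∀ a, δ a ∈ L) ∧ z = ∑ a, ω a * δ a)
    (var : Fin (cI m) ⊕ (Fin (cK m v) ⊕ Fin (cP D) × Fin (cX D m v + m)) → A)
    (hvL : ∀ e, var e ∈ L)
    (hdual : ∀ zz : Fin (finrank k Ω) ×
      (Fin (cI m) ⊕ (Fin (cK m v) ⊕ Fin (cP D) × Fin (cX D m v + m))) → k,
      ∃ φ : A →ₗ[k] k, (∀ o ∈ Ω, φ o = 0) ∧ ∀ q, φ (ω q.1 * var q.2) = zz q)
    (h1var : ∀ (c0 : k) (c : Fin (cI m) ⊕ (Fin (cK m v) ⊕ Fin (cP D) × Fin (cX D m v + m)) → k),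
      c0 • (1 : A) + ∑ e, c e • var e = 0 → ∀ e, c e = 0)
    (sb : Fin M → A) (hsbL : ∀ i, sb i ∈ L)
    (hPD : ∀ Ω' F' : Submodule k A, FiniteDimensional k Ω' → FiniteDimensional k F' →
      (1 : A) ∈ Ω' → finrank k Ω' ≤ cN D m v →
      finrank k F' ≤ cN D m v * (cN D m v + v) * cN D m v + cN D m v →
      ∃ S : Finset (Fin M), ∑ i ∈ S, sb i ∉ F' ∧ GD D L Ω' (∑ i ∈ S, sb i))
    (hexc : ∀ i j (r : Fin (cP D) → Fin (cX D m v + m)) (S : Finset (Fin M)),
      ¬ GD (D + 1) L Ω (var (Sum.inl i) + (var (Sum.inr (Sum.inl j)) +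
        ∑ t, var (Sum.inr (Sum.inr (t, r t)))) + ∑ i ∈ S, sb i)) : False := by
  classical
  have hωΩ : ∀ a, ω a ∈ Ω := fun a => by
    rw [← hωspan]
    exact Submodule.subset_span ⟨a, rfl⟩
  let Q : Type := (Fin (cI m) × Fin (cK m v)) × (Fin (cP D) → Fin (cX D m v + m))
  let μ : Q → A := fun q => var (Sum.inl q.1.1) + (var (Sum.inr (Sum.inl q.1.2)) +
        ∑ t, var (Sum.inr (Sum.inr (t, q.2 t))))
  let s : Finset (Fin M) → A := fun S => ∑ i ∈ S, sb i
  have hsL : ∀ S, s S ∈ L := fun S => Submodule.sum_mem _ fun i _ => hsbL i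
  have hex : ∀ (S : Finset (Fin M)) (q : Q), ∃ δ : ℕ → Fin (finrank k Ω) → A,
      (∀ l a, δ l a ∈ L) ∧ (∑ l ∈ range (D + 2), (μ q + s S) ^ l * ∑ a, ω a * δ l a = 0) ∧
      (∑ a, ω a * δ (D + 1) a ∉ Ω) := by
    intro S q
    have h1 := hexc q.1.1 q.1.2 q.2 S
    unfold GD at h1
    push Not at h1
    obtain ⟨m', h2, h3, h4⟩ := h1
    have h5 : ∀ l, ∃ δ : Fin (finrank k Ω) → A, (∀ a, δ a ∈ L) ∧
        (l ≤ D + 1 → m' l = ∑ a, ω a * δ a) := by
      intro l
      by_cases hl : l ≤ D + 1
      · obtain ⟨δ, h6, h7⟩ := hωmul _ (h2 l hl)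
        exact ⟨δ, h6, fun _ => h7⟩
      · exact ⟨fun _ => 0, fun _ => L.zero_mem, fun h => absurd h hl⟩
    choose δ h6 h7 using h5
    refine ⟨δ, h6, ?_, ?_⟩
    · rw [← h3]
      refine Finset.sum_congr rfl fun l hl => ?_
      rw [h7 l (Nat.le_of_lt_succ (Finset.mem_range.1 hl))]
    · rw [← h7 (D + 1) le_rfl]
      exact h4
  choose δ hδL hδrel hδm using hex
  -- truncated data
  let δ' : Finset (Fin M) → Q → ℕ → Fin (finrank k Ω) → A := fun S q l a =>
    if l ≤ D + 1 then δ S q l a else 0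
  have hδ'rel : ∀ S q, ∑ l ∈ range (D + 2), (μ q + s S) ^ l * ∑ a, ω a * δ' S q l a = 0 := by
    intro S q
    rw [← hδrel S q]
    refine Finset.sum_congr rfl fun l hl => ?_
    simp only [δ', if_pos (Nat.le_of_lt_succ (Finset.mem_range.1 hl))]
  have hδ'm : ∀ S q, ∑ a, ω a * δ' S q (D + 1) a ∉ Ω := by
    intro S q
    simp only [δ', if_pos (le_refl (D + 1))]
    exact hδm S q
  have hδ'L : ∀ S q l a, δ' S q l a ∈ L := by
    intro S q l a
    simp only [δ']
    split_ifs
    · exact hδL _ _ _ _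
    · exact L.zero_mem
  let gR : Finset (Fin M) → Q × (Fin (D + 2) × Fin (finrank k Ω)) → A := fun S t =>
    δ' S t.1 t.2.1 t.2.2
  let R : Finset (Fin M) → Submodule k A := fun S => Submodule.span k {s S} ⊔
    Submodule.span k (Set.range (gR S))
  have hRspan : ∀ S, FiniteDimensional k (Submodule.span k (Set.range (gR S))) := fun S =>
    FiniteDimensional.span_of_finite k (Set.finite_range _)
  have hRf : ∀ S, FiniteDimensional k (R S) := fun S => by
    have := hRspan S
    exact inferInstanceAs (FiniteDimensional k (Submodule.span k {s S} ⊔ Submodule.span k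
      (Set.range (gR S)) : Submodule k A))
  have hRL : ∀ S, R S ≤ L := fun S => by
    refine sup_le ?_ ?_
    · rw [Submodule.span_singleton_le_iff_mem]; exact hsL S
    · rw [Submodule.span_le]
      rintro _ ⟨t, rfl⟩
      exact hδ'L _ _ _ _
  have hRr : ∀ S, finrank k (R S) ≤ cr D m v := by
    intro S
    refine (Submodule.finrank_add_le_finrank_add_finrank _ _).trans ?_
    have e1 : finrank k (Submodule.span k {s S}) ≤ 1 := by
      have := finrank_span_finset_le_card (R := k) ({s S} : Finset A)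
      rwa [Finset.coe_singleton, Finset.card_singleton] at this
    have e2 := finrank_range_le_card (R := k) (gR S)
    have e3 : Fintype.card (Q × (Fin (D + 2) × Fin (finrank k Ω))) =
        (cI m * cK m v * (cX D m v + m) ^ cP D) * ((D + 2) * finrank k Ω) := by
      simp only [Q, Fintype.card_prod, Fintype.card_fin, Fintype.card_pi, Finset.prod_const,
        Finset.card_univ]
    rw [e3] at e2
    refine Nat.add_le_add e1 (e2.trans ?_)
    gcongr
  have hδR : ∀ S q l a, δ' S q l a ∈ R S := by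
    intro S q l a
    by_cases hl : l ≤ D + 1
    · exact Submodule.mem_sup_right (Submodule.subset_span ⟨(q, (⟨l, by omega⟩, a)), rfl⟩)
    · simp only [δ', if_neg hl]
      exact Submodule.zero_mem _
  have hsR : ∀ S, s S ∈ R S := fun S =>
    Submodule.mem_sup_left (Submodule.mem_span_singleton_self _)
  -- the base space
  let gW : Unit ⊕ (Fin (cI m) ⊕ (Fin (cK m v) ⊕ Fin (cP D) × Fin (cX D m v + m))) → A :=
    Sum.elim (fun _ => 1) var
  let W0 : Submodule k A := Submodule.span k (Set.range gW)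
  have hW0f : FiniteDimensional k W0 := FiniteDimensional.span_of_finite k (Set.finite_range _)
  have hW0r : finrank k W0 ≤ cV D m v := by
    have e2 := finrank_range_le_card (R := k) gW
    simp only [Fintype.card_prod, Fintype.card_sum, Fintype.card_fin, Fintype.card_unit] at e2
    refine e2.trans ?_
    unfold cV
    omega
  have h1W0 : (1 : A) ∈ W0 := Submodule.subset_span ⟨Sum.inl (), rfl⟩
  have hvW0 : ∀ e, var e ∈ W0 := fun e => Submodule.subset_span ⟨Sum.inr e, rfl⟩
  have hW0L : W0 ≤ L := by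
    rw [Submodule.span_le]
    rintro _ ⟨(u | e), rfl⟩
    · exact h1L
    · exact hvL e
  have hμW0 : ∀ q, μ q ∈ W0 := fun q => W0.add_mem (hvW0 _) (W0.add_mem (hvW0 _)
    (Submodule.sum_mem _ fun t _ => hvW0 _))
  have h1pow : ∀ W : Submodule k A, (1 : A) ∈ W → (1 : A) ∈ Ω * W ^ (D + 1) := by
    intro W hW
    have := Submodule.mul_mem_mul h1Ω (Submodule.pow_mem_pow W hW (D + 1))
    rwa [one_pow, one_mul] at this
  have hWpow : ∀ W : Submodule k A, (1 : A) ∈ W → W ≤ Ω * W ^ (D + 1) := by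
    intro W hW z hz
    have := Submodule.mul_mem_mul h1Ω (pow_mono_of_one_mem hW (i := 1) (j := D + 1) (by omega)
      (by rw [pow_one]; exact hz))
    rwa [one_mul] at this
  obtain ⟨W, hW0W, hWL, hWf, DD, hDG, hDc, hDi⟩ := sunG (cPhi D m v) (cPhi_mono D m v) R hRf L W0
    hRL (fun W S => GD D L (Ω * W ^ (D + 1)) (s S) ∧
      s S ∉ suppI L (Ω * W ^ (D + 1)) ⊔ (Ω * W ^ (D + 1)))
    (by
      rintro W W' S hW hWW' ⟨h1, h2⟩
      have h3 : Ω * W ^ (D + 1) ≤ Ω * W' ^ (D + 1) := mul_le_mul' le_rfl (pow_le_pow_sub hWW' _)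
      exact ⟨h1.mono h3 (hsL S) h1L (h1pow W' (hWW' (hW h1W0))) h2,
        fun h4 => h2 (sup_le_sup (suppI_mono L h3) h3 h4)⟩)
    (by
      rintro W S hW ⟨h1, h2⟩ hRW
      exact h2 (Submodule.mem_sup_right (hWpow W (hW h1W0) (hRW (hsR S)))))
    (cr D m v) (cV D m v) W0 le_rfl hW0f hW0r hW0L
    (by
      intro S _
      have := hRf S
      have e1 := Submodule.finrank_add_le_finrank_add_finrank (R S) W0
      have e2 := hRr S
      omega)
    (by
      intro W hW hWf hWr
      obtain ⟨hf, hfr⟩ := finrank_mul_pow_bound Ω W (D + 1)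
      have hfr' : finrank k (Ω * W ^ (D + 1) : Submodule k A) ≤ cN D m v := by
        refine hfr.trans ?_
        unfold cN
        gcongr
      obtain ⟨hg, hgr⟩ := suppI_bound hL (Ω * W ^ (D + 1))
      have hsup : FiniteDimensional k (suppI L (Ω * W ^ (D + 1)) ⊔ (Ω * W ^ (D + 1)) :
        Submodule k A) := inferInstance
      obtain ⟨S, h1, h2⟩ := hPD (Ω * W ^ (D + 1)) (suppI L (Ω * W ^ (D + 1)) ⊔
        (Ω * W ^ (D + 1))) hf hsup (h1pow W (hW h1W0)) hfr' (by
          refine (Submodule.finrank_add_le_finrank_add_finrank _ _).trans ?_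
          refine Nat.add_le_add (hgr.trans ?_) hfr'
          gcongr)
      exact ⟨S, h2, h1⟩)
  have h1W : (1 : A) ∈ W := hW0W h1W0
  obtain ⟨hΩWf, hΩWr⟩ := finrank_mul_pow_bound Ω W (D + 1)
  obtain ⟨S, hSD, hstar⟩ := exists_star hL (Ω * W ^ (D + 1)) W R hRL hWL DD hDi (by
    have h1 : finrank k (Ω * W ^ (D + 1) : Submodule k A) ≤ m * finrank k W ^ (D + 1) :=
      hΩWr.trans (Nat.mul_le_mul_right _ hΩm)
    have h2 := Nat.mul_le_mul h1 (Nat.add_le_add_right h1 v)
    unfold cPhi at hDc
    omega)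
  obtain ⟨hGD, hns⟩ := hDG S hSD
  have H : Ctx D L Ω W (R S) (s S) ω μ (δ' S) :=
    ⟨h1L, h1W, hWL, h1Ω, hωΩ, hsL S, hsR S, hRL S, hGD, hns, hstar,
      fun q => hW0W (hμW0 q), fun q l a => hδR S q l a, fun q => hδ'rel S q⟩
  -- slices
  let T : (Fin (finrank k Ω) → k) →ₗ[k] (Fin (finrank k Ω) → A) := LinearMap.pi fun a =>
    (LinearMap.toSpanSingleton k A (s S)) ∘ₗ LinearMap.proj a
  have hTf : FiniteDimensional k (LinearMap.range T) := inferInstance
  have hTr : finrank k (LinearMap.range T) ≤ m := by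
    refine (LinearMap.finrank_range_le T).trans ?_
    rw [Module.finrank_fin_fun]
    exact hΩm
  have hU : Submodule.pi (R := k) Set.univ
      (fun _ : Fin (finrank k Ω) => W ⊔ Submodule.span k {s S}) ≤
      Submodule.pi (R := k) Set.univ (fun _ : Fin (finrank k Ω) => W) ⊔ LinearMap.range T := by
    intro f hf
    rw [Submodule.mem_pi] at hf
    have h1 : ∀ a, ∃ (c : k), f a - c • s S ∈ W := by
      intro a
      obtain ⟨w', hw', z, hz, he⟩ := Submodule.mem_sup.1 (hf a (Set.mem_univ _))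
      obtain ⟨c, rfl⟩ := Submodule.mem_span_singleton.1 hz
      exact ⟨c, by rw [← he, add_sub_cancel_right]; exact hw'⟩
    choose c hc using h1
    have h2 : f = (f - T c) + T c := by rw [sub_add_cancel]
    rw [h2]
    refine Submodule.add_mem _ (Submodule.mem_sup_left ?_) (Submodule.mem_sup_right ⟨c, rfl⟩)
    rw [Submodule.mem_pi]
    intro a _
    exact hc a
  obtain ⟨r, hr⟩ := exists_slice hU hTr (B := Fin (cI m) × Fin (cK m v)) (X := cX D m v)
    (p := cP D) (by unfold cX; omega) (fun q a => δ' S q (D + 1) a)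
    (fun κ hκ t l => by
      have := H.slice_closure (fun t l a0 => by
        obtain ⟨φ, h1, h2⟩ := hdual (fun q => if q.2 = Sum.inr (Sum.inr (t, l)) ∧ q.1 = a0 then
          1 else 0)
        refine ⟨φ, h1, fun q a => ?_⟩
        simp only [μ]
        rw [add_mul, add_mul, Finset.sum_mul, map_add, map_add, map_sum]
        have h3 : ∀ e, φ (var e * ω a) = if e = Sum.inr (Sum.inr (t, l)) ∧ a = a0 then 1 else 0 :=
          fun e => by rw [mul_comm]; exact h2 (a, e)
        simp only [h3]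
        rw [if_neg (by simp), if_neg (by simp), zero_add, zero_add, Finset.sum_eq_single t]
        · by_cases h4 : q.2 t = l
          · simp [h4]
          · simp [h4]
        · intro t' _ ht'
          rw [if_neg]
          rintro ⟨h4, -⟩
          simp only [Sum.inr.injEq, Prod.mk.injEq] at h4
          exact ht' h4.1
        · intro h; exact absurd (Finset.mem_univ _) h) κ hκ t l
      exact this)
    (by
      intro hN
      have hW1f : FiniteDimensional k (W0 ⊔ Submodule.span k {s S} : Submodule k A) :=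
        inferInstance
      have hW1r : finrank k (W0 ⊔ Submodule.span k {s S} : Submodule k A) ≤ cV D m v + 1 := by
        refine (Submodule.finrank_add_le_finrank_add_finrank _ _).trans ?_
        have := finrank_span_finset_le_card (R := k) ({s S} : Finset A)
        rw [Finset.coe_singleton, Finset.card_singleton] at this
        exact Nat.add_le_add hW0r this
      obtain ⟨h3, h4⟩ := finrank_mul_pow_bound Ω (W0 ⊔ Submodule.span k {s S}) (D + 1)
      have h5 := H.rank_bound hL hωli (W0 ⊔ Submodule.span k {s S})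
        (Submodule.mem_sup_left h1W0)
        (Submodule.mem_sup_right (Submodule.mem_span_singleton_self _))
        (fun q => Submodule.mem_sup_left (hμW0 q))
        (N := m * (cV D m v + 1) ^ (D + 1)) (h4.trans (by gcongr)) _ hN
      have h6 := cX_bound D m v
      omega)
  have H' := H.comp (fun q : Fin (cI m) × Fin (cK m v) => ((q, r) : Q))
  have hfin := Ctx.finish hL (I := cI m) (K := cK m v) (by unfold cI; omega)
    (fun i => var (Sum.inl i)) (fun j => var (Sum.inr (Sum.inl j)) +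
        ∑ t, var (Sum.inr (Sum.inr (t, r t)))) H' (fun i => hvL _)
    (fun j => L.add_mem (hvL _) (Submodule.sum_mem _ fun t _ => hvL _))
    (by
      intro z
      obtain ⟨φ, h1, h2⟩ := hdual (fun q => Sum.elim (fun i => z q.1 i) (fun _ => 0) q.2)
      exact ⟨φ, h1, fun a i => h2 (a, Sum.inl i)⟩)
    (by
      intro c0 c hc
      have h3 := h1var c0 (Sum.elim (fun _ => 0) (Sum.elim c
        (fun q => if r q.1 = q.2 then ∑ j, c j else 0))) (by
        rw [← hc, Fintype.sum_sum_type, Fintype.sum_sum_type]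
        simp only [Sum.elim_inl, Sum.elim_inr, zero_smul, Finset.sum_const_zero, zero_add,
          smul_add, Finset.sum_add_distrib]
        rw [← Finset.sum_smul]
        congr 2
        rw [Fintype.sum_prod_type, Finset.smul_sum]
        refine Finset.sum_congr rfl fun t _ => ?_
        rw [Finset.sum_eq_single (r t)]
        · simp only [if_true]
        · intro l _ hl
          rw [if_neg (fun h => hl h.symm), zero_smul]
        · intro h; exact absurd (Finset.mem_univ _) h)
      intro j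
      exact h3 (Sum.inr (Sum.inl j)))
    (fun q => hδ'm S (q, r))
    (fun q a => by
      have := (Submodule.mem_pi (R := k)).1 (hr q) a (Set.mem_univ _)
      exact this)
  have h1 : cK m v ≤ (m + 3 * (m * cI m)) * (m + 3 * (m * cI m) + v) := by
    refine hfin.trans ?_
    gcongr
  unfold cK at h1
  omega

end Core

/-- free deletion -/
def cE (m v : ℕ) : ℕ := (m + m) * (m + m + v)

theorem PD_succ {D : ℕ} (ih : PD D) : PD (D + 1) := by
  classical
  intro m v
  obtain ⟨M, hM⟩ := ih (cN D m v * (cN D m v + v) * cN D m v + cN D m v) v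
  let ε : Type := Fin (cI m + cE m v) ⊕ (Fin (cK m v + cE m v) ⊕
    Fin (cP D * (cX D m v + m) + cE m v))
  refine ⟨(cI m + cE m v) + ((cK m v + cE m v) + (cP D * (cX D m v + m) + cE m v)) + M + (m + 2),
    fun k A _ _ _ _ L Ω F _ _ hL h1L h1Ω hΩm hFm z hz w hwL hw => ?_⟩
  by_contra hno
  push Not at hno
  obtain ⟨ω, hωli, hωspan, hωmul⟩ := mem_mul_basis Ω L
  have hVf : FiniteDimensional k (Submodule.span k ({1, z} : Set A)) :=
    FiniteDimensional.span_of_finite k (Set.toFinite _)
  set V : Submodule k A := F ⊔ Submodule.span k ({1, z} : Set A) with hVdef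
  have hVf' : FiniteDimensional k V := by rw [hVdef]; infer_instance
  obtain ⟨T, hT, hTi⟩ := deletion w hw V
  have hV2 : finrank k V ≤ m + 2 := by
    refine (Submodule.finrank_add_le_finrank_add_finrank _ _).trans (Nat.add_le_add hFm ?_)
    have := finrank_span_finset_le_card (R := k) ({1, z} : Finset A)
    rw [Finset.coe_insert, Finset.coe_singleton] at this
    exact this.trans Finset.card_le_two
  have h1V : (1 : A) ∈ V := Submodule.mem_sup_right (Submodule.subset_span (by simp))
  have hzV : z ∈ V := Submodule.mem_sup_right (Submodule.subset_span (by simp))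
  rw [Fintype.card_fin] at hT
  have hεc : Fintype.card ε = (cI m + cE m v) + ((cK m v + cE m v) +
      (cP D * (cX D m v + m) + cE m v)) := by
    simp only [ε, Fintype.card_sum, Fintype.card_fin]
  obtain ⟨f⟩ := Function.Embedding.nonempty_of_card_le (α := ε ⊕ Fin M) (β := T) (by
    rw [Fintype.card_sum, hεc, Fintype.card_coe, Fintype.card_fin]
    omega)
  have hfT : ∀ e, (f e).1 ∈ T := fun e => (f e).2
  have hfi : Function.Injective (fun e => (f e).1) := fun a b h => f.injective (Subtype.ext h)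
  let E : ε → A := Sum.elim (fun i => z + w (f (Sum.inl (Sum.inl i))))
    (fun q => w (f (Sum.inl (Sum.inr q))))
  have hEL : ∀ e, E e ∈ L := by
    rintro (i | q)
    · exact L.add_mem hz (hwL _)
    · exact hwL _
  have h1E : ∀ (c0 : k) (c : ε → k), c0 • (1 : A) + ∑ e, c e • E e = 0 → ∀ e, c e = 0 := by
    intro c0 c hc
    obtain ⟨c', h3, h4, h5⟩ := sum_embed (fun e : ε => (f (Sum.inl e)).1)
      (fun a b h => Sum.inl_injective (hfi h)) c w
    have h6 : ∑ e, c e • w (f (Sum.inl e)) ∈ V := by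
      have h7 : ∑ e, c e • w (f (Sum.inl e)) = -(c0 • (1 : A) + (∑ i, c (Sum.inl i)) • z) := by
        have e1 : ∑ e, c e • E e = ∑ e, c e • w (f (Sum.inl e)) + (∑ i, c (Sum.inl i)) • z :=
          sum_blocks c (fun e => w (f (Sum.inl e))) z
        rw [e1] at hc
        rw [eq_neg_iff_add_eq_zero, ← hc]
        ring
      rw [h7]
      exact Submodule.neg_mem _ (Submodule.add_mem _ (Submodule.smul_mem _ _ h1V)
        (Submodule.smul_mem _ _ hzV))
    have h7 := hTi c' (fun i hi => h4 i (by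
      rintro ⟨e, rfl⟩
      exact hi (hfT _))) (by rw [h5]; exact h6)
    intro e
    rw [← h3 e]
    exact h7 _
  obtain ⟨T2, hT2, hfree⟩ := free hL h1L Ω ω hωli E hEL h1E
  have hT2' : Fintype.card ε ≤ T2.card + cE m v := by
    refine hT2.trans (Nat.add_le_add_left ?_ _)
    unfold cE
    gcongr
  obtain ⟨gI, hgI, hgIT⟩ := exists_embed_block (fun i => (Sum.inl i : ε))
    (fun a b h => Sum.inl_injective h) T2 (cI m) (cE m v)
    (by rw [Fintype.card_fin]) hT2'
  obtain ⟨gK, hgK, hgKT⟩ := exists_embed_block (fun i => (Sum.inr (Sum.inl i) : ε))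
    (fun a b h => Sum.inl_injective (Sum.inr_injective h)) T2 (cK m v) (cE m v)
    (by rw [Fintype.card_fin]) hT2'
  obtain ⟨gP, hgP, hgPT⟩ := exists_embed_block (fun i => (Sum.inr (Sum.inr i) : ε))
    (fun a b h => Sum.inr_injective (Sum.inr_injective h)) T2 (cP D * (cX D m v + m)) (cE m v)
    (by rw [Fintype.card_fin]) hT2'
  let ν : Type := Fin (cI m) ⊕ (Fin (cK m v) ⊕ Fin (cP D) × Fin (cX D m v + m))
  let g : ν → ε := Sum.map gI (Sum.map gK (gP ∘ finProdFinEquiv))
  have hg : Function.Injective g := Function.Injective.sumMap hgI (hgK.sumMap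
    (hgP.comp finProdFinEquiv.injective))
  have hgT : ∀ e, g e ∈ T2 := by
    rintro (i | (j | d))
    · exact hgIT i
    · exact hgKT j
    · exact hgPT (finProdFinEquiv d)
  -- independence of products
  have hdual : ∀ zz : Fin (finrank k Ω) × ν → k, ∃ φ : A →ₗ[k] k, (∀ o ∈ Ω, φ o = 0) ∧
      ∀ q, φ (ω q.1 * E (g q.2)) = zz q := by
    intro zz
    refine exists_dual Ω (fun q => ω q.1 * E (g q.2)) (fun c hc => ?_) zz
    let G : Fin (finrank k Ω) × ν → Fin (finrank k Ω) × ε := Prod.map id g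
    have hG : Function.Injective G := Function.injective_id.prodMap hg
    obtain ⟨c', h3, h4, h5⟩ := sum_embed G hG c (fun q => ω q.1 * E q.2)
    have h6 := hfree c' (fun q hq => h4 q (by
      rintro ⟨q', rfl⟩
      exact hq (hgT q'.2))) (by rw [h5]; exact hc)
    intro q
    rw [← h3 q]
    exact h6 _
  have h1E' : ∀ (c0 : k) (c : ν → k),
      c0 • (1 : A) + ∑ e, c e • E (g e) = 0 → ∀ e, c e = 0 := by
    intro c0 c hc e
    obtain ⟨c', h3, h4, h5⟩ := sum_embed g hg c E
    rw [← h5] at hc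
    rw [← h3 e]
    exact h1E c0 c' hc _
  refine coreD (M := M) hL h1L h1Ω hΩm ω hωli hωspan hωmul (fun e => E (g e)) (fun e => hEL _)
    hdual h1E' (fun i => w (f (Sum.inr i))) (fun i => hwL _) ?_ ?_
  · intro Ω' F' hf1 hf2 h1Ω' hΩ'm hF'm
    obtain ⟨S, -, h3, h4⟩ := hM k A L Ω' F' hf1 hf2 hL h1L h1Ω' (hΩ'm.trans (by omega)) hF'm 0
      L.zero_mem (fun i => w (f (Sum.inr i))) (fun i => hwL _)
      (hw.comp (fun i => (f (Sum.inr i)).1) (fun a b h => Sum.inr_injective (hfi h)))
    rw [zero_add] at h3 h4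
    exact ⟨S, h3, h4⟩
  · intro i j r S hGD
    let G : ν ⊕ Fin M → Fin ((cI m + cE m v) + ((cK m v + cE m v) +
      (cP D * (cX D m v + m) + cE m v)) + M + (m + 2)) :=
      fun e => (f (Sum.map g id e)).1
    have hG : Function.Injective G := fun a b h =>
      (Function.Injective.sumMap hg Function.injective_id) (hfi h)
    let S0 : Finset (ν ⊕ Fin M) := (({i} : Finset (Fin (cI m))).disjSum
      (({j} : Finset (Fin (cK m v))).disjSum ((Finset.univ : Finset (Fin (cP D))).map
        ⟨fun t => (t, r t), fun a b h => congrArg Prod.fst h⟩))).disjSum S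
    let S1 := S0.map ⟨G, hG⟩
    have hS1 : S1.Nonempty := by
      refine ⟨G (Sum.inl (Sum.inl i)), Finset.mem_map.2 ⟨Sum.inl (Sum.inl i), ?_, rfl⟩⟩
      simp [S0]
    have hS1T : S1 ⊆ T := by
      intro e he
      obtain ⟨e', -, rfl⟩ := Finset.mem_map.1 he
      exact hfT _
    have h3 := not_mem_of_free V (le_sup_left : F ≤ V) hzV hTi hS1 hS1T
    have h4 := hno S1 hS1 h3
    apply h4
    have h5 : z + ∑ i ∈ S1, w i = E (g (Sum.inl i)) + (E (g (Sum.inr (Sum.inl j))) +
        ∑ t, E (g (Sum.inr (Sum.inr (t, r t))))) + ∑ i ∈ S, w (f (Sum.inr i)) := by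
      simp only [S1, S0]
      rw [Finset.sum_map, Finset.sum_disjSum, Finset.sum_disjSum, Finset.sum_disjSum,
        Finset.sum_singleton, Finset.sum_singleton, Finset.sum_map]
      simp only [Function.Embedding.coeFn_mk, G, Sum.map_inl, Sum.map_inr, id, E, g,
        Sum.elim_inl, Sum.elim_inr, Function.comp]
      ring
    rw [h5]
    exact hGD

theorem PD_all (D : ℕ) : PD D := by
  induction D with
  | zero => exact PD_zero
  | succ D ih => exact PD_succ ih

end Pool.Agent.R350
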