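import Pool.Agent.R350.GE

/-!
# Free tuples
-/

set_option autoImplicit false

namespace Pool.Agent.R350

open Module Finset

section

variable {k A : Type*} [Field k] [Field A] [Algebra k A]

theorem mvcoeff_mul_C {σ R : Type*} [CommRing R] (β : σ →₀ ℕ) (P : MvPolynomial σ R) (c : R) :
    MvPolynomial.coeff β (P * MvPolynomial.C c) = MvPolynomial.coeff β P * c := by
  rw [mul_comm, MvPolynomial.coeff_C_mul, mul_comm]

/-- all coefficients are in `V` -/
def CoefIn {σ : Type*} (V : Submodule k A) (P : MvPolynomial σ A) : Prop :=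
  ∀ β, P.coeff β ∈ V

/-- tuples which satisfy only formal relations with coefficients in `E L` up to degree `D` -/
structure FreeT (D : ℕ) (L E : Submodule k A) {n : ℕ} (f : Fin n → A) : Prop where
  indep : ∀ P : MvPolynomial (Fin n) A, (∀ i, P.degreeOf i ≤ D) → CoefIn E P →
    MvPolynomial.eval f P = 0 → P = 0
  free : ∀ P : MvPolynomial (Fin n) A, (∀ i, P.degreeOf i ≤ D) → CoefIn (E * L) P →
    MvPolynomial.eval f P = 0 → ∃ Q : Fin n → MvPolynomial (Fin n) A, (∀ i, CoefIn E (Q i)) ∧
      P = ∑ i, (MvPolynomial.X i - MvPolynomial.C (f i)) * Q i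

theorem polyU_bound (s : A) (Ω : Submodule k A) [FiniteDimensional k Ω] (n : ℕ) :
    FiniteDimensional k (polyU s Ω n) ∧ finrank k (polyU s Ω n) ≤ n * finrank k Ω := by
  classical
  let T : (Fin n → Ω) →ₗ[k] A := ∑ i : Fin n, (LinearMap.mulLeft k (s ^ (i : ℕ))) ∘ₗ
    Ω.subtype ∘ₗ LinearMap.proj i
  have hT : ∀ u, T u = ∑ i : Fin n, s ^ (i : ℕ) * (u i : A) := by
    intro u
    simp only [T, LinearMap.sum_apply, LinearMap.comp_apply, LinearMap.mulLeft_apply,
      Submodule.subtype_apply, LinearMap.proj_apply]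
  have h1 : polyU s Ω n ≤ LinearMap.range T := by
    rintro z ⟨u, hu, rfl⟩
    refine ⟨fun i => ⟨u i, hu i⟩, ?_⟩
    rw [hT, Finset.sum_range]
  refine ⟨Submodule.finiteDimensional_of_le h1, (Submodule.finrank_mono h1).trans ?_⟩
  refine (LinearMap.finrank_range_le T).trans ?_
  rw [Module.finrank_pi_fintype, Finset.sum_const, Finset.card_univ, Fintype.card_fin, smul_eq_mul]

theorem pow_mul_mem_polyU (s : A) (Ω : Submodule k A) {n l : ℕ} (hl : l < n) {e : A}
    (he : e ∈ Ω) : s ^ l * e ∈ polyU s Ω n := by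
  classical
  refine ⟨fun i => if i = l then e else 0, fun i => ?_, ?_⟩
  · by_cases h : i = l
    · simp only [h, if_true]; exact he
    · simp only [h, if_false]; exact Ω.zero_mem
  · rw [Finset.sum_eq_single l]
    · simp
    · intro i _ hi; simp [hi]
    · intro h; exact absurd (Finset.mem_range.2 hl) h

theorem pow_mul_mem_polyU_mul (s : A) (Ω L : Submodule k A) {n l : ℕ} (hl : l < n) {y : A}
    (hy : y ∈ Ω * L) : s ^ l * y ∈ polyU s Ω n * L := by
  induction hy using Submodule.mul_induction_on' with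
  | mem_mul_mem e he x hx =>
    rw [← mul_assoc]
    exact Submodule.mul_mem_mul (pow_mul_mem_polyU s Ω hl he) hx
  | add x _ y _ hx hy =>
    rw [mul_add]
    exact Submodule.add_mem _ hx hy

/-- polynomials whose coefficients are polynomials in `s` -/
theorem exists_lift {n D : ℕ} (s : A) (E : Submodule k A) (q : MvPolynomial (Fin n) A)
    (hq : CoefIn (polyU s E (D + 1)) q) :
    ∃ q' : Polynomial (MvPolynomial (Fin n) A), (∀ l, CoefIn E (q'.coeff l)) ∧
      q'.natDegree ≤ D ∧ q'.eval (MvPolynomial.C s) = q := by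
  classical
  choose e he hes using hq
  let r : ℕ → MvPolynomial (Fin n) A := fun l => ∑ β ∈ q.support, MvPolynomial.monomial β (e β l)
  have hr : ∀ l β, (r l).coeff β = if β ∈ q.support then e β l else 0 := by
    intro l β
    simp only [r]
    rw [MvPolynomial.coeff_sum]
    simp only [MvPolynomial.coeff_monomial]
    rw [Finset.sum_ite_eq']
  refine ⟨∑ l ∈ range (D + 1), Polynomial.monomial l (r l), ?_, ?_, ?_⟩
  · intro l β
    rw [Polynomial.finsetSum_coeff]
    simp only [Polynomial.coeff_monomial]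
    rw [Finset.sum_ite_eq']
    split_ifs with h
    · rw [hr]
      split_ifs
      · exact he _ _
      · exact E.zero_mem
    · rw [MvPolynomial.coeff_zero]
      exact E.zero_mem
  · refine Polynomial.natDegree_sum_le_of_forall_le _ _ fun l hl => ?_
    refine (Polynomial.natDegree_monomial_le _).trans ?_
    exact Nat.le_of_lt_succ (Finset.mem_range.1 hl)
  · rw [Polynomial.eval_finsetSum]
    simp only [Polynomial.eval_monomial]
    ext β
    rw [MvPolynomial.coeff_sum]
    have h1 : ∀ l, MvPolynomial.coeff β (r l * MvPolynomial.C s ^ l) =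
        if β ∈ q.support then s ^ l * e β l else 0 := by
      intro l
      rw [← map_pow, mvcoeff_mul_C, hr]
      split_ifs
      · rw [mul_comm]
      · rw [zero_mul]
    simp only [h1]
    by_cases h : β ∈ q.support
    · simp only [h, if_true]
      exact (hes β).symm
    · simp only [h, if_false, Finset.sum_const_zero]
      exact (MvPolynomial.notMem_support_iff.1 h).symm

/-- substitution of the first variable -/
theorem coeff_subst {n D : ℕ} (s : A) (P : MvPolynomial (Fin (n + 1)) A)
    (hP : P.degreeOf 0 ≤ D) (β : Fin n →₀ ℕ) :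
    MvPolynomial.coeff β (Polynomial.eval (MvPolynomial.C s) (MvPolynomial.finSuccEquiv A n P)) =
      ∑ l ∈ range (D + 1), s ^ l * MvPolynomial.coeff (β.cons l) P := by
  rw [Polynomial.eval_eq_sum_range' (n := D + 1) (by
    rw [MvPolynomial.natDegree_finSuccEquiv]; omega), MvPolynomial.coeff_sum]
  refine Finset.sum_congr rfl fun l _ => ?_
  rw [← map_pow, mvcoeff_mul_C, MvPolynomial.finSuccEquiv_coeff_coeff, mul_comm]

theorem degreeOf_subst {n D : ℕ} (s : A) (P : MvPolynomial (Fin (n + 1)) A)
    (hP : ∀ i, P.degreeOf i ≤ D) (i : Fin n) :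
    MvPolynomial.degreeOf i
      (Polynomial.eval (MvPolynomial.C s) (MvPolynomial.finSuccEquiv A n P)) ≤ D := by
  classical
  rw [MvPolynomial.degreeOf_le_iff]
  intro β hβ
  rw [MvPolynomial.mem_support_iff, coeff_subst s P (hP 0)] at hβ
  obtain ⟨l, -, hl⟩ := Finset.exists_ne_zero_of_sum_ne_zero hβ
  have h1 : MvPolynomial.coeff (β.cons l) P ≠ 0 := right_ne_zero_of_mul hl
  have h2 := (MvPolynomial.degreeOf_le_iff.1 (hP i.succ)) (β.cons l)
    (MvPolynomial.mem_support_iff.2 h1)
  rwa [Finsupp.cons_succ] at h2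

theorem eval_subst {n : ℕ} (s : A) (f : Fin n → A) (P : MvPolynomial (Fin (n + 1)) A) :
    MvPolynomial.eval f (Polynomial.eval (MvPolynomial.C s) (MvPolynomial.finSuccEquiv A n P)) =
      MvPolynomial.eval (Fin.cons s f : Fin (n + 1) → A) P := by
  rw [MvPolynomial.eval_eq_eval_mv_eval', Polynomial.eval_map]
  have h1 := Polynomial.eval₂_at_apply (p := MvPolynomial.finSuccEquiv A n P)
    (MvPolynomial.eval f) (MvPolynomial.C s)
  rw [MvPolynomial.eval_C] at h1
  exact h1.symm

theorem FreeT.nil (D : ℕ) (L E : Submodule k A) (f : Fin 0 → A) : FreeT D L E f := by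
  have h : ∀ P : MvPolynomial (Fin 0) A, MvPolynomial.eval f P = 0 → P = 0 := by
    intro P h0
    rw [MvPolynomial.eq_C_of_isEmpty P] at h0 ⊢
    rw [MvPolynomial.eval_C] at h0
    rw [h0, map_zero]
  exact ⟨fun P _ _ h0 => h P h0, fun P _ _ h0 => ⟨fun _ => 0, fun i => i.elim0, by
    rw [h P h0]; simp⟩⟩

theorem FreeT.cons {D n : ℕ} {L E : Submodule k A} {s : A} {f : Fin n → A}
    (h1L : (1 : A) ∈ L) (hsL : s ∈ L) (hfL : ∀ i, f i ∈ L) (h1E : (1 : A) ∈ E)
    (hGD : GD D L E s) (hns : s ∉ suppI L E ⊔ E) (h : FreeT D L (polyU s E (D + 1)) f) :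
    FreeT D L E (Fin.cons s f : Fin (n + 1) → A) := by
  classical
  have hEL : E ≤ E * L := fun e he => by
    have := Submodule.mul_mem_mul he h1L
    rwa [mul_one] at this
  refine ⟨fun P hD hP h0 => ?_, fun P hD hP h0 => ?_⟩
  · have h1 := h.indep _ (fun i => degreeOf_subst s P hD i) (by
      intro β
      rw [coeff_subst s P (hD 0)]
      exact Submodule.sum_mem _ fun l hl =>
        pow_mul_mem_polyU s E (Finset.mem_range.1 hl) (hP _)) (by rw [eval_subst, h0])
    ext β
    rw [MvPolynomial.coeff_zero, ← Finsupp.cons_tail β]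
    have h2 := coeff_subst s P (hD 0) β.tail
    rw [h1, MvPolynomial.coeff_zero] at h2
    by_cases hβ : β 0 ≤ D
    · exact free_poly hsL h1L h1E hns hGD D (by omega)
        (fun l => MvPolynomial.coeff (β.tail.cons l) P) (fun l _ => hP _) h2.symm _ hβ
    · by_contra hne
      have h3 := (MvPolynomial.degreeOf_le_iff.1 (hD 0)) _ (MvPolynomial.mem_support_iff.2 hne)
      rw [Finsupp.cons_zero] at h3
      exact hβ h3
  · obtain ⟨Q, hQ, hPQ⟩ := h.free _ (fun i => degreeOf_subst s P hD i) (by
      intro β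
      rw [coeff_subst s P (hD 0)]
      exact Submodule.sum_mem _ fun l hl =>
        pow_mul_mem_polyU_mul s E L (Finset.mem_range.1 hl) (hP _)) (by rw [eval_subst, h0])
    have hlift := fun i => exists_lift s E (Q i) (hQ i)
    choose q hqE hqD hqs using hlift
    set T : Polynomial (MvPolynomial (Fin n) A) := MvPolynomial.finSuccEquiv A n P -
      ∑ i, Polynomial.C (MvPolynomial.X i - MvPolynomial.C (f i)) * q i with hT
    have hroot : T.eval (MvPolynomial.C s) = 0 := by
      rw [hT, Polynomial.eval_sub, Polynomial.eval_finsetSum]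
      simp only [Polynomial.eval_mul, Polynomial.eval_C, hqs]
      rw [hPQ, sub_self]
    have hTD : T.natDegree ≤ D := by
      refine (Polynomial.natDegree_sub_le _ _).trans (max_le ?_ ?_)
      · rw [MvPolynomial.natDegree_finSuccEquiv]; exact hD 0
      · exact Polynomial.natDegree_sum_le_of_forall_le _ _ fun i _ =>
          (Polynomial.natDegree_C_mul_le _ _).trans (hqD i)
    have hTL : ∀ l β, (T.coeff l).coeff β ∈ E * L := by
      intro l β
      rw [hT, Polynomial.coeff_sub, Polynomial.finsetSum_coeff, MvPolynomial.coeff_sub,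
        MvPolynomial.coeff_sum, MvPolynomial.finSuccEquiv_coeff_coeff]
      refine Submodule.sub_mem _ (hP _) (Submodule.sum_mem _ fun i _ => ?_)
      rw [Polynomial.coeff_C_mul, sub_mul, MvPolynomial.coeff_sub, MvPolynomial.coeff_X_mul',
        MvPolynomial.coeff_C_mul]
      refine Submodule.sub_mem _ ?_ ?_
      · split_ifs
        · exact hEL (hqE _ _ _)
        · exact Submodule.zero_mem _
      · rw [mul_comm (f i)]
        exact Submodule.mul_mem_mul (hqE _ _ _) (hfL i)
    obtain ⟨q0, hq0⟩ := Polynomial.dvd_iff_isRoot.2 (show T.IsRoot (MvPolynomial.C s) from hroot)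
    have hq0D : ∀ l, D ≤ l → q0.coeff l = 0 := by
      intro l hl
      by_cases h0' : q0 = 0
      · rw [h0', Polynomial.coeff_zero]
      · apply Polynomial.coeff_eq_zero_of_natDegree_lt
        have h1 : T.natDegree = 1 + q0.natDegree := by
          rw [hq0, Polynomial.natDegree_mul (Polynomial.X_sub_C_ne_zero _) h0',
            Polynomial.natDegree_X_sub_C]
        omega
    have hq0E : ∀ l β, (q0.coeff l).coeff β ∈ E := by
      intro l β
      obtain ⟨w, h1, h2, h3, h4⟩ := hGD.formal hsL (fun l => (T.coeff l).coeff β)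
        (fun j _ => hTL j β) (by
          have h5 := congrArg (MvPolynomial.coeff β) hroot
          rw [Polynomial.eval_eq_sum_range' (n := D + 1) (by omega), MvPolynomial.coeff_sum,
            MvPolynomial.coeff_zero] at h5
          rw [← h5]
          refine Finset.sum_congr rfl fun l _ => ?_
          rw [← map_pow, mvcoeff_mul_C, mul_comm])
      have h5 : ∀ e l, D ≤ l + e → (q0.coeff l).coeff β = w (l + 1) := by
        intro e
        induction e with
        | zero =>
          intro l hl
          rw [hq0D l hl, MvPolynomial.coeff_zero, h3 (l + 1) (by omega)]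
        | succ e ih =>
          intro l hl
          rcases Nat.lt_or_ge l D with hlD | hlD
          · have h6 := ih (l + 1) (by omega)
            have h7 := h4 (l + 1) (by omega)
            have h8 : T.coeff (l + 1) = q0.coeff l - MvPolynomial.C s * q0.coeff (l + 1) := by
              rw [hq0, Polynomial.coeff_X_sub_C_mul]
            rw [h8, MvPolynomial.coeff_sub, MvPolynomial.coeff_C_mul, h6] at h7
            linear_combination h7
          · rw [hq0D l hlD, MvPolynomial.coeff_zero, h3 (l + 1) (by omega)]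
      rw [h5 D l (by omega)]
      exact h1 _
    have hsymm : ∀ r : Polynomial (MvPolynomial (Fin n) A), (∀ l β, (r.coeff l).coeff β ∈ E) →
        CoefIn E ((MvPolynomial.finSuccEquiv A n).symm r) := by
      intro r hr β
      rw [← Finsupp.cons_tail β, ← MvPolynomial.finSuccEquiv_coeff_coeff,
        AlgEquiv.apply_symm_apply]
      exact hr _ _
    refine ⟨Fin.cons ((MvPolynomial.finSuccEquiv A n).symm q0)
      (fun i => (MvPolynomial.finSuccEquiv A n).symm (q i)), ?_, ?_⟩
    · intro i
      refine Fin.cases ?_ (fun i => ?_) i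
      · rw [Fin.cons_zero]; exact hsymm _ hq0E
      · rw [Fin.cons_succ]; exact hsymm _ (hqE i)
    · apply (MvPolynomial.finSuccEquiv A n).injective
      have hC : ∀ c : A, MvPolynomial.finSuccEquiv A n (MvPolynomial.C c) =
          Polynomial.C (MvPolynomial.C c) := by
        intro c
        simp [MvPolynomial.finSuccEquiv_apply]
      rw [Fin.sum_univ_succ, map_add, map_mul, map_sub, map_sum, MvPolynomial.finSuccEquiv_X_zero,
        Fin.cons_zero, Fin.cons_zero, hC, AlgEquiv.apply_symm_apply, ← hq0, hT]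
      have h9 : ∀ i : Fin n, MvPolynomial.finSuccEquiv A n ((MvPolynomial.X i.succ -
          MvPolynomial.C ((Fin.cons s f : Fin (n + 1) → A) i.succ)) *
          (Fin.cons ((MvPolynomial.finSuccEquiv A n).symm q0)
            (fun i => (MvPolynomial.finSuccEquiv A n).symm (q i)) :
            Fin (n + 1) → MvPolynomial (Fin (n + 1)) A) i.succ) =
          Polynomial.C (MvPolynomial.X i - MvPolynomial.C (f i)) * q i := by
        intro i
        rw [Fin.cons_succ, Fin.cons_succ, map_mul, map_sub, MvPolynomial.finSuccEquiv_X_succ, hC,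
          AlgEquiv.apply_symm_apply, Polynomial.C_sub]
      rw [Finset.sum_congr rfl (fun i _ => h9 i), sub_add_cancel]

end

open Pool.Agent.W245 Pool.Agent.W245.PB Pool.Agent.TH681.QC

/-- the one variable theorem -/
theorem one_varD (D m v : ℕ) : ∃ c : ℕ, ∀ x ≥ 16,
    ∀ (κ C : Type) [Field κ] [CharZero κ] [Field C] [Algebra κ C] (lg : ℕ → C)
    (L : Submodule κ C), Setup v lg L → ∀ Ω F : Submodule κ C, Module.Finite κ Ω →
    Module.Finite κ F → (1 : C) ∈ Ω → finrank κ Ω ≤ m → finrank κ F ≤ m →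
    ∀ A : Finset ℕ, A ⊆ Ioc 0 x → (∀ n ∈ A, lg n ∈ F ∨ ¬ GD D L Ω (lg n)) →
    (A.card : ℝ) ≤ er c x * x := by
  classical
  obtain ⟨R, hR⟩ := PD_all D m v
  obtain ⟨c, hc⟩ := cubes_er R 0
  refine ⟨c, fun x hx κ C _ _ _ _ lg L hS Ω F h1 h2 h3 h4 h5 A hA hbad => ?_⟩
  by_contra hcon
  push Not at hcon
  obtain ⟨a, p, q, ha, hp, hq, hinj, hcube⟩ := hc x hx A hA hcon
  obtain ⟨S, -, hS1, hS2⟩ := hR κ C L Ω F h1 h2 hS.hyp hS.one h3 h4 h5
    (lg (a * ∏ i, p i)) (hS.mem _ (Nat.mul_pos ha
      (Finset.prod_pos fun i _ => (hp i).1.pos)))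
    (fun i => lg (q i) - lg (p i))
    (fun i => L.sub_mem (hS.mem _ (hq i).1.pos) (hS.mem _ (hp i).1.pos))
    (hS.lglike.indep _ p q (fun i => (hp i).1) (fun i => (hq i).1) hinj)
  have h7 := hbad _ (hcube S)
  rw [hS.lglike.cube a p q ha (fun i => (hp i).1.pos) (fun i => (hq i).1.pos) S] at h7
  rcases h7 with h7 | h7
  · exact hS1 h7
  · exact h7 hS2

/-- **Almost all tuples are free.** -/
theorem freeT_rate (D : ℕ) (n : ℕ) : ∀ m v : ℕ, ∃ c : ℕ, ∀ x ≥ 16,
    ∀ (κ C : Type) [Field κ] [CharZero κ] [Field C] [Algebra κ C] (lg : ℕ → C)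
    (L : Submodule κ C), Setup v lg L → ∀ E : Submodule κ C, Module.Finite κ E →
    (1 : C) ∈ E → finrank κ E ≤ m →
    ∀ B : Finset (Fin n → ℕ), B ⊆ Fintype.piFinset (fun _ : Fin n => Ioc 0 x) →
    (∀ a ∈ B, ¬ FreeT D L E (fun i => lg (a i))) → (B.card : ℝ) ≤ er c x * x ^ n := by
  classical
  induction n with
  | zero =>
    intro m v
    refine ⟨0, fun x hx κ C _ _ _ _ lg L hS E _ h1 hm B hB hbad => ?_⟩
    have : B = ∅ := by
      rw [Finset.eq_empty_iff_forall_notMem]
      intro a ha
      exact hbad a ha (FreeT.nil D L E _)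
    rw [this]
    simp [er_nonneg 0 hx]
  | succ n ih =>
    intro m v
    obtain ⟨c₁, hc₁⟩ := one_varD D (m + (m * (m + v) * m + m)) v
    obtain ⟨c₂, hc₂⟩ := ih ((D + 1) * m) v
    refine ⟨2 * (c₁ + c₂ + 1), fun x hx κ C _ _ _ _ lg L hS E hE h1 hm B hB hbad => ?_⟩
    obtain ⟨hf, hfr⟩ := suppI_bound hS.hyp E
    have hF : FiniteDimensional κ (suppI L E ⊔ E : Submodule κ C) := inferInstance
    have hFr : finrank κ (suppI L E ⊔ E : Submodule κ C) ≤ m + (m * (m + v) * m + m) := by
      refine (Submodule.finrank_add_le_finrank_add_finrank _ _).trans ?_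
      have : finrank κ (suppI L E) ≤ m * (m + v) * m := hfr.trans (by gcongr)
      omega
    refine count_cons n x _ (er_pos _ (by omega) hx) (fun a => ¬ FreeT D L E (fun i => lg (a i)))
      ((Ioc 0 x).filter (fun a => lg a ∈ (suppI L E ⊔ E : Submodule κ C) ∨ ¬ GD D L E (lg a)))
      (Finset.filter_subset _ _) ?_ ?_ B hB hbad
    · refine (hc₁ x hx κ C lg L hS E (suppI L E ⊔ E) hE hF h1 (by omega) hFr _
        (Finset.filter_subset _ _) (fun a ha => (Finset.mem_filter.1 ha).2)).trans ?_
      have := er_half (c := c₁) (d := c₁ + c₂ + 1) (by omega) hx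
      gcongr
    · intro a0 ha0 ha0A B' hB' hbad'
      have ha : ¬ (lg a0 ∈ (suppI L E ⊔ E : Submodule κ C) ∨ ¬ GD D L E (lg a0)) := fun h =>
        ha0A (Finset.mem_filter.2 ⟨ha0, h⟩)
      push Not at ha
      obtain ⟨hpf, hpr⟩ := polyU_bound (lg a0) E (D + 1)
      refine (hc₂ x hx κ C lg L hS (polyU (lg a0) E (D + 1)) hpf (by
        have := pow_mul_mem_polyU (lg a0) E (l := 0) (n := D + 1) (by omega) h1
        rwa [pow_zero, one_mul] at this) (hpr.trans (by gcongr)) B'
        hB' ?_).trans ?_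
      · intro a haB hfree
        apply hbad' a haB
        have hB'' := Fintype.mem_piFinset.1 (hB' haB)
        have h3 : (fun i => lg ((Fin.cons a0 a : Fin (n + 1) → ℕ) i)) =
            (Fin.cons (lg a0) (fun i => lg (a i)) : Fin (n + 1) → C) := by
          funext i
          refine Fin.cases ?_ (fun i => ?_) i
          · rw [Fin.cons_zero, Fin.cons_zero]
          · rw [Fin.cons_succ, Fin.cons_succ]
        rw [h3]
        exact FreeT.cons hS.one (hS.mem _ (Finset.mem_Ioc.1 ha0).1)
          (fun i => hS.mem _ (Finset.mem_Ioc.1 (hB'' i)).1) h1 ha.2 ha.1 hfree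
      · have := er_half (c := c₂) (d := c₁ + c₂ + 1) (by omega) hx
        gcongr

end Pool.Agent.R350
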