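import Pool.Agent.R350.TwoRate
import Pool.Agent.W245.PB.CLog
import Pool.Agent.W254.HP.Prod
import Pool.Agent.Y787.PInst
import Pool.Agent.W245.PB.PLog

/-!
# The complex and the `p`-adic logarithm
-/

set_option autoImplicit false

namespace Pool.Agent.R350

open Module Finset Pool.Agent.W245.PB
open Pool.Agent.H301R2.SSE (QB mem_QB Lt Lt_log Lt_one)
open Pool.Agent.W254.PA (LtE logs)

/-- the complex logarithm -/
theorem setup_complex : Setup 0 (fun n : ℕ => (Real.log n : ℂ)) Lt where
  two := two_ne_zero
  lglike := logLike_complex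
  hyp := fun d l x a hx ha hxa hcol =>
    (Pool.Agent.W254.HP.hyperplane d l x a hx ha hxa hcol).trans
      (Nat.mul_le_mul_left _ (by omega))
  one := Lt_one
  mem := fun n hn => by
    apply Lt_log
    rw [← Complex.ofReal_exp, Real.exp_log (by exact_mod_cast hn), Complex.ofReal_natCast]
    exact isAlgebraic_natCast n

/-- the `p`-adic logarithm -/
theorem setup_padic {p : ℕ} [Fact p.Prime] {L : PadicAlgCl p → PadicAlgCl p}
    (hL : IsIwasawaLog p L) : Setup 0 (fun n : ℕ => L (n : PadicAlgCl p)) (LtE (logs L)) where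
  two := two_ne_zero
  lglike := hL.logLike
  hyp := fun d l x a hx ha hxa hcol =>
    ((Pool.Agent.Y787.hypC_padic hL).hyp d l x a hx ha hxa hcol).trans
      (Nat.mul_le_mul_left _ (by omega))
  one := (Pool.Agent.Y787.hypC_padic hL).one
  mem := fun n hn => Pool.Agent.Y787.log_mem
    ⟨(n : PadicAlgCl p), Nat.cast_ne_zero.2 hn.ne', isAlgebraic_natCast n, rfl⟩

/-- the first row of a singular matrix with independent rows and columns has independent entries -/
theorem row_li {K C : Type*} [Field K] [Field C] [Algebra K C] (M : Matrix (Fin 2) (Fin 2) C)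
    (hdet : M 0 0 * M 1 1 = M 0 1 * M 1 0)
    (hr : LinearIndependent K (fun i : Fin 2 => fun j : Fin 2 => M i j))
    (hc : LinearIndependent K (fun j : Fin 2 => fun i : Fin 2 => M i j)) :
    LinearIndependent K (fun j : Fin 2 => M 0 j) := by
  have hne : (fun j : Fin 2 => M 0 j) ≠ 0 := hr.ne_zero 0
  rw [Fintype.linearIndependent_iff]
  intro g hg
  rw [Fin.sum_univ_two] at hg
  refine Fintype.linearIndependent_iff.1 hc g ?_
  rw [Fin.sum_univ_two]
  funext i
  simp only [Pi.add_apply, Pi.smul_apply, Pi.zero_apply]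
  have h1 : g 0 • M 1 0 + g 1 • M 1 1 = 0 := by
    by_cases h0 : M 0 0 = 0
    · have h01 : M 0 1 ≠ 0 := by
        intro h
        apply hne
        funext j
        fin_cases j
        · exact h0
        · exact h
      apply mul_left_cancel₀ h01
      rw [mul_add, mul_smul_comm, mul_smul_comm, ← hdet, mul_zero, mul_comm (M 0 0),
        ← mul_smul_comm, mul_comm (M 0 1), ← mul_smul_comm, ← mul_add, hg, mul_zero]
    · apply mul_left_cancel₀ h0
      rw [mul_add, mul_smul_comm, mul_smul_comm, hdet, mul_zero, mul_comm (M 0 0),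
        ← mul_smul_comm, mul_comm (M 0 1), ← mul_smul_comm, ← mul_add, hg, mul_zero]
  fin_cases i
  · exact hg
  · exact h1

/-- a quotient of two logarithms of algebraic numbers which is algebraic is rational -/
theorem ratio_rat {x y ρ : ℂ} (hx : IsAlgebraic ℚ (Complex.exp x))
    (hy : IsAlgebraic ℚ (Complex.exp y)) (hρ : IsAlgebraic ℚ ρ) (hx0 : x ≠ 0)
    (h : y = ρ * x) : ∃ q : ℚ, ρ = q := by
  by_cases hli : LinearIndependent ℚ ![x, y]
  · exfalso
    have h1 := Pool.Agent.H297R2.baker_inhom ![x, y] (by
      intro i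
      fin_cases i
      · exact hx
      · exact hy) hli 0 (isAlgebraic_zero) ![ρ, -1] (by
      intro i
      fin_cases i
      · exact hρ
      · exact (isAlgebraic_one).neg) (by
      rw [Fin.sum_univ_two]
      simp only [Matrix.cons_val_zero, Matrix.cons_val_one]
      rw [h]; ring)
    have h2 := h1.2 1
    simp at h2
  · rw [LinearIndependent.pair_iff] at hli
    push Not at hli
    obtain ⟨s, t, hst, h1⟩ := hli
    by_cases ht : t = 0
    · exfalso
      rw [ht, zero_smul, add_zero] at hst
      exact h1 ((smul_eq_zero.1 hst).resolve_right hx0) ht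
    · refine ⟨-(s / t), ?_⟩
      have h2 : (s : ℂ) * x + t * y = 0 := by
        rw [← hst, Rat.smul_def, Rat.smul_def]
      have ht' : (t : ℂ) ≠ 0 := by exact_mod_cast ht
      have h3 : (s + t * ρ) * x = 0 := by rw [← h2, h]; ring
      have h4 := (mul_eq_zero.1 h3).resolve_right hx0
      push_cast
      field_simp
      linear_combination h4

end Pool.Agent.R350
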