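import Pool.Agent.R350.Skew
import Pool.Agent.R350.Inst

/-!
# Square matrices of logarithms with a generic kernel vector
-/

set_option autoImplicit false

namespace Pool.Agent.R350

open Module Finset Pool.Agent.W245 Pool.Agent.W245.PB Pool.Agent.TH681.QC

section

variable {κ C : Type} [Field κ] [CharZero κ] [Field C] [CharZero C] [Algebra κ C]

/-- A square matrix with entries in a space of logarithms with the Baker property, and with a
generic kernel vector, has a rational zero. -/
theorem kernel_zero {v : ℕ} {L : Submodule κ C} (Λ : Submodule ℚ C) (hΛ : BakerProp κ Λ)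
    (hΛL : ∀ z ∈ Λ, z ∈ L) (V : Submodule ℚ C) [Module.Finite ℚ V]
    (hL : HypV v (L ⊔ Submodule.span κ (V : Set C))) {k : ℕ} (f : Fin k → C)
    (hf : ∀ i, f i ∈ L)
    (hgen : Gen v (L ⊔ Submodule.span κ (V : Set C)) (Submodule.span κ (V : Set C)) f)
    {n : ℕ} (M : Matrix (Fin n) (Fin n) C) (hM : ∀ i j, M i j ∈ Λ) (u : Fin n → C)
    (hu : ∀ j, u j ∈ V ⊔ Submodule.span ℚ (Set.range f)) (huV : ∃ j, u j ∉ V)
    (hker : ∀ i, ∑ j, M i j * u j = 0) :
    ∃ w v : Fin n → ℚ, w ≠ 0 ∧ v ≠ 0 ∧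
      ∑ i, ∑ j, (w i : C) * M i j * (v j : C) = 0 := by
  classical
  have hVf : Module.Finite κ (Submodule.span κ (V : Set C)) := spanK_finite (κ := κ) V
  -- rational coordinates
  have hrep : ∀ j, ∃ y ∈ V, ∃ q : Fin k → ℚ, u j = y + ∑ i, q i • f i := by
    intro j
    obtain ⟨y, hy, w, hw, h⟩ := Submodule.mem_sup.1 (hu j)
    obtain ⟨q, rfl⟩ := (Submodule.mem_span_range_iff_exists_fun ℚ).1 hw
    exact ⟨y, hy, q, h.symm⟩
  choose y hy q hq using hrep
  obtain ⟨i0, j0, hij0⟩ : ∃ i0 j0, q j0 i0 ≠ 0 := by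
    by_contra hno
    push Not at hno
    obtain ⟨j, hj⟩ := huV
    apply hj
    rw [hq j, Finset.sum_eq_zero (fun i _ => by rw [hno i j, zero_smul]), add_zero]
    exact hy j
  obtain ⟨φ, hφ0, hφ1⟩ := exists_dual (Submodule.span κ (V : Set C)) f hgen.indep
    (fun i => if i = i0 then 1 else 0)
  have hφu : ∀ j, φ (u j) = (q j i0 : κ) := by
    intro j
    rw [hq j, map_add, hφ0 _ (Submodule.subset_span (hy j)), zero_add, map_sum,
      Finset.sum_eq_single i0]
    · rw [← algebraMap_smul κ (q j i0), map_smul, hφ1, if_pos rfl, smul_eq_mul, mul_one]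
      simp
    · intro i _ hi
      rw [← algebraMap_smul κ (q j i), map_smul, hφ1, if_neg hi, smul_zero]
    · intro h; exact absurd (Finset.mem_univ _) h
  set T : Submodule κ C := Submodule.span κ (Set.range u) with hT
  have hTf : Module.Finite κ T := FiniteDimensional.span_of_finite κ (Set.finite_range u)
  have hTle : T ≤ stage (Submodule.span κ (V : Set C)) f k := by
    rw [stage_full, hT, Submodule.span_le]
    rintro _ ⟨j, rfl⟩
    rw [hq j]
    refine Submodule.add_mem _ (Submodule.mem_sup_left (Submodule.subset_span (hy j)))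
      (Submodule.mem_sup_right (Submodule.sum_mem _ fun i _ => ?_))
    rw [← algebraMap_smul κ (q j i)]
    exact Submodule.smul_mem _ _ (Submodule.subset_span ⟨i, rfl⟩)
  have hB : ∀ i, ∑ j, φ (u j) • M i j ∈ T ∧ φ (∑ j, φ (u j) • M i j) = 0 := by
    intro i
    refine skewness hL le_sup_right f (fun i => Submodule.mem_sup_left (hf i)) hgen φ k le_rfl T
      hTle ?_ (Fin n) u (fun j => M i j) (fun j => Submodule.subset_span ⟨j, rfl⟩)
      (fun j => Submodule.mem_sup_left (hΛL _ (hM i j))) ?_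
    · intro τ _ ω ℓ hω _ _
      exact Finset.sum_eq_zero fun t _ => by rw [hφ0 _ (hω t).2, zero_smul]
    · rw [← hker i]
      exact Finset.sum_congr rfl fun j _ => mul_comm _ _
  let B : Fin n → C := fun i => ∑ j, q j i0 • M i j
  have hBeq : ∀ i, B i = ∑ j, φ (u j) • M i j := by
    intro i
    refine Finset.sum_congr rfl fun j _ => ?_
    rw [hφu, ← algebraMap_smul κ (q j i0)]
    simp
  have hBΛ : ∀ i, B i ∈ Λ := fun i => Submodule.sum_mem _ fun j _ => Λ.smul_mem _ (hM i j)
  -- a space of smaller dimension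
  set T0 : Submodule κ C := T ⊓ LinearMap.ker φ with hT0
  have hBT0 : ∀ i, B i ∈ T0 := fun i => by
    rw [hBeq i]
    exact ⟨(hB i).1, LinearMap.mem_ker.2 (hB i).2⟩
  have hT0lt : finrank κ T0 < n := by
    have h1 : T0 < T := by
      refine lt_of_le_of_ne inf_le_left ?_
      intro h
      have h2 : u j0 ∈ T0 := by rw [h]; exact Submodule.subset_span ⟨j0, rfl⟩
      have h3 : φ (u j0) = 0 := LinearMap.mem_ker.1 h2.2
      rw [hφu j0] at h3
      exact hij0 (by exact_mod_cast h3)
    have h2 := Submodule.finrank_lt_finrank_of_lt h1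
    have h3 := finrank_range_le_card (R := κ) u
    rw [Set.finrank, Fintype.card_fin] at h3
    exact lt_of_lt_of_le h2 h3
  have hT0f : Module.Finite κ T0 :=
    Submodule.finiteDimensional_of_le (inf_le_left : T0 ≤ T)
  have hdep : ¬ LinearIndependent ℚ B := by
    intro h
    have h1 := hΛ n B hBΛ h
    have h2 : LinearIndependent κ (fun i => (⟨B i, hBT0 i⟩ : T0)) := by
      apply LinearIndependent.of_comp T0.subtype
      exact h1
    have h3 := h2.fintype_card_le_finrank
    rw [Fintype.card_fin] at h3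
    omega
  rw [Fintype.not_linearIndependent_iff] at hdep
  obtain ⟨w, hw0, i1, hi1⟩ := hdep
  refine ⟨w, fun j => q j i0, fun h => hi1 (congrFun h i1), fun h => hij0 (congrFun h j0), ?_⟩
  rw [← hw0]
  refine Finset.sum_congr rfl fun i _ => ?_
  simp only [B, Finset.smul_sum, Rat.smul_def]
  refine Finset.sum_congr rfl fun j _ => ?_
  ring

end

/-- the rational space of all logarithms of algebraic numbers -/
def logSub : Submodule ℚ ℂ where
  carrier := {z | IsAlgebraic ℚ (Complex.exp z)}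
  add_mem' := by
    intro a b ha hb
    change IsAlgebraic ℚ (Complex.exp (a + b))
    rw [Complex.exp_add]
    exact IsAlgebraic.mul ha hb
  zero_mem' := by
    change IsAlgebraic ℚ (Complex.exp 0)
    rw [Complex.exp_zero]
    exact isAlgebraic_one
  smul_mem' := by
    intro q z hz
    change IsAlgebraic ℚ (Complex.exp (q • z))
    change IsAlgebraic ℚ (Complex.exp z) at hz
    refine IsAlgebraic.of_pow (n := q.den) q.den_pos ?_
    rw [← Complex.exp_nat_mul]
    have h1 : (q.den : ℂ) * (q • z) = (q.num : ℤ) * z := by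
      rw [Rat.smul_def, ← mul_assoc]
      congr 1
      have h2 : (q.den : ℚ) * q = q.num := by
        rw [mul_comm]; exact Rat.mul_den_eq_num q
      exact_mod_cast h2
    rw [h1, Complex.exp_int_mul]
    rcases Int.eq_nat_or_neg q.num with ⟨n, h | h⟩
    · rw [h, zpow_natCast]; exact hz.pow n
    · rw [h, zpow_neg, zpow_natCast]; exact (hz.pow n).inv

theorem mem_logSub {z : ℂ} : z ∈ logSub ↔ IsAlgebraic ℚ (Complex.exp z) := Iff.rfl

theorem baker_logSub : BakerProp (algebraicClosure ℚ ℂ) logSub :=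
  bakerProp_complex logSub fun _ h => h

/-- the rational space of all `p`-adic logarithms of algebraic numbers -/
def logSubP {p : ℕ} [Fact p.Prime] {L : PadicAlgCl p → PadicAlgCl p} (hL : IsIwasawaLog p L) :
    Submodule ℚ (PadicAlgCl p) where
  carrier := {z | ∃ α : PadicAlgCl p, α ≠ 0 ∧ IsAlgebraic ℚ α ∧ z = L α}
  add_mem' := by
    rintro a b ⟨α, h1, h2, rfl⟩ ⟨β, h3, h4, rfl⟩
    exact ⟨α * β, mul_ne_zero h1 h3, h2.mul h4, (hL.mul α β h1 h3).symm⟩
  zero_mem' := ⟨1, one_ne_zero, isAlgebraic_one, hL.one.symm⟩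
  smul_mem' := by
    rintro q z ⟨α, h1, h2, rfl⟩
    obtain ⟨β, hβ⟩ := IsAlgClosed.exists_pow_nat_eq (α ^ q.num) q.den_pos
    have hβ0 : β ≠ 0 := by
      rintro rfl
      rw [zero_pow q.den_pos.ne'] at hβ
      exact zpow_ne_zero _ h1 hβ.symm
    refine ⟨β, hβ0, ?_, ?_⟩
    · refine IsAlgebraic.of_pow (n := q.den) q.den_pos ?_
      rw [hβ]
      rcases Int.eq_nat_or_neg q.num with ⟨n, h | h⟩
      · rw [h, zpow_natCast]; exact h2.pow n
      · rw [h, zpow_neg, zpow_natCast]; exact (h2.pow n).inv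
    · have h3 := hL.pow hβ0 q.den
      rw [hβ, hL.zpow h1] at h3
      have hden : (q.den : PadicAlgCl p) ≠ 0 := Nat.cast_ne_zero.2 q.den_ne_zero
      apply mul_left_cancel₀ hden
      rw [← h3, Rat.smul_def, ← mul_assoc]
      congr 1
      have h4 : (q.den : ℚ) * q = q.num := by
        rw [mul_comm]; exact Rat.mul_den_eq_num q
      exact_mod_cast h4

theorem baker_logSubP {p : ℕ} [Fact p.Prime] {L : PadicAlgCl p → PadicAlgCl p}
    (hL : IsIwasawaLog p L) : BakerProp (algebraicClosure ℚ (PadicAlgCl p)) (logSubP hL) :=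
  fun _ w hw hli => hL.indep_of_indep w hw hli

/-- the dimension of `V + K f_1 + ... + K f_k` -/
theorem finrank_of_indep {K C : Type*} [Field K] [Field C] [Algebra K C] (V : Submodule K C)
    [Module.Finite K V] {k : ℕ} (f : Fin k → C)
    (h : ∀ c : Fin k → K, ∑ i, c i • f i ∈ V → ∀ i, c i = 0) :
    finrank K (V ⊔ Submodule.span K (Set.range f) : Submodule K C) = finrank K V + k := by
  have h0 : Module.Finite K (Submodule.span K (Set.range f)) :=
    FiniteDimensional.span_of_finite K (Set.finite_range f)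
  have hli : LinearIndependent K f := by
    rw [Fintype.linearIndependent_iff]
    intro c hc
    exact h c (by rw [hc]; exact V.zero_mem)
  have h1 := Submodule.finrank_sup_add_finrank_inf_eq V (Submodule.span K (Set.range f))
  have h2 : V ⊓ Submodule.span K (Set.range f) = ⊥ := by
    rw [Submodule.eq_bot_iff]
    rintro z ⟨hz1, hz2⟩
    obtain ⟨c, rfl⟩ := (Submodule.mem_span_range_iff_exists_fun K).1 hz2
    exact Finset.sum_eq_zero fun i _ => by rw [h c hz1 i, zero_smul]
  rw [h2, finrank_bot, add_zero, finrank_span_eq_card hli, Fintype.card_fin] at h1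
  exact h1

/-- rational independence modulo a rational space from the generic property -/
theorem Gen.finrankQ {κ C : Type} [Field κ] [CharZero κ] [Field C] [CharZero C] [Algebra κ C]
    {v : ℕ} {L : Submodule κ C} (V : Submodule ℚ C) [Module.Finite ℚ V] {k : ℕ} (f : Fin k → C)
    (hgen : Gen v L (Submodule.span κ (V : Set C)) f) :
    finrank ℚ (V ⊔ Submodule.span ℚ (Set.range f) : Submodule ℚ C) = finrank ℚ V + k := by
  have hVf : Module.Finite κ (Submodule.span κ (V : Set C)) := spanK_finite (κ := κ) V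
  refine finrank_of_indep V f fun c hc i => ?_
  have h1 := hgen.indep (fun i => (c i : κ)) (by
    refine (congrArg (· ∈ Submodule.span κ (V : Set C)) ?_).mp (Submodule.subset_span hc)
    refine Finset.sum_congr rfl fun i _ => ?_
    rw [← algebraMap_smul κ (c i)]
    simp) i
  exact_mod_cast h1

theorem rate_gen_padic (k m : ℕ) : ∃ c : ℕ, ∀ x ≥ 16, ∀ (p : ℕ) [Fact p.Prime]
    (L : PadicAlgCl p → PadicAlgCl p), IsIwasawaLog p L →
    ∀ V : Submodule (algebraicClosure ℚ (PadicAlgCl p)) (PadicAlgCl p),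
    Module.Finite (algebraicClosure ℚ (PadicAlgCl p)) V →
    finrank (algebraicClosure ℚ (PadicAlgCl p)) V ≤ m →
    ∀ B : Finset (Fin k → ℕ),
    B ⊆ Fintype.piFinset (fun _ : Fin k => Ioc 0 x) →
    (∀ a ∈ B, ¬ Gen (0 + m) (Pool.Agent.W254.PA.LtE (Pool.Agent.W254.PA.logs L) ⊔ V) V
      (fun i => L (a i : PadicAlgCl p))) →
    (B.card : ℝ) ≤ er c x * x ^ k := by
  obtain ⟨c, hc⟩ := rate_gen k m 0
  exact ⟨c, fun x hx p _ L hL V h1 h2 B h3 h4 => hc x hx (algebraicClosure ℚ (PadicAlgCl p))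
    (PadicAlgCl p) _ _ (setup_padic hL) V h1 h2 B h3 h4⟩

theorem rate_gen_complex (k m : ℕ) : ∃ c : ℕ, ∀ x ≥ 16, ∀ V : Submodule (algebraicClosure ℚ ℂ) ℂ,
    Module.Finite (algebraicClosure ℚ ℂ) V → finrank (algebraicClosure ℚ ℂ) V ≤ m →
    ∀ B : Finset (Fin k → ℕ),
    B ⊆ Fintype.piFinset (fun _ : Fin k => Ioc 0 x) →
    (∀ a ∈ B, ¬ Gen (0 + m) (Pool.Agent.H301R2.SSE.Lt ⊔ V) V (fun i => (Real.log (a i) : ℂ))) →
    (B.card : ℝ) ≤ er c x * x ^ k := by
  obtain ⟨c, hc⟩ := rate_gen k m 0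
  exact ⟨c, fun x hx V h1 h2 B h3 h4 => hc x hx (algebraicClosure ℚ ℂ) ℂ _ _ setup_complex V h1 h2
    B h3 h4⟩

end Pool.Agent.R350
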