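import Pool.Agent.R350.GF
import Pool.Agent.R350.Kernel

/-!
# Relations which are linear in arbitrary elements
-/

set_option autoImplicit false

namespace Pool.Agent.R350

open Module Finset

section

variable {k A : Type*} [Field k] [Field A] [Algebra k A]

/-- a free tuple satisfies no relation which is linear in elements of `L` independent modulo a
fixed finite dimensional space -/
theorem FreeT.lin {D n r : ℕ} {L E : Submodule k A} {f : Fin n → A} (H : FreeT D L E f)
    (h1L : (1 : A) ∈ L) (hfL : ∀ i, f i ∈ L) (y : Fin r → A) (hyL : ∀ j, y j ∈ L)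
    (hy : ∀ c : Fin r → k, ∑ j, c j • y j ∈
      suppI L E ⊔ Submodule.span k (insert 1 (Set.range f)) → ∀ j, c j = 0)
    (P0 : MvPolynomial (Fin n) A) (P : Fin r → MvPolynomial (Fin n) A)
    (hP0D : ∀ i, P0.degreeOf i ≤ D) (hPD : ∀ j i, (P j).degreeOf i ≤ D) (hP0E : CoefIn E P0)
    (hPE : ∀ j, CoefIn E (P j))
    (h0 : MvPolynomial.eval f P0 + ∑ j, y j * MvPolynomial.eval f (P j) = 0) :
    P0 = 0 ∧ ∀ j, P j = 0 := by
  classical
  have hEL : E ≤ E * L := fun e he => by
    have := Submodule.mul_mem_mul he h1L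
    rwa [mul_one] at this
  obtain ⟨Q, hQ, hPQ⟩ := H.free (P0 + ∑ j, MvPolynomial.C (y j) * P j) (by
    intro i
    refine (MvPolynomial.degreeOf_add_le _ _ _).trans (max_le (hP0D i) ?_)
    refine (MvPolynomial.degreeOf_sum_le _ _ _).trans ?_
    rw [Finset.sup_le_iff]
    intro j _
    exact (MvPolynomial.degreeOf_C_mul_le _ _ _).trans (hPD j i)) (by
    intro β
    rw [MvPolynomial.coeff_add, MvPolynomial.coeff_sum]
    refine Submodule.add_mem _ (hEL (hP0E β)) (Submodule.sum_mem _ fun j _ => ?_)
    rw [MvPolynomial.coeff_C_mul, mul_comm (y j)]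
    exact Submodule.mul_mem_mul (hPE j β) (hyL j)) (by
    rw [map_add, map_sum, ← h0]
    congr 1
    refine Finset.sum_congr rfl fun j _ => ?_
    rw [map_mul, MvPolynomial.eval_C])
  have hP : ∀ j, P j = 0 := by
    intro j0
    ext β
    rw [MvPolynomial.coeff_zero]
    apply eq_zero_of_dual (k := k)
    intro φ
    set g : A := MvPolynomial.coeff β (∑ i, MvPolynomial.X i * Q i) with hg
    have hgE : g ∈ E := by
      rw [hg, MvPolynomial.coeff_sum]
      refine Submodule.sum_mem _ fun i _ => ?_
      rw [MvPolynomial.coeff_X_mul']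
      split_ifs
      · exact hQ _ _
      · exact E.zero_mem
    have h1 := congrArg (MvPolynomial.coeff β) hPQ
    rw [MvPolynomial.coeff_add, MvPolynomial.coeff_sum] at h1
    have h2 : MvPolynomial.coeff β (∑ i, (MvPolynomial.X i - MvPolynomial.C (f i)) * Q i) =
        g - ∑ i, f i * MvPolynomial.coeff β (Q i) := by
      rw [hg]
      simp only [sub_mul, Finset.sum_sub_distrib, MvPolynomial.coeff_sub, MvPolynomial.coeff_sum,
        MvPolynomial.coeff_C_mul]
    rw [h2] at h1
    simp only [MvPolynomial.coeff_C_mul] at h1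
    have h3 := mem_suppI (L := L) (Ω := E) (τ := Fin r ⊕ (Fin n ⊕ Unit))
      (Sum.elim (fun j => MvPolynomial.coeff β (P j)) (Sum.elim (fun i =>
        MvPolynomial.coeff β (Q i)) (fun _ => MvPolynomial.coeff β P0 - g)))
      (Sum.elim y (Sum.elim f (fun _ => 1))) (by
        rintro (j | (i | u))
        · exact hPE j β
        · exact hQ i β
        · exact E.sub_mem (hP0E β) hgE) (by
        rintro (j | (i | u))
        · exact hyL j
        · exact hfL i
        · exact h1L) (by
        rw [Fintype.sum_sum_type, Fintype.sum_sum_type]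
        simp only [Sum.elim_inl, Sum.elim_inr, Finset.univ_unique, Finset.sum_singleton, mul_one]
        have e1 : ∑ j, MvPolynomial.coeff β (P j) * y j = ∑ j, y j * MvPolynomial.coeff β (P j) :=
          Finset.sum_congr rfl fun j _ => mul_comm _ _
        have e2 : ∑ i, MvPolynomial.coeff β (Q i) * f i = ∑ i, f i * MvPolynomial.coeff β (Q i) :=
          Finset.sum_congr rfl fun j _ => mul_comm _ _
        rw [e1, e2]
        linear_combination h1) φ
    rw [Fintype.sum_sum_type, Fintype.sum_sum_type] at h3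
    simp only [Sum.elim_inl, Sum.elim_inr, Finset.univ_unique, Finset.sum_singleton] at h3
    refine hy (fun j => φ (MvPolynomial.coeff β (P j))) ?_ j0
    have h4 : ∑ i, φ (MvPolynomial.coeff β (Q i)) • f i + φ (MvPolynomial.coeff β P0 - g) •
        (1 : A) ∈ Submodule.span k (insert 1 (Set.range f)) :=
      Submodule.add_mem _ (Submodule.sum_mem _ fun i _ => Submodule.smul_mem _ _
        (Submodule.subset_span (Set.mem_insert_of_mem _ ⟨i, rfl⟩)))
        (Submodule.smul_mem _ _ (Submodule.subset_span (Set.mem_insert _ _)))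
    have h5 := Submodule.sub_mem _ (Submodule.mem_sup_left (T := Submodule.span k
      (insert 1 (Set.range f))) h3) (Submodule.mem_sup_right (S := suppI L E) h4)
    rwa [add_sub_cancel_right] at h5
  refine ⟨?_, hP⟩
  apply H.indep P0 hP0D hP0E
  rw [← h0, Finset.sum_eq_zero, add_zero]
  intro j _
  rw [hP j, map_zero, mul_zero]

theorem suppI_one (L : Submodule k A) : suppI L (Submodule.span k {(1 : A)}) = ⊥ := by
  rw [eq_bot_iff]
  unfold suppI
  rw [Submodule.span_le]
  rintro y ⟨n, ω, ℓ, h1, h2, h3, φ, rfl⟩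
  choose c hc using fun t => Submodule.mem_span_singleton.1 (h1 t)
  rw [SetLike.mem_coe, Submodule.mem_bot]
  have h4 : ∑ t, c t • ℓ t = 0 := by
    rw [← h3]
    refine Finset.sum_congr rfl fun t _ => ?_
    rw [← hc t, smul_mul_assoc, one_mul]
  have h5 : ∑ t, φ (ω t) • ℓ t = φ 1 • ∑ t, c t • ℓ t := by
    rw [Finset.smul_sum]
    refine Finset.sum_congr rfl fun t _ => ?_
    rw [← hc t, map_smul, smul_eq_mul, smul_smul, mul_comm]
  rw [h5, h4, smul_zero]

/-- coefficients in the ground field -/
theorem CoefIn.map {σ : Type*} (P : MvPolynomial σ k) :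
    CoefIn (Submodule.span k {(1 : A)}) (MvPolynomial.map (algebraMap k A) P) := by
  intro β
  rw [MvPolynomial.coeff_map, Algebra.algebraMap_eq_smul_one]
  exact Submodule.smul_mem _ _ (Submodule.mem_span_singleton_self _)

/-- **Relations over the ground field which are linear in arbitrary elements of `L`.** -/
theorem FreeT.lin_one {D n r : ℕ} {L : Submodule k A} {f : Fin n → A}
    (H : FreeT D L (Submodule.span k {(1 : A)}) f)
    (h1L : (1 : A) ∈ L) (hfL : ∀ i, f i ∈ L) (y : Fin r → A) (hyL : ∀ j, y j ∈ L)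
    (hy : ∀ (c0 : k) (b : Fin n → k) (c : Fin r → k),
      c0 • (1 : A) + ∑ i, b i • f i + ∑ j, c j • y j = 0 → ∀ j, c j = 0)
    (P0 : MvPolynomial (Fin n) k) (P : Fin r → MvPolynomial (Fin n) k)
    (hP0D : ∀ i, P0.degreeOf i ≤ D) (hPD : ∀ j i, (P j).degreeOf i ≤ D)
    (h0 : MvPolynomial.aeval f P0 + ∑ j, y j * MvPolynomial.aeval f (P j) = 0) :
    P0 = 0 ∧ ∀ j, P j = 0 := by
  have hinj : Function.Injective (MvPolynomial.map (σ := Fin n) (algebraMap k A)) :=
    MvPolynomial.map_injective _ (algebraMap k A).injective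
  have hdeg : ∀ (Q : MvPolynomial (Fin n) k) i, (MvPolynomial.map (algebraMap k A) Q).degreeOf i ≤
      Q.degreeOf i := by
    intro Q i
    classical
    rw [MvPolynomial.degreeOf_le_iff]
    intro β hβ
    exact (MvPolynomial.degreeOf_le_iff.1 le_rfl) β (MvPolynomial.support_map_subset _ _ hβ)
  have h1 := H.lin h1L hfL y hyL (by
    intro c hc
    rw [suppI_one, bot_sup_eq, Submodule.mem_span_insert] at hc
    obtain ⟨c0, z, hz, he⟩ := hc
    obtain ⟨b, rfl⟩ := (Submodule.mem_span_range_iff_exists_fun k).1 hz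
    have h2 := hy c0 b (fun j => -c j) (by
      simp only [neg_smul, Finset.sum_neg_distrib]
      rw [he]; ring)
    intro j
    simpa using h2 j) (MvPolynomial.map (algebraMap k A) P0)
    (fun j => MvPolynomial.map (algebraMap k A) (P j)) (fun i => (hdeg P0 i).trans (hP0D i))
    (fun j i => (hdeg _ i).trans (hPD j i)) (CoefIn.map P0) (fun j => CoefIn.map (P j)) (by
      simp only [MvPolynomial.eval_map]
      exact h0)
  refine ⟨hinj (by rw [h1.1, map_zero]), fun j => hinj (by rw [h1.2 j, map_zero])⟩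

end

end Pool.Agent.R350
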