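import Pool.Agent.R350.GG
import Pool.Agent.R350.Inst

/-!
# Polynomials in two groups of variables, linear in the second group
-/

set_option autoImplicit false

namespace Pool.Agent.R350

open Module Finset MvPolynomial

section

variable {k : Type*} [CommRing k]

theorem linear_split {σ τ : Type*} [Fintype τ] (D : ℕ) (P : MvPolynomial (σ ⊕ τ) k)
    (hD : ∀ i, P.degreeOf (Sum.inl i) ≤ D) (h1 : ∀ β ∈ P.support, ∑ j, β (Sum.inr j) ≤ 1) :
    ∃ (P0 : MvPolynomial σ k) (Q : τ → MvPolynomial σ k), (∀ i, P0.degreeOf i ≤ D) ∧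
      (∀ j i, (Q j).degreeOf i ≤ D) ∧
      P = rename Sum.inl P0 + ∑ j, X (Sum.inr j) * rename Sum.inl (Q j) := by
  classical
  have hinj : Function.Injective (Sum.inl : σ → σ ⊕ τ) := Sum.inl_injective
  let c : (σ ⊕ τ →₀ ℕ) → (σ →₀ ℕ) := fun β => β.comapDomain Sum.inl hinj.injOn
  have hc : ∀ β i, c β i = β (Sum.inl i) := fun β i => rfl
  let T0 : (σ ⊕ τ →₀ ℕ) → MvPolynomial σ k := fun β =>
    if ∀ j, β (Sum.inr j) = 0 then monomial (c β) (coeff β P) else 0
  let T : τ → (σ ⊕ τ →₀ ℕ) → MvPolynomial σ k := fun j β =>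
    if β (Sum.inr j) = 1 then monomial (c β) (coeff β P) else 0
  have hdeg : ∀ (F : (σ ⊕ τ →₀ ℕ) → MvPolynomial σ k), (∀ β ∈ P.support, ∀ γ, coeff γ (F β) ≠ 0 →
      γ = c β) → ∀ i, (∑ β ∈ P.support, F β).degreeOf i ≤ D := by
    intro F hF i
    rw [degreeOf_le_iff]
    intro γ hγ
    rw [MvPolynomial.mem_support_iff, coeff_sum] at hγ
    obtain ⟨β, hβ, hne⟩ := Finset.exists_ne_zero_of_sum_ne_zero hγ
    rw [hF β hβ γ hne, hc]
    exact (degreeOf_le_iff.1 (hD i)) β hβ
  refine ⟨∑ β ∈ P.support, T0 β, fun j => ∑ β ∈ P.support, T j β, hdeg _ ?_,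
    fun j => hdeg _ ?_, ?_⟩
  · intro β _ γ hγ
    simp only [T0] at hγ
    split_ifs at hγ with h
    · rw [coeff_monomial] at hγ
      by_contra hne
      rw [if_neg (fun h => hne h.symm)] at hγ
      exact hγ rfl
    · exact absurd (coeff_zero _) hγ
  · intro β _ γ hγ
    simp only [T] at hγ
    split_ifs at hγ with h
    · rw [coeff_monomial] at hγ
      by_contra hne
      rw [if_neg (fun h => hne h.symm)] at hγ
      exact hγ rfl
    · exact absurd (coeff_zero _) hγ
  · simp only [map_sum, Finset.mul_sum]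
    rw [Finset.sum_comm, ← Finset.sum_add_distrib]
    nth_rewrite 1 [P.as_sum]
    refine Finset.sum_congr rfl fun β hβ => ?_
    have h2 := h1 β hβ
    by_cases h3 : ∀ j, β (Sum.inr j) = 0
    · have e1 : β = Finsupp.mapDomain Sum.inl (c β) := by
        ext i
        rcases i with i | j
        · rw [Finsupp.mapDomain_apply hinj, hc]
        · rw [Finsupp.mapDomain_of_notMem_range _ _ (by simp), h3 j]
      have e2 : ∀ j, T j β = 0 := fun j => by
        simp only [T]
        rw [if_neg (by rw [h3 j]; exact zero_ne_one)]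
      simp only [T0, if_pos h3, e2, map_zero, mul_zero, Finset.sum_const_zero, add_zero,
        rename_monomial]
      rw [← e1]
    · push Not at h3
      obtain ⟨j, hj⟩ := h3
      have hj1 : β (Sum.inr j) = 1 := by
        have := Finset.single_le_sum (f := fun j => β (Sum.inr j)) (fun _ _ => Nat.zero_le _)
          (Finset.mem_univ j)
        omega
      have hj0 : ∀ j', j' ≠ j → β (Sum.inr j') = 0 := by
        intro j' hne
        have := Finset.add_le_sum (f := fun j => β (Sum.inr j)) (fun _ _ => Nat.zero_le _)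
          (Finset.mem_univ j) (Finset.mem_univ j') hne.symm
        omega
      have e1 : β = Finsupp.single (Sum.inr j) 1 + Finsupp.mapDomain Sum.inl (c β) := by
        ext i
        rcases i with i | j'
        · rw [Finsupp.add_apply, Finsupp.mapDomain_apply hinj, hc, Finsupp.single_apply,
            if_neg (by simp), zero_add]
        · rw [Finsupp.add_apply, Finsupp.mapDomain_of_notMem_range _ _ (by simp), add_zero,
            Finsupp.single_apply]
          by_cases hjj : j' = j
          · rw [hjj, if_pos rfl, hj1]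
          · rw [hj0 j' hjj, if_neg]
            intro h
            exact hjj (Sum.inr_injective h).symm
      have e2 : T0 β = 0 := by
        simp only [T0]
        rw [if_neg (fun h => hj (h j))]
      rw [e2, map_zero, zero_add, Finset.sum_eq_single j]
      · simp only [T, if_pos hj1, rename_monomial]
        rw [X, monomial_mul, one_mul, ← e1]
      · intro j' _ hne
        simp only [T]
        rw [if_neg (by rw [hj0 j' hne]; exact zero_ne_one), map_zero, mul_zero]
      · intro h; exact absurd (Finset.mem_univ _) h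

end

/-- polynomials of degree at most `D` in the first variables and linear in the others -/
theorem FreeT.lin_poly {k A : Type*} [Field k] [Field A] [Algebra k A] {D n r : ℕ}
    {L : Submodule k A} {f : Fin n → A}
    (H : FreeT D L (Submodule.span k {(1 : A)}) f)
    (h1L : (1 : A) ∈ L) (hfL : ∀ i, f i ∈ L) (y : Fin r → A) (hyL : ∀ j, y j ∈ L)
    (hy : ∀ (c0 : k) (b : Fin n → k) (c : Fin r → k),
      c0 • (1 : A) + ∑ i, b i • f i + ∑ j, c j • y j = 0 → ∀ j, c j = 0)
    (P : MvPolynomial (Fin n ⊕ Fin r) k) (hD : ∀ i, P.degreeOf (Sum.inl i) ≤ D)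
    (h1 : ∀ β ∈ P.support, ∑ j, β (Sum.inr j) ≤ 1)
    (h0 : aeval (Sum.elim f y) P = 0) : P = 0 := by
  obtain ⟨P0, Q, h2, h3, rfl⟩ := linear_split D P hD h1
  have h4 := H.lin_one h1L hfL y hyL hy P0 Q h2 h3 (by
    rw [← h0, map_add, map_sum, aeval_rename]
    congr 1
    refine Finset.sum_congr rfl fun j _ => ?_
    rw [map_mul, aeval_X, aeval_rename, Sum.elim_inr]
    rfl)
  rw [h4.1]
  simp only [h4.2, map_zero, mul_zero, Finset.sum_const_zero, add_zero]

end Pool.Agent.R350
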