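import Pool.Agent.R350.GH

/-!
# Logarithms: relations of bounded degree in generic logarithms and linear in arbitrary logarithms
-/

set_option autoImplicit false

namespace Pool.Agent.R350

open Module Finset MvPolynomial Pool.Agent.W245.PB Pool.Agent.TH681.QC
open Pool.Agent.H301R2.SSE (QB mem_QB Lt Lt_log Lt_one)
open Pool.Agent.W254.PA (LtE logs)

theorem indep_inhom_complex {n r : ℕ} (f : Fin n → ℂ) (l : Fin r → ℂ)
    (hf : ∀ i, IsAlgebraic ℚ (Complex.exp (f i))) (hl : ∀ j, IsAlgebraic ℚ (Complex.exp (l j)))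
    (hli : LinearIndependent ℚ (Sum.elim f l)) (c0 : algebraicClosure ℚ ℂ)
    (b : Fin n → algebraicClosure ℚ ℂ) (c : Fin r → algebraicClosure ℚ ℂ)
    (h0 : c0 • (1 : ℂ) + ∑ i, b i • f i + ∑ j, c j • l j = 0) :
    c0 = 0 ∧ (∀ i, b i = 0) ∧ ∀ j, c j = 0 := by
  have h1 := Pool.Agent.H297R2.baker_inhom (ι := Fin n ⊕ Fin r) (Sum.elim f l) (by
    rintro (i | j)
    · exact hf i
    · exact hl j) hli (c0 : ℂ) ((mem_algebraicClosure_iff).1 c0.2)
    (fun s => (Sum.elim b c s : algebraicClosure ℚ ℂ))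
    (fun s => (mem_algebraicClosure_iff).1 (Sum.elim b c s).2) (by
      rw [← h0, Fintype.sum_sum_type]
      simp only [Sum.elim_inl, Sum.elim_inr, Algebra.smul_def]
      have : ∀ a : algebraicClosure ℚ ℂ, algebraMap (algebraicClosure ℚ ℂ) ℂ a = (a : ℂ) :=
        fun a => rfl
      simp only [this]
      ring)
  refine ⟨by exact_mod_cast h1.1, fun i => ?_, fun j => ?_⟩
  · have := h1.2 (Sum.inl i)
    rw [Sum.elim_inl] at this
    exact_mod_cast this
  · have := h1.2 (Sum.inr j)
    rw [Sum.elim_inr] at this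
    exact_mod_cast this

theorem indep_inhom_padic {p : ℕ} [Fact p.Prime] {L : PadicAlgCl p → PadicAlgCl p}
    (hL : IsIwasawaLog p L) {n r : ℕ} (f : Fin n → PadicAlgCl p) (l : Fin r → PadicAlgCl p)
    (hf : ∀ i, ∃ α, α ≠ 0 ∧ IsAlgebraic ℚ α ∧ f i = L α)
    (hl : ∀ j, ∃ α, α ≠ 0 ∧ IsAlgebraic ℚ α ∧ l j = L α)
    (hli : LinearIndependent ℚ (Sum.elim f l)) (c0 : algebraicClosure ℚ (PadicAlgCl p))
    (b : Fin n → algebraicClosure ℚ (PadicAlgCl p)) (c : Fin r → algebraicClosure ℚ (PadicAlgCl p))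
    (h0 : c0 • (1 : PadicAlgCl p) + ∑ i, b i • f i + ∑ j, c j • l j = 0) :
    c0 = 0 ∧ (∀ i, b i = 0) ∧ ∀ j, c j = 0 := by
  choose α hα1 hα2 hα3 using hf
  choose β hβ1 hβ2 hβ3 using hl
  have he : Sum.elim f l = fun s => L (Sum.elim α β s) := by
    funext s
    rcases s with i | j
    · exact hα3 i
    · exact hβ3 j
  rw [he] at hli
  have h1 := brumer hL (ι := Fin n ⊕ Fin r) (Sum.elim α β) (by
    rintro (i | j)
    · exact hα1 i
    · exact hβ1 j) (by
    rintro (i | j)
    · exact hα2 i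
    · exact hβ2 j) hli (c0 : PadicAlgCl p) ((mem_algebraicClosure_iff).1 c0.2)
    (fun s => (Sum.elim b c s : algebraicClosure ℚ (PadicAlgCl p)))
    (fun s => (mem_algebraicClosure_iff).1 (Sum.elim b c s).2) (by
      rw [← h0, Fintype.sum_sum_type]
      simp only [Sum.elim_inl, Sum.elim_inr, Algebra.smul_def, ← hα3, ← hβ3]
      have : ∀ a : algebraicClosure ℚ (PadicAlgCl p),
          algebraMap (algebraicClosure ℚ (PadicAlgCl p)) (PadicAlgCl p) a = (a : PadicAlgCl p) :=
        fun a => rfl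
      simp only [this]
      ring)
  refine ⟨by exact_mod_cast h1.1, fun i => ?_, fun j => ?_⟩
  · have := h1.2 (Sum.inl i)
    rw [Sum.elim_inl] at this
    exact_mod_cast this
  · have := h1.2 (Sum.inr j)
    rw [Sum.elim_inr] at this
    exact_mod_cast this

/-- the members of a free tuple are linearly independent over `ℚ` -/
theorem FreeT.indepQ {κ C : Type} [Field κ] [CharZero κ] [Field C] [CharZero C] [Algebra κ C]
    {D n : ℕ} {L : Submodule κ C} {f : Fin n → C}
    (H : FreeT (D + 1) L (Submodule.span κ {(1 : C)}) f) : LinearIndependent ℚ f := by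
  classical
  rw [Fintype.linearIndependent_iff]
  intro c hc i
  have h1 := H.indep (∑ i, MvPolynomial.C (c i : C) * X i) (by
    intro i
    refine (degreeOf_sum_le _ _ _).trans ?_
    rw [Finset.sup_le_iff]
    intro j _
    refine (degreeOf_C_mul_le _ _ _).trans ?_
    rw [degreeOf_X]
    split_ifs <;> omega) (by
    intro β
    rw [coeff_sum]
    refine Submodule.sum_mem _ fun j _ => ?_
    rw [coeff_C_mul, coeff_X]
    split_ifs
    · rw [mul_one]
      have : (c j : C) = (c j : κ) • (1 : C) := by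
        rw [Algebra.smul_def, mul_one, map_ratCast]
      rw [this]
      exact Submodule.smul_mem _ _ (Submodule.mem_span_singleton_self _)
    · rw [mul_zero]; exact Submodule.zero_mem _) (by
    rw [map_sum, ← hc]
    refine Finset.sum_congr rfl fun j _ => ?_
    rw [map_mul, eval_C, eval_X, Rat.smul_def])
  have h2 := congrArg (coeff (Finsupp.single i 1)) h1
  rw [coeff_zero, coeff_sum, Finset.sum_eq_single i] at h2
  · rw [coeff_C_mul, coeff_X, if_pos rfl, mul_one] at h2
    exact_mod_cast h2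
  · intro j _ hj
    rw [coeff_C_mul, coeff_X, if_neg, mul_zero]
    intro h
    exact hj (Finsupp.single_left_injective one_ne_zero h)
  · intro h; exact absurd (Finset.mem_univ _) h

theorem finrank_span_one (κ C : Type) [Field κ] [Field C] [Algebra κ C] :
    finrank κ (Submodule.span κ {(1 : C)}) ≤ 1 := by
  have := finrank_span_finset_le_card (R := κ) ({1} : Finset C)
  rwa [Finset.coe_singleton, Finset.card_singleton] at this

/-- the complex case -/
theorem rate_free_complex (D n : ℕ) : ∃ c : ℕ, ∀ x ≥ 16, ∀ B : Finset (Fin n → ℕ),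
    B ⊆ Fintype.piFinset (fun _ : Fin n => Ioc 0 x) →
    (∀ a ∈ B, ¬ FreeT D Lt (Submodule.span (algebraicClosure ℚ ℂ) {(1 : ℂ)})
      (fun i => (Real.log (a i) : ℂ))) → (B.card : ℝ) ≤ er c x * x ^ n := by
  obtain ⟨c, hc⟩ := freeT_rate D n 1 0
  refine ⟨c, fun x hx B h3 h4 => hc x hx (algebraicClosure ℚ ℂ) ℂ _ _ setup_complex
    (Submodule.span (algebraicClosure ℚ ℂ) {(1 : ℂ)})
    (FiniteDimensional.span_of_finite _ (Set.finite_singleton _))
    (Submodule.mem_span_singleton_self _) (finrank_span_one _ _) B h3 h4⟩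

/-- the `p`-adic case -/
theorem rate_free_padic (D n : ℕ) : ∃ c : ℕ, ∀ x ≥ 16, ∀ (p : ℕ) [Fact p.Prime]
    (L : PadicAlgCl p → PadicAlgCl p), IsIwasawaLog p L → ∀ B : Finset (Fin n → ℕ),
    B ⊆ Fintype.piFinset (fun _ : Fin n => Ioc 0 x) →
    (∀ a ∈ B, ¬ FreeT D (LtE (logs L))
      (Submodule.span (algebraicClosure ℚ (PadicAlgCl p)) {(1 : PadicAlgCl p)})
      (fun i => L (a i : PadicAlgCl p))) → (B.card : ℝ) ≤ er c x * x ^ n := by
  obtain ⟨c, hc⟩ := freeT_rate D n 1 0
  refine ⟨c, fun x hx p _ L hL B h3 h4 => hc x hx (algebraicClosure ℚ (PadicAlgCl p))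
    (PadicAlgCl p) _ _ (setup_padic hL)
    (Submodule.span (algebraicClosure ℚ (PadicAlgCl p)) {(1 : PadicAlgCl p)})
    (FiniteDimensional.span_of_finite _ (Set.finite_singleton _))
    (Submodule.mem_span_singleton_self _) (finrank_span_one _ _) B h3 h4⟩

end Pool.Agent.R350
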