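import Pool.Agent.R350.GI

/-!
# Singular matrices with all rows but one generic
-/

set_option autoImplicit false

namespace Pool.Agent.R350

open Module Finset

/-- a basis adapted to an independent family -/
theorem exists_adapted {K V ι : Type*} [Field K] [AddCommGroup V] [Module K V] [Finite ι] {n : ℕ}
    (f : Fin n → V) (hf : LinearIndependent K f) (y : ι → V) :
    ∃ (r : ℕ) (g : Fin r → V), (∀ u, g u ∈ Submodule.span K (Set.range y)) ∧
      LinearIndependent K (Sum.elim f g) ∧
      ∀ j, ∃ (s : Fin n → K) (t : Fin r → K), y j = ∑ i, s i • f i + ∑ u, t u • g u := by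
  classical
  let F : Submodule K V := Submodule.span K (Set.range f)
  let W : Submodule K (V ⧸ F) := (Submodule.span K (Set.range y)).map F.mkQ
  have hYf : FiniteDimensional K (Submodule.span K (Set.range y)) :=
    FiniteDimensional.span_of_finite K (Set.finite_range _)
  have hWf : FiniteDimensional K W := by
    change FiniteDimensional K ((Submodule.span K (Set.range y)).map F.mkQ : Submodule K (V ⧸ F))
    infer_instance
  let b := Module.finBasis K W
  have hb : ∀ u, ∃ g ∈ Submodule.span K (Set.range y), F.mkQ g = (b u : W) := fun u =>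
    (b u : W).2
  choose g hg1 hg2 using hb
  refine ⟨finrank K W, g, hg1, ?_, fun j => ?_⟩
  · rw [Fintype.linearIndependent_iff]
    intro c hc
    rw [Fintype.sum_sum_type] at hc
    simp only [Sum.elim_inl, Sum.elim_inr] at hc
    have h1 : ∑ i, c (Sum.inl i) • f i ∈ F :=
      Submodule.sum_mem _ fun i _ => F.smul_mem _ (Submodule.subset_span ⟨i, rfl⟩)
    have h2 : ∑ u, c (Sum.inr u) • (b u : W) = 0 := by
      apply Subtype.ext
      rw [Submodule.coe_sum, Submodule.coe_zero]
      have h3 := congrArg F.mkQ hc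
      rw [map_add, map_zero, (Submodule.mkQ_apply F _), (Submodule.Quotient.mk_eq_zero F).2 h1,
        zero_add, map_sum] at h3
      rw [← h3]
      refine Finset.sum_congr rfl fun u _ => ?_
      rw [Submodule.coe_smul, map_smul, hg2]
    have h3 := Fintype.linearIndependent_iff.1 b.linearIndependent _ h2
    have h4 : ∑ i, c (Sum.inl i) • f i = 0 := by
      rw [← hc, Finset.sum_eq_zero (s := Finset.univ) (f := fun u => c (Sum.inr u) • g u)
        (fun u _ => by rw [h3 u, zero_smul]), add_zero]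
    have h5 := Fintype.linearIndependent_iff.1 hf _ h4
    rintro (i | u)
    · exact h5 i
    · exact h3 u
  · have h1 : F.mkQ (y j) ∈ W := Submodule.mem_map_of_mem (Submodule.subset_span ⟨j, rfl⟩)
    have h2 := b.sum_repr ⟨F.mkQ (y j), h1⟩
    have h3 := congrArg (fun z : W => (z : V ⧸ F)) h2
    simp only [Submodule.coe_sum, Submodule.coe_smul] at h3
    have h4 : y j - ∑ u, b.repr ⟨F.mkQ (y j), h1⟩ u • g u ∈ F := by
      rw [← Submodule.Quotient.mk_eq_zero, ← Submodule.mkQ_apply, map_sub, map_sum,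
        sub_eq_zero]
      refine h3.symm.trans (Finset.sum_congr rfl fun u _ => ?_)
      rw [map_smul, hg2]
    obtain ⟨s, hs⟩ := (Submodule.mem_span_range_iff_exists_fun K).1 h4
    exact ⟨s, fun u => b.repr ⟨F.mkQ (y j), h1⟩ u, by rw [hs, sub_add_cancel]⟩

/-- independence is an open condition -/
theorem exists_indep_perturb {n r : ℕ} (z z' : Fin r → (Fin n → ℚ)) (hz : LinearIndependent ℚ z) :
    ∃ t : ℚ, t ≠ 0 ∧ LinearIndependent ℚ (fun a => z a + t • z' a) := by
  classical
  obtain ⟨G, hG⟩ : ∃ G : (Fin n → ℚ) →ₗ[ℚ] (Fin r → ℚ), ∀ a, G (z a) = Pi.single a 1 := by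
    obtain ⟨g, hg⟩ := LinearMap.exists_extend
      ((Finsupp.linearEquivFunOnFinite ℚ ℚ (Fin r)).toLinearMap ∘ₗ hz.repr)
    refine ⟨g, fun a => ?_⟩
    have hmem : z a ∈ Submodule.span ℚ (Set.range z) := Submodule.subset_span ⟨a, rfl⟩
    have h1 := LinearMap.congr_fun hg ⟨z a, hmem⟩
    rw [LinearMap.comp_apply, Submodule.subtype_apply] at h1
    rw [h1, LinearMap.comp_apply, hz.repr_eq_single a _ rfl, LinearEquiv.coe_coe,
      Finsupp.linearEquivFunOnFinite_single]
  let H1 : Matrix (Fin r) (Fin r) ℚ := Matrix.of fun a b => G (z' b) a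
  let p : Polynomial ℚ := (1 + (Polynomial.X : Polynomial ℚ) • H1.map Polynomial.C).det
  have hp : ∀ t, p.eval t = (1 + t • H1).det := by
    intro t
    have h1 := RingHom.map_det (Polynomial.evalRingHom t)
      (1 + (Polynomial.X : Polynomial ℚ) • H1.map Polynomial.C)
    simp only [Polynomial.coe_evalRingHom] at h1
    simp only [p]
    rw [h1]
    congr 1
    ext a b
    simp [Matrix.one_apply, apply_ite]
    ring
  have hp0 : p ≠ 0 := by
    intro h
    have := hp 0
    rw [h, Polynomial.eval_zero, zero_smul, add_zero, Matrix.det_one] at this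
    exact zero_ne_one this
  obtain ⟨t, ht⟩ : ∃ t : ℚ, (p * Polynomial.X).eval t ≠ 0 := by
    by_contra hno
    push Not at hno
    have : p * Polynomial.X = 0 := Polynomial.funext (fun t => by rw [hno t, Polynomial.eval_zero])
    exact hp0 ((mul_eq_zero.1 this).resolve_right Polynomial.X_ne_zero)
  rw [Polynomial.eval_mul, Polynomial.eval_X] at ht
  refine ⟨t, right_ne_zero_of_mul ht, ?_⟩
  have hdet : (1 + t • H1).det ≠ 0 := by
    rw [← hp]
    exact left_ne_zero_of_mul ht
  rw [Fintype.linearIndependent_iff]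
  intro c hc
  have h1 : (1 + t • H1).mulVec c = 0 := by
    have h2 := congrArg G hc
    rw [map_sum, map_zero] at h2
    rw [← h2]
    funext a
    rw [Matrix.mulVec, dotProduct, Finset.sum_apply]
    refine Finset.sum_congr rfl fun b _ => ?_
    rw [map_smul, map_add, map_smul, hG, Pi.smul_apply, Pi.add_apply, Pi.smul_apply,
      Matrix.add_apply, Matrix.smul_apply, Matrix.one_apply, Pi.single_apply]
    simp only [H1, Matrix.of_apply, smul_eq_mul]
    ring
  have h2 : c = 0 := by
    by_contra hne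
    exact hdet (Matrix.exists_mulVec_eq_zero_iff.1 ⟨c, hne, h1⟩)
  exact fun i => congrFun h2 i

/-- **Spaces of singular matrices.** -/
theorem singular_space {ι : Type*} [Fintype ι] {n : ℕ} (hn : 0 < n)
    (B : ι → Matrix (Fin n) (Fin n) ℚ) (h : ∀ c : ι → ℚ, (∑ i, c i • B i).det = 0) :
    ∃ w v : Fin n → ℚ, w ≠ 0 ∧ v ≠ 0 ∧ ∀ i, w ⬝ᵥ (B i).mulVec v = 0 := by
  classical
  have hne : Nonempty (Fin n) := ⟨⟨0, hn⟩⟩
  -- a matrix of maximal rank
  let rk : (ι → ℚ) → ℕ := fun c => finrank ℚ (LinearMap.range (∑ i, c i • B i).mulVecLin)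
  have hrk : ∀ c, rk c ≤ n := fun c => by
    have := Submodule.finrank_le (LinearMap.range (∑ i, c i • B i).mulVecLin)
    rwa [Module.finrank_fin_fun] at this
  obtain ⟨c0, hc0⟩ : ∃ c0, ∀ c, rk c ≤ rk c0 := by
    have hbdd : BddAbove (Set.range rk) := ⟨n, by rintro _ ⟨c, rfl⟩; exact hrk c⟩
    obtain ⟨c0, h0⟩ := Nat.sSup_mem (Set.range_nonempty rk) hbdd
    exact ⟨c0, fun c => by rw [h0]; exact le_csSup hbdd ⟨c, rfl⟩⟩
  set A0 := ∑ i, c0 i • B i with hA0
  obtain ⟨v, hv, hv0⟩ := Matrix.exists_mulVec_eq_zero_iff.2 (h c0)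
  obtain ⟨w, hw, hw0⟩ := Matrix.exists_vecMul_eq_zero_iff.2 (h c0)
  refine ⟨w, v, hw, hv, fun i => ?_⟩
  by_contra hne
  -- the vectors
  let b := Module.finBasis ℚ (LinearMap.range A0.mulVecLin)
  have hb : ∀ a, ∃ u, A0.mulVec u = (b a : LinearMap.range A0.mulVecLin) := fun a => (b a).2
  choose u hu using hb
  let z : Fin (rk c0 + 1) → (Fin n → ℚ) := Fin.snoc (fun a => A0.mulVec (u a)) ((B i).mulVec v)
  let z' : Fin (rk c0 + 1) → (Fin n → ℚ) := Fin.snoc (fun a => (B i).mulVec (u a)) 0
  have hz : LinearIndependent ℚ z := by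
    rw [Fintype.linearIndependent_iff]
    intro c hc
    rw [Fin.sum_univ_castSucc] at hc
    simp only [z, Fin.snoc_castSucc, Fin.snoc_last] at hc
    have h1 : c (Fin.last _) = 0 := by
      have h2 := congrArg (fun x => w ⬝ᵥ x) hc
      simp only [dotProduct_add, dotProduct_sum, dotProduct_smul, dotProduct_zero,
        Matrix.dotProduct_mulVec] at h2
      rw [hw0] at h2
      simp only [zero_dotProduct, smul_zero, Finset.sum_const_zero, zero_add] at h2
      rw [← Matrix.dotProduct_mulVec, smul_eq_mul] at h2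
      exact (mul_eq_zero.1 h2).resolve_right hne
    rw [h1, zero_smul, add_zero] at hc
    have h3 : ∑ a, c (Fin.castSucc a) • b a = 0 := by
      apply Subtype.ext
      rw [Submodule.coe_sum, Submodule.coe_zero, ← hc]
      refine Finset.sum_congr rfl fun a _ => ?_
      rw [Submodule.coe_smul, hu]
    have h4 := Fintype.linearIndependent_iff.1 b.linearIndependent _ h3
    intro a
    refine Fin.lastCases h1 (fun a => ?_) a
    exact h4 a
  obtain ⟨t, ht0, ht⟩ := exists_indep_perturb z z' hz
  -- contradiction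
  let c1 : ι → ℚ := fun i' => c0 i' + if i' = i then t else 0
  have hA1 : ∑ i', c1 i' • B i' = A0 + t • B i := by
    simp only [c1, add_smul, Finset.sum_add_distrib, ite_smul, zero_smul]
    rw [Finset.sum_ite_eq', if_pos (Finset.mem_univ _)]
  have hmem : ∀ a, z a + t • z' a ∈ LinearMap.range (∑ i', c1 i' • B i').mulVecLin := by
    intro a
    rw [hA1]
    refine Fin.lastCases ?_ (fun a => ?_) a
    · refine ⟨t⁻¹ • v, ?_⟩
      simp only [z, z', Fin.snoc_last]
      rw [Matrix.mulVecLin_apply, Matrix.mulVec_smul, Matrix.add_mulVec, hv0, zero_add,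
        Matrix.smul_mulVec, smul_smul, inv_mul_cancel₀ ht0, one_smul, smul_zero, add_zero]
    · refine ⟨u a, ?_⟩
      simp only [z, z', Fin.snoc_castSucc]
      rw [Matrix.mulVecLin_apply, Matrix.add_mulVec, Matrix.smul_mulVec]
  have h5 : rk c0 + 1 ≤ rk c1 := by
    have h6 : LinearIndependent ℚ (fun a => (⟨z a + t • z' a, hmem a⟩ :
        LinearMap.range (∑ i', c1 i' • B i').mulVecLin)) := by
      apply LinearIndependent.of_comp (Submodule.subtype _)
      exact ht
    have h7 := h6.fintype_card_le_finrank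
    rwa [Fintype.card_fin] at h7
  have := hc0 c1
  omega

end Pool.Agent.R350
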