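import Pool.Agent.R350.GJ

/-!
# Singular matrices with all rows but one generic
-/

set_option autoImplicit false

namespace Pool.Agent.R350

open Module Finset MvPolynomial

section

variable {n k : ℕ} (S : Fin n → Fin n → Fin k → ℚ) (i0 : Fin n)

/-- the matrix with prescribed row `i0` -/
def rowMat {B : Type*} [CommRing B] [Algebra ℚ B] (ξ : Fin k → B) (y : Fin n → B) :
    Matrix (Fin n) (Fin n) B :=
  Matrix.of fun i j => if i = i0 then y j else ∑ l, S i j l • ξ l

/-- the minors -/
noncomputable def rowMinor (j : Fin n) : MvPolynomial (Fin k) ℚ :=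
  (rowMat S i0 X (Pi.single j 1)).det

theorem det_rowMat {B : Type*} [CommRing B] [Algebra ℚ B] (ξ : Fin k → B) (y : Fin n → B) :
    (rowMat S i0 ξ y).det = ∑ j, y j * aeval ξ (rowMinor S i0 j) := by
  classical
  rw [Matrix.det_eq_sum_mul_adjugate_row _ i0]
  refine Finset.sum_congr rfl fun j _ => ?_
  have h1 : rowMat S i0 ξ y i0 j = y j := by simp [rowMat]
  rw [h1, Matrix.adjugate_apply, rowMinor, AlgHom.map_det]
  congr 2
  ext i j'
  rw [AlgHom.mapMatrix_apply, Matrix.map_apply]
  by_cases hi : i = i0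
  · rw [hi, Matrix.updateRow_self]
    simp only [rowMat, Matrix.of_apply, if_true]
    by_cases hj : j' = j
    · rw [hj, Pi.single_eq_same, Pi.single_eq_same, map_one]
    · rw [Pi.single_eq_of_ne hj, Pi.single_eq_of_ne hj, map_zero]
  · rw [Matrix.updateRow_ne hi]
    simp only [rowMat, Matrix.of_apply, hi, if_false, map_sum, map_smul, aeval_X]

theorem degreeOf_det_le {m : ℕ} (A : Matrix (Fin m) (Fin m) (MvPolynomial (Fin k) ℚ)) (l : Fin k)
    (h : ∀ i j, (A i j).degreeOf l ≤ 1) : A.det.degreeOf l ≤ m := by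
  classical
  rw [Matrix.det_apply]
  refine (degreeOf_sum_le _ _ _).trans ?_
  rw [Finset.sup_le_iff]
  intro σ _
  have h1 : ((Equiv.Perm.sign σ) • ∏ i, A (σ i) i).degreeOf l ≤ (∏ i, A (σ i) i).degreeOf l := by
    rcases Int.units_eq_one_or (Equiv.Perm.sign σ) with h | h
    · rw [h, one_smul]
    · rw [h, Units.neg_smul, one_smul]
      exact le_of_eq (degreeOf_neg _ _)
  refine h1.trans ((degreeOf_prod_le _ _ _).trans ?_)
  refine (Finset.sum_le_card_nsmul _ _ 1 (fun i _ => h _ _)).trans ?_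
  simp

theorem degreeOf_rowMinor (j : Fin n) (l : Fin k) : (rowMinor S i0 j).degreeOf l ≤ n := by
  classical
  refine degreeOf_det_le _ l fun i j' => ?_
  simp only [rowMat, Matrix.of_apply]
  split_ifs with h
  · by_cases hj : j' = j
    · rw [hj, Pi.single_eq_same, degreeOf_one]; omega
    · rw [Pi.single_eq_of_ne hj, degreeOf_zero]; omega
  · refine (degreeOf_sum_le _ _ _).trans ?_
    rw [Finset.sup_le_iff]
    intro l' _
    rw [MvPolynomial.smul_eq_C_mul]
    refine (degreeOf_C_mul_le _ _ _).trans ?_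
    rw [degreeOf_X]
    split_ifs <;> omega

end

/-- **Singular matrices with all rows but one in the space generated by a free tuple.** -/
theorem rows_zero {κ C : Type} [Field κ] [CharZero κ] [Field C] [CharZero C] [Algebra κ C]
    {L : Submodule κ C} (Λ : Submodule ℚ C) (hΛL : ∀ z ∈ Λ, z ∈ L) (h1L : (1 : C) ∈ L)
    {k D n : ℕ} (hnD : n + 1 ≤ D) (f : Fin k → C) (hf : ∀ i, f i ∈ Λ)
    (hB : ∀ (r : ℕ) (g : Fin r → C), (∀ j, g j ∈ Λ) →
      LinearIndependent ℚ (Sum.elim f g) → ∀ (c0 : κ) (b : Fin k → κ) (c : Fin r → κ),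
      c0 • (1 : C) + ∑ i, b i • f i + ∑ j, c j • g j = 0 → ∀ j, c j = 0)
    (H : FreeT D L (Submodule.span κ {(1 : C)}) f) (hfQ : LinearIndependent ℚ f)
    (M : Matrix (Fin n) (Fin n) C) (hM : ∀ i j, M i j ∈ Λ) (i0 : Fin n)
    (hrow : ∀ i, i ≠ i0 → ∀ j, M i j ∈ Submodule.span ℚ (Set.range f)) (hdet : M.det = 0) :
    ∃ w v : Fin n → ℚ, w ≠ 0 ∧ v ≠ 0 ∧ ∑ i, ∑ j, (w i : C) * M i j * (v j : C) = 0 := by
  classical
  obtain ⟨r, g, hg, hli, hy⟩ := exists_adapted f hfQ (fun j => M i0 j)
  have hgΛ : ∀ u, g u ∈ Λ := by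
    intro u
    have h1 : Submodule.span ℚ (Set.range fun j => M i0 j) ≤ Λ := by
      rw [Submodule.span_le]
      rintro _ ⟨j, rfl⟩
      exact hM i0 j
    exact h1 (hg u)
  have hST : ∀ i j, ∃ (s : Fin k → ℚ) (t : Fin r → ℚ),
      M i j = ∑ l, s l • f l + ∑ u, t u • g u ∧ (i ≠ i0 → t = 0) := by
    intro i j
    by_cases hi : i = i0
    · obtain ⟨s, t, h⟩ := hy j
      exact ⟨s, t, by rw [hi]; exact h, fun h => absurd hi h⟩
    · obtain ⟨s, hs⟩ := (Submodule.mem_span_range_iff_exists_fun ℚ).1 (hrow i hi j)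
      exact ⟨s, 0, by rw [hs]; simp, fun _ => rfl⟩
  choose S T hMS hT0 using hST
  have hinj : Function.Injective (MvPolynomial.map (σ := Fin k) (algebraMap ℚ κ)) :=
    MvPolynomial.map_injective _ (algebraMap ℚ κ).injective
  have hdeg : ∀ (Q : MvPolynomial (Fin k) ℚ) i, (MvPolynomial.map (algebraMap ℚ κ) Q).degreeOf i ≤
      Q.degreeOf i := by
    intro Q i
    rw [degreeOf_le_iff]
    intro β hβ
    exact (degreeOf_le_iff.1 le_rfl) β (MvPolynomial.support_map_subset _ _ hβ)
  let P0 : MvPolynomial (Fin k) ℚ := ∑ j, (∑ l, MvPolynomial.C (S i0 j l) * X l) *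
    rowMinor S i0 j
  let P : Fin r → MvPolynomial (Fin k) ℚ := fun u => ∑ j, MvPolynomial.C (T i0 j u) *
    rowMinor S i0 j
  have hP0D : ∀ i, P0.degreeOf i ≤ D := by
    intro i
    refine (degreeOf_sum_le _ _ _).trans ?_
    rw [Finset.sup_le_iff]
    intro j _
    refine (degreeOf_mul_le _ _ _).trans ?_
    have h1 : (∑ l, MvPolynomial.C (S i0 j l) * X l).degreeOf i ≤ 1 := by
      refine (degreeOf_sum_le _ _ _).trans ?_
      rw [Finset.sup_le_iff]
      intro l _
      refine (degreeOf_C_mul_le _ _ _).trans ?_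
      rw [degreeOf_X]
      split_ifs <;> omega
    have h2 := degreeOf_rowMinor S i0 j i
    omega
  have hPD : ∀ u i, (P u).degreeOf i ≤ D := by
    intro u i
    refine (degreeOf_sum_le _ _ _).trans ?_
    rw [Finset.sup_le_iff]
    intro j _
    refine (degreeOf_C_mul_le _ _ _).trans ?_
    have h2 := degreeOf_rowMinor S i0 j i
    omega
  -- evaluation of the determinants
  have heval : ∀ {B : Type} [CommRing B] [Algebra ℚ B] (ξ : Fin k → B) (ζ : Fin r → B),
      (rowMat S i0 ξ (fun j => ∑ l, S i0 j l • ξ l + ∑ u, T i0 j u • ζ u)).det =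
      aeval ξ P0 + ∑ u, ζ u * aeval ξ (P u) := by
    intro B _ _ ξ ζ
    rw [det_rowMat]
    simp only [P0, P, map_sum, map_mul, aeval_X, aeval_C, Finset.sum_mul, Finset.mul_sum,
      add_mul, Finset.sum_add_distrib]
    congr 1
    · refine Finset.sum_congr rfl fun j _ => Finset.sum_congr rfl fun l _ => ?_
      rw [Algebra.smul_def]
    · rw [Finset.sum_comm]
      refine Finset.sum_congr rfl fun u _ => Finset.sum_congr rfl fun j _ => ?_
      rw [Algebra.smul_def]
      ring
  have hMrow : M = rowMat S i0 f (fun j => ∑ l, S i0 j l • f l + ∑ u, T i0 j u • g u) := by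
    ext i j
    simp only [rowMat, Matrix.of_apply]
    by_cases hi : i = i0
    · rw [if_pos hi, hi]
      exact hMS i0 j
    · rw [if_neg hi, hMS i j, hT0 i j hi]
      simp
  have h0 : aeval f P0 + ∑ u, g u * aeval f (P u) = 0 := by
    rw [← heval f g, ← hMrow]
    exact hdet
  obtain ⟨hP0, hP⟩ := H.lin_one h1L (fun i => hΛL _ (hf i)) g (fun u => hΛL _ (hgΛ u))
    (hB r g hgΛ hli) (MvPolynomial.map (algebraMap ℚ κ) P0)
    (fun u => MvPolynomial.map (algebraMap ℚ κ) (P u)) (fun i => (hdeg _ i).trans (hP0D i))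
    (fun u i => (hdeg _ i).trans (hPD u i)) (by
      simp only [aeval_map_algebraMap]
      exact h0)
  have hP0' : P0 = 0 := hinj (by rw [hP0, map_zero])
  have hP' : ∀ u, P u = 0 := fun u => hinj (by rw [hP u, map_zero])
  -- the space of singular matrices
  obtain ⟨w, v, hw, hv, hwv⟩ := singular_space (n := n) (Fin.pos i0)
    (Sum.elim (fun l => Matrix.of fun i j => S i j l) (fun u => Matrix.of fun i j => T i j u) :
      Fin k ⊕ Fin r → Matrix (Fin n) (Fin n) ℚ) (by
      intro c
      have h1 : ∑ s, c s • (Sum.elim (fun l => Matrix.of fun i j => S i j l)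
          (fun u => Matrix.of fun i j => T i j u) : Fin k ⊕ Fin r → Matrix (Fin n) (Fin n) ℚ) s =
          rowMat S i0 (fun l => c (Sum.inl l)) (fun j => ∑ l, S i0 j l • c (Sum.inl l) +
            ∑ u, T i0 j u • c (Sum.inr u)) := by
        ext i j
        rw [Fintype.sum_sum_type, Matrix.add_apply, Matrix.sum_apply, Matrix.sum_apply]
        simp only [Sum.elim_inl, Sum.elim_inr, Matrix.smul_apply, Matrix.of_apply, rowMat,
          smul_eq_mul]
        by_cases hi : i = i0
        · rw [if_pos hi, hi]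
          congr 1
          · exact Finset.sum_congr rfl fun l _ => mul_comm _ _
          · exact Finset.sum_congr rfl fun l _ => mul_comm _ _
        · rw [if_neg hi, hT0 i j hi]
          simp only [Pi.zero_apply, mul_zero, Finset.sum_const_zero, add_zero]
          exact Finset.sum_congr rfl fun l _ => mul_comm _ _
      rw [h1, heval, hP0', map_zero, zero_add]
      exact Finset.sum_eq_zero fun u _ => by rw [hP' u, map_zero, mul_zero])
  refine ⟨w, v, hw, hv, ?_⟩
  have h2 : ∀ l, ∑ i, ∑ j, (w i : C) * (S i j l : C) * (v j : C) = 0 := by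
    intro l
    have h3 := hwv (Sum.inl l)
    simp only [Sum.elim_inl, dotProduct, Matrix.mulVec, Matrix.of_apply] at h3
    have h4 := congrArg (fun q : ℚ => (q : C)) h3
    push_cast at h4
    rw [← h4]
    refine Finset.sum_congr rfl fun i _ => ?_
    rw [Finset.mul_sum]
    exact Finset.sum_congr rfl fun j _ => by ring
  have h2' : ∀ u, ∑ i, ∑ j, (w i : C) * (T i j u : C) * (v j : C) = 0 := by
    intro u
    have h3 := hwv (Sum.inr u)
    simp only [Sum.elim_inr, dotProduct, Matrix.mulVec, Matrix.of_apply] at h3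
    have h4 := congrArg (fun q : ℚ => (q : C)) h3
    push_cast at h4
    rw [← h4]
    refine Finset.sum_congr rfl fun i _ => ?_
    rw [Finset.mul_sum]
    exact Finset.sum_congr rfl fun j _ => by ring
  have h5 : ∑ i, ∑ j, (w i : C) * M i j * (v j : C) =
      ∑ l, f l * (∑ i, ∑ j, (w i : C) * (S i j l : C) * (v j : C)) +
      ∑ u, g u * (∑ i, ∑ j, (w i : C) * (T i j u : C) * (v j : C)) := by
    simp only [Finset.mul_sum]
    rw [Finset.sum_comm (s := (Finset.univ : Finset (Fin k))),
      Finset.sum_comm (s := (Finset.univ : Finset (Fin r))), ← Finset.sum_add_distrib]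
    refine Finset.sum_congr rfl fun i _ => ?_
    rw [Finset.sum_comm (s := (Finset.univ : Finset (Fin k))),
      Finset.sum_comm (s := (Finset.univ : Finset (Fin r))), ← Finset.sum_add_distrib]
    refine Finset.sum_congr rfl fun j _ => ?_
    rw [hMS i j, mul_add, add_mul, Finset.mul_sum, Finset.sum_mul, Finset.mul_sum, Finset.sum_mul]
    congr 1
    · refine Finset.sum_congr rfl fun l _ => ?_
      rw [Rat.smul_def]; ring
    · refine Finset.sum_congr rfl fun l _ => ?_
      rw [Rat.smul_def]; ring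
  rw [h5]
  simp only [h2, h2', mul_zero, Finset.sum_const_zero, add_zero]

/-- large matrices -/
theorem rows_zero_large {C : Type} [Field C] [CharZero C] {k n : ℕ} (hkn : k + 1 < n)
    (f : Fin k → C) (M : Matrix (Fin n) (Fin n) C) (i0 : Fin n)
    (hrow : ∀ i, i ≠ i0 → ∀ j, M i j ∈ Submodule.span ℚ (Set.range f)) :
    ∃ w v : Fin n → ℚ, w ≠ 0 ∧ v ≠ 0 ∧ ∑ i, ∑ j, (w i : C) * M i j * (v j : C) = 0 := by
  classical
  -- the column `i0`
  have hmem : ∀ i : {i // i ≠ i0}, M i i0 ∈ Submodule.span ℚ (Set.range f) := fun i =>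
    hrow i i.2 i0
  have hdep : ¬ LinearIndependent ℚ (fun i : {i // i ≠ i0} =>
      (⟨M i i0, hmem i⟩ : Submodule.span ℚ (Set.range f))) := by
    intro h
    have hf : FiniteDimensional ℚ (Submodule.span ℚ (Set.range f)) :=
      FiniteDimensional.span_of_finite ℚ (Set.finite_range _)
    have h1 := h.fintype_card_le_finrank
    have h2 := finrank_range_le_card (R := ℚ) f
    rw [Set.finrank, Fintype.card_fin] at h2
    have h3 : Fintype.card {i : Fin n // i ≠ i0} = n - 1 := by
      rw [Fintype.card_subtype_compl, Fintype.card_fin]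
      simp
    omega
  rw [Fintype.not_linearIndependent_iff] at hdep
  obtain ⟨c, hc, i1, hi1⟩ := hdep
  let w : Fin n → ℚ := fun i => if h : i ≠ i0 then c ⟨i, h⟩ else 0
  have hw : ∀ i : {i // i ≠ i0}, w i = c i := fun i => dif_pos i.2
  refine ⟨w, Pi.single i0 1, fun h => hi1 ?_, fun h => ?_, ?_⟩
  · rw [← hw, h, Pi.zero_apply]
  · have := congrFun h i0
    rw [Pi.single_eq_same, Pi.zero_apply] at this
    exact one_ne_zero this
  · have h1 := congrArg (fun z : Submodule.span ℚ (Set.range f) => (z : C)) hc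
    simp only [Submodule.coe_sum, Submodule.coe_smul, Submodule.coe_zero] at h1
    have h2 : ∀ i, ∑ j, (w i : C) * M i j * ((Pi.single i0 1 : Fin n → ℚ) j : C) =
        (w i : C) * M i i0 := by
      intro i
      rw [Finset.sum_eq_single i0]
      · rw [Pi.single_eq_same]; push_cast; ring
      · intro j _ hj
        rw [Pi.single_eq_of_ne hj]; push_cast; ring
      · intro h; exact absurd (Finset.mem_univ _) h
    simp only [h2]
    rw [← h1, ← Fintype.sum_subtype_add_sum_subtype (fun i => i ≠ i0)]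
    have h3 : ∑ i : {i // ¬ i ≠ i0}, (w i : C) * M i i0 = 0 := by
      refine Finset.sum_eq_zero fun i _ => ?_
      have : w i = 0 := dif_neg i.2
      rw [this]; push_cast; ring
    rw [h3, add_zero]
    refine Finset.sum_congr rfl fun i _ => ?_
    rw [hw, Rat.smul_def]

end Pool.Agent.R350
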