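import Pool.Agent.R350.GI
import Pool.Agent.H351R3.Sums.Box

/-!
# Random sums: free tuples up to a power saving exceptional set
-/

set_option autoImplicit false

namespace Pool.Agent.R350

open Module Finset

/-- The saving. -/
noncomputable def sav (R N : ℕ) : ℝ := (N : ℝ) ^ (-(1 / 2 ^ (R - 1)) : ℝ)

theorem sav_nonneg (R N : ℕ) : 0 ≤ sav R N := Real.rpow_nonneg (Nat.cast_nonneg N) _

/-- No box means a power saving. -/
theorem card_le_of_no_box {R N : ℕ} (hR : 1 ≤ R) (B : Finset (Fin R → Fin N))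
    (h : ¬ ∃ p q : Fin R → Fin N, (∀ j, p j ≠ q j) ∧
      ∀ S : Finset (Fin R), (fun j => if j ∈ S then q j else p j) ∈ B) :
    (B.card : ℝ) ≤ 2 * (N : ℝ) ^ R * sav R N := by
  obtain ⟨r, rfl⟩ : ∃ r, R = r + 1 := ⟨R - 1, by omega⟩
  rcases Nat.eq_zero_or_pos N with hN | hN
  · have hB : B.card = 0 := by
      rw [Finset.card_eq_zero, Finset.eq_empty_iff_forall_notMem]
      intro f _
      have := (f 0).2
      omega
    rw [hB]
    have := sav_nonneg (r + 1) N
    push_cast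
    positivity
  have hN' : (0 : ℝ) < N := by exact_mod_cast hN
  have h1 : ((B.card : ℝ) / (2 * (N : ℝ) ^ (r + 1))) ^ (2 ^ r) * N ≤ 1 := by
    by_contra hcon
    exact h (Pool.Agent.H351R3.Sums.box r N B (not_le.1 hcon))
  set β : ℝ := (B.card : ℝ) / (2 * (N : ℝ) ^ (r + 1)) with hβ
  have hβ0 : 0 ≤ β := by positivity
  have h2 : β ^ (2 ^ r) ≤ (N : ℝ)⁻¹ := by
    rw [← one_div, le_div_iff₀ hN']
    exact h1
  have h3 : β ≤ sav (r + 1) N := by
    have hm : (2 ^ r : ℕ) ≠ 0 := by positivity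
    have h4 : (β ^ (2 ^ r)) ^ (((2 ^ r : ℕ) : ℝ)⁻¹) = β := Real.pow_rpow_inv_natCast hβ0 hm
    have h5 : (β ^ (2 ^ r)) ^ (((2 ^ r : ℕ) : ℝ)⁻¹) ≤ ((N : ℝ)⁻¹) ^ (((2 ^ r : ℕ) : ℝ)⁻¹) :=
      Real.rpow_le_rpow (by positivity) h2 (by positivity)
    rw [h4] at h5
    refine h5.trans (le_of_eq ?_)
    rw [sav, Real.inv_rpow hN'.le, ← Real.rpow_neg hN'.le]
    congr 2
    rw [Nat.add_sub_cancel]
    push_cast
    rw [one_div]
  have h6 : (B.card : ℝ) = 2 * (N : ℝ) ^ (r + 1) * β := by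
    rw [hβ]; field_simp
  rw [h6]
  exact mul_le_mul_of_nonneg_left h3 (by positivity)

/-- counting by the first coordinate -/
theorem count_first {G : Type*} [Fintype G] [DecidableEq G] (n : ℕ)
    (bad : (Fin (n + 1) → G) → Prop) (A : Finset G) (α β : ℝ) (hA : (A.card : ℝ) ≤ α) (hβ : 0 ≤ β)
    (h : ∀ g, g ∉ A → ∀ B' : Finset (Fin n → G), (∀ m ∈ B', bad (Fin.cons g m)) →
      (B'.card : ℝ) ≤ β) (B : Finset (Fin (n + 1) → G)) (hB : ∀ f ∈ B, bad f) :
    (B.card : ℝ) ≤ α * (Fintype.card G : ℝ) ^ n + Fintype.card G * β := by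
  classical
  have hfib : B.card = ∑ g : G, (B.filter (fun f => f 0 = g)).card :=
    Finset.card_eq_sum_card_fiberwise (fun f _ => Finset.mem_univ _)
  have hle : ∀ g, (B.filter (fun f => f 0 = g)).card =
      ((B.filter (fun f => f 0 = g)).image Fin.tail).card := by
    intro g
    rw [Finset.card_image_of_injOn]
    intro n hn m hm h
    have hn' : n ∈ B.filter (fun f => f 0 = g) := hn
    have hm' : m ∈ B.filter (fun f => f 0 = g) := hm
    rw [Finset.mem_filter] at hn' hm'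
    rw [← Fin.cons_self_tail n, ← Fin.cons_self_tail m, hn'.2, hm'.2]
    have : Fin.tail n = Fin.tail m := h
    rw [this]
  have hbound : ∀ g, ((B.filter (fun f => f 0 = g)).card : ℝ) ≤
      (if g ∈ A then (Fintype.card G : ℝ) ^ n else 0) + β := by
    intro g
    rw [hle g]
    by_cases hg : g ∈ A
    · rw [if_pos hg]
      have h1 : ((B.filter (fun f => f 0 = g)).image Fin.tail).card ≤ Fintype.card G ^ n := by
        refine (Finset.card_le_univ _).trans ?_
        rw [Fintype.card_fun, Fintype.card_fin]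
      have h2 : (((B.filter (fun f => f 0 = g)).image Fin.tail).card : ℝ) ≤
          (Fintype.card G : ℝ) ^ n := by exact_mod_cast h1
      linarith
    · rw [if_neg hg, zero_add]
      apply h g hg
      intro m hm
      obtain ⟨f, hf, rfl⟩ := Finset.mem_image.1 hm
      rw [Finset.mem_filter] at hf
      have : (Fin.cons g (Fin.tail f) : Fin (n + 1) → G) = f := by
        rw [← hf.2]; exact Fin.cons_self_tail f
      rw [this]
      exact hB f hf.1
  calc (B.card : ℝ) = ∑ g : G, ((B.filter (fun f => f 0 = g)).card : ℝ) := by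
        rw [hfib]; push_cast; rfl
    _ ≤ ∑ g : G, ((if g ∈ A then (Fintype.card G : ℝ) ^ n else 0) + β) :=
        Finset.sum_le_sum fun g _ => hbound g
    _ = A.card * (Fintype.card G : ℝ) ^ n + Fintype.card G * β := by
        rw [Finset.sum_add_distrib, Finset.sum_ite_mem, Finset.univ_inter, Finset.sum_const,
          Finset.sum_const, Finset.card_univ, nsmul_eq_mul, nsmul_eq_mul]
    _ ≤ α * (Fintype.card G : ℝ) ^ n + Fintype.card G * β := by gcongr

/-- generic members of larger families -/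
theorem PD_ge (D m v : ℕ) : ∃ R₀ : ℕ, 1 ≤ R₀ ∧ ∀ R ≥ R₀, ∀ (k A : Type) [Field k] [CharZero k]
    [Field A] [Algebra k A] (L Ω F : Submodule k A), FiniteDimensional k Ω →
    FiniteDimensional k F → HypV v L → (1 : A) ∈ L → (1 : A) ∈ Ω → finrank k Ω ≤ m →
    finrank k F ≤ m → ∀ z ∈ L, ∀ w : Fin R → A, (∀ i, w i ∈ L) → LinearIndependent k w →
    ∃ S : Finset (Fin R), S.Nonempty ∧ z + ∑ i ∈ S, w i ∉ F ∧ GD D L Ω (z + ∑ i ∈ S, w i) := by
  obtain ⟨R₀, h⟩ := PD_all D m v
  refine ⟨R₀ + 1, by omega, fun R hR k A _ _ _ _ L Ω F h1 h2 h3 h4 h5 h6 h7 z hz w hw hli => ?_⟩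
  have hle : R₀ ≤ R := by omega
  obtain ⟨S, hS1, hS2, hS3⟩ := h k A L Ω F h1 h2 h3 h4 h5 h6 h7 z hz (fun i => w (Fin.castLE hle i))
    (fun i => hw _) (hli.comp _ (Fin.castLE_injective hle))
  refine ⟨S.map (Fin.castLEEmb hle), hS1.map, ?_, ?_⟩
  · rw [Finset.sum_map]; exact hS2
  · rw [Finset.sum_map]; exact hS3

/-- one sum -/
theorem sum_one (D m v : ℕ) : ∃ R₀ : ℕ, 1 ≤ R₀ ∧ ∀ R ≥ R₀, ∀ (k A : Type) [Field k] [CharZero k]
    [Field A] [Algebra k A] (L Ω F : Submodule k A), FiniteDimensional k Ω →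
    FiniteDimensional k F → HypV v L → (1 : A) ∈ L → (1 : A) ∈ Ω → finrank k Ω ≤ m →
    finrank k F ≤ m → ∀ (N : ℕ) (w : Fin R → Fin N → A), (∀ j i, w j i ∈ L) →
    (∀ p q : Fin R → Fin N, (∀ j, p j ≠ q j) →
      LinearIndependent k (fun j => w j (q j) - w j (p j))) →
    ∀ B : Finset (Fin R → Fin N), (∀ f ∈ B, ∑ j, w j (f j) ∈ F ∨ ¬ GD D L Ω (∑ j, w j (f j))) →
    (B.card : ℝ) ≤ 2 * (N : ℝ) ^ R * sav R N := by
  classical
  obtain ⟨R₀, hR₀, h⟩ := PD_ge D m v
  refine ⟨R₀, hR₀, fun R hR k A _ _ _ _ L Ω F h1 h2 h3 h4 h5 h6 h7 N w hw hli B hB => ?_⟩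
  apply card_le_of_no_box (hR₀.trans hR)
  rintro ⟨p, q, hpq, hcube⟩
  obtain ⟨S, -, hS2, hS3⟩ := h R hR k A L Ω F h1 h2 h3 h4 h5 h6 h7 (∑ j, w j (p j))
    (Submodule.sum_mem _ fun j _ => hw _ _) (fun j => w j (q j) - w j (p j))
    (fun j => L.sub_mem (hw _ _) (hw _ _)) (hli p q hpq)
  have h8 := hB _ (hcube S)
  have e1 : (∑ j, w j (if j ∈ S then q j else p j)) =
      ∑ j, w j (p j) + ∑ j ∈ S, (w j (q j) - w j (p j)) := by
    have e2 : ∀ j, w j (if j ∈ S then q j else p j) = w j (p j) +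
        (if j ∈ S then w j (q j) - w j (p j) else 0) := by
      intro j
      by_cases h : j ∈ S
      · rw [if_pos h, if_pos h]; ring
      · rw [if_neg h, if_neg h, add_zero]
    simp only [e2]
    rw [Finset.sum_add_distrib, Finset.sum_ite_mem, Finset.univ_inter]
  rw [e1] at h8
  rcases h8 with h8 | h8
  · exact hS2 h8
  · exact h8 hS3

/-- **Several sums.** -/
theorem sums_rate (D n : ℕ) : ∀ m v : ℕ, ∃ R₀ : ℕ, 1 ≤ R₀ ∧ ∀ R ≥ R₀, ∀ (k A : Type) [Field k]
    [CharZero k] [Field A] [Algebra k A] (L E : Submodule k A), FiniteDimensional k E →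
    HypV v L → (1 : A) ∈ L → (1 : A) ∈ E → finrank k E ≤ m →
    ∀ (N : ℕ) (w : Fin n → Fin R → Fin N → A), (∀ a j i, w a j i ∈ L) →
    (∀ a, ∀ p q : Fin R → Fin N, (∀ j, p j ≠ q j) →
      LinearIndependent k (fun j => w a j (q j) - w a j (p j))) →
    ∀ B : Finset (Fin n → Fin R → Fin N),
    (∀ f ∈ B, ¬ FreeT D L E (fun a => ∑ j, w a j (f a j))) →
    (B.card : ℝ) ≤ n * (2 * (N : ℝ) ^ (n * R) * sav R N) := by
  classical
  induction n with
  | zero =>
    intro m v
    refine ⟨1, le_rfl, fun R _ k A _ _ _ _ L E _ _ _ _ _ N w _ _ B hB => ?_⟩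
    have : B = ∅ := by
      rw [Finset.eq_empty_iff_forall_notMem]
      intro a ha
      exact hB a ha (FreeT.nil D L E _)
    rw [this]
    simp
  | succ n ih =>
    intro m v
    obtain ⟨R₁, hR₁1, hR₁⟩ := sum_one D (m + (m * (m + v) * m + m)) v
    obtain ⟨R₂, hR₂1, hR₂⟩ := ih ((D + 1) * m) v
    refine ⟨max R₁ R₂, hR₁1.trans (le_max_left _ _),
      fun R hR k A _ _ _ _ L E hE hL h1L h1 hm N w hw hli B hB => ?_⟩
    obtain ⟨hf, hfr⟩ := suppI_bound hL E
    have hF : FiniteDimensional k (suppI L E ⊔ E : Submodule k A) := inferInstance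
    have hFr : finrank k (suppI L E ⊔ E : Submodule k A) ≤ m + (m * (m + v) * m + m) := by
      refine (Submodule.finrank_add_le_finrank_add_finrank _ _).trans ?_
      have : finrank k (suppI L E) ≤ m * (m + v) * m := hfr.trans (by gcongr)
      omega
    have hsav := sav_nonneg R N
    have h3 := count_first n (fun f : Fin (n + 1) → Fin R → Fin N =>
      ¬ FreeT D L E (fun a => ∑ j, w a j (f a j)))
      (Finset.univ.filter (fun g : Fin R → Fin N =>
        ∑ j, w 0 j (g j) ∈ (suppI L E ⊔ E : Submodule k A) ∨ ¬ GD D L E (∑ j, w 0 j (g j))))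
      (2 * (N : ℝ) ^ R * sav R N) (n * (2 * (N : ℝ) ^ (n * R) * sav R N))
      (hR₁ R ((le_max_left _ _).trans hR) k A L E (suppI L E ⊔ E) hE hF hL h1L h1 (by omega) hFr N
        (w 0) (hw 0) (hli 0) _ (fun g hg => (Finset.mem_filter.1 hg).2)) (by positivity)
      (by
        intro g hg B' hB'
        have hg' : ¬ (∑ j, w 0 j (g j) ∈ (suppI L E ⊔ E : Submodule k A) ∨
            ¬ GD D L E (∑ j, w 0 j (g j))) := fun h => hg (Finset.mem_filter.2
              ⟨Finset.mem_univ _, h⟩)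
        push Not at hg'
        obtain ⟨hpf, hpr⟩ := polyU_bound (∑ j, w 0 j (g j)) E (D + 1)
        refine hR₂ R ((le_max_right _ _).trans hR) k A L (polyU (∑ j, w 0 j (g j)) E (D + 1)) hpf hL
          h1L (by
            have := pow_mul_mem_polyU (∑ j, w 0 j (g j)) E (l := 0) (n := D + 1) (by omega) h1
            rwa [pow_zero, one_mul] at this) (hpr.trans (by gcongr)) N (fun a => w a.succ)
          (fun a => hw _) (fun a => hli _) B' ?_
        intro f hf hfree
        apply hB' f hf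
        have h3 : (fun a => ∑ j, w a j ((Fin.cons g f : Fin (n + 1) → Fin R → Fin N) a j)) =
            (Fin.cons (∑ j, w 0 j (g j)) (fun a => ∑ j, w a.succ j (f a j)) :
              Fin (n + 1) → A) := by
          funext i
          refine Fin.cases ?_ (fun i => ?_) i
          · rw [Fin.cons_zero, Fin.cons_zero]
          · rw [Fin.cons_succ, Fin.cons_succ]
        rw [h3]
        exact FreeT.cons h1L (Submodule.sum_mem _ fun j _ => hw _ _ _)
          (fun i => Submodule.sum_mem _ fun j _ => hw _ _ _) h1 hg'.2 hg'.1 hfree) B hB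
    refine h3.trans (le_of_eq ?_)
    rw [Fintype.card_fun, Fintype.card_fin, Fintype.card_fin]
    push_cast
    rw [← pow_mul]
    ring

end Pool.Agent.R350
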