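import Pool.Agent.R350.GI

/-!
# Generic tuples, arbitrary constants and arbitrary logarithms
-/

set_option autoImplicit false

namespace Pool.Agent.R350

open Module Finset MvPolynomial

section

variable {k A : Type*} [Field k] [Field A] [Algebra k A]

/-- splitting a polynomial which is linear in the second group of variables, with coefficients in a
given space -/
theorem linear_splitE {σ τ : Type*} [Fintype τ] (D : ℕ) (V : Submodule k A)
    (P : MvPolynomial (σ ⊕ τ) A) (hV : CoefIn V P)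
    (hD : ∀ i, P.degreeOf (Sum.inl i) ≤ D) (h1 : ∀ β ∈ P.support, ∑ j, β (Sum.inr j) ≤ 1) :
    ∃ (P0 : MvPolynomial σ A) (Q : τ → MvPolynomial σ A), (∀ i, P0.degreeOf i ≤ D) ∧
      (∀ j i, (Q j).degreeOf i ≤ D) ∧ CoefIn V P0 ∧ (∀ j, CoefIn V (Q j)) ∧
      P = rename Sum.inl P0 + ∑ j, X (Sum.inr j) * rename Sum.inl (Q j) := by
  classical
  obtain ⟨P0, Q, h2, h3, h4⟩ := linear_split D P hD h1
  have hinj : Function.Injective (Sum.inl : σ → σ ⊕ τ) := Sum.inl_injective
  have hr : ∀ (γ : σ →₀ ℕ) (j : τ), (Finsupp.mapDomain Sum.inl γ : σ ⊕ τ →₀ ℕ) (Sum.inr j) = 0 :=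
    fun γ j => Finsupp.mapDomain_of_notMem_range _ _ (by simp)
  refine ⟨P0, Q, h2, h3, fun γ => ?_, fun j γ => ?_, h4⟩
  · have h5 := hV (Finsupp.mapDomain Sum.inl γ)
    rw [h4, coeff_add, coeff_rename_mapDomain _ hinj, coeff_sum, Finset.sum_eq_zero, add_zero] at h5
    · exact h5
    · intro j _
      rw [coeff_X_mul', if_neg]
      rw [Finsupp.mem_support_iff, hr]
      simp
  · have h5 := hV (Finsupp.mapDomain Sum.inl γ + Finsupp.single (Sum.inr j) 1)
    rw [h4, coeff_add, coeff_sum, Finset.sum_eq_single j, coeff_X_mul', if_pos,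
      add_tsub_cancel_right, coeff_rename_mapDomain _ hinj, coeff_rename_eq_zero, zero_add] at h5
    · exact h5
    · intro γ' hγ'
      exfalso
      have := congrArg (fun f => f (Sum.inr j)) hγ'
      simp only [Finsupp.add_apply, hr, Finsupp.single_eq_same, zero_add] at this
      exact zero_ne_one this
    · rw [Finsupp.mem_support_iff, Finsupp.add_apply, Finsupp.single_eq_same]
      omega
    · intro j' _ hj'
      rw [coeff_X_mul', if_neg]
      rw [Finsupp.mem_support_iff, Finsupp.add_apply, hr, Finsupp.single_apply, if_neg]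
      · simp
      · intro h
        exact hj' (Sum.inr_injective h).symm
    · intro h; exact absurd (Finset.mem_univ _) h

/-- polynomials with coefficients in `E` of degree at most `D` in the first variables and linear
in the others -/
theorem FreeT.lin_polyE {D n r : ℕ} {L E : Submodule k A} {f : Fin n → A} (H : FreeT D L E f)
    (h1L : (1 : A) ∈ L) (hfL : ∀ i, f i ∈ L) (y : Fin r → A) (hyL : ∀ j, y j ∈ L)
    (hy : ∀ c : Fin r → k, ∑ j, c j • y j ∈
      suppI L E ⊔ Submodule.span k (insert 1 (Set.range f)) → ∀ j, c j = 0)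
    (P : MvPolynomial (Fin n ⊕ Fin r) A) (hE : CoefIn E P)
    (hD : ∀ i, P.degreeOf (Sum.inl i) ≤ D) (h1 : ∀ β ∈ P.support, ∑ j, β (Sum.inr j) ≤ 1)
    (h0 : eval (Sum.elim f y) P = 0) : P = 0 := by
  obtain ⟨P0, Q, h2, h3, h4, h5, rfl⟩ := linear_splitE D E P hE hD h1
  have h6 := H.lin h1L hfL y hyL hy P0 Q h2 h3 h4 h5 (by
    rw [← h0, map_add, map_sum, eval_rename]
    congr 1
    refine Finset.sum_congr rfl fun j _ => ?_
    rw [map_mul, eval_X, eval_rename, Sum.elim_inr]
    rfl)
  rw [h6.1]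
  simp only [h6.2, map_zero, mul_zero, Finset.sum_const_zero, add_zero]

/-- independence modulo `E` -/
theorem FreeT.indep_mod {D n : ℕ} {L E : Submodule k A} {f : Fin n → A}
    (H : FreeT (D + 1) L E f) (h1 : (1 : A) ∈ E) (c : Fin n → k) (hc : ∑ i, c i • f i ∈ E) :
    ∀ i, c i = 0 := by
  classical
  intro i
  have h2 := H.indep (∑ i, MvPolynomial.C (algebraMap k A (c i)) * X i -
      MvPolynomial.C (∑ i, c i • f i)) (by
    intro i
    refine (degreeOf_sub_le _ _ _).trans (max_le ?_ ?_)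
    · refine (degreeOf_sum_le _ _ _).trans ?_
      rw [Finset.sup_le_iff]
      intro j _
      refine (degreeOf_C_mul_le _ _ _).trans ?_
      rw [degreeOf_X]
      split_ifs <;> omega
    · rw [degreeOf_C]; omega) (by
    intro β
    rw [coeff_sub, coeff_sum, coeff_C]
    refine Submodule.sub_mem _ (Submodule.sum_mem _ fun j _ => ?_) ?_
    · rw [coeff_C_mul, coeff_X, Algebra.algebraMap_eq_smul_one]
      split_ifs
      · rw [mul_one]; exact E.smul_mem _ h1
      · rw [mul_zero]; exact Submodule.zero_mem _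
    · split_ifs
      · exact hc
      · exact Submodule.zero_mem _) (by
    rw [map_sub, map_sum, eval_C, sub_eq_zero]
    refine Finset.sum_congr rfl fun j _ => ?_
    rw [map_mul, eval_C, eval_X, Algebra.smul_def])
  have h3 := congrArg (coeff (Finsupp.single i 1)) h2
  rw [coeff_zero, coeff_sub, coeff_sum, Finset.sum_eq_single i, coeff_C, if_neg, sub_zero,
    coeff_C_mul, coeff_X, if_pos rfl, mul_one] at h3
  · exact (map_eq_zero _).1 h3
  · intro h
    have := congrArg (fun f => f i) h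
    simp at this
  · intro j _ hj
    rw [coeff_C_mul, coeff_X, if_neg, mul_zero]
    intro h
    exact hj (Finsupp.single_left_injective one_ne_zero h)
  · intro h; exact absurd (Finset.mem_univ _) h

end

open Pool.Agent.W245 Pool.Agent.W245.PB Pool.Agent.TH681.QC

theorem er_add (c₁ c₂ : ℕ) {x : ℕ} (hx : 16 ≤ x) :
    er c₁ x + er c₂ x ≤ er (2 * (c₁ + c₂ + 1)) x := by
  have h1 := er_half (c := c₁) (d := c₁ + c₂ + 1) (by omega) hx
  have h2 := er_half (c := c₂) (d := c₁ + c₂ + 1) (by omega) hx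
  linarith

theorem suppI_le {k A : Type*} [Field k] [Field A] [Algebra k A] (L Ω : Submodule k A) :
    suppI L Ω ≤ L := by
  unfold suppI
  rw [Submodule.span_le]
  rintro y ⟨n, ω, ℓ, h1, h2, h3, φ, rfl⟩
  exact Submodule.sum_mem _ fun t _ => L.smul_mem _ (h2 t)

/-- the exceptional space of `W` -/
def exSp {k A : Type*} [Field k] [Field A] [Algebra k A] (L W : Submodule k A) : Submodule k A :=
  suppI L (W ⊔ Submodule.span k {(1 : A)}) ⊔ Submodule.span k {(1 : A)}

/-- **Almost all tuples have no relation with coefficients in `W` which is linear in arbitrary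
elements of `L`.** -/
theorem rate_lin (D n m v : ℕ) : ∃ c : ℕ, ∀ x ≥ 16,
    ∀ (κ C : Type) [Field κ] [CharZero κ] [Field C] [Algebra κ C] (lg : ℕ → C)
    (L : Submodule κ C), Setup v lg L → ∀ W : Submodule κ C, Module.Finite κ W →
    finrank κ W ≤ m → Module.Finite κ (exSp L W) ∧ finrank κ (exSp L W) ≤ c ∧ exSp L W ≤ L ∧
    (W ≤ Submodule.span κ {(1 : C)} → exSp L W = Submodule.span κ {(1 : C)}) ∧
    ∀ B : Finset (Fin n → ℕ), B ⊆ Fintype.piFinset (fun _ : Fin n => Ioc 0 x) →
    (∀ a ∈ B, ¬ ((∀ c : Fin n → κ, ∑ i, c i • lg (a i) ∈ exSp L W → ∀ i, c i = 0) ∧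
      ∀ (r : ℕ) (l : Fin r → C), (∀ j, l j ∈ L) →
        (∀ c : Fin r → κ, ∑ j, c j • l j ∈
          exSp L W ⊔ Submodule.span κ (Set.range fun i => lg (a i)) → ∀ j, c j = 0) →
        ∀ P : MvPolynomial (Fin n ⊕ Fin r) C, (∀ β, P.coeff β ∈ W) →
          (∀ i, P.degreeOf (Sum.inl i) ≤ D) → (∀ β ∈ P.support, ∑ j, β (Sum.inr j) ≤ 1) →
          eval (Sum.elim (fun i => lg (a i)) l) P = 0 → P = 0)) →
    (B.card : ℝ) ≤ er c x * x ^ n := by
  classical
  obtain ⟨c₁, hc₁⟩ := freeT_rate D n (m + 1) v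
  obtain ⟨c₂, hc₂⟩ := freeT_rate (0 + 1) n ((m + 1) * (m + 1 + v) * (m + 1) + 1) v
  refine ⟨2 * (c₁ + c₂ + 1) + ((m + 1) * (m + 1 + v) * (m + 1) + 1),
    fun x hx κ C _ _ _ _ lg L hS W hW hWm => ?_⟩
  have hE : FiniteDimensional κ (W ⊔ Submodule.span κ {(1 : C)} : Submodule κ C) := inferInstance
  have hEr : finrank κ (W ⊔ Submodule.span κ {(1 : C)} : Submodule κ C) ≤ m + 1 :=
    (Submodule.finrank_add_le_finrank_add_finrank _ _).trans
      (Nat.add_le_add hWm (finrank_span_one κ C))
  have h1E : (1 : C) ∈ W ⊔ Submodule.span κ {(1 : C)} :=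
    Submodule.mem_sup_right (Submodule.mem_span_singleton_self _)
  obtain ⟨hsf, hsr⟩ := suppI_bound hS.hyp (W ⊔ Submodule.span κ {(1 : C)})
  have hF : FiniteDimensional κ (exSp L W) := by
    unfold exSp
    infer_instance
  have hFr : finrank κ (exSp L W) ≤ (m + 1) * (m + 1 + v) * (m + 1) + 1 := by
    unfold exSp
    refine (Submodule.finrank_add_le_finrank_add_finrank _ _).trans
      (Nat.add_le_add (hsr.trans ?_) (finrank_span_one κ C))
    gcongr
  refine ⟨hF, hFr.trans (by omega), ?_, ?_, ?_⟩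
  · refine sup_le (suppI_le _ _) ?_
    rw [Submodule.span_singleton_le_iff_mem]
    exact hS.one
  · intro hW1
    unfold exSp
    rw [sup_eq_right.2 hW1, suppI_one, bot_sup_eq]
  · intro B hB hbad
    have h1F : (1 : C) ∈ exSp L W := Submodule.mem_sup_right (Submodule.mem_span_singleton_self _)
    have hsplit : B ⊆ (B.filter fun a => ¬ FreeT D L (W ⊔ Submodule.span κ {(1 : C)})
        (fun i => lg (a i))) ∪ B.filter fun a => ¬ FreeT (0 + 1) L (exSp L W)
        (fun i => lg (a i)) := by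
      intro a ha
      rw [Finset.mem_union, Finset.mem_filter, Finset.mem_filter]
      by_contra hno
      push Not at hno
      obtain ⟨h1, h2⟩ := hno
      apply hbad a ha
      have hapos := Fintype.mem_piFinset.1 (hB ha)
      refine ⟨fun c hc => (h2 ha).indep_mod h1F c hc, fun r l hl hind P hPW hPD hP1 h0 => ?_⟩
      refine (h1 ha).lin_polyE hS.one (fun i => hS.mem _ (Finset.mem_Ioc.1 (hapos i)).1) l hl ?_ P
        (fun β => Submodule.mem_sup_left (hPW β)) hPD hP1 h0
      intro c hc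
      refine hind c ?_
      rw [Submodule.span_insert, ← sup_assoc] at hc
      exact hc
    have h2 := hc₁ x hx κ C lg L hS (W ⊔ Submodule.span κ {(1 : C)}) hE h1E hEr
      (B.filter fun a => ¬ FreeT D L (W ⊔ Submodule.span κ {(1 : C)}) (fun i => lg (a i)))
      ((Finset.filter_subset _ _).trans hB) (fun a ha => (Finset.mem_filter.1 ha).2)
    have h3 := hc₂ x hx κ C lg L hS (exSp L W) hF h1F hFr
      (B.filter fun a => ¬ FreeT (0 + 1) L (exSp L W) (fun i => lg (a i)))
      ((Finset.filter_subset _ _).trans hB) (fun a ha => (Finset.mem_filter.1 ha).2)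
    have h4 : (B.card : ℝ) ≤ ((B.filter fun a => ¬ FreeT D L (W ⊔ Submodule.span κ {(1 : C)})
        (fun i => lg (a i))).card : ℝ) + ((B.filter fun a => ¬ FreeT (0 + 1) L (exSp L W)
        (fun i => lg (a i))).card : ℝ) := by
      exact_mod_cast (Finset.card_le_card hsplit).trans (Finset.card_union_le _ _)
    have h5 := er_add c₁ c₂ hx
    have h6 := er_mono (c := 2 * (c₁ + c₂ + 1))
      (d := 2 * (c₁ + c₂ + 1) + ((m + 1) * (m + 1 + v) * (m + 1) + 1)) (by omega) hx
    calc (B.card : ℝ) ≤ er c₁ x * x ^ n + er c₂ x * x ^ n := h4.trans (add_le_add h2 h3)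
      _ = (er c₁ x + er c₂ x) * x ^ n := by ring
      _ ≤ _ := by gcongr; exact h5.trans h6

end Pool.Agent.R350
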