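import Pool.Agent.R350.GN

/-!
# Substituting values for some of the variables
-/

set_option autoImplicit false

namespace Pool.Agent.R350

open Module Finset MvPolynomial

section

variable {κ C : Type*} [Field κ] [Field C] [Algebra κ C] {σ τ : Type*} [Fintype σ] [Fintype τ]

/-- substitution of values for the first group of variables -/
theorem subst_first (t : σ → C) (D : ℕ) (W : Submodule κ C)
    (hW : ∀ μ : σ → ℕ, (∀ i, μ i ≤ D) → ∏ i, t i ^ μ i ∈ W)
    (hT : ∀ Q : MvPolynomial σ κ, aeval t Q = 0 → Q = 0)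
    (P : MvPolynomial (σ ⊕ τ) κ) (hP : ∀ i, P.degreeOf (Sum.inl i) ≤ D) :
    ∃ P' : MvPolynomial τ C, (∀ β, P'.coeff β ∈ W) ∧ (P' = 0 → P = 0) ∧
      (∀ y : τ → C, eval y P' = aeval (Sum.elim t y) P) ∧
      ∀ β ∈ P'.support, ∃ γ ∈ P.support, ∀ j, β j = γ (Sum.inr j) := by
  classical
  let e : (σ ⊕ τ →₀ ℕ) ≃ (σ →₀ ℕ) × (τ →₀ ℕ) := Finsupp.sumFinsuppEquivProdFinsupp
  have e1 : ∀ γ i, (e γ).1 i = γ (Sum.inl i) := fun γ i => Finsupp.fst_sumFinsuppEquivProdFinsupp γ i
  have e2 : ∀ γ j, (e γ).2 j = γ (Sum.inr j) := fun γ j => Finsupp.snd_sumFinsuppEquivProdFinsupp γ j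
  let P' : MvPolynomial τ C := ∑ γ ∈ P.support,
    monomial (e γ).2 (algebraMap κ C (P.coeff γ) * ∏ i, t i ^ γ (Sum.inl i))
  have hcoef : ∀ β, P'.coeff β = ∑ γ ∈ P.support.filter (fun γ => (e γ).2 = β),
      algebraMap κ C (P.coeff γ) * ∏ i, t i ^ γ (Sum.inl i) := by
    intro β
    simp only [P', coeff_sum, coeff_monomial]
    rw [Finset.sum_filter]
  refine ⟨P', ?_, ?_, ?_, ?_⟩
  · intro β
    rw [hcoef]
    refine Submodule.sum_mem _ fun γ hγ => ?_
    rw [← Algebra.smul_def]
    refine W.smul_mem _ (hW _ fun i => ?_)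
    have := hP i
    rw [degreeOf_eq_sup] at this
    exact (Finset.le_sup (f := fun m : σ ⊕ τ →₀ ℕ => m (Sum.inl i))
      (Finset.mem_filter.1 hγ).1).trans this
  · intro h0
    ext γ0
    rw [coeff_zero]
    by_cases hγ0 : γ0 ∈ P.support
    · have h1 := hT (∑ γ ∈ P.support.filter (fun γ => (e γ).2 = (e γ0).2),
        monomial (e γ).1 (P.coeff γ)) (by
        rw [map_sum, ← coeff_zero (R := C) (e γ0).2, ← h0, hcoef]
        refine Finset.sum_congr rfl fun γ _ => ?_
        rw [aeval_monomial, Finsupp.prod_fintype _ _ (fun i => pow_zero _)]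
        simp only [e1])
      have h2 := congrArg (coeff (e γ0).1) h1
      rw [coeff_zero, coeff_sum, Finset.sum_eq_single γ0, coeff_monomial, if_pos rfl] at h2
      · exact h2
      · intro γ hγ hne
        rw [coeff_monomial, if_neg]
        intro h3
        apply hne
        apply e.injective
        exact Prod.ext h3 (Finset.mem_filter.1 hγ).2
      · intro h3
        exact (h3 (Finset.mem_filter.2 ⟨hγ0, rfl⟩)).elim
    · exact notMem_support_iff.1 hγ0
  · intro y
    simp only [P', map_sum, MvPolynomial.eval_monomial]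
    conv_rhs => rw [MvPolynomial.as_sum P, map_sum]
    refine Finset.sum_congr rfl fun γ _ => ?_
    rw [aeval_monomial, Finsupp.prod_fintype _ _ (fun i => pow_zero _),
      Finsupp.prod_fintype _ _ (fun i => pow_zero _), Fintype.prod_sum_type]
    simp only [e2, Sum.elim_inl, Sum.elim_inr]
    ring
  · intro β hβ
    rw [MvPolynomial.mem_support_iff, hcoef] at hβ
    obtain ⟨γ, hγ, -⟩ := Finset.exists_ne_zero_of_sum_ne_zero hβ
    refine ⟨γ, (Finset.mem_filter.1 hγ).1, fun j => ?_⟩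
    rw [← (Finset.mem_filter.1 hγ).2, e2]

end

end Pool.Agent.R350
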