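import Pool.Agent.R350.GP

/-!
# The exceptional space in terms of a basis
-/

set_option autoImplicit false

namespace Pool.Agent.R350

open Module Finset

/-- the exceptional space of a space with a basis `b` is spanned by the coefficients of all relations
`∑ b i * ℓ i = 0` -/
theorem suppI_coeffs {κ C ι : Type*} [Field κ] [Field C] [Algebra κ C] [Fintype ι]
    (L : Submodule κ C) (b : ι → C) (hb : LinearIndependent κ b) :
    suppI L (Submodule.span κ (Set.range b)) = Submodule.span κ
      {z | ∃ ℓ : ι → C, (∀ i, ℓ i ∈ L) ∧ ∑ i, b i * ℓ i = 0 ∧ ∃ i, z = ℓ i} := by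
  classical
  apply le_antisymm
  · unfold suppI
    rw [Submodule.span_le]
    rintro y ⟨n, ω, ℓ, h1, h2, h3, φ, rfl⟩
    have h4 : ∀ t, ∃ c : ι → κ, ∑ i, c i • b i = ω t := fun t =>
      (Submodule.mem_span_range_iff_exists_fun κ).1 (h1 t)
    choose c hc using h4
    have h5 : ∑ t, φ (ω t) • ℓ t = ∑ i, φ (b i) • ∑ t, c t i • ℓ t := by
      simp only [← hc, map_sum, map_smul, smul_eq_mul, Finset.sum_smul, Finset.smul_sum, smul_smul]
      rw [Finset.sum_comm]
      refine Finset.sum_congr rfl fun i _ => Finset.sum_congr rfl fun t _ => ?_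
      rw [mul_comm]
    rw [h5]
    refine Submodule.sum_mem _ fun i _ => Submodule.smul_mem _ _ (Submodule.subset_span
      ⟨fun i => ∑ t, c t i • ℓ t, fun i => Submodule.sum_mem _ fun t _ => L.smul_mem _ (h2 t),
        ?_, i, rfl⟩)
    rw [← h3]
    simp only [← hc, Finset.mul_sum, Finset.sum_mul]
    rw [Finset.sum_comm]
    refine Finset.sum_congr rfl fun t _ => Finset.sum_congr rfl fun i _ => ?_
    rw [mul_smul_comm, smul_mul_assoc]
  · rw [Submodule.span_le]
    rintro y ⟨ℓ, h1, h2, i, rfl⟩
    obtain ⟨φ, hφ⟩ : ∃ φ : C →ₗ[κ] κ, ∀ j, φ (b j) = if j = i then 1 else 0 := by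
      let B := Basis.extend hb.linearIndepOn_id
      have hmem : ∀ j, b j ∈ hb.linearIndepOn_id.extend (Set.subset_univ _) := fun j =>
        hb.linearIndepOn_id.subset_extend _ (Set.mem_range_self j)
      refine ⟨B.coord ⟨b i, hmem i⟩, fun j => ?_⟩
      have h3 : b j = B ⟨b j, hmem j⟩ := by
        simp [B]
      rw [h3, Basis.coord_apply, Basis.repr_self, Finsupp.single_apply]
      refine if_congr ?_ rfl rfl
      rw [Subtype.mk.injEq]
      exact hb.injective.eq_iff
    have h4 := mem_suppI (L := L) (Ω := Submodule.span κ (Set.range b)) b ℓ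
      (fun t => Submodule.subset_span (Set.mem_range_self t)) h1 h2 φ
    rw [Finset.sum_eq_single i (fun j _ hj => by rw [hφ, if_neg hj, zero_smul])
      (fun h => absurd (Finset.mem_univ _) h), hφ, if_pos rfl, one_smul] at h4
    exact h4

end Pool.Agent.R350
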