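import Pool.Agent.R350.GE

/-!
# Generic sums with one summand from each of a bounded number of families
-/

set_option autoImplicit false

namespace Pool.Agent.R350

open Module Finset

/-- the existence of generic sums with one summand from each of the families `w j`, `j ∈ J` -/
def PPD (D : ℕ) (J : Type) [Fintype J] : Prop := ∀ m v : ℕ, ∃ R : ℕ, ∀ (k A : Type) [Field k]
  [CharZero k] [Field A] [Algebra k A] (L Ω F : Submodule k A), FiniteDimensional k Ω →
  FiniteDimensional k F → HypV v L → (1 : A) ∈ L → (1 : A) ∈ Ω → finrank k Ω ≤ m →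
  finrank k F ≤ m → ∀ z ∈ L, ∀ w : J → Fin R → A, (∀ j i, w j i ∈ L) →
    LinearIndependent k (fun q : J × Fin R => w q.1 q.2) →
    ∃ f : J → Fin R, z + ∑ j, w j (f j) ∉ F ∧ GD D L Ω (z + ∑ j, w j (f j))

theorem PPD.congr {D : ℕ} {J J' : Type} [Fintype J] [Fintype J'] (e : J ≃ J') (h : PPD D J) :
    PPD D J' := by
  intro m v
  obtain ⟨R, hR⟩ := h m v
  refine ⟨R, fun k A _ _ _ _ L Ω F h1 h2 h3 h4 h5 h6 h7 z hz w hw hli => ?_⟩
  obtain ⟨f, hf1, hf2⟩ := hR k A L Ω F h1 h2 h3 h4 h5 h6 h7 z hz (fun j => w (e j))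
    (fun j i => hw _ _) (hli.comp (fun q : J × Fin R => (e q.1, q.2)) (by
      rintro ⟨a, b⟩ ⟨a', b'⟩ hab
      simp only [Prod.mk.injEq, e.injective.eq_iff] at hab
      exact Prod.ext hab.1 hab.2))
  have h8 : ∑ j, w (e j) (f j) = ∑ j', w j' (f (e.symm j')) :=
    Fintype.sum_equiv e _ _ (fun j => by rw [e.symm_apply_apply])
  rw [h8] at hf1 hf2
  exact ⟨fun j' => f (e.symm j'), hf1, hf2⟩

section

variable {k A : Type*} [Field k] [Field A] [Algebra k A]

theorem part_not_mem {J : Type*} [Fintype J] [Nonempty J] {R : ℕ} {F V : Submodule k A} {z : A}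
    {w : J → Fin R → A} {T : Finset (J × Fin R)} (hFV : F ≤ V) (hzV : z ∈ V)
    (hTi : ∀ c : J × Fin R → k, (∀ i ∉ T, c i = 0) → ∑ i, c i • w i.1 i.2 ∈ V → ∀ i, c i = 0)
    (f : J → Fin R) (hf : ∀ j, (j, f j) ∈ T) : z + ∑ j, w j (f j) ∉ F := by
  classical
  intro hmem
  have h1 : ∑ j, w j (f j) ∈ V := by
    have h2 := Submodule.sub_mem V (hFV hmem) hzV
    rwa [add_sub_cancel_left] at h2
  obtain ⟨j0⟩ := ‹Nonempty J›
  have h3 := hTi (fun q => if q.2 = f q.1 then 1 else 0) (by
    intro q hq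
    rw [if_neg]
    intro h
    apply hq
    have := hf q.1
    rwa [← h] at this) (by
    refine (congrArg (· ∈ V) ?_).mp h1
    rw [Fintype.sum_prod_type]
    refine Finset.sum_congr rfl fun j _ => ?_
    rw [Finset.sum_eq_single (f j)]
    · rw [if_pos rfl, one_smul]
    · intro i _ hi
      rw [if_neg hi, zero_smul]
    · intro h; exact absurd (Finset.mem_univ _) h) (j0, f j0)
  rw [if_pos rfl] at h3
  exact one_ne_zero h3

end

/-- **Three summands suffice for relations of degree one.** -/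
theorem PPD_one : PPD 1 (Unit ⊕ (Unit ⊕ Unit)) := by
  classical
  intro m v
  obtain ⟨R, hR⟩ : ∃ R, R = gridI m + gridK m v + gridM m v + gridE m v + (m + 2) := ⟨_, rfl⟩
  refine ⟨R, fun k A _ _ _ _ L Ω F _ _ hL h1L h1Ω hΩm hFm z hz w hwL hw => ?_⟩
  by_contra hno
  push Not at hno
  obtain ⟨ω, hωli, hωspan, hωmul⟩ := mem_mul_basis Ω L
  have hVf : FiniteDimensional k (Submodule.span k ({1, z} : Set A)) :=
    FiniteDimensional.span_of_finite k (Set.toFinite _)
  set V : Submodule k A := F ⊔ Submodule.span k ({1, z} : Set A) with hVdef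
  have hVf' : FiniteDimensional k V := by rw [hVdef]; infer_instance
  let w' : (Unit ⊕ (Unit ⊕ Unit)) × Fin R → A := fun q => w q.1 q.2
  have hw'L : ∀ q, w' q ∈ L := fun q => hwL _ _
  obtain ⟨T, hT, hTi⟩ := deletion w' hw V
  have hV2 : finrank k V ≤ m + 2 := by
    refine (Submodule.finrank_add_le_finrank_add_finrank _ _).trans (Nat.add_le_add hFm ?_)
    have := finrank_span_finset_le_card (R := k) ({1, z} : Finset A)
    rw [Finset.coe_insert, Finset.coe_singleton] at this
    exact this.trans Finset.card_le_two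
  have h1V : (1 : A) ∈ V := Submodule.mem_sup_right (Submodule.subset_span (by simp))
  have hzV : z ∈ V := Submodule.mem_sup_right (Submodule.subset_span (by simp))
  have hT' : Fintype.card ((Unit ⊕ (Unit ⊕ Unit)) × Fin R) ≤ T.card + (m + 2) := by omega
  obtain ⟨aI, haI, haIT⟩ := exists_embed_block
    (fun i : Fin R => ((Sum.inl (), i) : (Unit ⊕ (Unit ⊕ Unit)) × Fin R))
    (fun a b h => congrArg Prod.snd h) T (gridI m + gridE m v) (m + 2)
    (by rw [Fintype.card_fin]; omega) hT'
  obtain ⟨aK, haK, haKT⟩ := exists_embed_block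
    (fun i : Fin R => ((Sum.inr (Sum.inl ()), i) : (Unit ⊕ (Unit ⊕ Unit)) × Fin R))
    (fun a b h => congrArg Prod.snd h) T (gridK m v + gridE m v) (m + 2)
    (by rw [Fintype.card_fin]; omega) hT'
  obtain ⟨aM, haM, haMT⟩ := exists_embed_block
    (fun i : Fin R => ((Sum.inr (Sum.inr ()), i) : (Unit ⊕ (Unit ⊕ Unit)) × Fin R))
    (fun a b h => congrArg Prod.snd h) T (gridM m v + gridE m v) (m + 2)
    (by rw [Fintype.card_fin]; omega) hT'
  let ε := Fin (gridI m + gridE m v) ⊕ (Fin (gridK m v + gridE m v) ⊕ Fin (gridM m v + gridE m v))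
  let f : ε → (Unit ⊕ (Unit ⊕ Unit)) × Fin R :=
    Sum.elim (fun i => (Sum.inl (), aI i)) (Sum.elim (fun j => (Sum.inr (Sum.inl ()), aK j))
      (fun d => (Sum.inr (Sum.inr ()), aM d)))
  have hfT : ∀ e, f e ∈ T := by
    rintro (i | (j | d))
    · exact haIT i
    · exact haKT j
    · exact haMT d
  have hfi : Function.Injective f := by
    rintro (i | (j | d)) (i' | (j' | d')) h
    · exact congrArg Sum.inl (haI (congrArg Prod.snd h))
    · exact absurd (congrArg Prod.fst h) (by simp [f])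
    · exact absurd (congrArg Prod.fst h) (by simp [f])
    · exact absurd (congrArg Prod.fst h) (by simp [f])
    · exact congrArg (fun x => Sum.inr (Sum.inl x)) (haK (congrArg Prod.snd h))
    · exact absurd (congrArg Prod.fst h) (by simp [f])
    · exact absurd (congrArg Prod.fst h) (by simp [f])
    · exact absurd (congrArg Prod.fst h) (by simp [f])
    · exact congrArg (fun x => Sum.inr (Sum.inr x)) (haM (congrArg Prod.snd h))
  let E : ε → A := Sum.elim (fun i => z + w' (f (Sum.inl i))) (fun q => w' (f (Sum.inr q)))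
  have hEL : ∀ e, E e ∈ L := by
    rintro (i | q)
    · exact L.add_mem hz (hw'L _)
    · exact hw'L _
  have h1E : ∀ (c0 : k) (c : ε → k), c0 • (1 : A) + ∑ e, c e • E e = 0 → ∀ e, c e = 0 := by
    intro c0 c hc
    obtain ⟨c', h3, h4, h5⟩ := sum_embed f hfi c w'
    have h6 : ∑ e, c e • w' (f e) ∈ V := by
      have h7 : ∑ e, c e • w' (f e) = -(c0 • (1 : A) + (∑ i, c (Sum.inl i)) • z) := by
        have e1 : ∑ e, c e • E e = ∑ e, c e • w' (f e) + (∑ i, c (Sum.inl i)) • z :=
          sum_blocks c (fun e => w' (f e)) z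
        rw [e1] at hc
        rw [eq_neg_iff_add_eq_zero, ← hc]
        ring
      rw [h7]
      exact Submodule.neg_mem _ (Submodule.add_mem _ (Submodule.smul_mem _ _ h1V)
        (Submodule.smul_mem _ _ hzV))
    have h7 := hTi c' (fun i hi => h4 i (by
      rintro ⟨e, rfl⟩
      exact hi (hfT e))) (by rw [h5]; exact h6)
    intro e
    rw [← h3 e]
    exact h7 _
  obtain ⟨T2, hT2, hfree⟩ := free hL h1L Ω ω hωli E hEL h1E
  have hT2' : Fintype.card ε ≤ T2.card + gridE m v := by
    refine hT2.trans (Nat.add_le_add_left ?_ _)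
    unfold gridE
    gcongr
  obtain ⟨gI, hgI, hgIT⟩ := exists_embed_block (fun i => (Sum.inl i : ε))
    (fun a b h => Sum.inl_injective h) T2 (gridI m) (gridE m v)
    (by rw [Fintype.card_fin]) hT2'
  obtain ⟨gK, hgK, hgKT⟩ := exists_embed_block (fun i => (Sum.inr (Sum.inl i) : ε))
    (fun a b h => Sum.inl_injective (Sum.inr_injective h)) T2 (gridK m v) (gridE m v)
    (by rw [Fintype.card_fin]) hT2'
  obtain ⟨gM, hgM, hgMT⟩ := exists_embed_block (fun i => (Sum.inr (Sum.inr i) : ε))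
    (fun a b h => Sum.inr_injective (Sum.inr_injective h)) T2 (gridM m v) (gridE m v)
    (by rw [Fintype.card_fin]) hT2'
  let g : Fin (gridI m) ⊕ (Fin (gridK m v) ⊕ Fin (gridM m v)) → ε :=
    Sum.map gI (Sum.map gK gM)
  have hg : Function.Injective g := Function.Injective.sumMap hgI (hgK.sumMap hgM)
  have hgT : ∀ e, g e ∈ T2 := by
    rintro (i | (j | d))
    · exact hgIT i
    · exact hgKT j
    · exact hgMT d
  -- independence of products
  have hdual : ∀ zz : Fin (finrank k Ω) × (Fin (gridI m) ⊕ (Fin (gridK m v) ⊕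
      Fin (gridM m v))) → k, ∃ φ : A →ₗ[k] k, (∀ o ∈ Ω, φ o = 0) ∧
      ∀ q, φ (ω q.1 * E (g q.2)) = zz q := by
    intro zz
    refine exists_dual Ω (fun q => ω q.1 * E (g q.2)) (fun c hc => ?_) zz
    let G : Fin (finrank k Ω) × (Fin (gridI m) ⊕ (Fin (gridK m v) ⊕ Fin (gridM m v))) →
      Fin (finrank k Ω) × ε := Prod.map id g
    have hG : Function.Injective G := Function.injective_id.prodMap hg
    obtain ⟨c', h3, h4, h5⟩ := sum_embed G hG c (fun q => ω q.1 * E q.2)
    have h6 := hfree c' (fun q hq => h4 q (by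
      rintro ⟨q', rfl⟩
      exact hq (hgT q'.2))) (by rw [h5]; exact hc)
    intro q
    rw [← h3 q]
    exact h6 _
  have h1E' : ∀ (c0 : k) (c : Fin (gridI m) ⊕ (Fin (gridK m v) ⊕ Fin (gridM m v)) → k),
      c0 • (1 : A) + ∑ e, c e • E (g e) = 0 → ∀ e, c e = 0 := by
    intro c0 c hc e
    obtain ⟨c', h3, h4, h5⟩ := sum_embed g hg c E
    rw [← h5] at hc
    rw [← h3 e]
    exact h1E c0 c' hc _
  refine core hL h1L two_ne_zero Ω hΩm hΩm (fun i => E (g (Sum.inl i)))
    (fun j => E (g (Sum.inr (Sum.inl j)))) (fun d => E (g (Sum.inr (Sum.inr d)))) ω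
    (fun _ => hEL _) (fun _ => hEL _) (fun _ => hEL _) ?_ ?_ ?_ ?_
    (I := gridI m) (K := gridK m v) (M := gridM m v) (r1 := 2 * (2 * m + 1) ^ 2)
    le_rfl rfl le_rfl le_rfl ?_
  · intro zz
    obtain ⟨φ, h3, h4⟩ := hdual (fun q => Sum.elim (fun i => zz q.1 i) (fun _ => 0) q.2)
    exact ⟨φ, h3, fun a i => h4 (a, Sum.inl i), fun a j => h4 (a, Sum.inr (Sum.inl j))⟩
  · intro zz
    obtain ⟨φ, h3, h4⟩ := hdual (fun q => Sum.elim (fun _ => 0)
      (Sum.elim (fun j => zz q.1 j) (fun _ => 0)) q.2)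
    exact ⟨φ, h3, fun a i => h4 (a, Sum.inl i), fun a j => h4 (a, Sum.inr (Sum.inl j)),
      fun a d => h4 (a, Sum.inr (Sum.inr d))⟩
  · intro c0 c hc j
    have h3 := h1E' c0 (Sum.elim (fun _ => 0) (Sum.elim c (fun _ => 0))) (by
      rw [Fintype.sum_sum_type, Fintype.sum_sum_type]
      simp only [Sum.elim_inl, Sum.elim_inr, zero_smul, Finset.sum_const_zero, zero_add, add_zero]
      exact hc)
    exact h3 (Sum.inr (Sum.inl j))
  · rw [Fintype.linearIndependent_iff]
    intro c hc d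
    have h3 := h1E' 0 (Sum.elim (fun _ => 0) (Sum.elim (fun _ => 0) c)) (by
      rw [Fintype.sum_sum_type, Fintype.sum_sum_type]
      simp only [Sum.elim_inl, Sum.elim_inr, zero_smul, Finset.sum_const_zero, zero_add]
      exact hc)
    exact h3 (Sum.inr (Sum.inr d))
  · intro i j d
    let ff : Unit ⊕ (Unit ⊕ Unit) → Fin R := Sum.elim (fun _ => aI (gI i))
      (Sum.elim (fun _ => aK (gK j)) (fun _ => aM (gM d)))
    have hffT : ∀ q, (q, ff q) ∈ T := by
      rintro (u | (u | u))
      · exact haIT _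
      · exact haKT _
      · exact haMT _
    have h3 := hno ff (part_not_mem (le_sup_left : F ≤ V) hzV hTi ff hffT)
    unfold GD at h3
    push Not at h3
    obtain ⟨m', h4, h5, h6⟩ := h3
    obtain ⟨δ, hδ1, hδ2⟩ := hωmul (m' 1) (h4 1 le_rfl)
    refine ⟨δ, hδ1, ?_, ?_⟩
    · rw [← hδ2]; exact h6
    · rw [← hδ2]
      rw [Finset.sum_range_succ, Finset.sum_range_one, pow_zero, one_mul, pow_one] at h5
      have h7 : (E (g (Sum.inl i)) + E (g (Sum.inr (Sum.inl j))) + E (g (Sum.inr (Sum.inr d)))) *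
          m' 1 = - m' 0 := by
        rw [eq_neg_iff_add_eq_zero, ← h5, Fintype.sum_sum_type, Fintype.sum_sum_type,
          Fintype.sum_unique, Fintype.sum_unique, Fintype.sum_unique]
        change ((z + w (Sum.inl ()) (aI (gI i))) + w (Sum.inr (Sum.inl ())) (aK (gK j)) +
          w (Sum.inr (Sum.inr ())) (aM (gM d))) * m' 1 + m' 0 =
          m' 0 + (z + (w (Sum.inl ()) (aI (gI i)) + (w (Sum.inr (Sum.inl ())) (aK (gK j)) +
          w (Sum.inr (Sum.inr ())) (aM (gM d))))) * m' 1
        ring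
      rw [h7]
      exact Submodule.neg_mem _ (h4 0 (Nat.zero_le _))

section Core

variable {k A : Type} [Field k] [CharZero k] [Field A] [Algebra k A]

/-- **Core of the induction**, with an arbitrary family for the last block. -/
theorem coreD' {D m v : ℕ} {L Ω : Submodule k A} [FiniteDimensional k Ω] (hL : HypV v L)
    (h1L : (1 : A) ∈ L) (h1Ω : (1 : A) ∈ Ω) (hΩm : finrank k Ω ≤ m)
    (ω : Fin (finrank k Ω) → A) (hωli : LinearIndependent k ω)
    (hωspan : Submodule.span k (Set.range ω) = Ω)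
    (hωmul : ∀ z ∈ Ω * L, ∃ δ : Fin (finrank k Ω) → A, (∀ a, δ a ∈ L) ∧ z = ∑ a, ω a * δ a)
    (var : Fin (cI m) ⊕ (Fin (cK m v) ⊕ Fin (cP D) × Fin (cX D m v + m)) → A)
    (hvL : ∀ e, var e ∈ L)
    (hdual : ∀ zz : Fin (finrank k Ω) ×
      (Fin (cI m) ⊕ (Fin (cK m v) ⊕ Fin (cP D) × Fin (cX D m v + m))) → k,
      ∃ φ : A →ₗ[k] k, (∀ o ∈ Ω, φ o = 0) ∧ ∀ q, φ (ω q.1 * var q.2) = zz q)
    (h1var : ∀ (c0 : k) (c : Fin (cI m) ⊕ (Fin (cK m v) ⊕ Fin (cP D) × Fin (cX D m v + m)) → k),
      c0 • (1 : A) + ∑ e, c e • var e = 0 → ∀ e, c e = 0)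
    {ι : Type} [Fintype ι] (s : ι → A) (hsL : ∀ S, s S ∈ L)
    (hPD : ∀ Ω' F' : Submodule k A, FiniteDimensional k Ω' → FiniteDimensional k F' →
      (1 : A) ∈ Ω' → finrank k Ω' ≤ cN D m v →
      finrank k F' ≤ cN D m v * (cN D m v + v) * cN D m v + cN D m v →
      ∃ S : ι, s S ∉ F' ∧ GD D L Ω' (s S))
    (hexc : ∀ i j (r : Fin (cP D) → Fin (cX D m v + m)) (S : ι),
      ¬ GD (D + 1) L Ω (var (Sum.inl i) + (var (Sum.inr (Sum.inl j)) +
        ∑ t, var (Sum.inr (Sum.inr (t, r t)))) + s S)) : False := by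
  classical
  have hωΩ : ∀ a, ω a ∈ Ω := fun a => by
    rw [← hωspan]
    exact Submodule.subset_span ⟨a, rfl⟩
  let Q : Type := (Fin (cI m) × Fin (cK m v)) × (Fin (cP D) → Fin (cX D m v + m))
  let μ : Q → A := fun q => var (Sum.inl q.1.1) + (var (Sum.inr (Sum.inl q.1.2)) +
        ∑ t, var (Sum.inr (Sum.inr (t, q.2 t))))
  have hex : ∀ (S : ι) (q : Q), ∃ δ : ℕ → Fin (finrank k Ω) → A,
      (∀ l a, δ l a ∈ L) ∧ (∑ l ∈ range (D + 2), (μ q + s S) ^ l * ∑ a, ω a * δ l a = 0) ∧
      (∑ a, ω a * δ (D + 1) a ∉ Ω) := by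
    intro S q
    have h1 := hexc q.1.1 q.1.2 q.2 S
    unfold GD at h1
    push Not at h1
    obtain ⟨m', h2, h3, h4⟩ := h1
    have h5 : ∀ l, ∃ δ : Fin (finrank k Ω) → A, (∀ a, δ a ∈ L) ∧
        (l ≤ D + 1 → m' l = ∑ a, ω a * δ a) := by
      intro l
      by_cases hl : l ≤ D + 1
      · obtain ⟨δ, h6, h7⟩ := hωmul _ (h2 l hl)
        exact ⟨δ, h6, fun _ => h7⟩
      · exact ⟨fun _ => 0, fun _ => L.zero_mem, fun h => absurd h hl⟩
    choose δ h6 h7 using h5
    refine ⟨δ, h6, ?_, ?_⟩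
    · rw [← h3]
      refine Finset.sum_congr rfl fun l hl => ?_
      rw [h7 l (Nat.le_of_lt_succ (Finset.mem_range.1 hl))]
    · rw [← h7 (D + 1) le_rfl]
      exact h4
  choose δ hδL hδrel hδm using hex
  -- truncated data
  let δ' : ι → Q → ℕ → Fin (finrank k Ω) → A := fun S q l a =>
    if l ≤ D + 1 then δ S q l a else 0
  have hδ'rel : ∀ S q, ∑ l ∈ range (D + 2), (μ q + s S) ^ l * ∑ a, ω a * δ' S q l a = 0 := by
    intro S q
    rw [← hδrel S q]
    refine Finset.sum_congr rfl fun l hl => ?_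
    simp only [δ', if_pos (Nat.le_of_lt_succ (Finset.mem_range.1 hl))]
  have hδ'm : ∀ S q, ∑ a, ω a * δ' S q (D + 1) a ∉ Ω := by
    intro S q
    simp only [δ', if_pos (le_refl (D + 1))]
    exact hδm S q
  have hδ'L : ∀ S q l a, δ' S q l a ∈ L := by
    intro S q l a
    simp only [δ']
    split_ifs
    · exact hδL _ _ _ _
    · exact L.zero_mem
  let gR : ι → Q × (Fin (D + 2) × Fin (finrank k Ω)) → A := fun S t =>
    δ' S t.1 t.2.1 t.2.2
  let R : ι → Submodule k A := fun S => Submodule.span k {s S} ⊔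
    Submodule.span k (Set.range (gR S))
  have hRspan : ∀ S, FiniteDimensional k (Submodule.span k (Set.range (gR S))) := fun S =>
    FiniteDimensional.span_of_finite k (Set.finite_range _)
  have hRf : ∀ S, FiniteDimensional k (R S) := fun S => by
    have := hRspan S
    exact inferInstanceAs (FiniteDimensional k (Submodule.span k {s S} ⊔ Submodule.span k
      (Set.range (gR S)) : Submodule k A))
  have hRL : ∀ S, R S ≤ L := fun S => by
    refine sup_le ?_ ?_
    · rw [Submodule.span_singleton_le_iff_mem]; exact hsL S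
    · rw [Submodule.span_le]
      rintro _ ⟨t, rfl⟩
      exact hδ'L _ _ _ _
  have hRr : ∀ S, finrank k (R S) ≤ cr D m v := by
    intro S
    refine (Submodule.finrank_add_le_finrank_add_finrank _ _).trans ?_
    have e1 : finrank k (Submodule.span k {s S}) ≤ 1 := by
      have := finrank_span_finset_le_card (R := k) ({s S} : Finset A)
      rwa [Finset.coe_singleton, Finset.card_singleton] at this
    have e2 := finrank_range_le_card (R := k) (gR S)
    have e3 : Fintype.card (Q × (Fin (D + 2) × Fin (finrank k Ω))) =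
        (cI m * cK m v * (cX D m v + m) ^ cP D) * ((D + 2) * finrank k Ω) := by
      simp only [Q, Fintype.card_prod, Fintype.card_fin, Fintype.card_pi, Finset.prod_const,
        Finset.card_univ]
    rw [e3] at e2
    refine Nat.add_le_add e1 (e2.trans ?_)
    gcongr
  have hδR : ∀ S q l a, δ' S q l a ∈ R S := by
    intro S q l a
    by_cases hl : l ≤ D + 1
    · exact Submodule.mem_sup_right (Submodule.subset_span ⟨(q, (⟨l, by omega⟩, a)), rfl⟩)
    · simp only [δ', if_neg hl]
      exact Submodule.zero_mem _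
  have hsR : ∀ S, s S ∈ R S := fun S =>
    Submodule.mem_sup_left (Submodule.mem_span_singleton_self _)
  -- the base space
  let gW : Unit ⊕ (Fin (cI m) ⊕ (Fin (cK m v) ⊕ Fin (cP D) × Fin (cX D m v + m))) → A :=
    Sum.elim (fun _ => 1) var
  let W0 : Submodule k A := Submodule.span k (Set.range gW)
  have hW0f : FiniteDimensional k W0 := FiniteDimensional.span_of_finite k (Set.finite_range _)
  have hW0r : finrank k W0 ≤ cV D m v := by
    have e2 := finrank_range_le_card (R := k) gW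
    simp only [Fintype.card_prod, Fintype.card_sum, Fintype.card_fin, Fintype.card_unit] at e2
    refine e2.trans ?_
    unfold cV
    omega
  have h1W0 : (1 : A) ∈ W0 := Submodule.subset_span ⟨Sum.inl (), rfl⟩
  have hvW0 : ∀ e, var e ∈ W0 := fun e => Submodule.subset_span ⟨Sum.inr e, rfl⟩
  have hW0L : W0 ≤ L := by
    rw [Submodule.span_le]
    rintro _ ⟨(u | e), rfl⟩
    · exact h1L
    · exact hvL e
  have hμW0 : ∀ q, μ q ∈ W0 := fun q => W0.add_mem (hvW0 _) (W0.add_mem (hvW0 _)
    (Submodule.sum_mem _ fun t _ => hvW0 _))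
  have h1pow : ∀ W : Submodule k A, (1 : A) ∈ W → (1 : A) ∈ Ω * W ^ (D + 1) := by
    intro W hW
    have := Submodule.mul_mem_mul h1Ω (Submodule.pow_mem_pow W hW (D + 1))
    rwa [one_pow, one_mul] at this
  have hWpow : ∀ W : Submodule k A, (1 : A) ∈ W → W ≤ Ω * W ^ (D + 1) := by
    intro W hW z hz
    have := Submodule.mul_mem_mul h1Ω (pow_mono_of_one_mem hW (i := 1) (j := D + 1) (by omega)
      (by rw [pow_one]; exact hz))
    rwa [one_mul] at this
  obtain ⟨W, hW0W, hWL, hWf, DD, hDG, hDc, hDi⟩ := sunG (cPhi D m v) (cPhi_mono D m v) R hRf L W0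
    hRL (fun W S => GD D L (Ω * W ^ (D + 1)) (s S) ∧
      s S ∉ suppI L (Ω * W ^ (D + 1)) ⊔ (Ω * W ^ (D + 1)))
    (by
      rintro W W' S hW hWW' ⟨h1, h2⟩
      have h3 : Ω * W ^ (D + 1) ≤ Ω * W' ^ (D + 1) := mul_le_mul' le_rfl (pow_le_pow_sub hWW' _)
      exact ⟨h1.mono h3 (hsL S) h1L (h1pow W' (hWW' (hW h1W0))) h2,
        fun h4 => h2 (sup_le_sup (suppI_mono L h3) h3 h4)⟩)
    (by
      rintro W S hW ⟨h1, h2⟩ hRW
      exact h2 (Submodule.mem_sup_right (hWpow W (hW h1W0) (hRW (hsR S)))))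
    (cr D m v) (cV D m v) W0 le_rfl hW0f hW0r hW0L
    (by
      intro S _
      have := hRf S
      have e1 := Submodule.finrank_add_le_finrank_add_finrank (R S) W0
      have e2 := hRr S
      omega)
    (by
      intro W hW hWf hWr
      obtain ⟨hf, hfr⟩ := finrank_mul_pow_bound Ω W (D + 1)
      have hfr' : finrank k (Ω * W ^ (D + 1) : Submodule k A) ≤ cN D m v := by
        refine hfr.trans ?_
        unfold cN
        gcongr
      obtain ⟨hg, hgr⟩ := suppI_bound hL (Ω * W ^ (D + 1))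
      have hsup : FiniteDimensional k (suppI L (Ω * W ^ (D + 1)) ⊔ (Ω * W ^ (D + 1)) :
        Submodule k A) := inferInstance
      obtain ⟨S, h1, h2⟩ := hPD (Ω * W ^ (D + 1)) (suppI L (Ω * W ^ (D + 1)) ⊔
        (Ω * W ^ (D + 1))) hf hsup (h1pow W (hW h1W0)) hfr' (by
          refine (Submodule.finrank_add_le_finrank_add_finrank _ _).trans ?_
          refine Nat.add_le_add (hgr.trans ?_) hfr'
          gcongr)
      exact ⟨S, h2, h1⟩)
  have h1W : (1 : A) ∈ W := hW0W h1W0
  obtain ⟨hΩWf, hΩWr⟩ := finrank_mul_pow_bound Ω W (D + 1)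
  obtain ⟨S, hSD, hstar⟩ := exists_star hL (Ω * W ^ (D + 1)) W R hRL hWL DD hDi (by
    have h1 : finrank k (Ω * W ^ (D + 1) : Submodule k A) ≤ m * finrank k W ^ (D + 1) :=
      hΩWr.trans (Nat.mul_le_mul_right _ hΩm)
    have h2 := Nat.mul_le_mul h1 (Nat.add_le_add_right h1 v)
    unfold cPhi at hDc
    omega)
  obtain ⟨hGD, hns⟩ := hDG S hSD
  have H : Ctx D L Ω W (R S) (s S) ω μ (δ' S) :=
    ⟨h1L, h1W, hWL, h1Ω, hωΩ, hsL S, hsR S, hRL S, hGD, hns, hstar,
      fun q => hW0W (hμW0 q), fun q l a => hδR S q l a, fun q => hδ'rel S q⟩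
  -- slices
  let T : (Fin (finrank k Ω) → k) →ₗ[k] (Fin (finrank k Ω) → A) := LinearMap.pi fun a =>
    (LinearMap.toSpanSingleton k A (s S)) ∘ₗ LinearMap.proj a
  have hTf : FiniteDimensional k (LinearMap.range T) := inferInstance
  have hTr : finrank k (LinearMap.range T) ≤ m := by
    refine (LinearMap.finrank_range_le T).trans ?_
    rw [Module.finrank_fin_fun]
    exact hΩm
  have hU : Submodule.pi (R := k) Set.univ
      (fun _ : Fin (finrank k Ω) => W ⊔ Submodule.span k {s S}) ≤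
      Submodule.pi (R := k) Set.univ (fun _ : Fin (finrank k Ω) => W) ⊔ LinearMap.range T := by
    intro f hf
    rw [Submodule.mem_pi] at hf
    have h1 : ∀ a, ∃ (c : k), f a - c • s S ∈ W := by
      intro a
      obtain ⟨w', hw', z, hz, he⟩ := Submodule.mem_sup.1 (hf a (Set.mem_univ _))
      obtain ⟨c, rfl⟩ := Submodule.mem_span_singleton.1 hz
      exact ⟨c, by rw [← he, add_sub_cancel_right]; exact hw'⟩
    choose c hc using h1
    have h2 : f = (f - T c) + T c := by rw [sub_add_cancel]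
    rw [h2]
    refine Submodule.add_mem _ (Submodule.mem_sup_left ?_) (Submodule.mem_sup_right ⟨c, rfl⟩)
    rw [Submodule.mem_pi]
    intro a _
    exact hc a
  obtain ⟨r, hr⟩ := exists_slice hU hTr (B := Fin (cI m) × Fin (cK m v)) (X := cX D m v)
    (p := cP D) (by unfold cX; omega) (fun q a => δ' S q (D + 1) a)
    (fun κ hκ t l => by
      have := H.slice_closure (fun t l a0 => by
        obtain ⟨φ, h1, h2⟩ := hdual (fun q => if q.2 = Sum.inr (Sum.inr (t, l)) ∧ q.1 = a0 then
          1 else 0)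
        refine ⟨φ, h1, fun q a => ?_⟩
        simp only [μ]
        rw [add_mul, add_mul, Finset.sum_mul, map_add, map_add, map_sum]
        have h3 : ∀ e, φ (var e * ω a) = if e = Sum.inr (Sum.inr (t, l)) ∧ a = a0 then 1 else 0 :=
          fun e => by rw [mul_comm]; exact h2 (a, e)
        simp only [h3]
        rw [if_neg (by simp), if_neg (by simp), zero_add, zero_add, Finset.sum_eq_single t]
        · by_cases h4 : q.2 t = l
          · simp [h4]
          · simp [h4]
        · intro t' _ ht'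
          rw [if_neg]
          rintro ⟨h4, -⟩
          simp only [Sum.inr.injEq, Prod.mk.injEq] at h4
          exact ht' h4.1
        · intro h; exact absurd (Finset.mem_univ _) h) κ hκ t l
      exact this)
    (by
      intro hN
      have hW1f : FiniteDimensional k (W0 ⊔ Submodule.span k {s S} : Submodule k A) :=
        inferInstance
      have hW1r : finrank k (W0 ⊔ Submodule.span k {s S} : Submodule k A) ≤ cV D m v + 1 := by
        refine (Submodule.finrank_add_le_finrank_add_finrank _ _).trans ?_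
        have := finrank_span_finset_le_card (R := k) ({s S} : Finset A)
        rw [Finset.coe_singleton, Finset.card_singleton] at this
        exact Nat.add_le_add hW0r this
      obtain ⟨h3, h4⟩ := finrank_mul_pow_bound Ω (W0 ⊔ Submodule.span k {s S}) (D + 1)
      have h5 := H.rank_bound hL hωli (W0 ⊔ Submodule.span k {s S})
        (Submodule.mem_sup_left h1W0)
        (Submodule.mem_sup_right (Submodule.mem_span_singleton_self _))
        (fun q => Submodule.mem_sup_left (hμW0 q))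
        (N := m * (cV D m v + 1) ^ (D + 1)) (h4.trans (by gcongr)) _ hN
      have h6 := cX_bound D m v
      omega)
  have H' := H.comp (fun q : Fin (cI m) × Fin (cK m v) => ((q, r) : Q))
  have hfin := Ctx.finish hL (I := cI m) (K := cK m v) (by unfold cI; omega)
    (fun i => var (Sum.inl i)) (fun j => var (Sum.inr (Sum.inl j)) +
        ∑ t, var (Sum.inr (Sum.inr (t, r t)))) H' (fun i => hvL _)
    (fun j => L.add_mem (hvL _) (Submodule.sum_mem _ fun t _ => hvL _))
    (by
      intro z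
      obtain ⟨φ, h1, h2⟩ := hdual (fun q => Sum.elim (fun i => z q.1 i) (fun _ => 0) q.2)
      exact ⟨φ, h1, fun a i => h2 (a, Sum.inl i)⟩)
    (by
      intro c0 c hc
      have h3 := h1var c0 (Sum.elim (fun _ => 0) (Sum.elim c
        (fun q => if r q.1 = q.2 then ∑ j, c j else 0))) (by
        rw [← hc, Fintype.sum_sum_type, Fintype.sum_sum_type]
        simp only [Sum.elim_inl, Sum.elim_inr, zero_smul, Finset.sum_const_zero, zero_add,
          smul_add, Finset.sum_add_distrib]
        rw [← Finset.sum_smul]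
        congr 2
        rw [Fintype.sum_prod_type, Finset.smul_sum]
        refine Finset.sum_congr rfl fun t _ => ?_
        rw [Finset.sum_eq_single (r t)]
        · simp only [if_true]
        · intro l _ hl
          rw [if_neg (fun h => hl h.symm), zero_smul]
        · intro h; exact absurd (Finset.mem_univ _) h)
      intro j
      exact h3 (Sum.inr (Sum.inl j)))
    (fun q => hδ'm S (q, r))
    (fun q a => by
      have := (Submodule.mem_pi (R := k)).1 (hr q) a (Set.mem_univ _)
      exact this)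
  have h1 : cK m v ≤ (m + 3 * (m * cI m)) * (m + 3 * (m * cI m) + v) := by
    refine hfin.trans ?_
    gcongr
  unfold cK at h1
  omega

end Core

theorem PPD_succ {D : ℕ} {J : Type} [Fintype J] (ih : PPD D J) :
    PPD (D + 1) ((Unit ⊕ (Unit ⊕ Fin (cP D))) ⊕ J) := by
  classical
  intro m v
  obtain ⟨M, hM⟩ := ih (cN D m v * (cN D m v + v) * cN D m v + cN D m v) v
  obtain ⟨R, hR⟩ : ∃ R, R = (cI m + cE m v) + (cK m v + cE m v) + (cX D m v + m + cE m v) + M +
    (m + 2) := ⟨_, rfl⟩
  refine ⟨R, fun k A _ _ _ _ L Ω F _ _ hL h1L h1Ω hΩm hFm z hz w hwL hw => ?_⟩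
  by_contra hno
  push Not at hno
  obtain ⟨ω, hωli, hωspan, hωmul⟩ := mem_mul_basis Ω L
  have hVf : FiniteDimensional k (Submodule.span k ({1, z} : Set A)) :=
    FiniteDimensional.span_of_finite k (Set.toFinite _)
  set V : Submodule k A := F ⊔ Submodule.span k ({1, z} : Set A) with hVdef
  have hVf' : FiniteDimensional k V := by rw [hVdef]; infer_instance
  let w' : ((Unit ⊕ (Unit ⊕ Fin (cP D))) ⊕ J) × Fin R → A := fun q => w q.1 q.2
  have hw'L : ∀ q, w' q ∈ L := fun q => hwL _ _
  obtain ⟨T, hT, hTi⟩ := deletion w' hw V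
  have hV2 : finrank k V ≤ m + 2 := by
    refine (Submodule.finrank_add_le_finrank_add_finrank _ _).trans (Nat.add_le_add hFm ?_)
    have := finrank_span_finset_le_card (R := k) ({1, z} : Finset A)
    rw [Finset.coe_insert, Finset.coe_singleton] at this
    exact this.trans Finset.card_le_two
  have h1V : (1 : A) ∈ V := Submodule.mem_sup_right (Submodule.subset_span (by simp))
  have hzV : z ∈ V := Submodule.mem_sup_right (Submodule.subset_span (by simp))
  have hT' : Fintype.card (((Unit ⊕ (Unit ⊕ Fin (cP D))) ⊕ J) × Fin R) ≤ T.card + (m + 2) := by omega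
  obtain ⟨aI, haI, haIT⟩ := exists_embed_block
    (fun i : Fin R => ((Sum.inl (Sum.inl ()), i) : ((Unit ⊕ (Unit ⊕ Fin (cP D))) ⊕ J) × Fin R))
    (fun a b h => congrArg Prod.snd h) T (cI m + cE m v) (m + 2)
    (by rw [Fintype.card_fin]; omega) hT'
  obtain ⟨aK, haK, haKT⟩ := exists_embed_block
    (fun i : Fin R => ((Sum.inl (Sum.inr (Sum.inl ())), i) : ((Unit ⊕ (Unit ⊕ Fin (cP D))) ⊕ J) × Fin R))
    (fun a b h => congrArg Prod.snd h) T (cK m v + cE m v) (m + 2)
    (by rw [Fintype.card_fin]; omega) hT'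
  have hP := fun t : Fin (cP D) => exists_embed_block
    (fun i : Fin R => ((Sum.inl (Sum.inr (Sum.inr t)), i) : ((Unit ⊕ (Unit ⊕ Fin (cP D))) ⊕ J) × Fin R))
    (fun a b h => congrArg Prod.snd h) T (cX D m v + m + cE m v) (m + 2)
    (by rw [Fintype.card_fin]; omega) hT'
  choose aP haP haPT using hP
  have hJ := fun j : J => exists_embed_block
    (fun i : Fin R => ((Sum.inr j, i) : ((Unit ⊕ (Unit ⊕ Fin (cP D))) ⊕ J) × Fin R))
    (fun a b h => congrArg Prod.snd h) T M (m + 2)
    (by rw [Fintype.card_fin]; omega) hT'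
  choose aJ haJ haJT using hJ
  let ε : Type := Fin (cI m + cE m v) ⊕ (Fin (cK m v + cE m v) ⊕
    Fin (cP D) × Fin (cX D m v + m + cE m v))
  let f : ε → ((Unit ⊕ (Unit ⊕ Fin (cP D))) ⊕ J) × Fin R :=
    Sum.elim (fun i => (Sum.inl (Sum.inl ()), aI i))
      (Sum.elim (fun j => (Sum.inl (Sum.inr (Sum.inl ())), aK j))
      (fun d => (Sum.inl (Sum.inr (Sum.inr d.1)), aP d.1 d.2)))
  have hfT : ∀ e, f e ∈ T := by
    rintro (i | (j | d))
    · exact haIT i
    · exact haKT j
    · exact haPT d.1 d.2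
  have hfi : Function.Injective f := by
    rintro (i | (j | ⟨t, l⟩)) (i' | (j' | ⟨t', l'⟩)) h
    · exact congrArg Sum.inl (haI (congrArg Prod.snd h))
    · exact absurd (congrArg Prod.fst h) (by simp [f])
    · exact absurd (congrArg Prod.fst h) (by simp [f])
    · exact absurd (congrArg Prod.fst h) (by simp [f])
    · exact congrArg (fun x => Sum.inr (Sum.inl x)) (haK (congrArg Prod.snd h))
    · exact absurd (congrArg Prod.fst h) (by simp [f])
    · exact absurd (congrArg Prod.fst h) (by simp [f])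
    · exact absurd (congrArg Prod.fst h) (by simp [f])
    · have h1 : t = t' := by
        have := congrArg Prod.fst h
        simpa [f] using this
      subst h1
      exact congrArg (fun x => Sum.inr (Sum.inr (t, x))) (haP t (congrArg Prod.snd h))
  let E : ε → A := Sum.elim (fun i => z + w' (f (Sum.inl i))) (fun q => w' (f (Sum.inr q)))
  have hEL : ∀ e, E e ∈ L := by
    rintro (i | q)
    · exact L.add_mem hz (hw'L _)
    · exact hw'L _
  have h1E : ∀ (c0 : k) (c : ε → k), c0 • (1 : A) + ∑ e, c e • E e = 0 → ∀ e, c e = 0 := by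
    intro c0 c hc
    obtain ⟨c', h3, h4, h5⟩ := sum_embed f hfi c w'
    have h6 : ∑ e, c e • w' (f e) ∈ V := by
      have h7 : ∑ e, c e • w' (f e) = -(c0 • (1 : A) + (∑ i, c (Sum.inl i)) • z) := by
        have e1 : ∑ e, c e • E e = ∑ e, c e • w' (f e) + (∑ i, c (Sum.inl i)) • z :=
          sum_blocks c (fun e => w' (f e)) z
        rw [e1] at hc
        rw [eq_neg_iff_add_eq_zero, ← hc]
        ring
      rw [h7]
      exact Submodule.neg_mem _ (Submodule.add_mem _ (Submodule.smul_mem _ _ h1V)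
        (Submodule.smul_mem _ _ hzV))
    have h7 := hTi c' (fun i hi => h4 i (by
      rintro ⟨e, rfl⟩
      exact hi (hfT e))) (by rw [h5]; exact h6)
    intro e
    rw [← h3 e]
    exact h7 _
  obtain ⟨T2, hT2, hfree⟩ := free hL h1L Ω ω hωli E hEL h1E
  have hT2' : Fintype.card ε ≤ T2.card + cE m v := by
    refine hT2.trans (Nat.add_le_add_left ?_ _)
    unfold cE
    gcongr
  obtain ⟨gI, hgI, hgIT⟩ := exists_embed_block (fun i => (Sum.inl i : ε))
    (fun a b h => Sum.inl_injective h) T2 (cI m) (cE m v)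
    (by rw [Fintype.card_fin]) hT2'
  obtain ⟨gK, hgK, hgKT⟩ := exists_embed_block (fun i => (Sum.inr (Sum.inl i) : ε))
    (fun a b h => Sum.inl_injective (Sum.inr_injective h)) T2 (cK m v) (cE m v)
    (by rw [Fintype.card_fin]) hT2'
  have hgP := fun t : Fin (cP D) => exists_embed_block (fun i => (Sum.inr (Sum.inr (t, i)) : ε))
    (fun a b h => congrArg Prod.snd (Sum.inr_injective (Sum.inr_injective h))) T2
    (cX D m v + m) (cE m v) (by rw [Fintype.card_fin]) hT2'
  choose gP hgP hgPT using hgP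
  let ν : Type := Fin (cI m) ⊕ (Fin (cK m v) ⊕ Fin (cP D) × Fin (cX D m v + m))
  let g : ν → ε := Sum.map gI (Sum.map gK (fun q => (q.1, gP q.1 q.2)))
  have hg : Function.Injective g := Function.Injective.sumMap hgI (hgK.sumMap (by
    rintro ⟨t, l⟩ ⟨t', l'⟩ h
    simp only [Prod.mk.injEq] at h
    obtain ⟨h1, h2⟩ := h
    subst h1
    rw [hgP t h2]))
  have hgT : ∀ e, g e ∈ T2 := by
    rintro (i | (j | d))
    · exact hgIT i
    · exact hgKT j
    · exact hgPT d.1 d.2
  -- independence of products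
  have hdual : ∀ zz : Fin (finrank k Ω) × ν → k, ∃ φ : A →ₗ[k] k, (∀ o ∈ Ω, φ o = 0) ∧
      ∀ q, φ (ω q.1 * E (g q.2)) = zz q := by
    intro zz
    refine exists_dual Ω (fun q => ω q.1 * E (g q.2)) (fun c hc => ?_) zz
    let G : Fin (finrank k Ω) × ν → Fin (finrank k Ω) × ε := Prod.map id g
    have hG : Function.Injective G := Function.injective_id.prodMap hg
    obtain ⟨c', h3, h4, h5⟩ := sum_embed G hG c (fun q => ω q.1 * E q.2)
    have h6 := hfree c' (fun q hq => h4 q (by
      rintro ⟨q', rfl⟩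
      exact hq (hgT q'.2))) (by rw [h5]; exact hc)
    intro q
    rw [← h3 q]
    exact h6 _
  have h1E' : ∀ (c0 : k) (c : ν → k),
      c0 • (1 : A) + ∑ e, c e • E (g e) = 0 → ∀ e, c e = 0 := by
    intro c0 c hc e
    obtain ⟨c', h3, h4, h5⟩ := sum_embed g hg c E
    rw [← h5] at hc
    rw [← h3 e]
    exact h1E c0 c' hc _
  refine coreD' hL h1L h1Ω hΩm ω hωli hωspan hωmul (fun e => E (g e)) (fun e => hEL _)
    hdual h1E' (ι := J → Fin M) (fun S => ∑ j, w (Sum.inr j) (aJ j (S j)))
    (fun S => Submodule.sum_mem _ fun j _ => hwL _ _) ?_ ?_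
  · intro Ω' F' hf1 hf2 h1Ω' hΩ'm hF'm
    obtain ⟨S, h3, h4⟩ := hM k A L Ω' F' hf1 hf2 hL h1L h1Ω' (hΩ'm.trans (by omega)) hF'm 0
      L.zero_mem (fun j i => w (Sum.inr j) (aJ j i)) (fun j i => hwL _ _)
      (hw.comp (fun q : J × Fin M => ((Sum.inr q.1, aJ q.1 q.2) : ((Unit ⊕ (Unit ⊕ Fin (cP D))) ⊕ J) × Fin R)) (by
        rintro ⟨j, i⟩ ⟨j', i'⟩ h
        have h1 : j = j' := by
          have := congrArg Prod.fst h
          simpa using this
        subst h1
        exact congrArg (Prod.mk j) (haJ j (congrArg Prod.snd h))))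
    rw [zero_add] at h3 h4
    exact ⟨S, h3, h4⟩
  · intro i j r S hGD
    let ff : ((Unit ⊕ (Unit ⊕ Fin (cP D))) ⊕ J) → Fin R := Sum.elim (Sum.elim (fun _ => aI (gI i))
      (Sum.elim (fun _ => aK (gK j)) (fun t => aP t (gP t (r t))))) (fun j => aJ j (S j))
    have hffT : ∀ q, (q, ff q) ∈ T := by
      rintro ((u | (u | t)) | j)
      · exact haIT _
      · exact haKT _
      · exact haPT _ _
      · exact haJT _ _
    have h3 : z + ∑ j, w j (ff j) ∉ F :=
      part_not_mem (J := ((Unit ⊕ (Unit ⊕ Fin (cP D))) ⊕ J)) (le_sup_left : F ≤ V) hzV hTi ff hffT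
    apply hno ff h3
    have h5 : z + ∑ j, w j (ff j) = E (g (Sum.inl i)) + (E (g (Sum.inr (Sum.inl j))) +
        ∑ t, E (g (Sum.inr (Sum.inr (t, r t))))) + ∑ j, w (Sum.inr j) (aJ j (S j)) := by
      rw [Fintype.sum_sum_type, Fintype.sum_sum_type, Fintype.sum_sum_type, Fintype.sum_unique,
        Fintype.sum_unique]
      change z + (w (Sum.inl (Sum.inl ())) (aI (gI i)) +
        (w (Sum.inl (Sum.inr (Sum.inl ()))) (aK (gK j)) +
        ∑ t, w (Sum.inl (Sum.inr (Sum.inr t))) (aP t (gP t (r t)))) +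
        ∑ j, w (Sum.inr j) (aJ j (S j))) = (z + w (Sum.inl (Sum.inl ())) (aI (gI i))) +
        (w (Sum.inl (Sum.inr (Sum.inl ()))) (aK (gK j)) +
        ∑ t, w (Sum.inl (Sum.inr (Sum.inr t))) (aP t (gP t (r t)))) +
        ∑ j, w (Sum.inr j) (aJ j (S j))
      ring
    rw [h5]
    exact hGD

/-- **Generic sums with `D ^ 2 + 4 D - 2` summands.** -/
theorem PPD_all (D : ℕ) : PPD (D + 1) (Fin (D * D + 6 * D + 3)) := by
  induction D with
  | zero => exact PPD_one.congr (Fintype.equivFinOfCardEq (by simp))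
  | succ D ih =>
    refine (PPD_succ ih).congr (Fintype.equivFinOfCardEq ?_)
    simp only [Fintype.card_sum, Fintype.card_unit, Fintype.card_fin]
    unfold cP
    ring

end Pool.Agent.R350
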