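import Mathlib

/-!
# Boxes with `t` elements in every coordinate (a theorem of Erdős)
-/

set_option autoImplicit false

namespace Pool.Agent.R350

open Finset

theorem card_noninj (u N : ℕ) :
    (Finset.univ.filter fun τ : Fin (u + 1) → Fin N => ¬ Function.Injective τ).card ≤
      (u + 1) ^ 2 * N ^ u := by
  classical
  have h1 : (Finset.univ.filter fun τ : Fin (u + 1) → Fin N => ¬ Function.Injective τ) ⊆
      (Finset.univ.filter fun q : Fin (u + 1) × Fin (u + 1) => q.1 ≠ q.2).biUnion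
        fun q => Finset.univ.filter fun τ : Fin (u + 1) → Fin N => τ q.1 = τ q.2 := by
    intro τ hτ
    rw [Finset.mem_filter] at hτ
    have h2 := hτ.2
    unfold Function.Injective at h2
    push Not at h2
    obtain ⟨a, b, hab, hne⟩ := h2
    exact Finset.mem_biUnion.2 ⟨(a, b), Finset.mem_filter.2 ⟨Finset.mem_univ _, hne⟩,
      Finset.mem_filter.2 ⟨Finset.mem_univ _, hab⟩⟩
  have h3 : ∀ q ∈ (Finset.univ.filter fun q : Fin (u + 1) × Fin (u + 1) => q.1 ≠ q.2),
      (Finset.univ.filter fun τ : Fin (u + 1) → Fin N => τ q.1 = τ q.2).card ≤ N ^ u := by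
    rintro ⟨a, b⟩ hq
    have hab : a ≠ b := (Finset.mem_filter.1 hq).2
    have h4 : (Finset.univ.filter fun τ : Fin (u + 1) → Fin N => τ a = τ b).card ≤
        (Finset.univ : Finset ({i : Fin (u + 1) // i ≠ b} → Fin N)).card := by
      refine Finset.card_le_card_of_injOn (fun τ i => τ i.1) (fun _ _ => Finset.mem_univ _) ?_
      intro τ hτ τ' hτ' h
      have e1 : τ a = τ b := by
        have : τ ∈ Finset.univ.filter fun τ : Fin (u + 1) → Fin N => τ a = τ b := hτ
        exact (Finset.mem_filter.1 this).2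
      have e2 : τ' a = τ' b := by
        have : τ' ∈ Finset.univ.filter fun τ : Fin (u + 1) → Fin N => τ a = τ b := hτ'
        exact (Finset.mem_filter.1 this).2
      funext i
      by_cases hi : i = b
      · rw [hi, ← e1, ← e2]
        exact congrFun h ⟨a, hab⟩
      · exact congrFun h ⟨i, hi⟩
    refine h4.trans (le_of_eq ?_)
    rw [Finset.card_univ, Fintype.card_fun, Fintype.card_fin, Fintype.card_subtype_compl,
      Fintype.card_fin, Fintype.card_unique, Nat.add_sub_cancel]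
  refine (Finset.card_le_card h1).trans (Finset.card_biUnion_le.trans
    ((Finset.sum_le_sum h3).trans ?_))
  rw [Finset.sum_const, smul_eq_mul]
  refine Nat.mul_le_mul_right _ ((Finset.card_filter_le _ _).trans (le_of_eq ?_))
  rw [Finset.card_univ, Fintype.card_prod, Fintype.card_fin, sq]

theorem tbox_step (u : ℕ) {r N : ℕ} (B : Finset (Fin (r + 1) → Fin N)) (M : ℝ) (hM0 : 0 ≤ M)
    (hM : ∀ τ : Fin (u + 1) → Fin N, Function.Injective τ →
      ((Finset.univ.filter fun y : Fin r → Fin N => ∀ s, (Fin.cons (τ s) y : Fin (r + 1) → Fin N)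
        ∈ B).card : ℝ) ≤ M) :
    (B.card : ℝ) ^ (u + 1) ≤ ((N : ℝ) ^ r) ^ u *
      ((N : ℝ) ^ (u + 1) * M + ((u + 1 : ℕ) : ℝ) ^ 2 * (N : ℝ) ^ u * (N : ℝ) ^ r) := by
  classical
  let χ : Fin N → (Fin r → Fin N) → ℝ := fun i y =>
    if (Fin.cons i y : Fin (r + 1) → Fin N) ∈ B then 1 else 0
  have hχ : ∀ i y, 0 ≤ χ i y := fun i y => by
    simp only [χ]
    split_ifs <;> norm_num
  have h1 : (B.card : ℝ) = ∑ y, ∑ i, χ i y := by
    rw [Finset.sum_comm, ← Fintype.sum_prod_type' (f := fun i y => χ i y)]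
    have e1 := Fintype.sum_equiv (Fin.consEquiv (fun _ : Fin (r + 1) => Fin N))
      (fun q => χ q.1 q.2) (fun f => if f ∈ B then (1 : ℝ) else 0) (fun q => rfl)
    rw [e1, Finset.sum_ite_mem, Finset.univ_inter, Finset.sum_const, nsmul_eq_mul, mul_one]
  have h2 : (B.card : ℝ) ^ (u + 1) ≤ ((N : ℝ) ^ r) ^ u * ∑ y, (∑ i, χ i y) ^ (u + 1) := by
    rw [h1]
    have := pow_sum_le_card_mul_sum_pow (s := (Finset.univ : Finset (Fin r → Fin N)))
      (f := fun y => ∑ i, χ i y) (fun y _ => Finset.sum_nonneg fun i _ => hχ i y) u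
    rwa [Finset.card_univ, Fintype.card_fun, Fintype.card_fin, Fintype.card_fin, Nat.cast_pow]
      at this
  refine h2.trans (mul_le_mul_of_nonneg_left ?_ (by positivity))
  have h3 : ∑ y, (∑ i, χ i y) ^ (u + 1) = ∑ τ : Fin (u + 1) → Fin N,
      ((Finset.univ.filter fun y : Fin r → Fin N => ∀ s, (Fin.cons (τ s) y : Fin (r + 1) → Fin N)
        ∈ B).card : ℝ) := by
    simp only [Fintype.sum_pow]
    rw [Finset.sum_comm]
    refine Finset.sum_congr rfl fun τ _ => ?_
    simp only [χ, Finset.prod_boole, Finset.mem_univ, true_implies]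
    rw [Finset.sum_boole]
  rw [h3, ← Finset.sum_filter_add_sum_filter_not Finset.univ (fun τ : Fin (u + 1) → Fin N =>
    Function.Injective τ)]
  refine add_le_add ?_ ?_
  · refine (Finset.sum_le_sum fun τ hτ => hM τ (Finset.mem_filter.1 hτ).2).trans ?_
    rw [Finset.sum_const, nsmul_eq_mul]
    refine mul_le_mul_of_nonneg_right ?_ hM0
    have : (Finset.univ.filter fun τ : Fin (u + 1) → Fin N => Function.Injective τ).card ≤
        N ^ (u + 1) := by
      refine (Finset.card_filter_le _ _).trans (le_of_eq ?_)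
      rw [Finset.card_univ, Fintype.card_fun, Fintype.card_fin, Fintype.card_fin]
    exact_mod_cast this
  · refine (Finset.sum_le_card_nsmul _ _ ((N : ℝ) ^ r) fun τ _ => ?_).trans ?_
    · have : (Finset.univ.filter fun y : Fin r → Fin N =>
          ∀ s, (Fin.cons (τ s) y : Fin (r + 1) → Fin N) ∈ B).card ≤ N ^ r := by
        refine (Finset.card_filter_le _ _).trans (le_of_eq ?_)
        rw [Finset.card_univ, Fintype.card_fun, Fintype.card_fin, Fintype.card_fin]
      exact_mod_cast this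
    · rw [nsmul_eq_mul]
      refine mul_le_mul_of_nonneg_right ?_ (by positivity)
      exact_mod_cast card_noninj u N

/-- **Erdős's theorem.** -/
theorem tbox (u : ℕ) : ∀ r : ℕ, ∃ K : ℝ, 1 ≤ K ∧ ∀ (N : ℕ) (B : Finset (Fin (r + 1) → Fin N)),
    (¬ ∃ p : Fin (r + 1) → Fin (u + 1) → Fin N, (∀ j, Function.Injective (p j)) ∧
      ∀ c : Fin (r + 1) → Fin (u + 1), (fun j => p j (c j)) ∈ B) →
    (B.card : ℝ) ≤ K * (N : ℝ) ^ (r + 1) * (N : ℝ) ^ (-(1 / ((u + 1 : ℕ) : ℝ) ^ r)) := by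
  classical
  intro r
  induction r with
  | zero =>
    refine ⟨(u + 1 : ℕ), by exact_mod_cast Nat.succ_pos u, fun N B hB => ?_⟩
    have h1 : B.card ≤ u + 1 := by
      by_contra hcon
      apply hB
      obtain ⟨g⟩ := Function.Embedding.nonempty_of_card_le (α := Fin (u + 1)) (β := B) (by
        rw [Fintype.card_fin, Fintype.card_coe]; omega)
      refine ⟨fun _ s => (g s).1 0, fun j a b h => ?_, fun c => ?_⟩
      · apply g.injective
        apply Subtype.ext
        funext i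
        rw [Fin.fin_one_eq_zero i]
        exact h
      · have : (fun j => (g (c j)).1 0 : Fin 1 → Fin N) = (g (c 0)).1 := by
          funext j
          rw [Fin.fin_one_eq_zero j]
        rw [this]
        exact (g (c 0)).2
    rcases Nat.eq_zero_or_pos N with hN | hN
    · have hB0 : B.card = 0 := by
        rw [Finset.card_eq_zero, Finset.eq_empty_iff_forall_notMem]
        intro f _
        have := (f 0).2
        omega
      rw [hB0]
      push_cast
      positivity
    · have hN' : (N : ℝ) ≠ 0 := by positivity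
      have e1 : (N : ℝ) ^ (-(1 / ((u + 1 : ℕ) : ℝ) ^ 0)) = ((N : ℝ))⁻¹ := by
        rw [pow_zero, div_one, Real.rpow_neg_one]
      have e2 : ((u + 1 : ℕ) : ℝ) * (N : ℝ) ^ (0 + 1) * ((N : ℝ))⁻¹ = ((u + 1 : ℕ) : ℝ) := by
        rw [zero_add, pow_one, mul_assoc, mul_inv_cancel₀ hN', mul_one]
      rw [e1, e2]
      exact_mod_cast h1
  | succ r ih =>
    obtain ⟨K, hK1, hK⟩ := ih
    refine ⟨K + ((u + 1 : ℕ) : ℝ) ^ 2, by nlinarith [sq_nonneg (((u + 1 : ℕ) : ℝ))],
      fun N B hB => ?_⟩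
    rcases Nat.eq_zero_or_pos N with hN | hN
    · have hB0 : B.card = 0 := by
        rw [Finset.card_eq_zero, Finset.eq_empty_iff_forall_notMem]
        intro f _
        have := (f 0).2
        omega
      rw [hB0]
      push_cast
      positivity
    have hN1 : (1 : ℝ) ≤ N := by exact_mod_cast hN
    have hN0 : (0 : ℝ) < N := by linarith
    set e : ℝ := 1 / ((u + 1 : ℕ) : ℝ) ^ r with he
    have hu1 : (1 : ℝ) ≤ ((u + 1 : ℕ) : ℝ) := by exact_mod_cast Nat.succ_pos u
    have he1 : e ≤ 1 := by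
      rw [he, div_le_one (by positivity)]
      exact one_le_pow₀ hu1
    set s : ℝ := (N : ℝ) ^ (-e) with hs
    have hs0 : 0 < s := Real.rpow_pos_of_pos hN0 _
    have hstep := tbox_step u B (K * (N : ℝ) ^ (r + 1) * s) (by positivity) (by
      intro τ hτ
      refine hK N _ ?_
      rintro ⟨p, hp, hpc⟩
      apply hB
      refine ⟨Fin.cons τ p, fun j => ?_, fun c => ?_⟩
      · refine Fin.cases ?_ (fun i => ?_) j
        · exact hτ
        · exact hp i
      · have h1 := (Finset.mem_filter.1 (hpc (fun j => c j.succ))).2 (c 0)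
        have h2 : (fun j => (Fin.cons τ p : Fin (r + 1 + 1) → Fin (u + 1) → Fin N) j (c j)) =
            Fin.cons (τ (c 0)) (fun j => p j (c j.succ)) := by
          funext j
          refine Fin.cases ?_ (fun i => ?_) j
          · simp
          · simp
        rw [h2]
        exact h1)
    have hinv : ((N : ℝ))⁻¹ ≤ s := by
      rw [hs, ← Real.rpow_neg_one]
      exact Real.rpow_le_rpow_of_exponent_le hN1 (by linarith)
    have h3 : (B.card : ℝ) ^ (u + 1) ≤ ((K + ((u + 1 : ℕ) : ℝ) ^ 2) * (N : ℝ) ^ (r + 1 + 1)) ^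
        (u + 1) * s := by
      refine hstep.trans ?_
      have h4 : (N : ℝ) ^ u * (N : ℝ) ^ (r + 1) ≤ (N : ℝ) ^ (u + 1) * (N : ℝ) ^ (r + 1) * s := by
        calc (N : ℝ) ^ u * (N : ℝ) ^ (r + 1) = (N : ℝ) ^ (u + 1) * (N : ℝ) ^ (r + 1) *
              ((N : ℝ))⁻¹ := by
              rw [pow_succ (N : ℝ) u]; field_simp
          _ ≤ _ := by gcongr
      have hK2 : K + ((u + 1 : ℕ) : ℝ) ^ 2 ≤ (K + ((u + 1 : ℕ) : ℝ) ^ 2) ^ (u + 1) :=
        le_self_pow₀ (by nlinarith) (Nat.succ_ne_zero u)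
      calc ((N : ℝ) ^ (r + 1)) ^ u * ((N : ℝ) ^ (u + 1) * (K * (N : ℝ) ^ (r + 1) * s) +
            ((u + 1 : ℕ) : ℝ) ^ 2 * (N : ℝ) ^ u * (N : ℝ) ^ (r + 1)) =
            ((N : ℝ) ^ (r + 1)) ^ u * ((N : ℝ) ^ (u + 1) * (K * (N : ℝ) ^ (r + 1) * s) +
            ((u + 1 : ℕ) : ℝ) ^ 2 * ((N : ℝ) ^ u * (N : ℝ) ^ (r + 1))) := by ring
        _ ≤ ((N : ℝ) ^ (r + 1)) ^ u * ((N : ℝ) ^ (u + 1) * (K * (N : ℝ) ^ (r + 1) * s) +
            ((u + 1 : ℕ) : ℝ) ^ 2 * ((N : ℝ) ^ (u + 1) * (N : ℝ) ^ (r + 1) * s)) := by gcongr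
        _ = (K + ((u + 1 : ℕ) : ℝ) ^ 2) * ((N : ℝ) ^ (r + 1 + 1)) ^ (u + 1) * s := by ring
        _ ≤ (K + ((u + 1 : ℕ) : ℝ) ^ 2) ^ (u + 1) * ((N : ℝ) ^ (r + 1 + 1)) ^ (u + 1) * s := by
            gcongr
        _ = _ := by rw [mul_pow]
    have h5 : s = ((N : ℝ) ^ (-(1 / ((u + 1 : ℕ) : ℝ) ^ (r + 1)))) ^ (u + 1) := by
      rw [hs, he, ← Real.rpow_natCast ((N : ℝ) ^ (-(1 / ((u + 1 : ℕ) : ℝ) ^ (r + 1)))) (u + 1),
        ← Real.rpow_mul hN0.le]
      congr 1
      have hu0 : ((u + 1 : ℕ) : ℝ) ≠ 0 := by positivity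
      field_simp
      rw [pow_succ]
    rw [h5, ← mul_pow] at h3
    exact le_of_pow_le_pow_left₀ (Nat.succ_ne_zero u) (by positivity) h3

end Pool.Agent.R350
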