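import Pool.Agent.R350.GR
import Pool.Agent.R350.GM
import Pool.Agent.R350.TBox

/-!
# Sums of few summands: free tuples up to a power saving exceptional set
-/

set_option autoImplicit false

namespace Pool.Agent.R350

open Module Finset

/-- the number of summands for relations of degree `D + 1` -/
abbrev nS (D : ℕ) : ℕ := D * D + 6 * D + 3

theorem npow_mono {N : ℕ} {δ δ' : ℝ} (h0 : 0 < δ) (h : δ ≤ δ') :
    (N : ℝ) ^ (-δ') ≤ (N : ℝ) ^ (-δ) := by
  rcases Nat.eq_zero_or_pos N with hN | hN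
  · rw [hN, Nat.cast_zero, Real.zero_rpow (by linarith), Real.zero_rpow (by linarith)]
  · exact Real.rpow_le_rpow_of_exponent_le (by exact_mod_cast hN) (by linarith)

/-- disjoint parts -/
theorem disjoint_sub {r R N : ℕ} (p : Fin r → Fin (r * R + 1) → Fin N)
    (hp : ∀ j, Function.Injective (p j)) : ∃ c : Fin r → Fin R → Fin (r * R + 1),
      Function.Injective (fun q : Fin r × Fin R => p q.1 (c q.1 q.2)) := by
  classical
  obtain ⟨f, hf1, hf2⟩ := (Finset.all_card_le_biUnion_card_iff_exists_injective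
    (fun q : Fin r × Fin R => Finset.univ.image (p q.1))).1 (by
      intro s
      rcases s.eq_empty_or_nonempty with h | ⟨x, hx⟩
      · rw [h]; simp
      · have h1 : s.card ≤ r * R := by
          refine (Finset.card_le_univ s).trans (le_of_eq ?_)
          rw [Fintype.card_prod, Fintype.card_fin, Fintype.card_fin]
        have h2 : (Finset.univ.image (p x.1)).card = r * R + 1 := by
          rw [Finset.card_image_of_injective _ (hp x.1), Finset.card_univ, Fintype.card_fin]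
        have h3 := Finset.card_le_card (Finset.subset_biUnion_of_mem
          (fun q : Fin r × Fin R => Finset.univ.image (p q.1)) hx)
        omega)
  have h4 : ∀ q : Fin r × Fin R, ∃ i, p q.1 i = f q := fun q => by
    have := hf2 q
    rw [Finset.mem_image] at this
    obtain ⟨i, -, hi⟩ := this
    exact ⟨i, hi⟩
  choose c hc using h4
  refine ⟨fun j i => c (j, i), ?_⟩
  have : (fun q : Fin r × Fin R => p q.1 (c (q.1, q.2))) = f := by
    funext q
    exact hc q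
  rw [this]
  exact hf1

/-- one sum -/
theorem sum_few (D m v : ℕ) : ∃ δ : ℝ, 0 < δ ∧ ∃ K : ℝ, 0 ≤ K ∧ ∀ (k A : Type) [Field k]
    [CharZero k] [Field A] [Algebra k A] (L Ω F : Submodule k A), FiniteDimensional k Ω →
    FiniteDimensional k F → HypV v L → (1 : A) ∈ L → (1 : A) ∈ Ω → finrank k Ω ≤ m →
    finrank k F ≤ m → ∀ z ∈ L, ∀ (N : ℕ) (w : Fin (nS D) → Fin N → A), (∀ j i, w j i ∈ L) →
    (∀ (R : ℕ) (p : Fin (nS D) → Fin R → Fin N),
      Function.Injective (fun q : Fin (nS D) × Fin R => p q.1 q.2) →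
      LinearIndependent k (fun q : Fin (nS D) × Fin R => w q.1 (p q.1 q.2))) →
    ∀ B : Finset (Fin (nS D) → Fin N),
    (∀ f ∈ B, z + ∑ j, w j (f j) ∈ F ∨ ¬ GD (D + 1) L Ω (z + ∑ j, w j (f j))) →
    (B.card : ℝ) ≤ K * (N : ℝ) ^ nS D * (N : ℝ) ^ (-δ) := by
  classical
  obtain ⟨R, hR⟩ := PPD_all D m v
  obtain ⟨K, hK1, hK⟩ := tbox (nS D * R) (D * D + 6 * D + 2)
  refine ⟨1 / ((nS D * R + 1 : ℕ) : ℝ) ^ (D * D + 6 * D + 2), by positivity, K, by linarith, ?_⟩
  intro k A _ _ _ _ L Ω F h1 h2 h3 h4 h5 h6 h7 z hz N w hw hli B hB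
  refine hK N B ?_
  rintro ⟨p, hp, hpB⟩
  obtain ⟨c, hc⟩ := disjoint_sub p hp
  obtain ⟨f, hf1, hf2⟩ := hR k A L Ω F h1 h2 h3 h4 h5 h6 h7 z hz
    (fun j i => w j (p j (c j i))) (fun j i => hw _ _) (hli R (fun j i => p j (c j i)) hc)
  rcases hB _ (hpB (fun j => c j (f j))) with h | h
  · exact hf1 h
  · exact h hf2

/-- **Several sums.** -/
theorem sums_few (D n : ℕ) : ∀ m v : ℕ, ∃ δ : ℝ, 0 < δ ∧ ∃ K : ℝ, 0 ≤ K ∧ ∀ (k A : Type)
    [Field k] [CharZero k] [Field A] [Algebra k A] (L E : Submodule k A), FiniteDimensional k E →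
    HypV v L → (1 : A) ∈ L → (1 : A) ∈ E → finrank k E ≤ m →
    ∀ z : Fin n → A, (∀ a, z a ∈ L) →
    ∀ (N : ℕ) (w : Fin n → Fin (nS D) → Fin N → A), (∀ a j i, w a j i ∈ L) →
    (∀ a, ∀ (R : ℕ) (p : Fin (nS D) → Fin R → Fin N),
      Function.Injective (fun q : Fin (nS D) × Fin R => p q.1 q.2) →
      LinearIndependent k (fun q : Fin (nS D) × Fin R => w a q.1 (p q.1 q.2))) →
    ∀ B : Finset (Fin n → Fin (nS D) → Fin N),
    (∀ f ∈ B, ¬ FreeT (D + 1) L E (fun a => z a + ∑ j, w a j (f a j))) →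
    (B.card : ℝ) ≤ K * (N : ℝ) ^ (n * nS D) * (N : ℝ) ^ (-δ) := by
  classical
  induction n with
  | zero =>
    intro m v
    refine ⟨1, one_pos, 0, le_rfl, fun k A _ _ _ _ L E _ _ _ _ _ z _ N w _ _ B hB => ?_⟩
    have : B = ∅ := by
      rw [Finset.eq_empty_iff_forall_notMem]
      intro a ha
      exact hB a ha (FreeT.nil (D + 1) L E _)
    rw [this]
    simp
  | succ n ih =>
    intro m v
    obtain ⟨δ₁, hδ₁, K₁, hK₁, h₁⟩ := sum_few D (m + (m * (m + v) * m + m)) v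
    obtain ⟨δ₂, hδ₂, K₂, hK₂, h₂⟩ := ih ((D + 1 + 1) * m) v
    refine ⟨min δ₁ δ₂, lt_min hδ₁ hδ₂, K₁ + K₂, by positivity,
      fun k A _ _ _ _ L E hE hL h1L h1 hm z hz N w hw hli B hB => ?_⟩
    obtain ⟨hf, hfr⟩ := suppI_bound hL E
    have hF : FiniteDimensional k (suppI L E ⊔ E : Submodule k A) := inferInstance
    have hFr : finrank k (suppI L E ⊔ E : Submodule k A) ≤ m + (m * (m + v) * m + m) := by
      refine (Submodule.finrank_add_le_finrank_add_finrank _ _).trans ?_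
      have : finrank k (suppI L E) ≤ m * (m + v) * m := hfr.trans (by gcongr)
      omega
    have e1 : (N : ℝ) ^ (-δ₁) ≤ (N : ℝ) ^ (-(min δ₁ δ₂)) :=
      npow_mono (lt_min hδ₁ hδ₂) (min_le_left _ _)
    have e2 : (N : ℝ) ^ (-δ₂) ≤ (N : ℝ) ^ (-(min δ₁ δ₂)) :=
      npow_mono (lt_min hδ₁ hδ₂) (min_le_right _ _)
    have h3 := count_first n (fun f : Fin (n + 1) → Fin (nS D) → Fin N =>
      ¬ FreeT (D + 1) L E (fun a => z a + ∑ j, w a j (f a j)))
      (Finset.univ.filter (fun g : Fin (nS D) → Fin N =>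
        z 0 + ∑ j, w 0 j (g j) ∈ (suppI L E ⊔ E : Submodule k A) ∨
          ¬ GD (D + 1) L E (z 0 + ∑ j, w 0 j (g j))))
      (K₁ * (N : ℝ) ^ nS D * (N : ℝ) ^ (-δ₁)) (K₂ * (N : ℝ) ^ (n * nS D) * (N : ℝ) ^ (-δ₂))
      (h₁ k A L E (suppI L E ⊔ E) hE hF hL h1L h1 (by omega) hFr (z 0) (hz 0) N
        (w 0) (hw 0) (hli 0) _ (fun g hg => (Finset.mem_filter.1 hg).2)) (by positivity)
      (by
        intro g hg B' hB'
        have hg' : ¬ (z 0 + ∑ j, w 0 j (g j) ∈ (suppI L E ⊔ E : Submodule k A) ∨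
            ¬ GD (D + 1) L E (z 0 + ∑ j, w 0 j (g j))) := fun h => hg (Finset.mem_filter.2
              ⟨Finset.mem_univ _, h⟩)
        push Not at hg'
        have hyL : z 0 + ∑ j, w 0 j (g j) ∈ L :=
          L.add_mem (hz 0) (Submodule.sum_mem _ fun j _ => hw _ _ _)
        obtain ⟨hpf, hpr⟩ := polyU_bound (z 0 + ∑ j, w 0 j (g j)) E (D + 1 + 1)
        refine h₂ k A L (polyU (z 0 + ∑ j, w 0 j (g j)) E (D + 1 + 1)) hpf hL
          h1L (by
            have := pow_mul_mem_polyU (z 0 + ∑ j, w 0 j (g j)) E (l := 0) (n := D + 1 + 1)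
              (by omega) h1
            rwa [pow_zero, one_mul] at this) (hpr.trans (by gcongr)) (fun a => z a.succ)
          (fun a => hz _) N (fun a => w a.succ) (fun a => hw _) (fun a => hli _) B' ?_
        intro f hf hfree
        apply hB' f hf
        have h3 : (fun a => z a + ∑ j, w a j ((Fin.cons g f : Fin (n + 1) → Fin (nS D) → Fin N)
            a j)) = (Fin.cons (z 0 + ∑ j, w 0 j (g j))
              (fun a => z a.succ + ∑ j, w a.succ j (f a j)) : Fin (n + 1) → A) := by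
          funext i
          refine Fin.cases ?_ (fun i => ?_) i
          · rw [Fin.cons_zero, Fin.cons_zero]
          · rw [Fin.cons_succ, Fin.cons_succ]
        rw [h3]
        exact FreeT.cons h1L hyL (fun i => L.add_mem (hz _) (Submodule.sum_mem _ fun j _ =>
          hw _ _ _)) h1 hg'.2 hg'.1 hfree) B hB
    refine h3.trans ?_
    rw [Fintype.card_fun, Fintype.card_fin, Fintype.card_fin]
    push_cast
    rw [← pow_mul]
    calc K₁ * (N : ℝ) ^ (nS D) * (N : ℝ) ^ (-δ₁) * (N : ℝ) ^ (nS D * n) +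
          (N : ℝ) ^ (nS D) * (K₂ * (N : ℝ) ^ (n * nS D) * (N : ℝ) ^ (-δ₂)) ≤
          K₁ * (N : ℝ) ^ (nS D) * (N : ℝ) ^ (-(min δ₁ δ₂)) * (N : ℝ) ^ (nS D * n) +
          (N : ℝ) ^ (nS D) * (K₂ * (N : ℝ) ^ (n * nS D) * (N : ℝ) ^ (-(min δ₁ δ₂))) := by gcongr
      _ = (K₁ + K₂) * (N : ℝ) ^ ((n + 1) * nS D) * (N : ℝ) ^ (-(min δ₁ δ₂)) := by
        rw [add_one_mul n, pow_add, mul_comm n (nS D)]
        ring

end Pool.Agent.R350
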