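import Pool.Agent.R350.GS
import Pool.Agent.R350.GN

/-!
# Sums of few logarithms from an arbitrary list: the complex and the `p`-adic case
-/

set_option autoImplicit false

namespace Pool.Agent.R350

open Module Finset MvPolynomial Pool.Agent.W245.PB Pool.Agent.TH681.QC
open Pool.Agent.H301R2.SSE (QB mem_QB Lt Lt_log Lt_one)
open Pool.Agent.W254.PA (LtE logs)

/-- linear independence of `c_j λ_i` for distinct indices `i` -/
theorem li_scaled {k A : Type*} [Field k] [Field A] [Algebra k A] {J N : Type*}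
    (l : N → A) (hl : LinearIndependent k l) (c : J → k) (hc : ∀ j, c j ≠ 0) {P : Type*}
    (p : J × P → N) (hp : Function.Injective p) :
    LinearIndependent k (fun q : J × P => c q.1 • l (p q)) := by
  have h1 := hl.comp p hp
  exact h1.units_smul (fun q : J × P => Units.mk0 (c q.1) (hc q.1))

/-- sums of few elements of an arbitrary list, up to a power saving exceptional set -/
theorem few_free (D n m v : ℕ) : ∃ δ : ℝ, 0 < δ ∧ ∃ K : ℝ, 0 ≤ K ∧ ∀ (k A : Type)
    [Field k] [CharZero k] [Field A] [Algebra k A] (L E : Submodule k A), FiniteDimensional k E →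
    HypV v L → (1 : A) ∈ L → (1 : A) ∈ E → finrank k E ≤ m →
    ∀ z : Fin n → A, (∀ a, z a ∈ L) →
    ∀ (N : ℕ) (l : Fin N → A), (∀ i, l i ∈ L) → LinearIndependent k l →
    ∀ c : Fin n → Fin (nS D) → k, (∀ a j, c a j ≠ 0) →
    ∀ B : Finset (Fin n → Fin (nS D) → Fin N),
    (∀ f ∈ B, ¬ FreeT (D + 1) L E (fun a => z a + ∑ j, c a j • l (f a j))) →
    (B.card : ℝ) ≤ K * (N : ℝ) ^ (n * nS D) * (N : ℝ) ^ (-δ) := by
  obtain ⟨δ, hδ, K, hK, h⟩ := sums_few D n m v
  refine ⟨δ, hδ, K, hK, fun k A _ _ _ _ L E h1 h2 h3 h4 h5 z hz N l hl hli c hc B hB => ?_⟩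
  exact h k A L E h1 h2 h3 h4 h5 z hz N (fun a j i => c a j • l i)
    (fun a j i => L.smul_mem _ (hl i))
    (fun a R p hp => li_scaled l hli (c a) (hc a) (fun q => p q.1 q.2) hp) B hB

theorem npow_final {N a : ℕ} {δ K X : ℝ} (hδ : 0 < δ) (hK : 0 ≤ K)
    (h : X ≤ K * (N : ℝ) ^ a * (N : ℝ) ^ (-δ)) : X ≤ K * (N : ℝ) ^ ((a : ℝ) - δ) := by
  rcases Nat.eq_zero_or_pos N with hN | hN
  · rw [hN, Nat.cast_zero, Real.zero_rpow (show (-δ : ℝ) ≠ 0 by linarith), mul_zero] at h
    refine h.trans (mul_nonneg hK ?_)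
    exact Real.rpow_nonneg (Nat.cast_nonneg _) _
  · have hN' : (0 : ℝ) < N := by exact_mod_cast hN
    rw [sub_eq_add_neg, Real.rpow_add hN', Real.rpow_natCast, ← mul_assoc]
    exact h

/-- logarithms of algebraic numbers which are linearly independent over `ℚ` are linearly independent
over the algebraic numbers -/
theorem li_complex {N : ℕ} (l : Fin N → ℂ) (hl : ∀ i, IsAlgebraic ℚ (Complex.exp (l i)))
    (hli : LinearIndependent ℚ l) : LinearIndependent (algebraicClosure ℚ ℂ) l := by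
  rw [Fintype.linearIndependent_iff]
  intro g hg
  have hli' : LinearIndependent ℚ (Sum.elim (fun i : Fin 0 => (0 : ℂ)) l) := by
    have h1 : Sum.elim (fun i : Fin 0 => (0 : ℂ)) l = l ∘ (Equiv.emptySum (Fin 0) (Fin N)) := by
      funext i
      rcases i with i | i
      · exact i.elim0
      · rfl
    rw [h1]
    exact hli.comp _ (Equiv.injective _)
  exact (indep_inhom_complex (fun i : Fin 0 => (0 : ℂ)) l (fun i => i.elim0) hl hli' 0
    (fun i => i.elim0) g (by
      rw [zero_smul, Finset.univ_eq_empty, Finset.sum_empty, zero_add, zero_add]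
      exact hg)).2.2

theorem li_padic {p : ℕ} [Fact p.Prime] {L : PadicAlgCl p → PadicAlgCl p}
    (hL : IsIwasawaLog p L) {N : ℕ} (l : Fin N → PadicAlgCl p)
    (hl : ∀ j, ∃ α, α ≠ 0 ∧ IsAlgebraic ℚ α ∧ l j = L α)
    (hli : LinearIndependent ℚ l) :
    LinearIndependent (algebraicClosure ℚ (PadicAlgCl p)) l := by
  rw [Fintype.linearIndependent_iff]
  intro g hg
  have hli' : LinearIndependent ℚ (Sum.elim (fun i : Fin 0 => (0 : PadicAlgCl p)) l) := by
    have h1 : Sum.elim (fun i : Fin 0 => (0 : PadicAlgCl p)) l =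
        l ∘ (Equiv.emptySum (Fin 0) (Fin N)) := by
      funext i
      rcases i with i | i
      · exact i.elim0
      · rfl
    rw [h1]
    exact hli.comp _ (Equiv.injective _)
  exact (indep_inhom_padic hL (fun i : Fin 0 => (0 : PadicAlgCl p)) l (fun i => i.elim0) hl hli' 0
    (fun i => i.elim0) g (by
      rw [zero_smul, Finset.univ_eq_empty, Finset.sum_empty, zero_add, zero_add]
      exact hg)).2.2

theorem alg_exp_rat {l : ℂ} (h : IsAlgebraic ℚ (Complex.exp l)) (c : ℚ) :
    IsAlgebraic ℚ (Complex.exp ((c : ℂ) * l)) := by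
  have h1 : Complex.exp ((c : ℂ) * l) ^ c.den = Complex.exp l ^ c.num := by
    rw [← Complex.exp_nat_mul, ← Complex.exp_int_mul, ← mul_assoc]
    congr 2
    have h2 := Rat.den_mul_eq_num c
    exact_mod_cast h2
  refine IsAlgebraic.of_pow c.den_pos ?_
  rw [h1]
  exact mem_algebraicClosure_iff.1 (zpow_mem (mem_algebraicClosure_iff.2 h) _)

theorem alg_exp_sum {J : Type*} [Fintype J] (l : J → ℂ)
    (h : ∀ j, IsAlgebraic ℚ (Complex.exp (l j))) (c : J → ℚ) :
    IsAlgebraic ℚ (Complex.exp (∑ j, (c j : ℂ) * l j)) := by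
  rw [Complex.exp_sum]
  exact mem_algebraicClosure_iff.1 (prod_mem fun j _ => mem_algebraicClosure_iff.2
    (alg_exp_rat (h j) (c j)))

end Pool.Agent.R350
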