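import Pool.Agent.R350.Two

/-!
# Singular `2 × 2` matrices with a generic row: the density theorem
-/

set_option autoImplicit false

namespace Pool.Agent.R350

open Module Finset Pool.Agent.W245 Pool.Agent.W245.PB Pool.Agent.TH681.QC

/-- no new singular `2 × 2` matrix has a row in `V + K lg a_1 + ... + K lg a_k` -/
def Good2 {K κ C : Type*} [Field K] [Field κ] [Field C] [Algebra K C] [Algebra κ C]
    (V : Submodule K C) (L : Submodule κ C) (lg : ℕ → C) {k : ℕ} (a : Fin k → ℕ) : Prop :=
  finrank K (V ⊔ Submodule.span K (Set.range fun i => lg (a i)) : Submodule K C) =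
    finrank K V + k ∧
  ∀ l m : Fin 2 → C, (∀ j, l j ∈ V ⊔ Submodule.span K (Set.range fun i => lg (a i))) →
    (∀ j, m j ∈ L ⊔ Submodule.span κ (V : Set C)) → l 0 * m 1 = l 1 * m 0 →
    LinearIndependent K l → (∃ ρ : κ, ∀ j, m j = ρ • l j) ∨ ∀ j, l j ∈ V

section

variable {K κ C : Type} [Field K] [Field κ] [Field C] [Algebra K C] [Algebra κ C] [Algebra K κ]
  [IsScalarTower K κ C]

/-- the coefficient spaces -/
noncomputable def omega0 (V : Submodule K C) (lg : ℕ → C) (k : ℕ) (j : Fin k) (a : Fin k → ℕ) :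
    Submodule κ C := hullSp κ (stage V (fun i => lg (a i)) j)

theorem omega0_pred (V : Submodule K C) [Module.Finite K V] (lg : ℕ → C) (k : ℕ) {m : ℕ}
    (hV : finrank K V ≤ m) {M : ℕ} (hM : m + k + 1 ≤ M) :
    Pred M (omega0 (κ := κ) V lg k) := by
  refine ⟨fun j a b hab => ?_, fun j a => ?_, fun j a => ?_⟩
  · unfold omega0
    rw [stage_congr V (f := fun i => lg (a i)) (g := fun i => lg (b i)) j
      (fun i hi => by rw [hab i hi])]
  · have := stage_finite V (fun i => lg (a i)) j
    exact hullSp_finite _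
  · have := stage_finite V (fun i => lg (a i)) j
    have h1 := finrank_hullSp_le (κ := κ) (stage V (fun i => lg (a i)) j)
    have h2 := finrank_stage_le V (fun i => lg (a i)) j
    unfold omega0
    omega

theorem const_pred {k M : ℕ} (Ω : Submodule κ C) (hf : Module.Finite κ Ω) (h : finrank κ Ω ≤ M) :
    Pred M (fun (_ : Fin k) (_ : Fin k → ℕ) => Ω) :=
  ⟨fun _ _ _ _ => rfl, fun _ _ => hf, fun _ _ => h⟩

theorem span_one_finite : Module.Finite κ (Submodule.span κ {(1 : C)}) := inferInstance

theorem finrank_span_one_le : finrank κ (Submodule.span κ {(1 : C)}) ≤ 1 := by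
  have := finrank_span_finset_le_card (R := κ) ({1} : Finset C)
  rwa [Finset.coe_singleton, Finset.card_singleton] at this

theorem supp_pred {k m' v : ℕ} {L : Submodule κ C} (hL : HypV v L)
    {Ω : Fin k → (Fin k → ℕ) → Submodule κ C} (h : Pred m' Ω) {M : ℕ}
    (hM : m' * (m' + v) * m' + m' ≤ M) :
    Pred M (fun j a => suppSp v L (Ω j a) ⊔ Ω j a) := by
  refine ⟨fun j a b hab => ?_, fun j a => ?_, fun j a => ?_⟩
  · change suppSp v L (Ω j a) ⊔ Ω j a = suppSp v L (Ω j b) ⊔ Ω j b
    rw [h.dep j a b hab]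
  · have h1 := h.fin j a
    have h2 := (suppSp_spec hL (Ω j a)).1
    infer_instance
  · have h1 := h.fin j a
    have h2 := (suppSp_spec hL (Ω j a)).1
    have h3 := (suppSp_spec hL (Ω j a)).2.1
    have h4 := h.le j a
    refine (Submodule.finrank_add_le_finrank_add_finrank _ _).trans (le_trans ?_ hM)
    refine Nat.add_le_add (h3.trans ?_) h4
    gcongr

theorem Setup.sup {v m : ℕ} {lg : ℕ → C} {L : Submodule κ C} (h : Setup v lg L)
    (V : Submodule κ C) [Module.Finite κ V] (hV : finrank κ V ≤ m) :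
    Setup (v + m) lg (L ⊔ V) :=
  ⟨h.two, h.lglike, h.hyp.sup V hV, Submodule.mem_sup_left h.one,
    fun n hn => Submodule.mem_sup_left (h.mem n hn)⟩

theorem good2_of_chain {v : ℕ} {lg : ℕ → C} {L : Submodule κ C} (V : Submodule K C)
    [Module.Finite K V] (hS : Setup v lg (L ⊔ Submodule.span κ (V : Set C)))
    {k : ℕ} (a : Fin k → ℕ) (ha : ∀ i, 0 < a i)
    (hgood : ∀ j, ¬ BadAt lg (L ⊔ Submodule.span κ (V : Set C)) (omega0 V lg k)
      (fun _ _ => Submodule.span κ {1})
      (fun j a => suppSp v (L ⊔ Submodule.span κ (V : Set C)) (omega0 (κ := κ) V lg k j a) ⊔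
        omega0 V lg k j a) a j) :
    Good2 V L lg a := by
  classical
  set L' := L ⊔ Submodule.span κ (V : Set C) with hL'
  set f : Fin k → C := fun i => lg (a i) with hf
  have hΩ : ∀ j : Fin k, omega0 (κ := κ) V lg k j a = hullSp κ (stage V f j) := fun j => rfl
  have hnot : ∀ j : Fin k, f j ∉ suppSp v L' (hullSp κ (stage V f j)) ⊔ hullSp κ (stage V f j) :=
    fun j h => hgood j (Or.inl h)
  have hexc : ∀ j : Fin k, ¬ Exc L' (hullSp κ (stage V f j)) (Submodule.span κ {1}) (f j) :=
    fun j h => hgood j (Or.inr h)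
  have hrank : ∀ n ≤ k, finrank K (stage V f n) = finrank K V + n := by
    intro n
    induction n with
    | zero => intro _; rw [stage_zero]; rfl
    | succ n ih =>
      intro hn
      have h1 := ih (by omega)
      have := stage_finite V f n
      rw [stage_succ V f n (by omega), finrank_sup_span_singleton', h1]
      · omega
      · intro h
        exact hnot ⟨n, by omega⟩ (Submodule.mem_sup_right (mem_hullSp _ h))
  have hstageL : ∀ n, ∀ z ∈ stage V f n, z ∈ L' := by
    intro n z hz
    obtain ⟨y, hy, w, hw, rfl⟩ := Submodule.mem_sup.1 hz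
    refine L'.add_mem (Submodule.mem_sup_right (Submodule.subset_span hy)) ?_
    refine Submodule.span_induction (p := fun w _ => w ∈ L') ?_ L'.zero_mem
      (fun _ _ _ _ h1 h2 => L'.add_mem h1 h2) (fun c w _ h => ?_) hw
    · rintro _ ⟨i, -, rfl⟩
      exact hS.mem _ (ha i)
    · rw [← algebraMap_smul κ c]
      exact L'.smul_mem _ h
  refine ⟨?_, ?_⟩
  · rw [← stage_full]
    exact hrank k le_rfl
  · rw [← stage_full]
    have main : ∀ n ≤ k, ∀ l m : Fin 2 → C, (∀ j, l j ∈ stage V f n) → (∀ j, m j ∈ L') →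
        l 0 * m 1 = l 1 * m 0 → LinearIndependent K l →
        (∃ ρ : κ, ∀ j, m j = ρ • l j) ∨ ∀ j, l j ∈ V := by
      intro n
      induction n with
      | zero =>
        intro _ l m hl _ _ _
        rw [stage_zero] at hl
        exact Or.inr hl
      | succ n ih =>
        intro hn l m hl hm hdet hli
        have hfin := stage_finite V f n
        have hfin' := hullSp_finite (κ := κ) (stage V f n)
        rw [stage_succ V f n (by omega)] at hl
        rcases two_step (stage V f n) (hullSp κ (stage V f n))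
          (suppSp v L' (hullSp κ (stage V f n))) (suppSp_spec hS.hyp _)
          (fun z hz => mem_hullSp _ hz) (hstageL n) (hS.mem _ (ha _))
          (hnot ⟨n, by omega⟩) (hexc ⟨n, by omega⟩) l m hl hm hdet hli with h | h
        · exact Or.inl h
        · exact ih (by omega) l m h hm hdet hli
    exact main k le_rfl

end

/-- **The density theorem for matrices with a generic row.** -/
theorem rate_two (k m v : ℕ) : ∃ c : ℕ, ∀ x ≥ 16, ∀ (K κ C : Type) [Field K] [Field κ] [Field C]
    [Algebra K C] [Algebra κ C] [Algebra K κ] [IsScalarTower K κ C] (lg : ℕ → C)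
    (L : Submodule κ C), Setup v lg L → ∀ V : Submodule K C, Module.Finite K V →
    finrank K V ≤ m → ∀ B : Finset (Fin k → ℕ),
    B ⊆ Fintype.piFinset (fun _ : Fin k => Ioc 0 x) → (∀ a ∈ B, ¬ Good2 V L lg a) →
    (B.card : ℝ) ≤ er c x * x ^ k := by
  classical
  set N := m + k + 1 with hN
  obtain ⟨c, hc⟩ := chain (N * (N + (v + m)) * N + N) (v + m) k
  refine ⟨c, fun x hx K κ C _ _ _ _ _ _ _ lg L hS V hVf hVm B hB hbad => ?_⟩
  have hspan := spanK_finite (κ := κ) V
  have hS' := hS.sup (Submodule.span κ (V : Set C)) ((finrank_spanK_le V).trans hVm)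
  have hP : Pred N (omega0 (κ := κ) V lg k) := omega0_pred V lg k hVm le_rfl
  refine hc x hx κ C lg (L ⊔ Submodule.span κ (V : Set C)) hS' (omega0 V lg k)
    (fun _ _ => Submodule.span κ {1})
    (fun j a => suppSp (v + m) (L ⊔ Submodule.span κ (V : Set C)) (omega0 (κ := κ) V lg k j a) ⊔
        omega0 V lg k j a) (omega0_pred V lg k hVm (by omega))
    (const_pred _ span_one_finite (finrank_span_one_le.trans (by omega)))
    (supp_pred hS'.hyp hP le_rfl) B hB ?_
  intro a haB
  by_contra hno
  push Not at hno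
  have ha : ∀ i, 0 < a i := fun i => by
    have := (Fintype.mem_piFinset.1 (hB haB)) i
    exact (Finset.mem_Ioc.1 this).1
  exact hbad a haB (good2_of_chain V hS' a ha hno)

end Pool.Agent.R350
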