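import Pool.Agent.R350.GT
import Pool.Agent.R350.TwoRate

/-!
# Singular `2 × 2` matrices with a generic row: sums of three logarithms
-/

set_option autoImplicit false

namespace Pool.Agent.R350

open Module Finset Pool.Agent.W245 Pool.Agent.W245.PB Pool.Agent.TH681.QC

/-- spaces of bounded dimension which depend on the preceding values -/
structure PredC (m : ℕ) {κ C : Type*} [Field κ] [Field C] [Algebra κ C]
    {k : ℕ} (Ω : Fin k → (Fin k → C) → Submodule κ C) : Prop where
  dep : ∀ j y y', (∀ i < j, y i = y' i) → Ω j y = Ω j y'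
  fin : ∀ j y, Module.Finite κ (Ω j y)
  le : ∀ j y, finrank κ (Ω j y) ≤ m

theorem PredC.tail {m : ℕ} {κ C : Type*} [Field κ] [Field C] [Algebra κ C]
    {k : ℕ} {Ω : Fin (k + 1) → (Fin (k + 1) → C) → Submodule κ C} (h : PredC m Ω) (y0 : C) :
    PredC m (fun (j : Fin k) (y : Fin k → C) => Ω j.succ (Fin.cons y0 y)) := by
  refine ⟨fun j y y' hy => h.dep _ _ _ ?_, fun j y => h.fin _ _, fun j y => h.le _ _⟩
  intro i hi
  refine Fin.cases ?_ ?_ i hi
  · intro _; simp
  · intro i' hi'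
    simp only [Fin.cons_succ]
    exact hy i' (by simpa using hi')

/-- **The density theorem for tuples of sums.** -/
theorem chain_few (D m v : ℕ) (n : ℕ) : ∃ δ : ℝ, 0 < δ ∧ ∃ K : ℝ, 0 ≤ K ∧
    ∀ (κ C : Type) [Field κ] [CharZero κ] [Field C] [Algebra κ C] (L : Submodule κ C),
    HypV v L → (1 : C) ∈ L → ∀ Ω F : Fin n → (Fin n → C) → Submodule κ C, PredC m Ω → PredC m F →
    (∀ j y, (1 : C) ∈ Ω j y) → ∀ z : Fin n → C, (∀ a, z a ∈ L) →
    ∀ (N : ℕ) (w : Fin n → Fin (nS D) → Fin N → C), (∀ a j i, w a j i ∈ L) →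
    (∀ a, ∀ (R : ℕ) (p : Fin (nS D) → Fin R → Fin N),
      Function.Injective (fun q : Fin (nS D) × Fin R => p q.1 q.2) →
      LinearIndependent κ (fun q : Fin (nS D) × Fin R => w a q.1 (p q.1 q.2))) →
    ∀ B : Finset (Fin n → Fin (nS D) → Fin N),
    (∀ f ∈ B, ∃ j, z j + ∑ t, w j t (f j t) ∈ F j (fun a => z a + ∑ t, w a t (f a t)) ∨
      ¬ GD (D + 1) L (Ω j (fun a => z a + ∑ t, w a t (f a t))) (z j + ∑ t, w j t (f j t))) →
    (B.card : ℝ) ≤ K * (N : ℝ) ^ (n * nS D) * (N : ℝ) ^ (-δ) := by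
  classical
  induction n with
  | zero =>
    refine ⟨1, one_pos, 0, le_rfl, fun κ C _ _ _ _ L _ _ Ω F _ _ _ z _ N w _ _ B hB => ?_⟩
    have : B = ∅ := by
      rw [Finset.eq_empty_iff_forall_notMem]
      intro a ha
      obtain ⟨j, -⟩ := hB a ha
      exact j.elim0
    rw [this]
    simp
  | succ n ih =>
    obtain ⟨δ₁, hδ₁, K₁, hK₁, h₁⟩ := sum_few D m v
    obtain ⟨δ₂, hδ₂, K₂, hK₂, h₂⟩ := ih
    refine ⟨min δ₁ δ₂, lt_min hδ₁ hδ₂, K₁ + K₂, by positivity,
      fun κ C _ _ _ _ L hL h1L Ω F hΩ hF h1Ω z hz N w hw hli B hB => ?_⟩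
    have e1 : (N : ℝ) ^ (-δ₁) ≤ (N : ℝ) ^ (-(min δ₁ δ₂)) :=
      npow_mono (lt_min hδ₁ hδ₂) (min_le_left _ _)
    have e2 : (N : ℝ) ^ (-δ₂) ≤ (N : ℝ) ^ (-(min δ₁ δ₂)) :=
      npow_mono (lt_min hδ₁ hδ₂) (min_le_right _ _)
    have d0 : ∀ y : Fin (n + 1) → C, Ω 0 y = Ω 0 (fun _ => 0) := fun y =>
      hΩ.dep _ _ _ (fun i hi => absurd hi (Fin.not_lt_zero i))
    have d1 : ∀ y : Fin (n + 1) → C, F 0 y = F 0 (fun _ => 0) := fun y =>
      hF.dep _ _ _ (fun i hi => absurd hi (Fin.not_lt_zero i))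
    have h3 := count_first n (fun f : Fin (n + 1) → Fin (nS D) → Fin N =>
      ∃ j, z j + ∑ t, w j t (f j t) ∈ F j (fun a => z a + ∑ t, w a t (f a t)) ∨
      ¬ GD (D + 1) L (Ω j (fun a => z a + ∑ t, w a t (f a t))) (z j + ∑ t, w j t (f j t)))
      (Finset.univ.filter (fun g : Fin (nS D) → Fin N =>
        z 0 + ∑ j, w 0 j (g j) ∈ F 0 (fun _ => 0) ∨
          ¬ GD (D + 1) L (Ω 0 (fun _ => 0)) (z 0 + ∑ j, w 0 j (g j))))
      (K₁ * (N : ℝ) ^ nS D * (N : ℝ) ^ (-δ₁)) (K₂ * (N : ℝ) ^ (n * nS D) * (N : ℝ) ^ (-δ₂))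
      (h₁ κ C L (Ω 0 (fun _ => 0)) (F 0 (fun _ => 0)) (hΩ.fin _ _) (hF.fin _ _) hL h1L (h1Ω _ _)
        (hΩ.le _ _) (hF.le _ _) (z 0) (hz 0) N
        (w 0) (hw 0) (hli 0) _ (fun g hg => (Finset.mem_filter.1 hg).2)) (by positivity)
      (by
        intro g hg B' hB'
        have hg' : ¬ (z 0 + ∑ j, w 0 j (g j) ∈ F 0 (fun _ => 0) ∨
            ¬ GD (D + 1) L (Ω 0 (fun _ => 0)) (z 0 + ∑ j, w 0 j (g j))) := fun h => hg
              (Finset.mem_filter.2 ⟨Finset.mem_univ _, h⟩)
        refine h₂ κ C L hL h1L _ _ (hΩ.tail (z 0 + ∑ j, w 0 j (g j)))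
          (hF.tail (z 0 + ∑ j, w 0 j (g j))) (fun j y => h1Ω _ _) (fun a => z a.succ)
          (fun a => hz _) N (fun a => w a.succ) (fun a => hw _) (fun a => hli _) B' ?_
        intro f hf
        obtain ⟨j, hj⟩ := hB' f hf
        have h3 : (fun a => z a + ∑ j, w a j ((Fin.cons g f : Fin (n + 1) → Fin (nS D) → Fin N)
            a j)) = (Fin.cons (z 0 + ∑ j, w 0 j (g j))
              (fun a => z a.succ + ∑ j, w a.succ j (f a j)) : Fin (n + 1) → C) := by
          funext i
          refine Fin.cases ?_ (fun i => ?_) i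
          · rw [Fin.cons_zero, Fin.cons_zero]
          · rw [Fin.cons_succ, Fin.cons_succ]
        rw [h3] at hj
        revert hj
        refine Fin.cases ?_ (fun j' => ?_) j
        · intro hj
          exfalso
          apply hg'
          rwa [Fin.cons_zero, d0, d1] at hj
        · intro hj
          refine ⟨j', ?_⟩
          rwa [Fin.cons_succ] at hj) B hB
    refine h3.trans ?_
    rw [Fintype.card_fun, Fintype.card_fin, Fintype.card_fin]
    push_cast
    rw [← pow_mul]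
    calc K₁ * (N : ℝ) ^ (nS D) * (N : ℝ) ^ (-δ₁) * (N : ℝ) ^ (nS D * n) +
          (N : ℝ) ^ (nS D) * (K₂ * (N : ℝ) ^ (n * nS D) * (N : ℝ) ^ (-δ₂)) ≤
          K₁ * (N : ℝ) ^ (nS D) * (N : ℝ) ^ (-(min δ₁ δ₂)) * (N : ℝ) ^ (nS D * n) +
          (N : ℝ) ^ (nS D) * (K₂ * (N : ℝ) ^ (n * nS D) * (N : ℝ) ^ (-(min δ₁ δ₂))) := by gcongr
      _ = (K₁ + K₂) * (N : ℝ) ^ ((n + 1) * nS D) * (N : ℝ) ^ (-(min δ₁ δ₂)) := by
        rw [add_one_mul n, pow_add, mul_comm n (nS D)]
        ring

/-- no new singular `2 × 2` matrix has a row in `V + K f_1 + ... + K f_k` -/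
def Good2f {K κ C : Type*} [Field K] [Field κ] [Field C] [Algebra K C] [Algebra κ C]
    (V : Submodule K C) (L : Submodule κ C) {k : ℕ} (f : Fin k → C) : Prop :=
  finrank K (V ⊔ Submodule.span K (Set.range f) : Submodule K C) =
    finrank K V + k ∧
  ∀ l m : Fin 2 → C, (∀ j, l j ∈ V ⊔ Submodule.span K (Set.range f)) →
    (∀ j, m j ∈ L ⊔ Submodule.span κ (V : Set C)) → l 0 * m 1 = l 1 * m 0 →
    LinearIndependent K l → (∃ ρ : κ, ∀ j, m j = ρ • l j) ∨ ∀ j, l j ∈ V

section

variable {K κ C : Type} [Field K] [Field κ] [Field C] [Algebra K C] [Algebra κ C] [Algebra K κ]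
  [IsScalarTower K κ C]

theorem GD.not_exc {L Ω : Submodule κ C} (h1 : (1 : C) ∈ Ω) {z : C} (h : GD 1 L Ω z) :
    ¬ Exc L Ω (Submodule.span κ {(1 : C)}) z := by
  rintro ⟨m, hm1, hm2, hm3⟩
  apply hm2
  have hm : m ∈ Ω * L := by
    refine Submodule.mul_le.2 ?_ hm1
    intro a ha b hb
    obtain ⟨c, rfl⟩ := Submodule.mem_span_singleton.1 ha
    rw [smul_mul_assoc]
    exact Submodule.smul_mem _ _ (Submodule.mul_mem_mul h1 hb)
  exact h (fun j => if j = 0 then -(z * m) else m) (by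
    intro j _
    by_cases hj : j = 0
    · simp only [hj, if_true]
      exact Submodule.neg_mem _ hm3
    · simp only [hj, if_false]
      exact hm) (by
    rw [Finset.sum_range_succ, Finset.sum_range_one]
    simp)

theorem good2f_of {v : ℕ} {L : Submodule κ C} (V : Submodule K C)
    [Module.Finite K V] (hyp : HypV v (L ⊔ Submodule.span κ (V : Set C)))
    {k : ℕ} (f : Fin k → C)
    (hf : ∀ i, f i ∈ L ⊔ Submodule.span κ (V : Set C))
    (hnot : ∀ j : Fin k, f j ∉ suppSp v (L ⊔ Submodule.span κ (V : Set C))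
      (hullSp κ (stage V f j)) ⊔ hullSp κ (stage V f j))
    (hexc : ∀ j : Fin k, ¬ Exc (L ⊔ Submodule.span κ (V : Set C)) (hullSp κ (stage V f j))
      (Submodule.span κ {1}) (f j)) :
    Good2f V L f := by
  classical
  set L' := L ⊔ Submodule.span κ (V : Set C) with hL'
  have hrank : ∀ n ≤ k, finrank K (stage V f n) = finrank K V + n := by
    intro n
    induction n with
    | zero => intro _; rw [stage_zero]; rfl
    | succ n ih =>
      intro hn
      have h1 := ih (by omega)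
      have := stage_finite V f n
      rw [stage_succ V f n (by omega), finrank_sup_span_singleton', h1]
      · omega
      · intro h
        exact hnot ⟨n, by omega⟩ (Submodule.mem_sup_right (mem_hullSp _ h))
  have hstageL : ∀ n, ∀ z ∈ stage V f n, z ∈ L' := by
    intro n z hz
    obtain ⟨y, hy, w, hw, rfl⟩ := Submodule.mem_sup.1 hz
    refine L'.add_mem (Submodule.mem_sup_right (Submodule.subset_span hy)) ?_
    refine Submodule.span_induction (p := fun w _ => w ∈ L') ?_ L'.zero_mem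
      (fun _ _ _ _ h1 h2 => L'.add_mem h1 h2) (fun c w _ h => ?_) hw
    · rintro _ ⟨i, -, rfl⟩
      exact hf i
    · rw [← algebraMap_smul κ c]
      exact L'.smul_mem _ h
  refine ⟨?_, ?_⟩
  · rw [← stage_full]
    exact hrank k le_rfl
  · rw [← stage_full]
    have main : ∀ n ≤ k, ∀ l m : Fin 2 → C, (∀ j, l j ∈ stage V f n) → (∀ j, m j ∈ L') →
        l 0 * m 1 = l 1 * m 0 → LinearIndependent K l →
        (∃ ρ : κ, ∀ j, m j = ρ • l j) ∨ ∀ j, l j ∈ V := by
      intro n
      induction n with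
      | zero =>
        intro _ l m hl _ _ _
        rw [stage_zero] at hl
        exact Or.inr hl
      | succ n ih =>
        intro hn l m hl hm hdet hli
        have hfin := stage_finite V f n
        have hfin' := hullSp_finite (κ := κ) (stage V f n)
        rw [stage_succ V f n (by omega)] at hl
        rcases two_step (stage V f n) (hullSp κ (stage V f n))
          (suppSp v L' (hullSp κ (stage V f n))) (suppSp_spec hyp _)
          (fun z hz => mem_hullSp _ hz) (hstageL n) (hf _)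
          (hnot ⟨n, by omega⟩) (hexc ⟨n, by omega⟩) l m hl hm hdet hli with h | h
        · exact Or.inl h
        · exact ih (by omega) l m h hm hdet hli
    exact main k le_rfl

end

/-- **Matrices with a row of sums of three elements of an arbitrary list.** -/
theorem few_two (k m v : ℕ) : ∃ δ : ℝ, 0 < δ ∧ ∃ K' : ℝ, 0 ≤ K' ∧ ∀ (K κ C : Type) [Field K]
    [Field κ] [CharZero κ] [Field C]
    [Algebra K C] [Algebra κ C] [Algebra K κ] [IsScalarTower K κ C]
    (L : Submodule κ C), HypV v L → (1 : C) ∈ L → ∀ V : Submodule K C, Module.Finite K V →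
    finrank K V ≤ m → ∀ z : Fin k → C, (∀ a, z a ∈ L) →
    ∀ (N : ℕ) (l : Fin N → C), (∀ i, l i ∈ L) → LinearIndependent κ l →
    ∀ c : Fin k → Fin 3 → κ, (∀ a j, c a j ≠ 0) →
    ∀ B : Finset (Fin k → Fin 3 → Fin N),
    (∀ f ∈ B, ¬ Good2f V L (fun a => z a + ∑ j, c a j • l (f a j))) →
    (B.card : ℝ) ≤ K' * (N : ℝ) ^ (k * 3) * (N : ℝ) ^ (-δ) := by
  classical
  obtain ⟨M, hM⟩ : ∃ M, M = m + k + 1 := ⟨_, rfl⟩
  obtain ⟨δ, hδ, K', hK', h⟩ := chain_few 0 (M * (M + (v + m)) * M + M) (v + m) k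
  refine ⟨δ, hδ, K', hK', fun K κ C _ _ _ _ _ _ _ _ L hL h1L V hVf hVm z hz N l hl hli c hc B
    hbad => ?_⟩
  have hspan := spanK_finite (κ := κ) V
  have hyp := hL.sup (Submodule.span κ (V : Set C)) ((finrank_spanK_le V).trans hVm)
  have hfinH : ∀ (j : Fin k) (y : Fin k → C), Module.Finite κ (hullSp κ (stage V y j)) := by
    intro j y
    have := stage_finite V y j
    exact hullSp_finite _
  have hrankH : ∀ (j : Fin k) (y : Fin k → C), finrank κ (hullSp κ (stage V y j)) ≤ M := by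
    intro j y
    have := stage_finite V y j
    have h1 := finrank_hullSp_le (κ := κ) (stage V y j)
    have h2 := finrank_stage_le V y j
    omega
  refine h κ C (L ⊔ Submodule.span κ (V : Set C)) hyp (Submodule.mem_sup_left h1L)
    (fun j y => hullSp κ (stage V y j))
    (fun j y => suppSp (v + m) (L ⊔ Submodule.span κ (V : Set C)) (hullSp κ (stage V y j)) ⊔
      hullSp κ (stage V y j)) ?_ ?_ (fun j y => one_mem_hullSp _) z
    (fun a => Submodule.mem_sup_left (hz a)) N (fun a j i => c a j • l i)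
    (fun a j i => Submodule.mem_sup_left (L.smul_mem _ (hl i)))
    (fun a R p hp => li_scaled l hli (c a) (hc a) (fun q => p q.1 q.2) hp) B ?_
  · refine ⟨fun j y y' hy => ?_, hfinH, fun j y => (hrankH j y).trans (by omega)⟩
    rw [stage_congr V (f := y) (g := y') j (fun i hi => hy i hi)]
  · refine ⟨fun j y y' hy => ?_, fun j y => ?_, fun j y => ?_⟩
    · rw [stage_congr V (f := y) (g := y') j (fun i hi => hy i hi)]
    · have h1 := hfinH j y
      have h2 := (suppSp_spec hyp (hullSp κ (stage V y j))).1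
      infer_instance
    · have h1 := hfinH j y
      have h2 := (suppSp_spec hyp (hullSp κ (stage V y j))).1
      have h3 := (suppSp_spec hyp (hullSp κ (stage V y j))).2.1
      have h4 := hrankH j y
      refine (Submodule.finrank_add_le_finrank_add_finrank _ _).trans ?_
      refine Nat.add_le_add (h3.trans ?_) h4
      gcongr
  · intro f hfB
    by_contra hno
    push Not at hno
    apply hbad f hfB
    refine good2f_of V hyp _ (fun i => Submodule.mem_sup_left (L.add_mem (hz i)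
      (Submodule.sum_mem _ fun j _ => L.smul_mem _ (hl _)))) (fun j => (hno j).1) (fun j => ?_)
    have := hfinH j (fun a => z a + ∑ j, c a j • l (f a j))
    exact GD.not_exc (one_mem_hullSp _) (hno j).2

end Pool.Agent.R350
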