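import Pool.Agent.R350.GT

/-!
# Sums of few logarithms, arbitrary constants and arbitrary logarithms
-/

set_option autoImplicit false

namespace Pool.Agent.R350

open Module Finset MvPolynomial

/-- `y` is independent modulo `F` and has no relation with coefficients in `W`, of degree at most `D`
in `y`, which is linear in elements of `L` independent modulo `F + span y` -/
def NoRel' {κ C : Type*} [Field κ] [Field C] [Algebra κ C] (L W F : Submodule κ C) (D : ℕ) {n : ℕ}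
    (y : Fin n → C) : Prop :=
  (∀ c : Fin n → κ, ∑ i, c i • y i ∈ F → ∀ i, c i = 0) ∧
  ∀ (r : ℕ) (l : Fin r → C), (∀ j, l j ∈ L) →
    (∀ c : Fin r → κ, ∑ j, c j • l j ∈ F ⊔ Submodule.span κ (Set.range y) → ∀ j, c j = 0) →
    ∀ P : MvPolynomial (Fin n ⊕ Fin r) C, (∀ β, P.coeff β ∈ W) →
      (∀ i, P.degreeOf (Sum.inl i) ≤ D) → (∀ β ∈ P.support, ∑ j, β (Sum.inr j) ≤ 1) →
      eval (Sum.elim y l) P = 0 → P = 0

/-- free tuples have the property -/
theorem noRel_of_free {κ C : Type} [Field κ] [Field C] [Algebra κ C] {D D' n : ℕ}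
    {L W : Submodule κ C} {y : Fin n → C} (h1L : (1 : C) ∈ L) (hyL : ∀ i, y i ∈ L)
    (h1 : FreeT D L (W ⊔ Submodule.span κ {(1 : C)}) y)
    (h2 : FreeT (D' + 1) L (exSp L W) y) : NoRel' L W (exSp L W) D y := by
  have h1F : (1 : C) ∈ exSp L W := Submodule.mem_sup_right (Submodule.mem_span_singleton_self _)
  refine ⟨fun c hc => h2.indep_mod h1F c hc, fun r l hl hind P hPW hPD hP1 h0 => ?_⟩
  refine h1.lin_polyE h1L hyL l hl ?_ P (fun β => Submodule.mem_sup_left (hPW β)) hPD hP1 h0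
  intro c hc
  refine hind c ?_
  rw [Submodule.span_insert, ← sup_assoc] at hc
  exact hc

/-- the exceptional space -/
theorem exSp_bound {v m : ℕ} {κ C : Type} [Field κ] [Field C] [Algebra κ C]
    {L : Submodule κ C} (hL : HypV v L) (h1L : (1 : C) ∈ L) (W : Submodule κ C)
    [Module.Finite κ W] (hW : finrank κ W ≤ m) :
    Module.Finite κ (exSp L W) ∧ finrank κ (exSp L W) ≤ (m + 1) * (m + 1 + v) * (m + 1) + 1 ∧
      exSp L W ≤ L ∧ (W ≤ Submodule.span κ {(1 : C)} → exSp L W = Submodule.span κ {(1 : C)}) := by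
  have hE : FiniteDimensional κ (W ⊔ Submodule.span κ {(1 : C)} : Submodule κ C) := inferInstance
  have hEr : finrank κ (W ⊔ Submodule.span κ {(1 : C)} : Submodule κ C) ≤ m + 1 :=
    (Submodule.finrank_add_le_finrank_add_finrank _ _).trans
      (Nat.add_le_add hW (finrank_span_one κ C))
  obtain ⟨hsf, hsr⟩ := suppI_bound hL (W ⊔ Submodule.span κ {(1 : C)})
  refine ⟨?_, ?_, ?_, ?_⟩
  · unfold exSp
    infer_instance
  · unfold exSp
    refine (Submodule.finrank_add_le_finrank_add_finrank _ _).trans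
      (Nat.add_le_add (hsr.trans ?_) (finrank_span_one κ C))
    gcongr
  · refine sup_le (suppI_le _ _) ?_
    rw [Submodule.span_singleton_le_iff_mem]
    exact h1L
  · intro hW1
    unfold exSp
    rw [sup_eq_right.2 hW1, suppI_one, bot_sup_eq]

/-- **Sums of few elements of an arbitrary list have no relation with coefficients in `W` which is
linear in arbitrary elements of `L`, up to a power saving exceptional set.** -/
theorem few_lin (D n m v : ℕ) : ∃ δ : ℝ, 0 < δ ∧ ∃ K : ℝ, 0 ≤ K ∧ ∀ (κ C : Type)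
    [Field κ] [CharZero κ] [Field C] [Algebra κ C] (L : Submodule κ C), HypV v L → (1 : C) ∈ L →
    ∀ W : Submodule κ C, Module.Finite κ W → finrank κ W ≤ m →
    ∀ z : Fin n → C, (∀ a, z a ∈ L) →
    ∀ (N : ℕ) (l : Fin N → C), (∀ i, l i ∈ L) → LinearIndependent κ l →
    ∀ c : Fin n → Fin (nS D) → κ, (∀ a j, c a j ≠ 0) →
    ∀ B : Finset (Fin n → Fin (nS D) → Fin N),
    (∀ f ∈ B, ¬ NoRel' L W (exSp L W) (D + 1) (fun a => z a + ∑ j, c a j • l (f a j))) →
    (B.card : ℝ) ≤ K * (N : ℝ) ^ (n * nS D) * (N : ℝ) ^ (-δ) := by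
  classical
  obtain ⟨δ₁, hδ₁, K₁, hK₁, h₁⟩ := few_free D n (m + 1) v
  obtain ⟨δ₂, hδ₂, K₂, hK₂, h₂⟩ := few_free D n ((m + 1) * (m + 1 + v) * (m + 1) + 1) v
  refine ⟨min δ₁ δ₂, lt_min hδ₁ hδ₂, K₁ + K₂, by positivity,
    fun κ C _ _ _ _ L hL h1L W hW hWm z hz N l hl hli c hc B hB => ?_⟩
  have e1 : (N : ℝ) ^ (-δ₁) ≤ (N : ℝ) ^ (-(min δ₁ δ₂)) :=
    npow_mono (lt_min hδ₁ hδ₂) (min_le_left _ _)
  have e2 : (N : ℝ) ^ (-δ₂) ≤ (N : ℝ) ^ (-(min δ₁ δ₂)) :=
    npow_mono (lt_min hδ₁ hδ₂) (min_le_right _ _)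
  have hE : FiniteDimensional κ (W ⊔ Submodule.span κ {(1 : C)} : Submodule κ C) := inferInstance
  have hEr : finrank κ (W ⊔ Submodule.span κ {(1 : C)} : Submodule κ C) ≤ m + 1 :=
    (Submodule.finrank_add_le_finrank_add_finrank _ _).trans
      (Nat.add_le_add hWm (finrank_span_one κ C))
  have h1E : (1 : C) ∈ W ⊔ Submodule.span κ {(1 : C)} :=
    Submodule.mem_sup_right (Submodule.mem_span_singleton_self _)
  have h1F : (1 : C) ∈ exSp L W := Submodule.mem_sup_right (Submodule.mem_span_singleton_self _)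
  obtain ⟨hF, hFr, -, -⟩ := exSp_bound hL h1L W hWm
  let y : (Fin n → Fin (nS D) → Fin N) → Fin n → C := fun f a => z a + ∑ j, c a j • l (f a j)
  have hsplit : B ⊆ (B.filter fun f => ¬ FreeT (D + 1) L (W ⊔ Submodule.span κ {(1 : C)}) (y f)) ∪
      B.filter fun f => ¬ FreeT (D + 1) L (exSp L W) (y f) := by
    intro f hf
    rw [Finset.mem_union, Finset.mem_filter, Finset.mem_filter]
    by_contra hno
    push Not at hno
    exact hB f hf (noRel_of_free h1L (fun i => L.add_mem (hz i) (Submodule.sum_mem _ fun j _ =>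
      L.smul_mem _ (hl _))) (hno.1 hf) (hno.2 hf))
  have h3 := h₁ κ C L (W ⊔ Submodule.span κ {(1 : C)}) hE hL h1L h1E hEr z hz N l hl hli c hc
    (B.filter fun f => ¬ FreeT (D + 1) L (W ⊔ Submodule.span κ {(1 : C)}) (y f))
    (fun f hf => (Finset.mem_filter.1 hf).2)
  have h4 := h₂ κ C L (exSp L W) hF hL h1L h1F hFr z hz N l hl hli c hc
    (B.filter fun f => ¬ FreeT (D + 1) L (exSp L W) (y f))
    (fun f hf => (Finset.mem_filter.1 hf).2)
  have h5 : (B.card : ℝ) ≤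
      ((B.filter fun f => ¬ FreeT (D + 1) L (W ⊔ Submodule.span κ {(1 : C)}) (y f)).card : ℝ) +
      ((B.filter fun f => ¬ FreeT (D + 1) L (exSp L W) (y f)).card : ℝ) := by
    exact_mod_cast (Finset.card_le_card hsplit).trans (Finset.card_union_le _ _)
  calc (B.card : ℝ) ≤ K₁ * (N : ℝ) ^ (n * nS D) * (N : ℝ) ^ (-δ₁) +
        K₂ * (N : ℝ) ^ (n * nS D) * (N : ℝ) ^ (-δ₂) := h5.trans (add_le_add h3 h4)
    _ ≤ K₁ * (N : ℝ) ^ (n * nS D) * (N : ℝ) ^ (-(min δ₁ δ₂)) +
        K₂ * (N : ℝ) ^ (n * nS D) * (N : ℝ) ^ (-(min δ₁ δ₂)) := by gcongr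
    _ = _ := by ring

end Pool.Agent.R350
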