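import Pool.Agent.R350.GD
import Pool.Agent.Y787.PFour
import Pool.Agent.Y787.CStrat

/-!
# First rows of singular matrices of linear forms in logarithms
-/

set_option autoImplicit false

namespace Pool.Agent.R350

open Module
open Pool.Agent.Y787 (QC mem_QC HypC)
open Pool.Agent.Y787.FE (Ctr)

section gen

variable {K : Type} [Field K] [Infinite K]

/-- a polynomial which vanishes on a punctured line vanishes at the puncture -/
theorem line_zero {σ : Type} (P : MvPolynomial σ K) (g h : σ → K)
    (h0 : ∀ t : K, t ≠ 0 → MvPolynomial.eval (fun i => g i + t * h i) P = 0) :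
    MvPolynomial.eval g P = 0 := by
  set Q : Polynomial K := MvPolynomial.eval₂ Polynomial.C
    (fun i => Polynomial.C (g i) + Polynomial.X * Polynomial.C (h i)) P with hQ
  have hev : ∀ t, Q.eval t = MvPolynomial.eval (fun i => g i + t * h i) P := by
    intro t
    have h1 := MvPolynomial.hom_eval₂ P Polynomial.C (Polynomial.evalRingHom t)
      (fun i => Polynomial.C (g i) + Polynomial.X * Polynomial.C (h i))
    rw [← hQ, Polynomial.coe_evalRingHom] at h1
    rw [h1, MvPolynomial.eval, MvPolynomial.coe_eval₂Hom]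
    congr 1
    · ext r
      simp
    · funext i
      simp only [Polynomial.eval_add, Polynomial.eval_C,
        Polynomial.eval_mul, Polynomial.eval_X]
  have hz : Q = 0 := by
    apply Polynomial.eq_zero_of_infinite_isRoot
    refine Set.Infinite.mono (s := {t : K | t ≠ 0}) ?_ ?_
    · intro t ht
      exact (hev t).trans (h0 t ht)
    · have h2 := (Set.finite_singleton (0 : K)).infinite_compl
      exact h2
  have h3 := hev 0
  rw [hz, Polynomial.eval_zero] at h3
  rw [h3]
  congr 2
  funext i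
  rw [zero_mul, add_zero]

theorem exists_eval_ne {σ : Type} (P : MvPolynomial σ K) (hP : P ≠ 0) :
    ∃ e : σ → K, MvPolynomial.eval e P ≠ 0 := by
  by_contra h
  push Not at h
  exact hP (MvPolynomial.funext fun e => by rw [h e, map_zero])

/-- elimination of the second row -/
theorem rows_elim {R : Type} [AddCommGroup R] [Module K R] [FiniteDimensional K R] {n : ℕ}
    (S : R → R → Prop) (hli : ∀ r s, S r s → r ≠ 0 ∧ ∀ a : K, s ≠ a • r)
    (hS : ∀ r s, S r s → ∀ a b : K, b ≠ 0 → S r (a • r + b • s))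
    (hdim : ∀ φ : Fin (n + 2) → ((R × R) →ₗ[K] K), ∃ P : MvPolynomial (Fin (n + 2)) K, P ≠ 0 ∧
      ∀ r s, S r s → MvPolynomial.eval (fun k => φ k (r, s)) P = 0)
    (φ : Fin n → (R →ₗ[K] K)) :
    ∃ P : MvPolynomial (Fin n) K, P ≠ 0 ∧
      ∀ r s, S r s → MvPolynomial.eval (fun k => φ k r) P = 0 := by
  classical
  set d := finrank K R with hd
  let B := Module.finBasis K R
  let c : Fin d → (R →ₗ[K] K) := fun i => B.coord i
  -- the version with sum types
  have h1 : ∀ i j : Fin d, ∃ P : MvPolynomial (Fin n ⊕ Fin 2) K, P ≠ 0 ∧ ∀ r s, S r s →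
      MvPolynomial.eval (Sum.elim (fun k => φ k r) ![c i s, c j s]) P = 0 := by
    intro i j
    obtain ⟨P, hP, h⟩ := hdim (fun k => Sum.elim (fun k => φ k ∘ₗ LinearMap.fst K R R)
      ![c i ∘ₗ LinearMap.snd K R R, c j ∘ₗ LinearMap.snd K R R] (finSumFinEquiv.symm k))
    refine ⟨MvPolynomial.rename finSumFinEquiv.symm P, ?_, fun r s hrs => ?_⟩
    · intro h0
      apply hP
      exact MvPolynomial.rename_injective _ finSumFinEquiv.symm.injective (by rw [h0, map_zero])
    · rw [MvPolynomial.eval_rename]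
      rw [← h r s hrs]
      congr 2
      funext k
      rw [Function.comp_apply]
      rcases finSumFinEquiv.symm k with k' | k'
      · rfl
      · fin_cases k' <;> rfl
  choose P hP hPS using h1
  have h2 : ∀ i j, ∃ e : Fin n ⊕ Fin 2 → K, MvPolynomial.eval e (P i j) ≠ 0 :=
    fun i j => exists_eval_ne _ (hP i j)
  choose e he using h2
  set P0 : Fin d → Fin d → MvPolynomial (Fin n) K := fun i j =>
    MvPolynomial.aeval (Sum.elim MvPolynomial.X fun t => MvPolynomial.C (e i j (Sum.inr t)))
      (P i j) with hP0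
  have hev : ∀ i j (x : Fin n → K), MvPolynomial.eval x (P0 i j) =
      MvPolynomial.eval (Sum.elim x fun t => e i j (Sum.inr t)) (P i j) := by
    intro i j x
    have h3 : (MvPolynomial.eval x) (P0 i j) = ((MvPolynomial.aeval x).comp
        (MvPolynomial.aeval (R := K) (Sum.elim MvPolynomial.X fun t =>
          MvPolynomial.C (e i j (Sum.inr t))))) (P i j) := by
      rw [AlgHom.comp_apply, ← MvPolynomial.coe_aeval_eq_eval]
      rfl
    rw [h3, MvPolynomial.comp_aeval, ← MvPolynomial.coe_aeval_eq_eval]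
    simp only [RingHom.coe_coe]
    congr 1
    congr 1
    funext t
    rcases t with t | t
    · simp
    · simp
  refine ⟨∏ i, ∏ j, P0 i j, ?_, fun r s hrs => ?_⟩
  · rw [Finset.prod_ne_zero_iff]
    intro i _
    rw [Finset.prod_ne_zero_iff]
    intro j _ h0
    apply he i j
    have h3 := hev i j (fun t => e i j (Sum.inl t))
    rw [h0, map_zero] at h3
    rw [h3]
    congr 2
    funext t
    rcases t with t | t <;> rfl
  · obtain ⟨hr0, hsr⟩ := hli r s hrs
    -- a nonvanishing minor
    obtain ⟨i, hi⟩ : ∃ i, c i r ≠ 0 := by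
      by_contra h
      push Not at h
      exact hr0 (B.ext_elem fun i => by
        rw [map_zero]; exact h i)
    obtain ⟨j, hj⟩ : ∃ j, c i r * c j s - c j r * c i s ≠ 0 := by
      by_contra h
      push Not at h
      apply hsr (c i s / c i r)
      apply B.ext_elem
      intro j
      have h4 := h j
      rw [map_smul, Finsupp.smul_apply, smul_eq_mul]
      change c j s = c i s / c i r * c j r
      field_simp
      linear_combination h4
    rw [map_prod]
    refine Finset.prod_eq_zero (Finset.mem_univ i) ?_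
    rw [map_prod]
    refine Finset.prod_eq_zero (Finset.mem_univ j) ?_
    rw [hev]
    set u0 := e i j (Sum.inr 0) with hu0
    set v0 := e i j (Sum.inr 1) with hv0
    set Δ := c i r * c j s - c j r * c i s with hΔ
    set a0 := (u0 * c j s - v0 * c i s) / Δ with ha0
    set b0 := (c i r * v0 - c j r * u0) / Δ with hb0
    have hu : u0 = a0 * c i r + b0 * c i s := by
      rw [ha0, hb0]
      field_simp
      rw [hΔ]
      ring
    have hv : v0 = a0 * c j r + b0 * c j s := by
      rw [ha0, hb0]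
      field_simp
      rw [hΔ]
      ring
    have hgood : ∀ a b : K, b ≠ 0 → MvPolynomial.eval (Sum.elim (fun k => φ k r)
        ![a * c i r + b * c i s, a * c j r + b * c j s]) (P i j) = 0 := by
      intro a b hb
      have h5 := hPS i j r (a • r + b • s) (hS r s hrs a b hb)
      rw [← h5]
      congr 3
      funext t
      fin_cases t
      · simp
      · simp
    have htar : (fun t => e i j (Sum.inr t)) = ![u0, v0] := by
      funext t
      fin_cases t <;> rfl
    rw [htar]
    by_cases hb : b0 = 0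
    · refine line_zero _ _ (Sum.elim 0 ![c i s, c j s]) fun t ht => ?_
      rw [← hgood a0 t ht]
      congr 2
      funext x
      rcases x with x | x
      · simp
      · fin_cases x
        · simp [hu, hb]
        · simp [hv, hb]
    · rw [hu, hv]
      exact hgood a0 b0 hb

end gen

section rows

variable {Cc : Type} [Field Cc] [CharZero Cc] [IsAlgClosed Cc] {Lt : Submodule (QC Cc) Cc}

/-- `(x, y)` is the first row of a singular matrix with independent rows and columns and with
entries in `Lt` -/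
def BadRow (Lt : Submodule (QC Cc) Cc) (x y : Cc) : Prop := ∃ w ∈ Lt, ∃ z ∈ Lt, Ctr x y w z

theorem suppI_le {k A : Type*} [Field k] [Field A] [Algebra k A] (L Ω : Submodule k A) :
    suppI L Ω ≤ L := by
  refine Submodule.span_le.2 ?_
  rintro y ⟨n, ω, ℓ, h1, h2, h3, φ, rfl⟩
  exact Submodule.sum_mem _ fun t _ => L.smul_mem _ (h2 t)

/-- the second row of a singular matrix is in the support of the first row -/
theorem second_mem {W : Submodule (QC Cc) Cc} {x y w z : Cc} (hx : x ∈ W) (hy : y ∈ W)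
    (hw : w ∈ Lt) (hz : z ∈ Lt) (h : Ctr x y w z) : w ∈ suppI Lt W ∧ z ∈ suppI Lt W := by
  have hxy := h.bad.2.2.1
  have hyx := h.swapc.bad.2.2.1
  have key : ∀ x y w z : Cc, x ∈ W → y ∈ W → w ∈ Lt → z ∈ Lt → x * z = y * w →
      (∀ s : QC Cc, x ≠ (s : Cc) * y) → z ∈ suppI Lt W := by
    intro x y w z hx hy hw hz h1 h2
    obtain ⟨φ, hφ1, hφ2⟩ := exists_dual_ne (Submodule.span (QC Cc) {y}) (z := x) (by
      intro hmem
      obtain ⟨s, hs⟩ := Submodule.mem_span_singleton.1 hmem
      apply h2 s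
      rw [← hs, Algebra.smul_def]
      rfl)
    have h3 := mem_suppI (L := Lt) (Ω := W) ![x, y] ![z, -w] (by
      intro t
      fin_cases t
      · exact hx
      · exact hy) (by
      intro t
      fin_cases t
      · exact hz
      · exact Lt.neg_mem hw) (by
      rw [Fin.sum_univ_two]
      simp only [Matrix.cons_val_zero, Matrix.cons_val_one]
      rw [h1]; ring) φ
    rw [Fin.sum_univ_two] at h3
    simp only [Matrix.cons_val_zero, Matrix.cons_val_one] at h3
    rw [hφ2, hφ1 y (Submodule.mem_span_singleton_self y), one_smul, zero_smul, add_zero] at h3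
    exact h3
  exact ⟨key y x z w hy hx hz hw h.1.symm hxy, key x y w z hx hy hw hz h.1 hyx⟩

omit [IsAlgClosed Cc] in
theorem ctr_iff (r s : Fin 2 → Cc) : Ctr (r 0) (r 1) (s 0) (s 1) ↔ r 0 * s 1 = r 1 * s 0 ∧
    LinearIndependent (QC Cc) ![r, s] ∧
      LinearIndependent (QC Cc) (fun j : Fin 2 => (![r j, s j] : Fin 2 → Cc)) := by
  have hsm : ∀ (a : QC Cc) (v : Cc), a • v = (a : Cc) * v := fun a v => by
    rw [Algebra.smul_def]; rfl
  unfold Ctr
  refine and_congr_right fun _ => and_congr ?_ ?_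
  · rw [LinearIndependent.pair_iff]
    refine forall_congr' fun a => forall_congr' fun b => ?_
    constructor
    · intro h h0
      refine h ?_ ?_
      · have := congrFun h0 0
        rwa [Pi.add_apply, Pi.smul_apply, Pi.smul_apply, hsm, hsm] at this
      · have := congrFun h0 1
        rwa [Pi.add_apply, Pi.smul_apply, Pi.smul_apply, hsm, hsm] at this
    · intro h h1 h2
      refine h ?_
      funext j
      rw [Pi.add_apply, Pi.smul_apply, Pi.smul_apply, hsm, hsm]
      fin_cases j
      · exact h1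
      · exact h2
  · have e : (fun j : Fin 2 => (![r j, s j] : Fin 2 → Cc)) = ![![r 0, s 0], ![r 1, s 1]] := by
      funext j
      fin_cases j <;> rfl
    rw [e, LinearIndependent.pair_iff]
    refine forall_congr' fun a => forall_congr' fun b => ?_
    constructor
    · intro h h0
      refine h ?_ ?_
      · have := congrFun h0 0
        simp only [Pi.add_apply, Pi.smul_apply, hsm, Matrix.cons_val_zero, Pi.zero_apply] at this
        exact this
      · have := congrFun h0 1
        simp only [Pi.add_apply, Pi.smul_apply, hsm, Matrix.cons_val_one, Pi.zero_apply] at this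
        exact this
    · intro h h1 h2
      refine h ?_
      funext j
      fin_cases j
      · simp only [Pi.add_apply, Pi.smul_apply, hsm, Matrix.cons_val_zero, Pi.zero_apply]
        exact h1
      · simp only [Pi.add_apply, Pi.smul_apply, hsm, Matrix.cons_val_one, Pi.zero_apply]
        exact h2

omit [IsAlgClosed Cc] in
/-- replacing the second row -/
theorem ctr_change {x y w z : Cc} (h : Ctr x y w z) (a b : QC Cc) (hb : b ≠ 0) :
    Ctr x y (a * x + b * w) (a * y + b * z) := by
  obtain ⟨h1, h2, h3⟩ := h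
  have hb' : (b : Cc) ≠ 0 := by exact_mod_cast hb
  refine ⟨by linear_combination (b : Cc) * h1, fun s t e1 e2 => ?_, fun s t e1 e2 => ?_⟩
  · obtain ⟨e3, e4⟩ := h2 (s + t * a) (t * b) (by push_cast; linear_combination e1)
      (by push_cast; linear_combination e2)
    have ht : t = 0 := (mul_eq_zero.1 e4).resolve_right hb
    rw [ht, zero_mul, add_zero] at e3
    exact ⟨e3, ht⟩
  · refine h3 s t e1 ?_
    apply mul_left_cancel₀ hb'
    rw [mul_zero]
    linear_combination e2 - (a : Cc) * e1

variable [HypC Lt]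

omit [IsAlgClosed Cc] in
theorem hypV_of_hypC : HypV 0 Lt := fun d l x a hx ha hxa hcol =>
  (HypC.hyp (Lt := Lt) d l x a hx ha hxa hcol).trans (Nat.mul_le_mul_left _ (by omega))

variable (W : Submodule (QC Cc) Cc) [FiniteDimensional (QC Cc) W]

/-- **First rows of singular matrices.** -/
theorem row_dim (hW : W ≤ Lt) (φ : Fin 11 → ((Fin 2 → W) →ₗ[QC Cc] QC Cc)) :
    ∃ P : MvPolynomial (Fin 11) (QC Cc), P ≠ 0 ∧ ∀ r : Fin 2 → W, BadRow Lt (r 0 : Cc) (r 1) →
      MvPolynomial.eval (fun k => φ k r) P = 0 := by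
  classical
  have hfd := (suppI_bound (hypV_of_hypC (Lt := Lt)) W).1
  set W' : Submodule (QC Cc) Cc := W ⊔ suppI Lt W with hW'
  have hfd' : FiniteDimensional (QC Cc) W' := Submodule.finiteDimensional_sup _ _
  have hW'L : W' ≤ Lt := sup_le hW (suppI_le Lt W)
  have hWW' : W ≤ W' := le_sup_left
  obtain ⟨ρ, hρ⟩ := LinearMap.exists_leftInverse_of_injective (Submodule.inclusion hWW')
    (Submodule.ker_inclusion _ _ _)
  have hρ' : ∀ w : W, ρ ⟨w, hWW' w.2⟩ = w := fun w => LinearMap.congr_fun hρ w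
  have hinf : Infinite (QC Cc) := inferInstance
  have c1 : ∀ r s : Fin 2 → W', Ctr (Cc := Cc) (r 0) (r 1) (s 0) (s 1) →
      r ≠ 0 ∧ ∀ a : QC Cc, s ≠ a • r := by
    intro r s hrs
    refine ⟨?_, ?_⟩
    · rintro rfl
      exact hrs.bad.1 rfl
    · intro a hs
      have h0 : (s 0 : Cc) = (a : Cc) * r 0 := by
        rw [hs, Pi.smul_apply, Submodule.coe_smul, Algebra.smul_def]
        rfl
      exact hrs.bad.2.2.2 a h0
  have c2 : ∀ r s : Fin 2 → W', Ctr (Cc := Cc) (r 0) (r 1) (s 0) (s 1) → ∀ a b : QC Cc, b ≠ 0 →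
      Ctr (Cc := Cc) (r 0) (r 1) ((a • r + b • s) 0) ((a • r + b • s) 1) := by
    intro r s hrs a b hb
    have h0 : ∀ i, ((a • r + b • s) i : Cc) = (a : Cc) * r i + (b : Cc) * s i := by
      intro i
      rw [Pi.add_apply, Pi.smul_apply, Pi.smul_apply, Submodule.coe_add, Submodule.coe_smul,
        Submodule.coe_smul, Algebra.smul_def, Algebra.smul_def]
      rfl
    rw [h0, h0]
    exact ctr_change hrs a b hb
  have c3 : ∀ ψ : Fin (11 + 2) → (((Fin 2 → W') × (Fin 2 → W')) →ₗ[QC Cc] QC Cc),
      ∃ P : MvPolynomial (Fin (11 + 2)) (QC Cc), P ≠ 0 ∧ ∀ r s : Fin 2 → W',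
        Ctr (Cc := Cc) (r 0) (r 1) (s 0) (s 1) →
          MvPolynomial.eval (fun k => ψ k (r, s)) P = 0 := by
    intro ψ
    let T : Matrix (Fin 2) (Fin 2) W' →ₗ[QC Cc] (Fin 2 → W') × (Fin 2 → W') :=
      (LinearMap.proj (R := QC Cc) (φ := fun _ : Fin 2 => Fin 2 → W') 0).prod
        (LinearMap.proj (R := QC Cc) (φ := fun _ : Fin 2 => Fin 2 → W') 1)
    obtain ⟨P, hP, h⟩ := Pool.Agent.Y787.FE.mat_final W' hW'L (fun k => ψ k ∘ₗ T)
    exact ⟨P, hP, fun r s hrs => h ![r, s] hrs⟩
  obtain ⟨P, hP, h⟩ := rows_elim (K := QC Cc) (R := Fin 2 → W') (n := 11)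
    (fun r s => Ctr (Cc := Cc) (r 0) (r 1) (s 0) (s 1)) c1 c2 c3
    (fun k => φ k ∘ₗ (LinearMap.pi fun i => ρ ∘ₗ LinearMap.proj i))
  refine ⟨P, hP, fun r hr => ?_⟩
  obtain ⟨w, hw, z, hz, hc⟩ := hr
  obtain ⟨hw', hz'⟩ := second_mem (r 0).2 (r 1).2 hw hz hc
  have h1 := h (fun i => ⟨r i, hWW' (r i).2⟩) ![⟨w, Submodule.mem_sup_right hw'⟩,
    ⟨z, Submodule.mem_sup_right hz'⟩] hc
  rw [← h1]
  congr 2
  funext k
  rw [LinearMap.comp_apply]
  congr 1
  funext i
  rw [LinearMap.pi_apply, LinearMap.comp_apply, LinearMap.proj_apply, hρ']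

/-- **Entries of first rows of singular matrices.** -/
theorem entry_dim (hW : W ≤ Lt) (φ : Fin 9 → (W →ₗ[QC Cc] QC Cc)) :
    ∃ P : MvPolynomial (Fin 9) (QC Cc), P ≠ 0 ∧ ∀ r : Fin 2 → W, BadRow Lt (r 0 : Cc) (r 1) →
      ∀ j, MvPolynomial.eval (fun k => φ k (r j)) P = 0 := by
  classical
  have hfd := (suppI_bound (hypV_of_hypC (Lt := Lt)) W).1
  set W' : Submodule (QC Cc) Cc := W ⊔ suppI Lt W with hW'
  have hfd' : FiniteDimensional (QC Cc) W' := Submodule.finiteDimensional_sup _ _
  have hW'L : W' ≤ Lt := sup_le hW (suppI_le Lt W)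
  have hWW' : W ≤ W' := le_sup_left
  obtain ⟨ρ, hρ⟩ := LinearMap.exists_leftInverse_of_injective (Submodule.inclusion hWW')
    (Submodule.ker_inclusion _ _ _)
  have hρ' : ∀ w : W, ρ ⟨w, hWW' w.2⟩ = w := fun w => LinearMap.congr_fun hρ w
  obtain ⟨P, hP, h⟩ := Pool.Agent.Y787.FE.ent_final W' hW'L (fun k => φ k ∘ₗ ρ)
  refine ⟨P, hP, fun r hr j => ?_⟩
  obtain ⟨w, hw, z, hz, hc⟩ := hr
  obtain ⟨hw', hz'⟩ := second_mem (r 0).2 (r 1).2 hw hz hc
  have h1 := h ![fun i => ⟨r i, hWW' (r i).2⟩, ![⟨w, Submodule.mem_sup_right hw'⟩,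
      ⟨z, Submodule.mem_sup_right hz'⟩]] hc 0 j
  rw [← h1]
  congr 2
  funext k
  rw [LinearMap.comp_apply]
  change _ = φ k (ρ ⟨r j, hWW' (r j).2⟩)
  rw [hρ']

/-- a generic row is not a first row -/
theorem row_generic (l : Fin 6 → Cc) (hlL : ∀ k, l k ∈ Lt) (hl : LinearIndependent (QC Cc) l) :
    ∃ Δ : MvPolynomial (Fin 2 × Fin 6) (QC Cc), Δ ≠ 0 ∧ ∀ b : Fin 2 × Fin 6 → QC Cc,
      MvPolynomial.eval b Δ ≠ 0 →
        ¬ BadRow Lt (∑ k, (b (0, k) : Cc) * l k) (∑ k, (b (1, k) : Cc) * l k) := by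
  classical
  set W : Submodule (QC Cc) Cc := Submodule.span (QC Cc) (Set.range l) with hW
  have hfd : FiniteDimensional (QC Cc) W :=
    FiniteDimensional.span_of_finite _ (Set.finite_range l)
  have hWL : W ≤ Lt := Submodule.span_le.2 (by rintro _ ⟨k, rfl⟩; exact hlL k)
  let B : Basis (Fin 6) (QC Cc) W := Basis.span hl
  have hB : ∀ k, ((B k : W) : Cc) = l k := fun k => by
    rw [Basis.span_apply]
  let e : Fin 11 → Fin 2 × Fin 6 := fun k => finProdFinEquiv.symm (Fin.castLE (by norm_num) k)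
  have he : Function.Injective e := fun a b h => by
    have h1 := finProdFinEquiv.symm.injective h
    exact Fin.castLE_injective _ h1
  obtain ⟨P, hP, h⟩ := row_dim (Lt := Lt) W hWL
    (fun k => B.coord (e k).2 ∘ₗ LinearMap.proj (e k).1)
  refine ⟨MvPolynomial.rename e P, ?_, fun b hb hbad => hb ?_⟩
  · intro h0
    exact hP (MvPolynomial.rename_injective e he (by rw [h0, map_zero]))
  · have hrow : ∀ i, ∑ k, (b (i, k) : Cc) * l k = ((∑ k, b (i, k) • B k : W) : Cc) := by
      intro i
      rw [Submodule.coe_sum]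
      refine Finset.sum_congr rfl fun k _ => ?_
      rw [Submodule.coe_smul, hB, Algebra.smul_def]
      rfl
    rw [hrow, hrow] at hbad
    have h1 := h (fun i => ∑ k, b (i, k) • B k) hbad
    rw [MvPolynomial.eval_rename]
    rw [← h1]
    congr 2
    funext k
    rw [Function.comp_apply, LinearMap.comp_apply, LinearMap.proj_apply, Basis.coord_apply,
      map_sum, Finsupp.finsetSum_apply, Finset.sum_eq_single (e k).2]
    · rw [map_smul, Basis.repr_self, Finsupp.smul_apply, Finsupp.single_eq_same, smul_eq_mul,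
        mul_one]
    · intro m _ hm
      rw [map_smul, Basis.repr_self, Finsupp.smul_apply, Finsupp.single_eq_of_ne (Ne.symm hm),
        smul_zero]
    · intro h2
      exact absurd (Finset.mem_univ _) h2

/-- a generic number is not an entry of a first row -/
theorem entry_generic (hW : W ≤ Lt) (l : Fin 9 → W) (hl : LinearIndependent (QC Cc) l) :
    ∃ Δ : MvPolynomial (Fin 9) (QC Cc), Δ ≠ 0 ∧ ∀ b : Fin 9 → QC Cc, MvPolynomial.eval b Δ ≠ 0 →
      ∀ y ∈ W, ¬ BadRow Lt (∑ k, (b k : Cc) * l k) y := by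
  classical
  have hker : LinearMap.ker (Fintype.linearCombination (QC Cc) l) = ⊥ := by
    rw [LinearMap.ker_eq_bot']
    intro b hb
    rw [Fintype.linearCombination_apply] at hb
    funext i
    exact Fintype.linearIndependent_iff.mp hl b hb i
  obtain ⟨G, hG⟩ := LinearMap.exists_leftInverse_of_injective _ hker
  obtain ⟨P, h1, h2⟩ := entry_dim (Lt := Lt) W hW (fun i => (LinearMap.proj i) ∘ₗ G)
  refine ⟨P, h1, fun b hb y hy hbad => hb ?_⟩
  have hrow : ∑ k, (b k : Cc) * l k = ((∑ k, b k • l k : W) : Cc) := by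
    rw [Submodule.coe_sum]
    refine Finset.sum_congr rfl fun k _ => ?_
    rw [Submodule.coe_smul, Algebra.smul_def]
    rfl
  rw [hrow] at hbad
  have h3 := h2 ![∑ k, b k • l k, ⟨y, hy⟩] hbad 0
  rw [← h3]
  congr 2
  funext k
  rw [Matrix.cons_val_zero, ← Fintype.linearCombination_apply]
  exact (congrFun (LinearMap.congr_fun hG b) k).symm

end rows

end Pool.Agent.R350
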