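import Pool.Agent.R350.GF

/-!
# Relations of higher degree and derivations
-/

set_option autoImplicit false

namespace Pool.Agent.R350

open Module Finset

section

variable {k A : Type*} [Field k] [Field A] [Algebra k A]

theorem exists_coords {Ω L : Submodule k A} {ι : Type*} [Fintype ι] (b : ι → A)
    (hb : Ω ≤ Submodule.span k (Set.range b)) {g : A} (hg : g ∈ Ω * L) :
    ∃ ℓ : ι → A, (∀ u, ℓ u ∈ L) ∧ g = ∑ u, b u * ℓ u := by
  classical
  refine Submodule.mul_induction_on hg ?_ ?_
  · intro w hw l hl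
    obtain ⟨c, rfl⟩ := (Submodule.mem_span_range_iff_exists_fun k).1 (hb hw)
    refine ⟨fun u => c u • l, fun u => L.smul_mem _ hl, ?_⟩
    rw [Finset.sum_mul]
    refine Finset.sum_congr rfl fun u _ => ?_
    rw [smul_mul_assoc, mul_smul_comm]
  · rintro x y ⟨ℓ, h1, rfl⟩ ⟨ℓ', h2, rfl⟩
    refine ⟨fun u => ℓ u + ℓ' u, fun u => L.add_mem (h1 u) (h2 u), ?_⟩
    rw [← Finset.sum_add_distrib]
    exact Finset.sum_congr rfl fun u _ => by ring

/-- derivations which preserve the ground field and the space `L`, and elements `lam i` of `L` which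
are linearly independent together with `1` -/
structure DSys (L : Submodule k A) {N : ℕ} (lam : Fin N → A) (D : Fin N → Derivation ℤ A A) :
    Prop where
  h1L : (1 : A) ∈ L
  hlam : ∀ i, lam i ∈ L
  hL : ∀ i, ∀ l ∈ L, D i l ∈ L
  hli : ∀ (c : Fin N → k) (c0 : k), ∑ i, c i • lam i = c0 • (1 : A) → ∀ i, c i = 0

theorem DSys.bound {L : Submodule k A} {N v : ℕ} {lam : Fin N → A}
    {D : Fin N → Derivation ℤ A A} (H : DSys L lam D) (hL : HypV v L) (S Ω : Submodule k A)
    [FiniteDimensional k S] (hΩS : Ω ≤ S) (p : A) (hpS : p ∈ S) (hpΩ : p ∉ Ω)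
    (hrel : ∀ i, lam i * p ∈ Ω * L ⊔ S) : N ≤ finrank k S * (finrank k S + v) := by
  classical
  have hfd : FiniteDimensional k Ω := Submodule.finiteDimensional_of_le hΩS
  set b : Fin (finrank k Ω) → A := fun u => ((Module.finBasis k Ω u : Ω) : A) with hb
  have hbΩ : Ω ≤ Submodule.span k (Set.range b) := by
    intro w hw
    have h1 := congrArg (fun z : Ω => (z : A)) ((Module.finBasis k Ω).sum_repr ⟨w, hw⟩)
    simp only [Submodule.coe_sum, Submodule.coe_smul] at h1
    rw [← h1]
    exact Submodule.sum_mem _ fun u _ => Submodule.smul_mem _ _ (Submodule.subset_span ⟨u, rfl⟩)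
  choose g hg s hs hgs using fun i => Submodule.mem_sup.1 (hrel i)
  choose ℓ hℓ hgℓ using fun i => exists_coords b hbΩ (hg i)
  obtain ⟨φ, hφ1, hφ2⟩ := exists_dual_ne Ω hpΩ
  have h1 := hL.dual (κ := Fin N) (τ := Option (Option (Fin (finrank k Ω)))) S
    (fun i t => t.elim p (fun t => t.elim (s i) b))
    (fun i t => t.elim (lam i) (fun t => t.elim (-1) (fun u => -ℓ i u)))
    (by
      intro i t
      rcases t with _ | _ | u
      · exact hpS
      · exact hs i
      · exact hΩS (Module.finBasis k Ω u).2)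
    (by
      intro i t
      rcases t with _ | _ | u
      · exact H.hlam i
      · exact L.neg_mem H.h1L
      · exact L.neg_mem (hℓ i u))
    (by
      intro i
      rw [Fintype.sum_option, Fintype.sum_option]
      simp only [Option.elim]
      have h2 := hgs i
      rw [hgℓ i] at h2
      have h3 : ∑ u, b u * -ℓ i u = -∑ u, b u * ℓ i u := by
        rw [← Finset.sum_neg_distrib]
        exact Finset.sum_congr rfl fun u _ => by ring
      rw [h3]
      linear_combination -h2)
    (by
      intro η hη i
      refine H.hli η (∑ i, η i * φ (s i)) ?_ i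
      have h2 := hη φ
      have h3 : ∀ i : Fin N, ∑ t : Option (Option (Fin (finrank k Ω))),
          φ ((fun i t => t.elim p (fun t => t.elim (s i) b) : Fin N →
            Option (Option (Fin (finrank k Ω))) → A) i t) •
          ((fun i t => t.elim (lam i) (fun t => t.elim (-1) (fun u => -ℓ i u)) : Fin N →
            Option (Option (Fin (finrank k Ω))) → A) i t) = lam i - φ (s i) • (1 : A) := by
        intro i
        rw [Fintype.sum_option, Fintype.sum_option]
        simp only [Option.elim]
        rw [hφ2, Finset.sum_eq_zero, one_smul, smul_neg, add_zero, sub_eq_add_neg]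
        intro u _
        rw [hφ1 _ (Module.finBasis k Ω u).2, zero_smul]
      simp only [h3] at h2
      simp only [smul_sub, Finset.sum_sub_distrib] at h2
      rw [sub_eq_zero] at h2
      rw [h2, Finset.sum_smul]
      exact Finset.sum_congr rfl fun i _ => by rw [mul_smul])
  rwa [Fintype.card_fin] at h1

theorem der_mul_mem {Ω L : Submodule k A} {d : Derivation ℤ A A} (h1 : ∀ w ∈ Ω, d w ∈ Ω)
    (h2 : ∀ l ∈ L, d l ∈ L) {g : A} (hg : g ∈ Ω * L) : d g ∈ Ω * L := by
  refine Submodule.mul_induction_on hg ?_ ?_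
  · intro w hw l hl
    rw [d.leibniz, smul_eq_mul, smul_eq_mul]
    refine Submodule.add_mem _ (Submodule.mul_mem_mul hw (h2 l hl)) ?_
    rw [mul_comm l]
    exact Submodule.mul_mem_mul (h1 w hw) hl
  · intro x y hx hy
    rw [map_add]
    exact Submodule.add_mem _ hx hy

theorem der_pow (d : Derivation ℤ A A) (y : A) (n : ℕ) :
    d (y ^ n) = (n : A) * y ^ (n - 1) * d y := by
  rw [Derivation.leibniz_pow, nsmul_eq_mul, smul_eq_mul, mul_assoc]

/-- the derivative of a polynomial expression -/
theorem der_sum (d : Derivation ℤ A A) (y lam : A) (hy : d y = lam) (u : ℕ → A) (e : ℕ) :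
    d (∑ j ∈ range (e + 1), y ^ j * u j) = ∑ j ∈ range (e + 1), y ^ j * d (u j) +
      lam * ∑ j ∈ range e, y ^ j * (((j + 1 : ℕ) : A) * u (j + 1)) := by
  rw [map_sum]
  have h1 : ∀ j, d (y ^ j * u j) = y ^ j * d (u j) + (j : A) * y ^ (j - 1) * lam * u j := by
    intro j
    rw [d.leibniz, smul_eq_mul, smul_eq_mul, der_pow, hy]
    ring
  simp only [h1]
  rw [Finset.sum_add_distrib]
  congr 1
  rw [Finset.sum_range_succ', Finset.mul_sum]
  rw [Nat.cast_zero, zero_mul, zero_mul, zero_mul, add_zero]
  refine Finset.sum_congr rfl fun j _ => ?_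
  rw [Nat.add_sub_cancel]
  ring

theorem polyU_mono {y : A} {Ω : Submodule k A} {n n' : ℕ} (h : n ≤ n') :
    polyU y Ω n ≤ polyU y Ω n' := by
  rintro _ ⟨u, hu, rfl⟩
  exact Submodule.sum_mem _ fun i hi => pow_mul_mem_polyU y Ω
    (lt_of_lt_of_le (Finset.mem_range.1 hi) h) (hu i)

theorem nat_mul_mem {Ω : Submodule k A} (n : ℕ) {w : A} (hw : w ∈ Ω) : (n : A) * w ∈ Ω := by
  rw [← nsmul_eq_mul]
  exact Ω.nsmul_mem hw n

theorem sum_two {E : ℕ} (hE : 1 ≤ E) (y : A) (q : ℕ → A) (h : ∀ j, 2 ≤ j → j ≤ E → q j = 0) :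
    ∑ j ∈ range (E + 1), y ^ j * q j = q 0 + y * q 1 := by
  obtain ⟨E', rfl⟩ : ∃ E', E = E' + 1 := ⟨E - 1, by omega⟩
  rw [Finset.sum_range_succ', Finset.sum_range_succ', Finset.sum_eq_zero]
  · ring
  · intro j hj
    rw [h (j + 1 + 1) (by omega) (by have := Finset.mem_range.1 hj; omega), mul_zero]

variable {L : Submodule k A} {N v : ℕ} {lam : Fin N → A} {D : Fin N → Derivation ℤ A A}

section main

variable [CharZero A] (H : DSys L lam D) (hL : HypV v L) (Ω : Submodule k A)
  [FiniteDimensional k Ω] (hΩ : ∀ i, ∀ w ∈ Ω, D i w ∈ Ω) {y : A} (hy : ∀ i, D i y = lam i)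

include H hL hΩ hy

/-- the powers of `y` are linearly independent over `Ω` -/
theorem mon_li (e : ℕ) (he : (e + 1) * finrank k Ω * ((e + 1) * finrank k Ω + v) < N) :
    ∀ q : ℕ → A, (∀ j, q j ∈ Ω) → ∑ j ∈ range (e + 1), y ^ j * q j = 0 → ∀ j ≤ e, q j = 0 := by
  induction e with
  | zero =>
    intro q _ h0 j hj
    have : j = 0 := by omega
    subst this
    simpa using h0
  | succ e ih =>
    intro q hq h0
    set p : A := ∑ j ∈ range (e + 1), y ^ j * (((j + 1 : ℕ) : A) * q (j + 1)) with hp
    have hp0 : p = 0 := by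
      by_contra hne
      obtain ⟨h1, h2⟩ := polyU_bound y Ω (e + 2)
      have h3 := H.bound hL (polyU y Ω (e + 2)) ⊥ bot_le p (by
        refine polyU_mono (by omega) (mem_polyU _ fun i _ => nat_mul_mem _ (hq _)) ) (by
        rw [Submodule.mem_bot]; exact hne) (by
        intro i
        refine Submodule.mem_sup_right ?_
        have h4 := congrArg (D i) h0
        rw [map_zero, der_sum (D i) y (lam i) (hy i) q (e + 1)] at h4
        have h5 : lam i * p = ∑ j ∈ range (e + 2), y ^ j * (-D i (q j)) := by
          simp only [mul_neg, Finset.sum_neg_distrib]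
          linear_combination h4
        rw [h5]
        exact mem_polyU _ fun j _ => Ω.neg_mem (hΩ i _ (hq j)))
      have h4 : (e + 2) * finrank k Ω * ((e + 2) * finrank k Ω + v) < N := he
      have h5 := Nat.mul_le_mul h2 (Nat.add_le_add_right h2 v)
      exact absurd (h3.trans h5) (not_le.2 h4)
    have h1 := ih (lt_of_le_of_lt (by gcongr <;> omega) he)
      (fun j => ((j + 1 : ℕ) : A) * q (j + 1)) (fun j => nat_mul_mem _ (hq _)) hp0
    have h2 : ∀ j, 1 ≤ j → j ≤ e + 1 → q j = 0 := by
      intro j hj1 hj2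
      obtain ⟨i, rfl⟩ : ∃ i, j = i + 1 := ⟨j - 1, by omega⟩
      have h3 := h1 i (by omega)
      exact (mul_eq_zero.1 h3).resolve_left (by exact_mod_cast Nat.succ_ne_zero i)
    intro j hj
    rcases Nat.eq_zero_or_pos j with rfl | hj0
    · rw [Finset.sum_range_succ', Finset.sum_eq_zero] at h0
      · simpa using h0
      · intro i hi
        rw [h2 (i + 1) (by omega) (by have := Finset.mem_range.1 hi; omega), mul_zero]
    · exact h2 j hj0 hj

/-- polynomials in `y` over `Ω` of degree at least two are not in `Ω L` -/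
theorem step_c (e : ℕ) (he : (e + 1) * finrank k Ω * ((e + 1) * finrank k Ω + v) < N)
    (q : ℕ → A) (hq : ∀ j, q j ∈ Ω) (hG : ∑ j ∈ range (e + 1), y ^ j * q j ∈ Ω * L) :
    ∀ j, 2 ≤ j → j ≤ e → q j = 0 := by
  set p : A := ∑ j ∈ range e, y ^ j * (((j + 1 : ℕ) : A) * q (j + 1)) with hp
  obtain ⟨h1, h2⟩ := polyU_bound y Ω (e + 1)
  have hpS : p ∈ polyU y Ω (e + 1) :=
    polyU_mono (by omega) (mem_polyU _ fun i _ => nat_mul_mem _ (hq _))
  have hΩS : Ω ≤ polyU y Ω (e + 1) := by
    intro w hw
    have := pow_mul_mem_polyU y Ω (n := e + 1) (l := 0) (by omega) hw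
    rwa [pow_zero, one_mul] at this
  have hpΩ : p ∈ Ω := by
    by_contra hne
    have h3 := H.bound hL (polyU y Ω (e + 1)) Ω hΩS p hpS hne (by
      intro i
      have h4 := der_sum (D i) y (lam i) (hy i) q e
      have h5 : lam i * p = D i (∑ j ∈ range (e + 1), y ^ j * q j) +
          ∑ j ∈ range (e + 1), y ^ j * (-D i (q j)) := by
        simp only [mul_neg, Finset.sum_neg_distrib]
        linear_combination -h4
      rw [h5]
      exact Submodule.add_mem _ (Submodule.mem_sup_left (der_mul_mem (hΩ i) (H.hL i) hG))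
        (Submodule.mem_sup_right (mem_polyU _ fun j _ => Ω.neg_mem (hΩ i _ (hq j)))))
    have h5 := Nat.mul_le_mul h2 (Nat.add_le_add_right h2 v)
    omega
  intro j hj2 hje
  have h3 := mon_li H hL Ω hΩ hy e he
    (fun j => if j = 0 then q 1 - p else if j < e then ((j + 1 : ℕ) : A) * q (j + 1) else 0) (by
      intro j
      split_ifs
      · exact Ω.sub_mem (hq _) hpΩ
      · exact nat_mul_mem _ (hq _)
      · exact Ω.zero_mem) (by
      have h6 : ∑ j ∈ range (e + 1), y ^ j *
          (if j = 0 then q 1 - p else if j < e then ((j + 1 : ℕ) : A) * q (j + 1) else 0) =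
          ∑ j ∈ range e, y ^ j * (((j + 1 : ℕ) : A) * q (j + 1)) - p := by
        rw [Finset.sum_range_succ, if_neg (show ¬ e = 0 by omega), if_neg (lt_irrefl e), mul_zero,
          add_zero]
        obtain ⟨e', rfl⟩ : ∃ e', e = e' + 1 := ⟨e - 1, by omega⟩
        rw [Finset.sum_range_succ', Finset.sum_range_succ' (fun j => y ^ j *
          (((j + 1 : ℕ) : A) * q (j + 1)))]
        rw [if_pos rfl]
        have h7 : ∀ j ∈ range e', y ^ (j + 1) * (if j + 1 = 0 then q 1 - p else
            if j + 1 < e' + 1 then ((j + 1 + 1 : ℕ) : A) * q (j + 1 + 1) else 0) =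
            y ^ (j + 1) * (((j + 1 + 1 : ℕ) : A) * q (j + 1 + 1)) := by
          intro j hj
          rw [if_neg (Nat.succ_ne_zero j), if_pos (by have := Finset.mem_range.1 hj; omega)]
        rw [Finset.sum_congr rfl h7]
        push_cast
        ring
      rw [h6, ← hp, sub_self]) (j - 1) (by omega)
  rw [if_neg (show ¬ j - 1 = 0 by omega), if_pos (show j - 1 < e by omega)] at h3
  have h4 : j - 1 + 1 = j := by omega
  rw [h4] at h3
  exact (mul_eq_zero.1 h3).resolve_left (by
    have : j ≠ 0 := by omega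
    exact_mod_cast this)

/-- the iterated partial derivatives of a relation -/
theorem step_b (h1Ω : (1 : A) ∈ Ω) (E : ℕ)
    (hE : (E + 2) * finrank k Ω * ((E + 2) * finrank k Ω + v) < N) (m : ℕ → A)
    (hm : ∀ j, m j ∈ Ω * L) (h0 : ∑ j ∈ range (E + 1), y ^ j * m j = 0) :
    ∀ r, ∑ j ∈ range (E + 1), (j.descFactorial r : A) * y ^ (j - r) * m j ∈
      polyU y Ω (E + 1) := by
  have hΩ1 : 1 ≤ finrank k Ω := by
    have : Nontrivial Ω := ⟨⟨⟨1, h1Ω⟩, 0, fun h => one_ne_zero (congrArg Subtype.val h)⟩⟩
    exact Module.finrank_pos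
  obtain ⟨hS1, hS2⟩ := polyU_bound y Ω (E + 1)
  intro r
  induction r with
  | zero =>
    have : ∑ j ∈ range (E + 1), (j.descFactorial 0 : A) * y ^ (j - 0) * m j = 0 := by
      rw [← h0]
      refine Finset.sum_congr rfl fun j _ => ?_
      rw [Nat.descFactorial_zero, Nat.cast_one, one_mul, Nat.sub_zero]
    rw [this]
    exact Submodule.zero_mem _
  | succ r ih =>
    obtain ⟨u, hu, hFu⟩ := ih
    set F' : A := ∑ j ∈ range (E + 1), (j.descFactorial (r + 1) : A) * y ^ (j - (r + 1)) * m j
      with hF'
    set s' : A := ∑ j ∈ range E, y ^ j * (((j + 1 : ℕ) : A) * u (j + 1)) with hs'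
    have hs'S : s' ∈ polyU y Ω (E + 1) :=
      polyU_mono (by omega) (mem_polyU _ fun i _ => nat_mul_mem _ (hu _))
    by_contra hne
    have hpS : F' - s' ∉ polyU y Ω (E + 1) := fun h => hne (by
      have := Submodule.add_mem _ h hs'S
      rwa [sub_add_cancel] at this)
    have hfd : FiniteDimensional k
        (polyU y Ω (E + 1) ⊔ Submodule.span k {F' - s'} : Submodule k A) :=
      Submodule.finiteDimensional_sup _ _
    have hdim : finrank k (polyU y Ω (E + 1) ⊔ Submodule.span k {F' - s'} : Submodule k A) ≤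
        (E + 2) * finrank k Ω := by
      refine (Submodule.finrank_add_le_finrank_add_finrank _ _).trans ?_
      have h1 := finrank_span_finset_le_card (R := k) ({F' - s'} : Finset A)
      rw [Finset.coe_singleton, Finset.card_singleton] at h1
      refine (Nat.add_le_add hS2 h1).trans ?_
      have : (E + 2) * finrank k Ω = (E + 1) * finrank k Ω + finrank k Ω := by ring
      omega
    have h3 := H.bound hL (polyU y Ω (E + 1) ⊔ Submodule.span k {F' - s'}) (polyU y Ω (E + 1))
      le_sup_left (F' - s') (Submodule.mem_sup_right (Submodule.mem_span_singleton_self _)) hpS (by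
      intro i
      refine Submodule.mem_sup_left ?_
      have hΩL : ∀ w ∈ Ω, w ∈ Ω * L := fun w hw => by
        have := Submodule.mul_mem_mul hw H.h1L
        rwa [mul_one] at this
      have hpow : ∀ j ≤ E, ∀ g ∈ Ω * L, y ^ j * g ∈ polyU y Ω (E + 1) * L := fun j hj g hg =>
        pow_mul_mem_polyU_mul y Ω L (by omega) hg
      -- the derivative of the partial derivative
      have h4 : D i (∑ j ∈ range (E + 1), (j.descFactorial r : A) * y ^ (j - r) * m j) =
          ∑ j ∈ range (E + 1), y ^ (j - r) * ((j.descFactorial r : A) * D i (m j)) +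
            lam i * F' := by
        rw [map_sum, hF', Finset.mul_sum, ← Finset.sum_add_distrib]
        refine Finset.sum_congr rfl fun j _ => ?_
        have e1 : D i ((j.descFactorial r : A) * y ^ (j - r) * m j) =
            (j.descFactorial r : A) * (y ^ (j - r) * D i (m j) +
              ((j - r : ℕ) : A) * y ^ (j - r - 1) * lam i * m j) := by
          rw [mul_assoc, ← nsmul_eq_mul, map_nsmul, nsmul_eq_mul, (D i).leibniz, smul_eq_mul,
            smul_eq_mul, der_pow, hy i]
          ring
        rw [e1, Nat.descFactorial_succ]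
        push_cast
        rw [Nat.sub_sub]
        ring
      have h5 := der_sum (D i) y (lam i) (hy i) u E
      rw [← hFu, h4] at h5
      have h6 : lam i * (F' - s') = ∑ j ∈ range (E + 1), y ^ j * D i (u j) -
          ∑ j ∈ range (E + 1), y ^ (j - r) * ((j.descFactorial r : A) * D i (m j)) := by
        linear_combination h5
      rw [h6]
      refine Submodule.sub_mem _ (Submodule.sum_mem _ fun j hj => ?_)
        (Submodule.sum_mem _ fun j hj => ?_)
      · have := Finset.mem_range.1 hj
        exact hpow j (by omega) _ (hΩL _ (hΩ i _ (hu j)))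
      · have := Finset.mem_range.1 hj
        refine hpow _ (by omega) _ ?_
        exact nat_mul_mem _ (der_mul_mem (hΩ i) (H.hL i) (hm j)))
    have h5 := Nat.mul_le_mul hdim (Nat.add_le_add_right hdim v)
    exact absurd (h3.trans h5) (not_le.2 hE)

/-- **Relations of higher degree and derivations.** -/
theorem gd_of_der (h1Ω : (1 : A) ∈ Ω) (E : ℕ)
    (hE : (E + 2) * finrank k Ω * ((E + 2) * finrank k Ω + v) < N) : GD E L Ω y := by
  classical
  intro m' hm' h0'
  -- extension by zero
  set m : ℕ → A := fun j => if j ≤ E then m' j else 0 with hmdef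
  have hm : ∀ j, m j ∈ Ω * L := by
    intro j
    by_cases hj : j ≤ E
    · simp only [hmdef, if_pos hj]; exact hm' j hj
    · simp only [hmdef, if_neg hj]; exact Submodule.zero_mem _
  have hmm : ∀ j ≤ E, m j = m' j := fun j hj => by simp only [hmdef, if_pos hj]
  have h0 : ∑ j ∈ range (E + 1), y ^ j * m j = 0 := by
    rw [← h0']
    exact Finset.sum_congr rfl fun j hj => by
      rw [hmm j (by have := Finset.mem_range.1 hj; omega)]
  rw [← hmm E le_rfl]
  rcases Nat.eq_zero_or_pos E with rfl | hEpos
  · have : m 0 = 0 := by simpa using h0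
    rw [this]; exact Ω.zero_mem
  have hF := step_b H hL Ω hΩ hy h1Ω E hE m hm h0
  have hsm : (E + 1) * finrank k Ω * ((E + 1) * finrank k Ω + v) < N :=
    lt_of_le_of_lt (by gcongr <;> omega) hE
  -- all coefficients but the first one are in `Ω + y Ω`
  have key : ∀ r, r + 1 ≤ E → ∃ a ∈ Ω, ∃ b ∈ Ω, m (E - r) = a + y * b := by
    intro r
    induction r using Nat.strong_induction_on with
    | _ r ih =>
      intro hr
      set j0 := E - r with hj0
      have h1 := hF j0
      have h2 : ∀ j ∈ range (E + 1), j ≠ j0 →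
          (j.descFactorial j0 : A) * y ^ (j - j0) * m j ∈ polyU y Ω (E + 1) := by
        intro j hj hne
        have hjE : j ≤ E := by have := Finset.mem_range.1 hj; omega
        rcases Nat.lt_or_ge j j0 with hlt | hge
        · rw [Nat.descFactorial_of_lt hlt, Nat.cast_zero, zero_mul, zero_mul]
          exact Submodule.zero_mem _
        · obtain ⟨a, ha, b, hb, hab⟩ := ih (E - j) (by omega) (by omega)
          have e1 : E - (E - j) = j := by omega
          rw [e1] at hab
          rw [hab, mul_assoc]
          refine nat_mul_mem _ ?_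
          rw [mul_add]
          refine Submodule.add_mem _ (pow_mul_mem_polyU y Ω (by omega) ha) ?_
          rw [← mul_assoc, ← pow_succ]
          exact pow_mul_mem_polyU y Ω (by omega) hb
      have h3 : (j0.factorial : A) * m j0 ∈ polyU y Ω (E + 1) := by
        rw [← Finset.add_sum_erase _ _ (Finset.mem_range.2 (show j0 < E + 1 by omega))] at h1
        rw [Nat.descFactorial_self, Nat.sub_self, pow_zero, mul_one] at h1
        have h4 := Submodule.sub_mem _ h1 (Submodule.sum_mem (t := (range (E + 1)).erase j0)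
          (polyU y Ω (E + 1)) (f := fun j => (j.descFactorial j0 : A) * y ^ (j - j0) * m j)
          fun j hj => h2 j (Finset.mem_of_mem_erase hj) (Finset.ne_of_mem_erase hj))
        rwa [add_sub_cancel_right] at h4
      have h4 : m j0 ∈ polyU y Ω (E + 1) := by
        have hch : CharZero k := by
          refine ⟨fun a b hab => ?_⟩
          have := congrArg (algebraMap k A) hab
          rw [map_natCast, map_natCast] at this
          exact_mod_cast this
        have h5 := (polyU y Ω (E + 1)).smul_mem ((j0.factorial : k)⁻¹) h3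
        have h6 : (j0.factorial : k) ≠ 0 := by exact_mod_cast Nat.factorial_ne_zero j0
        rw [Algebra.smul_def, ← mul_assoc, map_inv₀, map_natCast, inv_mul_cancel₀ (by
          exact_mod_cast Nat.factorial_ne_zero j0), one_mul] at h5
        exact h5
      obtain ⟨q, hq, hmq⟩ := h4
      have h5 := step_c H hL Ω hΩ hy E hsm q hq (hmq ▸ hm j0)
      refine ⟨q 0, hq 0, q 1, hq 1, ?_⟩
      rw [hmq, sum_two hEpos y q h5]
  obtain ⟨a, ha, b, hb, hab⟩ := key 0 (by omega)
  rw [Nat.sub_zero] at hab
  have hb0 : b = 0 := by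
    obtain ⟨E', hE'⟩ : ∃ E', E = E' + 1 := ⟨E - 1, by omega⟩
    have h1 : ∑ j ∈ range E', y ^ (j + 1) * m (j + 1) + y ^ E * a ∈ polyU y Ω (E + 1) := by
      refine Submodule.add_mem _ (Submodule.sum_mem _ fun j hj => ?_)
        (pow_mul_mem_polyU y Ω (by omega) ha)
      have hj' := Finset.mem_range.1 hj
      obtain ⟨a', ha', b', hb', hab'⟩ := key (E - (j + 1)) (by omega)
      have e1 : E - (E - (j + 1)) = j + 1 := by omega
      rw [e1] at hab'
      rw [hab', mul_add]
      refine Submodule.add_mem _ (pow_mul_mem_polyU y Ω (by omega) ha') ?_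
      rw [← mul_assoc, ← pow_succ]
      exact pow_mul_mem_polyU y Ω (by omega) hb'
    obtain ⟨u, hu, hRu⟩ := h1
    have h2 : ∑ j ∈ range (E + 1 + 1), y ^ j * (if j = E + 1 then b else u j) = -m 0 := by
      rw [Finset.sum_range_succ, if_pos rfl]
      have h3 : ∑ j ∈ range (E + 1), y ^ j * (if j = E + 1 then b else u j) =
          ∑ j ∈ range (E + 1), y ^ j * u j := by
        refine Finset.sum_congr rfl fun j hj => ?_
        rw [if_neg (by have := Finset.mem_range.1 hj; omega)]
      rw [h3, ← hRu]
      rw [Finset.sum_range_succ, hab] at h0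
      have h4 : ∑ j ∈ range E, y ^ j * m j = ∑ j ∈ range E', y ^ (j + 1) * m (j + 1) + m 0 := by
        rw [hE', Finset.sum_range_succ', pow_zero, one_mul]
      rw [h4] at h0
      linear_combination h0
    have h3 := step_c H hL Ω hΩ hy (E + 1) hE (fun j => if j = E + 1 then b else u j) (by
      intro j
      split_ifs
      · exact hb
      · exact hu j) (by
      rw [h2]
      exact Submodule.neg_mem _ (hm 0)) (E + 1) (by omega) le_rfl
    rwa [if_pos rfl] at h3
  rw [hab, hb0, mul_zero, add_zero]
  exact ha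

end main

end

end Pool.Agent.R350
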