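import Pool.Agent.R350.GX

/-!
# Free tuples and derivations
-/

set_option autoImplicit false

namespace Pool.Agent.R350

open Module Finset

section

variable {k A : Type*} [Field k] [Field A] [Algebra k A]

/-- `FreeT.cons` with a different hypothesis for the independence of the powers -/
theorem FreeT.cons' {D n : ℕ} {L E : Submodule k A} {s : A} {f : Fin n → A}
    (h1L : (1 : A) ∈ L) (hsL : s ∈ L) (hfL : ∀ i, f i ∈ L) (h1E : (1 : A) ∈ E)
    (hGD : GD D L E s) (hfree : ∀ w : ℕ → A, (∀ i, w i ∈ E) →
      ∑ i ∈ range (D + 1), s ^ i * w i = 0 → ∀ i ≤ D, w i = 0)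
    (h : FreeT D L (polyU s E (D + 1)) f) :
    FreeT D L E (Fin.cons s f : Fin (n + 1) → A) := by
  classical
  have hEL : E ≤ E * L := fun e he => by
    have := Submodule.mul_mem_mul he h1L
    rwa [mul_one] at this
  refine ⟨fun P hD hP h0 => ?_, fun P hD hP h0 => ?_⟩
  · have h1 := h.indep _ (fun i => degreeOf_subst s P hD i) (by
      intro β
      rw [coeff_subst s P (hD 0)]
      exact Submodule.sum_mem _ fun l hl =>
        pow_mul_mem_polyU s E (Finset.mem_range.1 hl) (hP _)) (by rw [eval_subst, h0])
    ext β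
    rw [MvPolynomial.coeff_zero, ← Finsupp.cons_tail β]
    have h2 := coeff_subst s P (hD 0) β.tail
    rw [h1, MvPolynomial.coeff_zero] at h2
    by_cases hβ : β 0 ≤ D
    · exact hfree (fun l => MvPolynomial.coeff (β.tail.cons l) P) (fun l => hP _) h2.symm _ hβ
    · by_contra hne
      have h3 := (MvPolynomial.degreeOf_le_iff.1 (hD 0)) _ (MvPolynomial.mem_support_iff.2 hne)
      rw [Finsupp.cons_zero] at h3
      exact hβ h3
  · obtain ⟨Q, hQ, hPQ⟩ := h.free _ (fun i => degreeOf_subst s P hD i) (by
      intro β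
      rw [coeff_subst s P (hD 0)]
      exact Submodule.sum_mem _ fun l hl =>
        pow_mul_mem_polyU_mul s E L (Finset.mem_range.1 hl) (hP _)) (by rw [eval_subst, h0])
    have hlift := fun i => exists_lift s E (Q i) (hQ i)
    choose q hqE hqD hqs using hlift
    set T : Polynomial (MvPolynomial (Fin n) A) := MvPolynomial.finSuccEquiv A n P -
      ∑ i, Polynomial.C (MvPolynomial.X i - MvPolynomial.C (f i)) * q i with hT
    have hroot : T.eval (MvPolynomial.C s) = 0 := by
      rw [hT, Polynomial.eval_sub, Polynomial.eval_finsetSum]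
      simp only [Polynomial.eval_mul, Polynomial.eval_C, hqs]
      rw [hPQ, sub_self]
    have hTD : T.natDegree ≤ D := by
      refine (Polynomial.natDegree_sub_le _ _).trans (max_le ?_ ?_)
      · rw [MvPolynomial.natDegree_finSuccEquiv]; exact hD 0
      · exact Polynomial.natDegree_sum_le_of_forall_le _ _ fun i _ =>
          (Polynomial.natDegree_C_mul_le _ _).trans (hqD i)
    have hTL : ∀ l β, (T.coeff l).coeff β ∈ E * L := by
      intro l β
      rw [hT, Polynomial.coeff_sub, Polynomial.finsetSum_coeff, MvPolynomial.coeff_sub,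
        MvPolynomial.coeff_sum, MvPolynomial.finSuccEquiv_coeff_coeff]
      refine Submodule.sub_mem _ (hP _) (Submodule.sum_mem _ fun i _ => ?_)
      rw [Polynomial.coeff_C_mul, sub_mul, MvPolynomial.coeff_sub, MvPolynomial.coeff_X_mul',
        MvPolynomial.coeff_C_mul]
      refine Submodule.sub_mem _ ?_ ?_
      · split_ifs
        · exact hEL (hqE _ _ _)
        · exact Submodule.zero_mem _
      · rw [mul_comm (f i)]
        exact Submodule.mul_mem_mul (hqE _ _ _) (hfL i)
    obtain ⟨q0, hq0⟩ := Polynomial.dvd_iff_isRoot.2 (show T.IsRoot (MvPolynomial.C s) from hroot)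
    have hq0D : ∀ l, D ≤ l → q0.coeff l = 0 := by
      intro l hl
      by_cases h0' : q0 = 0
      · rw [h0', Polynomial.coeff_zero]
      · apply Polynomial.coeff_eq_zero_of_natDegree_lt
        have h1 : T.natDegree = 1 + q0.natDegree := by
          rw [hq0, Polynomial.natDegree_mul (Polynomial.X_sub_C_ne_zero _) h0',
            Polynomial.natDegree_X_sub_C]
        omega
    have hq0E : ∀ l β, (q0.coeff l).coeff β ∈ E := by
      intro l β
      obtain ⟨w, h1, h2, h3, h4⟩ := hGD.formal hsL (fun l => (T.coeff l).coeff β)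
        (fun j _ => hTL j β) (by
          have h5 := congrArg (MvPolynomial.coeff β) hroot
          rw [Polynomial.eval_eq_sum_range' (n := D + 1) (by omega), MvPolynomial.coeff_sum,
            MvPolynomial.coeff_zero] at h5
          rw [← h5]
          refine Finset.sum_congr rfl fun l _ => ?_
          rw [← map_pow, mvcoeff_mul_C, mul_comm])
      have h5 : ∀ e l, D ≤ l + e → (q0.coeff l).coeff β = w (l + 1) := by
        intro e
        induction e with
        | zero =>
          intro l hl
          rw [hq0D l hl, MvPolynomial.coeff_zero, h3 (l + 1) (by omega)]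
        | succ e ih =>
          intro l hl
          rcases Nat.lt_or_ge l D with hlD | hlD
          · have h6 := ih (l + 1) (by omega)
            have h7 := h4 (l + 1) (by omega)
            have h8 : T.coeff (l + 1) = q0.coeff l - MvPolynomial.C s * q0.coeff (l + 1) := by
              rw [hq0, Polynomial.coeff_X_sub_C_mul]
            rw [h8, MvPolynomial.coeff_sub, MvPolynomial.coeff_C_mul, h6] at h7
            linear_combination h7
          · rw [hq0D l hlD, MvPolynomial.coeff_zero, h3 (l + 1) (by omega)]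
      rw [h5 D l (by omega)]
      exact h1 _
    have hsymm : ∀ r : Polynomial (MvPolynomial (Fin n) A), (∀ l β, (r.coeff l).coeff β ∈ E) →
        CoefIn E ((MvPolynomial.finSuccEquiv A n).symm r) := by
      intro r hr β
      rw [← Finsupp.cons_tail β, ← MvPolynomial.finSuccEquiv_coeff_coeff,
        AlgEquiv.apply_symm_apply]
      exact hr _ _
    refine ⟨Fin.cons ((MvPolynomial.finSuccEquiv A n).symm q0)
      (fun i => (MvPolynomial.finSuccEquiv A n).symm (q i)), ?_, ?_⟩
    · intro i
      refine Fin.cases ?_ (fun i => ?_) i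
      · rw [Fin.cons_zero]; exact hsymm _ hq0E
      · rw [Fin.cons_succ]; exact hsymm _ (hqE i)
    · apply (MvPolynomial.finSuccEquiv A n).injective
      have hC : ∀ c : A, MvPolynomial.finSuccEquiv A n (MvPolynomial.C c) =
          Polynomial.C (MvPolynomial.C c) := by
        intro c
        simp [MvPolynomial.finSuccEquiv_apply]
      rw [Fin.sum_univ_succ, map_add, map_mul, map_sub, map_sum, MvPolynomial.finSuccEquiv_X_zero,
        Fin.cons_zero, Fin.cons_zero, hC, AlgEquiv.apply_symm_apply, ← hq0, hT]
      have h9 : ∀ i : Fin n, MvPolynomial.finSuccEquiv A n ((MvPolynomial.X i.succ -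
          MvPolynomial.C ((Fin.cons s f : Fin (n + 1) → A) i.succ)) *
          (Fin.cons ((MvPolynomial.finSuccEquiv A n).symm q0)
            (fun i => (MvPolynomial.finSuccEquiv A n).symm (q i)) :
            Fin (n + 1) → MvPolynomial (Fin (n + 1)) A) i.succ) =
          Polynomial.C (MvPolynomial.X i - MvPolynomial.C (f i)) * q i := by
        intro i
        rw [Fin.cons_succ, Fin.cons_succ, map_mul, map_sub, MvPolynomial.finSuccEquiv_X_succ, hC,
          AlgEquiv.apply_symm_apply, Polynomial.C_sub]
      rw [Finset.sum_congr rfl (fun i _ => h9 i), sub_add_cancel]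


theorem polyU_one_mem {s : A} {Ω : Submodule k A} (h1Ω : (1 : A) ∈ Ω) (n : ℕ) :
    (1 : A) ∈ polyU s Ω (n + 1) := by
  have := pow_mul_mem_polyU s Ω (n := n + 1) (l := 0) (by omega) h1Ω
  rwa [pow_zero, one_mul] at this

/-- **Generic tuples are free.** -/
theorem free_of_der [CharZero A] {L : Submodule k A} {v N : ℕ} (hL : HypV v L) (E : ℕ)
    (lam : Fin N → A) :
    ∀ (n m : ℕ) (Ω : Submodule k A), FiniteDimensional k Ω → (1 : A) ∈ Ω → finrank k Ω ≤ m →
      ∀ (D : Fin n → Fin N → Derivation ℤ A A) (y : Fin n → A), (∀ i, y i ∈ L) →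
      (∀ i, DSys L lam (D i)) → (∀ i k, ∀ w ∈ Ω, D i k w ∈ Ω) →
      (∀ i k j, D i k (y j) = if i = j then lam k else 0) →
      (∀ n', n = n' + 1 → (E + 2) * (E + 1) ^ n' * m * ((E + 2) * (E + 1) ^ n' * m + v) < N) →
      FreeT E L Ω y := by
  intro n
  induction n with
  | zero =>
    intro m Ω _ _ _ D y _ _ _ _ _
    exact FreeT.nil E L Ω y
  | succ n ih =>
    intro m Ω hfd h1Ω hm D y hyL HD hΩ hy hN
    have hN' := hN n rfl
    have hpow : 1 ≤ (E + 1) ^ n := Nat.one_le_pow _ _ (by omega)
    have hE : (E + 2) * finrank k Ω * ((E + 2) * finrank k Ω + v) < N := by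
      refine lt_of_le_of_lt ?_ hN'
      have h1 : (E + 2) * finrank k Ω ≤ (E + 2) * (E + 1) ^ n * m := by
        calc (E + 2) * finrank k Ω ≤ (E + 2) * m := Nat.mul_le_mul_left _ hm
          _ = (E + 2) * 1 * m := by ring
          _ ≤ (E + 2) * (E + 1) ^ n * m :=
            Nat.mul_le_mul_right _ (Nat.mul_le_mul_left _ hpow)
      exact Nat.mul_le_mul h1 (Nat.add_le_add_right h1 v)
    have hE' : (E + 1) * finrank k Ω * ((E + 1) * finrank k Ω + v) < N :=
      lt_of_le_of_lt (by gcongr <;> omega) hE
    have hy0 : ∀ k, D 0 k (y 0) = lam k := fun k => by rw [hy, if_pos rfl]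
    have hGD := gd_of_der (HD 0) hL Ω (hΩ 0) hy0 h1Ω E hE
    have hfree := mon_li (HD 0) hL Ω (hΩ 0) hy0 E hE'
    obtain ⟨hfd', hb⟩ := polyU_bound (y 0) Ω (E + 1)
    have h2 := ih ((E + 1) * m) (polyU (y 0) Ω (E + 1)) hfd' (polyU_one_mem h1Ω E)
      (hb.trans (Nat.mul_le_mul_left _ hm)) (fun i => D i.succ) (fun i => y i.succ)
      (fun i => hyL _) (fun i => HD _) (by
        rintro i k _ ⟨u, hu, rfl⟩
        rw [map_sum]
        refine Submodule.sum_mem _ fun j hj => ?_
        rw [(D i.succ k).leibniz, smul_eq_mul, smul_eq_mul, der_pow, hy,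
          if_neg (Fin.succ_ne_zero i), mul_zero, mul_zero, add_zero]
        exact pow_mul_mem_polyU _ _ (Finset.mem_range.1 hj) (hΩ _ _ _ (hu j)))
      (by
        intro i k j
        rw [hy]
        by_cases hij : i = j
        · rw [if_pos hij, if_pos (by rw [hij])]
        · rw [if_neg hij, if_neg (fun h => hij (Fin.succ_injective _ h))])
      (by
        rintro n' rfl
        have h3 : (E + 2) * (E + 1) ^ n' * ((E + 1) * m) = (E + 2) * (E + 1) ^ (n' + 1) * m := by
          rw [pow_succ]; ring
        rw [h3]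
        exact hN')
    have h3 := FreeT.cons' (HD 0).h1L (hyL 0) (fun i => hyL i.succ) h1Ω hGD hfree h2
    have h4 : (Fin.cons (y 0) (fun i => y i.succ) : Fin (n + 1) → A) = y := by
      funext i
      refine Fin.cases ?_ (fun i => ?_) i
      · rw [Fin.cons_zero]
      · rw [Fin.cons_succ]
    rwa [h4] at h3

end

end Pool.Agent.R350
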