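import Pool.Agent.R350.GY
import Pool.Agent.TH519.GL.U1
import Mathlib.Order.Filter.FilterProduct

/-!
# Ultrapowers
-/

set_option autoImplicit false

namespace Pool.Agent.R350

open Module Filter

section basic

variable {ι : Type} (𝒰 : Ultrafilter ι)

/-- the ultrapower -/
def UP (R : Type) : Type := Germ (𝒰 : Filter ι) R

noncomputable instance instFieldUP (R : Type) [Field R] : Field (UP 𝒰 R) :=
  inferInstanceAs (Field (Germ (𝒰 : Filter ι) R))

/-- sequences to the ultrapower -/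
noncomputable def gr (R : Type) [Field R] : (ι → R) →+* UP 𝒰 R where
  toFun f := (f : Germ (𝒰 : Filter ι) R)
  map_one' := rfl
  map_zero' := rfl
  map_mul' _ _ := rfl
  map_add' _ _ := rfl

variable {R S : Type} [Field R] [Field S]

theorem gr_eq (f g : ι → R) : gr 𝒰 R f = gr 𝒰 R g ↔ ∀ᶠ t in (𝒰 : Filter ι), f t = g t :=
  Germ.coe_eq

theorem gr_eq_zero (f : ι → R) : gr 𝒰 R f = 0 ↔ ∀ᶠ t in (𝒰 : Filter ι), f t = 0 := by
  rw [← map_zero (gr 𝒰 R), gr_eq]
  rfl

theorem gr_surj (z : UP 𝒰 R) : ∃ f : ι → R, gr 𝒰 R f = z := by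
  refine Germ.inductionOn (l := (𝒰 : Filter ι)) z ?_
  intro f
  exact ⟨f, rfl⟩

/-- ring homomorphisms act on ultrapowers -/
noncomputable def upMap (f : R →+* S) : UP 𝒰 R →+* UP 𝒰 S where
  toFun := fun z => (Germ.map f z : Germ (𝒰 : Filter ι) S)
  map_one' := by
    change gr 𝒰 S (fun _ => f 1) = 1
    rw [map_one f]
    rfl
  map_zero' := by
    change gr 𝒰 S (fun _ => f 0) = 0
    rw [map_zero f]
    rfl
  map_mul' x y := by
    obtain ⟨x, rfl⟩ := gr_surj 𝒰 x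
    obtain ⟨y, rfl⟩ := gr_surj 𝒰 y
    change gr 𝒰 S (fun t => f (x t * y t)) = gr 𝒰 S (fun t => f (x t)) * gr 𝒰 S (fun t => f (y t))
    rw [← map_mul]
    congr 1
    funext t
    exact map_mul f _ _
  map_add' x y := by
    obtain ⟨x, rfl⟩ := gr_surj 𝒰 x
    obtain ⟨y, rfl⟩ := gr_surj 𝒰 y
    change gr 𝒰 S (fun t => f (x t + y t)) = gr 𝒰 S (fun t => f (x t)) + gr 𝒰 S (fun t => f (y t))
    rw [← map_add]
    congr 1
    funext t
    exact map_add f _ _

theorem upMap_gr (f : R →+* S) (a : ι → R) :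
    upMap 𝒰 f (gr 𝒰 R a) = gr 𝒰 S (fun t => f (a t)) := rfl

/-- constants -/
noncomputable def cst (R : Type) [Field R] : R →+* UP 𝒰 R :=
  (gr 𝒰 R).comp (Pi.constRingHom ι R)

theorem cst_apply (z : R) : cst 𝒰 R z = gr 𝒰 R (fun _ => z) := rfl

noncomputable instance instAlgebraUP [Algebra R S] : Algebra (UP 𝒰 R) (UP 𝒰 S) :=
  (upMap 𝒰 (algebraMap R S)).toAlgebra

theorem algebraMap_gr [Algebra R S] (a : ι → R) :
    algebraMap (UP 𝒰 R) (UP 𝒰 S) (gr 𝒰 R a) = gr 𝒰 S (fun t => algebraMap R S (a t)) := rfl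

theorem gr_smul [Algebra R S] (a : ι → R) (z : ι → S) :
    gr 𝒰 R a • gr 𝒰 S z = gr 𝒰 S (fun t => a t • z t) := by
  rw [Algebra.smul_def, algebraMap_gr, ← map_mul]
  congr 1
  funext t
  rw [Pi.mul_apply, Algebra.smul_def]

theorem charZero_UP [CharZero R] : CharZero (UP 𝒰 R) :=
  charZero_of_injective_ringHom (cst 𝒰 R).injective

/-- the extension of a space to the ultrapower -/
noncomputable def LU [Algebra R S] (L : Submodule R S) : Submodule (UP 𝒰 R) (UP 𝒰 S) :=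
  Submodule.span (UP 𝒰 R) (cst 𝒰 S '' (L : Set S))

variable {κ C : Type} [Field κ] [Field C] [Algebra κ C]

theorem cst_mem {L : Submodule κ C} {z : C} (hz : z ∈ L) : cst 𝒰 C z ∈ LU 𝒰 L :=
  Submodule.subset_span ⟨z, hz, rfl⟩

theorem LU_rep {L : Submodule κ C} {z : UP 𝒰 C} (hz : z ∈ LU 𝒰 L) :
    ∃ f : ι → C, (∀ t, f t ∈ L) ∧ gr 𝒰 C f = z := by
  refine Submodule.span_induction (p := fun z _ => ∃ f : ι → C, (∀ t, f t ∈ L) ∧
    gr 𝒰 C f = z) ?_ ?_ ?_ ?_ hz
  · rintro _ ⟨z, hz, rfl⟩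
    exact ⟨fun _ => z, fun _ => hz, rfl⟩
  · exact ⟨fun _ => 0, fun _ => L.zero_mem, rfl⟩
  · rintro _ _ _ _ ⟨f, h1, rfl⟩ ⟨g, h2, rfl⟩
    exact ⟨f + g, fun t => L.add_mem (h1 t) (h2 t), map_add _ _ _⟩
  · rintro c _ _ ⟨f, h1, rfl⟩
    obtain ⟨a, rfl⟩ := gr_surj 𝒰 c
    exact ⟨fun t => a t • f t, fun t => L.smul_mem _ (h1 t), (gr_smul 𝒰 a f).symm⟩

theorem LU_of_fin {L : Submodule κ C} [FiniteDimensional κ L] (f : ι → C) (hf : ∀ t, f t ∈ L) :
    gr 𝒰 C f ∈ LU 𝒰 L := by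
  classical
  let B := Module.finBasis κ L
  have h1 : f = fun t => ∑ j, B.repr ⟨f t, hf t⟩ j • ((B j : L) : C) := by
    funext t
    have h2 := congrArg (fun z : L => (z : C)) (B.sum_repr ⟨f t, hf t⟩)
    simp only [Submodule.coe_sum, Submodule.coe_smul] at h2
    exact h2.symm
  have h2 : gr 𝒰 C f = ∑ j, gr 𝒰 κ (fun t => B.repr ⟨f t, hf t⟩ j) • cst 𝒰 C ((B j : L) : C) := by
    simp only [cst_apply, gr_smul]
    rw [← map_sum]
    congr 1
    funext t
    rw [Finset.sum_apply]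
    exact congrFun h1 t
  rw [h2]
  exact Submodule.sum_mem _ fun j _ => Submodule.smul_mem _ _ (cst_mem 𝒰 (B j).2)

theorem LU_finrank {L : Submodule κ C} [FiniteDimensional κ L] :
    FiniteDimensional (UP 𝒰 κ) (LU 𝒰 L) ∧ finrank (UP 𝒰 κ) (LU 𝒰 L) ≤ finrank κ L := by
  classical
  let B := Module.finBasis κ L
  have h1 : LU 𝒰 L = Submodule.span (UP 𝒰 κ) (Set.range fun j => cst 𝒰 C ((B j : L) : C)) := by
    apply le_antisymm
    · refine Submodule.span_le.2 ?_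
      rintro _ ⟨z, hz, rfl⟩
      have h2 := congrArg (fun z : L => (z : C)) (B.sum_repr ⟨z, hz⟩)
      simp only [Submodule.coe_sum, Submodule.coe_smul] at h2
      have h3 : cst 𝒰 C z = ∑ j, gr 𝒰 κ (fun _ => B.repr ⟨z, hz⟩ j) • cst 𝒰 C ((B j : L) : C) := by
        simp only [cst_apply, gr_smul]
        rw [← map_sum]
        congr 1
        funext t
        rw [Finset.sum_apply, h2]
      rw [SetLike.mem_coe, h3]
      exact Submodule.sum_mem _ fun j _ => Submodule.smul_mem _ _ (Submodule.subset_span ⟨j, rfl⟩)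
    · refine Submodule.span_le.2 ?_
      rintro _ ⟨j, rfl⟩
      exact cst_mem 𝒰 (B j).2
  rw [h1]
  refine ⟨FiniteDimensional.span_of_finite _ (Set.finite_range _), ?_⟩
  have h2 := finrank_range_le_card (R := UP 𝒰 κ) (fun j => cst 𝒰 C ((B j : L) : C))
  rwa [Fintype.card_fin] at h2

theorem LU_mono {L L' : Submodule κ C} (h : L ≤ L') : LU 𝒰 L ≤ LU 𝒰 L' :=
  Submodule.span_mono (Set.image_mono h)

theorem LU_mul {L L' : Submodule κ C} : LU 𝒰 (L * L') ≤ LU 𝒰 L * LU 𝒰 L' := by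
  refine Submodule.span_le.2 ?_
  rintro _ ⟨z, hz, rfl⟩
  rw [SetLike.mem_coe]
  refine Submodule.mul_induction_on hz ?_ ?_
  · intro w hw l hl
    rw [map_mul]
    exact Submodule.mul_mem_mul (cst_mem 𝒰 hw) (cst_mem 𝒰 hl)
  · intro x y hx hy
    rw [map_add]
    exact Submodule.add_mem _ hx hy

/-- linear independence over the ultrapower -/
theorem li_ev {l : ℕ} {τ : Type} [Finite τ] (a : Fin l → τ → ι → C)
    (h : LinearIndependent (UP 𝒰 κ) (fun j i => gr 𝒰 C (a j i))) :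
    ∀ᶠ t in (𝒰 : Filter ι), LinearIndependent κ (fun j i => a j i t) := by
  classical
  by_contra hcon
  rw [← Ultrafilter.eventually_not] at hcon
  have h1 : ∀ t, ∃ g : Fin l → κ, ¬ LinearIndependent κ (fun j i => a j i t) →
      (∑ j, g j • (fun i => a j i t)) = 0 ∧ ∃ j, g j ≠ 0 := by
    intro t
    by_cases ht : LinearIndependent κ (fun j i => a j i t)
    · exact ⟨0, fun h => absurd ht h⟩
    · obtain ⟨g, h1, h2⟩ := Fintype.not_linearIndependent_iff.1 ht
      exact ⟨g, fun _ => ⟨h1, h2⟩⟩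
  choose g hg using h1
  have h2 : ∀ j, gr 𝒰 κ (fun t => g t j) = 0 := by
    refine Fintype.linearIndependent_iff.1 h (fun j => gr 𝒰 κ (fun t => g t j)) ?_
    funext i
    rw [Finset.sum_apply, Pi.zero_apply]
    simp only [Pi.smul_apply, gr_smul]
    rw [← map_sum, gr_eq_zero]
    refine hcon.mono fun t ht => ?_
    have h3 := congrFun (hg t ht).1 i
    rw [Finset.sum_apply] at h3 ⊢
    exact h3
  have h3 : ∀ᶠ t in (𝒰 : Filter ι), ∀ j, g t j = 0 := by
    rw [Filter.eventually_all]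
    exact fun j => (gr_eq_zero 𝒰 _).1 (h2 j)
  obtain ⟨t, ht1, ht2⟩ := (hcon.and h3).exists
  obtain ⟨j, hj⟩ := (hg t ht1).2
  exact hj (ht2 j)

/-- the hyperplane property of the ultrapower -/
theorem hypV_U {v : ℕ} {L : Submodule κ C} (hL : HypV v L) : HypV v (LU 𝒰 L) := by
  classical
  intro d l x a hx ha hxa hcol
  choose xf hxf using fun i => gr_surj 𝒰 (x i)
  choose af haf haf' using fun i j => LU_rep 𝒰 (ha i j)
  have h1 : ∀ᶠ t in (𝒰 : Filter ι), LinearIndependent κ (fun (i : Fin d) (_ : Fin 1) => xf i t) := by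
    refine li_ev 𝒰 (fun i _ => xf i) ?_
    rw [Fintype.linearIndependent_iff]
    intro g hg
    refine Fintype.linearIndependent_iff.1 hx g ?_
    have h2 := congrFun hg 0
    rw [Finset.sum_apply] at h2
    simp only [Pi.smul_apply, hxf] at h2
    exact h2
  have h2 : ∀ᶠ t in (𝒰 : Filter ι), LinearIndependent κ (fun (j : Fin l) (i : Fin d) => af i j t) := by
    refine li_ev 𝒰 (fun j i => af i j) ?_
    simp only [haf']
    exact hcol
  have h3 : ∀ᶠ t in (𝒰 : Filter ι), ∀ j, ∑ i, xf i t * af i j t = 0 := by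
    rw [Filter.eventually_all]
    intro j
    have h4 : gr 𝒰 C (∑ i, xf i * af i j) = 0 := by
      rw [map_sum, ← hxa j]
      refine Finset.sum_congr rfl fun i _ => ?_
      rw [map_mul, hxf, haf']
    rw [gr_eq_zero] at h4
    refine h4.mono fun t ht => ?_
    rw [Finset.sum_apply] at ht
    exact ht
  obtain ⟨t, ⟨ht1, ht2⟩, ht3⟩ := ((h1.and h2).and h3).exists
  refine hL d l (fun i => xf i t) (fun i j => af i j t) ?_ (fun i j => haf i j t) ht3 ht2
  rw [Fintype.linearIndependent_iff]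
  intro g hg
  refine Fintype.linearIndependent_iff.1 ht1 g ?_
  funext i
  rw [Finset.sum_apply]
  exact hg

/-- partial derivatives on the ultrapower -/
theorem exists_der_U [CharZero κ] [CharZero C] {M : ℕ} (G : Fin M → ι → κ)
    (hgen : ∀ P : MvPolynomial (Fin M) κ, P ≠ 0 →
      ∀ᶠ t in (𝒰 : Filter ι), MvPolynomial.eval (fun m => G m t) P ≠ 0) (k : Fin M) :
    ∃ D : Derivation ℤ (UP 𝒰 C) (UP 𝒰 C),
      (∀ c : UP 𝒰 κ, ∃ c' : UP 𝒰 κ, D (algebraMap _ _ c) = algebraMap _ _ c') ∧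
      (∀ z : C, D (cst 𝒰 C z) = 0) ∧
      ∀ m, D (algebraMap (UP 𝒰 κ) (UP 𝒰 C) (gr 𝒰 κ (G m))) = if m = k then 1 else 0 := by
  classical
  have hch1 : CharZero (UP 𝒰 κ) := charZero_UP 𝒰
  have hch2 : CharZero (UP 𝒰 C) := charZero_UP 𝒰
  have hinj : Function.Injective (MvPolynomial.eval₂Hom (cst 𝒰 κ) fun m => gr 𝒰 κ (G m)) := by
    rw [injective_iff_map_eq_zero]
    intro Δ hΔ
    by_contra h0
    have h1 : MvPolynomial.eval₂Hom (cst 𝒰 κ) (fun m => gr 𝒰 κ (G m)) =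
        (gr 𝒰 κ).comp (RingHom.pi fun t : ι => MvPolynomial.eval fun m => G m t) := by
      apply MvPolynomial.ringHom_ext
      · intro r
        rw [MvPolynomial.coe_eval₂Hom, MvPolynomial.eval₂_C]
        change gr 𝒰 κ (fun _ => r) =
          gr 𝒰 κ (fun t => MvPolynomial.eval (fun m => G m t) (MvPolynomial.C r))
        simp only [MvPolynomial.eval_C]
      · intro m
        rw [MvPolynomial.coe_eval₂Hom, MvPolynomial.eval₂_X]
        change gr 𝒰 κ (G m) =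
          gr 𝒰 κ (fun t => MvPolynomial.eval (fun m => G m t) (MvPolynomial.X m))
        simp only [MvPolynomial.eval_X]
    rw [h1, RingHom.comp_apply, gr_eq_zero] at hΔ
    obtain ⟨b, hb1, hb2⟩ := (hΔ.and (hgen Δ h0)).exists
    exact hb2 hb1
  obtain ⟨d, hd1, hd2⟩ := Pool.Agent.TH519.GL.exists_partial (cst 𝒰 κ) (fun m => gr 𝒰 κ (G m)) hinj k
  obtain ⟨D, hD1, hD2⟩ := Pool.Agent.TH519.GL.exists_ext_der (K := κ) (C := C) (cst 𝒰 κ)
    (algebraMap (UP 𝒰 κ) (UP 𝒰 C)) (cst 𝒰 C) (fun a => rfl) (by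
      intro J s z c hz hsum m hm
      choose c' hc' using fun m => gr_surj 𝒰 (c m)
      have h1 : ∑ m ∈ s, algebraMap (UP 𝒰 κ) (UP 𝒰 C) (c m) * cst 𝒰 C (z m) =
          gr 𝒰 C (∑ m ∈ s, (fun t => c' m t • z m)) := by
        rw [map_sum]
        refine Finset.sum_congr rfl fun m _ => ?_
        rw [← Algebra.smul_def, ← hc' m, cst_apply, gr_smul]
      rw [h1, gr_eq_zero] at hsum
      rw [← hc' m, gr_eq_zero]
      refine hsum.mono fun b hb => ?_
      rw [Finset.sum_apply] at hb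
      exact linearIndependent_iff'.1 hz s (fun m => c' m b) hb m hm) d hd1
  refine ⟨D, fun c => ⟨d c, hD1 c⟩, fun z => hD2 z, fun m => ?_⟩
  rw [hD1, hd2, apply_ite (algebraMap (UP 𝒰 κ) (UP 𝒰 C)), map_one, map_zero]

end basic

end Pool.Agent.R350
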