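import Pool.Agent.R350.Core

/-!
# The grid theorem
-/

set_option autoImplicit false

namespace Pool.Agent.R350

open Module Finset

section

variable {k A : Type*} [Field k] [Field A] [Algebra k A]

/-- `z` is exceptional for `L`, `Ω0`, `Ω1`: some `m ∈ Ω1 L`, outside `Ω0`, has `z m ∈ Ω0 L` -/
def Exc (L Ω0 Ω1 : Submodule k A) (z : A) : Prop :=
  ∃ m ∈ Ω1 * L, m ∉ Ω0 ∧ z * m ∈ Ω0 * L

theorem sum_embed {α β M : Type*} [Fintype α] [Fintype β] [AddCommMonoid M] [Module k M]
    (f : α → β) (hf : Function.Injective f) (c : α → k) (w : β → M) :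
    ∃ c' : β → k, (∀ a, c' (f a) = c a) ∧ (∀ b, b ∉ Set.range f → c' b = 0) ∧
      ∑ b, c' b • w b = ∑ a, c a • w (f a) := by
  classical
  refine ⟨Function.extend f c 0, fun a => hf.extend_apply _ _ _, fun b hb => ?_, ?_⟩
  · rw [Function.extend_apply' _ _ _ (by simpa using hb)]
    rfl
  · symm
    refine Finset.sum_of_injOn f hf.injOn (fun _ _ => Finset.mem_coe.2 (Finset.mem_univ _)) ?_ ?_
    · intro b _ hb
      rw [Function.extend_apply' _ _ _ (by
        rintro ⟨a, rfl⟩
        exact hb ⟨a, Finset.mem_coe.2 (Finset.mem_univ _), rfl⟩), Pi.zero_apply, zero_smul]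
    · intro a _
      rw [hf.extend_apply]

/-- most members of a family of `L` are free over `Ω1` modulo `Ω0` -/
theorem free {v m1 : ℕ} {L : Submodule k A} (hL : HypV v L) (h1L : (1 : A) ∈ L)
    (Ω0 : Submodule k A) [FiniteDimensional k Ω0] (ω : Fin m1 → A) (hω : LinearIndependent k ω)
    {ε : Type*} [Fintype ε] [DecidableEq ε] (E : ε → A) (hEL : ∀ e, E e ∈ L)
    (h1E : ∀ (c0 : k) (c : ε → k), c0 • (1 : A) + ∑ e, c e • E e = 0 → ∀ e, c e = 0) :
    ∃ T : Finset ε, Fintype.card ε ≤ T.card + (finrank k Ω0 + m1) * (finrank k Ω0 + m1 + v) ∧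
      ∀ c : Fin m1 × ε → k, (∀ q, q.2 ∉ T → c q = 0) →
        ∑ q, c q • (ω q.1 * E q.2) ∈ Ω0 → ∀ q, c q = 0 := by
  classical
  let P : Finset ε → Prop := fun T => ∀ c : Fin m1 × ε → k, (∀ q, q.2 ∉ T → c q = 0) →
        ∑ q, c q • (ω q.1 * E q.2) ∈ Ω0 → ∀ q, c q = 0
  have hP : P ∅ := fun c hc _ q => hc q (Finset.notMem_empty _)
  obtain ⟨T, hT, hmax⟩ := (Finset.univ.filter P).exists_maximal
    ⟨∅, Finset.mem_filter.2 ⟨Finset.mem_univ _, hP⟩⟩
  rw [Finset.mem_filter] at hT
  refine ⟨T, ?_, hT.2⟩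
  have hrel : ∀ e : {e // e ∉ T}, ∃ c : Fin m1 × ε → k, (∀ q, q.2 ∉ insert e.1 T → c q = 0) ∧
      ∑ q, c q • (ω q.1 * E q.2) ∈ Ω0 ∧ ∃ a, c (a, e.1) ≠ 0 := by
    intro e
    have h1 : ¬ P (insert e.1 T) := by
      intro h
      have h2 := hmax (Finset.mem_filter.2 ⟨Finset.mem_univ _, h⟩) (Finset.subset_insert e.1 T)
      exact e.2 (h2 (Finset.mem_insert_self e.1 T))
    simp only [P] at h1
    push Not at h1
    obtain ⟨c, hc1, hc2, q, hq⟩ := h1
    refine ⟨c, hc1, hc2, ?_⟩
    by_contra hno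
    push Not at hno
    apply hq
    refine hT.2 c (fun q hq => ?_) hc2 q
    by_cases he : q.2 = e.1
    · have := hno q.1
      rwa [← he] at this
    · exact hc1 q (by simp [he, hq])
  choose c hc1 hc2 a0 hc3 using hrel
  let Ω : Submodule k A := Ω0 ⊔ Submodule.span k (Set.range ω)
  have hgenf : FiniteDimensional k (Submodule.span k (Set.range ω)) :=
    FiniteDimensional.span_of_finite k (Set.finite_range ω)
  have hΩf : FiniteDimensional k Ω :=
    inferInstanceAs (FiniteDimensional k (Ω0 ⊔ Submodule.span k (Set.range ω) : Submodule k A))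
  have hΩfin : finrank k Ω ≤ finrank k Ω0 + m1 := by
    refine (Submodule.finrank_add_le_finrank_add_finrank _ _).trans ?_
    have h8 := finrank_range_le_card (R := k) ω
    rw [Set.finrank, Fintype.card_fin] at h8
    exact Nat.add_le_add_left h8 _
  have hfin := hL.dual (κ := {e // e ∉ T}) (τ := Fin m1 ⊕ Unit) Ω
    (fun e => Sum.elim ω (fun _ => ∑ q, c e q • (ω q.1 * E q.2)))
    (fun e => Sum.elim (fun a => ∑ e', c e (a, e') • E e') (fun _ => -1)) ?_ ?_ ?_ ?_
  · have h1 : Fintype.card {e // e ∉ T} + T.card = Fintype.card ε := by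
      rw [Fintype.card_subtype_compl (fun e => e ∈ T), Fintype.card_coe]
      have := Finset.card_le_univ T
      omega
    have h2 := hfin.trans (Nat.mul_le_mul hΩfin (Nat.add_le_add_right hΩfin v))
    omega
  · rintro e (a | u)
    · exact Submodule.mem_sup_right (Submodule.subset_span ⟨a, rfl⟩)
    · exact Submodule.mem_sup_left (hc2 e)
  · rintro e (a | u)
    · exact Submodule.sum_mem _ fun e' _ => L.smul_mem _ (hEL e')
    · exact L.neg_mem h1L
  · intro e
    rw [Fintype.sum_sum_type]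
    simp only [Sum.elim_inl, Sum.elim_inr, Finset.univ_unique, Finset.sum_singleton, mul_neg,
      mul_one]
    rw [← sub_eq_add_neg, sub_eq_zero, Fintype.sum_prod_type]
    refine Finset.sum_congr rfl fun a _ => ?_
    rw [Finset.mul_sum]
    refine Finset.sum_congr rfl fun e' _ => ?_
    rw [mul_smul_comm]
  · intro η hη e0
    obtain ⟨φ, -, hφ⟩ := exists_dual (⊥ : Submodule k A) ω (by
      intro z hz
      rw [Submodule.mem_bot] at hz
      exact Fintype.linearIndependent_iff.1 hω z hz) (fun a => if a = a0 e0 then 1 else 0)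
    have h1 := hη φ
    let C : ε → k := fun e' => ∑ e, η e * c e (a0 e0, e')
    have h2 := h1E (-∑ e, η e * φ (∑ q, c e q • (ω q.1 * E q.2))) C (by
      rw [← h1]
      have h3 : ∑ e', C e' • E e' = ∑ e, η e • ∑ e', c e (a0 e0, e') • E e' := by
        simp only [C, Finset.smul_sum, Finset.sum_smul, smul_smul]
        rw [Finset.sum_comm]
      rw [h3, neg_smul, Finset.sum_smul, ← Finset.sum_neg_distrib, ← Finset.sum_add_distrib]
      refine Finset.sum_congr rfl fun e _ => ?_
      rw [Fintype.sum_sum_type]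
      simp only [Sum.elim_inl, Sum.elim_inr, Finset.univ_unique, Finset.sum_singleton]
      rw [Finset.sum_eq_single (a0 e0)]
      · rw [hφ, if_pos rfl, one_smul, smul_add, smul_neg, smul_neg, smul_smul, add_comm]
      · intro a _ ha
        rw [hφ, if_neg ha, zero_smul]
      · intro h; exact absurd (Finset.mem_univ _) h) e0
    have h3 : C e0 = η e0 * c e0 (a0 e0, e0) := by
      simp only [C]
      rw [Finset.sum_eq_single e0]
      · intro e _ he
        rw [hc1 e (a0 e0, e0.1) (by
          simp only [Finset.mem_insert, not_or]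
          exact ⟨fun h => he (Subtype.ext h.symm), e0.2⟩), mul_zero]
      · intro h; exact absurd (Finset.mem_univ _) h
    rw [h3] at h2
    exact (mul_eq_zero.1 h2).resolve_right (hc3 e0)

/-- the size of the first block -/
def gridI (m : ℕ) : ℕ := 2 * (2 * m + 1) ^ 2 + m

/-- the size of the second block -/
def gridK (m v : ℕ) : ℕ :=
  4 * ((m + 3 * (m * gridI m)) * (m + 3 * (m * gridI m) + v)) + 1 + (m + m * gridI m + v)

/-- the size of the third block -/
def gridM (m v : ℕ) : ℕ :=
  sB (sunPhi m v (gridK m v)) (1 + m * (gridI m * gridK m v)) (gridI m + gridK m v)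

/-- the number of deleted indices -/
def gridE (m v : ℕ) : ℕ := (m + m) * (m + m + v)

/-- the number of elements which suffices -/
def gridR (m v : ℕ) : ℕ :=
  (gridI m + gridE m v) + ((gridK m v + gridE m v) + (gridM m v + gridE m v)) + 2

theorem exists_embed_block {ε α : Type*} [Fintype ε] [Fintype α] [DecidableEq ε]
    (f : α → ε) (hf : Function.Injective f) (T : Finset ε) (N E : ℕ)
    (hα : N + E ≤ Fintype.card α) (hT : Fintype.card ε ≤ T.card + E) :
    ∃ g : Fin N → α, Function.Injective g ∧ ∀ i, f (g i) ∈ T := by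
  classical
  have h1 : N ≤ Fintype.card {a // f a ∈ T} := by
    have h2 : Fintype.card {a // ¬ f a ∈ T} ≤ Fintype.card {e // ¬ e ∈ T} := by
      refine Fintype.card_le_of_injective (fun a => ⟨f a.1, a.2⟩) ?_
      intro a b h
      exact Subtype.ext (hf (congrArg Subtype.val h))
    have h3 := Fintype.card_subtype_compl (fun a => f a ∈ T)
    have h4 := Fintype.card_subtype_compl (fun e => e ∈ T)
    rw [Fintype.card_coe] at h4
    have h5 := Fintype.card_subtype_le (fun a => f a ∈ T)
    omega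
  obtain ⟨g⟩ := Function.Embedding.nonempty_of_card_le
    (α := Fin N) (β := {a // f a ∈ T}) (by rwa [Fintype.card_fin])
  exact ⟨fun i => (g i).1, fun a b h => g.injective (Subtype.ext h), fun i => (g i).2⟩

theorem sum_blocks {α β : Type*} [Fintype α] [Fintype β] (c : α ⊕ β → k) (W : α ⊕ β → A)
    (z : A) : ∑ e, c e • (Sum.elim (fun i => z + W (Sum.inl i)) (fun q => W (Sum.inr q)) e) =
      ∑ e, c e • W e + (∑ i, c (Sum.inl i)) • z := by
  simp only [Fintype.sum_sum_type, Sum.elim_inl, Sum.elim_inr, smul_add,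
    Finset.sum_add_distrib, Finset.sum_smul]
  ring

/-- **The grid theorem.** -/
theorem grid {v m : ℕ} {L : Submodule k A} (hL : HypV v L) (h1L : (1 : A) ∈ L) (h2 : (2 : k) ≠ 0)
    (Ω0 Ω1 : Submodule k A) [FiniteDimensional k Ω0] [FiniteDimensional k Ω1]
    (h0m : finrank k Ω0 ≤ m) (h1m : finrank k Ω1 ≤ m) {z : A} (hz : z ∈ L)
    (w : Fin (gridR m v) → A) (hwL : ∀ i, w i ∈ L) (hw : LinearIndependent k w) :
    ∃ S : Finset (Fin (gridR m v)), S.card = 3 ∧ ¬ Exc L Ω0 Ω1 (z + ∑ i ∈ S, w i) := by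
  classical
  by_contra hno
  push Not at hno
  obtain ⟨ω, hωli, hωspan, hωmul⟩ := mem_mul_basis Ω1 L
  have hVf : FiniteDimensional k (Submodule.span k ({1, z} : Set A)) :=
    FiniteDimensional.span_of_finite k (Set.toFinite _)
  obtain ⟨T, hT, hTi⟩ := deletion w hw (Submodule.span k ({1, z} : Set A))
  have hV2 : finrank k (Submodule.span k ({1, z} : Set A)) ≤ 2 := by
    have := finrank_span_finset_le_card (R := k) ({1, z} : Finset A)
    rw [Finset.coe_insert, Finset.coe_singleton] at this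
    exact this.trans Finset.card_le_two
  rw [Fintype.card_fin] at hT
  let ε := Fin (gridI m + gridE m v) ⊕ (Fin (gridK m v + gridE m v) ⊕ Fin (gridM m v + gridE m v))
  have hεc : Fintype.card ε = (gridI m + gridE m v) +
      ((gridK m v + gridE m v) + (gridM m v + gridE m v)) := by
    simp only [ε, Fintype.card_sum, Fintype.card_fin]
  obtain ⟨f⟩ := Function.Embedding.nonempty_of_card_le (α := ε) (β := T) (by
    rw [hεc, Fintype.card_coe]
    have hR : gridR m v = (gridI m + gridE m v) +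
      ((gridK m v + gridE m v) + (gridM m v + gridE m v)) + 2 := rfl
    omega)
  have hfT : ∀ e, (f e).1 ∈ T := fun e => (f e).2
  have hfi : Function.Injective (fun e => (f e).1) := fun a b h => f.injective (Subtype.ext h)
  let E : ε → A := Sum.elim (fun i => z + w (f (Sum.inl i))) (fun q => w (f (Sum.inr q)))
  have hEL : ∀ e, E e ∈ L := by
    rintro (i | q)
    · exact L.add_mem hz (hwL _)
    · exact hwL _
  have h1E : ∀ (c0 : k) (c : ε → k), c0 • (1 : A) + ∑ e, c e • E e = 0 → ∀ e, c e = 0 := by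
    intro c0 c hc
    obtain ⟨c', h3, h4, h5⟩ := sum_embed (fun e => (f e).1) hfi c w
    have h6 : ∑ e, c e • w (f e) ∈ Submodule.span k ({1, z} : Set A) := by
      have h7 : ∑ e, c e • w (f e) = -(c0 • (1 : A) + (∑ i, c (Sum.inl i)) • z) := by
        have e1 : ∑ e, c e • E e = ∑ e, c e • w (f e) + (∑ i, c (Sum.inl i)) • z :=
          sum_blocks c (fun e => w (f e)) z
        rw [e1] at hc
        rw [eq_neg_iff_add_eq_zero, ← hc]
        ring
      rw [h7]
      exact Submodule.neg_mem _ (Submodule.add_mem _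
        (Submodule.smul_mem _ _ (Submodule.subset_span (by simp)))
        (Submodule.smul_mem _ _ (Submodule.subset_span (by simp))))
    have h7 := hTi c' (fun i hi => h4 i (by
      rintro ⟨e, rfl⟩
      exact hi (hfT e))) (by rw [h5]; exact h6)
    intro e
    rw [← h3 e]
    exact h7 _
  obtain ⟨T2, hT2, hfree⟩ := free hL h1L Ω0 ω hωli E hEL h1E
  have hT2' : Fintype.card ε ≤ T2.card + gridE m v := by
    refine hT2.trans (Nat.add_le_add_left ?_ _)
    unfold gridE
    gcongr
  obtain ⟨gI, hgI, hgIT⟩ := exists_embed_block (fun i => (Sum.inl i : ε))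
    (fun a b h => Sum.inl_injective h) T2 (gridI m) (gridE m v)
    (by rw [Fintype.card_fin]) hT2'
  obtain ⟨gK, hgK, hgKT⟩ := exists_embed_block (fun i => (Sum.inr (Sum.inl i) : ε))
    (fun a b h => Sum.inl_injective (Sum.inr_injective h)) T2 (gridK m v) (gridE m v)
    (by rw [Fintype.card_fin]) hT2'
  obtain ⟨gM, hgM, hgMT⟩ := exists_embed_block (fun i => (Sum.inr (Sum.inr i) : ε))
    (fun a b h => Sum.inr_injective (Sum.inr_injective h)) T2 (gridM m v) (gridE m v)
    (by rw [Fintype.card_fin]) hT2'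
  let g : Fin (gridI m) ⊕ (Fin (gridK m v) ⊕ Fin (gridM m v)) → ε :=
    Sum.map gI (Sum.map gK gM)
  have hg : Function.Injective g := Function.Injective.sumMap hgI (hgK.sumMap hgM)
  have hgT : ∀ e, g e ∈ T2 := by
    rintro (i | (j | d))
    · exact hgIT i
    · exact hgKT j
    · exact hgMT d
  -- independence of products
  have hdual : ∀ zz : Fin (finrank k Ω1) × (Fin (gridI m) ⊕ (Fin (gridK m v) ⊕
      Fin (gridM m v))) → k, ∃ φ : A →ₗ[k] k, (∀ o ∈ Ω0, φ o = 0) ∧
      ∀ q, φ (ω q.1 * E (g q.2)) = zz q := by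
    intro zz
    refine exists_dual Ω0 (fun q => ω q.1 * E (g q.2)) (fun c hc => ?_) zz
    let G : Fin (finrank k Ω1) × (Fin (gridI m) ⊕ (Fin (gridK m v) ⊕ Fin (gridM m v))) →
      Fin (finrank k Ω1) × ε := Prod.map id g
    have hG : Function.Injective G := Function.injective_id.prodMap hg
    obtain ⟨c', h3, h4, h5⟩ := sum_embed G hG c (fun q => ω q.1 * E q.2)
    have h6 := hfree c' (fun q hq => h4 q (by
      rintro ⟨q', rfl⟩
      exact hq (hgT q'.2))) (by rw [h5]; exact hc)
    intro q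
    rw [← h3 q]
    exact h6 _
  have h1E' : ∀ (c0 : k) (c : Fin (gridI m) ⊕ (Fin (gridK m v) ⊕ Fin (gridM m v)) → k),
      c0 • (1 : A) + ∑ e, c e • E (g e) = 0 → ∀ e, c e = 0 := by
    intro c0 c hc e
    obtain ⟨c', h3, h4, h5⟩ := sum_embed g hg c E
    rw [← h5] at hc
    rw [← h3 e]
    exact h1E c0 c' hc _
  refine core hL h1L h2 Ω0 h0m h1m (fun i => E (g (Sum.inl i)))
    (fun j => E (g (Sum.inr (Sum.inl j)))) (fun d => E (g (Sum.inr (Sum.inr d)))) ω
    (fun _ => hEL _) (fun _ => hEL _) (fun _ => hEL _) ?_ ?_ ?_ ?_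
    (I := gridI m) (K := gridK m v) (M := gridM m v) (r1 := 2 * (2 * m + 1) ^ 2)
    le_rfl rfl le_rfl le_rfl ?_
  · intro zz
    obtain ⟨φ, h3, h4⟩ := hdual (fun q => Sum.elim (fun i => zz q.1 i) (fun _ => 0) q.2)
    exact ⟨φ, h3, fun a i => h4 (a, Sum.inl i), fun a j => h4 (a, Sum.inr (Sum.inl j))⟩
  · intro zz
    obtain ⟨φ, h3, h4⟩ := hdual (fun q => Sum.elim (fun _ => 0)
      (Sum.elim (fun j => zz q.1 j) (fun _ => 0)) q.2)
    exact ⟨φ, h3, fun a i => h4 (a, Sum.inl i), fun a j => h4 (a, Sum.inr (Sum.inl j)),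
      fun a d => h4 (a, Sum.inr (Sum.inr d))⟩
  · intro c0 c hc j
    have h3 := h1E' c0 (Sum.elim (fun _ => 0) (Sum.elim c (fun _ => 0))) (by
      rw [Fintype.sum_sum_type, Fintype.sum_sum_type]
      simp only [Sum.elim_inl, Sum.elim_inr, zero_smul, Finset.sum_const_zero, zero_add, add_zero]
      exact hc)
    exact h3 (Sum.inr (Sum.inl j))
  · rw [Fintype.linearIndependent_iff]
    intro c hc d
    have h3 := h1E' 0 (Sum.elim (fun _ => 0) (Sum.elim (fun _ => 0) c)) (by
      rw [Fintype.sum_sum_type, Fintype.sum_sum_type]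
      simp only [Sum.elim_inl, Sum.elim_inr, zero_smul, Finset.sum_const_zero, zero_add]
      exact hc)
    exact h3 (Sum.inr (Sum.inr d))
  · intro i j d
    let ei : ε := g (Sum.inl i)
    let ej : ε := g (Sum.inr (Sum.inl j))
    let ed : ε := g (Sum.inr (Sum.inr d))
    have hij : (f ei).1 ≠ (f ej).1 := fun h => by
      have := hg (hfi h)
      simp at this
    have hid : (f ei).1 ≠ (f ed).1 := fun h => by
      have := hg (hfi h)
      simp at this
    have hjd : (f ej).1 ≠ (f ed).1 := fun h => by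
      have := hg (hfi h)
      simp at this
    obtain ⟨mm, hm1, hm2, hm3⟩ := hno {(f ei).1, (f ej).1, (f ed).1}
      (Finset.card_eq_three.2 ⟨_, _, _, hij, hid, hjd, rfl⟩)
    obtain ⟨δ, hδ1, hδ2⟩ := hωmul mm hm1
    refine ⟨δ, hδ1, ?_, ?_⟩
    · rw [← hδ2]; exact hm2
    · rw [← hδ2]
      refine (congrArg (· ∈ Ω0 * L) ?_).mp hm3
      rw [Finset.sum_insert (by simp [hij, hid]), Finset.sum_insert (by simp [hjd]),
        Finset.sum_singleton]
      change (z + (w (f ei) + (w (f ej) + w (f ed)))) * mm = ((z + w (f ei)) + w (f ej) +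
        w (f ed)) * mm
      ring

end

end Pool.Agent.R350
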