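import Pool.Agent.R350.GZ

/-!
# Free tuples and ultrapowers
-/

set_option autoImplicit false

namespace Pool.Agent.R350

open Module Filter

section box

/-- the exponents at most `E` -/
noncomputable def box (n E : ℕ) : Finset (Fin n →₀ ℕ) := by
  classical
  exact (Finset.univ : Finset (Fin n → Fin (E + 1))).image
    (fun f => Finsupp.equivFunOnFinite.symm (fun i => (f i : ℕ)))

theorem mem_box {n E : ℕ} {β : Fin n →₀ ℕ} : β ∈ box n E ↔ ∀ i, β i ≤ E := by
  classical
  unfold box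
  rw [Finset.mem_image]
  constructor
  · rintro ⟨f, -, rfl⟩ i
    exact Nat.lt_succ_iff.1 (f i).2
  · intro h
    exact ⟨fun i => ⟨β i, Nat.lt_succ_iff.2 (h i)⟩, Finset.mem_univ _, by ext i; rfl⟩

theorem support_box {n E : ℕ} {R : Type*} [CommRing R] {P : MvPolynomial (Fin n) R}
    (h : ∀ i, P.degreeOf i ≤ E) : P.support ⊆ box n E := by
  intro β hβ
  rw [mem_box]
  intro i
  exact (MvPolynomial.degreeOf_le_iff.1 (h i)) β hβ

theorem degreeOf_box {n E : ℕ} {R : Type*} [CommRing R] {P : MvPolynomial (Fin n) R}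
    (h : P.support ⊆ box n E) (i : Fin n) : P.degreeOf i ≤ E := by
  rw [MvPolynomial.degreeOf_le_iff]
  intro β hβ
  exact mem_box.1 (h hβ) i

theorem eval_box {n : ℕ} {R : Type*} [CommRing R] {B : Finset (Fin n →₀ ℕ)}
    {P : MvPolynomial (Fin n) R} (h : P.support ⊆ B) (f : Fin n → R) :
    MvPolynomial.eval f P = ∑ β ∈ B, (∏ i, f i ^ β i) * P.coeff β := by
  rw [MvPolynomial.eval_eq']
  rw [Finset.sum_subset h]
  · exact Finset.sum_congr rfl fun β _ => mul_comm _ _
  · intro β _ hβ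
    rw [MvPolynomial.notMem_support_iff.1 hβ, zero_mul]

theorem coeff_sum_mon {n : ℕ} {R : Type*} [CommRing R] (B : Finset (Fin n →₀ ℕ))
    (c : (Fin n →₀ ℕ) → R) (β : Fin n →₀ ℕ) :
    MvPolynomial.coeff β (∑ γ ∈ B, MvPolynomial.monomial γ (c γ)) = if β ∈ B then c β else 0 := by
  classical
  rw [MvPolynomial.coeff_sum]
  simp only [MvPolynomial.coeff_monomial]
  rw [Finset.sum_ite_eq' B β c]

theorem support_sum_mon {n : ℕ} {R : Type*} [CommRing R] (B : Finset (Fin n →₀ ℕ))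
    (c : (Fin n →₀ ℕ) → R) : (∑ γ ∈ B, MvPolynomial.monomial γ (c γ)).support ⊆ B := by
  intro β hβ
  rw [MvPolynomial.mem_support_iff, coeff_sum_mon] at hβ
  by_contra h
  rw [if_neg h] at hβ
  exact hβ rfl

theorem eq_sum_mon {n : ℕ} {R : Type*} [CommRing R] {B : Finset (Fin n →₀ ℕ)}
    {P : MvPolynomial (Fin n) R} (h : P.support ⊆ B) :
    P = ∑ γ ∈ B, MvPolynomial.monomial γ (P.coeff γ) := by
  ext β
  rw [coeff_sum_mon]
  split_ifs with hβ
  · rfl
  · exact MvPolynomial.notMem_support_iff.1 fun h' => hβ (h h')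

end box

section point

variable {κ C : Type} [Field κ] [Field C] [Algebra κ C]

/-- the coefficients of the relations are in a fixed space -/
theorem coef_support {L Ω : Submodule κ C} [FiniteDimensional κ Ω] {n E : ℕ} {f : Fin n → C}
    (hind : ∀ P : MvPolynomial (Fin n) C, (∀ i, P.degreeOf i ≤ E) → CoefIn Ω P →
      MvPolynomial.eval f P = 0 → P = 0) (Ωm : Submodule κ C)
    (hΩm : ∀ β ∈ box n E, ∀ w ∈ Ω, (∏ i, f i ^ β i) * w ∈ Ωm) (P : MvPolynomial (Fin n) C)
    (hPd : ∀ i, P.degreeOf i ≤ E) (hPc : CoefIn (Ω * L) P) (h0 : MvPolynomial.eval f P = 0) :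
    CoefIn (Ω * suppI L Ωm) P := by
  classical
  let Bs := Module.finBasis κ Ω
  set b : Fin (finrank κ Ω) → C := fun u => ((Bs u : Ω) : C) with hb
  have hbli : LinearIndependent κ b := Bs.linearIndependent.map' Ω.subtype Ω.ker_subtype
  have hbΩ : Ω ≤ Submodule.span κ (Set.range b) := by
    intro w hw
    have h1 := congrArg (fun z : Ω => (z : C)) (Bs.sum_repr ⟨w, hw⟩)
    simp only [Submodule.coe_sum, Submodule.coe_smul] at h1
    rw [← h1]
    exact Submodule.sum_mem _ fun u _ => Submodule.smul_mem _ _ (Submodule.subset_span ⟨u, rfl⟩)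
  choose ℓ hℓ hPℓ using fun β => exists_coords b hbΩ (hPc β)
  let ω : (box n E) × Fin (finrank κ Ω) → C := fun x => (∏ i, f i ^ (x.1 : Fin n →₀ ℕ) i) * b x.2
  have hrel : ∑ x : (box n E) × Fin (finrank κ Ω), ω x * ℓ x.1 x.2 = 0 := by
    rw [Fintype.sum_prod_type, ← h0, eval_box (support_box hPd),
      ← Finset.sum_coe_sort (box n E) (fun β => (∏ i, f i ^ β i) * P.coeff β)]
    refine Finset.sum_congr rfl fun β _ => ?_
    rw [hPℓ, Finset.mul_sum]
    refine Finset.sum_congr rfl fun s _ => ?_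
    simp only [ω]
    ring
  have hli : ∀ c : (box n E) × Fin (finrank κ Ω) → κ, ∑ x, c x • ω x ∈ (⊥ : Submodule κ C) →
      ∀ x, c x = 0 := by
    intro c hc
    rw [Submodule.mem_bot] at hc
    set g : (Fin n →₀ ℕ) → C := fun β => if h : β ∈ box n E then
      ∑ s, c (⟨β, h⟩, s) • b s else 0 with hg
    have hgΩ : ∀ β, g β ∈ Ω := by
      intro β
      simp only [hg]
      split_ifs
      · exact Submodule.sum_mem _ fun s _ => Ω.smul_mem _ (Bs s).2
      · exact Ω.zero_mem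
    have hP' := hind (∑ γ ∈ box n E, MvPolynomial.monomial γ (g γ))
      (fun i => degreeOf_box (support_sum_mon _ _) i) (by
        intro β
        rw [coeff_sum_mon]
        split_ifs
        · exact hgΩ _
        · exact Ω.zero_mem) (by
        rw [eval_box (support_sum_mon _ _), ← hc, Fintype.sum_prod_type,
          ← Finset.sum_coe_sort (box n E) (fun β => (∏ i, f i ^ β i) *
            MvPolynomial.coeff β (∑ γ ∈ box n E, MvPolynomial.monomial γ (g γ)))]
        refine Finset.sum_congr rfl fun β _ => ?_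
        rw [coeff_sum_mon, if_pos β.2]
        simp only [hg, dif_pos β.2, Finset.mul_sum]
        refine Finset.sum_congr rfl fun s _ => ?_
        simp only [ω]
        rw [mul_smul_comm])
    rintro ⟨β, s⟩
    have h1 := congrArg (MvPolynomial.coeff (β : Fin n →₀ ℕ)) hP'
    rw [coeff_sum_mon, if_pos β.2, MvPolynomial.coeff_zero] at h1
    simp only [hg, dif_pos β.2] at h1
    exact Fintype.linearIndependent_iff.1 hbli (fun s => c (β, s)) h1 s
  have key : ∀ β (hβ : β ∈ box n E) s, ℓ β s ∈ suppI L Ωm := by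
    intro β hβ s
    obtain ⟨φ, -, hφ⟩ := exists_dual (⊥ : Submodule κ C) ω hli
      (fun x => if x = (⟨β, hβ⟩, s) then 1 else 0)
    have h1 := mem_suppI (L := L) (Ω := Ωm) ω (fun x => ℓ x.1 x.2) (fun x => hΩm _ x.1.2 _ (Bs x.2).2)
      (fun x => hℓ _ _) hrel φ
    simp only [hφ, ite_smul, one_smul, zero_smul] at h1
    rwa [Finset.sum_ite_eq' Finset.univ _, if_pos (Finset.mem_univ _)] at h1
  intro β
  by_cases hβ : β ∈ box n E
  · rw [hPℓ β]
    exact Submodule.sum_mem _ fun s _ => Submodule.mul_mem_mul (Bs s).2 (key β hβ s)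
  · rw [MvPolynomial.notMem_support_iff.1 fun h' => hβ (support_box hPd h')]
    exact Submodule.zero_mem _

end point

section transfer

variable {ι : Type} (𝒰 : Ultrafilter ι) {C : Type} [Field C] {n : ℕ}

/-- germs of polynomials -/
noncomputable def pgr (n : ℕ) (C : Type) [Field C] :
    (ι → MvPolynomial (Fin n) C) →+* Germ (𝒰 : Filter ι) (MvPolynomial (Fin n) C) :=
  Germ.coeRingHom _

theorem pgr_eq (P Q : ι → MvPolynomial (Fin n) C) :
    pgr 𝒰 n C P = pgr 𝒰 n C Q ↔ ∀ᶠ t in (𝒰 : Filter ι), P t = Q t := Germ.coe_eq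

/-- constants as germs of polynomials -/
noncomputable def Θ0 (n : ℕ) (C : Type) [Field C] :
    UP 𝒰 C →+* Germ (𝒰 : Filter ι) (MvPolynomial (Fin n) C) where
  toFun := fun z => Germ.map MvPolynomial.C (z : Germ (𝒰 : Filter ι) C)
  map_one' := by
    change pgr 𝒰 n C (fun _ => MvPolynomial.C 1) = 1
    rw [← map_one (pgr 𝒰 n C)]
    congr 1
  map_zero' := by
    change pgr 𝒰 n C (fun _ => MvPolynomial.C 0) = 0
    rw [← map_zero (pgr 𝒰 n C)]
    congr 1
    funext t
    exact map_zero _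
  map_mul' x y := by
    obtain ⟨x, rfl⟩ := gr_surj 𝒰 x
    obtain ⟨y, rfl⟩ := gr_surj 𝒰 y
    change pgr 𝒰 n C (fun t => MvPolynomial.C (x t * y t)) =
      pgr 𝒰 n C (fun t => MvPolynomial.C (x t)) * pgr 𝒰 n C (fun t => MvPolynomial.C (y t))
    rw [← map_mul]
    congr 1
    funext t
    exact map_mul _ _ _
  map_add' x y := by
    obtain ⟨x, rfl⟩ := gr_surj 𝒰 x
    obtain ⟨y, rfl⟩ := gr_surj 𝒰 y
    change pgr 𝒰 n C (fun t => MvPolynomial.C (x t + y t)) =
      pgr 𝒰 n C (fun t => MvPolynomial.C (x t)) + pgr 𝒰 n C (fun t => MvPolynomial.C (y t))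
    rw [← map_add]
    congr 1
    funext t
    exact map_add _ _ _

/-- polynomials over the ultrapower as germs of polynomials -/
noncomputable def Θ (n : ℕ) (C : Type) [Field C] :
    MvPolynomial (Fin n) (UP 𝒰 C) →+* Germ (𝒰 : Filter ι) (MvPolynomial (Fin n) C) :=
  MvPolynomial.eval₂Hom (Θ0 𝒰 n C) (fun i => pgr 𝒰 n C fun _ => MvPolynomial.X i)

theorem Θ_C (f : ι → C) : Θ 𝒰 n C (MvPolynomial.C (gr 𝒰 C f)) =
    pgr 𝒰 n C (fun t => MvPolynomial.C (f t)) := by
  unfold Θ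
  rw [MvPolynomial.coe_eval₂Hom, MvPolynomial.eval₂_C]
  rfl

theorem Θ_X (i : Fin n) : Θ 𝒰 n C (MvPolynomial.X i) = pgr 𝒰 n C (fun _ => MvPolynomial.X i) := by
  unfold Θ
  rw [MvPolynomial.coe_eval₂Hom, MvPolynomial.eval₂_X]

theorem Θ_monomial (β : Fin n →₀ ℕ) (f : ι → C) :
    Θ 𝒰 n C (MvPolynomial.monomial β (gr 𝒰 C f)) =
      pgr 𝒰 n C (fun t => MvPolynomial.monomial β (f t)) := by
  rw [MvPolynomial.monomial_eq, map_mul, Θ_C, Finsupp.prod, map_prod]
  simp only [map_pow, Θ_X]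
  simp only [← map_pow, ← map_prod, ← map_mul]
  congr 1
  funext t
  rw [MvPolynomial.monomial_eq, Pi.mul_apply, Finset.prod_apply]
  rfl

theorem Θ_sum (B : Finset (Fin n →₀ ℕ)) (c : (Fin n →₀ ℕ) → ι → C) :
    Θ 𝒰 n C (∑ γ ∈ B, MvPolynomial.monomial γ (gr 𝒰 C (c γ))) =
      pgr 𝒰 n C (fun t => ∑ γ ∈ B, MvPolynomial.monomial γ (c γ t)) := by
  rw [map_sum]
  simp only [Θ_monomial]
  rw [← map_sum]
  congr 1
  funext t
  rw [Finset.sum_apply]

theorem eval_U (B : Finset (Fin n →₀ ℕ)) (c : (Fin n →₀ ℕ) → ι → C) (y : Fin n → ι → C) :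
    MvPolynomial.eval (fun i => gr 𝒰 C (y i)) (∑ γ ∈ B, MvPolynomial.monomial γ (gr 𝒰 C (c γ))) =
      gr 𝒰 C (fun t => MvPolynomial.eval (fun i => y i t)
        (∑ γ ∈ B, MvPolynomial.monomial γ (c γ t))) := by
  have h1 : ∀ t, MvPolynomial.eval (fun i => y i t)
      (∑ γ ∈ B, MvPolynomial.monomial γ (c γ t)) = ∑ γ ∈ B, (∏ i, y i t ^ γ i) * c γ t := by
    intro t
    rw [eval_box (support_sum_mon _ _)]
    refine Finset.sum_congr rfl fun β hβ => ?_
    rw [coeff_sum_mon, if_pos hβ]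
  simp only [h1]
  rw [eval_box (support_sum_mon _ _)]
  have h2 : (fun t => ∑ γ ∈ B, (∏ i, y i t ^ γ i) * c γ t) =
      ∑ γ ∈ B, (∏ i, y i ^ γ i) * c γ := by
    funext t
    rw [Finset.sum_apply]
    refine Finset.sum_congr rfl fun β _ => ?_
    rw [Pi.mul_apply, Finset.prod_apply]
    rfl
  rw [h2, map_sum]
  refine Finset.sum_congr rfl fun β hβ => ?_
  rw [coeff_sum_mon, if_pos hβ, map_mul, map_prod]
  simp only [map_pow]

end transfer

end Pool.Agent.R350
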