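import Pool.Agent.R350.HA

/-!
# Generic combinations are free
-/

set_option autoImplicit false

namespace Pool.Agent.R350

open Module Filter

theorem suppI_le' {k A : Type*} [Field k] [Field A] [Algebra k A] (L Ω : Submodule k A) :
    suppI L Ω ≤ L := by
  refine Submodule.span_le.2 ?_
  rintro y ⟨n, ω, ℓ, h1, h2, h3, φ, rfl⟩
  exact Submodule.sum_mem _ fun t _ => L.smul_mem _ (h2 t)

theorem finite_mul {k A : Type*} [Field k] [Field A] [Algebra k A] (V W : Submodule k A)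
    [FiniteDimensional k V] [FiniteDimensional k W] :
    FiniteDimensional k (V * W : Submodule k A) :=
  (Submodule.fg_iff_finiteDimensional _).1
    (((Submodule.fg_iff_finiteDimensional V).2 inferInstance).mul
      ((Submodule.fg_iff_finiteDimensional W).2 inferInstance))

theorem finite_pow {k A : Type*} [Field k] [Field A] [Algebra k A] (V : Submodule k A)
    [FiniteDimensional k V] (n : ℕ) : FiniteDimensional k (V ^ n : Submodule k A) :=
  (Submodule.fg_iff_finiteDimensional _).1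
    (((Submodule.fg_iff_finiteDimensional V).2 inferInstance).pow n)

theorem prod_mem_pow {k A : Type*} [Field k] [Field A] [Algebra k A] (V : Submodule k A)
    (h1 : (1 : A) ∈ V) {n E : ℕ} (f : Fin n → A) (hf : ∀ i, f i ∈ V) (β : Fin n →₀ ℕ)
    (hβ : ∀ i, β i ≤ E) : ∏ i, f i ^ β i ∈ (V ^ E) ^ n := by
  classical
  have hV : (1 : Submodule k A) ≤ V := Submodule.one_le.2 h1
  have h2 : ∀ i, f i ^ β i ∈ V ^ E := fun i =>
    (pow_le_pow_right₀ hV (hβ i)) (Submodule.pow_mem_pow V (hf i) _)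
  have h3 : ∀ s : Finset (Fin n), ∏ i ∈ s, f i ^ β i ∈ (V ^ E) ^ s.card := by
    intro s
    induction s using Finset.induction_on with
    | empty =>
      rw [Finset.prod_empty, Finset.card_empty, pow_zero]
      exact Submodule.one_le.1 le_rfl
    | insert a s ha ih =>
      rw [Finset.prod_insert ha, Finset.card_insert_of_notMem ha, pow_succ', mul_comm (f a ^ β a),
        mul_comm (V ^ E)]
      exact Submodule.mul_mem_mul ih (h2 a)
  have h4 := h3 Finset.univ
  rwa [Finset.card_univ, Fintype.card_fin] at h4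

section

variable {ι : Type} (𝒰 : Ultrafilter ι) {κ C : Type} [Field κ] [Field C] [Algebra κ C]

/-- **Free tuples of the ultrapower are free at almost all places.** -/
theorem free_transfer {v : ℕ} {L Ω : Submodule κ C} (hL : HypV v L) [FiniteDimensional κ Ω]
    {n E : ℕ} (y : Fin n → ι → C) (V : Submodule κ C) [FiniteDimensional κ V]
    (h1V : (1 : C) ∈ V) (hyV : ∀ i t, y i t ∈ V)
    (hfree : FreeT E (LU 𝒰 L) (LU 𝒰 Ω) (fun i => gr 𝒰 C (y i))) :
    ∀ᶠ t in (𝒰 : Filter ι), FreeT E L Ω (fun i => y i t) := by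
  classical
  -- the polynomial over the ultrapower attached to a family
  set U : (ι → MvPolynomial (Fin n) C) → MvPolynomial (Fin n) (UP 𝒰 C) := fun P =>
    ∑ γ ∈ box n E, MvPolynomial.monomial γ (gr 𝒰 C (fun t => (P t).coeff γ)) with hU
  have hΘU : ∀ P : ι → MvPolynomial (Fin n) C, (∀ t i, (P t).degreeOf i ≤ E) →
      Θ 𝒰 n C (U P) = pgr 𝒰 n C P := by
    intro P hP
    simp only [hU]
    rw [Θ_sum]
    congr 1
    funext t
    exact (eq_sum_mon (support_box (hP t))).symm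
  have hevU : ∀ P : ι → MvPolynomial (Fin n) C, (∀ t i, (P t).degreeOf i ≤ E) →
      MvPolynomial.eval (fun i => gr 𝒰 C (y i)) (U P) =
        gr 𝒰 C (fun t => MvPolynomial.eval (fun i => y i t) (P t)) := by
    intro P hP
    simp only [hU]
    rw [eval_U]
    congr 1
    funext t
    rw [← eq_sum_mon (support_box (hP t))]
  have hdegU : ∀ P i, (U P).degreeOf i ≤ E := fun P i => degreeOf_box (support_sum_mon _ _) i
  have hcoefU : ∀ (P : ι → MvPolynomial (Fin n) C) (W : Submodule (UP 𝒰 κ) (UP 𝒰 C)),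
      (∀ γ, gr 𝒰 C (fun t => (P t).coeff γ) ∈ W) → CoefIn W (U P) := by
    intro P W hW β
    simp only [hU]
    rw [coeff_sum_mon]
    split_ifs
    · exact hW β
    · exact W.zero_mem
  -- independence
  have hind : ∀ᶠ t in (𝒰 : Filter ι), ∀ P : MvPolynomial (Fin n) C, (∀ i, P.degreeOf i ≤ E) →
      CoefIn Ω P → MvPolynomial.eval (fun i => y i t) P = 0 → P = 0 := by
    by_contra hcon
    rw [← Ultrafilter.eventually_not] at hcon
    have h1 : ∀ t, ∃ P : MvPolynomial (Fin n) C, (∀ i, P.degreeOf i ≤ E) ∧ CoefIn Ω P ∧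
        MvPolynomial.eval (fun i => y i t) P = 0 ∧ ((¬ ∀ P : MvPolynomial (Fin n) C,
          (∀ i, P.degreeOf i ≤ E) → CoefIn Ω P → MvPolynomial.eval (fun i => y i t) P = 0 →
            P = 0) → P ≠ 0) := by
      intro t
      by_cases ht : ∀ P : MvPolynomial (Fin n) C, (∀ i, P.degreeOf i ≤ E) →
          CoefIn Ω P → MvPolynomial.eval (fun i => y i t) P = 0 → P = 0
      · refine ⟨0, fun i => by rw [MvPolynomial.degreeOf_zero]; exact Nat.zero_le _,
          fun β => by rw [MvPolynomial.coeff_zero]; exact Ω.zero_mem, map_zero _,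
          fun h => absurd ht h⟩
      · have ht' := ht
        push Not at ht'
        obtain ⟨P, h1, h2, h3, h4⟩ := ht'
        exact ⟨P, h1, h2, h3, fun _ => h4⟩
    choose P hP1 hP2 hP3 hP4 using h1
    have h2 := hfree.indep (U P) (hdegU P) (hcoefU P _ fun γ =>
      LU_of_fin 𝒰 _ fun t => hP2 t γ) (by
        rw [hevU P hP1, gr_eq_zero]
        exact Filter.Eventually.of_forall hP3)
    have h3 := hΘU P hP1
    rw [h2, map_zero, ← map_zero (pgr 𝒰 n C), pgr_eq] at h3
    obtain ⟨t, ht1, ht2⟩ := (h3.and hcon).exists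
    exact hP4 t ht2 ht1.symm
  by_contra hcon
  rw [← Ultrafilter.eventually_not] at hcon
  set Ωm : Submodule κ C := (V ^ E) ^ n * Ω with hΩm
  have hfd0 : FiniteDimensional κ (V ^ E : Submodule κ C) := finite_pow V E
  have hfd1 : FiniteDimensional κ ((V ^ E) ^ n : Submodule κ C) := finite_pow _ n
  have hfd2 : FiniteDimensional κ Ωm := finite_mul _ _
  have hfd3 := (suppI_bound hL Ωm).1
  have hfd4 : FiniteDimensional κ (Ω * suppI L Ωm : Submodule κ C) := finite_mul _ _
  have h1 : ∀ t, ∃ P : MvPolynomial (Fin n) C, (∀ i, P.degreeOf i ≤ E) ∧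
      CoefIn (Ω * suppI L Ωm) P ∧ MvPolynomial.eval (fun i => y i t) P = 0 ∧
      ((∀ P : MvPolynomial (Fin n) C, (∀ i, P.degreeOf i ≤ E) → CoefIn Ω P →
        MvPolynomial.eval (fun i => y i t) P = 0 → P = 0) → ¬ FreeT E L Ω (fun i => y i t) →
        ¬ ∃ Q : Fin n → MvPolynomial (Fin n) C, (∀ i, CoefIn Ω (Q i)) ∧
          P = ∑ i, (MvPolynomial.X i - MvPolynomial.C (y i t)) * Q i) := by
    intro t
    by_cases ht : (∀ P : MvPolynomial (Fin n) C, (∀ i, P.degreeOf i ≤ E) → CoefIn Ω P →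
        MvPolynomial.eval (fun i => y i t) P = 0 → P = 0) ∧ ¬ FreeT E L Ω (fun i => y i t)
    · obtain ⟨ht1, ht2⟩ := ht
      have h2 : ∃ P : MvPolynomial (Fin n) C, (∀ i, P.degreeOf i ≤ E) ∧ CoefIn (Ω * L) P ∧
          MvPolynomial.eval (fun i => y i t) P = 0 ∧
          ¬ ∃ Q : Fin n → MvPolynomial (Fin n) C, (∀ i, CoefIn Ω (Q i)) ∧
            P = ∑ i, (MvPolynomial.X i - MvPolynomial.C (y i t)) * Q i := by
        by_contra h3
        push Not at h3
        apply ht2
        refine ⟨ht1, fun P h4 h5 h6 => ?_⟩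
        exact h3 P h4 h5 h6
      obtain ⟨P, h3, h4, h5, h6⟩ := h2
      refine ⟨P, h3, coef_support ht1 Ωm (fun β hβ w hw => ?_) P h3 h4 h5, h5, fun _ _ => h6⟩
      exact Submodule.mul_mem_mul (prod_mem_pow V h1V _ (fun i => hyV i t) β (mem_box.1 hβ)) hw
    · refine ⟨0, fun i => by rw [MvPolynomial.degreeOf_zero]; exact Nat.zero_le _,
        fun β => by rw [MvPolynomial.coeff_zero]; exact Submodule.zero_mem _, map_zero _,
        fun h3 h4 => absurd ⟨h3, h4⟩ ht⟩
  choose P hP1 hP2 hP3 hP4 using h1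
  obtain ⟨Q, hQ, hPQ⟩ := hfree.free (U P) (hdegU P) (hcoefU P _ fun γ => by
      have h2 := LU_of_fin 𝒰 (L := Ω * suppI L Ωm) (fun t => (P t).coeff γ) fun t => hP2 t γ
      exact (mul_le_mul' le_rfl (LU_mono 𝒰 (suppI_le' L Ωm))) (LU_mul 𝒰 h2)) (by
        rw [hevU P hP1, gr_eq_zero]
        exact Filter.Eventually.of_forall hP3)
  choose q hq hqQ using fun i γ => LU_rep 𝒰 (hQ i γ)
  set R : Fin n → ι → MvPolynomial (Fin n) C := fun i t =>
    ∑ γ ∈ (Q i).support, MvPolynomial.monomial γ (q i γ t) with hR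
  have hQR : ∀ i, Θ 𝒰 n C (Q i) = pgr 𝒰 n C (R i) := by
    intro i
    have h2 : Q i = ∑ γ ∈ (Q i).support, MvPolynomial.monomial γ (gr 𝒰 C (q i γ)) := by
      conv_lhs => rw [eq_sum_mon (subset_refl (Q i).support)]
      exact Finset.sum_congr rfl fun γ _ => by rw [hqQ]
    conv_lhs => rw [h2]
    rw [Θ_sum]
  have h2 := congrArg (Θ 𝒰 n C) hPQ
  rw [hΘU P hP1, map_sum] at h2
  have h3 : ∀ i, Θ 𝒰 n C ((MvPolynomial.X i - MvPolynomial.C (gr 𝒰 C (y i))) * Q i) =
      pgr 𝒰 n C (fun t => (MvPolynomial.X i - MvPolynomial.C (y i t)) * R i t) := by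
    intro i
    rw [map_mul, map_sub, Θ_X, Θ_C, hQR, ← map_sub, ← map_mul]
    rfl
  simp only [h3] at h2
  rw [← map_sum, pgr_eq] at h2
  obtain ⟨t, ⟨ht1, ht2⟩, ht3⟩ := ((h2.and hcon).and hind).exists
  refine hP4 t ht3 ht2 ⟨fun i => R i t, fun i β => ?_, ?_⟩
  · simp only [hR]
    rw [coeff_sum_mon]
    split_ifs
    · exact hq i β t
    · exact Ω.zero_mem
  · rw [ht1, Finset.sum_apply]

end

/-- ultrafilters of generic points of a family -/
theorem exists_ultra_gen {K ι σ : Type} [Field K] (G : ι → σ → K)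
    (hB : ∀ P : MvPolynomial σ K, P ≠ 0 → ∃ b, MvPolynomial.eval (G b) P ≠ 0) :
    ∃ 𝒰 : Ultrafilter ι, ∀ P : MvPolynomial σ K, P ≠ 0 →
      ∀ᶠ b in (𝒰 : Filter ι), MvPolynomial.eval (G b) P ≠ 0 := by
  let F : Filter ι :=
    { sets := {S | ∃ P : MvPolynomial σ K, P ≠ 0 ∧
        ∀ b, MvPolynomial.eval (G b) P ≠ 0 → b ∈ S}
      univ_sets := ⟨1, one_ne_zero, fun b _ => Set.mem_univ b⟩
      sets_of_superset := by
        rintro S S' ⟨P, h1, h2⟩ hS
        exact ⟨P, h1, fun b h => hS (h2 b h)⟩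
      inter_sets := by
        rintro S S' ⟨P, h1, h2⟩ ⟨P', h1', h2'⟩
        refine ⟨P * P', mul_ne_zero h1 h1', fun b h => ?_⟩
        rw [map_mul] at h
        exact ⟨h2 b (left_ne_zero_of_mul h), h2' b (right_ne_zero_of_mul h)⟩ }
  have hF : F.NeBot := by
    rw [neBot_iff, Ne, ← empty_mem_iff_bot]
    rintro ⟨P, h1, h2⟩
    obtain ⟨b, h3⟩ := hB P h1
    exact h2 b h3
  exact ⟨Ultrafilter.of F, fun P hP => Ultrafilter.of_le F
    (show {b | MvPolynomial.eval (G b) P ≠ 0} ∈ F from ⟨P, hP, fun b h => h⟩)⟩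

/-- **Generic combinations are free.** -/
theorem free_generic {κ C : Type} [Field κ] [CharZero κ] [Field C] [CharZero C] [Algebra κ C]
    {v : ℕ} {L : Submodule κ C} (hL : HypV v L) (h1L : (1 : C) ∈ L) (E n m N : ℕ)
    (Ω : Submodule κ C) [FiniteDimensional κ Ω] (h1Ω : (1 : C) ∈ Ω) (hm : finrank κ Ω ≤ m)
    (z : Fin n → C) (hz : ∀ i, z i ∈ L) (lam : Fin N → C) (hlam : ∀ k, lam k ∈ L)
    (hli : ∀ (c : Fin N → κ) (c0 : κ), ∑ k, c k • lam k = c0 • (1 : C) → ∀ k, c k = 0)
    (hN : ∀ n', n = n' + 1 → (E + 2) * (E + 1) ^ n' * m * ((E + 2) * (E + 1) ^ n' * m + v) < N) :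
    ∃ Δ : MvPolynomial (Fin n × Fin N) κ, Δ ≠ 0 ∧ ∀ b : Fin n × Fin N → κ,
      MvPolynomial.eval b Δ ≠ 0 → FreeT E L Ω (fun i => z i + ∑ k, b (i, k) • lam k) := by
  classical
  by_contra hcon
  push Not at hcon
  let ι : Type := {b : Fin n × Fin N → κ // ¬ FreeT E L Ω (fun i => z i + ∑ k, b (i, k) • lam k)}
  obtain ⟨𝒰, hgen⟩ := exists_ultra_gen (ι := ι) (fun b => b.1) (by
    intro P hP
    obtain ⟨b, h1, h2⟩ := hcon P hP
    exact ⟨⟨b, h2⟩, h1⟩)
  have hch1 : CharZero (UP 𝒰 κ) := charZero_UP 𝒰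
  have hch2 : CharZero (UP 𝒰 C) := charZero_UP 𝒰
  -- the derivations
  have hD : ∀ x : Fin n × Fin N, ∃ D : Derivation ℤ (UP 𝒰 C) (UP 𝒰 C),
      (∀ c : UP 𝒰 κ, ∃ c' : UP 𝒰 κ, D (algebraMap _ _ c) = algebraMap _ _ c') ∧
      (∀ z : C, D (cst 𝒰 C z) = 0) ∧
      ∀ x', D (algebraMap (UP 𝒰 κ) (UP 𝒰 C) (gr 𝒰 κ (fun b : ι => b.1 x'))) =
        if x' = x then 1 else 0 := by
    intro x
    let e := Fintype.equivFin (Fin n × Fin N)
    obtain ⟨D, h1, h2, h3⟩ := exists_der_U (C := C) 𝒰 (fun k (b : ι) => b.1 (e.symm k)) (by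
      intro P hP
      have h4 := hgen (MvPolynomial.rename e.symm P) (fun h => hP
        (MvPolynomial.rename_injective _ e.symm.injective (by rw [h, map_zero])))
      refine h4.mono fun b hb => ?_
      rw [MvPolynomial.eval_rename] at hb
      exact hb) (e x)
    refine ⟨D, h1, h2, fun x' => ?_⟩
    have h4 := h3 (e x')
    rw [Equiv.symm_apply_apply] at h4
    rw [h4]
    by_cases hx : x' = x
    · rw [if_pos hx, if_pos (by rw [hx])]
    · rw [if_neg hx, if_neg (fun h => hx (e.injective h))]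
  choose D hD1 hD2 hD3 using hD
  have hDLU : ∀ (x : Fin n × Fin N) (W : Submodule κ C), ∀ w ∈ LU 𝒰 W, D x w ∈ LU 𝒰 W := by
    intro x W w hw
    refine Submodule.span_induction (p := fun w _ => D x w ∈ LU 𝒰 W) ?_ ?_ ?_ ?_ hw
    · rintro _ ⟨z, hz, rfl⟩
      rw [hD2]
      exact Submodule.zero_mem _
    · rw [map_zero]
      exact Submodule.zero_mem _
    · intro a b _ _ ha hb
      rw [map_add]
      exact Submodule.add_mem _ ha hb
    · intro c a ha' ha
      obtain ⟨c', hc'⟩ := hD1 x c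
      rw [Algebra.smul_def, (D x).leibniz, hc', smul_eq_mul, smul_eq_mul, mul_comm a,
        ← Algebra.smul_def, ← Algebra.smul_def]
      exact Submodule.add_mem _ (Submodule.smul_mem _ _ ha) (Submodule.smul_mem _ _ ha')
  set y : Fin n → ι → C := fun i b => z i + ∑ k, b.1 (i, k) • lam k with hy
  have hyU : ∀ i, gr 𝒰 C (y i) = cst 𝒰 C (z i) +
      ∑ k, algebraMap (UP 𝒰 κ) (UP 𝒰 C) (gr 𝒰 κ (fun b : ι => b.1 (i, k))) * cst 𝒰 C (lam k) := by
    intro i
    simp only [algebraMap_gr, cst_apply, ← map_mul, ← map_sum, ← map_add]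
    congr 1
    funext b
    simp only [hy, Pi.add_apply, Finset.sum_apply, Pi.mul_apply, Algebra.smul_def]
  have hfdU := LU_finrank 𝒰 (L := Ω)
  have hfree := free_of_der (hypV_U 𝒰 hL) E (fun k => cst 𝒰 C (lam k)) n m (LU 𝒰 Ω) hfdU.1
    (by rw [← map_one (cst 𝒰 C)]; exact cst_mem 𝒰 h1Ω) (hfdU.2.trans hm)
    (fun i k => D (i, k)) (fun i => gr 𝒰 C (y i))
    (by
      intro i
      rw [hyU]
      refine Submodule.add_mem _ (cst_mem 𝒰 (hz i)) (Submodule.sum_mem _ fun k _ => ?_)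
      rw [← Algebra.smul_def]
      exact Submodule.smul_mem _ _ (cst_mem 𝒰 (hlam k)))
    (by
      intro i
      refine ⟨by rw [← map_one (cst 𝒰 C)]; exact cst_mem 𝒰 h1L, fun k => cst_mem 𝒰 (hlam k),
        fun k l hl => hDLU _ _ l hl, fun c c0 h => ?_⟩
      choose cf hcf using fun k => gr_surj 𝒰 (c k)
      obtain ⟨c0f, hc0f⟩ := gr_surj 𝒰 c0
      have h1 : gr 𝒰 C (∑ k, fun t => cf k t • lam k) = gr 𝒰 C (fun t => c0f t • (1 : C)) := by
        rw [map_sum]
        have h2 : gr 𝒰 C (fun t => c0f t • (1 : C)) = c0 • (1 : UP 𝒰 C) := by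
          rw [← hc0f, ← map_one (cst 𝒰 C), cst_apply, gr_smul]
        rw [h2, ← h]
        refine Finset.sum_congr rfl fun k _ => ?_
        rw [← hcf, cst_apply, gr_smul]
      rw [gr_eq] at h1
      intro k
      rw [← hcf k, gr_eq_zero]
      refine h1.mono fun t ht => ?_
      rw [Finset.sum_apply] at ht
      exact hli (fun k => cf k t) (c0f t) ht k)
    (fun i k w hw => hDLU _ _ w hw)
    (by
      intro i k j
      rw [hyU, map_add, hD2, zero_add, map_sum]
      have h1 : ∀ k', D (i, k) (algebraMap (UP 𝒰 κ) (UP 𝒰 C) (gr 𝒰 κ (fun b : ι => b.1 (j, k'))) *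
          cst 𝒰 C (lam k')) = if (j, k') = (i, k) then cst 𝒰 C (lam k') else 0 := by
        intro k'
        rw [(D (i, k)).leibniz, hD2, hD3, smul_zero, zero_add, smul_eq_mul, mul_ite, mul_one,
          mul_zero]
      simp only [h1]
      by_cases hij : i = j
      · rw [if_pos hij, Finset.sum_eq_single k]
        · rw [if_pos (by rw [hij])]
        · intro k' _ hk'
          rw [if_neg (fun h => hk' (Prod.ext_iff.1 h).2)]
        · intro h; exact absurd (Finset.mem_univ _) h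
      · rw [if_neg hij, Finset.sum_eq_zero]
        intro k' _
        rw [if_neg (fun h => hij (Prod.ext_iff.1 h).1.symm)]) hN
  set V : Submodule κ C := Submodule.span κ (insert 1 (Set.range z ∪ Set.range lam)) with hV
  have hVfd : FiniteDimensional κ V := FiniteDimensional.span_of_finite _
    (((Set.finite_range z).union (Set.finite_range lam)).insert 1)
  have h1 := free_transfer 𝒰 hL y V (Submodule.subset_span (Set.mem_insert _ _)) (by
    intro i t
    refine Submodule.add_mem _ (Submodule.subset_span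
      (Set.mem_insert_of_mem _ (Or.inl ⟨i, rfl⟩))) (Submodule.sum_mem _ fun k _ =>
        Submodule.smul_mem _ _ (Submodule.subset_span
          (Set.mem_insert_of_mem _ (Or.inr ⟨k, rfl⟩))))) hfree
  obtain ⟨t, ht⟩ := h1.exists
  exact t.2 ht

end Pool.Agent.R350
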