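import Pool.Agent.R350.HB
import Pool.Agent.R350.GV

/-!
# Generic combinations: relations which are linear in arbitrary elements
-/

set_option autoImplicit false

namespace Pool.Agent.R350

open Module MvPolynomial

section

variable {κ C : Type} [Field κ] [Field C] [Algebra κ C]

/-- `1` and the `y i` are linearly independent, and there are no relations of degree at most `D` in
`y` which are linear in further elements of `L` independent of `1` and `y` -/
def Gen1 (L : Submodule κ C) (D : ℕ) {n : ℕ} (y : Fin n → C) : Prop :=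
  LinearIndependent κ (fun o : Option (Fin n) => o.elim 1 y) ∧
  ∀ (s : ℕ) (l : Fin s → C), (∀ j, l j ∈ L) →
    LinearIndependent κ (fun o : Option (Fin n ⊕ Fin s) => o.elim 1 (Sum.elim y l)) →
    ∀ P : MvPolynomial (Fin n ⊕ Fin s) κ, (∀ i, P.degreeOf (Sum.inl i) ≤ D) →
      (∀ β ∈ P.support, ∑ j, β (Sum.inr j) ≤ 1) → aeval (Sum.elim y l) P = 0 → P = 0

theorem gen1_of_free {L : Submodule κ C} {D E n : ℕ} (hDE : D ≤ E + 1) {y : Fin n → C}
    (h1L : (1 : C) ∈ L) (hyL : ∀ i, y i ∈ L)
    (h : FreeT (E + 1) L (Submodule.span κ {(1 : C)}) y) : Gen1 L D y := by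
  refine ⟨?_, fun s l hl hli P hP1 hP2 h0 => ?_⟩
  · rw [Fintype.linearIndependent_iff]
    intro g hg
    rw [Fintype.sum_option] at hg
    simp only [Option.elim] at hg
    have h1 := h.indep_mod (Submodule.mem_span_singleton_self _) (fun i => g (some i)) (by
      have h2 : ∑ i, g (some i) • y i = -(g none • (1 : C)) := by
        linear_combination hg
      rw [h2]
      exact Submodule.neg_mem _ (Submodule.smul_mem _ _ (Submodule.mem_span_singleton_self _)))
    intro o
    rcases o with _ | i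
    · rw [Finset.sum_eq_zero (fun i _ => by rw [h1 i, zero_smul]), add_zero] at hg
      exact (smul_eq_zero.1 hg).resolve_right one_ne_zero
    · exact h1 i
  · refine h.lin_poly h1L hyL l hl ?_ P (fun i => (hP1 i).trans hDE) hP2 h0
    intro c0 b c hc j
    exact Fintype.linearIndependent_iff.1 hli
      (fun o => o.elim c0 (Sum.elim b c)) (by
        rw [Fintype.sum_option, Fintype.sum_sum_type]
        simp only [Option.elim, Sum.elim_inl, Sum.elim_inr]
        rw [← hc]
        ring) (some (Sum.inr j))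

/-- the condition on the combined elements -/
theorem li_option {N : ℕ} {l : Fin N → C}
    (h : LinearIndependent κ (fun o : Option (Fin N) => o.elim 1 l)) :
    ∀ (c : Fin N → κ) (c0 : κ), ∑ k, c k • l k = c0 • (1 : C) → ∀ k, c k = 0 := by
  intro c c0 hc k
  exact Fintype.linearIndependent_iff.1 h (fun o => o.elim (-c0) c) (by
    rw [Fintype.sum_option]
    simp only [Option.elim]
    rw [hc, neg_smul, neg_add_cancel]) (some k)

/-- **Generic combinations.** -/
theorem gen1_generic [CharZero κ] [CharZero C] {L : Submodule κ C} (hL : HypV 0 L)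
    (h1L : (1 : C) ∈ L) (D n N : ℕ) (hD : 1 ≤ D) (hN : ((D + 2) * (D + 1) ^ (n - 1)) ^ 2 < N)
    (z : Fin n → C) (hz : ∀ i, z i ∈ L) (l : Fin N → C) (hl : ∀ k, l k ∈ L)
    (hli : LinearIndependent κ (fun o : Option (Fin N) => o.elim 1 l)) :
    ∃ Δ : MvPolynomial (Fin n × Fin N) κ, Δ ≠ 0 ∧ ∀ b : Fin n × Fin N → κ,
      MvPolynomial.eval b Δ ≠ 0 → Gen1 L D (fun i => z i + ∑ k, b (i, k) • l k) := by
  obtain ⟨E, rfl⟩ : ∃ E, D = E + 1 := ⟨D - 1, by omega⟩
  have hfd : FiniteDimensional κ (Submodule.span κ {(1 : C)}) :=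
    FiniteDimensional.span_of_finite _ (Set.finite_singleton _)
  obtain ⟨Δ, h1, h2⟩ := free_generic hL h1L (E + 1) n 1 N (Submodule.span κ {(1 : C)})
    (Submodule.mem_span_singleton_self _) (finrank_span_one _ _) z hz l hl (li_option hli) (by
      rintro n' rfl
      rw [mul_one, add_zero]
      rw [Nat.add_sub_cancel] at hN
      nlinarith [hN])
  refine ⟨Δ, h1, fun b hb => gen1_of_free le_rfl h1L (fun i => L.add_mem (hz i)
    (Submodule.sum_mem _ fun k _ => L.smul_mem _ (hl k))) (h2 b hb)⟩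

/-- the number of elements needed for relations with coefficients in a space of dimension `m` -/
def bigN (n D m v : ℕ) : ℕ :=
  (D + 3) * (D + 2) ^ n * ((m + 1) * (m + 1 + v) * (m + 1) + 1) *
    ((D + 3) * (D + 2) ^ n * ((m + 1) * (m + 1 + v) * (m + 1) + 1) + v)

theorem bigN_bound {n D E m m' v n' : ℕ} (hE : E ≤ D + 1) (hm : m' ≤ (m + 1) * (m + 1 + v) *
    (m + 1) + 1) (hn : n = n' + 1) :
    (E + 2) * (E + 1) ^ n' * m' * ((E + 2) * (E + 1) ^ n' * m' + v) ≤ bigN n D m v := by
  subst hn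
  have h1 : (E + 2) * (E + 1) ^ n' * m' ≤
      (D + 3) * (D + 2) ^ (n' + 1) * ((m + 1) * (m + 1 + v) * (m + 1) + 1) := by
    refine Nat.mul_le_mul (Nat.mul_le_mul (by omega) ?_) hm
    exact (Nat.pow_le_pow_left (by omega) n').trans (Nat.pow_le_pow_right (by omega) (by omega))
  exact Nat.mul_le_mul h1 (Nat.add_le_add_right h1 v)

/-- **Generic combinations, relations with coefficients in an arbitrary finite dimensional
space.** -/
theorem generic_lin {κ C : Type} [Field κ] [CharZero κ] [Field C] [CharZero C] [Algebra κ C]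
    {v : ℕ} {L : Submodule κ C} (hL : HypV v L)
    (h1L : (1 : C) ∈ L) (D n m N : ℕ) (hN : bigN n D m v < N) (W : Submodule κ C)
    [Module.Finite κ W] (hW : finrank κ W ≤ m)
    (z : Fin n → C) (hz : ∀ i, z i ∈ L) (l : Fin N → C) (hl : ∀ k, l k ∈ L)
    (hli : LinearIndependent κ (fun o : Option (Fin N) => o.elim 1 l)) :
    ∃ Δ : MvPolynomial (Fin n × Fin N) κ, Δ ≠ 0 ∧ ∀ b : Fin n × Fin N → κ,
      MvPolynomial.eval b Δ ≠ 0 →
        NoRel' L W (exSp L W) D (fun i => z i + ∑ k, b (i, k) • l k) := by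
  have hE : FiniteDimensional κ (W ⊔ Submodule.span κ {(1 : C)} : Submodule κ C) := inferInstance
  have hEr : finrank κ (W ⊔ Submodule.span κ {(1 : C)} : Submodule κ C) ≤ m + 1 :=
    (Submodule.finrank_add_le_finrank_add_finrank _ _).trans
      (Nat.add_le_add hW (finrank_span_one κ C))
  obtain ⟨hF, hFr, -, -⟩ := exSp_bound hL h1L W hW
  have hm1 : m + 1 ≤ (m + 1) * (m + 1 + v) * (m + 1) + 1 := by
    refine Nat.le_succ_of_le ?_
    calc m + 1 = (m + 1) * 1 * 1 := by ring
      _ ≤ (m + 1) * (m + 1 + v) * (m + 1) :=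
        Nat.mul_le_mul (Nat.mul_le_mul le_rfl (by omega)) (by omega)
  obtain ⟨Δ₁, h1, h2⟩ := free_generic hL h1L D n (m + 1) N (W ⊔ Submodule.span κ {(1 : C)})
    (Submodule.mem_sup_right (Submodule.mem_span_singleton_self _)) hEr z hz l hl
    (li_option hli) (fun n' hn => lt_of_le_of_lt (bigN_bound (by omega) hm1 hn) hN)
  obtain ⟨Δ₂, h3, h4⟩ := free_generic hL h1L (0 + 1) n _ N (exSp L W)
    (Submodule.mem_sup_right (Submodule.mem_span_singleton_self _)) hFr z hz l hl
    (li_option hli) (fun n' hn => lt_of_le_of_lt (bigN_bound (by omega) le_rfl hn) hN)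
  refine ⟨Δ₁ * Δ₂, mul_ne_zero h1 h3, fun b hb => ?_⟩
  rw [map_mul] at hb
  exact noRel_of_free h1L (fun i => L.add_mem (hz i)
    (Submodule.sum_mem _ fun k _ => L.smul_mem _ (hl k))) (h2 b (left_ne_zero_of_mul hb))
    (h4 b (right_ne_zero_of_mul hb))

end

end Pool.Agent.R350
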