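import Pool.Agent.R350.GY

/-!
# Free tuples and derivations, general form
-/

set_option autoImplicit false

namespace Pool.Agent.R350

open Module Finset

section

variable {k A : Type*} [Field k] [Field A] [Algebra k A]

/-- **Generic tuples are free.** -/
theorem free_of_der' [CharZero A] {L : Submodule k A} {v N : ℕ} (hL : HypV v L) (E : ℕ) :
    ∀ (n m : ℕ) (Ω : Submodule k A), FiniteDimensional k Ω → (1 : A) ∈ Ω → finrank k Ω ≤ m →
      ∀ (lam : Fin n → Fin N → A)
      (D : Fin n → Fin N → Derivation ℤ A A) (y : Fin n → A), (∀ i, y i ∈ L) →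
      (∀ i, DSys L (lam i) (D i)) → (∀ i k, ∀ w ∈ Ω, D i k w ∈ Ω) →
      (∀ i k j, D i k (y j) = if i = j then lam i k else 0) →
      (∀ n', n = n' + 1 → (E + 2) * (E + 1) ^ n' * m * ((E + 2) * (E + 1) ^ n' * m + v) < N) →
      FreeT E L Ω y := by
  intro n
  induction n with
  | zero =>
    intro m Ω _ _ _ lam D y _ _ _ _ _
    exact FreeT.nil E L Ω y
  | succ n ih =>
    intro m Ω hfd h1Ω hm lam D y hyL HD hΩ hy hN
    have hN' := hN n rfl
    have hpow : 1 ≤ (E + 1) ^ n := Nat.one_le_pow _ _ (by omega)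
    have hE : (E + 2) * finrank k Ω * ((E + 2) * finrank k Ω + v) < N := by
      refine lt_of_le_of_lt ?_ hN'
      have h1 : (E + 2) * finrank k Ω ≤ (E + 2) * (E + 1) ^ n * m := by
        calc (E + 2) * finrank k Ω ≤ (E + 2) * m := Nat.mul_le_mul_left _ hm
          _ = (E + 2) * 1 * m := by ring
          _ ≤ (E + 2) * (E + 1) ^ n * m :=
            Nat.mul_le_mul_right _ (Nat.mul_le_mul_left _ hpow)
      exact Nat.mul_le_mul h1 (Nat.add_le_add_right h1 v)
    have hE' : (E + 1) * finrank k Ω * ((E + 1) * finrank k Ω + v) < N :=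
      lt_of_le_of_lt (by gcongr <;> omega) hE
    have hy0 : ∀ k, D 0 k (y 0) = lam 0 k := fun k => by rw [hy, if_pos rfl]
    have hGD := gd_of_der (HD 0) hL Ω (hΩ 0) hy0 h1Ω E hE
    have hfree := mon_li (HD 0) hL Ω (hΩ 0) hy0 E hE'
    obtain ⟨hfd', hb⟩ := polyU_bound (y 0) Ω (E + 1)
    have h2 := ih ((E + 1) * m) (polyU (y 0) Ω (E + 1)) hfd' (polyU_one_mem h1Ω E)
      (hb.trans (Nat.mul_le_mul_left _ hm)) (fun i => lam i.succ) (fun i => D i.succ)
      (fun i => y i.succ) (fun i => hyL _) (fun i => HD _) (by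
        rintro i k _ ⟨u, hu, rfl⟩
        rw [map_sum]
        refine Submodule.sum_mem _ fun j hj => ?_
        rw [(D i.succ k).leibniz, smul_eq_mul, smul_eq_mul, der_pow, hy,
          if_neg (Fin.succ_ne_zero i), mul_zero, mul_zero, add_zero]
        exact pow_mul_mem_polyU _ _ (Finset.mem_range.1 hj) (hΩ _ _ _ (hu j)))
      (by
        intro i k j
        rw [hy]
        by_cases hij : i = j
        · rw [if_pos hij, if_pos (by rw [hij])]
        · rw [if_neg hij, if_neg (fun h => hij (Fin.succ_injective _ h))])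
      (by
        rintro n' rfl
        have h3 : (E + 2) * (E + 1) ^ n' * ((E + 1) * m) = (E + 2) * (E + 1) ^ (n' + 1) * m := by
          rw [pow_succ]; ring
        rw [h3]
        exact hN')
    have h3 := FreeT.cons' (HD 0).h1L (hyL 0) (fun i => hyL i.succ) h1Ω hGD hfree h2
    have h4 : (Fin.cons (y 0) (fun i => y i.succ) : Fin (n + 1) → A) = y := by
      funext i
      refine Fin.cases ?_ (fun i => ?_) i
      · rw [Fin.cons_zero]
      · rw [Fin.cons_succ]
    rwa [h4] at h3

end

end Pool.Agent.R350
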