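import Pool.Agent.R350.HD
import Pool.Agent.R350.HB

/-!
# Combinations outside sets of small dimension are free
-/

set_option autoImplicit false

namespace Pool.Agent.R350

open Module Filter

section

variable {k A : Type*} [Field k] [Field A] [Algebra k A]

/-- kernels of coordinates -/
theorem exists_kernel {n N s M : ℕ} (hs : (n - 1) * N + M ≤ s) (c : Fin s → Fin n × Fin N → k)
    (i : Fin n) : ∃ a : Fin M → Fin s → k, LinearIndependent k a ∧
      ∀ q, ∀ j, j ≠ i → ∀ l, ∑ m, a q m * c m (j, l) = 0 := by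
  classical
  let T : (Fin s → k) →ₗ[k] ({j : Fin n // j ≠ i} × Fin N → k) :=
    { toFun := fun a x => ∑ m, a m * c m (x.1.1, x.2)
      map_add' := fun a b => by
        funext x
        simp only [Pi.add_apply, add_mul, Finset.sum_add_distrib]
      map_smul' := fun r a => by
        funext x
        simp only [Pi.smul_apply, smul_eq_mul, RingHom.id_apply, Finset.mul_sum, mul_assoc] }
  have h1 := LinearMap.finrank_range_add_finrank_ker T
  have h2 : finrank k (LinearMap.range T) ≤ (n - 1) * N := by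
    refine (Submodule.finrank_le _).trans ?_
    rw [Module.finrank_fintype_fun_eq_card, Fintype.card_prod, Fintype.card_fin,
      Fintype.card_subtype_compl, Fintype.card_fin, Fintype.card_subtype_eq]
  rw [Module.finrank_fintype_fun_eq_card, Fintype.card_fin] at h1
  have h3 : M ≤ finrank k (LinearMap.ker T) := by omega
  let B := Module.finBasis k (LinearMap.ker T)
  refine ⟨fun q => ((B (Fin.castLE h3 q) : LinearMap.ker T) : Fin s → k), ?_, ?_⟩
  · exact (B.linearIndependent.map' (LinearMap.ker T).subtype (Submodule.ker_subtype _)).comp _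
      (Fin.castLE_injective h3)
  · intro q j hj l
    have h4 := (B (Fin.castLE h3 q)).2
    rw [LinearMap.mem_ker] at h4
    exact congrFun h4 (⟨j, hj⟩, l)

theorem free_of_forms [CharZero A] {L : Submodule k A} {v : ℕ} (hL : HypV v L)
    (h1L : (1 : A) ∈ L) (E n m N s M : ℕ) (Ω : Submodule k A) [FiniteDimensional k Ω]
    (h1Ω : (1 : A) ∈ Ω) (hm : finrank k Ω ≤ m) (hs : (n - 1) * N + M ≤ s)
    (hM : ∀ n', n = n' + 1 → (E + 2) * (E + 1) ^ n' * m * ((E + 2) * (E + 1) ^ n' * m + v) < M)
    (z : Fin n → A) (hz : ∀ i, z i ∈ L) (lam : Fin N → A) (hlam : ∀ l, lam l ∈ L)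
    (hli : ∀ (c : Fin N → k) (c0 : k), ∑ l, c l • lam l = c0 • (1 : A) → ∀ l, c l = 0)
    (β : Fin n × Fin N → k) (D : Fin s → Derivation ℤ A A)
    (hDL : ∀ q, ∀ l ∈ L, D q l ∈ L) (hDΩ : ∀ q, ∀ w ∈ Ω, D q w ∈ Ω)
    (hDz : ∀ q i, D q (z i) = 0) (hDlam : ∀ q l, D q (lam l) = 0)
    (c : Fin s → Fin n × Fin N → k) (hDβ : ∀ q x, D q (algebraMap k A (β x)) =
      algebraMap k A (c q x))
    (φ : Fin s → Fin n × Fin N → k)
    (hφ : ∀ q q', ∑ x, φ q' x * c q x = if q' = q then 1 else 0) :
    FreeT E L Ω (fun i => z i + ∑ l, β (i, l) • lam l) := by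
  classical
  choose a ha1 ha2 using fun i => exists_kernel hs c i
  let D' : Fin n → Fin M → Derivation ℤ A A := fun i r => ∑ q, a i r q • D q
  let u : Fin n → Fin M → Fin n × Fin N → k := fun i r x => ∑ q, a i r q * c q x
  let lam' : Fin n → Fin M → A := fun i r => ∑ l, u i r (i, l) • lam l
  have hD' : ∀ i r w, D' i r w = ∑ q, a i r q • D q w := by
    intro i r w
    simp only [D']
    have : ∀ T : Finset (Fin s), (∑ q ∈ T, a i r q • D q : Derivation ℤ A A) w =
        ∑ q ∈ T, a i r q • D q w := by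
      intro T
      induction T using Finset.induction_on with
      | empty => simp
      | insert q T hq ih =>
        rw [Finset.sum_insert hq, Finset.sum_insert hq, Derivation.add_apply,
          Derivation.smul_apply, ih]
    exact this _
  have hDy : ∀ q j, D q (z j + ∑ l, β (j, l) • lam l) = ∑ l, c q (j, l) • lam l := by
    intro q j
    rw [map_add, hDz, zero_add, map_sum]
    refine Finset.sum_congr rfl fun l _ => ?_
    rw [Algebra.smul_def, (D q).leibniz, hDlam, hDβ, smul_zero, zero_add, smul_eq_mul,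
      Algebra.smul_def, mul_comm]
  refine free_of_der' hL E n m Ω inferInstance h1Ω hm lam' D' _ ?_ ?_ ?_ ?_ hM
  · intro i
    exact L.add_mem (hz i) (Submodule.sum_mem _ fun l _ => L.smul_mem _ (hlam l))
  · intro i
    refine ⟨h1L, fun r => Submodule.sum_mem _ fun l _ => L.smul_mem _ (hlam l), ?_, ?_⟩
    · intro r l hl
      rw [hD']
      exact Submodule.sum_mem _ fun q _ => L.smul_mem _ (hDL q l hl)
    · intro e e0 he
      have h1 : ∑ l, (∑ r, e r * u i r (i, l)) • lam l = e0 • (1 : A) := by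
        rw [← he]
        simp only [lam', Finset.sum_smul, Finset.smul_sum]
        rw [Finset.sum_comm]
        exact Finset.sum_congr rfl fun r _ => Finset.sum_congr rfl fun l _ => by rw [mul_smul]
      have h2 := hli _ _ h1
      have h3 : ∀ x, ∑ q, (∑ r, e r * a i r q) * c q x = 0 := by
        intro x
        have h4 : ∑ q, (∑ r, e r * a i r q) * c q x = ∑ r, e r * u i r x := by
          simp only [u, Finset.sum_mul, Finset.mul_sum]
          rw [Finset.sum_comm]
          exact Finset.sum_congr rfl fun r _ => Finset.sum_congr rfl fun q _ => by ring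
        rw [h4]
        obtain ⟨j, l⟩ := x
        by_cases hj : j = i
        · subst hj
          exact h2 l
        · refine Finset.sum_eq_zero fun r _ => ?_
          have h5 : u i r (j, l) = 0 := ha2 i r j hj l
          rw [h5, mul_zero]
      have h6 : ∀ q, ∑ r, e r * a i r q = 0 := by
        intro q
        have h7 : ∑ x, φ q x * (∑ q', (∑ r, e r * a i r q') * c q' x) = 0 :=
          Finset.sum_eq_zero fun x _ => by rw [h3, mul_zero]
        have h8 : ∑ x, φ q x * (∑ q', (∑ r, e r * a i r q') * c q' x) =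
            ∑ q', (∑ r, e r * a i r q') * ∑ x, φ q x * c q' x := by
          simp only [Finset.mul_sum]
          rw [Finset.sum_comm]
          exact Finset.sum_congr rfl fun q' _ => Finset.sum_congr rfl fun x _ => by ring
        rw [h8] at h7
        simp only [hφ, mul_ite, mul_one, mul_zero] at h7
        rwa [Finset.sum_ite_eq Finset.univ q, if_pos (Finset.mem_univ _)] at h7
      refine Fintype.linearIndependent_iff.1 (ha1 i) e ?_
      funext q
      rw [Finset.sum_apply, Pi.zero_apply, ← h6 q]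
      exact Finset.sum_congr rfl fun r _ => rfl
  · intro i r w hw
    rw [hD']
    exact Submodule.sum_mem _ fun q _ => Ω.smul_mem _ (hDΩ q w hw)
  · intro i r j
    rw [hD']
    simp only [hDy]
    have h1 : ∑ q, a i r q • ∑ l, c q (j, l) • lam l = ∑ l, u i r (j, l) • lam l := by
      simp only [u, Finset.smul_sum, Finset.sum_smul]
      rw [Finset.sum_comm]
      exact Finset.sum_congr rfl fun r _ => Finset.sum_congr rfl fun l _ => by rw [mul_smul]
    rw [h1]
    by_cases hij : i = j
    · subst hij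
      rw [if_pos rfl]
    · rw [if_neg hij]
      refine Finset.sum_eq_zero fun l _ => ?_
      have h5 : u i r (j, l) = 0 := ha2 i r j (Ne.symm hij) l
      rw [h5, zero_smul]

end

/-- **Combinations outside sets of small dimension are free.** -/
theorem free_dim {κ C : Type} [Field κ] [CharZero κ] [Field C] [CharZero C] [Algebra κ C]
    {v : ℕ} {L : Submodule κ C} (hL : HypV v L) (h1L : (1 : C) ∈ L) (E n m N s M : ℕ)
    (hs : (n - 1) * N + M ≤ s)
    (hM : ∀ n', n = n' + 1 → (E + 2) * (E + 1) ^ n' * m * ((E + 2) * (E + 1) ^ n' * m + v) < M)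
    (Ω : Submodule κ C) [FiniteDimensional κ Ω] (h1Ω : (1 : C) ∈ Ω) (hm : finrank κ Ω ≤ m)
    (z : Fin n → C) (hz : ∀ i, z i ∈ L) (lam : Fin N → C) (hlam : ∀ k, lam k ∈ L)
    (hli : ∀ (c : Fin N → κ) (c0 : κ), ∑ k, c k • lam k = c0 • (1 : C) → ∀ k, c k = 0)
    (φ : Fin s → Fin n × Fin N → κ) :
    ∃ Δ : MvPolynomial (Fin s) κ, Δ ≠ 0 ∧ ∀ b : Fin n × Fin N → κ,
      MvPolynomial.eval (fun q => ∑ x, φ q x * b x) Δ ≠ 0 →
        FreeT E L Ω (fun i => z i + ∑ k, b (i, k) • lam k) := by
  classical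
  by_contra hcon
  push Not at hcon
  let ι : Type := {b : Fin n × Fin N → κ // ¬ FreeT E L Ω (fun i => z i + ∑ k, b (i, k) • lam k)}
  obtain ⟨𝒰, hgen⟩ := exists_ultra_gen (ι := ι) (fun b (q : Fin s) => ∑ x, φ q x * b.1 x) (by
    intro P hP
    obtain ⟨b, h1, h2⟩ := hcon P hP
    exact ⟨⟨b, h2⟩, h1⟩)
  have hch1 : CharZero (UP 𝒰 κ) := charZero_UP 𝒰
  have hch2 : CharZero (UP 𝒰 C) := charZero_UP 𝒰
  choose D hD1 hD2 hD3 using fun q => exists_der_U (C := C) 𝒰
    (fun q (b : ι) => ∑ x, φ q x * b.1 x) hgen q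
  have hDLU : ∀ (q : Fin s) (W : Submodule κ C), ∀ w ∈ LU 𝒰 W, D q w ∈ LU 𝒰 W := by
    intro q W w hw
    refine Submodule.span_induction (p := fun w _ => D q w ∈ LU 𝒰 W) ?_ ?_ ?_ ?_ hw
    · rintro _ ⟨z, hz, rfl⟩
      rw [hD2]
      exact Submodule.zero_mem _
    · rw [map_zero]
      exact Submodule.zero_mem _
    · intro a b _ _ ha hb
      rw [map_add]
      exact Submodule.add_mem _ ha hb
    · intro c a ha' ha
      obtain ⟨c', hc'⟩ := hD1 q c
      rw [Algebra.smul_def, (D q).leibniz, hc', smul_eq_mul, smul_eq_mul, mul_comm a,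
        ← Algebra.smul_def, ← Algebra.smul_def]
      exact Submodule.add_mem _ (Submodule.smul_mem _ _ ha) (Submodule.smul_mem _ _ ha')
  set y : Fin n → ι → C := fun i b => z i + ∑ k, b.1 (i, k) • lam k with hy
  have hyU : ∀ i, gr 𝒰 C (y i) = cst 𝒰 C (z i) +
      ∑ k, gr 𝒰 κ (fun b : ι => b.1 (i, k)) • cst 𝒰 C (lam k) := by
    intro i
    simp only [cst_apply, gr_smul, ← map_sum, ← map_add]
    congr 1
    funext b
    simp only [hy, Pi.add_apply, Finset.sum_apply]
  choose c hc using fun q x => hD1 q (gr 𝒰 κ (fun b : ι => b.1 x))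
  have hfdU := LU_finrank 𝒰 (L := Ω)
  have hfdU1 := hfdU.1
  have hfree := free_of_forms (hypV_U 𝒰 hL) (by rw [← map_one (cst 𝒰 C)]; exact cst_mem 𝒰 h1L)
    E n m N s M (LU 𝒰 Ω) (by rw [← map_one (cst 𝒰 C)]; exact cst_mem 𝒰 h1Ω)
    (hfdU.2.trans hm) hs hM (fun i => cst 𝒰 C (z i)) (fun i => cst_mem 𝒰 (hz i))
    (fun k => cst 𝒰 C (lam k)) (fun k => cst_mem 𝒰 (hlam k)) (by
      intro c c0 h
      choose cf hcf using fun k => gr_surj 𝒰 (c k)
      obtain ⟨c0f, hc0f⟩ := gr_surj 𝒰 c0
      have h1 : gr 𝒰 C (∑ k, fun t => cf k t • lam k) = gr 𝒰 C (fun t => c0f t • (1 : C)) := by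
        rw [map_sum]
        have h2 : gr 𝒰 C (fun t => c0f t • (1 : C)) = c0 • (1 : UP 𝒰 C) := by
          rw [← hc0f, ← map_one (cst 𝒰 C), cst_apply, gr_smul]
        rw [h2, ← h]
        refine Finset.sum_congr rfl fun k _ => ?_
        rw [← hcf, cst_apply, gr_smul]
      rw [gr_eq] at h1
      intro k
      rw [← hcf k, gr_eq_zero]
      refine h1.mono fun t ht => ?_
      rw [Finset.sum_apply] at ht
      exact hli (fun k => cf k t) (c0f t) ht k)
    (fun x => gr 𝒰 κ (fun b : ι => b.1 x)) D (fun q l hl => hDLU q L l hl)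
    (fun q w hw => hDLU q Ω w hw) (fun q i => hD2 q _) (fun q l => hD2 q _) c hc
    (fun q x => cst 𝒰 κ (φ q x)) (by
      intro q q'
      have h1 := hD3 q q'
      have h2 : algebraMap (UP 𝒰 κ) (UP 𝒰 C) (gr 𝒰 κ (fun b : ι => ∑ x, φ q' x * b.1 x)) =
          ∑ x, cst 𝒰 C (algebraMap κ C (φ q' x)) *
            algebraMap (UP 𝒰 κ) (UP 𝒰 C) (gr 𝒰 κ (fun b : ι => b.1 x)) := by
        simp only [algebraMap_gr, cst_apply, ← map_mul, ← map_sum]
        congr 1
        funext b
        simp only [Finset.sum_apply, Pi.mul_apply, map_sum, map_mul]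
      rw [h2, map_sum] at h1
      have h3 : ∀ x, D q (cst 𝒰 C (algebraMap κ C (φ q' x)) *
          algebraMap (UP 𝒰 κ) (UP 𝒰 C) (gr 𝒰 κ (fun b : ι => b.1 x))) =
          algebraMap (UP 𝒰 κ) (UP 𝒰 C) (cst 𝒰 κ (φ q' x) * c q x) := by
        intro x
        rw [(D q).leibniz, hD2, hc, smul_zero, add_zero, smul_eq_mul, map_mul]
        rfl
      simp only [h3] at h1
      apply (algebraMap (UP 𝒰 κ) (UP 𝒰 C)).injective
      rw [map_sum, h1, apply_ite (algebraMap (UP 𝒰 κ) (UP 𝒰 C)), map_one, map_zero])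
  simp only [← hyU] at hfree
  set V : Submodule κ C := Submodule.span κ (insert 1 (Set.range z ∪ Set.range lam)) with hV
  have hVfd : FiniteDimensional κ V := FiniteDimensional.span_of_finite _
    (((Set.finite_range z).union (Set.finite_range lam)).insert 1)
  have h1 := free_transfer 𝒰 hL y V (Submodule.subset_span (Set.mem_insert _ _)) (by
    intro i t
    refine Submodule.add_mem _ (Submodule.subset_span
      (Set.mem_insert_of_mem _ (Or.inl ⟨i, rfl⟩))) (Submodule.sum_mem _ fun k _ =>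
        Submodule.smul_mem _ _ (Submodule.subset_span
          (Set.mem_insert_of_mem _ (Or.inr ⟨k, rfl⟩))))) hfree
  obtain ⟨t, ht⟩ := h1.exists
  exact t.2 ht

end Pool.Agent.R350
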