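import Pool.Agent.R350.HE

/-!
# Internal subspaces of ultrapowers and bounds for degrees
-/

set_option autoImplicit false

namespace Pool.Agent.R350

open Module Filter

section

variable {ι : Type} (𝒰 : Ultrafilter ι) {κ C : Type} [Field κ] [Field C] [Algebra κ C]

/-- internal subspaces -/
noncomputable def IU (W : ι → Submodule κ C) : Submodule (UP 𝒰 κ) (UP 𝒰 C) where
  carrier := {z | ∃ f : ι → C, (∀ t, f t ∈ W t) ∧ gr 𝒰 C f = z}
  add_mem' := by
    rintro _ _ ⟨f, hf, rfl⟩ ⟨g, hg, rfl⟩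
    exact ⟨f + g, fun t => (W t).add_mem (hf t) (hg t), map_add _ _ _⟩
  zero_mem' := ⟨0, fun t => (W t).zero_mem, map_zero _⟩
  smul_mem' := by
    rintro c _ ⟨f, hf, rfl⟩
    obtain ⟨a, rfl⟩ := gr_surj 𝒰 c
    exact ⟨fun t => a t • f t, fun t => (W t).smul_mem _ (hf t), (gr_smul 𝒰 a f).symm⟩

theorem mem_IU {W : ι → Submodule κ C} {f : ι → C} (hf : ∀ t, f t ∈ W t) :
    gr 𝒰 C f ∈ IU 𝒰 W := ⟨f, hf, rfl⟩

theorem IU_rep {W : ι → Submodule κ C} {z : UP 𝒰 C} (hz : z ∈ IU 𝒰 W) :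
    ∃ f : ι → C, (∀ t, f t ∈ W t) ∧ gr 𝒰 C f = z := hz

theorem one_mem_IU {W : ι → Submodule κ C} (h : ∀ t, (1 : C) ∈ W t) : (1 : UP 𝒰 C) ∈ IU 𝒰 W := by
  rw [← map_one (gr 𝒰 C)]
  exact mem_IU 𝒰 h

/-- generators -/
theorem exists_gens (W : Submodule κ C) [FiniteDimensional κ W] {m : ℕ} (h : finrank κ W ≤ m) :
    ∃ b : Fin m → C, (∀ u, b u ∈ W) ∧ W ≤ Submodule.span κ (Set.range b) := by
  classical
  let B := Module.finBasis κ W
  refine ⟨fun u => if hu : (u : ℕ) < finrank κ W then ((B ⟨u, hu⟩ : W) : C) else 0, ?_, ?_⟩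
  · intro u
    dsimp only
    split_ifs
    · exact Submodule.coe_mem _
    · exact W.zero_mem
  · intro w hw
    have h1 := congrArg (fun z : W => (z : C)) (B.sum_repr ⟨w, hw⟩)
    simp only [Submodule.coe_sum, Submodule.coe_smul] at h1
    rw [← h1]
    refine Submodule.sum_mem _ fun u _ => Submodule.smul_mem _ _ (Submodule.subset_span
      ⟨⟨u, lt_of_lt_of_le u.2 h⟩, ?_⟩)
    dsimp only
    rw [dif_pos u.2]

theorem IU_finrank {W : ι → Submodule κ C} (hfd : ∀ t, FiniteDimensional κ (W t)) {m : ℕ}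
    (h : ∀ t, finrank κ (W t) ≤ m) :
    FiniteDimensional (UP 𝒰 κ) (IU 𝒰 W) ∧ finrank (UP 𝒰 κ) (IU 𝒰 W) ≤ m := by
  classical
  choose b hb1 hb2 using fun t => @exists_gens κ C _ _ _ (W t) (hfd t) m (h t)
  have h1 : IU 𝒰 W ≤ Submodule.span (UP 𝒰 κ) (Set.range fun u => gr 𝒰 C (fun t => b t u)) := by
    rintro _ ⟨f, hf, rfl⟩
    choose c hc using fun t => (Submodule.mem_span_range_iff_exists_fun κ).1 (hb2 t (hf t))
    have h2 : gr 𝒰 C f = ∑ u, gr 𝒰 κ (fun t => c t u) • gr 𝒰 C (fun t => b t u) := by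
      simp only [gr_smul]
      rw [← map_sum]
      congr 1
      funext t
      rw [Finset.sum_apply]
      exact (hc t).symm
    rw [h2]
    exact Submodule.sum_mem _ fun u _ => Submodule.smul_mem _ _ (Submodule.subset_span ⟨u, rfl⟩)
  have h2 : FiniteDimensional (UP 𝒰 κ)
      (Submodule.span (UP 𝒰 κ) (Set.range fun u => gr 𝒰 C (fun t => b t u))) :=
    FiniteDimensional.span_of_finite _ (Set.finite_range _)
  refine ⟨Submodule.finiteDimensional_of_le h1, (Submodule.finrank_mono h1).trans ?_⟩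
  have h3 := finrank_range_le_card (R := UP 𝒰 κ) (fun u => gr 𝒰 C (fun t => b t u))
  rwa [Fintype.card_fin] at h3

theorem IU_mul {W L : ι → Submodule κ C} (hfd : ∀ t, FiniteDimensional κ (W t)) {m : ℕ}
    (h : ∀ t, finrank κ (W t) ≤ m) {f : ι → C} (hf : ∀ t, f t ∈ W t * L t) :
    gr 𝒰 C f ∈ IU 𝒰 W * IU 𝒰 L := by
  classical
  choose b hb1 hb2 using fun t => @exists_gens κ C _ _ _ (W t) (hfd t) m (h t)
  choose ℓ hℓ hfℓ using fun t => exists_coords (b t) (hb2 t) (hf t)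
  have h2 : gr 𝒰 C f = ∑ u, gr 𝒰 C (fun t => b t u) * gr 𝒰 C (fun t => ℓ t u) := by
    simp only [← map_mul]
    rw [← map_sum]
    congr 1
    funext t
    rw [Finset.sum_apply]
    exact hfℓ t
  rw [h2]
  exact Submodule.sum_mem _ fun u _ => Submodule.mul_mem_mul (mem_IU 𝒰 fun t => hb1 t u)
    (mem_IU 𝒰 fun t => hℓ t u)

/-- the hyperplane property of the ultraproduct -/
theorem hypV_IU {v : ℕ} {L : ι → Submodule κ C} (hL : ∀ t, HypV v (L t)) : HypV v (IU 𝒰 L) := by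
  classical
  intro d l x a hx ha hxa hcol
  choose xf hxf using fun i => gr_surj 𝒰 (x i)
  choose af haf haf' using fun i j => IU_rep 𝒰 (ha i j)
  have h1 : ∀ᶠ t in (𝒰 : Filter ι), LinearIndependent κ (fun (i : Fin d) (_ : Fin 1) => xf i t) := by
    refine li_ev 𝒰 (fun i _ => xf i) ?_
    rw [Fintype.linearIndependent_iff]
    intro g hg
    refine Fintype.linearIndependent_iff.1 hx g ?_
    have h2 := congrFun hg 0
    rw [Finset.sum_apply] at h2
    simp only [Pi.smul_apply, hxf] at h2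
    exact h2
  have h2 : ∀ᶠ t in (𝒰 : Filter ι), LinearIndependent κ (fun (j : Fin l) (i : Fin d) => af i j t) := by
    refine li_ev 𝒰 (fun j i => af i j) ?_
    simp only [haf']
    exact hcol
  have h3 : ∀ᶠ t in (𝒰 : Filter ι), ∀ j, ∑ i, xf i t * af i j t = 0 := by
    rw [Filter.eventually_all]
    intro j
    have h4 : gr 𝒰 C (∑ i, xf i * af i j) = 0 := by
      rw [map_sum, ← hxa j]
      refine Finset.sum_congr rfl fun i _ => ?_
      rw [map_mul, hxf, haf']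
    rw [gr_eq_zero] at h4
    refine h4.mono fun t ht => ?_
    rw [Finset.sum_apply] at ht
    exact ht
  obtain ⟨t, ⟨ht1, ht2⟩, ht3⟩ := ((h1.and h2).and h3).exists
  refine hL t d l (fun i => xf i t) (fun i j => af i j t) ?_ (fun i j => haf i j t) ht3 ht2
  rw [Fintype.linearIndependent_iff]
  intro g hg
  refine Fintype.linearIndependent_iff.1 ht1 g ?_
  funext i
  rw [Finset.sum_apply]
  exact hg

/-- **Free tuples of the ultraproduct are free at almost all places.** -/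
theorem free_transfer' {L Ω : ι → Submodule κ C} (hfd : ∀ t, FiniteDimensional κ (Ω t)) {m : ℕ}
    (hm : ∀ t, finrank κ (Ω t) ≤ m) {n E : ℕ} (y : Fin n → ι → C)
    (hfree : FreeT E (IU 𝒰 L) (IU 𝒰 Ω) (fun i => gr 𝒰 C (y i))) :
    ∀ᶠ t in (𝒰 : Filter ι), FreeT E (L t) (Ω t) (fun i => y i t) := by
  classical
  -- the polynomial over the ultrapower attached to a family
  set U : (ι → MvPolynomial (Fin n) C) → MvPolynomial (Fin n) (UP 𝒰 C) := fun P =>
    ∑ γ ∈ box n E, MvPolynomial.monomial γ (gr 𝒰 C (fun t => (P t).coeff γ)) with hU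
  have hΘU : ∀ P : ι → MvPolynomial (Fin n) C, (∀ t i, (P t).degreeOf i ≤ E) →
      Θ 𝒰 n C (U P) = pgr 𝒰 n C P := by
    intro P hP
    simp only [hU]
    rw [Θ_sum]
    congr 1
    funext t
    exact (eq_sum_mon (support_box (hP t))).symm
  have hevU : ∀ P : ι → MvPolynomial (Fin n) C, (∀ t i, (P t).degreeOf i ≤ E) →
      MvPolynomial.eval (fun i => gr 𝒰 C (y i)) (U P) =
        gr 𝒰 C (fun t => MvPolynomial.eval (fun i => y i t) (P t)) := by
    intro P hP
    simp only [hU]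
    rw [eval_U]
    congr 1
    funext t
    rw [← eq_sum_mon (support_box (hP t))]
  have hdegU : ∀ P i, (U P).degreeOf i ≤ E := fun P i => degreeOf_box (support_sum_mon _ _) i
  have hcoefU : ∀ (P : ι → MvPolynomial (Fin n) C) (W : Submodule (UP 𝒰 κ) (UP 𝒰 C)),
      (∀ γ, gr 𝒰 C (fun t => (P t).coeff γ) ∈ W) → CoefIn W (U P) := by
    intro P W hW β
    simp only [hU]
    rw [coeff_sum_mon]
    split_ifs
    · exact hW β
    · exact W.zero_mem
  -- independence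
  have hind : ∀ᶠ t in (𝒰 : Filter ι), ∀ P : MvPolynomial (Fin n) C, (∀ i, P.degreeOf i ≤ E) →
      CoefIn (Ω t) P → MvPolynomial.eval (fun i => y i t) P = 0 → P = 0 := by
    by_contra hcon
    rw [← Ultrafilter.eventually_not] at hcon
    have h1 : ∀ t, ∃ P : MvPolynomial (Fin n) C, (∀ i, P.degreeOf i ≤ E) ∧ CoefIn (Ω t) P ∧
        MvPolynomial.eval (fun i => y i t) P = 0 ∧ ((¬ ∀ P : MvPolynomial (Fin n) C,
          (∀ i, P.degreeOf i ≤ E) → CoefIn (Ω t) P →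
            MvPolynomial.eval (fun i => y i t) P = 0 → P = 0) → P ≠ 0) := by
      intro t
      by_cases ht : ∀ P : MvPolynomial (Fin n) C, (∀ i, P.degreeOf i ≤ E) →
          CoefIn (Ω t) P → MvPolynomial.eval (fun i => y i t) P = 0 → P = 0
      · refine ⟨0, fun i => by rw [MvPolynomial.degreeOf_zero]; exact Nat.zero_le _,
          fun β => by rw [MvPolynomial.coeff_zero]; exact (Ω t).zero_mem, map_zero _,
          fun h => absurd ht h⟩
      · have ht' := ht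
        push Not at ht'
        obtain ⟨P, h1, h2, h3, h4⟩ := ht'
        exact ⟨P, h1, h2, h3, fun _ => h4⟩
    choose P hP1 hP2 hP3 hP4 using h1
    have h2 := hfree.indep (U P) (hdegU P) (hcoefU P _ fun γ =>
      mem_IU 𝒰 fun t => hP2 t γ) (by
        rw [hevU P hP1, gr_eq_zero]
        exact Filter.Eventually.of_forall hP3)
    have h3 := hΘU P hP1
    rw [h2, map_zero, ← map_zero (pgr 𝒰 n C), pgr_eq] at h3
    obtain ⟨t, ht1, ht2⟩ := (h3.and hcon).exists
    exact hP4 t ht2 ht1.symm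
  by_contra hcon
  rw [← Ultrafilter.eventually_not] at hcon
  have h1 : ∀ t, ∃ P : MvPolynomial (Fin n) C, (∀ i, P.degreeOf i ≤ E) ∧
      CoefIn (Ω t * L t) P ∧ MvPolynomial.eval (fun i => y i t) P = 0 ∧
      ((∀ P : MvPolynomial (Fin n) C, (∀ i, P.degreeOf i ≤ E) → CoefIn (Ω t) P →
        MvPolynomial.eval (fun i => y i t) P = 0 → P = 0) →
        ¬ FreeT E (L t) (Ω t) (fun i => y i t) →
        ¬ ∃ Q : Fin n → MvPolynomial (Fin n) C, (∀ i, CoefIn (Ω t) (Q i)) ∧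
          P = ∑ i, (MvPolynomial.X i - MvPolynomial.C (y i t)) * Q i) := by
    intro t
    by_cases ht : (∀ P : MvPolynomial (Fin n) C, (∀ i, P.degreeOf i ≤ E) → CoefIn (Ω t) P →
        MvPolynomial.eval (fun i => y i t) P = 0 → P = 0) ∧
        ¬ FreeT E (L t) (Ω t) (fun i => y i t)
    · obtain ⟨ht1, ht2⟩ := ht
      have h2 : ∃ P : MvPolynomial (Fin n) C, (∀ i, P.degreeOf i ≤ E) ∧ CoefIn (Ω t * L t) P ∧
          MvPolynomial.eval (fun i => y i t) P = 0 ∧
          ¬ ∃ Q : Fin n → MvPolynomial (Fin n) C, (∀ i, CoefIn (Ω t) (Q i)) ∧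
            P = ∑ i, (MvPolynomial.X i - MvPolynomial.C (y i t)) * Q i := by
        by_contra h3
        push Not at h3
        apply ht2
        refine ⟨ht1, fun P h4 h5 h6 => ?_⟩
        exact h3 P h4 h5 h6
      obtain ⟨P, h3, h4, h5, h6⟩ := h2
      exact ⟨P, h3, h4, h5, fun _ _ => h6⟩
    · refine ⟨0, fun i => by rw [MvPolynomial.degreeOf_zero]; exact Nat.zero_le _,
        fun β => by rw [MvPolynomial.coeff_zero]; exact Submodule.zero_mem _, map_zero _,
        fun h3 h4 => absurd ⟨h3, h4⟩ ht⟩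
  choose P hP1 hP2 hP3 hP4 using h1
  obtain ⟨Q, hQ, hPQ⟩ := hfree.free (U P) (hdegU P) (hcoefU P _ fun γ =>
      IU_mul 𝒰 hfd hm (f := fun t => (P t).coeff γ) fun t => hP2 t γ) (by
        rw [hevU P hP1, gr_eq_zero]
        exact Filter.Eventually.of_forall hP3)
  choose q hq hqQ using fun i γ => IU_rep 𝒰 (hQ i γ)
  set R : Fin n → ι → MvPolynomial (Fin n) C := fun i t =>
    ∑ γ ∈ (Q i).support, MvPolynomial.monomial γ (q i γ t) with hR
  have hQR : ∀ i, Θ 𝒰 n C (Q i) = pgr 𝒰 n C (R i) := by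
    intro i
    have h2 : Q i = ∑ γ ∈ (Q i).support, MvPolynomial.monomial γ (gr 𝒰 C (q i γ)) := by
      conv_lhs => rw [eq_sum_mon (subset_refl (Q i).support)]
      exact Finset.sum_congr rfl fun γ _ => by rw [hqQ]
    conv_lhs => rw [h2]
    rw [Θ_sum]
  have h2 := congrArg (Θ 𝒰 n C) hPQ
  rw [hΘU P hP1, map_sum] at h2
  have h3 : ∀ i, Θ 𝒰 n C ((MvPolynomial.X i - MvPolynomial.C (gr 𝒰 C (y i))) * Q i) =
      pgr 𝒰 n C (fun t => (MvPolynomial.X i - MvPolynomial.C (y i t)) * R i t) := by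
    intro i
    rw [map_mul, map_sub, Θ_X, Θ_C, hQR, ← map_sub, ← map_mul]
    rfl
  simp only [h3] at h2
  rw [← map_sum, pgr_eq] at h2
  obtain ⟨t, ⟨ht1, ht2⟩, ht3⟩ := ((h2.and hcon).and hind).exists
  refine hP4 t ht3 ht2 ⟨fun i => R i t, fun i β => ?_, ?_⟩
  · simp only [hR]
    rw [coeff_sum_mon]
    split_ifs
    · exact hq i β t
    · exact (Ω t).zero_mem
  · rw [ht1, Finset.sum_apply]

end

/-- **Combinations outside sets of small dimension and bounded degree are free.** -/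
theorem free_dim_unif (κ C : Type) [Field κ] [CharZero κ] [Field C] [CharZero C] [Algebra κ C]
    (v E n m N s M : ℕ) (hs : (n - 1) * N + M ≤ s)
    (hM : ∀ n', n = n' + 1 → (E + 2) * (E + 1) ^ n' * m * ((E + 2) * (E + 1) ^ n' * m + v) < M) :
    ∃ e : ℕ, ∀ L : Submodule κ C, HypV v L → (1 : C) ∈ L →
    ∀ Ω : Submodule κ C, FiniteDimensional κ Ω → (1 : C) ∈ Ω → finrank κ Ω ≤ m →
    ∀ z : Fin n → C, (∀ i, z i ∈ L) → ∀ lam : Fin N → C, (∀ k, lam k ∈ L) →
    (∀ (c : Fin N → κ) (c0 : κ), ∑ k, c k • lam k = c0 • (1 : C) → ∀ k, c k = 0) →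
    ∀ φ : Fin s → Fin n × Fin N → κ,
    ∃ Δ : MvPolynomial (Fin s) κ, Δ ≠ 0 ∧ Δ.totalDegree ≤ e ∧ ∀ b : Fin n × Fin N → κ,
      MvPolynomial.eval (fun q => ∑ x, φ q x * b x) Δ ≠ 0 →
        FreeT E L Ω (fun i => z i + ∑ k, b (i, k) • lam k) := by
  classical
  by_contra hcon
  push Not at hcon
  choose L hL h1L Ω hfd h1Ω hm z hz lam hlam hli φ hb using hcon
  let 𝒰 : Ultrafilter ℕ := Filter.hyperfilter ℕ
  have hch1 : CharZero (UP 𝒰 κ) := charZero_UP 𝒰
  have hch2 : CharZero (UP 𝒰 C) := charZero_UP 𝒰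
  obtain ⟨hfd1, hfd2⟩ := IU_finrank 𝒰 hfd hm
  obtain ⟨Δ, hΔ0, hΔ⟩ := free_dim (hypV_IU 𝒰 hL) (one_mem_IU 𝒰 h1L) E n m N s M hs hM
    (IU 𝒰 Ω) (one_mem_IU 𝒰 h1Ω) hfd2 (fun i => gr 𝒰 C (fun t => z t i))
    (fun i => mem_IU 𝒰 fun t => hz t i) (fun k => gr 𝒰 C (fun t => lam t k))
    (fun k => mem_IU 𝒰 fun t => hlam t k) (by
      intro c c0 h
      choose cf hcf using fun k => gr_surj 𝒰 (c k)
      obtain ⟨c0f, hc0f⟩ := gr_surj 𝒰 c0
      have h1 : gr 𝒰 C (∑ k, fun t => cf k t • lam t k) =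
          gr 𝒰 C (fun t => c0f t • (1 : C)) := by
        rw [map_sum]
        have h2 : gr 𝒰 C (fun t => c0f t • (1 : C)) = c0 • (1 : UP 𝒰 C) := by
          rw [← hc0f, ← map_one (gr 𝒰 C), gr_smul]
          rfl
        rw [h2, ← h]
        refine Finset.sum_congr rfl fun k _ => ?_
        rw [← hcf, gr_smul]
      rw [gr_eq] at h1
      intro k
      rw [← hcf k, gr_eq_zero]
      refine h1.mono fun t ht => ?_
      rw [Finset.sum_apply] at ht
      exact hli t (fun k => cf k t) (c0f t) ht k)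
    (fun q x => gr 𝒰 κ (fun t => φ t q x))
  -- representatives of the polynomial
  choose δ hδ using fun γ => gr_surj 𝒰 (Δ.coeff γ)
  set P : ℕ → MvPolynomial (Fin s) κ := fun t =>
    ∑ γ ∈ Δ.support, MvPolynomial.monomial γ (δ γ t) with hP
  have hPdeg : ∀ t, (P t).totalDegree ≤ Δ.totalDegree := by
    intro t
    have h1 : (P t).support ⊆ Δ.support := by
      simp only [hP]
      exact support_sum_mon Δ.support (fun γ => δ γ t)
    exact Finset.sup_mono h1
  have hΔP : Δ = ∑ γ ∈ Δ.support, MvPolynomial.monomial γ (gr 𝒰 κ (δ γ)) := by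
    conv_lhs => rw [eq_sum_mon (subset_refl Δ.support)]
    exact Finset.sum_congr rfl fun γ _ => by rw [hδ]
  have hP0 : ∀ᶠ t in (𝒰 : Filter ℕ), P t ≠ 0 := by
    obtain ⟨γ, hγ⟩ := MvPolynomial.ne_zero_iff.1 hΔ0
    have h1 : ¬ ∀ᶠ t in (𝒰 : Filter ℕ), δ γ t = 0 := fun h => hγ (by
      rw [← hδ γ, gr_eq_zero]; exact h)
    rw [← Ultrafilter.eventually_not] at h1
    refine h1.mono fun t ht h0 => ht ?_
    have h2 := congrArg (MvPolynomial.coeff γ) h0
    simp only [hP] at h2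
    rwa [coeff_sum_mon, if_pos (MvPolynomial.mem_support_iff.2 hγ), MvPolynomial.coeff_zero] at h2
  have hdeg : ∀ᶠ t in (𝒰 : Filter ℕ), (P t).totalDegree ≤ t := by
    have h1 : ∀ᶠ t in (Filter.atTop : Filter ℕ), Δ.totalDegree ≤ t :=
      Filter.eventually_ge_atTop _
    have h2 : ∀ᶠ t in (𝒰 : Filter ℕ), Δ.totalDegree ≤ t :=
      Filter.Eventually.filter_mono Nat.hyperfilter_le_atTop h1
    exact h2.mono fun t ht => (hPdeg t).trans ht
  have hbad : ∀ t, ∃ b : Fin n × Fin N → κ, P t ≠ 0 → (P t).totalDegree ≤ t →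
      MvPolynomial.eval (fun q => ∑ x, φ t q x * b x) (P t) ≠ 0 ∧
      ¬ FreeT E (L t) (Ω t) (fun i => z t i + ∑ k, b (i, k) • lam t k) := by
    intro t
    by_cases h : P t ≠ 0 ∧ (P t).totalDegree ≤ t
    · obtain ⟨b, h1, h2⟩ := hb t (P t) h.1 h.2
      exact ⟨b, fun _ _ => ⟨h1, h2⟩⟩
    · exact ⟨0, fun h1 h2 => absurd ⟨h1, h2⟩ h⟩
  choose b hbad using hbad
  have hev : MvPolynomial.eval (fun q => ∑ x, gr 𝒰 κ (fun t => φ t q x) *
      gr 𝒰 κ (fun t => b t x)) Δ = gr 𝒰 κ (fun t =>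
        MvPolynomial.eval (fun q => ∑ x, φ t q x * b t x) (P t)) := by
    have h1 : (fun q => ∑ x, gr 𝒰 κ (fun t => φ t q x) * gr 𝒰 κ (fun t => b t x)) =
        fun q => gr 𝒰 κ (fun t => ∑ x, φ t q x * b t x) := by
      funext q
      simp only [← map_mul]
      rw [← map_sum]
      congr 1
      funext t
      rw [Finset.sum_apply]
      rfl
    rw [h1]
    conv_lhs => rw [hΔP]
    rw [eval_U]
  have h1 := hΔ (fun x => gr 𝒰 κ (fun t => b t x)) (by
    rw [hev, Ne, gr_eq_zero]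
    intro h2
    obtain ⟨t, ⟨ht1, ht2⟩, ht3⟩ := ((h2.and hP0).and hdeg).exists
    exact (hbad t ht2 ht3).1 ht1)
  have h2 : ∀ i, gr 𝒰 C (fun t => z t i) + ∑ k, gr 𝒰 κ (fun t => b t (i, k)) •
      gr 𝒰 C (fun t => lam t k) = gr 𝒰 C (fun t => z t i + ∑ k, b t (i, k) • lam t k) := by
    intro i
    simp only [gr_smul]
    rw [← map_sum, ← map_add]
    congr 1
    funext t
    rw [Pi.add_apply, Finset.sum_apply]
  simp only [h2] at h1
  have h3 := free_transfer' 𝒰 hfd hm (fun i t => z t i + ∑ k, b t (i, k) • lam t k) h1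
  obtain ⟨t, ⟨ht1, ht2⟩, ht3⟩ := ((h3.and hP0).and hdeg).exists
  exact (hbad t ht2 ht3).2 ht1

end Pool.Agent.R350
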