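import Pool.Agent.TH519.HS.Cnt

/-!
# Integer points in sets of bounded dimension and degree, uniform version
-/

set_option autoImplicit false

namespace Pool.Agent.R350

open MvPolynomial Pool.Agent.TH519.HS

variable {K : Type} [Field K]

/-- a nonzero polynomial of degree at most `e` does not vanish at some small integer point -/
theorem exists_int_point_le [CharZero K] {M e : ℕ} (P : MvPolynomial (Fin M) K) (hP : P ≠ 0)
    (he : P.totalDegree ≤ e) :
    ∃ c : Fin M → ℤ, (∀ i, |c i| ≤ e) ∧ eval (fun i => (c i : K)) P ≠ 0 := by
  classical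
  by_contra h
  push Not at h
  apply hP
  refine MvPolynomial.eq_zero_of_eval_zero_at_prod_finset P
    (fun _ => (Finset.range (e + 1)).image ((↑) : ℕ → K)) ?_ ?_
  · intro i
    rw [Finset.card_image_of_injective _ Nat.cast_injective, Finset.card_range]
    exact Nat.lt_succ_of_le ((degreeOf_le_totalDegree P i).trans he)
  · intro x hx
    have hx' : ∀ i, ∃ n : ℕ, n < e + 1 ∧ (n : K) = x i := by
      intro i
      obtain ⟨n, h1, h2⟩ := Finset.mem_image.1 (hx i)
      exact ⟨n, Finset.mem_range.1 h1, h2⟩
    choose c hc1 hc2 using hx'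
    have := h (fun i => (c i : ℤ)) (fun i => by
      rw [abs_of_nonneg (Int.natCast_nonneg _)]
      exact_mod_cast Nat.lt_succ_iff.1 (hc1 i))
    rw [← this]
    congr 1
    congr 1
    funext i
    rw [Int.cast_natCast]
    exact (hc2 i).symm

/-- Noether normalisation with bounded fibres and bounded coefficients -/
theorem fib_unif [CharZero K] (d e : ℕ) : ∀ (M : ℕ), ∃ a B : ℕ, ∀ (S : Set (Fin M → K)),
    (∀ φ : Fin (d + 1) → ((Fin M → K) →ₗ[K] K), ∃ P : MvPolynomial (Fin (d + 1)) K, P ≠ 0 ∧
      P.totalDegree ≤ e ∧ ∀ x ∈ S, eval (fun k => φ k x) P = 0) →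
    ∃ (A : Fin d → Fin M → ℤ), (∀ k j, |A k j| ≤ a) ∧
      ∀ F : Finset (Fin M → K), (∀ x ∈ F, x ∈ S) →
      (∀ x ∈ F, ∀ x' ∈ F, ∀ k, ∑ j, (A k j : K) * x j = ∑ j, (A k j : K) * x' j) →
      F.card ≤ B := by
  classical
  intro M
  induction M with
  | zero =>
    refine ⟨0, 1, fun S _ => ⟨fun _ _ => 0, fun _ _ => by simp, fun F _ _ => ?_⟩⟩
    rw [Finset.card_le_one]
    intro x _ x' _
    exact Subsingleton.elim _ _
  | succ M ih =>
    obtain ⟨a, B, ih⟩ := ih
    refine ⟨(M + 1) * (a * e) + 1, e * B + 1, fun S hS => ?_⟩
    rcases le_or_gt (M + 1) d with hMd | hMd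
    · refine ⟨fun k j => if (k : ℕ) = (j : ℕ) then 1 else 0, ?_, fun F _ hF => ?_⟩
      · intro k j
        push_cast
        have : (0 : ℤ) ≤ ((M : ℤ) + 1) * (a * e) := by positivity
        split_ifs
        · rw [abs_one]; omega
        · rw [abs_zero]; omega
      refine le_trans ?_ (Nat.le_add_left 1 (e * B))
      rw [Finset.card_le_one]
      intro x hx x' hx'
      funext i
      have h1 := hF x hx x' hx' ⟨i, by omega⟩
      have h2 : ∀ x : Fin (M + 1) → K,
          ∑ j : Fin (M + 1), ((if (((⟨i, by omega⟩ : Fin d) : ℕ)) = (j : ℕ) then 1 else 0 : ℤ) : K) *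
            x j = x i := by
        intro x
        rw [Finset.sum_eq_single i]
        · simp
        · intro j _ hj
          rw [if_neg (fun h => hj (Fin.ext h.symm)), Int.cast_zero, zero_mul]
        · intro h; exact absurd (Finset.mem_univ i) h
      rw [h2, h2] at h1
      exact h1
    · have hle : d + 1 ≤ M + 1 := hMd
      obtain ⟨P₀, hP₀, hP₀e, hP₀S⟩ := hS (fun k => LinearMap.proj (Fin.castLE hle k))
      set P : MvPolynomial (Fin (M + 1)) K := rename (Fin.castLE hle) P₀ with hPdef
      have hPe : P.totalDegree ≤ e := (totalDegree_rename_le _ _).trans hP₀e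
      have hP : P ≠ 0 := by
        intro h
        apply hP₀
        apply rename_injective _ (Fin.castLE_injective hle)
        rw [← hPdef, h, map_zero]
      have hPS : ∀ x ∈ S, eval x P = 0 := by
        intro x hx
        rw [hPdef, eval_rename]
        exact hP₀S x hx
      have htop : homogeneousComponent P.totalDegree P ≠ 0 := by
        obtain ⟨s, hs, hs'⟩ := Finset.exists_mem_eq_sup P.support
          (Finset.nonempty_iff_ne_empty.2 fun h => hP (MvPolynomial.support_eq_empty.1 h))
          (fun s : Fin (M + 1) →₀ ℕ => s.sum fun _ e => e)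
        intro h
        have h1 := congrArg (coeff s) h
        rw [coeff_homogeneousComponent, if_pos, coeff_zero] at h1
        · exact (mem_support_iff.1 hs) h1
        · exact hs'.symm
      obtain ⟨c, hce, hc⟩ := exists_int_point_le _ htop
        (((homogeneousComponent_isHomogeneous _ P).totalDegree_le).trans hPe)
      set cK : Fin (M + 1) → K := fun i => (c i : K) with hcK
      have hline : ∀ x, lineP x cK P ≠ 0 := by
        intro x h
        have h1 := (lineP_coeff x cK P).2
        rw [h, Polynomial.coeff_zero] at h1
        exact hc h1.symm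
      by_cases hc0 : ∀ i, c i = 0
      · -- then `P` is constant and `S` is empty
        refine ⟨fun _ _ => 0, fun _ _ => by rw [abs_zero]; positivity, fun F hFS _ => ?_⟩
        refine le_trans ?_ (Nat.zero_le _)
        rw [Nat.le_zero, Finset.card_eq_zero, Finset.eq_empty_iff_forall_notMem]
        intro x hx
        apply hline x
        have h1 : ∀ t, (lineP x cK P).eval t = 0 := by
          intro t
          rw [lineP_eval]
          have h2 : (fun i => x i + t * cK i) = x := by
            funext i
            rw [hcK]
            simp only [hc0, Int.cast_zero, mul_zero, add_zero]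
          rw [h2]
          exact hPS x (hFS x hx)
        exact Polynomial.funext fun t => by rw [h1, Polynomial.eval_zero]
      · push Not at hc0
        obtain ⟨i, hi⟩ := hc0
        have hiK : (c i : K) ≠ 0 := by exact_mod_cast hi
        let π : (Fin (M + 1) → K) →ₗ[K] (Fin M → K) :=
          { toFun := fun x j => (c i : K) * x (i.succAbove j) - (c (i.succAbove j) : K) * x i
            map_add' := fun x y => by
              funext j
              simp only [Pi.add_apply]
              ring
            map_smul' := fun a x => by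
              funext j
              simp only [Pi.smul_apply, smul_eq_mul, RingHom.id_apply]
              ring }
        obtain ⟨A, hAa, hAB⟩ := ih (π '' S) (by
          intro φ
          obtain ⟨P, h1, h1e, h2⟩ := hS (fun k => φ k ∘ₗ π)
          refine ⟨P, h1, h1e, ?_⟩
          rintro _ ⟨x, hx, rfl⟩
          exact h2 x hx)
        let A' : Fin d → Fin (M + 1) → ℤ := fun k =>
          i.insertNth (-∑ j, A k j * c (i.succAbove j)) (fun j => A k j * c i)
        have hA' : ∀ k (x : Fin (M + 1) → K), ∑ j, (A' k j : K) * x j =
            ∑ j, (A k j : K) * π x j := by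
          intro k x
          rw [Fin.sum_univ_succAbove _ i]
          simp only [A', Fin.insertNth_apply_same, Fin.insertNth_apply_succAbove]
          change _ = ∑ j, (A k j : K) *
            ((c i : K) * x (i.succAbove j) - (c (i.succAbove j) : K) * x i)
          push_cast
          simp only [mul_sub, Finset.sum_sub_distrib, neg_mul, Finset.sum_mul]
          rw [add_comm, ← sub_eq_add_neg]
          congr 1
          · refine Finset.sum_congr rfl fun j _ => ?_
            ring
          · refine Finset.sum_congr rfl fun j _ => ?_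
            ring
        have hb : ∀ k j j', |A k j * c j'| ≤ (a * e : ℤ) := by
          intro k j j'
          rw [abs_mul]
          exact mul_le_mul (hAa k j) (hce j') (abs_nonneg _) (Int.natCast_nonneg _)
        refine ⟨A', ?_, fun F hFS hF => ?_⟩
        · intro k j
          rcases Fin.eq_self_or_eq_succAbove i j with rfl | ⟨j', rfl⟩
          · simp only [A', Fin.insertNth_apply_same]
            rw [abs_neg]
            refine (Finset.abs_sum_le_sum_abs _ _).trans ?_
            refine (Finset.sum_le_sum fun j _ => hb k j _).trans ?_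
            rw [Finset.sum_const, Finset.card_univ, Fintype.card_fin, nsmul_eq_mul]
            push_cast
            have : (0 : ℤ) ≤ (a : ℤ) * e := by positivity
            nlinarith
          · simp only [A', Fin.insertNth_apply_succAbove]
            refine (hb k j' i).trans ?_
            push_cast
            have : (0 : ℤ) ≤ (a : ℤ) * e := by positivity
            have h2 : (0 : ℤ) ≤ (M : ℤ) := Int.natCast_nonneg _
            nlinarith [mul_nonneg h2 this]
        have h1 : (F.image π).card ≤ B := by
          refine hAB _ ?_ ?_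
          · intro y hy
            obtain ⟨x, hx, rfl⟩ := Finset.mem_image.1 hy
            exact ⟨x, hFS x hx, rfl⟩
          · intro y hy y' hy' k
            obtain ⟨x, hx, rfl⟩ := Finset.mem_image.1 hy
            obtain ⟨x', hx', rfl⟩ := Finset.mem_image.1 hy'
            rw [← hA', ← hA']
            exact hF x hx x' hx' k
        refine le_trans (Finset.card_le_mul_card_image_of_maps_to
          (fun x hx => Finset.mem_image_of_mem π hx) e ?_)
          ((Nat.mul_le_mul_left _ h1).trans (Nat.le_succ _))
        intro y hy
        obtain ⟨x₀, hx₀, rfl⟩ := Finset.mem_image.1 hy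
        -- points on a line
        have h2 : (F.filter fun x => π x = π x₀) ⊆
            (lineP x₀ cK P).roots.toFinset.image (fun t i => x₀ i + t * cK i) := by
          intro x hx
          rw [Finset.mem_filter] at hx
          have h3 : ∀ j, x j = x₀ j + (x i - x₀ i) / (c i : K) * cK j := by
            intro j
            rcases Fin.eq_self_or_eq_succAbove i j with rfl | ⟨j', rfl⟩
            · rw [hcK]
              field_simp
              ring
            · have h4 := congrFun hx.2 j'
              change (c i : K) * x (i.succAbove j') - (c (i.succAbove j') : K) * x i =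
                (c i : K) * x₀ (i.succAbove j') - (c (i.succAbove j') : K) * x₀ i at h4
              rw [hcK]
              field_simp
              linear_combination h4
          rw [Finset.mem_image]
          refine ⟨(x i - x₀ i) / (c i : K), ?_, (funext h3).symm⟩
          rw [Multiset.mem_toFinset, Polynomial.mem_roots (hline x₀), Polynomial.IsRoot.def,
            lineP_eval, ← funext h3]
          exact hPS x (hFS x hx.1)
        refine (Finset.card_le_card h2).trans (Finset.card_image_le.trans ?_)
        refine (Multiset.toFinset_card_le _).trans ((Polynomial.card_roots' _).trans ?_)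
        exact ((lineP_coeff x₀ cK P).1).trans hPe

/-- **Counting integer points, uniform version.** -/
theorem count_unif [CharZero K] (d e M : ℕ) :
    ∃ κ : ℕ, ∀ S : Set (Fin M → K),
    (∀ φ : Fin (d + 1) → ((Fin M → K) →ₗ[K] K), ∃ P : MvPolynomial (Fin (d + 1)) K, P ≠ 0 ∧
      P.totalDegree ≤ e ∧ ∀ x ∈ S, eval (fun k => φ k x) P = 0) →
    ∀ H : ℕ, 1 ≤ H → ∀ F : Finset (Fin M → ℤ),
      (∀ a ∈ F, (∀ j, |a j| ≤ H) ∧ (fun j => (a j : K)) ∈ S) → F.card ≤ κ * H ^ d := by
  classical
  obtain ⟨a₀, B, hfib⟩ := fib_unif (K := K) d e M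
  refine ⟨B * (2 * (M * a₀) + 1) ^ d, fun S hS H hH F hF => ?_⟩
  obtain ⟨A, hAa, hAB⟩ := hfib S hS
  let f : (Fin M → ℤ) → (Fin d → ℤ) := fun a k => ∑ j, A k j * a j
  let T : Finset (Fin d → ℤ) := Fintype.piFinset fun _ =>
    Finset.Icc (-((M * a₀ : ℕ) * H : ℤ)) ((M * a₀ : ℕ) * H)
  have h1 : ∀ a ∈ F, f a ∈ T := by
    intro a ha
    rw [Fintype.mem_piFinset]
    intro k
    rw [Finset.mem_Icc, ← abs_le]
    calc |∑ j, A k j * a j| ≤ ∑ j, |A k j * a j| := Finset.abs_sum_le_sum_abs _ _
      _ ≤ ∑ _j : Fin M, (a₀ : ℤ) * H := by
          refine Finset.sum_le_sum fun j _ => ?_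
          rw [abs_mul]
          exact mul_le_mul (hAa k j) ((hF a ha).1 j) (abs_nonneg _) (Int.natCast_nonneg _)
      _ = ((M * a₀ : ℕ) : ℤ) * H := by
          rw [Finset.sum_const, Finset.card_univ, Fintype.card_fin, nsmul_eq_mul]
          push_cast
          ring
  have h2 : T.card ≤ ((2 * (M * a₀) + 1) * H) ^ d := by
    rw [Fintype.card_piFinset]
    simp only [Int.card_Icc, Finset.prod_const, Finset.card_univ, Fintype.card_fin]
    refine Nat.pow_le_pow_left ?_ d
    have : (((M * a₀ : ℕ) : ℤ) * H + 1 - -((M * a₀ : ℕ) * H : ℤ)).toNat =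
        2 * ((M * a₀) * H) + 1 := by
      have h3 : ((M * a₀ : ℕ) : ℤ) * H + 1 - -((M * a₀ : ℕ) * H : ℤ) =
          ((2 * ((M * a₀) * H) + 1 : ℕ) : ℤ) := by
        push_cast
        ring
      rw [h3, Int.toNat_natCast]
    rw [this]
    nlinarith
  have h3 := Finset.card_le_mul_card_image_of_maps_to h1 B (by
    intro z hz
    have hinj : Function.Injective fun (a : Fin M → ℤ) j => (a j : K) := by
      intro a a' h
      funext j
      have h4 : (a j : K) = (a' j : K) := congrFun h j
      exact_mod_cast h4
    rw [← Finset.card_image_of_injective _ hinj]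
    refine hAB _ ?_ ?_
    · intro x hx
      obtain ⟨a, ha, rfl⟩ := Finset.mem_image.1 hx
      rw [Finset.mem_filter] at ha
      exact (hF a ha.1).2
    · intro x hx x' hx' k
      obtain ⟨a, ha, rfl⟩ := Finset.mem_image.1 hx
      obtain ⟨a', ha', rfl⟩ := Finset.mem_image.1 hx'
      rw [Finset.mem_filter] at ha ha'
      have h4 : f a k = f a' k := by rw [ha.2, ha'.2]
      have h5 := congrArg (fun n : ℤ => (n : K)) h4
      simp only [f] at h5
      push_cast at h5
      exact h5)
  calc F.card ≤ B * T.card := h3
    _ ≤ B * ((2 * (M * a₀) + 1) * H) ^ d := Nat.mul_le_mul_left _ h2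
    _ = B * (2 * (M * a₀) + 1) ^ d * H ^ d := by rw [mul_pow, mul_assoc]

end Pool.Agent.R350
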