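import Pool.Agent.R350.HC
import Pool.Agent.R350.HF
import Pool.Agent.R350.HG

/-!
# Dimension of the set of bad combinations, and counting
-/

set_option autoImplicit false

namespace Pool.Agent.R350

open Module MvPolynomial

/-- **Counting integer matrices in a set of bounded dimension and degree.** -/
theorem count_mat (K : Type) [Field K] [CharZero K] (d e n N : ℕ) :
    ∃ κ : ℕ, ∀ B : Set (Fin n × Fin N → K),
    (∀ φ : Fin (d + 1) → Fin n × Fin N → K, ∃ P : MvPolynomial (Fin (d + 1)) K, P ≠ 0 ∧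
      P.totalDegree ≤ e ∧ ∀ b ∈ B, eval (fun q => ∑ x, φ q x * b x) P = 0) →
    ∀ H : ℕ, 1 ≤ H → Set.ncard {a : Fin n → Fin N → ℤ | (∀ i j, |a i j| ≤ H) ∧
      (fun x : Fin n × Fin N => (a x.1 x.2 : K)) ∈ B} ≤ κ * H ^ d := by
  classical
  let ε : Fin (n * N) ≃ Fin n × Fin N := finProdFinEquiv.symm
  obtain ⟨κ, hκ⟩ := count_unif (K := K) d e (n * N)
  refine ⟨κ, fun B hB H hH => ?_⟩
  have h0 := hκ {y | (fun x => y (ε.symm x)) ∈ B} (by
    intro φ
    obtain ⟨P, h1, h2, h3⟩ := hB (fun q x => φ q (Pi.single (ε.symm x) 1))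
    refine ⟨P, h1, h2, fun y hy => ?_⟩
    rw [← h3 _ hy]
    congr 1
    congr 1
    funext q
    have h4 : y = ∑ i, y i • Pi.single i (1 : K) := by
      funext j
      rw [Finset.sum_apply, Finset.sum_eq_single j]
      · simp
      · intro i _ hij
        simp [hij.symm]
      · intro h; exact absurd (Finset.mem_univ _) h
    conv_lhs => rw [h4, map_sum]
    refine (Equiv.sum_comp ε.symm
      (fun i => φ q (y i • (Pi.single i (1 : K) : Fin (n * N) → K)))).symm.trans ?_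
    refine Finset.sum_congr rfl fun x _ => ?_
    rw [map_smul, smul_eq_mul, mul_comm]) H hH
  set T := {a : Fin n → Fin N → ℤ | (∀ i j, |a i j| ≤ H) ∧
      (fun x : Fin n × Fin N => (a x.1 x.2 : K)) ∈ B} with hT
  have hfin : T.Finite := by
    have h1 : ((Fintype.piFinset fun _ : Fin n => Fintype.piFinset fun _ : Fin N =>
        Finset.Icc (-(H : ℤ)) H : Finset (Fin n → Fin N → ℤ)) :
        Set (Fin n → Fin N → ℤ)).Finite := Finset.finite_toSet _
    refine h1.subset fun A hA => ?_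
    rw [Finset.mem_coe, Fintype.mem_piFinset]
    intro i
    rw [Fintype.mem_piFinset]
    intro j
    rw [Finset.mem_Icc, ← abs_le]
    exact hA.1 i j
  rw [Set.ncard_eq_toFinset_card T hfin]
  let g : (Fin n → Fin N → ℤ) → (Fin (n * N) → ℤ) := fun A k => A (ε k).1 (ε k).2
  have hg : Function.Injective g := by
    intro A A' h
    funext i j
    have := congrFun h (ε.symm (i, j))
    simp only [g, Equiv.apply_symm_apply] at this
    exact this
  rw [← Finset.card_image_of_injective _ hg]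
  refine h0 _ ?_
  intro a ha
  obtain ⟨A, hA, rfl⟩ := Finset.mem_image.1 ha
  rw [Set.Finite.mem_toFinset] at hA
  refine ⟨fun k => hA.1 _ _, ?_⟩
  have h1 : (fun x : Fin n × Fin N => ((g A (ε.symm x) : ℤ) : K)) =
      fun x => ((A x.1 x.2 : ℤ) : K) := by
    funext x
    simp only [g, Equiv.apply_symm_apply]
  change (fun x : Fin n × Fin N => ((g A (ε.symm x) : ℤ) : K)) ∈ B
  rw [h1]
  exact hA.2

variable (κ C : Type) [Field κ] [CharZero κ] [Field C] [CharZero C] [Algebra κ C]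

/-- **The set of bad combinations has small dimension and bounded degree.** -/
theorem gen1_dim (D n N s : ℕ) (hD : 1 ≤ D)
    (hs : (n - 1) * N + ((D + 2) * (D + 1) ^ (n - 1)) ^ 2 < s) :
    ∃ e : ℕ, ∀ L : Submodule κ C, HypV 0 L → (1 : C) ∈ L →
    ∀ z : Fin n → C, (∀ i, z i ∈ L) → ∀ l : Fin N → C, (∀ k, l k ∈ L) →
    LinearIndependent κ (fun o : Option (Fin N) => o.elim 1 l) →
    ∀ φ : Fin s → Fin n × Fin N → κ,
    ∃ Δ : MvPolynomial (Fin s) κ, Δ ≠ 0 ∧ Δ.totalDegree ≤ e ∧ ∀ b : Fin n × Fin N → κ,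
      eval (fun q => ∑ x, φ q x * b x) Δ ≠ 0 →
        Gen1 L D (fun i => z i + ∑ k, b (i, k) • l k) := by
  obtain ⟨E, rfl⟩ : ∃ E, D = E + 1 := ⟨D - 1, by omega⟩
  obtain ⟨e, he⟩ := free_dim_unif κ C 0 (E + 1) n 1 N s
    (((E + 1 + 2) * (E + 1 + 1) ^ (n - 1)) ^ 2 + 1) (by omega) (by
      rintro n' rfl
      rw [mul_one, add_zero, Nat.add_sub_cancel]
      nlinarith)
  refine ⟨e, fun L hL h1L z hz l hl hli φ => ?_⟩
  have hfd : FiniteDimensional κ (Submodule.span κ {(1 : C)}) :=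
    FiniteDimensional.span_of_finite _ (Set.finite_singleton _)
  obtain ⟨Δ, h1, h2, h3⟩ := he L hL h1L (Submodule.span κ {(1 : C)}) hfd
    (Submodule.mem_span_singleton_self _) (finrank_span_one _ _) z hz l hl (li_option hli) φ
  exact ⟨Δ, h1, h2, fun b hb => gen1_of_free le_rfl h1L (fun i => L.add_mem (hz i)
    (Submodule.sum_mem _ fun k _ => L.smul_mem _ (hl k))) (h3 b hb)⟩

/-- **Counting bad combinations.** -/
theorem gen1_count (D n N : ℕ) (hD : 1 ≤ D) :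
    ∃ K : ℕ, ∀ L : Submodule κ C, HypV 0 L → (1 : C) ∈ L →
    ∀ z : Fin n → C, (∀ i, z i ∈ L) → ∀ l : Fin N → C, (∀ k, l k ∈ L) →
    LinearIndependent κ (fun o : Option (Fin N) => o.elim 1 l) →
    ∀ H : ℕ, 1 ≤ H → Set.ncard {a : Fin n → Fin N → ℤ | (∀ i j, |a i j| ≤ H) ∧
      ¬ Gen1 L D (fun i => z i + ∑ k, (a i k : κ) • l k)} ≤
      K * H ^ ((n - 1) * N + ((D + 2) * (D + 1) ^ (n - 1)) ^ 2) := by
  obtain ⟨e, he⟩ := gen1_dim κ C D n N
    ((n - 1) * N + ((D + 2) * (D + 1) ^ (n - 1)) ^ 2 + 1) hD (Nat.lt_succ_self _)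
  obtain ⟨K, hK⟩ := count_mat κ ((n - 1) * N + ((D + 2) * (D + 1) ^ (n - 1)) ^ 2) e n N
  refine ⟨K, fun L hL h1L z hz l hl hli H hH => ?_⟩
  refine hK {b | ¬ Gen1 L D (fun i => z i + ∑ k, b (i, k) • l k)} ?_ H hH
  intro φ
  obtain ⟨Δ, h1, h2, h3⟩ := he L hL h1L z hz l hl hli φ
  refine ⟨Δ, h1, h2, fun b hb => ?_⟩
  by_contra h
  exact hb (h3 b h)

/-- **The set of bad combinations, relations with coefficients in a finite dimensional space.** -/
theorem norel_dim (v D n m N s : ℕ) (hs : (n - 1) * N + bigN n D m v < s) :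
    ∃ e : ℕ, ∀ L : Submodule κ C, HypV v L → (1 : C) ∈ L →
    ∀ W : Submodule κ C, Module.Finite κ W → finrank κ W ≤ m →
    ∀ z : Fin n → C, (∀ i, z i ∈ L) → ∀ l : Fin N → C, (∀ k, l k ∈ L) →
    LinearIndependent κ (fun o : Option (Fin N) => o.elim 1 l) →
    ∀ φ : Fin s → Fin n × Fin N → κ,
    ∃ Δ : MvPolynomial (Fin s) κ, Δ ≠ 0 ∧ Δ.totalDegree ≤ e ∧ ∀ b : Fin n × Fin N → κ,
      eval (fun q => ∑ x, φ q x * b x) Δ ≠ 0 →
        NoRel' L W (exSp L W) D (fun i => z i + ∑ k, b (i, k) • l k) := by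
  have hm1 : m + 1 ≤ (m + 1) * (m + 1 + v) * (m + 1) + 1 := by
    refine Nat.le_succ_of_le ?_
    calc m + 1 = (m + 1) * 1 * 1 := by ring
      _ ≤ (m + 1) * (m + 1 + v) * (m + 1) :=
        Nat.mul_le_mul (Nat.mul_le_mul le_rfl (by omega)) (by omega)
  obtain ⟨e₁, he₁⟩ := free_dim_unif κ C v D n (m + 1) N s (bigN n D m v + 1) (by omega)
    (fun n' hn => Nat.lt_succ_of_le (bigN_bound (by omega) hm1 hn))
  obtain ⟨e₂, he₂⟩ := free_dim_unif κ C v (0 + 1) n ((m + 1) * (m + 1 + v) * (m + 1) + 1) N s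
    (bigN n D m v + 1) (by omega)
    (fun n' hn => Nat.lt_succ_of_le (bigN_bound (by omega) le_rfl hn))
  refine ⟨e₁ + e₂, fun L hL h1L W hWf hW z hz l hl hli φ => ?_⟩
  have hE : FiniteDimensional κ (W ⊔ Submodule.span κ {(1 : C)} : Submodule κ C) := inferInstance
  have hEr : finrank κ (W ⊔ Submodule.span κ {(1 : C)} : Submodule κ C) ≤ m + 1 :=
    (Submodule.finrank_add_le_finrank_add_finrank _ _).trans
      (Nat.add_le_add hW (finrank_span_one κ C))
  obtain ⟨hF, hFr, -, -⟩ := exSp_bound hL h1L W hW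
  obtain ⟨Δ₁, h1, h1', h2⟩ := he₁ L hL h1L (W ⊔ Submodule.span κ {(1 : C)}) hE
    (Submodule.mem_sup_right (Submodule.mem_span_singleton_self _)) hEr z hz l hl
    (li_option hli) φ
  obtain ⟨Δ₂, h3, h3', h4⟩ := he₂ L hL h1L (exSp L W) hF
    (Submodule.mem_sup_right (Submodule.mem_span_singleton_self _)) hFr z hz l hl
    (li_option hli) φ
  refine ⟨Δ₁ * Δ₂, mul_ne_zero h1 h3, (totalDegree_mul _ _).trans (Nat.add_le_add h1' h3'),
    fun b hb => ?_⟩
  rw [map_mul] at hb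
  exact noRel_of_free h1L (fun i => L.add_mem (hz i)
    (Submodule.sum_mem _ fun k _ => L.smul_mem _ (hl k))) (h2 b (left_ne_zero_of_mul hb))
    (h4 b (right_ne_zero_of_mul hb))

/-- **Counting.** -/
theorem norel_count (v D n m N : ℕ) :
    ∃ K : ℕ, ∀ L : Submodule κ C, HypV v L → (1 : C) ∈ L →
    ∀ W : Submodule κ C, Module.Finite κ W → finrank κ W ≤ m →
    ∀ z : Fin n → C, (∀ i, z i ∈ L) → ∀ l : Fin N → C, (∀ k, l k ∈ L) →
    LinearIndependent κ (fun o : Option (Fin N) => o.elim 1 l) →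
    ∀ H : ℕ, 1 ≤ H → Set.ncard {a : Fin n → Fin N → ℤ | (∀ i j, |a i j| ≤ H) ∧
      ¬ NoRel' L W (exSp L W) D (fun i => z i + ∑ k, (a i k : κ) • l k)} ≤
      K * H ^ ((n - 1) * N + bigN n D m v) := by
  obtain ⟨e, he⟩ := norel_dim κ C v D n m N ((n - 1) * N + bigN n D m v + 1)
    (Nat.lt_succ_self _)
  obtain ⟨K, hK⟩ := count_mat κ ((n - 1) * N + bigN n D m v) e n N
  refine ⟨K, fun L hL h1L W hWf hW z hz l hl hli H hH => ?_⟩
  refine hK {b | ¬ NoRel' L W (exSp L W) D (fun i => z i + ∑ k, b (i, k) • l k)} ?_ H hH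
  intro φ
  obtain ⟨Δ, h1, h2, h3⟩ := he L hL h1L W hWf hW z hz l hl hli φ
  refine ⟨Δ, h1, h2, fun b hb => ?_⟩
  by_contra h
  exact hb (h3 b h)

end Pool.Agent.R350
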