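import Pool.Agent.H297R2.ExpIndep
import Pool.Agent.R350.GQ
import Pool.Agent.R350.HH

/-!
# Relations with exponentials of algebraic numbers
-/

set_option autoImplicit false

namespace Pool.Agent.R350

open Module MvPolynomial

/-- the space spanned by `1` and the coefficients of all relations
`∑_μ e ^ (μ_1 α_1 + ⋯ + μ_s α_s) ℓ_μ = 0`, `0 ≤ μ_i ≤ D` -/
noncomputable def RelC {s : ℕ} (D : ℕ) (α : Fin s → ℂ) :
    Submodule (algebraicClosure ℚ ℂ) ℂ :=
  Submodule.span (algebraicClosure ℚ ℂ) ({1} ∪ {z : ℂ | ∃ ℓ : (Fin s → Fin (D + 1)) → ℂ,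
    (∀ μ, ℓ μ ∈ Pool.Agent.H301R2.SSE.Lt) ∧
      ∑ μ, Complex.exp (∑ i, (μ i : ℕ) * α i) * ℓ μ = 0 ∧ ∃ μ, z = ℓ μ})

/-- no relations with exponentials -/
def NoRelE {s n : ℕ} (D : ℕ) (α : Fin s → ℂ) (y : Fin n → ℂ) : Prop :=
  (∀ c : Fin n → algebraicClosure ℚ ℂ, ∑ i, c i • y i ∈ RelC D α → c = 0) ∧
  ∀ (t : ℕ) (l : Fin t → ℂ), (∀ j, l j ∈ Pool.Agent.H301R2.SSE.Lt) →
    (∀ c : Fin t → algebraicClosure ℚ ℂ, ∑ j, c j • l j ∈ RelC D α ⊔
      Submodule.span (algebraicClosure ℚ ℂ) (Set.range y) → c = 0) →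
    ∀ P : MvPolynomial (Fin s ⊕ (Fin n ⊕ Fin t)) (algebraicClosure ℚ ℂ),
      (∀ i, P.degreeOf (Sum.inl i) ≤ D) →
      (∀ i, P.degreeOf (Sum.inr (Sum.inl i)) ≤ D) →
      (∀ β ∈ P.support, ∑ j, β (Sum.inr (Sum.inr j)) ≤ 1) →
      aeval (Sum.elim (fun i => Complex.exp (α i)) (Sum.elim y l)) P = 0 → P = 0

theorem exp_setup {s : ℕ} (D : ℕ) (α : Fin s → ℂ) (hα : ∀ i, IsAlgebraic ℚ (α i))
    (hαi : LinearIndependent ℚ α) : ∃ W : Submodule (algebraicClosure ℚ ℂ) ℂ,
    Module.Finite (algebraicClosure ℚ ℂ) W ∧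
    finrank (algebraicClosure ℚ ℂ) W ≤ (D + 1) ^ s ∧
    exSp Pool.Agent.H301R2.SSE.Lt W = RelC D α ∧
    ∀ (n : ℕ) (y : Fin n → ℂ), NoRel' Pool.Agent.H301R2.SSE.Lt W
      (exSp Pool.Agent.H301R2.SSE.Lt W) D y → NoRelE D α y := by
  let b : (Fin s → Fin (D + 1)) → ℂ := fun μ => Complex.exp (∑ i, (μ i : ℕ) * α i)
  have hb' : ∀ μ, b μ = ∏ i, Complex.exp (α i) ^ (μ i : ℕ) := by
    intro μ
    simp only [b]
    rw [Complex.exp_sum]
    exact Finset.prod_congr rfl fun i _ => Complex.exp_nat_mul _ _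
  have hT : ∀ Q : MvPolynomial (Fin s) (algebraicClosure ℚ ℂ),
      aeval (fun i => Complex.exp (α i)) Q = 0 → Q = 0 := fun Q hQ =>
    Pool.Agent.H297R2.exp_noRel Q.totalDegree α hα hαi Q le_rfl hQ
  have hb : LinearIndependent (algebraicClosure ℚ ℂ) b := by
    rw [Fintype.linearIndependent_iff]
    intro c hc μ
    have h1 := hT (∑ μ, monomial (Finsupp.equivFunOnFinite.symm fun i => (μ i : ℕ)) (c μ)) (by
      rw [map_sum, ← hc]
      refine Finset.sum_congr rfl fun μ _ => ?_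
      rw [aeval_monomial, Finsupp.prod_fintype _ _ (fun i => pow_zero _), hb', Algebra.smul_def]
      rfl)
    have h2 := congrArg (coeff (Finsupp.equivFunOnFinite.symm fun i => (μ i : ℕ))) h1
    rw [coeff_zero, coeff_sum, Finset.sum_eq_single μ, coeff_monomial, if_pos rfl] at h2
    · exact h2
    · intro μ' _ hne
      rw [coeff_monomial, if_neg]
      intro h3
      apply hne
      have h4 := Finsupp.equivFunOnFinite.symm.injective h3
      funext i
      exact Fin.ext (congrFun h4 i)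
    · intro h; exact absurd (Finset.mem_univ _) h
  refine ⟨Submodule.span (algebraicClosure ℚ ℂ) (Set.range b),
    FiniteDimensional.span_of_finite _ (Set.finite_range _), ?_, ?_, ?_⟩
  · refine (finrank_range_le_card b).trans ?_
    rw [Fintype.card_fun, Fintype.card_fin, Fintype.card_fin]
  · have h1W : Submodule.span (algebraicClosure ℚ ℂ) {(1 : ℂ)} ≤
        Submodule.span (algebraicClosure ℚ ℂ) (Set.range b) := by
      rw [Submodule.span_singleton_le_iff_mem]
      refine Submodule.subset_span ⟨fun _ => 0, ?_⟩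
      simp [b]
    unfold exSp RelC
    rw [sup_eq_left.2 h1W, suppI_coeffs _ b hb, Submodule.span_union, sup_comm]
  · intro n y hgood
    have h1W : Submodule.span (algebraicClosure ℚ ℂ) {(1 : ℂ)} ≤
        Submodule.span (algebraicClosure ℚ ℂ) (Set.range b) := by
      rw [Submodule.span_singleton_le_iff_mem]
      refine Submodule.subset_span ⟨fun _ => 0, ?_⟩
      simp [b]
    have hE : exSp Pool.Agent.H301R2.SSE.Lt (Submodule.span (algebraicClosure ℚ ℂ)
        (Set.range b)) = RelC D α := by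
      unfold exSp RelC
      rw [sup_eq_left.2 h1W, suppI_coeffs _ b hb, Submodule.span_union, sup_comm]
    rw [hE] at hgood
    refine ⟨fun c hc => funext (hgood.1 c hc), fun r l hl hli P hP1 hP2 hP3 h0 => ?_⟩
    obtain ⟨P', h6, h7, h8, h9⟩ := subst_first (fun i => Complex.exp (α i))
      D (Submodule.span (algebraicClosure ℚ ℂ) (Set.range b))
      (by
        intro μ hμ
        refine Submodule.subset_span ⟨fun i => ⟨μ i, Nat.lt_succ_of_le (hμ i)⟩, ?_⟩
        rw [hb']) hT P hP1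
    apply h7
    refine hgood.2 r l hl (fun c hc => congrFun (hli c hc)) P' h6 ?_ ?_ ?_
    · intro i
      rw [degreeOf_eq_sup, Finset.sup_le_iff]
      intro β hβ
      obtain ⟨γ, hγ, hγ2⟩ := h9 β hβ
      rw [hγ2]
      have := hP2 i
      rw [degreeOf_eq_sup, Finset.sup_le_iff] at this
      exact this γ hγ
    · intro β hβ
      obtain ⟨γ, hγ, hγ2⟩ := h9 β hβ
      simp only [hγ2]
      exact hP3 γ hγ
    · rw [h8]
      exact h0

/-- the dimension of the space of coefficients -/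
theorem relC_bound {s : ℕ} (D : ℕ) (α : Fin s → ℂ) (hα : ∀ i, IsAlgebraic ℚ (α i))
    (hαi : LinearIndependent ℚ α) : Module.Finite (algebraicClosure ℚ ℂ) (RelC D α) ∧
    finrank (algebraicClosure ℚ ℂ) (RelC D α) ≤ ((D + 1) ^ s + 1) ^ 3 + 1 := by
  obtain ⟨W, h1, h2, h3, -⟩ := exp_setup D α hα hαi
  obtain ⟨h4, h5, -, -⟩ := exSp_bound setup_complex.hyp setup_complex.one W h2
  rw [h3] at h4 h5
  refine ⟨h4, h5.trans (le_of_eq ?_)⟩
  ring

/-- bound for the codimension -/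
theorem bigN_eq (n D s : ℕ) :
    bigN n D ((D + 1) ^ s) 0 = ((D + 3) * (D + 2) ^ n * (((D + 1) ^ s + 1) ^ 3 + 1)) ^ 2 := by
  unfold bigN
  ring

end Pool.Agent.R350
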