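import Pool.Agent.R350.GP
import Pool.Agent.R350.HH
import Pool.Agent.R350.Inst
import Pool.Agent.W245.EB.RedZ

/-!
# Relations with elliptic logarithms
-/

set_option autoImplicit false

namespace Pool.Agent.R350

open Module Finset MvPolynomial
open scoped PeriodPair

section

variable {κ C : Type*} [Field κ] [Field C] [Algebra κ C] {σ τ : Type*} [Fintype σ] [Fintype τ]

/-- substitution of values for the first group of variables, exponents in a given set -/
theorem subst_set (t : σ → C) (S : Set (σ → ℕ)) (W : Submodule κ C)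
    (hW : ∀ μ ∈ S, ∏ i, t i ^ μ i ∈ W)
    (hT : ∀ Q : MvPolynomial σ κ, (∀ β ∈ Q.support, (fun i => β i) ∈ S) → aeval t Q = 0 → Q = 0)
    (P : MvPolynomial (σ ⊕ τ) κ) (hP : ∀ γ ∈ P.support, (fun i => γ (Sum.inl i)) ∈ S) :
    ∃ P' : MvPolynomial τ C, (∀ β, P'.coeff β ∈ W) ∧ (P' = 0 → P = 0) ∧
      (∀ y : τ → C, eval y P' = aeval (Sum.elim t y) P) ∧
      ∀ β ∈ P'.support, ∃ γ ∈ P.support, ∀ j, β j = γ (Sum.inr j) := by
  classical
  let e : (σ ⊕ τ →₀ ℕ) ≃ (σ →₀ ℕ) × (τ →₀ ℕ) := Finsupp.sumFinsuppEquivProdFinsupp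
  have e1 : ∀ γ i, (e γ).1 i = γ (Sum.inl i) := fun γ i => Finsupp.fst_sumFinsuppEquivProdFinsupp γ i
  have e2 : ∀ γ j, (e γ).2 j = γ (Sum.inr j) := fun γ j => Finsupp.snd_sumFinsuppEquivProdFinsupp γ j
  let P' : MvPolynomial τ C := ∑ γ ∈ P.support,
    monomial (e γ).2 (algebraMap κ C (P.coeff γ) * ∏ i, t i ^ γ (Sum.inl i))
  have hcoef : ∀ β, P'.coeff β = ∑ γ ∈ P.support.filter (fun γ => (e γ).2 = β),
      algebraMap κ C (P.coeff γ) * ∏ i, t i ^ γ (Sum.inl i) := by
    intro β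
    simp only [P', coeff_sum, coeff_monomial]
    rw [Finset.sum_filter]
  refine ⟨P', ?_, ?_, ?_, ?_⟩
  · intro β
    rw [hcoef]
    refine Submodule.sum_mem _ fun γ hγ => ?_
    rw [← Algebra.smul_def]
    exact W.smul_mem _ (hW _ (hP γ (Finset.mem_filter.1 hγ).1))
  · intro h0
    ext γ0
    rw [coeff_zero]
    by_cases hγ0 : γ0 ∈ P.support
    · have h1 := hT (∑ γ ∈ P.support.filter (fun γ => (e γ).2 = (e γ0).2),
        monomial (e γ).1 (P.coeff γ)) (by
        intro β hβ
        rw [MvPolynomial.mem_support_iff, coeff_sum] at hβ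
        obtain ⟨γ, hγ, h⟩ := Finset.exists_ne_zero_of_sum_ne_zero hβ
        rw [coeff_monomial] at h
        have h' : (e γ).1 = β := by
          by_contra hne
          exact h (if_neg hne)
        have h2 := hP γ (Finset.mem_filter.1 hγ).1
        have h3 : (fun i => β i) = fun i => γ (Sum.inl i) := by
          funext i
          rw [← h', e1]
        rw [h3]
        exact h2) (by
        rw [map_sum, ← coeff_zero (R := C) (e γ0).2, ← h0, hcoef]
        refine Finset.sum_congr rfl fun γ _ => ?_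
        rw [aeval_monomial, Finsupp.prod_fintype _ _ (fun i => pow_zero _)]
        simp only [e1])
      have h2 := congrArg (coeff (e γ0).1) h1
      rw [coeff_zero, coeff_sum, Finset.sum_eq_single γ0, coeff_monomial, if_pos rfl] at h2
      · exact h2
      · intro γ hγ hne
        rw [coeff_monomial, if_neg]
        intro h3
        apply hne
        apply e.injective
        exact Prod.ext h3 (Finset.mem_filter.1 hγ).2
      · intro h3
        exact (h3 (Finset.mem_filter.2 ⟨hγ0, rfl⟩)).elim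
    · exact notMem_support_iff.1 hγ0
  · intro y
    simp only [P', map_sum, MvPolynomial.eval_monomial]
    conv_rhs => rw [MvPolynomial.as_sum P, map_sum]
    refine Finset.sum_congr rfl fun γ _ => ?_
    rw [aeval_monomial, Finsupp.prod_fintype _ _ (fun i => pow_zero _),
      Finsupp.prod_fintype _ _ (fun i => pow_zero _), Fintype.prod_sum_type]
    simp only [e2, Sum.elim_inl, Sum.elim_inr]
    ring
  · intro β hβ
    rw [MvPolynomial.mem_support_iff, hcoef] at hβ
    obtain ⟨γ, hγ, -⟩ := Finset.exists_ne_zero_of_sum_ne_zero hβ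
    refine ⟨γ, (Finset.mem_filter.1 hγ).1, fun j => ?_⟩
    rw [← (Finset.mem_filter.1 hγ).2, e2]

/-- polynomials of degree at most one -/
theorem eq_zero_of_deg_one (t : σ → C) (hli : ∀ (c : σ → κ) (c0 : κ),
      ∑ i, c i • t i = c0 • (1 : C) → ∀ i, c i = 0) (Q : MvPolynomial σ κ)
    (hQ : ∀ β ∈ Q.support, ∑ i, β i ≤ 1) (h0 : aeval t Q = 0) : Q = 0 := by
  classical
  let ε : Option σ → (σ →₀ ℕ) := fun o => o.elim 0 (fun i => Finsupp.single i 1)
  have hε : Function.Injective ε := by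
    rintro (_ | i) (_ | j) h
    · rfl
    · exfalso
      have := DFunLike.congr_fun h j
      simp [ε] at this
    · exfalso
      have := DFunLike.congr_fun h i
      simp [ε] at this
    · have := Finsupp.single_left_injective one_ne_zero h
      rw [this]
  have hsupp : Q.support ⊆ Finset.univ.image ε := by
    intro β hβ
    rw [Finset.mem_image]
    by_cases hz : ∀ i, β i = 0
    · exact ⟨none, Finset.mem_univ _, by ext i; simp [ε, hz i]⟩
    · push Not at hz
      obtain ⟨i, hi⟩ := hz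
      refine ⟨some i, Finset.mem_univ _, ?_⟩
      have h1 := hQ β hβ
      rw [← Finset.add_sum_erase _ _ (Finset.mem_univ i)] at h1
      ext j
      simp only [ε, Option.elim]
      by_cases hij : i = j
      · subst hij
        rw [Finsupp.single_eq_same]
        omega
      · rw [Finsupp.single_eq_of_ne (Ne.symm hij)]
        have h2 := Finset.single_le_sum (f := fun i => β i) (fun _ _ => Nat.zero_le _)
          (Finset.mem_erase.2 ⟨Ne.symm hij, Finset.mem_univ j⟩)
        have h3 : β j ≤ ∑ x ∈ Finset.univ.erase i, β x := h2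
        omega
  have hval : aeval t Q = Q.coeff 0 • (1 : C) + ∑ i, Q.coeff (Finsupp.single i 1) • t i := by
    conv_lhs => rw [MvPolynomial.as_sum Q, map_sum]
    rw [Finset.sum_subset hsupp (by
      intro β _ hβ
      rw [notMem_support_iff.1 hβ, map_zero, map_zero]), Finset.sum_image hε.injOn,
      Fintype.sum_option]
    congr 1
    · simp only [ε, Option.elim]
      rw [aeval_monomial, Finsupp.prod_zero_index, mul_one, Algebra.smul_def, mul_one]
    · refine Finset.sum_congr rfl fun i _ => ?_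
      simp only [ε, Option.elim]
      rw [aeval_monomial, Finsupp.prod_single_index (h := fun i k => t i ^ k) (pow_zero _), pow_one,
        Algebra.smul_def]
  rw [hval] at h0
  have h1 := hli (fun i => Q.coeff (Finsupp.single i 1)) (-Q.coeff 0) (by
    rw [neg_smul]
    linear_combination h0)
  have h2 : Q.coeff 0 = 0 := by
    rw [Finset.sum_eq_zero (fun i _ => by rw [h1 i, zero_smul]), add_zero] at h0
    exact (smul_eq_zero.1 h0).resolve_right one_ne_zero
  ext β
  rw [coeff_zero]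
  by_cases hβ : β ∈ Q.support
  · obtain ⟨o, -, rfl⟩ := Finset.mem_image.1 (hsupp hβ)
    rcases o with _ | i
    · exact h2
    · exact h1 i
  · exact notMem_support_iff.1 hβ

end

/-- the multiplications -/
def IsMultE (L : PeriodPair) (β : ℂ) : Prop :=
  ∃ m : ℕ, 0 < m ∧ ∀ ω ∈ L.lattice, (m : ℂ) * β * ω ∈ L.lattice

/-- linearly independent elliptic logarithms -/
def EllLogs (L : PeriodPair) {m : ℕ} (p : Fin m → ℂ) : Prop :=
  (∀ i, p i ∈ L.lattice ∨ IsAlgebraic ℚ (℘[L] (p i))) ∧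
  ∀ β : Fin m → ℂ, (∀ i, IsMultE L (β i)) → ∑ i, β i * p i = 0 → ∀ i, β i = 0

theorem ell_li {L : PeriodPair} (h2 : IsAlgebraic ℚ L.g₂) (h3 : IsAlgebraic ℚ L.g₃) {m : ℕ}
    {p : Fin m → ℂ} (hp : EllLogs L p) (c : Fin m → algebraicClosure ℚ ℂ)
    (c0 : algebraicClosure ℚ ℂ) (h : ∑ i, c i • p i = c0 • (1 : ℂ)) : ∀ i, c i = 0 := by
  have h4 := Pool.Agent.W245.EB.second_kind h2 h3 p hp.1
    (fun α hα h0 => funext (hp.2 α hα h0)) 0 1 (isAlgebraic_zero) (isAlgebraic_one)
    (Or.inr one_ne_zero) (fun i => (c i : ℂ))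
    (fun i => mem_algebraicClosure_iff.1 (c i).2) (by
      have h5 : ∑ r, (c r : ℂ) * (0 * Pool.Agent.W245.EB.zt L (p r) + 1 * p r) = (c0 : ℂ) := by
        have h6 : (c0 : ℂ) = c0 • (1 : ℂ) := by
          rw [Algebra.smul_def, mul_one]
          rfl
        rw [h6, ← h]
        refine Finset.sum_congr rfl fun r _ => ?_
        rw [zero_mul, zero_add, one_mul, Algebra.smul_def]
        rfl
      rw [h5]
      exact mem_algebraicClosure_iff.1 c0.2)
  intro i
  have h5 := congrFun h4 i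
  exact Subtype.ext h5

/-- one elliptic logarithm is transcendental -/
theorem ell_trans {L : PeriodPair} (h2 : IsAlgebraic ℚ L.g₂) (h3 : IsAlgebraic ℚ L.g₃)
    {p : Fin 1 → ℂ} (hp : EllLogs L p) (Q : MvPolynomial (Fin 1) (algebraicClosure ℚ ℂ))
    (h0 : aeval p Q = 0) : Q = 0 := by
  have h4 : Transcendental (algebraicClosure ℚ ℂ) (p 0) := by
    intro halg
    have hA : Algebra.IsAlgebraic ℚ (algebraicClosure ℚ ℂ) := algebraicClosure.isAlgebraic ℚ ℂ
    have h5 : IsAlgebraic ℚ (p 0) := halg.restrictScalars ℚ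
    have h6 := ell_li h2 h3 hp (fun _ => 1) ⟨p 0, mem_algebraicClosure_iff.2 h5⟩ (by
      rw [Fin.sum_univ_one, one_smul, Algebra.smul_def, mul_one]
      rfl) 0
    exact one_ne_zero h6
  have h5 : AlgebraicIndependent (algebraicClosure ℚ ℂ) p := by
    rw [algebraicIndependent_unique_type_iff]
    exact h4
  exact (injective_iff_map_eq_zero (aeval p : MvPolynomial (Fin 1) (algebraicClosure ℚ ℂ) →ₐ[_] ℂ)).1
    h5 Q h0

/-- no relations with elliptic logarithms -/
def NoRelL {m n : ℕ} (D : ℕ) (p : Fin m → ℂ) (F : Submodule (algebraicClosure ℚ ℂ) ℂ)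
    (y : Fin n → ℂ) : Prop :=
  (∀ c : Fin n → algebraicClosure ℚ ℂ, ∑ i, c i • y i ∈ F → c = 0) ∧
  ∀ (t : ℕ) (l : Fin t → ℂ), (∀ j, l j ∈ Pool.Agent.H301R2.SSE.Lt) →
    (∀ c : Fin t → algebraicClosure ℚ ℂ, ∑ j, c j • l j ∈ F ⊔
      Submodule.span (algebraicClosure ℚ ℂ) (Set.range y) → c = 0) →
    ∀ P : MvPolynomial (Fin m ⊕ (Fin n ⊕ Fin t)) (algebraicClosure ℚ ℂ),
      (∀ β ∈ P.support, ∑ i, β (Sum.inl i) ≤ 1 ∨ (m = 1 ∧ ∑ i, β (Sum.inl i) ≤ D)) →
      (∀ i, P.degreeOf (Sum.inr (Sum.inl i)) ≤ D) →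
      (∀ β ∈ P.support, ∑ j, β (Sum.inr (Sum.inr j)) ≤ 1) →
      aeval (Sum.elim p (Sum.elim y l)) P = 0 → P = 0

theorem ell_setup {L : PeriodPair} (h2 : IsAlgebraic ℚ L.g₂) (h3 : IsAlgebraic ℚ L.g₃)
    {m : ℕ} (D : ℕ) {p : Fin m → ℂ} (hp : EllLogs L p) :
    ∃ W : Submodule (algebraicClosure ℚ ℂ) ℂ, Module.Finite (algebraicClosure ℚ ℂ) W ∧
    finrank (algebraicClosure ℚ ℂ) W ≤ m + (D + 1) ∧
    ∀ (n : ℕ) (y : Fin n → ℂ), NoRel' Pool.Agent.H301R2.SSE.Lt W
      (exSp Pool.Agent.H301R2.SSE.Lt W) D y →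
      NoRelL D p (exSp Pool.Agent.H301R2.SSE.Lt W) y := by
  classical
  let b : Fin m ⊕ Fin (D + 1) → ℂ := Sum.elim p (fun j => (∑ i, p i) ^ (j : ℕ))
  set W := Submodule.span (algebraicClosure ℚ ℂ) (Set.range b) with hWdef
  refine ⟨W, FiniteDimensional.span_of_finite _ (Set.finite_range _), ?_, ?_⟩
  · refine (finrank_range_le_card b).trans ?_
    rw [Fintype.card_sum, Fintype.card_fin, Fintype.card_fin]
  intro n y hgood
  let S : Set (Fin m → ℕ) := {μ | ∑ i, μ i ≤ 1 ∨ (m = 1 ∧ ∑ i, μ i ≤ D)}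
  have hpow : ∀ j ≤ D, (∑ i, p i) ^ j ∈ W := fun j hj =>
    Submodule.subset_span ⟨Sum.inr ⟨j, Nat.lt_succ_of_le hj⟩, rfl⟩
  have hW : ∀ μ ∈ S, ∏ i, p i ^ μ i ∈ W := by
    rintro μ (h | ⟨rfl, h⟩)
    · by_cases hz : ∀ i, μ i = 0
      · rw [Finset.prod_eq_one (fun i _ => by rw [hz i, pow_zero])]
        have := hpow 0 (Nat.zero_le _)
        rwa [pow_zero] at this
      · push Not at hz
        obtain ⟨i, hi⟩ := hz
        rw [← Finset.add_sum_erase _ _ (Finset.mem_univ i)] at h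
        have h4 : ∀ j ≠ i, μ j = 0 := by
          intro j hj
          have h5 := Finset.single_le_sum (f := fun i => μ i) (fun _ _ => Nat.zero_le _)
            (Finset.mem_erase.2 ⟨hj, Finset.mem_univ j⟩)
          have h6 : μ j ≤ ∑ x ∈ Finset.univ.erase i, μ x := h5
          omega
        rw [Finset.prod_eq_single i (fun j _ hj => by rw [h4 j hj, pow_zero])
          (fun h => absurd (Finset.mem_univ _) h)]
        have h7 : μ i = 1 := by omega
        rw [h7, pow_one]
        exact Submodule.subset_span ⟨Sum.inl i, rfl⟩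
    · have := hpow (μ 0) (by rwa [Fin.sum_univ_one] at h)
      rw [Fin.sum_univ_one] at this
      rwa [Fin.prod_univ_one]
  have hT : ∀ Q : MvPolynomial (Fin m) (algebraicClosure ℚ ℂ),
      (∀ β ∈ Q.support, (fun i => β i) ∈ S) → aeval p Q = 0 → Q = 0 := by
    intro Q hQ h0
    by_cases hm : m = 1
    · subst hm
      exact ell_trans h2 h3 hp Q h0
    · refine eq_zero_of_deg_one p (ell_li h2 h3 hp) Q (fun β hβ => ?_) h0
      rcases hQ β hβ with h | ⟨h, -⟩
      · exact h
      · exact absurd h hm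
  refine ⟨fun c hc => funext (hgood.1 c hc), fun r l hl hli P hP1 hP2 hP3 h0 => ?_⟩
  obtain ⟨P', h6, h7, h8, h9⟩ := subst_set p S W hW hT P hP1
  apply h7
  refine hgood.2 r l hl (fun c hc => congrFun (hli c hc)) P' h6 ?_ ?_ ?_
  · intro i
    rw [degreeOf_eq_sup, Finset.sup_le_iff]
    intro β hβ
    obtain ⟨γ, hγ, hγ2⟩ := h9 β hβ
    rw [hγ2]
    have := hP2 i
    rw [degreeOf_eq_sup, Finset.sup_le_iff] at this
    exact this γ hγ
  · intro β hβ
    obtain ⟨γ, hγ, hγ2⟩ := h9 β hβ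
    simp only [hγ2]
    exact hP3 γ hγ
  · rw [h8]
    exact h0

end Pool.Agent.R350
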