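import Pool.Agent.R350.HJ

/-!
# Relations with arbitrary constants are trivial; translations by points of a torus
-/

set_option autoImplicit false

namespace Pool.Agent.R350

open Module MvPolynomial

section

variable {κ C : Type*} [Field κ] [Field C] [Algebra κ C] {σ τ : Type*} [Fintype σ] [Fintype τ]

/-- the space spanned by the monomials of degree at most `D` in every variable -/
def monS (κ : Type*) [Field κ] {C : Type*} [Field C] [Algebra κ C] {σ : Type*} [Fintype σ] (D : ℕ)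
    (w : σ → C) : Submodule κ C :=
  Submodule.span κ (Set.range fun μ : σ → Fin (D + 1) => ∏ i, w i ^ (μ i : ℕ))

theorem monS_finite (D : ℕ) (w : σ → C) : Module.Finite κ (monS κ D w) := by
  classical
  exact FiniteDimensional.span_of_finite _ (Set.finite_range _)

theorem monS_rank (D : ℕ) (w : σ → C) :
    finrank κ (monS κ D w) ≤ (D + 1) ^ Fintype.card σ := by
  classical
  refine (finrank_range_le_card (R := κ) (fun μ : σ → Fin (D + 1) => ∏ i, w i ^ (μ i : ℕ))).trans ?_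
  rw [Fintype.card_fun, Fintype.card_fin]

theorem mem_monS {D : ℕ} (w : σ → C) (μ : σ → ℕ) (h : ∀ i, μ i ≤ D) :
    ∏ i, w i ^ μ i ∈ monS κ D w :=
  Submodule.subset_span ⟨fun i => ⟨μ i, Nat.lt_succ_of_le (h i)⟩, rfl⟩

/-- substitution of values for the first group of variables -/
theorem subst_triv (t : σ → C) (D : ℕ) (W : Submodule κ C)
    (hW : ∀ μ : σ → ℕ, (∀ i, μ i ≤ D) → ∏ i, t i ^ μ i ∈ W)
    (P : MvPolynomial (σ ⊕ τ) κ) (hP : ∀ i, P.degreeOf (Sum.inl i) ≤ D) :
    ∃ P' : MvPolynomial τ C, (∀ β, P'.coeff β ∈ W) ∧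
      (∀ y : τ → C, eval y P' = aeval (Sum.elim t y) P) ∧
      ∀ β ∈ P'.support, ∃ γ ∈ P.support, ∀ j, β j = γ (Sum.inr j) := by
  classical
  let e : (σ ⊕ τ →₀ ℕ) ≃ (σ →₀ ℕ) × (τ →₀ ℕ) := Finsupp.sumFinsuppEquivProdFinsupp
  have e2 : ∀ γ j, (e γ).2 j = γ (Sum.inr j) := fun γ j => Finsupp.snd_sumFinsuppEquivProdFinsupp γ j
  let P' : MvPolynomial τ C := ∑ γ ∈ P.support,
    monomial (e γ).2 (algebraMap κ C (P.coeff γ) * ∏ i, t i ^ γ (Sum.inl i))
  have hcoef : ∀ β, P'.coeff β = ∑ γ ∈ P.support.filter (fun γ => (e γ).2 = β),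
      algebraMap κ C (P.coeff γ) * ∏ i, t i ^ γ (Sum.inl i) := by
    intro β
    simp only [P', coeff_sum, coeff_monomial]
    rw [Finset.sum_filter]
  refine ⟨P', ?_, ?_, ?_⟩
  · intro β
    rw [hcoef]
    refine Submodule.sum_mem _ fun γ hγ => ?_
    rw [← Algebra.smul_def]
    refine W.smul_mem _ (hW _ fun i => ?_)
    have h1 := hP i
    rw [degreeOf_eq_sup, Finset.sup_le_iff] at h1
    exact h1 γ (Finset.mem_filter.1 hγ).1
  · intro y
    simp only [P', map_sum, MvPolynomial.eval_monomial]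
    conv_rhs => rw [MvPolynomial.as_sum P, map_sum]
    refine Finset.sum_congr rfl fun γ _ => ?_
    rw [aeval_monomial, Finsupp.prod_fintype _ _ (fun i => pow_zero _),
      Finsupp.prod_fintype _ _ (fun i => pow_zero _), Fintype.prod_sum_type]
    simp only [e2, Sum.elim_inl, Sum.elim_inr]
    ring
  · intro β hβ
    rw [MvPolynomial.mem_support_iff, hcoef] at hβ
    obtain ⟨γ, hγ, -⟩ := Finset.exists_ne_zero_of_sum_ne_zero hβ
    refine ⟨γ, (Finset.mem_filter.1 hγ).1, fun j => ?_⟩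
    rw [← (Finset.mem_filter.1 hγ).2, e2]

/-- `y` is independent modulo `F`, and the relations between `w` and `y`, linear in elements of `L`
which are independent modulo `F` and `y`, are trivial -/
def OnlyTriv (L F : Submodule κ C) (D : ℕ) (w : σ → C) {n : ℕ} (y : Fin n → C) : Prop :=
  (∀ c : Fin n → κ, ∑ i, c i • y i ∈ F → c = 0) ∧
  ∀ (r : ℕ) (l : Fin r → C), (∀ j, l j ∈ L) →
    (∀ c : Fin r → κ, ∑ j, c j • l j ∈ F ⊔ Submodule.span κ (Set.range y) → c = 0) →
    ∀ P : MvPolynomial (σ ⊕ (Fin n ⊕ Fin r)) κ, (∀ i, P.degreeOf (Sum.inl i) ≤ D) →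
      (∀ i, P.degreeOf (Sum.inr (Sum.inl i)) ≤ D) →
      (∀ β ∈ P.support, ∑ j, β (Sum.inr (Sum.inr j)) ≤ 1) →
      aeval (Sum.elim w (Sum.elim y l)) P = 0 →
      ∀ (y' : Fin n → C) (l' : Fin r → C), aeval (Sum.elim w (Sum.elim y' l')) P = 0

theorem onlyTriv_of {L W F : Submodule κ C} {D n : ℕ} {w : σ → C} {y : Fin n → C}
    (h : NoRel' L W F D y)
    (hW : ∀ μ : σ → ℕ, (∀ i, μ i ≤ D) → ∏ i, w i ^ μ i ∈ W) : OnlyTriv L F D w y := by
  classical
  refine ⟨fun c hc => funext (h.1 c hc), fun r l hl hli P hP1 hP2 hP3 h0 y' l' => ?_⟩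
  obtain ⟨P', h6, h8, h9⟩ := subst_triv w D W hW P hP1
  have h10 : P' = 0 := by
    refine h.2 r l hl (fun c hc => congrFun (hli c hc)) P' h6 ?_ ?_ ?_
    · intro i
      rw [degreeOf_eq_sup, Finset.sup_le_iff]
      intro β hβ
      obtain ⟨γ, hγ, hγ2⟩ := h9 β hβ
      rw [hγ2]
      have := hP2 i
      rw [degreeOf_eq_sup, Finset.sup_le_iff] at this
      exact this γ hγ
    · intro β hβ
      obtain ⟨γ, hγ, hγ2⟩ := h9 β hβ
      simp only [hγ2]
      exact hP3 γ hγ
    · rw [h8]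
      exact h0
  rw [← h8, h10, map_zero]

end

/-- `ℚ`-linearly independent logarithms of algebraic numbers -/
theorem li_logs {R : ℕ} (l : Fin R → ℂ) (hl : ∀ j, IsAlgebraic ℚ (Complex.exp (l j)))
    (hli : LinearIndependent ℚ l) :
    LinearIndependent (algebraicClosure ℚ ℂ) (fun o : Option (Fin R) => o.elim 1 l) := by
  classical
  rw [Fintype.linearIndependent_iff]
  intro g hg
  rw [Fintype.sum_option] at hg
  have h1 := Pool.Agent.H297R2.baker_inhom l hl hli (g none : ℂ)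
    (mem_algebraicClosure_iff.1 (g none).2) (fun i => (g (some i) : ℂ))
    (fun i => mem_algebraicClosure_iff.1 (g (some i)).2) (by
      rw [← hg]
      congr 1
      · simp only [Option.elim]
        rw [Algebra.smul_def, mul_one]
        rfl)
  rintro (_ | i)
  · exact Subtype.ext h1.1
  · exact Subtype.ext (h1.2 i)

/-- **Translations by the points of a finitely generated subgroup of a torus.** -/
theorem toric_count (n D m R : ℕ) : ∃ K : ℕ, ∀ (z : Fin n → ℂ) (l : Fin R → ℂ),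
    (∀ j, IsAlgebraic ℚ (Complex.exp (l j))) → LinearIndependent ℚ l →
    ∀ W : Submodule (algebraicClosure ℚ ℂ) ℂ, Module.Finite (algebraicClosure ℚ ℂ) W →
    finrank (algebraicClosure ℚ ℂ) W ≤ m →
    ∀ H : ℕ, 1 ≤ H → Set.ncard {a : Fin n → Fin R → ℤ | (∀ i j, |a i j| ≤ H) ∧
      ¬ NoRel' (Pool.Agent.H301R2.SSE.Lt ⊔ Submodule.span (algebraicClosure ℚ ℂ) (Set.range z)) W
        (exSp (Pool.Agent.H301R2.SSE.Lt ⊔ Submodule.span (algebraicClosure ℚ ℂ) (Set.range z)) W) D
        (fun i => z i + ∑ k, (a i k : algebraicClosure ℚ ℂ) • l k)} ≤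
      K * H ^ ((n - 1) * R + bigN n D m n) := by
  classical
  obtain ⟨K, hK⟩ := norel_count (algebraicClosure ℚ ℂ) ℂ n D n m R
  refine ⟨K, fun z l hl hli W hWf hW H hH => ?_⟩
  have hfin : FiniteDimensional (algebraicClosure ℚ ℂ)
      (Submodule.span (algebraicClosure ℚ ℂ) (Set.range z)) :=
    FiniteDimensional.span_of_finite _ (Set.finite_range _)
  have h1 := setup_complex.hyp.sup (Submodule.span (algebraicClosure ℚ ℂ) (Set.range z))
    ((finrank_range_le_card (R := algebraicClosure ℚ ℂ) z).trans (Fintype.card_fin n).le)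
  rw [Nat.zero_add] at h1
  refine hK _ h1 (Submodule.mem_sup_left setup_complex.one) W hWf hW z
    (fun i => Submodule.mem_sup_right (Submodule.subset_span ⟨i, rfl⟩)) l
    (fun k => Submodule.mem_sup_left ?_) (li_logs l hl hli) H hH
  exact Submodule.subset_span (Or.inr (hl k))

end Pool.Agent.R350
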