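import Pool.Agent.R350.HH
import Pool.Agent.R350.GU

/-!
# Singular matrices with a generic row, from relations linear in arbitrary elements
-/

set_option autoImplicit false

namespace Pool.Agent.R350

open Module MvPolynomial

section

variable {k A : Type*} [Field k] [Field A] [Algebra k A]

theorem CoefIn.add {σ : Type*} {V : Submodule k A} {P Q : MvPolynomial σ A} (hP : CoefIn V P)
    (hQ : CoefIn V Q) : CoefIn V (P + Q) := fun β => by
  rw [coeff_add]
  exact V.add_mem (hP β) (hQ β)

theorem CoefIn.neg {σ : Type*} {V : Submodule k A} {P : MvPolynomial σ A} (hP : CoefIn V P) :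
    CoefIn V (-P) := fun β => by
  rw [coeff_neg]
  exact V.neg_mem (hP β)

theorem CoefIn.sub {σ : Type*} {V : Submodule k A} {P Q : MvPolynomial σ A} (hP : CoefIn V P)
    (hQ : CoefIn V Q) : CoefIn V (P - Q) := fun β => by
  rw [coeff_sub]
  exact V.sub_mem (hP β) (hQ β)

theorem CoefIn.zero {σ : Type*} {V : Submodule k A} : CoefIn V (0 : MvPolynomial σ A) := fun β => by
  rw [coeff_zero]
  exact V.zero_mem

theorem CoefIn.sum {σ ι : Type*} {V : Submodule k A} (s : Finset ι) (P : ι → MvPolynomial σ A)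
    (h : ∀ i ∈ s, CoefIn V (P i)) : CoefIn V (∑ i ∈ s, P i) := fun β => by
  rw [coeff_sum]
  exact Submodule.sum_mem _ fun i hi => h i hi β

theorem CoefIn.mul {σ : Type*} {V W : Submodule k A} {P Q : MvPolynomial σ A} (hP : CoefIn V P)
    (hQ : CoefIn W Q) : CoefIn (V * W) (P * Q) := fun β => by
  classical
  rw [coeff_mul]
  exact Submodule.sum_mem _ fun x _ => Submodule.mul_mem_mul (hP _) (hQ _)

theorem CoefIn.mono {σ : Type*} {V W : Submodule k A} (h : V ≤ W) {P : MvPolynomial σ A}
    (hP : CoefIn V P) : CoefIn W P := fun β => h (hP β)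

theorem CoefIn.X_mul {σ : Type*} {V : Submodule k A} {P : MvPolynomial σ A} (hP : CoefIn V P)
    (i : σ) : CoefIn V (X i * P) := fun β => by
  classical
  rw [coeff_X_mul']
  split_ifs
  · exact hP _
  · exact V.zero_mem

theorem CoefIn.rename_inl {σ τ : Type*} {V : Submodule k A} {P : MvPolynomial σ A}
    (hP : CoefIn V P) : CoefIn V (rename (Sum.inl : σ → σ ⊕ τ) P) := fun β => by
  by_cases h : ∃ γ : σ →₀ ℕ, γ.mapDomain Sum.inl = β
  · obtain ⟨γ, rfl⟩ := h
    rw [coeff_rename_mapDomain _ Sum.inl_injective]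
    exact hP γ
  · push Not at h
    rw [coeff_rename_eq_zero _ _ _ (fun γ hγ => absurd hγ (h γ))]
    exact V.zero_mem

/-- affine polynomials -/
noncomputable def aff {n : ℕ} (a0 : A) (a : Fin n → A) : MvPolynomial (Fin n) A :=
  C a0 + ∑ i, C (a i) * X i

theorem eval_aff {n : ℕ} (a0 : A) (a x : Fin n → A) :
    eval x (aff a0 a) = a0 + ∑ i, a i * x i := by
  unfold aff
  simp

theorem aff_coef {n : ℕ} {V : Submodule k A} {a0 : A} {a : Fin n → A} (h0 : a0 ∈ V)
    (h : ∀ i, a i ∈ V) : CoefIn V (aff a0 a) := by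
  classical
  intro β
  unfold aff
  rw [coeff_add, coeff_C, coeff_sum]
  refine V.add_mem ?_ (Submodule.sum_mem _ fun i _ => ?_)
  · split_ifs
    · exact h0
    · exact V.zero_mem
  · rw [coeff_C_mul, coeff_X]
    split_ifs
    · rw [mul_one]; exact h i
    · rw [mul_zero]; exact V.zero_mem

theorem aff_degree {n : ℕ} (a0 : A) (a : Fin n → A) (i : Fin n) : (aff a0 a).degreeOf i ≤ 1 := by
  classical
  unfold aff
  refine (degreeOf_add_le _ _ _).trans (max_le ?_ ?_)
  · rw [degreeOf_C]; omega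
  · refine (degreeOf_sum_le _ _ _).trans ?_
    rw [Finset.sup_le_iff]
    intro j _
    refine (degreeOf_C_mul_le _ _ _).trans ?_
    rw [degreeOf_X]
    split_ifs <;> omega

theorem aff_eq_zero {n : ℕ} {a0 : A} {a : Fin n → A} (h : aff a0 a = 0) : a0 = 0 ∧ ∀ i, a i = 0 := by
  classical
  have h1 : ∀ x : Fin n → A, a0 + ∑ i, a i * x i = 0 := fun x => by
    rw [← eval_aff, h, map_zero]
  have h0 : a0 = 0 := by simpa using h1 0
  refine ⟨h0, fun i => ?_⟩
  have h2 := h1 (Pi.single i 1)
  rw [h0, zero_add, Finset.sum_eq_single i] at h2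
  · simpa using h2
  · intro j _ hj
    rw [Pi.single_eq_of_ne hj, mul_zero]
  · intro h; exact absurd (Finset.mem_univ _) h

/-- products of affine polynomials -/
theorem aff_mul [CharZero A] {n : ℕ} {a0 b0 c0 d0 : A} {a b c d : Fin n → A}
    (h : aff a0 a * aff d0 d = aff b0 b * aff c0 c) {j0 : Fin n} (hj0 : a j0 ≠ 0) :
    (b0 = b j0 / a j0 * a0 ∧ ∀ j, b j = b j0 / a j0 * a j) ∨
      (c0 = c j0 / a j0 * a0 ∧ ∀ j, c j = c j0 / a j0 * a j) := by
  classical
  have key : ∀ (b0 : A) (b x : Fin n → A), b0 + ∑ j, b j *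
      (x j - if j = j0 then (a0 + ∑ i, a i * x i) / a j0 else 0) =
      eval x (aff (b0 - b j0 / a j0 * a0) (fun j => b j - b j0 / a j0 * a j)) := by
    intro b0 b x
    rw [eval_aff]
    simp only [mul_sub, sub_mul, Finset.sum_sub_distrib, mul_ite, mul_zero]
    rw [Finset.sum_ite_eq' Finset.univ j0, if_pos (Finset.mem_univ _)]
    have h1 : ∑ i, b j0 / a j0 * a i * x i = b j0 / a j0 * ∑ i, a i * x i := by
      rw [Finset.mul_sum]
      exact Finset.sum_congr rfl fun i _ => by ring
    rw [h1]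
    ring
  have h0 : aff (b0 - b j0 / a j0 * a0) (fun j => b j - b j0 / a j0 * a j) *
      aff (c0 - c j0 / a j0 * a0) (fun j => c j - c j0 / a j0 * a j) = 0 := by
    apply MvPolynomial.funext
    intro x
    rw [map_mul, ← key, ← key, map_zero]
    have h1 := congrArg (eval fun j => x j - if j = j0 then (a0 + ∑ i, a i * x i) / a j0 else 0) h
    rw [map_mul, map_mul, eval_aff, eval_aff, eval_aff, eval_aff] at h1
    rw [← h1]
    have h2 : a0 + ∑ j, a j * (x j - if j = j0 then (a0 + ∑ i, a i * x i) / a j0 else 0) = 0 := by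
      simp only [mul_sub, Finset.sum_sub_distrib, mul_ite, mul_zero]
      rw [Finset.sum_ite_eq' Finset.univ j0, if_pos (Finset.mem_univ _)]
      field_simp
      ring
    rw [h2, zero_mul]
  rcases mul_eq_zero.1 h0 with h1 | h1
  · left
    obtain ⟨h2, h3⟩ := aff_eq_zero h1
    exact ⟨sub_eq_zero.1 h2, fun j => sub_eq_zero.1 (h3 j)⟩
  · right
    obtain ⟨h2, h3⟩ := aff_eq_zero h1
    exact ⟨sub_eq_zero.1 h2, fun j => sub_eq_zero.1 (h3 j)⟩

end

section

variable {κ C : Type*} [Field κ] [Field C] [Algebra κ C] [CharZero C]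

/-- relations which are linear in `l`, in coordinates -/
theorem NoRel'.lin {L W F : Submodule κ C} {D n : ℕ} {y : Fin n → C} (h : NoRel' L W F D y) {r : ℕ}
    (l : Fin r → C) (hl : ∀ j, l j ∈ L)
    (hli : ∀ c : Fin r → κ, ∑ j, c j • l j ∈ F ⊔ Submodule.span κ (Set.range y) → ∀ j, c j = 0)
    (Q0 : MvPolynomial (Fin n) C) (Q : Fin r → MvPolynomial (Fin n) C) (h0 : CoefIn W Q0)
    (hQ : ∀ j, CoefIn W (Q j)) (d0 : ∀ i, Q0.degreeOf i ≤ D) (dQ : ∀ j i, (Q j).degreeOf i ≤ D)
    (he : eval y Q0 + ∑ j, l j * eval y (Q j) = 0) : Q0 = 0 ∧ ∀ j, Q j = 0 := by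
  classical
  have hinj : Function.Injective (Sum.inl : Fin n → Fin n ⊕ Fin r) := Sum.inl_injective
  set P : MvPolynomial (Fin n ⊕ Fin r) C :=
    rename Sum.inl Q0 + ∑ j, X (Sum.inr j) * rename Sum.inl (Q j) with hP
  have hsup : ∀ Q' : MvPolynomial (Fin n) C, ∀ β ∈ (rename (Sum.inl : Fin n → Fin n ⊕ Fin r)
      Q').support, ∃ γ ∈ Q'.support, β = γ.mapDomain Sum.inl := by
    intro Q' β hβ
    rw [support_rename_of_injective hinj] at hβ
    obtain ⟨γ, hγ, rfl⟩ := Finset.mem_image.1 hβ
    exact ⟨γ, hγ, rfl⟩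
  have hr : ∀ (γ : Fin n →₀ ℕ) (j : Fin r),
      (Finsupp.mapDomain Sum.inl γ : Fin n ⊕ Fin r →₀ ℕ) (Sum.inr j) = 0 :=
    fun γ j => Finsupp.mapDomain_of_notMem_range _ _ (by simp)
  have hP0 : P = 0 := by
    refine h.2 r l hl hli P ?_ ?_ ?_ ?_
    · exact h0.rename_inl.add (CoefIn.sum _ _ fun j _ => (hQ j).rename_inl.X_mul _)
    · intro i
      refine (degreeOf_add_le _ _ _).trans (max_le ?_ ?_)
      · rw [degreeOf_rename_of_injective hinj]
        exact d0 i
      · refine (degreeOf_sum_le _ _ _).trans (Finset.sup_le fun j _ => ?_)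
        refine (degreeOf_mul_le _ _ _).trans ?_
        rw [degreeOf_X, if_neg (by simp), zero_add, degreeOf_rename_of_injective hinj]
        exact dQ j i
    · intro β hβ
      rcases Finset.mem_union.1 (MvPolynomial.support_add hβ) with hβ | hβ
      · obtain ⟨γ, -, rfl⟩ := hsup _ β hβ
        rw [Finset.sum_eq_zero fun j _ => hr γ j]
        exact Nat.zero_le _
      · obtain ⟨j, -, hj⟩ := Finset.mem_biUnion.1 (MvPolynomial.support_sum hβ)
        rw [mul_comm, support_mul_X] at hj
        obtain ⟨β', hβ', rfl⟩ := Finset.mem_map.1 hj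
        obtain ⟨γ, -, rfl⟩ := hsup _ β' hβ'
        simp only [addRightEmbedding_apply, Finsupp.add_apply, hr, zero_add]
        rw [Finset.sum_eq_single j]
        · rw [Finsupp.single_eq_same]
        · intro j' _ hj'
          rw [Finsupp.single_eq_of_ne]
          intro h'
          exact hj' (Sum.inr_injective h')
        · intro h; exact absurd (Finset.mem_univ _) h
    · rw [hP, map_add, map_sum, eval_rename, ← he]
      congr 1
      refine Finset.sum_congr rfl fun j _ => ?_
      rw [map_mul, eval_X, eval_rename]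
      rfl
  have hval : ∀ (x : Fin n → C) (u : Fin r → C), eval x Q0 + ∑ j, u j * eval x (Q j) = 0 := by
    intro x u
    have h1 := congrArg (eval (Sum.elim x u)) hP0
    rw [hP, map_add, map_sum, eval_rename, map_zero] at h1
    rw [← h1]
    congr 1
    refine Finset.sum_congr rfl fun j _ => ?_
    rw [map_mul, eval_X, eval_rename]
    rfl
  have hQ0 : Q0 = 0 := by
    apply MvPolynomial.funext
    intro x
    rw [map_zero, ← hval x 0]
    simp
  refine ⟨hQ0, fun j => ?_⟩
  apply MvPolynomial.funext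
  intro x
  have h1 := hval x (Pi.single j 1)
  rw [hQ0, map_zero, zero_add, Finset.sum_eq_single j] at h1
  · rw [map_zero, ← h1]
    simp
  · intro j' _ hj'
    rw [Pi.single_eq_of_ne hj', zero_mul]
  · intro h; exact absurd (Finset.mem_univ _) h

end

end Pool.Agent.R350
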