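import Pool.Agent.R350.HL

/-!
# Singular matrices with a generic row
-/

set_option autoImplicit false

namespace Pool.Agent.R350

open Module MvPolynomial

section

variable {K κ C : Type} [Field K] [Field κ] [Field C] [Algebra K C] [Algebra κ C] [Algebra K κ]
  [IsScalarTower K κ C] [CharZero C]

/-- the second case -/
theorem core_two {W F F1 F2 L : Submodule κ C} {k : ℕ} {y : Fin k → C}
    (h1W : (1 : C) ∈ W) (h1F : (1 : C) ∈ F)
    (hB : NoRel' L (W * F) F1 2 y) (hC : NoRel' L (W * (F ⊔ F1)) F2 2 y)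
    {v0 v1 : C} (hv0 : v0 ∈ W) (hv1 : v1 ∈ W) (c0 c1 : Fin k → K) {l0 l1 m0 m1 : C}
    (hl0 : l0 = v0 + ∑ i, c0 i • y i) (hl1 : l1 = v1 + ∑ i, c1 i • y i)
    (hl0' : l0 ≠ 0) (hl1' : l1 ≠ 0) (hli : ∀ δ : K, l1 ≠ δ • l0)
    (hm0 : m0 ∈ L) (h : l0 * m1 = l1 * m0) (ε : κ) {g : C}
    (hg : g ∈ F ⊔ Submodule.span κ (Set.range y)) (hm1 : m1 = ε • m0 + g) :
    (∃ ρ : κ, m0 = ρ • l0 ∧ m1 = ρ • l1) ∨ ((∀ i, c0 i = 0) ∧ ∀ i, c1 i = 0) := by
  classical
  obtain ⟨f, hf, g', hg', rfl⟩ := Submodule.mem_sup.1 hg
  obtain ⟨d, rfl⟩ := (Submodule.mem_span_range_iff_exists_fun κ).1 hg'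
  -- scalars
  have hK : ∀ (c : Fin k → K) (x : Fin k → C), ∑ i, c i • x i = ∑ i, algebraMap K C (c i) * x i :=
    fun c x => Finset.sum_congr rfl fun i _ => Algebra.smul_def _ _
  have hκ : ∀ (c : Fin k → κ) (x : Fin k → C), ∑ i, c i • x i = ∑ i, algebraMap κ C (c i) * x i :=
    fun c x => Finset.sum_congr rfl fun i _ => Algebra.smul_def _ _
  have hKκ : ∀ c : K, algebraMap K C c = algebraMap κ C (algebraMap K κ c) := fun c =>
    IsScalarTower.algebraMap_apply K κ C c
  have halg : ∀ (V : Submodule κ C), (1 : C) ∈ V → ∀ c : κ, algebraMap κ C c ∈ V := fun V hV c => by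
    rw [Algebra.algebraMap_eq_smul_one]
    exact V.smul_mem _ hV
  have halgK : ∀ (V : Submodule κ C), (1 : C) ∈ V → ∀ c : K, algebraMap K C c ∈ V :=
    fun V hV c => by rw [hKκ]; exact halg V hV _
  have hl0e : l0 = eval y (aff v0 fun i => algebraMap K C (c0 i)) := by
    rw [eval_aff, hl0, hK]
  have hl1e : l1 = eval y (aff v1 fun i => algebraMap K C (c1 i)) := by
    rw [eval_aff, hl1, hK]
  have h1F1 : (1 : C) ∈ F ⊔ F1 := Submodule.mem_sup_left h1F
  -- both coefficient vectors cannot vanish
  by_cases hzero : (∀ i, c0 i = 0) ∧ ∀ i, c1 i = 0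
  · exact Or.inr hzero
  left
  by_cases hm : m0 ∈ F1 ⊔ Submodule.span κ (Set.range y)
  · obtain ⟨f1, hf1, e', he', rfl⟩ := Submodule.mem_sup.1 hm
    obtain ⟨e, rfl⟩ := (Submodule.mem_span_range_iff_exists_fun κ).1 he'
    set f2 : C := ε • f1 + f with hf2
    set e2 : Fin k → κ := fun i => ε * e i + d i with he2
    have hm1' : m1 = f2 + ∑ i, e2 i • y i := by
      rw [hm1, hf2, he2]
      simp only [add_smul, mul_smul, Finset.sum_add_distrib, smul_add, Finset.smul_sum]
      abel
    have hm0e : f1 + ∑ i, e i • y i = eval y (aff f1 fun i => algebraMap κ C (e i)) := by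
      rw [eval_aff, hκ]
    have hm1e : m1 = eval y (aff f2 fun i => algebraMap κ C (e2 i)) := by
      rw [eval_aff, hm1', hκ]
    have hP := (hC.lin (r := 0) Fin.elim0 (fun j => j.elim0) (fun _ _ j => j.elim0)
      (aff v0 (fun i => algebraMap K C (c0 i)) * aff f2 (fun i => algebraMap κ C (e2 i)) -
        aff v1 (fun i => algebraMap K C (c1 i)) * aff f1 (fun i => algebraMap κ C (e i)))
      (fun j => j.elim0) ?_ (fun j => j.elim0) ?_ (fun j => j.elim0) ?_).1
    rotate_left
    · refine CoefIn.sub (CoefIn.mul (aff_coef hv0 fun i => halgK W h1W _)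
        (aff_coef ?_ fun i => halg _ h1F1 _)) (CoefIn.mul (aff_coef hv1 fun i => halgK W h1W _)
        (aff_coef (Submodule.mem_sup_right hf1) fun i => halg _ h1F1 _))
      exact Submodule.add_mem _ (Submodule.smul_mem _ _ (Submodule.mem_sup_right hf1))
        (Submodule.mem_sup_left hf)
    · intro i
      refine (degreeOf_sub_le _ _ _).trans (max_le ?_ ?_)
      · exact (degreeOf_mul_le _ _ _).trans (Nat.add_le_add (aff_degree _ _ _) (aff_degree _ _ _))
      · exact (degreeOf_mul_le _ _ _).trans (Nat.add_le_add (aff_degree _ _ _) (aff_degree _ _ _))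
    · rw [Finset.univ_eq_empty, Finset.sum_empty, add_zero, map_sub, map_mul, map_mul, ← hl0e,
        ← hl1e, ← hm1e, ← hm0e, h, sub_self]
    have hP' := sub_eq_zero.1 hP
    by_cases hc0 : ∃ i, c0 i ≠ 0
    · obtain ⟨j0, hj0⟩ := hc0
      have hj0' : algebraMap K C (c0 j0) ≠ 0 := (map_ne_zero _).2 hj0
      rcases aff_mul hP' hj0' with ⟨h1, h2⟩ | ⟨h1, h2⟩
      · exfalso
        apply hli (c1 j0 / c0 j0)
        rw [Algebra.smul_def, map_div₀, hl1, hl0, h1, hK, hK, mul_add, Finset.mul_sum]
        congr 1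
        refine Finset.sum_congr rfl fun i _ => ?_
        rw [h2 i]
        ring
      · have h3 : algebraMap κ C (e j0) / algebraMap K C (c0 j0) =
            algebraMap κ C (e j0 / algebraMap K κ (c0 j0)) := by
          rw [map_div₀, ← hKκ]
        have h4 : f1 + ∑ i, e i • y i = (e j0 / algebraMap K κ (c0 j0)) • l0 := by
          rw [Algebra.smul_def, ← h3, hl0, hκ, hK, mul_add, Finset.mul_sum, ← h1]
          congr 1
          refine Finset.sum_congr rfl fun i _ => ?_
          rw [h2 i]
          ring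
        refine ⟨_, h4, ?_⟩
        rw [h4] at h
        apply mul_left_cancel₀ hl0'
        rw [h, Algebra.smul_def, Algebra.smul_def]
        ring
    · push Not at hc0
      have hc1 : ∃ i, c1 i ≠ 0 := by
        by_contra hc1
        push Not at hc1
        exact hzero ⟨hc0, hc1⟩
      obtain ⟨j0, hj0⟩ := hc1
      have hj0' : algebraMap K C (c1 j0) ≠ 0 := (map_ne_zero _).2 hj0
      rcases aff_mul hP'.symm hj0' with ⟨h1, h2⟩ | ⟨h1, h2⟩
      · exfalso
        apply hl0'
        rw [hl0, h1, hc0 j0, map_zero, zero_div, zero_mul, zero_add]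
        exact Finset.sum_eq_zero fun i _ => by rw [hc0 i, zero_smul]
      · have h3 : algebraMap κ C (e2 j0) / algebraMap K C (c1 j0) =
            algebraMap κ C (e2 j0 / algebraMap K κ (c1 j0)) := by
          rw [map_div₀, ← hKκ]
        have h4 : m1 = (e2 j0 / algebraMap K κ (c1 j0)) • l1 := by
          rw [Algebra.smul_def, ← h3, hl1, hm1', hκ, hK, mul_add, Finset.mul_sum, ← h1]
          congr 1
          refine Finset.sum_congr rfl fun i _ => ?_
          rw [h2 i]
          ring
        refine ⟨_, ?_, h4⟩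
        rw [h4] at h
        apply mul_left_cancel₀ hl1'
        rw [← h, Algebra.smul_def, Algebra.smul_def]
        ring
  · exfalso
    set g : C := f + ∑ i, d i • y i with hgdef
    have hge : g = eval y (aff f fun i => algebraMap κ C (d i)) := by
      rw [eval_aff, hgdef, hκ]
    set t : Fin k → C := fun i => algebraMap κ C (ε * algebraMap K κ (c0 i) - algebraMap K κ (c1 i))
      with ht
    have hte : ε • l0 - l1 = eval y (aff (ε • v0 - v1) t) := by
      rw [eval_aff, hl0, hl1, hK, hK, ht]
      simp only [map_sub, map_mul, ← hKκ, sub_mul, Finset.sum_sub_distrib, Algebra.smul_def, mul_add,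
        Finset.mul_sum]
      ring_nf
    obtain ⟨hP1, hP2⟩ := hB.lin (r := 1) (fun _ => m0) (fun _ => hm0) (by
        intro c hc j
        rw [Fin.sum_univ_one] at hc
        by_contra hcj
        have hc0 : c 0 ≠ 0 := by
          have : j = 0 := Subsingleton.elim _ _
          rwa [this] at hcj
        apply hm
        have := Submodule.smul_mem _ (c 0)⁻¹ hc
        rwa [smul_smul, inv_mul_cancel₀ hc0, one_smul] at this)
      (aff v0 (fun i => algebraMap K C (c0 i)) * aff f (fun i => algebraMap κ C (d i)))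
      (fun _ => aff (ε • v0 - v1) t)
      (CoefIn.mul (aff_coef hv0 fun i => halgK W h1W _) (aff_coef hf fun i => halg _ h1F _))
      (fun _ => by
        have hWF : W ≤ W * F := fun w hw => by
          rw [← mul_one w]
          exact Submodule.mul_mem_mul hw h1F
        refine aff_coef (hWF (W.sub_mem (W.smul_mem _ hv0) hv1)) fun i => halg _ (hWF h1W) _)
      (fun i => (degreeOf_mul_le _ _ _).trans
        (Nat.add_le_add (aff_degree _ _ _) (aff_degree _ _ _)))
      (fun _ i => (aff_degree _ _ _).trans (by omega)) (by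
        rw [Fin.sum_univ_one, map_mul, ← hl0e, ← hge, ← hte]
        have h5 : l0 * (ε • m0 + g) = l1 * m0 := by rw [← hm1, h]
        rw [Algebra.smul_def] at h5
        rw [Algebra.smul_def]
        linear_combination h5)
    obtain ⟨h6, h7⟩ := aff_eq_zero (hP2 0)
    have hinj : Function.Injective (algebraMap κ C) := (algebraMap κ C).injective
    have h8 : ∀ i, algebraMap K κ (c1 i) = ε * algebraMap K κ (c0 i) := by
      intro i
      have h9 : ε * algebraMap K κ (c0 i) - algebraMap K κ (c1 i) = 0 := by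
        apply hinj
        rw [map_zero]
        exact h7 i
      exact (sub_eq_zero.1 h9).symm
    have hc0 : ∃ i, c0 i ≠ 0 := by
      by_contra hc0
      push Not at hc0
      refine hzero ⟨hc0, fun i => ?_⟩
      have h9 := h8 i
      rw [hc0 i, map_zero, mul_zero] at h9
      exact (map_eq_zero _).1 h9
    obtain ⟨j0, hj0⟩ := hc0
    have hj0' : algebraMap K κ (c0 j0) ≠ 0 := (map_ne_zero _).2 hj0
    have hε : ε = algebraMap K κ (c1 j0 / c0 j0) := by
      rw [map_div₀, h8 j0]
      field_simp
    apply hli (c1 j0 / c0 j0)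
    have h10 : ε • l0 - l1 = 0 := by
      rw [hte, hP2 0, map_zero]
    rw [← sub_eq_zero.1 h10, hε, algebraMap_smul]

/-- **No new singular matrices with a row in `V + K y_1 + ⋯ + K y_k`.** -/
theorem good2f_of_noRel {V : Submodule K C} [Module.Finite K V] {L W F F1 F2 : Submodule κ C}
    {k : ℕ} {y : Fin k → C} (hV : ∀ v ∈ V, v ∈ W) (h1W : (1 : C) ∈ W) (h1F : (1 : C) ∈ F)
    (hA : NoRel' (L ⊔ Submodule.span κ (V : Set C)) W F 1 y)
    (hB : NoRel' (L ⊔ Submodule.span κ (V : Set C)) (W * F) F1 2 y)
    (hC : NoRel' (L ⊔ Submodule.span κ (V : Set C)) (W * (F ⊔ F1)) F2 2 y) : Good2f V L y := by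
  classical
  have hKκ : ∀ c : K, algebraMap K C c = algebraMap κ C (algebraMap K κ c) := fun c =>
    IsScalarTower.algebraMap_apply K κ C c
  have halgK : ∀ (V : Submodule κ C), (1 : C) ∈ V → ∀ c : K, algebraMap K C c ∈ V :=
    fun V hV c => by
      rw [hKκ, Algebra.algebraMap_eq_smul_one]
      exact V.smul_mem _ hV
  have hK : ∀ (c : Fin k → K) (x : Fin k → C), ∑ i, c i • x i = ∑ i, algebraMap K C (c i) * x i :=
    fun c x => Finset.sum_congr rfl fun i _ => Algebra.smul_def _ _
  -- independence modulo `V`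
  have hind : ∀ (v : C), v ∈ V → ∀ c : Fin k → K, v + ∑ i, c i • y i = 0 → v = 0 ∧ ∀ i, c i = 0 := by
    intro v hv c hc
    have h1 := (hA.lin (r := 0) Fin.elim0 (fun j => j.elim0) (fun _ _ j => j.elim0)
      (aff v fun i => algebraMap K C (c i)) (fun j => j.elim0)
      (aff_coef (hV v hv) fun i => halgK W h1W _) (fun j => j.elim0) (fun i => aff_degree _ _ _)
      (fun j => j.elim0) (by
        rw [Finset.univ_eq_empty, Finset.sum_empty, add_zero, eval_aff, ← hK, hc])).1
    obtain ⟨h2, h3⟩ := aff_eq_zero h1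
    exact ⟨h2, fun i => (map_eq_zero _).1 (h3 i)⟩
  have hyli : LinearIndependent K y := by
    rw [Fintype.linearIndependent_iff]
    intro c hc
    exact (hind 0 V.zero_mem c (by rw [hc, add_zero])).2
  refine ⟨?_, fun l m hl hm hlm hli => ?_⟩
  · have hfin : FiniteDimensional K (Submodule.span K (Set.range y)) :=
      FiniteDimensional.span_of_finite _ (Set.finite_range _)
    have h1 := Submodule.finrank_sup_add_finrank_inf_eq V (Submodule.span K (Set.range y))
    have h2 : (V ⊓ Submodule.span K (Set.range y) : Submodule K C) = ⊥ := by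
      rw [eq_bot_iff]
      intro v hv
      obtain ⟨hv1, hv2⟩ := Submodule.mem_inf.1 hv
      obtain ⟨c, hc⟩ := (Submodule.mem_span_range_iff_exists_fun K).1 hv2
      rw [Submodule.mem_bot]
      have h3 := hind v hv1 (fun i => - c i) (by
        simp only [neg_smul, Finset.sum_neg_distrib]
        rw [hc, add_neg_cancel])
      exact h3.1
    rw [h2, finrank_bot, add_zero, finrank_span_eq_card hyli, Fintype.card_fin] at h1
    exact h1
  · have hrep : ∀ j, ∃ v ∈ V, ∃ c : Fin k → K, l j = v + ∑ i, c i • y i := by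
      intro j
      obtain ⟨v, hv, z, hz, h1⟩ := Submodule.mem_sup.1 (hl j)
      obtain ⟨c, rfl⟩ := (Submodule.mem_span_range_iff_exists_fun K).1 hz
      exact ⟨v, hv, c, h1.symm⟩
    choose v hv c hc using hrep
    have hl0 : ∀ j, l j ≠ 0 := fun j => hli.ne_zero j
    have hprop : ∀ (i j : Fin 2), i ≠ j → ∀ δ : K, l i ≠ δ • l j := by
      intro i j hij δ h
      have h1 := Fintype.linearIndependent_iff.1 hli (fun x => if x = i then 1 else -δ) (by
        have h2 : (Finset.univ : Finset (Fin 2)) = {i, j} := by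
          symm
          rw [← Finset.card_eq_iff_eq_univ, Finset.card_pair hij, Fintype.card_fin]
        rw [h2, Finset.sum_pair hij, if_pos rfl, if_neg (Ne.symm hij), one_smul, neg_smul, h,
          add_neg_cancel]) i
      simp only [if_pos] at h1
      exact one_ne_zero h1
    have hconcl : ∀ j, ((∀ i, c 0 i = 0) ∧ ∀ i, c 1 i = 0) → l j ∈ V := by
      intro j hz
      have h1 : ∀ j, ∀ i, c j i = 0 := by
        intro j
        fin_cases j
        · exact hz.1
        · exact hz.2
      rw [hc j, Finset.sum_eq_zero (fun i _ => by rw [h1 j i, zero_smul]), add_zero]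
      exact hv j
    by_cases hdep : ∀ e : Fin 2 → κ, ∑ j, e j • m j ∈ F ⊔ Submodule.span κ (Set.range y) →
        ∀ j, e j = 0
    · exfalso
      obtain ⟨-, h1⟩ := hA.lin (r := 2) m hm hdep 0
        ![-(aff (v 1) fun i => algebraMap K C (c 1 i)), aff (v 0) fun i => algebraMap K C (c 0 i)]
        CoefIn.zero (fun j => by
          fin_cases j
          · exact (aff_coef (hV _ (hv 1)) fun i => halgK W h1W _).neg
          · exact aff_coef (hV _ (hv 0)) fun i => halgK W h1W _)
        (fun i => by rw [degreeOf_zero]; omega) (fun j i => by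
          fin_cases j
          · change (-(aff (v 1) fun i => algebraMap K C (c 1 i))).degreeOf i ≤ 1
            rw [degreeOf_neg]
            exact aff_degree _ _ _
          · exact aff_degree _ _ _) (by
        rw [map_zero, zero_add, Fin.sum_univ_two]
        simp only [Matrix.cons_val_zero, Matrix.cons_val_one, map_neg]
        rw [eval_aff, eval_aff, ← hK, ← hK, ← hc 1, ← hc 0]
        linear_combination hlm)
      have h2 := h1 1
      simp only [Matrix.cons_val_one] at h2
      obtain ⟨h3, h4⟩ := aff_eq_zero h2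
      apply hl0 0
      rw [hc 0, h3, zero_add]
      exact Finset.sum_eq_zero fun i _ => by rw [(map_eq_zero _).1 (h4 i), zero_smul]
    · push Not at hdep
      obtain ⟨e, he, j, hj⟩ := hdep
      rw [Fin.sum_univ_two] at he
      have hor : e 1 ≠ 0 ∨ e 0 ≠ 0 := by
        fin_cases j
        · exact Or.inr hj
        · exact Or.inl hj
      rcases hor with h1 | h1
      · have h2 := core_two h1W h1F hB hC (hV _ (hv 0)) (hV _ (hv 1)) (c 0) (c 1) (hc 0) (hc 1)
          (hl0 0) (hl0 1) (hprop 1 0 (by decide)) (hm 0) hlm (-((e 1)⁻¹ * e 0))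
          (g := (e 1)⁻¹ • (e 0 • m 0 + e 1 • m 1)) (Submodule.smul_mem _ _ he) (by
            rw [smul_add, smul_smul, smul_smul, inv_mul_cancel₀ h1, one_smul, neg_smul]
            abel)
        rcases h2 with ⟨ρ, h3, h4⟩ | h2
        · left
          refine ⟨ρ, fun j => ?_⟩
          fin_cases j
          · exact h3
          · exact h4
        · exact Or.inr fun j => hconcl j h2
      · have h2 := core_two h1W h1F hB hC (hV _ (hv 1)) (hV _ (hv 0)) (c 1) (c 0) (hc 1) (hc 0)
          (hl0 1) (hl0 0) (hprop 0 1 (by decide)) (hm 1) hlm.symm (-((e 0)⁻¹ * e 1))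
          (g := (e 0)⁻¹ • (e 0 • m 0 + e 1 • m 1)) (Submodule.smul_mem _ _ he) (by
            rw [smul_add, smul_smul, smul_smul, inv_mul_cancel₀ h1, one_smul, neg_smul]
            abel)
        rcases h2 with ⟨ρ, h3, h4⟩ | h2
        · left
          refine ⟨ρ, fun j => ?_⟩
          fin_cases j
          · exact h4
          · exact h3
        · exact Or.inr fun j => hconcl j h2.symm

end

end Pool.Agent.R350
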