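import Pool.Agent.R350.HM

/-!
# Dimension of the set of rows of singular matrices
-/

set_option autoImplicit false

namespace Pool.Agent.R350

open Module MvPolynomial

/-- bound for the dimension of the exceptional space -/
def bE (v x : ℕ) : ℕ := (x + 1) * (x + 1 + v) * (x + 1) + 1

/-- the number of elements needed for generic rows -/
def bigR (k m v : ℕ) : ℕ :=
  bigN k 1 (m + 1) (v + m) + bigN k 2 ((m + 1) * bE (v + m) (m + 1)) (v + m) +
    bigN k 2 ((m + 1) * (bE (v + m) (m + 1) + bE (v + m) ((m + 1) * bE (v + m) (m + 1)))) (v + m)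

/-- the spaces used in the proof -/
theorem rows_spaces {K κ C : Type} [Field K] [Field κ] [Field C] [Algebra K C] [Algebra κ C]
    [Algebra K κ] [IsScalarTower K κ C] {v m : ℕ} {L : Submodule κ C} (hL : HypV v L)
    (h1L : (1 : C) ∈ L) (V : Submodule K C) [Module.Finite K V] (hVm : finrank K V ≤ m) :
    ∃ W F F1 : Submodule κ C, (∀ z ∈ V, z ∈ W) ∧ (1 : C) ∈ W ∧ (1 : C) ∈ F ∧
      F = exSp (L ⊔ Submodule.span κ (V : Set C)) W ∧
      F1 = exSp (L ⊔ Submodule.span κ (V : Set C)) (W * F) ∧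
      Module.Finite κ W ∧ finrank κ W ≤ m + 1 ∧
      Module.Finite κ (W * F : Submodule κ C) ∧
      finrank κ (W * F : Submodule κ C) ≤ (m + 1) * bE (v + m) (m + 1) ∧
      Module.Finite κ (W * (F ⊔ F1) : Submodule κ C) ∧
      finrank κ (W * (F ⊔ F1) : Submodule κ C) ≤
        (m + 1) * (bE (v + m) (m + 1) + bE (v + m) ((m + 1) * bE (v + m) (m + 1))) := by
  classical
  have hfin := spanK_finite (κ := κ) V
  have hr := (finrank_spanK_le (κ := κ) V).trans hVm
  have hyp := hL.sup (Submodule.span κ (V : Set C)) hr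
  have h1L' : (1 : C) ∈ L ⊔ Submodule.span κ (V : Set C) := Submodule.mem_sup_left h1L
  set W : Submodule κ C := Submodule.span κ (V : Set C) ⊔ Submodule.span κ {(1 : C)} with hW
  have hWf : FiniteDimensional κ W := by
    rw [hW]
    infer_instance
  have hWr : finrank κ W ≤ m + 1 :=
    (Submodule.finrank_add_le_finrank_add_finrank _ _).trans
      (Nat.add_le_add hr (finrank_span_one κ C))
  have h1W : (1 : C) ∈ W := Submodule.mem_sup_right (Submodule.mem_span_singleton_self _)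
  obtain ⟨hFf, hFr, -, -⟩ := exSp_bound hyp h1L' W hWr
  set F := exSp (L ⊔ Submodule.span κ (V : Set C)) W with hF
  have h1F : (1 : C) ∈ F := Submodule.mem_sup_right (Submodule.mem_span_singleton_self _)
  obtain ⟨h3, h4⟩ := finrank_mul_bound W F
  have h5 : finrank κ (W * F : Submodule κ C) ≤ (m + 1) * bE (v + m) (m + 1) :=
    h4.trans (Nat.mul_le_mul hWr hFr)
  obtain ⟨hF1f, hF1r, -, -⟩ := exSp_bound hyp h1L' (W * F) h5
  set F1 := exSp (L ⊔ Submodule.span κ (V : Set C)) (W * F) with hF1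
  obtain ⟨h6, h7⟩ := finrank_mul_bound W (F ⊔ F1)
  refine ⟨W, F, F1, fun z hz => Submodule.mem_sup_left (Submodule.subset_span hz), h1W, h1F, rfl,
    rfl, hWf, hWr, h3, h5, h6, h7.trans (Nat.mul_le_mul hWr
      ((Submodule.finrank_add_le_finrank_add_finrank _ _).trans (Nat.add_le_add hFr hF1r)))⟩

variable (K κ C : Type) [Field K] [Field κ] [CharZero κ] [Field C] [CharZero C] [Algebra K C]
  [Algebra κ C] [Algebra K κ] [IsScalarTower K κ C]

/-- **The set of combinations which are not generic rows has small dimension.** -/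
theorem rows_dim (k v m N s : ℕ) (hs : (k - 1) * N + bigR k m v < s) :
    ∃ e : ℕ, ∀ L : Submodule κ C, HypV v L → (1 : C) ∈ L →
    ∀ V : Submodule K C, Module.Finite K V → finrank K V ≤ m →
    ∀ z : Fin k → C, (∀ i, z i ∈ L ⊔ Submodule.span κ (V : Set C)) →
    ∀ l : Fin N → C, (∀ j, l j ∈ L ⊔ Submodule.span κ (V : Set C)) →
    LinearIndependent κ (fun o : Option (Fin N) => o.elim 1 l) →
    ∀ φ : Fin s → Fin k × Fin N → κ,
    ∃ Δ : MvPolynomial (Fin s) κ, Δ ≠ 0 ∧ Δ.totalDegree ≤ e ∧ ∀ b : Fin k × Fin N → κ,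
      eval (fun q => ∑ x, φ q x * b x) Δ ≠ 0 →
        Good2f V L (fun i => z i + ∑ j, b (i, j) • l j) := by
  unfold bigR at hs
  obtain ⟨e₁, he₁⟩ := norel_dim κ C (v + m) 1 k (m + 1) N s (by omega)
  obtain ⟨e₂, he₂⟩ := norel_dim κ C (v + m) 2 k ((m + 1) * bE (v + m) (m + 1)) N s (by omega)
  obtain ⟨e₃, he₃⟩ := norel_dim κ C (v + m) 2 k ((m + 1) * (bE (v + m) (m + 1) +
    bE (v + m) ((m + 1) * bE (v + m) (m + 1)))) N s (by omega)
  refine ⟨e₁ + e₂ + e₃, fun L hL h1L V hVf hVm z hz l hl hli φ => ?_⟩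
  obtain ⟨W, F, F1, h1, h2, h3, h4, h5, h6, h7, h8, h9, h10, h11⟩ := rows_spaces hL h1L V hVm
  have hfin := spanK_finite (κ := κ) V
  have hyp := hL.sup (Submodule.span κ (V : Set C)) ((finrank_spanK_le (κ := κ) V).trans hVm)
  have h1L' : (1 : C) ∈ L ⊔ Submodule.span κ (V : Set C) := Submodule.mem_sup_left h1L
  obtain ⟨Δ₁, a1, a2, a3⟩ := he₁ _ hyp h1L' W h6 h7 z hz l hl hli φ
  obtain ⟨Δ₂, b1, b2, b3⟩ := he₂ _ hyp h1L' (W * F) h8 h9 z hz l hl hli φ
  obtain ⟨Δ₃, c1, c2, c3⟩ := he₃ _ hyp h1L' (W * (F ⊔ F1)) h10 h11 z hz l hl hli φ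
  refine ⟨Δ₁ * Δ₂ * Δ₃, mul_ne_zero (mul_ne_zero a1 b1) c1, ?_, fun b hb => ?_⟩
  · exact (totalDegree_mul _ _).trans (Nat.add_le_add ((totalDegree_mul _ _).trans
      (Nat.add_le_add a2 b2)) c2)
  · rw [map_mul, map_mul] at hb
    have d1 := a3 b (left_ne_zero_of_mul (left_ne_zero_of_mul hb))
    have d2 := b3 b (right_ne_zero_of_mul (left_ne_zero_of_mul hb))
    have d3 := c3 b (right_ne_zero_of_mul hb)
    rw [← h4] at d1
    rw [← h5] at d2
    exact good2f_of_noRel h1 h2 h3 d1 d2 d3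

/-- **Counting combinations which are not generic rows.** -/
theorem rows_count (k v m N : ℕ) :
    ∃ Q : ℕ, ∀ L : Submodule κ C, HypV v L → (1 : C) ∈ L →
    ∀ V : Submodule K C, Module.Finite K V → finrank K V ≤ m →
    ∀ z : Fin k → C, (∀ i, z i ∈ L ⊔ Submodule.span κ (V : Set C)) →
    ∀ l : Fin N → C, (∀ j, l j ∈ L ⊔ Submodule.span κ (V : Set C)) →
    LinearIndependent κ (fun o : Option (Fin N) => o.elim 1 l) →
    ∀ H : ℕ, 1 ≤ H → Set.ncard {a : Fin k → Fin N → ℤ | (∀ i j, |a i j| ≤ H) ∧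
      ¬ Good2f V L (fun i => z i + ∑ j, (a i j : κ) • l j)} ≤
      Q * H ^ ((k - 1) * N + bigR k m v) := by
  obtain ⟨e, he⟩ := rows_dim K κ C k v m N ((k - 1) * N + bigR k m v + 1) (Nat.lt_succ_self _)
  obtain ⟨Q, hQ⟩ := count_mat κ ((k - 1) * N + bigR k m v) e k N
  refine ⟨Q, fun L hL h1L V hVf hVm z hz l hl hli H hH => ?_⟩
  refine hQ {b | ¬ Good2f V L (fun i => z i + ∑ j, b (i, j) • l j)} ?_ H hH
  intro φ
  obtain ⟨Δ, h1, h2, h3⟩ := he L hL h1L V hVf hVm z hz l hl hli φ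
  refine ⟨Δ, h1, h2, fun b hb => ?_⟩
  by_contra h
  exact hb (h3 b h)

end Pool.Agent.R350
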