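import Pool.Agent.R350.HF

/-!
# Relations between combinations of linearly independent numbers: derivations
-/

set_option autoImplicit false

namespace Pool.Agent.R350

open Module MvPolynomial

section

variable {k A : Type*} [Field k] [Field A] [Algebra k A]

/-- the chain rule for a derivation -/
theorem der_eval {n : ℕ} (D : Derivation ℤ A A) (y : Fin n → A) (P : MvPolynomial (Fin n) A) :
    ∃ R : MvPolynomial (Fin n) A, (∀ γ, R.coeff γ = D (P.coeff γ)) ∧
      D (eval y P) = eval y R + ∑ i, eval y (pderiv i P) * D (y i) := by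
  classical
  induction P using MvPolynomial.induction_on with
  | C a =>
    refine ⟨C (D a), fun γ => ?_, ?_⟩
    · rw [coeff_C, coeff_C]
      split_ifs
      · rfl
      · rw [map_zero]
    · simp only [eval_C, pderiv_C, map_zero, zero_mul, Finset.sum_const_zero, add_zero]
  | add P Q hP hQ =>
    obtain ⟨R, h1, h2⟩ := hP
    obtain ⟨S, h3, h4⟩ := hQ
    refine ⟨R + S, fun γ => by rw [coeff_add, coeff_add, h1, h3, map_add], ?_⟩
    rw [map_add, map_add, map_add, h2, h4]
    simp only [map_add, add_mul, Finset.sum_add_distrib]
    ring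
  | mul_X P j hP =>
    obtain ⟨R, h1, h2⟩ := hP
    refine ⟨R * X j, fun γ => ?_, ?_⟩
    · rw [coeff_mul_X', coeff_mul_X']
      split_ifs
      · rw [h1]
      · rw [map_zero]
    · rw [(eval y).map_mul, (eval y).map_mul, eval_X, D.leibniz, h2, smul_eq_mul, smul_eq_mul]
      simp only [pderiv_mul, pderiv_X, map_add, map_mul, eval_X, add_mul,
        Finset.sum_add_distrib]
      have h5 : ∑ i, eval y P * (eval y (Pi.single (M := fun _ => MvPolynomial (Fin n) A) i 1 j)) *
          D (y i) = eval y P * D (y j) := by
        rw [Finset.sum_eq_single j]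
        · rw [Pi.single_eq_same, map_one, mul_one]
        · intro i _ hi
          rw [Pi.single_eq_of_ne (Ne.symm hi), map_zero, mul_zero, zero_mul]
        · intro h; exact absurd (Finset.mem_univ _) h
      rw [h5, mul_add, Finset.mul_sum]
      have h6 : ∑ i, eval y (pderiv i P) * y j * D (y i) =
          ∑ i, y j * (eval y (pderiv i P) * D (y i)) :=
        Finset.sum_congr rfl fun i _ => by ring
      rw [h6]
      ring

/-- lower sets of exponents -/
def LowerS {n : ℕ} (S : Finset (Fin n →₀ ℕ)) : Prop :=
  ∀ γ ∈ S, ∀ i, γ - Finsupp.single i 1 ∈ S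

/-- **No relations between numbers with enough derivatives.** -/
theorem plain_core [CharZero A] {n N s m : ℕ} (S : Finset (Fin n →₀ ℕ)) (hS : LowerS S)
    (W : Submodule k A) [FiniteDimensional k W] (hm : finrank k W ≤ m)
    (a : Fin n → Fin N → A) (ha : ∀ i, LinearIndependent k (a i))
    (D : Fin s → Derivation ℤ A A) (hDW : ∀ q, ∀ w ∈ W, D q w ∈ W) (y : Fin n → A)
    (c : Fin s → Fin n × Fin N → k) (hDy : ∀ q i, D q (y i) = ∑ x, c q (i, x) • a i x)
    (φ : Fin s → Fin n × Fin N → k)
    (hφ : ∀ q q', ∑ x, φ q' x * c q x = if q' = q then 1 else 0)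
    (hs : (n - 1) * N + m * S.card < s) :
    ∀ (d : ℕ) (P : MvPolynomial (Fin n) A), (∀ γ ∈ P.support, γ ∈ S ∧ γ.degree ≤ d) →
      CoefIn W P → eval y P = 0 → P = 0 := by
  classical
  -- constants
  have hconst : ∀ P : MvPolynomial (Fin n) A, (∀ γ ∈ P.support, γ = 0) → eval y P = 0 → P = 0 := by
    intro P hP h0
    have h1 : P = C (P.coeff 0) := by
      ext γ
      rw [coeff_C]
      split_ifs with h
      · rw [h]
      · by_contra h2
        exact h (hP γ (MvPolynomial.mem_support_iff.2 h2)).symm
    rw [h1, eval_C] at h0
    rw [h1, h0, map_zero]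
  intro d
  induction d with
  | zero =>
    intro P hP _ h0
    refine hconst P (fun γ hγ => ?_) h0
    exact (Finsupp.degree_eq_zero_iff γ).1 (Nat.le_zero.1 (hP γ hγ).2)
  | succ d ih =>
    intro P hP hPW h0
    -- the values of the partial derivatives vanish
    have hp : ∀ i, eval y (pderiv i P) = 0 := by
      by_contra hcon
      push Not at hcon
      obtain ⟨i₀, hi₀⟩ := hcon
      let Ψ : (S → W) →ₗ[k] A :=
        { toFun := fun w => ∑ γ : S, (w γ : A) * ∏ i, y i ^ (γ : Fin n →₀ ℕ) i
          map_add' := fun w w' => by
            simp only [Pi.add_apply, Submodule.coe_add, add_mul, Finset.sum_add_distrib]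
          map_smul' := fun r w => by
            simp only [Pi.smul_apply, Submodule.coe_smul, RingHom.id_apply, Finset.smul_sum,
              smul_mul_assoc] }
      have hΨ : finrank k (LinearMap.range Ψ) ≤ m * S.card := by
        refine (LinearMap.finrank_range_le Ψ).trans ?_
        rw [Module.finrank_pi_fintype, Finset.sum_const, Finset.card_univ, Fintype.card_coe,
          smul_eq_mul, mul_comm]
        exact Nat.mul_le_mul_right _ hm
      -- the linear map
      let T : (Fin s → k) →ₗ[k] A :=
        { toFun := fun e => ∑ i, eval y (pderiv i P) * ∑ q, e q • D q (y i)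
          map_add' := fun e e' => by
            simp only [Pi.add_apply, add_smul, Finset.sum_add_distrib, mul_add]
          map_smul' := fun r e => by
            simp only [Pi.smul_apply, smul_eq_mul, RingHom.id_apply, Finset.smul_sum, mul_smul,
              mul_smul_comm, Finset.mul_sum] }
      have hT : ∀ e, T e ∈ LinearMap.range Ψ := by
        intro e
        have h1 : T e = ∑ q, e q • ∑ i, eval y (pderiv i P) * D q (y i) := by
          change ∑ i, eval y (pderiv i P) * ∑ q, e q • D q (y i) = _
          simp only [Finset.mul_sum, Finset.smul_sum, mul_smul_comm]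
          exact Finset.sum_comm
        rw [h1]
        refine Submodule.sum_mem _ fun q _ => Submodule.smul_mem _ _ ?_
        obtain ⟨R, h2, h3⟩ := der_eval (D q) y P
        rw [h0, map_zero] at h3
        have h4 : ∑ i, eval y (pderiv i P) * D q (y i) = -eval y R :=
          (neg_eq_of_add_eq_zero_right h3.symm).symm
        rw [h4]
        refine Submodule.neg_mem _ ⟨fun γ => ⟨R.coeff γ, by rw [h2]; exact hDW q _ (hPW _)⟩, ?_⟩
        change ∑ γ : S, R.coeff γ * ∏ i, y i ^ (γ : Fin n →₀ ℕ) i = eval y R
        rw [eval_eq', Finset.sum_coe_sort S (fun γ => R.coeff γ * ∏ i, y i ^ γ i)]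
        symm
        refine Finset.sum_subset ?_ ?_
        · intro γ hγ
          refine (hP γ ?_).1
          rw [MvPolynomial.mem_support_iff] at hγ ⊢
          intro h5
          apply hγ
          rw [h2, h5, map_zero]
        · intro γ _ hγ
          rw [notMem_support_iff.1 hγ, zero_mul]
      let T₂ : (Fin s → k) →ₗ[k] ({i : Fin n // i ≠ i₀} × Fin N → k) :=
        { toFun := fun e x => ∑ q, e q * c q (x.1.1, x.2)
          map_add' := fun e e' => by
            funext x
            simp only [Pi.add_apply, add_mul, Finset.sum_add_distrib]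
          map_smul' := fun r e => by
            funext x
            simp only [Pi.smul_apply, smul_eq_mul, RingHom.id_apply, Finset.mul_sum, mul_assoc] }
      let F : (Fin s → k) →ₗ[k] (LinearMap.range Ψ) × ({i : Fin n // i ≠ i₀} × Fin N → k) :=
        (T.codRestrict _ hT).prod T₂
      have hF : finrank k ((LinearMap.range Ψ) × ({i : Fin n // i ≠ i₀} × Fin N → k)) <
          finrank k (Fin s → k) := by
        rw [Module.finrank_prod, Module.finrank_fintype_fun_eq_card, Fintype.card_prod,
          Fintype.card_fin, Fintype.card_subtype_compl, Fintype.card_fin,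
          Fintype.card_subtype_eq, Module.finrank_fintype_fun_eq_card, Fintype.card_fin]
        omega
      obtain ⟨e, he, he0⟩ := Submodule.exists_mem_ne_zero_of_ne_bot
        (LinearMap.ker_ne_bot_of_finrank_lt (f := F) hF)
      rw [LinearMap.mem_ker] at he
      have he1 : T e = 0 := congrArg (fun z => ((z.1 : LinearMap.range Ψ) : A)) he
      have he2 : ∀ i, i ≠ i₀ → ∀ x, ∑ q, e q * c q (i, x) = 0 := fun i hi x =>
        congrFun (congrArg (fun z => z.2) he) (⟨i, hi⟩, x)
      have h1 : ∀ i, ∑ q, e q • D q (y i) = ∑ x, (∑ q, e q * c q (i, x)) • a i x := by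
        intro i
        simp only [hDy, Finset.smul_sum, Finset.sum_smul, mul_smul]
        exact Finset.sum_comm
      have h2 : T e = eval y (pderiv i₀ P) * ∑ x, (∑ q, e q * c q (i₀, x)) • a i₀ x := by
        change ∑ i, eval y (pderiv i P) * ∑ q, e q • D q (y i) = _
        rw [Finset.sum_eq_single i₀]
        · rw [h1]
        · intro i _ hi
          rw [h1]
          simp only [he2 i hi, zero_smul, Finset.sum_const_zero, mul_zero]
        · intro h; exact absurd (Finset.mem_univ _) h
      rw [h2, mul_eq_zero, or_iff_right hi₀] at he1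
      have h3 := Fintype.linearIndependent_iff.1 (ha i₀) _ he1
      have h4 : ∀ x, ∑ q, e q * c q x = 0 := by
        rintro ⟨i, x⟩
        by_cases hi : i = i₀
        · subst hi
          exact h3 x
        · exact he2 i hi x
      apply he0
      funext q
      have h7 : ∑ x, φ q x * (∑ q', e q' * c q' x) = 0 :=
        Finset.sum_eq_zero fun x _ => by rw [h4, mul_zero]
      have h8 : ∑ x, φ q x * (∑ q', e q' * c q' x) = ∑ q', e q' * ∑ x, φ q x * c q' x := by
        simp only [Finset.mul_sum]
        rw [Finset.sum_comm]
        exact Finset.sum_congr rfl fun q' _ => Finset.sum_congr rfl fun x _ => by ring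
      rw [h8] at h7
      simp only [hφ, mul_ite, mul_one, mul_zero] at h7
      rwa [Finset.sum_ite_eq Finset.univ q, if_pos (Finset.mem_univ _)] at h7
    -- the partial derivatives vanish
    have hd : ∀ i, pderiv i P = 0 := by
      intro i
      refine ih _ ?_ ?_ (hp i)
      · intro γ hγ
        rw [MvPolynomial.mem_support_iff, coeff_pderiv] at hγ
        have h1 : γ + Finsupp.single i 1 ∈ P.support :=
          MvPolynomial.mem_support_iff.2 (left_ne_zero_of_mul hγ)
        obtain ⟨h2, h3⟩ := hP _ h1
        refine ⟨?_, ?_⟩
        · have h4 := hS _ h2 i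
          rwa [add_tsub_cancel_right] at h4
        · rw [map_add, Finsupp.degree_single] at h3
          omega
      · intro γ
        rw [coeff_pderiv]
        have h1 : P.coeff (γ + Finsupp.single i 1) * ((γ i : A) + 1) =
            (γ i + 1) • P.coeff (γ + Finsupp.single i 1) := by
          rw [nsmul_eq_mul]
          push_cast
          ring
        rw [h1]
        exact W.nsmul_mem (hPW _) _
    refine hconst P (fun γ hγ => ?_) h0
    by_contra h
    obtain ⟨i, hi⟩ := Finsupp.ne_iff.1 h
    rw [Finsupp.coe_zero, Pi.zero_apply] at hi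
    have h1 := congrArg (coeff (γ - Finsupp.single i 1)) (hd i)
    rw [coeff_zero, coeff_pderiv] at h1
    have h2 : γ - Finsupp.single i 1 + Finsupp.single i 1 = γ := by
      apply tsub_add_cancel_of_le
      intro j
      rw [Finsupp.single_apply]
      split_ifs with hj
      · subst hj; omega
      · exact Nat.zero_le _
    rw [h2, mul_eq_zero, or_iff_right (MvPolynomial.mem_support_iff.1 hγ)] at h1
    have h3 : ((((γ - Finsupp.single i 1 : Fin n →₀ ℕ) i) + 1 : ℕ) : A) = 0 := by
      push_cast
      exact h1
    exact absurd h3 (Nat.cast_ne_zero.2 (Nat.succ_ne_zero _))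

end

end Pool.Agent.R350
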