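import Pool.Agent.R350.HP

/-!
# Points with coordinates in a finite set, in sets of bounded dimension and degree
-/

set_option autoImplicit false

namespace Pool.Agent.R350

open MvPolynomial

variable {K : Type} [Field K]

/-- substitution for the first variable -/
noncomputable def sub0 {n : ℕ} (v : K) (P : MvPolynomial (Fin (n + 1)) K) :
    MvPolynomial (Fin n) K :=
  Polynomial.eval (C v) (finSuccEquiv K n P)

theorem eval_sub0 {n : ℕ} (v : K) (P : MvPolynomial (Fin (n + 1)) K) (x : Fin n → K) :
    eval x (sub0 v P) = eval (Fin.cases v x) P := by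
  unfold sub0
  rw [eval_polynomial_eval_finSuccEquiv, eval_C]

theorem degree_sub0 {n e : ℕ} (v : K) (P : MvPolynomial (Fin (n + 1)) K)
    (h : P.totalDegree ≤ e) : (sub0 v P).totalDegree ≤ e := by
  unfold sub0
  rw [Polynomial.eval_eq_sum_range]
  refine totalDegree_finsetSum_le fun i _ => ?_
  rw [← C_pow]
  refine (totalDegree_mul _ _).trans ?_
  rw [totalDegree_C, add_zero]
  by_cases hi : (finSuccEquiv K n P).coeff i = 0
  · rw [hi, totalDegree_zero]
    exact Nat.zero_le _
  · exact (Nat.le_add_right _ i).trans ((totalDegree_coeff_finSuccEquiv_add_le P i hi).trans h)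

open Classical in
theorem bad_sub0 {n e : ℕ} (P : MvPolynomial (Fin (n + 1)) K) (hP : P ≠ 0)
    (h : P.totalDegree ≤ e) (A : Finset K) : (A.filter fun v => sub0 v P = 0).card ≤ e := by
  have h0 : finSuccEquiv K n P ≠ 0 := by
    intro h1
    exact hP ((finSuccEquiv K n).injective (by rw [h1, map_zero]))
  have h1 : (A.filter fun v => sub0 v P = 0).image (C : K → MvPolynomial (Fin n) K) ⊆
      (finSuccEquiv K n P).roots.toFinset := by
    intro x hx
    obtain ⟨v, hv, rfl⟩ := Finset.mem_image.1 hx
    rw [Finset.mem_filter] at hv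
    rw [Multiset.mem_toFinset, Polynomial.mem_roots h0]
    exact hv.2
  rw [← Finset.card_image_of_injective _ (C_injective (Fin n) K)]
  refine (Finset.card_le_card h1).trans ((Multiset.toFinset_card_le _).trans
    ((Polynomial.card_roots' _).trans ?_))
  rw [natDegree_finSuccEquiv]
  exact (degreeOf_le_totalDegree P 0).trans h

/-- **Points with coordinates in a finite set.** -/
theorem count_prod (e : ℕ) : ∀ M d : ℕ, ∃ c : ℕ, ∀ S : Set (Fin M → K),
    (∀ J : Fin (d + 1) → Fin M, ∃ P : MvPolynomial (Fin (d + 1)) K, P ≠ 0 ∧ P.totalDegree ≤ e ∧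
      ∀ x ∈ S, eval (fun q => x (J q)) P = 0) →
    ∀ A : Finset K, A.Nonempty → ∀ F : Finset (Fin M → K), (∀ x ∈ F, x ∈ S ∧ ∀ j, x j ∈ A) →
      F.card ≤ c * A.card ^ d := by
  classical
  intro M
  induction M with
  | zero =>
    intro d
    refine ⟨1, fun S _ A hA F _ => ?_⟩
    have h1 : F.card ≤ 1 := by
      rw [Finset.card_le_one]
      intro x _ x' _
      exact Subsingleton.elim _ _
    refine h1.trans ?_
    rw [one_mul]
    exact Nat.one_le_pow _ _ (Finset.card_pos.2 hA)
  | succ M ih =>
    intro d
    obtain ⟨c₁, hc₁⟩ := ih d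
    -- fibres over arbitrary values
    have hfib : ∀ S : Set (Fin (M + 1) → K),
        (∀ J : Fin (d + 1) → Fin (M + 1), ∃ P : MvPolynomial (Fin (d + 1)) K, P ≠ 0 ∧
          P.totalDegree ≤ e ∧ ∀ x ∈ S, eval (fun q => x (J q)) P = 0) →
        ∀ A : Finset K, A.Nonempty → ∀ F : Finset (Fin (M + 1) → K),
        (∀ x ∈ F, x ∈ S ∧ ∀ j, x j ∈ A) → ∀ v,
        (F.filter fun x => x 0 = v).card ≤ c₁ * A.card ^ d := by
      intro S hS A hA F hF v
      have hinj : Set.InjOn (fun (x : Fin (M + 1) → K) (j : Fin M) => x j.succ)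
          (F.filter fun x => x 0 = v : Finset (Fin (M + 1) → K)) := by
        intro x hx x' hx' h
        rw [Finset.mem_coe, Finset.mem_filter] at hx hx'
        funext j
        refine Fin.cases ?_ (fun j => congrFun h j) j
        rw [hx.2, hx'.2]
      rw [← Finset.card_image_of_injOn hinj]
      refine hc₁ {y | (Fin.cons v y : Fin (M + 1) → K) ∈ S} ?_ A hA _ ?_
      · intro J
        obtain ⟨P, h1, h2, h3⟩ := hS (fun q => (J q).succ)
        refine ⟨P, h1, h2, fun y hy => ?_⟩
        have := h3 _ hy
        simpa only [Fin.cons_succ] using this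
      · intro y hy
        obtain ⟨x, hx, rfl⟩ := Finset.mem_image.1 hy
        rw [Finset.mem_filter] at hx
        refine ⟨?_, fun j => (hF x hx.1).2 _⟩
        have h4 : (Fin.cons v (fun j => x (Fin.succ j)) : Fin (M + 1) → K) = x := by
          rw [← hx.2]
          exact Fin.cons_self_tail x
        change (Fin.cons v (fun j => x (Fin.succ j)) : Fin (M + 1) → K) ∈ S
        rw [h4]
        exact (hF x hx.1).1
    cases d with
    | zero =>
      refine ⟨e * c₁, fun S hS A hA F hF => ?_⟩
      obtain ⟨P, h1, h2, h3⟩ := hS (fun _ => 0)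
      -- the values of the first coordinate
      have h4 : ∀ x ∈ F, x 0 ∈ A.filter fun v => sub0 v P = 0 := by
        intro x hx
        rw [Finset.mem_filter]
        refine ⟨(hF x hx).2 0, ?_⟩
        have h5 := h3 x (hF x hx).1
        have h6 : eval (fun q : Fin 0 => x 0) (sub0 (x 0) P) = 0 := by
          rw [eval_sub0, ← h5]
          congr 2
          funext q
          exact Fin.cases rfl (fun q => q.elim0) q
        rw [eq_C_of_isEmpty (sub0 (x 0) P), eval_C] at h6
        rw [eq_C_of_isEmpty (sub0 (x 0) P), h6, map_zero]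
      have h5 := Finset.card_le_mul_card_image_of_maps_to h4 (c₁ * A.card ^ 0)
        (fun v _ => hfib S hS A hA F hF v)
      refine h5.trans ?_
      rw [pow_zero, mul_one, mul_one, mul_comm e c₁]
      exact Nat.mul_le_mul_left _ (bad_sub0 P h1 h2 A)
    | succ d =>
      obtain ⟨c₂, hc₂⟩ := ih d
      refine ⟨c₂ + (M ^ (d + 1) * e) * c₁, fun S hS A hA F hF => ?_⟩
      choose P h1 h2 h3 using fun J : Fin (d + 1) → Fin M =>
        hS (Fin.cons 0 (fun q => (J q).succ))
      let Bad : Finset K := Finset.univ.biUnion fun J => A.filter fun v => sub0 v (P J) = 0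
      have hBad : Bad.card ≤ M ^ (d + 1) * e := by
        refine (Finset.card_biUnion_le_card_mul _ _ e fun J _ => bad_sub0 (P J) (h1 J) (h2 J) A).trans ?_
        rw [Finset.card_univ, Fintype.card_fun, Fintype.card_fin, Fintype.card_fin]
      have hgood : ∀ v ∈ A, v ∉ Bad → (F.filter fun x => x 0 = v).card ≤ c₂ * A.card ^ d := by
        intro v hvA hv
        have hinj : Set.InjOn (fun (x : Fin (M + 1) → K) (j : Fin M) => x j.succ)
            (F.filter fun x => x 0 = v : Finset (Fin (M + 1) → K)) := by
          intro x hx x' hx' h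
          rw [Finset.mem_coe, Finset.mem_filter] at hx hx'
          funext j
          refine Fin.cases ?_ (fun j => congrFun h j) j
          rw [hx.2, hx'.2]
        rw [← Finset.card_image_of_injOn hinj]
        refine hc₂ {y | (Fin.cons v y : Fin (M + 1) → K) ∈ S} ?_ A hA _ ?_
        · intro J
          refine ⟨sub0 v (P J), ?_, degree_sub0 v (P J) (h2 J), fun y hy => ?_⟩
          · intro h
            apply hv
            rw [Finset.mem_biUnion]
            exact ⟨J, Finset.mem_univ _, Finset.mem_filter.2 ⟨hvA, h⟩⟩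
          · rw [eval_sub0, ← h3 J _ hy]
            congr 2
            funext q
            refine Fin.cases ?_ (fun q => ?_) q
            · simp only [Fin.cases_zero, Fin.cons_zero]
            · simp only [Fin.cases_succ, Fin.cons_succ]
        · intro y hy
          obtain ⟨x, hx, rfl⟩ := Finset.mem_image.1 hy
          rw [Finset.mem_filter] at hx
          refine ⟨?_, fun j => (hF x hx.1).2 _⟩
          have h4 : (Fin.cons v (fun j => x (Fin.succ j)) : Fin (M + 1) → K) = x := by
            rw [← hx.2]
            exact Fin.cons_self_tail x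
          change (Fin.cons v (fun j => x (Fin.succ j)) : Fin (M + 1) → K) ∈ S
          rw [h4]
          exact (hF x hx.1).1
      have h4 : F ⊆ (F.filter fun x => x 0 ∉ Bad) ∪ (F.filter fun x => x 0 ∈ Bad) := by
        intro x hx
        rw [Finset.mem_union, Finset.mem_filter, Finset.mem_filter]
        by_cases h : x 0 ∈ Bad
        · exact Or.inr ⟨hx, h⟩
        · exact Or.inl ⟨hx, h⟩
      refine (Finset.card_le_card h4).trans ((Finset.card_union_le _ _).trans ?_)
      have h5 : (F.filter fun x => x 0 ∉ Bad).card ≤ (c₂ * A.card ^ d) * A.card := by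
        refine Finset.card_le_mul_card_image_of_maps_to (f := fun x : Fin (M + 1) → K => x 0) (t := A)
          (fun x hx => (hF x (Finset.mem_filter.1 hx).1).2 0) _ (fun v hv => ?_)
        by_cases h : v ∈ Bad
        · have h6 : ((F.filter fun x => x 0 ∉ Bad).filter fun x => x 0 = v) = ∅ := by
            rw [Finset.eq_empty_iff_forall_notMem]
            intro x hx
            rw [Finset.mem_filter, Finset.mem_filter] at hx
            exact hx.1.2 (hx.2 ▸ h)
          rw [h6, Finset.card_empty]
          exact Nat.zero_le _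
        · refine (Finset.card_le_card ?_).trans (hgood v hv h)
          intro x hx
          rw [Finset.mem_filter, Finset.mem_filter] at hx
          exact Finset.mem_filter.2 ⟨hx.1.1, hx.2⟩
      have h6 : (F.filter fun x => x 0 ∈ Bad).card ≤ (c₁ * A.card ^ (d + 1)) * Bad.card := by
        refine Finset.card_le_mul_card_image_of_maps_to (f := fun x : Fin (M + 1) → K => x 0) (t := Bad)
          (fun x hx => (Finset.mem_filter.1 hx).2) _ (fun v _ => ?_)
        refine (Finset.card_le_card ?_).trans (hfib S hS A hA F hF v)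
        intro x hx
        rw [Finset.mem_filter, Finset.mem_filter] at hx
        exact Finset.mem_filter.2 ⟨hx.1.1, hx.2⟩
      calc (F.filter fun x => x 0 ∉ Bad).card + (F.filter fun x => x 0 ∈ Bad).card
          ≤ (c₂ * A.card ^ d) * A.card + (c₁ * A.card ^ (d + 1)) * (M ^ (d + 1) * e) :=
            Nat.add_le_add h5 (h6.trans (Nat.mul_le_mul_left _ hBad))
        _ = (c₂ + (M ^ (d + 1) * e) * c₁) * A.card ^ (d + 1) := by ring

end Pool.Agent.R350
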