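import Pool.Agent.R350.HQ

/-!
# Relations of bounded total degree; counting
-/

set_option autoImplicit false

namespace Pool.Agent.R350

open Module MvPolynomial

/-- the exponents of total degree at most `D` -/
noncomputable def simplexS (n D : ℕ) : Finset (Fin n →₀ ℕ) :=
  (box n D).filter fun γ => γ.degree ≤ D

theorem mem_simplexS {n D : ℕ} {γ : Fin n →₀ ℕ} : γ ∈ simplexS n D ↔ γ.degree ≤ D := by
  rw [simplexS, Finset.mem_filter, mem_box]
  exact ⟨fun h => h.2, fun h => ⟨fun i => (Finsupp.le_degree i γ).trans h, h⟩⟩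

theorem lower_simplexS (n D : ℕ) : LowerS (simplexS n D) := by
  intro γ hγ i
  rw [mem_simplexS] at hγ ⊢
  refine le_trans ?_ hγ
  have h1 : γ - Finsupp.single i 1 ≤ γ := tsub_le_self
  exact Finsupp.degree_mono h1

theorem card_simplexS (n D : ℕ) : (simplexS n D).card ≤ (n + D).choose D := by
  classical
  have h1 := Finset.card_finsuppAntidiag_nat_eq_choose
    (s := (Finset.univ : Finset (Fin (n + 1)))) (n := D)
  rw [Finset.card_univ, Fintype.card_fin] at h1
  have h2 : n + 1 + D - 1 = n + D := by omega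
  rw [h2] at h1
  rw [← h1]
  refine Finset.card_le_card_of_injOn
    (fun γ => Finsupp.equivFunOnFinite.symm (Fin.cons (D - γ.degree) γ : Fin (n + 1) → ℕ)) ?_ ?_
  · intro γ hγ
    rw [Finset.mem_coe, mem_simplexS] at hγ
    rw [Finset.mem_coe, Finset.mem_finsuppAntidiag]
    refine ⟨?_, Finset.subset_univ _⟩
    rw [Fin.sum_univ_succ]
    simp only [Finsupp.equivFunOnFinite_symm_apply_apply, Fin.cons_zero, Fin.cons_succ]
    rw [← Finsupp.degree_eq_sum]
    omega
  · intro γ _ γ' _ h
    have h3 := Finsupp.equivFunOnFinite.symm.injective h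
    have h4 : (γ : Fin n → ℕ) = γ' := by
      funext i
      have := congrFun h3 i.succ
      simpa only [Fin.cons_succ] using this
    exact DFunLike.coe_injective h4

variable (κ C : Type) [Field κ] [CharZero κ] [Field C] [CharZero C] [Algebra κ C]

/-- **Counting relations between combinations with coefficients in a finite set.** -/
theorem plain_count (n N m : ℕ) (S : Finset (Fin n →₀ ℕ)) (hS : LowerS S) :
    ∃ c : ℕ, ∀ W : Submodule κ C, FiniteDimensional κ W → finrank κ W ≤ m →
    ∀ z : Fin n → C, ∀ a : Fin n → Fin N → C, (∀ i, LinearIndependent κ (a i)) →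
    ∀ (ψ χ : Fin n × Fin N → Fin n × Fin N → κ),
    (∀ y y', ∑ x, χ y x * ψ x y' = if y = y' then 1 else 0) →
    ∀ A : Finset κ, A.Nonempty → ∀ F : Finset (Fin n × Fin N → κ),
    (∀ u ∈ F, (∀ y, u y ∈ A) ∧
      ¬ NoRelS S W (fun i => z i + ∑ x, (∑ y, ψ (i, x) y * u y) • a i x)) →
    F.card ≤ c * A.card ^ ((n - 1) * N + m * S.card) := by
  classical
  obtain ⟨e, he⟩ := plain_dim_unif κ C n N ((n - 1) * N + m * S.card + 1) m S hS
    (Nat.lt_succ_self _)
  obtain ⟨c, hc⟩ := count_prod (K := κ) e (n * N) ((n - 1) * N + m * S.card)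
  refine ⟨c, fun W hfd hm z a ha ψ χ hχ A hA F hF => ?_⟩
  let ε : Fin (n * N) ≃ Fin n × Fin N := finProdFinEquiv.symm
  let g : (Fin n × Fin N → κ) → (Fin (n * N) → κ) := fun u j => u (ε j)
  have hg : Function.Injective g := by
    intro u u' h
    funext x
    have := congrFun h (ε.symm x)
    simpa only [g, Equiv.apply_symm_apply] using this
  rw [← Finset.card_image_of_injective _ hg]
  refine hc {v | ¬ NoRelS S W (fun i => z i +
    ∑ x, (∑ y, ψ (i, x) y * v (ε.symm y)) • a i x)} ?_ A hA _ ?_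
  · intro J
    obtain ⟨Δ, h1, h2, h3⟩ := he W hfd hm z a ha (fun q x => χ (ε (J q)) x)
    refine ⟨Δ, h1, h2, fun v hv => ?_⟩
    by_contra h
    apply hv
    refine h3 (fun x => ∑ y, ψ x y * v (ε.symm y)) ?_
    have h4 : (fun q => ∑ x, χ (ε (J q)) x * ∑ y, ψ x y * v (ε.symm y)) =
        fun q => v (J q) := by
      funext q
      simp only [Finset.mul_sum]
      rw [Finset.sum_comm]
      have h5 : ∀ y, ∑ x, χ (ε (J q)) x * (ψ x y * v (ε.symm y)) =
          if ε (J q) = y then v (ε.symm y) else 0 := by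
        intro y
        have h6 : ∑ x, χ (ε (J q)) x * (ψ x y * v (ε.symm y)) =
            (∑ x, χ (ε (J q)) x * ψ x y) * v (ε.symm y) := by
          rw [Finset.sum_mul]
          exact Finset.sum_congr rfl fun x _ => by ring
        rw [h6, hχ, ite_mul, one_mul, zero_mul]
      simp only [h5]
      rw [Finset.sum_ite_eq Finset.univ (ε (J q)), if_pos (Finset.mem_univ _),
        Equiv.symm_apply_apply]
    rw [h4]
    exact h
  · intro v hv
    obtain ⟨u, hu, rfl⟩ := Finset.mem_image.1 hv
    refine ⟨?_, fun j => (hF u hu).1 _⟩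
    have h5 : (fun i => z i + ∑ x, (∑ y, ψ (i, x) y * g u (ε.symm y)) • a i x) =
        fun i => z i + ∑ x, (∑ y, ψ (i, x) y * u y) • a i x := by
      simp only [g, Equiv.apply_symm_apply]
    rw [Set.mem_ofPred_eq, h5]
    exact (hF u hu).2

end Pool.Agent.R350
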