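import Pool.Agent.R350.HR
import Pool.Agent.W245.EB.Par

/-!
# Logarithms, integrals of the second kind and complex multiplication: sets of small dimension
-/

set_option autoImplicit false

namespace Pool.Agent.R350

open Module MvPolynomial
open Pool.Agent.W245.EB (Qb NoRelTot EL EllFam LogFam zt QB mem_QB Data)

/-- relations of bounded total degree -/
theorem noRelTot_of {κ C : Type} [Field κ] [Field C] [Algebra κ C] {n D : ℕ} {W : Submodule κ C}
    {y : Fin n → C} (h : NoRelS (simplexS n D) W y) : NoRelTot W D y := by
  intro Q h1 h2 h3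
  refine h Q (fun γ hγ => ?_) h2 h3
  rw [mem_simplexS]
  exact (le_totalDegree hγ).trans h1

section

variable {A B C : Type} [DecidableEq A] [DecidableEq B] [DecidableEq C]

/-- the matrix of the complex multiplications -/
def psiM {K : Type} [Field K] (α αs : C → K) : Data.Ind A B C → Data.Ind A B C → K
  | Sum.inl a, Sum.inl a' => if a = a' then 1 else 0
  | Sum.inr (Sum.inl b), Sum.inr (Sum.inl b') => if b = b' then 1 else 0
  | Sum.inr (Sum.inr (Sum.inl c)), Sum.inr (Sum.inr (Sum.inl c')) => if c = c' then 1 else 0
  | Sum.inr (Sum.inr (Sum.inl c)), Sum.inr (Sum.inr (Sum.inr c')) => if c = c' then α c else 0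
  | Sum.inr (Sum.inr (Sum.inr c)), Sum.inr (Sum.inr (Sum.inl c')) => if c = c' then 1 else 0
  | Sum.inr (Sum.inr (Sum.inr c)), Sum.inr (Sum.inr (Sum.inr c')) => if c = c' then αs c else 0
  | _, _ => 0

/-- its inverse -/
def chiM {K : Type} [Field K] (α αs : C → K) : Data.Ind A B C → Data.Ind A B C → K
  | Sum.inl a, Sum.inl a' => if a = a' then 1 else 0
  | Sum.inr (Sum.inl b), Sum.inr (Sum.inl b') => if b = b' then 1 else 0
  | Sum.inr (Sum.inr (Sum.inl c)), Sum.inr (Sum.inr (Sum.inl c')) =>
      if c = c' then -αs c / (α c - αs c) else 0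
  | Sum.inr (Sum.inr (Sum.inl c)), Sum.inr (Sum.inr (Sum.inr c')) =>
      if c = c' then α c / (α c - αs c) else 0
  | Sum.inr (Sum.inr (Sum.inr c)), Sum.inr (Sum.inr (Sum.inl c')) =>
      if c = c' then 1 / (α c - αs c) else 0
  | Sum.inr (Sum.inr (Sum.inr c)), Sum.inr (Sum.inr (Sum.inr c')) =>
      if c = c' then -1 / (α c - αs c) else 0
  | _, _ => 0

theorem chi_psi {K : Type} [Field K] [Fintype A] [Fintype B] [Fintype C] (α αs : C → K)
    (h : ∀ c, α c - αs c ≠ 0) (i i' : Data.Ind A B C) :
    ∑ k, chiM α αs i k * psiM α αs k i' = if i = i' then 1 else 0 := by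
  rw [Fintype.sum_sum_type, Fintype.sum_sum_type, Fintype.sum_sum_type]
  rcases i with a | b | c | c <;> rcases i' with a' | b' | c' | c' <;>
    simp only [chiM, psiM, mul_zero, zero_mul, Finset.sum_const_zero, add_zero, zero_add,
      mul_ite, ite_mul, mul_one, one_mul, Finset.sum_ite_eq, Finset.sum_ite_eq',
      Finset.mem_univ, if_true, Sum.inl.injEq, Sum.inr.injEq, reduceCtorEq, if_false]
  · have := h c
    by_cases hc : c = c'
    · subst hc
      simp only [if_true]
      field_simp
      ring
    · simp only [hc, if_false, add_zero]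
  · have := h c
    by_cases hc : c = c'
    · subst hc
      simp only [if_true]
      field_simp
      ring
    · simp only [hc, if_false, add_zero]
  · have := h c
    by_cases hc : c = c'
    · subst hc
      simp only [if_true]
      field_simp
      ring
    · simp only [hc, if_false, add_zero]
  · have := h c
    by_cases hc : c = c'
    · subst hc
      simp only [if_true]
      field_simp
      ring
    · simp only [hc, if_false, add_zero]

end

end Pool.Agent.R350
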