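import Pool.Agent.R350.HS

/-!
# Counting relations between logarithms and elliptic integrals of points of finitely generated groups
-/

set_option autoImplicit false

namespace Pool.Agent.R350

open Module MvPolynomial
open Pool.Agent.W245.EB

section

variable {A B C J : Type} [Fintype J]

/-- the numbers, with translations for the logarithms -/
noncomputable def numT (d : Data A B C J) (τ : A → ℂ) (m : Data.Ind A B C → J → ℤ) :
    Data.Ind A B C → ℂ :=
  Sum.elim (fun a => τ a + d.tA m a)
    (Sum.elim (fun b => d.s b * zt (d.LB b) (d.pB m b) + d.ρ b * d.pB m b)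
      (Sum.elim (d.pC m) (fun c => zt (d.LC c) (d.pC m c))))

variable [Fintype A] [Fintype B] [Fintype C] [DecidableEq A] [DecidableEq B] [DecidableEq C]

/-- the reduction to combinations of fixed forms -/
theorem data_reduce (d : Data A B C J) (τ : A → ℂ) (D : ℕ) :
    ∃ (αq αsq : C → Qb) (w : Data.Ind A B C → J → ℂ), (∀ c, αq c - αsq c ≠ 0) ∧
      (∀ i, LinearIndependent Qb (w i)) ∧
      ∀ (W : Submodule Qb ℂ) (m : Data.Ind A B C → J → ℤ),
        NoRelTot W D (fun i => (Sum.elim τ (fun _ => 0) : Data.Ind A B C → ℂ) i +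
          ∑ j, (∑ i', psiM αq αsq i i' * (m i' j : Qb)) • w i j) →
        NoRelTot W D (numT d τ m) := by
  classical
  have hα0 : ∀ c, d.α c ≠ 0 := by
    intro c h
    exact d.hα c (by rw [h]; simp)
  choose Nc κ' hNc hκ' hrel using fun c => zt_mul (d.g2C c) (d.g3C c) (hα0 c) (d.hmul c)
  have hαQ : ∀ c, d.α c ∈ QB := fun c => mem_QB.2 (alg_of_mul (d.hmul c))
  set αs : C → ℂ := fun c => (Nc c : ℂ) / d.α c with hαs
  have hαsQ : ∀ c, αs c ∈ QB := fun c => div_mem (natCast_mem _ _) (hαQ c)
  have hne : ∀ c, d.α c - αs c ≠ 0 := fun c => sub_ne_zero.2 (ne_conj (d.hα c) (hNc c)).symm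
  set a₀ : C → ℂ := fun c => κ' c / (d.α c - αs c) with ha₀
  have ha₀Q : ∀ c, a₀ c ∈ QB := fun c => div_mem (hκ' c) (sub_mem (hαQ c) (hαsQ c))
  -- the families
  set w : Data.Ind A B C → J → ℂ := Sum.elim d.wA (Sum.elim
    (fun b j => d.s b * zt (d.LB b) (d.uB b j) + d.ρ b * d.uB b j)
    (Sum.elim (fun c j => 0 * zt (d.LC c) (d.uC c j) + 1 * d.uC c j)
      (fun c j => 1 * zt (d.LC c) (d.uC c j) + (-a₀ c) * d.uC c j))) with hw
  have hwi : ∀ i, LinearIndependent Qb (w i) := by
    intro i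
    rcases i with a | b | c | c
    · exact (d.hA a).indep
    · exact second_indep (d.g2B b) (d.g3B b) (d.hB b) (d.hs b) (d.hρ b) (d.hsρ b)
    · exact second_indep (d.g2C c) (d.g3C c) (d.hC c) isAlgebraic_zero isAlgebraic_one
        (Or.inr one_ne_zero)
    · exact second_indep (d.g2C c) (d.g3C c) (d.hC c) isAlgebraic_one
        (mem_QB.1 (neg_mem (ha₀Q c))) (Or.inl one_ne_zero)
  let αq : C → Qb := fun c => ⟨d.α c, hαQ c⟩
  let αsq : C → Qb := fun c => ⟨αs c, hαsQ c⟩
  have hneq : ∀ c, αq c - αsq c ≠ 0 := by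
    intro c h
    apply hne c
    have := congrArg (fun x : Qb => (x : ℂ)) h
    exact this
  refine ⟨αq, αsq, w, hneq, hwi, fun W m hno => ?_⟩
  -- the coefficients
  set M : Data.Ind A B C → J → Qb := fun i j => ∑ i', psiM αq αsq i i' * (m i' j : Qb) with hM
  have hMA : ∀ a j, ((M (Sum.inl a) j : Qb) : ℂ) = m (Sum.inl a) j := by
    intro a j
    have h1 : M (Sum.inl a) j = (m (Sum.inl a) j : Qb) := by
      simp only [hM]
      rw [Fintype.sum_sum_type, Fintype.sum_sum_type, Fintype.sum_sum_type]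
      simp only [psiM, ite_mul, one_mul, zero_mul, Finset.sum_const_zero, add_zero,
        Finset.sum_ite_eq, Finset.mem_univ, if_true]
    rw [h1]
    push_cast
    rfl
  have hMB : ∀ b j, ((M (Sum.inr (Sum.inl b)) j : Qb) : ℂ) = m (Sum.inr (Sum.inl b)) j := by
    intro b j
    have h1 : M (Sum.inr (Sum.inl b)) j = (m (Sum.inr (Sum.inl b)) j : Qb) := by
      simp only [hM]
      rw [Fintype.sum_sum_type, Fintype.sum_sum_type, Fintype.sum_sum_type]
      simp only [psiM, ite_mul, one_mul, zero_mul, Finset.sum_const_zero, add_zero, zero_add,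
        Finset.sum_ite_eq, Finset.mem_univ, if_true]
    rw [h1]
    push_cast
    rfl
  have hMC : ∀ c j, ((M (Sum.inr (Sum.inr (Sum.inl c))) j : Qb) : ℂ) =
      m (Sum.inr (Sum.inr (Sum.inl c))) j + m (Sum.inr (Sum.inr (Sum.inr c))) j * d.α c := by
    intro c j
    have h1 : M (Sum.inr (Sum.inr (Sum.inl c))) j = (m (Sum.inr (Sum.inr (Sum.inl c))) j : Qb) +
        αq c * (m (Sum.inr (Sum.inr (Sum.inr c))) j : Qb) := by
      simp only [hM]
      rw [Fintype.sum_sum_type, Fintype.sum_sum_type, Fintype.sum_sum_type]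
      simp only [psiM, ite_mul, one_mul, zero_mul, Finset.sum_const_zero, zero_add,
        Finset.sum_ite_eq, Finset.mem_univ, if_true]
    rw [h1]
    push_cast
    simp only [αq]
    ring
  have hMC' : ∀ c j, ((M (Sum.inr (Sum.inr (Sum.inr c))) j : Qb) : ℂ) =
      m (Sum.inr (Sum.inr (Sum.inl c))) j + m (Sum.inr (Sum.inr (Sum.inr c))) j * αs c := by
    intro c j
    have h1 : M (Sum.inr (Sum.inr (Sum.inr c))) j = (m (Sum.inr (Sum.inr (Sum.inl c))) j : Qb) +
        αsq c * (m (Sum.inr (Sum.inr (Sum.inr c))) j : Qb) := by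
      simp only [hM]
      rw [Fintype.sum_sum_type, Fintype.sum_sum_type, Fintype.sum_sum_type]
      simp only [psiM, ite_mul, one_mul, zero_mul, Finset.sum_const_zero, zero_add,
        Finset.sum_ite_eq, Finset.mem_univ, if_true]
    rw [h1]
    push_cast
    simp only [αsq]
    ring
  set x : Data.Ind A B C → ℂ := fun i => (Sum.elim τ (fun _ => 0) : Data.Ind A B C → ℂ) i +
    ∑ j, M i j • w i j with hx
  have hsm : ∀ (a : Qb) (y : ℂ), a • y = (a : ℂ) * y := fun a y => rfl
  have hxA : ∀ a, x (Sum.inl a) = τ a + d.tA m a := by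
    intro a
    rw [hx]
    simp only [Sum.elim_inl, hsm, hMA]
    rfl
  have hxB : ∀ b, (d.s b * zt (d.LB b) (d.pB m b) + d.ρ b * d.pB m b) - x (Sum.inr (Sum.inl b)) ∈ QB := by
    intro b
    have h4 := zt_comb (d.g2B b) (d.g3B b) (d.hB b).1 (m (Sum.inr (Sum.inl b)))
    have h5 := mul_mem (mem_QB.2 (d.hs b)) h4
    have h6 : (d.s b * zt (d.LB b) (d.pB m b) + d.ρ b * d.pB m b) - x (Sum.inr (Sum.inl b)) =
        d.s b * (zt (d.LB b) (∑ j, (m (Sum.inr (Sum.inl b)) j : ℂ) * d.uB b j) -
          ∑ j, (m (Sum.inr (Sum.inl b)) j : ℂ) * zt (d.LB b) (d.uB b j)) := by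
      have h7 : x (Sum.inr (Sum.inl b)) = d.s b * ∑ j, (m (Sum.inr (Sum.inl b)) j : ℂ) *
          zt (d.LB b) (d.uB b j) + d.ρ b * d.pB m b := by
        rw [hx]
        simp only [Sum.elim_inr, zero_add, hsm, hMB, Data.pB, Finset.mul_sum]
        rw [← Finset.sum_add_distrib]
        apply Finset.sum_congr rfl
        intro j _
        rw [hw]
        simp only [Sum.elim_inr, Sum.elim_inl]
        ring
      rw [h7]
      simp only [Data.pB]
      ring
    rw [h6]
    exact h5
  have hxC : ∀ c, x (Sum.inr (Sum.inr (Sum.inl c))) = d.pC m c := by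
    intro c
    rw [hx]
    simp only [Sum.elim_inr, zero_add, hsm, hMC, Data.pC]
    apply Finset.sum_congr rfl
    intro j _
    rw [hw]
    simp only [Sum.elim_inr, Sum.elim_inl]
    ring
  have hxC' : ∀ c, zt (d.LC c) (d.pC m c) - (x (Sum.inr (Sum.inr (Sum.inr c))) +
      a₀ c * x (Sum.inr (Sum.inr (Sum.inl c)))) ∈ QB := by
    intro c
    have h4 := zt_comb_CM (d.g2C c) (d.g3C c) (d.hmul c) (hrel c) (d.hC c).1
      (m (Sum.inr (Sum.inr (Sum.inl c)))) (m (Sum.inr (Sum.inr (Sum.inr c))))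
    have h5 : x (Sum.inr (Sum.inr (Sum.inr c))) + a₀ c * x (Sum.inr (Sum.inr (Sum.inl c))) =
        ∑ j, ((m (Sum.inr (Sum.inr (Sum.inl c))) j : ℂ) +
          m (Sum.inr (Sum.inr (Sum.inr c))) j * (Nc c / d.α c)) * zt (d.LC c) (d.uC c j) +
        κ' c * ∑ j, (m (Sum.inr (Sum.inr (Sum.inr c))) j : ℂ) * d.uC c j := by
      have h6 : x (Sum.inr (Sum.inr (Sum.inr c))) = ∑ j, ((m (Sum.inr (Sum.inr (Sum.inl c))) j : ℂ) +
          m (Sum.inr (Sum.inr (Sum.inr c))) j * αs c) *
            (zt (d.LC c) (d.uC c j) - a₀ c * d.uC c j) := by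
        rw [hx]
        simp only [Sum.elim_inr, zero_add, hsm, hMC']
        apply Finset.sum_congr rfl
        intro j _
        rw [hw]
        simp only [Sum.elim_inr, Sum.elim_inl]
        ring
      have hk : κ' c = a₀ c * (d.α c - αs c) := by
        rw [ha₀]
        have := hne c
        field_simp
      rw [h6, hxC, Data.pC, hk]
      simp only [Finset.mul_sum, ← Finset.sum_add_distrib]
      apply Finset.sum_congr rfl
      intro j _
      show _ = ((m (Sum.inr (Sum.inr (Sum.inl c))) j : ℂ) +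
          m (Sum.inr (Sum.inr (Sum.inr c))) j * αs c) * zt (d.LC c) (d.uC c j) +
          a₀ c * (d.α c - αs c) * (m (Sum.inr (Sum.inr (Sum.inr c))) j * d.uC c j)
      ring
    rw [h5]
    exact h4
  -- the affine transformation
  let cB : B → Qb := fun b => ⟨_, hxB b⟩
  let cC : C → Qb := fun c => ⟨_, hxC' c⟩
  let aq : C → Qb := fun c => ⟨a₀ c, ha₀Q c⟩
  let g : Data.Ind A B C → MvPolynomial (Data.Ind A B C) Qb := fun i =>
    match i with
    | Sum.inl a => MvPolynomial.X (Sum.inl a)
    | Sum.inr (Sum.inl b) => MvPolynomial.X (Sum.inr (Sum.inl b)) + MvPolynomial.C (cB b)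
    | Sum.inr (Sum.inr (Sum.inl c)) => MvPolynomial.X (Sum.inr (Sum.inr (Sum.inl c)))
    | Sum.inr (Sum.inr (Sum.inr c)) => MvPolynomial.X (Sum.inr (Sum.inr (Sum.inr c))) +
        MvPolynomial.C (aq c) * MvPolynomial.X (Sum.inr (Sum.inr (Sum.inl c))) + MvPolynomial.C (cC c)
  let g' : Data.Ind A B C → MvPolynomial (Data.Ind A B C) Qb := fun i =>
    match i with
    | Sum.inl a => MvPolynomial.X (Sum.inl a)
    | Sum.inr (Sum.inl b) => MvPolynomial.X (Sum.inr (Sum.inl b)) - MvPolynomial.C (cB b)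
    | Sum.inr (Sum.inr (Sum.inl c)) => MvPolynomial.X (Sum.inr (Sum.inr (Sum.inl c)))
    | Sum.inr (Sum.inr (Sum.inr c)) => MvPolynomial.X (Sum.inr (Sum.inr (Sum.inr c))) -
        MvPolynomial.C (aq c) * MvPolynomial.X (Sum.inr (Sum.inr (Sum.inl c))) - MvPolynomial.C (cC c)
  have hfin := hno.subst g g' (by
    rintro (a | b | c | c)
    · simp only [g]
      rw [totalDegree_X]
    · simp only [g]
      refine (totalDegree_add _ _).trans (max_le ?_ ?_)
      · rw [totalDegree_X]
      · rw [totalDegree_C]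
        exact Nat.zero_le _
    · simp only [g]
      rw [totalDegree_X]
    · simp only [g]
      refine (totalDegree_add _ _).trans (max_le ?_ ?_)
      · refine (totalDegree_add _ _).trans (max_le ?_ ?_)
        · rw [totalDegree_X]
        · refine (totalDegree_mul _ _).trans ?_
          rw [totalDegree_C, totalDegree_X]
      · rw [totalDegree_C]
        exact Nat.zero_le _) (by
    rintro (a | b | c | c)
    · simp only [g, g', bind₁_X_right]
    · simp only [g, map_add, bind₁_X_right, bind₁_C_right]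
      simp only [g']
      ring
    · simp only [g, g', bind₁_X_right]
    · simp only [g, map_add, map_mul, bind₁_X_right, bind₁_C_right]
      simp only [g']
      ring)
  have hnum : (fun i => aeval x (g i)) = numT d τ m := by
    funext i
    rcases i with a | b | c | c
    · simp only [g, aeval_X, hxA, numT, Sum.elim_inl]
    · simp only [g, map_add, aeval_X, aeval_C, numT, Sum.elim_inr, Sum.elim_inl]
      show x (Sum.inr (Sum.inl b)) + (_ - x (Sum.inr (Sum.inl b))) = _
      ring
    · simp only [g, aeval_X, hxC, numT, Sum.elim_inl, Sum.elim_inr]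
    · simp only [g, map_add, map_mul, aeval_X, aeval_C, numT, Sum.elim_inr]
      show x (Sum.inr (Sum.inr (Sum.inr c))) + a₀ c * x (Sum.inr (Sum.inr (Sum.inl c))) +
        (_ - (x (Sum.inr (Sum.inr (Sum.inr c))) + a₀ c * x (Sum.inr (Sum.inr (Sum.inl c))))) = _
      ring
  rw [← hnum]
  exact hfin

end

/-- **Counting relations, all kinds.** -/
theorem data_count (nI nJ M D : ℕ) :
    ∃ c : ℕ, ∀ (A B C J : Type) [Fintype A] [Fintype B] [Fintype C] [Fintype J],
    Fintype.card (Data.Ind A B C) = nI → Fintype.card J = nJ →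
    ∀ (d : Data A B C J) (τ : A → ℂ) (W : Submodule Qb ℂ), FiniteDimensional Qb W →
    finrank Qb W ≤ M → ∀ A₀ : Finset ℤ, A₀.Nonempty →
    ∀ F : Finset (Data.Ind A B C → J → ℤ),
    (∀ m ∈ F, (∀ i j, m i j ∈ A₀) ∧ ¬ NoRelTot W D (numT d τ m)) →
    F.card ≤ c * A₀.card ^ ((nI - 1) * nJ + M * (nI + D).choose D) := by
  classical
  obtain ⟨c, hc⟩ := plain_count Qb ℂ nI nJ M (simplexS nI D) (lower_simplexS nI D)
  refine ⟨c, ?_⟩
  intro A B C J _ _ _ _ hI hJ d τ W hWf hWr A₀ hA₀ F hF
  obtain ⟨αq, αsq, w, hne, hw, hred⟩ := data_reduce d τ D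
  let e1 : Data.Ind A B C ≃ Fin nI := Fintype.equivFinOfCardEq hI
  let e2 : J ≃ Fin nJ := Fintype.equivFinOfCardEq hJ
  let ψ : Fin nI × Fin nJ → Fin nI × Fin nJ → Qb := fun x y =>
    if x.2 = y.2 then psiM αq αsq (e1.symm x.1) (e1.symm y.1) else 0
  let χ : Fin nI × Fin nJ → Fin nI × Fin nJ → Qb := fun x y =>
    if x.2 = y.2 then chiM αq αsq (e1.symm x.1) (e1.symm y.1) else 0
  have hχ : ∀ y y', ∑ x, χ y x * ψ x y' = if y = y' then 1 else 0 := by
    rintro ⟨i, j⟩ ⟨i', j'⟩
    have h0 : ∀ x1 : Fin nI, ∑ x2 : Fin nJ, χ (i, j) (x1, x2) * ψ (x1, x2) (i', j') =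
        chiM αq αsq (e1.symm i) (e1.symm x1) *
          (if j = j' then psiM αq αsq (e1.symm x1) (e1.symm i') else 0) := by
      intro x1
      rw [Finset.sum_eq_single j]
      · simp only [χ, ψ, if_true]
      · intro x2 _ hx2
        simp only [χ]
        rw [if_neg (Ne.symm hx2), zero_mul]
      · intro h; exact absurd (Finset.mem_univ _) h
    rw [Fintype.sum_prod_type]
    simp only [h0]
    by_cases hj : j = j'
    · subst hj
      simp only [if_true]
      have h1 := chi_psi αq αsq hne (e1.symm i) (e1.symm i')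
      rw [← e1.symm.sum_comp] at h1
      rw [h1]
      by_cases hi : i = i'
      · subst hi
        simp
      · rw [if_neg (fun h => hi (e1.symm.injective h)), if_neg (fun h => hi (congrArg Prod.fst h))]
    · simp only [hj, if_false, mul_zero, Finset.sum_const_zero]
      rw [if_neg (fun h => hj (congrArg Prod.snd h))]
  let U : (Data.Ind A B C → J → ℤ) → (Fin nI × Fin nJ → Qb) := fun m x =>
    (m (e1.symm x.1) (e2.symm x.2) : Qb)
  have hU : Function.Injective U := by
    intro m m' h
    funext i j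
    have h1 := congrFun h (e1 i, e2 j)
    simp only [U, Equiv.symm_apply_apply] at h1
    exact_mod_cast h1
  have h1 := hc W hWf hWr (fun i => (Sum.elim τ (fun _ => 0) : Data.Ind A B C → ℂ) (e1.symm i))
    (fun i x => w (e1.symm i) (e2.symm x)) (fun i => (hw _).comp _ e2.symm.injective) ψ χ hχ
    (A₀.image fun n : ℤ => (n : Qb)) (hA₀.image _) (F.image U) (by
      intro u hu
      obtain ⟨m, hm, rfl⟩ := Finset.mem_image.1 hu
      obtain ⟨h2, h3⟩ := hF m hm
      refine ⟨fun y => Finset.mem_image_of_mem _ (h2 _ _), fun h4 => h3 ?_⟩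
      apply hred
      have h5 := (noRelTot_of h4).comp e1 e1.injective
      have h6 : (fun i : Data.Ind A B C =>
          (Sum.elim τ (fun _ => 0) : Data.Ind A B C → ℂ) (e1.symm (e1 i)) +
          ∑ x, (∑ y, ψ (e1 i, x) y * U m y) • w (e1.symm (e1 i)) (e2.symm x)) =
          fun i => (Sum.elim τ (fun _ => 0) : Data.Ind A B C → ℂ) i +
          ∑ j, (∑ i', psiM αq αsq i i' * (m i' j : Qb)) • w i j := by
        funext i
        rw [Equiv.symm_apply_apply]
        congr 1
        rw [← e2.symm.sum_comp]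
        refine Finset.sum_congr rfl fun x _ => ?_
        congr 1
        have h0 : ∀ y1 : Fin nI, ∑ y2 : Fin nJ, ψ (e1 i, x) (y1, y2) * U m (y1, y2) =
            psiM αq αsq i (e1.symm y1) * (m (e1.symm y1) (e2.symm x) : Qb) := by
          intro y1
          rw [Finset.sum_eq_single x]
          · simp only [ψ, U, if_true, Equiv.symm_apply_apply]
          · intro y2 _ hy2
            simp only [ψ]
            rw [if_neg (Ne.symm hy2), zero_mul]
          · intro h; exact absurd (Finset.mem_univ _) h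
        rw [Fintype.sum_prod_type]
        simp only [h0]
        exact e1.symm.sum_comp (fun i' => psiM αq αsq i i' * (m i' (e2.symm x) : Qb))
      rw [← h6]
      exact h5)
  rw [Finset.card_image_of_injective _ hU,
    Finset.card_image_of_injective _ (fun a b h => by exact_mod_cast h)] at h1
  refine h1.trans (Nat.mul_le_mul_left _ (Nat.pow_le_pow_right (Finset.card_pos.2 hA₀) ?_))
  exact Nat.add_le_add_left (Nat.mul_le_mul_left _ (card_simplexS nI D)) _

end Pool.Agent.R350
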