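import Pool.Agent.R350.HT

/-!
# Translates of arbitrary points of the Lie algebra
-/

set_option autoImplicit false

namespace Pool.Agent.R350

open Module MvPolynomial
open Pool.Agent.W245.EB
open scoped PeriodPair

/-- **Counting relations between translates of combinations of given numbers.** -/
theorem fam_count (nI nJ M D : ℕ) :
    ∃ c : ℕ, ∀ (I J : Type) [Fintype I] [Fintype J], Fintype.card I = nI → Fintype.card J = nJ →
    ∀ (z : I → ℂ) (w : I → J → ℂ), (∀ i, LinearIndependent Qb (w i)) →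
    ∀ W : Submodule Qb ℂ, FiniteDimensional Qb W → finrank Qb W ≤ M →
    ∀ A₀ : Finset ℤ, A₀.Nonempty → ∀ F : Finset (I → J → ℤ),
    (∀ m ∈ F, (∀ i j, m i j ∈ A₀) ∧
      ¬ NoRelTot W D (fun i => z i + ∑ j, (m i j : ℂ) * w i j)) →
    F.card ≤ c * A₀.card ^ ((nI - 1) * nJ + M * (nI + D).choose D) := by
  classical
  obtain ⟨c, hc⟩ := plain_count Qb ℂ nI nJ M (simplexS nI D) (lower_simplexS nI D)
  refine ⟨c, ?_⟩
  intro I J _ _ hI hJ z w hw W hWf hWr A₀ hA₀ F hF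
  let e1 : I ≃ Fin nI := Fintype.equivFinOfCardEq hI
  let e2 : J ≃ Fin nJ := Fintype.equivFinOfCardEq hJ
  let U : (I → J → ℤ) → (Fin nI × Fin nJ → Qb) := fun m x =>
    (m (e1.symm x.1) (e2.symm x.2) : Qb)
  have hU : Function.Injective U := by
    intro m m' h
    funext i j
    have h1 := congrFun h (e1 i, e2 j)
    simp only [U, Equiv.symm_apply_apply] at h1
    exact_mod_cast h1
  let ψ : Fin nI × Fin nJ → Fin nI × Fin nJ → Qb := fun x y => if x = y then 1 else 0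
  have h1 := hc W hWf hWr (fun i => z (e1.symm i)) (fun i x => w (e1.symm i) (e2.symm x))
    (fun i => (hw _).comp _ e2.symm.injective) ψ ψ (by
      intro y y'
      simp only [ψ]
      rw [Finset.sum_eq_single y]
      · rw [if_pos rfl, one_mul]
      · intro x _ hx
        rw [if_neg (Ne.symm hx), zero_mul]
      · intro h; exact absurd (Finset.mem_univ _) h)
    (A₀.image fun n : ℤ => (n : Qb)) (hA₀.image _) (F.image U) (by
      intro u hu
      obtain ⟨m, hm, rfl⟩ := Finset.mem_image.1 hu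
      obtain ⟨h2, h3⟩ := hF m hm
      refine ⟨fun y => Finset.mem_image_of_mem _ (h2 _ _), fun h4 => h3 ?_⟩
      have h5 := (noRelTot_of h4).comp e1 e1.injective
      have h6 : (fun i : I => z (e1.symm (e1 i)) +
          ∑ x, (∑ y, ψ (e1 i, x) y * U m y) • w (e1.symm (e1 i)) (e2.symm x)) =
          fun i => z i + ∑ j, (m i j : ℂ) * w i j := by
        funext i
        rw [Equiv.symm_apply_apply]
        congr 1
        rw [← e2.symm.sum_comp]
        refine Finset.sum_congr rfl fun x _ => ?_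
        have h0 : ∑ y, ψ (e1 i, x) y * U m y = (m i (e2.symm x) : Qb) := by
          rw [Finset.sum_eq_single (e1 i, x)]
          · simp only [ψ, U, if_true, Equiv.symm_apply_apply, one_mul]
          · intro y _ hy
            simp only [ψ]
            rw [if_neg (Ne.symm hy), zero_mul]
          · intro h; exact absurd (Finset.mem_univ _) h
        rw [h0, Algebra.smul_def]
        congr 1
      rw [← h6]
      exact h5)
  rw [Finset.card_image_of_injective _ hU,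
    Finset.card_image_of_injective _ (fun a b h => by exact_mod_cast h)] at h1
  refine h1.trans (Nat.mul_le_mul_left _ (Nat.pow_le_pow_right (Finset.card_pos.2 hA₀) ?_))
  exact Nat.add_le_add_left (Nat.mul_le_mul_left _ (card_simplexS nI D)) _

/-- multiplication of the coefficients by a number -/
theorem noRelTot_scale {κ C : Type*} [Field κ] [Field C] [Algebra κ C] {σ : Type*}
    {W V : Submodule κ C} {D : ℕ} {x : σ → C} (h : NoRelTot W D x) {δ : C} (hδ : δ ≠ 0)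
    (hV : ∀ v ∈ V, δ * v ∈ W) : NoRelTot V D x := by
  intro Q h1 h2 h3
  have h4 : MvPolynomial.C δ * Q = 0 := by
    apply h
    · refine (totalDegree_mul _ _).trans ?_
      rw [totalDegree_C, zero_add]
      exact h1
    · intro s
      rw [coeff_C_mul]
      exact hV _ (h2 s)
    · rw [map_mul, h3, mul_zero]
  rw [mul_eq_zero] at h4
  refine h4.resolve_left fun h5 => hδ ?_
  rw [← MvPolynomial.C_0] at h5
  exact MvPolynomial.C_injective _ _ h5

section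

variable {V : Submodule Qb ℂ}

theorem pow_one_mem (h1 : (1 : ℂ) ∈ V) (k : ℕ) : (1 : ℂ) ∈ V ^ k := by
  have := Submodule.pow_mem_pow V h1 k
  rwa [one_pow] at this

theorem pow_mono_mem (h1 : (1 : ℂ) ∈ V) {a b : ℕ} (hab : a ≤ b) {x : ℂ} (hx : x ∈ V ^ a) :
    x ∈ V ^ b :=
  (pow_le_pow_right₀ (Submodule.one_le.2 h1) hab) hx

theorem pow_mul_mem {a b c : ℕ} {x y : ℂ} (hx : x ∈ V ^ a) (hy : y ∈ V ^ b) (h : a + b = c) :
    x * y ∈ V ^ c := by
  rw [← h, pow_add]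
  exact Submodule.mul_mem_mul hx hy

theorem pow_alg_mem (h1 : (1 : ℂ) ∈ V) (k : ℕ) {x : ℂ} (hx : x ∈ QB) : x ∈ V ^ k := by
  have := (V ^ k).smul_mem (⟨x, hx⟩ : Qb) (pow_one_mem h1 k)
  have h2 : (⟨x, hx⟩ : Qb) • (1 : ℂ) = x := by
    rw [Algebra.smul_def, mul_one]
    rfl
  rwa [h2] at this

theorem pow_alg_mul {k : ℕ} {x y : ℂ} (hx : x ∈ QB) (hy : y ∈ V ^ k) : x * y ∈ V ^ k := by
  have := (V ^ k).smul_mem (⟨x, hx⟩ : Qb) hy
  have h2 : (⟨x, hx⟩ : Qb) • y = x * y := by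
    rw [Algebra.smul_def]
    rfl
  rwa [h2] at this

/-- the coordinates of a translate -/
theorem ell_coords {L : PeriodPair} (h2 : IsAlgebraic ℚ L.g₂) (h3 : IsAlgebraic ℚ L.g₃)
    (h1 : (1 : ℂ) ∈ V) {π u : ℂ} (hX : ℘[L] π ∈ V) (hY : ℘'[L] π ∈ V) (hu : u ∈ EL L)
    (hp : π + u ∉ L.lattice) (D : ℕ) :
    ∃ δ : ℂ, δ ≠ 0 ∧ ∀ e f : ℕ, e ≤ D → f ≤ D →
      δ * (℘[L] (π + u) ^ e * ℘'[L] (π + u) ^ f) ∈ V ^ (8 * D) := by
  by_cases hπ : π ∈ EL L
  · refine ⟨1, one_ne_zero, fun e f he hf => ?_⟩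
    have hpE := (add_mem_EL h2 h3 hπ hu).resolve_left hp
    rw [one_mul]
    exact pow_alg_mem h1 _ (mul_mem (pow_mem (mem_QB.2 hpE) _)
      (pow_mem (mem_QB.2 (wp'_alg h2 h3 hp hpE)) _))
  have hπL : π ∉ L.lattice := fun h => hπ (Or.inl h)
  have hX1 : ℘[L] π ∈ V ^ 1 := by rwa [pow_one]
  have hY1 : ℘'[L] π ∈ V ^ 1 := by rwa [pow_one]
  by_cases huL : u ∈ L.lattice
  · refine ⟨1, one_ne_zero, fun e f he hf => ?_⟩
    rw [one_mul, wp_add_lattice L huL, wp'_add_lattice L huL]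
    have e1 : ℘[L] π ^ e ∈ V ^ e := Submodule.pow_mem_pow V hX e
    have e2 : ℘'[L] π ^ f ∈ V ^ f := Submodule.pow_mem_pow V hY f
    exact pow_mono_mem h1 (by omega) (pow_mul_mem e1 e2 rfl)
  have hx : ℘[L] u ∈ QB := mem_QB.2 (hu.resolve_left huL)
  have hy : ℘'[L] u ∈ QB := mem_QB.2 (wp'_alg h2 h3 huL (hu.resolve_left huL))
  have h2π : 2 * π ∉ L.lattice := by
    intro h
    apply hπ
    right
    have h4 := half_mem_QB h2 h3 (2 * π) h
    rw [mul_div_cancel_left₀ _ (two_ne_zero)] at h4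
    exact mem_QB.1 h4
  have hsub : π - u ∉ L.lattice := by
    intro h
    apply hπ
    have h4 : π = (π - u) + u := by ring
    rw [h4]
    exact add_mem_EL h2 h3 (Or.inl h) hu
  set X := ℘[L] π with hXd
  set Y := ℘'[L] π with hYd
  set x := ℘[L] u with hxd
  set y := ℘'[L] u with hyd
  have hne : X - x ≠ 0 := by
    intro h
    apply hπ
    right
    rw [← hXd, sub_eq_zero.1 h]
    exact mem_QB.1 hx
  have hg : L.g₂ / 2 ∈ QB := div_mem (mem_QB.2 h2) (ofNat_mem _ 2)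
  have hA := H667R3.wp_add L h2π huL hp hsub
  have hB := H667R3.wp'_add L h2π huL hp hsub
  rw [← hXd, ← hYd, ← hxd, ← hyd] at hA hB
  -- memberships
  have m1 : ∀ {a : ℂ}, a ∈ QB → a ∈ V ^ 1 := fun {a} ha => pow_alg_mem h1 1 ha
  have mXx : X - x ∈ V ^ 1 := Submodule.sub_mem _ hX1 (m1 hx)
  have mYy : Y - y ∈ V ^ 1 := Submodule.sub_mem _ hY1 (m1 hy)
  have mX2 : X ^ 2 ∈ V ^ 2 := Submodule.pow_mem_pow V hX 2
  have mG : 6 * X ^ 2 - L.g₂ / 2 ∈ V ^ 2 :=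
    Submodule.sub_mem _ (pow_alg_mul (ofNat_mem _ 6) mX2) (pow_alg_mem h1 2 hg)
  have mN : (6 * X ^ 2 - L.g₂ / 2) * (X - x) - (Y - y) * Y ∈ V ^ 3 :=
    Submodule.sub_mem _ (pow_mul_mem mG mXx rfl)
      (pow_mono_mem h1 (by omega : 2 ≤ 3) (pow_mul_mem mYy hY1 rfl))
  have mXx2 : (X - x) ^ 2 ∈ V ^ 2 := by
    rw [sq (X - x)]
    exact pow_mul_mem mXx mXx rfl
  have mXx4 : (X - x) ^ 4 ∈ V ^ 4 := by
    have : (X - x) ^ 4 = (X - x) ^ 2 * (X - x) ^ 2 := by ring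
    rw [this]
    exact pow_mul_mem mXx2 mXx2 rfl
  have hA' : 2 * (X - x) ^ 2 * ℘[L] (π + u) ∈ V ^ 3 := by
    have : 2 * (X - x) ^ 2 * ℘[L] (π + u) =
        2 * ((X - x) ^ 2 * X) - ((6 * X ^ 2 - L.g₂ / 2) * (X - x) - (Y - y) * Y) := by
      rw [hA]
      field_simp
    rw [this]
    exact Submodule.sub_mem _ (pow_alg_mul (ofNat_mem _ 2) (pow_mul_mem mXx2 hX1 rfl)) mN
  have hB' : 4 * (X - x) ^ 4 * ℘'[L] (π + u) ∈ V ^ 5 := by
    have e1 : 4 * (X - x) ^ 4 * ℘'[L] (π + u) = 4 * ((X - x) ^ 4 * Y) -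
        (((12 * X * Y) * (X - x) + (6 * X ^ 2 - L.g₂ / 2) * Y
          - ((6 * X ^ 2 - L.g₂ / 2) * Y + (Y - y) * (6 * X ^ 2 - L.g₂ / 2))) *
          (2 * (X - x) ^ 2) -
        ((6 * X ^ 2 - L.g₂ / 2) * (X - x) - (Y - y) * Y) * (4 * ((X - x) * Y))) := by
      rw [hB]
      field_simp
      ring
    have e2 : 12 * X * Y * (X - x) ∈ V ^ 3 := by
      have : 12 * X * Y * (X - x) = 12 * (X * Y * (X - x)) := by ring
      rw [this]
      exact pow_alg_mul (ofNat_mem _ 12) (pow_mul_mem (pow_mul_mem hX1 hY1 (c := 2) rfl) mXx rfl)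
    have e3 : (6 * X ^ 2 - L.g₂ / 2) * Y ∈ V ^ 3 := pow_mul_mem mG hY1 rfl
    have e4 : (Y - y) * (6 * X ^ 2 - L.g₂ / 2) ∈ V ^ 3 := pow_mul_mem mYy mG rfl
    rw [e1]
    refine Submodule.sub_mem _ (pow_alg_mul (ofNat_mem _ 4) (pow_mul_mem mXx4 hY1 rfl))
      (Submodule.sub_mem _ ?_ ?_)
    · exact pow_mul_mem (Submodule.sub_mem _ (Submodule.add_mem _ e2 e3)
        (Submodule.add_mem _ e3 e4)) (pow_alg_mul (ofNat_mem _ 2) mXx2) rfl
    · exact pow_mul_mem mN (pow_alg_mul (ofNat_mem _ 4) (pow_mul_mem mXx hY1 (c := 2) rfl)) rfl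
  refine ⟨(2 * (X - x) ^ 2) ^ D * (4 * (X - x) ^ 4) ^ D,
    mul_ne_zero (pow_ne_zero _ (mul_ne_zero two_ne_zero (pow_ne_zero _ hne)))
      (pow_ne_zero _ (mul_ne_zero (by norm_num) (pow_ne_zero _ hne))), fun e f he hf => ?_⟩
  have hpow : ∀ {a : ℂ} {k : ℕ}, a ∈ V ^ k → ∀ n : ℕ, a ^ n ∈ V ^ (k * n) := by
    intro a k ha n
    rw [pow_mul]
    exact Submodule.pow_mem_pow _ ha n
  have e5 : (2 * (X - x) ^ 2) ^ D * (4 * (X - x) ^ 4) ^ D *
      (℘[L] (π + u) ^ e * ℘'[L] (π + u) ^ f) =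
      ((2 * (X - x) ^ 2) ^ (D - e) * (2 * (X - x) ^ 2 * ℘[L] (π + u)) ^ e) *
      ((4 * (X - x) ^ 4) ^ (D - f) * (4 * (X - x) ^ 4 * ℘'[L] (π + u)) ^ f) := by
    have e6 : (2 * (X - x) ^ 2) ^ D = (2 * (X - x) ^ 2) ^ (D - e) * (2 * (X - x) ^ 2) ^ e := by
      rw [← pow_add, Nat.sub_add_cancel he]
    have e7 : (4 * (X - x) ^ 4) ^ D = (4 * (X - x) ^ 4) ^ (D - f) * (4 * (X - x) ^ 4) ^ f := by
      rw [← pow_add, Nat.sub_add_cancel hf]
    rw [e6, e7, mul_pow (2 * (X - x) ^ 2) (℘[L] (π + u)), mul_pow (4 * (X - x) ^ 4)]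
    ring
  rw [e5]
  refine pow_mono_mem h1 ?_ (pow_mul_mem
    (pow_mul_mem (hpow (pow_alg_mul (ofNat_mem _ 2) mXx2) (D - e)) (hpow hA' e) rfl)
    (pow_mul_mem (hpow (pow_alg_mul (ofNat_mem _ 4) mXx4) (D - f)) (hpow hB' f) rfl) rfl)
  omega

end

end Pool.Agent.R350
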