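import Pool.Agent.R350.HR

/-!
# Relations between tied combinations: several numbers share the same coefficients
-/

set_option autoImplicit false

namespace Pool.Agent.R350

open Module MvPolynomial

section

variable {k A : Type*} [Field k] [Field A] [Algebra k A]

/-- no nonzero tensor of rank one is a relation between the `a v x`, for the `v` of one block -/
def RankOneFree {n l N : ℕ} (col : Fin n → Fin l) (a : Fin n → Fin N → A) : Prop :=
  ∀ (i : Fin l) (p : Fin n → k) (g : Fin N → k), (∀ v, col v ≠ i → p v = 0) →
    ∑ v, p v • ∑ x, g x • a v x = 0 → p = 0 ∨ g = 0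

/-- the linear map of a block -/
def blockMap {n l N : ℕ} (col : Fin n → Fin l) (a : Fin n → Fin N → A) (i : Fin l) (P : Fin n → A) :
    (Fin N → k) →ₗ[k] A where
  toFun g := ∑ v, (if col v = i then P v else 0) * ∑ x, g x • a v x
  map_add' g g' := by
    simp only [Pi.add_apply, add_smul, Finset.sum_add_distrib, mul_add]
  map_smul' r g := by
    simp only [Pi.smul_apply, smul_eq_mul, RingHom.id_apply, Finset.smul_sum, mul_smul,
      mul_smul_comm, Finset.mul_sum]

/-- the kernels have bounded dimension -/
theorem ker_blockMap {v n l N : ℕ} {L : Submodule k A} (hL : HypV v L) (col : Fin n → Fin l)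
    (a : Fin n → Fin N → A) (haL : ∀ u x, a u x ∈ L) (ha : RankOneFree (k := k) col a) (i : Fin l)
    (P : Fin n → A) (hP : ∃ u, col u = i ∧ P u ≠ 0) :
    finrank k (LinearMap.ker (blockMap (k := k) col a i P)) ≤ n * (n + v) := by
  classical
  set Q : Fin n → A := fun u => if col u = i then P u else 0 with hQ
  set Ω : Submodule k A := Submodule.span k (Set.range Q) with hΩ
  have hfd : FiniteDimensional k Ω := FiniteDimensional.span_of_finite _ (Set.finite_range _)
  have hr : finrank k Ω ≤ n := by
    have := finrank_range_le_card (R := k) Q
    rwa [Fintype.card_fin] at this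
  let B := Module.finBasis k (LinearMap.ker (blockMap (k := k) col a i P))
  have h1 := hL.dual Ω (κ := Fin (finrank k (LinearMap.ker (blockMap (k := k) col a i P))))
    (τ := Fin n) (fun _ u => Q u)
    (fun c u => ∑ x, ((B c : LinearMap.ker (blockMap (k := k) col a i P)) : Fin N → k) x • a u x)
    (fun _ u => Submodule.subset_span ⟨u, rfl⟩)
    (fun c u => Submodule.sum_mem _ fun x _ => Submodule.smul_mem _ _ (haL u x))
    (fun c => (B c).2)
    (by
      intro η hη
      -- the combination of the basis
      set g : Fin N → k := ∑ c, η c •
        ((B c : LinearMap.ker (blockMap (k := k) col a i P)) : Fin N → k) with hg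
      have h2 : ∀ φ : A →ₗ[k] k, ∑ u, φ (Q u) • ∑ x, g x • a u x = 0 := by
        intro φ
        rw [← hη φ]
        have h3 : ∀ u, ∑ x, g x • a u x = ∑ c, η c • ∑ x,
            ((B c : LinearMap.ker (blockMap (k := k) col a i P)) : Fin N → k) x • a u x := by
          intro u
          simp only [hg, Finset.sum_apply, Pi.smul_apply, smul_eq_mul, Finset.sum_smul,
            Finset.smul_sum, mul_smul]
          exact Finset.sum_comm
        simp only [h3]
        simp only [Finset.smul_sum (s := Finset.univ (α := Fin n)),
          Finset.smul_sum (s := Finset.univ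
            (α := Fin (finrank k (LinearMap.ker (blockMap (k := k) col a i P)))))]
        rw [Finset.sum_comm]
        refine Finset.sum_congr rfl fun c _ => Finset.sum_congr rfl fun u _ => ?_
        rw [smul_comm]
      -- some functional
      obtain ⟨u₀, hu₀, hPu⟩ := hP
      have hQu : Q u₀ ≠ 0 := by
        rw [hQ]
        simp only [hu₀, if_true]
        exact hPu
      obtain ⟨φ, hφ⟩ := Module.Projective.exists_dual_ne_zero k hQu
      have h4 := ha i (fun u => φ (Q u)) g (by
        intro u hu
        have : Q u = 0 := by
          rw [hQ]
          simp only [hu, if_false]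
        simp only [this, map_zero]) (h2 φ)
      rcases h4 with h4 | h4
      · exact absurd (congrFun h4 u₀) hφ
      · have h5 : ∑ c, η c • B c = 0 := by
          apply Subtype.ext
          rw [Submodule.coe_sum]
          simp only [Submodule.coe_smul, Submodule.coe_zero]
          exact h4
        exact Fintype.linearIndependent_iff.1 B.linearIndependent η h5)
  rw [Fintype.card_fin] at h1
  exact h1.trans (Nat.mul_le_mul hr (Nat.add_le_add_right hr v))

end

end Pool.Agent.R350
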