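import Pool.Agent.R350.HW

/-!
# Relations between tied combinations: dimension
-/

set_option autoImplicit false

namespace Pool.Agent.R350

open Module Filter

/-- transfer of the condition on tensors of rank one -/
theorem rankOneFree_U {ι : Type} (𝒰 : Ultrafilter ι) {κ C : Type} [Field κ] [Field C]
    [Algebra κ C] {n l N : ℕ} (col : Fin n → Fin l) (a : ι → Fin n → Fin N → C)
    (ha : ∀ t, RankOneFree (k := κ) col (a t)) :
    RankOneFree (k := UP 𝒰 κ) col (fun v x => gr 𝒰 C (fun t => a t v x)) := by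
  classical
  intro i p g hp h0
  choose pf hpf using fun v => gr_surj 𝒰 (p v)
  choose gf hgf using fun x => gr_surj 𝒰 (g x)
  have h1 : ∀ᶠ t in (𝒰 : Filter ι), ∀ v, col v ≠ i → pf v t = 0 := by
    rw [Filter.eventually_all]
    intro v
    by_cases hv : col v = i
    · exact Filter.Eventually.of_forall fun t h => absurd hv h
    · have h2 : gr 𝒰 κ (pf v) = 0 := by rw [hpf]; exact hp v hv
      rw [gr_eq_zero] at h2
      exact h2.mono fun t ht _ => ht
  have h2 : ∀ᶠ t in (𝒰 : Filter ι), ∑ v, pf v t • ∑ x, gf x t • a t v x = 0 := by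
    have h3 : gr 𝒰 C (∑ v, fun t => pf v t • ∑ x, gf x t • a t v x) = 0 := by
      rw [map_sum, ← h0]
      refine Finset.sum_congr rfl fun v _ => ?_
      have h4 : (fun t => ∑ x, gf x t • a t v x) = ∑ x, fun t => gf x t • a t v x := by
        funext t
        rw [Finset.sum_apply]
      rw [← gr_smul, h4, map_sum, hpf]
      congr 1
      refine Finset.sum_congr rfl fun x _ => ?_
      rw [← gr_smul, hgf]
    rw [gr_eq_zero] at h3
    refine h3.mono fun t ht => ?_
    rw [Finset.sum_apply] at ht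
    exact ht
  have h3 : ∀ᶠ t in (𝒰 : Filter ι), (∀ v, pf v t = 0) ∨ (∀ x, gf x t = 0) := by
    refine (h1.and h2).mono fun t ht => ?_
    rcases ha t i (fun v => pf v t) (fun x => gf x t) ht.1 ht.2 with h | h
    · exact Or.inl fun v => congrFun h v
    · exact Or.inr fun x => congrFun h x
  rw [Ultrafilter.eventually_or] at h3
  rcases h3 with h3 | h3
  · left
    funext v
    rw [← hpf, Pi.zero_apply, gr_eq_zero]
    exact h3.mono fun t ht => ht v
  · right
    funext x
    rw [← hgf, Pi.zero_apply, gr_eq_zero]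
    exact h3.mono fun t ht => ht x

/-- **Tied combinations outside sets of small dimension have no relations.** -/
theorem tied_dim {κ C : Type} [Field κ] [CharZero κ] [Field C] [CharZero C] [Algebra κ C]
    {n l N s m v : ℕ} (col : Fin n → Fin l) (S : Finset (Fin n →₀ ℕ)) (hS : LowerS S)
    (hs : (l - 1) * N + m * S.card + n * (n + v) < s)
    (W : Submodule κ C) [FiniteDimensional κ W] (hm : finrank κ W ≤ m)
    {L : Submodule κ C} (hL : HypV v L)
    (z : Fin n → C) (a : Fin n → Fin N → C) (haL : ∀ u x, a u x ∈ L)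
    (ha : RankOneFree (k := κ) col a)
    (φ : Fin s → Fin l × Fin N → κ) :
    ∃ Δ : MvPolynomial (Fin s) κ, Δ ≠ 0 ∧ ∀ b : Fin l × Fin N → κ,
      MvPolynomial.eval (fun q => ∑ x, φ q x * b x) Δ ≠ 0 →
        NoRelS S W (fun u => z u + ∑ x, b (col u, x) • a u x) := by
  classical
  by_contra hcon
  push Not at hcon
  let ι : Type := {b : Fin l × Fin N → κ //
    ¬ NoRelS S W (fun u => z u + ∑ x, b (col u, x) • a u x)}
  obtain ⟨𝒰, hgen⟩ := exists_ultra_gen (ι := ι) (fun b (q : Fin s) => ∑ x, φ q x * b.1 x) (by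
    intro P hP
    obtain ⟨b, h1, h2⟩ := hcon P hP
    exact ⟨⟨b, h2⟩, h1⟩)
  have hch1 : CharZero (UP 𝒰 κ) := charZero_UP 𝒰
  have hch2 : CharZero (UP 𝒰 C) := charZero_UP 𝒰
  choose D hD1 hD2 hD3 using fun q => exists_der_U (C := C) 𝒰
    (fun q (b : ι) => ∑ x, φ q x * b.1 x) hgen q
  have hDLU : ∀ (q : Fin s), ∀ w ∈ LU 𝒰 W, D q w ∈ LU 𝒰 W := by
    intro q w hw
    refine Submodule.span_induction (p := fun w _ => D q w ∈ LU 𝒰 W) ?_ ?_ ?_ ?_ hw
    · rintro _ ⟨z, hz, rfl⟩
      rw [hD2]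
      exact Submodule.zero_mem _
    · rw [map_zero]
      exact Submodule.zero_mem _
    · intro a b _ _ ha hb
      rw [map_add]
      exact Submodule.add_mem _ ha hb
    · intro c a ha' ha
      obtain ⟨c', hc'⟩ := hD1 q c
      rw [Algebra.smul_def, (D q).leibniz, hc', smul_eq_mul, smul_eq_mul, mul_comm a,
        ← Algebra.smul_def, ← Algebra.smul_def]
      exact Submodule.add_mem _ (Submodule.smul_mem _ _ ha) (Submodule.smul_mem _ _ ha')
  set y : Fin n → ι → C := fun u b => z u + ∑ x, b.1 (col u, x) • a u x with hy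
  have hyU : ∀ u, gr 𝒰 C (y u) = cst 𝒰 C (z u) +
      ∑ x, gr 𝒰 κ (fun b : ι => b.1 (col u, x)) • cst 𝒰 C (a u x) := by
    intro u
    simp only [cst_apply, gr_smul, ← map_sum, ← map_add]
    congr 1
    funext b
    simp only [hy, Pi.add_apply, Finset.sum_apply]
  choose c hc using fun q x => hD1 q (gr 𝒰 κ (fun b : ι => b.1 x))
  have hfdU := LU_finrank 𝒰 (L := W)
  have hfdU1 := hfdU.1
  -- the relations
  have hrel : ∀ t : ι, ∃ P : MvPolynomial (Fin n) C, P.support ⊆ S ∧ CoefIn W P ∧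
      MvPolynomial.eval (fun i => y i t) P = 0 ∧ P ≠ 0 := by
    intro t
    have h1 := t.2
    unfold NoRelS at h1
    push Not at h1
    obtain ⟨P, h2, h3, h4, h5⟩ := h1
    exact ⟨P, h2, h3, h4, h5⟩
  choose P hP1 hP2 hP3 hP4 using hrel
  have hcore := tied_core (k := UP 𝒰 κ) (A := UP 𝒰 C) col S hS (LU 𝒰 W) (hfdU.2.trans hm)
    (fun i x => cst 𝒰 C (a i x)) (fun i Q hQ => ker_blockMap (hypV_U 𝒰 hL) col
      (fun i x => cst 𝒰 C (a i x)) (fun u x => cst_mem 𝒰 (haL u x))
      (rankOneFree_U 𝒰 col (fun _ => a) fun _ => ha) i Q hQ)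
    D hDLU (fun i => gr 𝒰 C (y i)) c (by
      intro q i
      rw [hyU, map_add, hD2, zero_add, map_sum]
      refine Finset.sum_congr rfl fun x _ => ?_
      rw [Algebra.smul_def, (D q).leibniz, hD2, hc, smul_zero, zero_add, smul_eq_mul,
        Algebra.smul_def, mul_comm])
    (fun q x => cst 𝒰 κ (φ q x)) (by
      intro q q'
      have h1 := hD3 q q'
      have h2 : algebraMap (UP 𝒰 κ) (UP 𝒰 C) (gr 𝒰 κ (fun b : ι => ∑ x, φ q' x * b.1 x)) =
          ∑ x, cst 𝒰 C (algebraMap κ C (φ q' x)) *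
            algebraMap (UP 𝒰 κ) (UP 𝒰 C) (gr 𝒰 κ (fun b : ι => b.1 x)) := by
        simp only [algebraMap_gr, cst_apply, ← map_mul, ← map_sum]
        congr 1
        funext b
        simp only [Finset.sum_apply, Pi.mul_apply, map_sum, map_mul]
      rw [h2, map_sum] at h1
      have h3 : ∀ x, D q (cst 𝒰 C (algebraMap κ C (φ q' x)) *
          algebraMap (UP 𝒰 κ) (UP 𝒰 C) (gr 𝒰 κ (fun b : ι => b.1 x))) =
          algebraMap (UP 𝒰 κ) (UP 𝒰 C) (cst 𝒰 κ (φ q' x) * c q x) := by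
        intro x
        rw [(D q).leibniz, hD2, hc, smul_zero, add_zero, smul_eq_mul, map_mul]
        rfl
      simp only [h3] at h1
      apply (algebraMap (UP 𝒰 κ) (UP 𝒰 C)).injective
      rw [map_sum, h1, apply_ite (algebraMap (UP 𝒰 κ) (UP 𝒰 C)), map_one, map_zero])
    hs (∑ γ ∈ S, γ.degree)
    (∑ γ ∈ S, MvPolynomial.monomial γ (gr 𝒰 C (fun t => (P t).coeff γ)))
    (by
      intro γ hγ
      have h1 := support_sum_mon S (fun γ => gr 𝒰 C (fun t => (P t).coeff γ)) hγ
      exact ⟨h1, Finset.single_le_sum (f := fun γ : Fin n →₀ ℕ => γ.degree)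
        (fun _ _ => Nat.zero_le _) h1⟩)
    (by
      intro γ
      rw [coeff_sum_mon]
      split_ifs
      · exact LU_of_fin 𝒰 _ fun t => hP2 t γ
      · exact Submodule.zero_mem _)
    (by
      rw [eval_U, gr_eq_zero]
      refine Filter.Eventually.of_forall fun t => ?_
      rw [← eq_sum_mon (hP1 t)]
      exact hP3 t)
  have h1 : ∀ᶠ t in (𝒰 : Filter ι), ∀ γ ∈ S, (P t).coeff γ = 0 := by
    rw [Filter.eventually_all_finset]
    intro γ hγ
    have h2 := congrArg (MvPolynomial.coeff γ) hcore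
    rw [coeff_sum_mon, if_pos hγ, MvPolynomial.coeff_zero, gr_eq_zero] at h2
    exact h2
  obtain ⟨t, ht⟩ := h1.exists
  apply hP4 t
  rw [eq_sum_mon (hP1 t)]
  exact Finset.sum_eq_zero fun γ hγ => by rw [ht γ hγ, map_zero]

/-- **Tied combinations outside sets of small dimension and bounded degree have no relations.** -/
theorem tied_dim_unif (κ C : Type) [Field κ] [CharZero κ] [Field C] [CharZero C] [Algebra κ C]
    (n l N s m v : ℕ) (col : Fin n → Fin l) (S : Finset (Fin n →₀ ℕ)) (hS : LowerS S)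
    (hs : (l - 1) * N + m * S.card + n * (n + v) < s) (L : Submodule κ C) (hL : HypV v L) :
    ∃ e : ℕ, ∀ W : Submodule κ C, FiniteDimensional κ W → finrank κ W ≤ m →
    ∀ z : Fin n → C, ∀ a : Fin n → Fin N → C, (∀ u x, a u x ∈ L) →
    RankOneFree (k := κ) col a → ∀ φ : Fin s → Fin l × Fin N → κ,
    ∃ Δ : MvPolynomial (Fin s) κ, Δ ≠ 0 ∧ Δ.totalDegree ≤ e ∧ ∀ b : Fin l × Fin N → κ,
      MvPolynomial.eval (fun q => ∑ x, φ q x * b x) Δ ≠ 0 →
        NoRelS S W (fun u => z u + ∑ x, b (col u, x) • a u x) := by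
  classical
  by_contra hcon
  push Not at hcon
  choose W hfd hm z a haL ha φ hb using hcon
  let 𝒰 : Ultrafilter ℕ := Filter.hyperfilter ℕ
  have hch1 : CharZero (UP 𝒰 κ) := charZero_UP 𝒰
  have hch2 : CharZero (UP 𝒰 C) := charZero_UP 𝒰
  obtain ⟨hfd1, hfd2⟩ := IU_finrank 𝒰 hfd hm
  obtain ⟨Δ, hΔ0, hΔ⟩ := tied_dim (κ := UP 𝒰 κ) (C := UP 𝒰 C) col S hS hs
    (IU 𝒰 W) hfd2 (hypV_IU 𝒰 (L := fun _ => L) fun _ => hL) (fun i => gr 𝒰 C (fun t => z t i))
    (fun i x => gr 𝒰 C (fun t => a t i x)) (fun u x => mem_IU 𝒰 fun t => haL t u x)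
    (rankOneFree_U 𝒰 col a ha)
    (fun q x => gr 𝒰 κ (fun t => φ t q x))
  -- representatives of the polynomial
  choose δ hδ using fun γ => gr_surj 𝒰 (Δ.coeff γ)
  set P : ℕ → MvPolynomial (Fin s) κ := fun t =>
    ∑ γ ∈ Δ.support, MvPolynomial.monomial γ (δ γ t) with hP
  have hPdeg : ∀ t, (P t).totalDegree ≤ Δ.totalDegree := by
    intro t
    have h1 : (P t).support ⊆ Δ.support := by
      simp only [hP]
      exact support_sum_mon Δ.support (fun γ => δ γ t)
    exact Finset.sup_mono h1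
  have hΔP : Δ = ∑ γ ∈ Δ.support, MvPolynomial.monomial γ (gr 𝒰 κ (δ γ)) := by
    conv_lhs => rw [eq_sum_mon (subset_refl Δ.support)]
    exact Finset.sum_congr rfl fun γ _ => by rw [hδ]
  have hP0 : ∀ᶠ t in (𝒰 : Filter ℕ), P t ≠ 0 := by
    obtain ⟨γ, hγ⟩ := MvPolynomial.ne_zero_iff.1 hΔ0
    have h1 : ¬ ∀ᶠ t in (𝒰 : Filter ℕ), δ γ t = 0 := fun h => hγ (by
      rw [← hδ γ, gr_eq_zero]; exact h)
    rw [← Ultrafilter.eventually_not] at h1
    refine h1.mono fun t ht h0 => ht ?_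
    have h2 := congrArg (MvPolynomial.coeff γ) h0
    simp only [hP] at h2
    rwa [coeff_sum_mon, if_pos (MvPolynomial.mem_support_iff.2 hγ), MvPolynomial.coeff_zero] at h2
  have hdeg : ∀ᶠ t in (𝒰 : Filter ℕ), (P t).totalDegree ≤ t := by
    have h1 : ∀ᶠ t in (Filter.atTop : Filter ℕ), Δ.totalDegree ≤ t :=
      Filter.eventually_ge_atTop _
    have h2 : ∀ᶠ t in (𝒰 : Filter ℕ), Δ.totalDegree ≤ t :=
      Filter.Eventually.filter_mono Nat.hyperfilter_le_atTop h1
    exact h2.mono fun t ht => (hPdeg t).trans ht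
  have hbad : ∀ t, ∃ (b : Fin l × Fin N → κ) (R : MvPolynomial (Fin n) C), R.support ⊆ S ∧
      CoefIn (W t) R ∧ MvPolynomial.eval (fun u => z t u + ∑ x, b (col u, x) • a t u x) R = 0 ∧
      (P t ≠ 0 → (P t).totalDegree ≤ t →
        MvPolynomial.eval (fun q => ∑ x, φ t q x * b x) (P t) ≠ 0 ∧ R ≠ 0) := by
    intro t
    by_cases h : P t ≠ 0 ∧ (P t).totalDegree ≤ t
    · obtain ⟨b, h1, h2⟩ := hb t (P t) h.1 h.2
      unfold NoRelS at h2
      push Not at h2
      obtain ⟨R, h3, h4, h5, h6⟩ := h2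
      exact ⟨b, R, h3, h4, h5, fun _ _ => ⟨h1, h6⟩⟩
    · exact ⟨0, 0, by simp, fun β => by rw [MvPolynomial.coeff_zero]; exact (W t).zero_mem,
        map_zero _, fun h1 h2 => absurd ⟨h1, h2⟩ h⟩
  choose b R hR1 hR2 hR3 hbad using hbad
  have hev : MvPolynomial.eval (fun q => ∑ x, gr 𝒰 κ (fun t => φ t q x) *
      gr 𝒰 κ (fun t => b t x)) Δ = gr 𝒰 κ (fun t =>
        MvPolynomial.eval (fun q => ∑ x, φ t q x * b t x) (P t)) := by
    have h1 : (fun q => ∑ x, gr 𝒰 κ (fun t => φ t q x) * gr 𝒰 κ (fun t => b t x)) =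
        fun q => gr 𝒰 κ (fun t => ∑ x, φ t q x * b t x) := by
      funext q
      simp only [← map_mul]
      rw [← map_sum]
      congr 1
      funext t
      rw [Finset.sum_apply]
      rfl
    rw [h1]
    conv_lhs => rw [hΔP]
    rw [eval_U]
  have h1 := hΔ (fun x => gr 𝒰 κ (fun t => b t x)) (by
    rw [hev, Ne, gr_eq_zero]
    intro h2
    obtain ⟨t, ⟨ht1, ht2⟩, ht3⟩ := ((h2.and hP0).and hdeg).exists
    exact (hbad t ht2 ht3).1 ht1)
  have h2 : ∀ i, gr 𝒰 C (fun t => z t i) + ∑ x, gr 𝒰 κ (fun t => b t (col i, x)) •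
      gr 𝒰 C (fun t => a t i x) = gr 𝒰 C (fun t => z t i + ∑ x, b t (col i, x) • a t i x) := by
    intro i
    simp only [gr_smul]
    rw [← map_sum, ← map_add]
    congr 1
    funext t
    rw [Pi.add_apply, Finset.sum_apply]
  simp only [h2] at h1
  have h3 := h1 (∑ γ ∈ S, MvPolynomial.monomial γ (gr 𝒰 C (fun t => (R t).coeff γ)))
    (support_sum_mon S (fun γ => gr 𝒰 C (fun t => (R t).coeff γ)))
    (by
      intro γ
      rw [coeff_sum_mon]
      split_ifs
      · exact mem_IU 𝒰 fun t => hR2 t γ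
      · exact Submodule.zero_mem _)
    (by
      rw [eval_U, gr_eq_zero]
      refine Filter.Eventually.of_forall fun t => ?_
      rw [← eq_sum_mon (hR1 t)]
      exact hR3 t)
  have h4 : ∀ᶠ t in (𝒰 : Filter ℕ), ∀ γ ∈ S, (R t).coeff γ = 0 := by
    rw [Filter.eventually_all_finset]
    intro γ hγ
    have h2 := congrArg (MvPolynomial.coeff γ) h3
    rw [coeff_sum_mon, if_pos hγ, MvPolynomial.coeff_zero, gr_eq_zero] at h2
    exact h2
  obtain ⟨t, ⟨ht1, ht2⟩, ht3⟩ := ((h4.and hP0).and hdeg).exists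
  apply (hbad t ht2 ht3).2
  rw [eq_sum_mon (hR1 t)]
  exact Finset.sum_eq_zero fun γ hγ => by rw [ht1 γ hγ, map_zero]

/-- **Counting relations between tied combinations with coefficients in a finite set.** -/
theorem tied_count (κ C : Type) [Field κ] [CharZero κ] [Field C] [CharZero C] [Algebra κ C]
    (n l N m v : ℕ) (col : Fin n → Fin l) (S : Finset (Fin n →₀ ℕ)) (hS : LowerS S)
    (L : Submodule κ C) (hL : HypV v L) :
    ∃ c : ℕ, ∀ W : Submodule κ C, FiniteDimensional κ W → finrank κ W ≤ m →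
    ∀ z : Fin n → C, ∀ a : Fin n → Fin N → C, (∀ u x, a u x ∈ L) →
    RankOneFree (k := κ) col a →
    ∀ A : Finset κ, A.Nonempty → ∀ F : Finset (Fin l × Fin N → κ),
    (∀ b ∈ F, (∀ y, b y ∈ A) ∧ ¬ NoRelS S W (fun u => z u + ∑ x, b (col u, x) • a u x)) →
    F.card ≤ c * A.card ^ ((l - 1) * N + m * S.card + n * (n + v)) := by
  classical
  obtain ⟨e, he⟩ := tied_dim_unif κ C n l N ((l - 1) * N + m * S.card + n * (n + v) + 1) m v col S
    hS (Nat.lt_succ_self _) L hL
  obtain ⟨c, hc⟩ := count_prod (K := κ) e (l * N) ((l - 1) * N + m * S.card + n * (n + v))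
  refine ⟨c, fun W hfd hm z a haL ha A hA F hF => ?_⟩
  let ε : Fin (l * N) ≃ Fin l × Fin N := finProdFinEquiv.symm
  let g : (Fin l × Fin N → κ) → (Fin (l * N) → κ) := fun u j => u (ε j)
  have hg : Function.Injective g := by
    intro u u' h
    funext x
    have := congrFun h (ε.symm x)
    simpa only [g, Equiv.apply_symm_apply] using this
  rw [← Finset.card_image_of_injective _ hg]
  refine hc {w | ¬ NoRelS S W (fun u => z u + ∑ x, w (ε.symm (col u, x)) • a u x)} ?_ A hA _ ?_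
  · intro J
    obtain ⟨Δ, h1, h2, h3⟩ := he W hfd hm z a haL ha (fun q x => if x = ε (J q) then 1 else 0)
    refine ⟨Δ, h1, h2, fun w hw => ?_⟩
    by_contra h
    apply hw
    refine h3 (fun x => w (ε.symm x)) ?_
    have h4 : (fun q => ∑ x, (if x = ε (J q) then (1 : κ) else 0) * w (ε.symm x)) =
        fun q => w (J q) := by
      funext q
      simp only [ite_mul, one_mul, zero_mul]
      rw [Finset.sum_ite_eq' Finset.univ (ε (J q)), if_pos (Finset.mem_univ _),
        Equiv.symm_apply_apply]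
    rw [h4]
    exact h
  · intro w hw
    obtain ⟨u, hu, rfl⟩ := Finset.mem_image.1 hw
    refine ⟨?_, fun j => (hF u hu).1 _⟩
    have h5 : (fun i => z i + ∑ x, g u (ε.symm (col i, x)) • a i x) =
        fun i => z i + ∑ x, u (col i, x) • a i x := by
      simp only [g, Equiv.apply_symm_apply]
    rw [Set.mem_ofPred_eq, h5]
    exact (hF u hu).2

end Pool.Agent.R350
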