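import Pool.Agent.R350.HX
import Pool.Agent.R350.HL

/-!
# Vectors with generic coordinates: integer combinations are as independent as possible
-/

set_option autoImplicit false

namespace Pool.Agent.R350

open Module MvPolynomial

/-- extension of an injective map to an injective map -/
theorem exists_ext {k X Y E : Type} [Field k] [AddCommGroup X] [Module k X] [AddCommGroup Y]
    [Module k Y] [AddCommGroup E] [Module k E] [FiniteDimensional k X] [FiniteDimensional k Y]
    [FiniteDimensional k E] (ω : Y →ₗ[k] E) (hω : Function.Injective ω)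
    (U : Submodule k (X × Y)) (h : finrank k U ≤ finrank k E) :
    ∃ G : X →ₗ[k] E, ∀ u ∈ U, G u.1 + ω u.2 = 0 → u = 0 := by
  classical
  let f : U →ₗ[k] X := (LinearMap.fst k X Y).comp U.subtype
  let g : U →ₗ[k] E := (ω.comp (LinearMap.snd k X Y)).comp U.subtype
  obtain ⟨s, hs⟩ := LinearMap.exists_rightInverse_of_surjective f.rangeRestrict
    f.range_rangeRestrict
  obtain ⟨Z, hZ⟩ := Submodule.exists_isCompl (Submodule.map g (LinearMap.ker f))
  have h1 : finrank k (LinearMap.range f) ≤ finrank k Z := by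
    have h2 := Submodule.finrank_add_eq_of_isCompl hZ
    have h3 := LinearMap.finrank_range_add_finrank_ker f
    have h4 := Submodule.finrank_map_le g (LinearMap.ker f)
    omega
  obtain ⟨j, hj⟩ := (finrank_le_iff_exists_linearMap (R := k)).1 h1
  obtain ⟨G, hG⟩ := LinearMap.exists_extend (Z.subtype ∘ₗ j - g ∘ₗ s)
  refine ⟨G, fun u hu h0 => ?_⟩
  set u' : U := ⟨u, hu⟩ with hu'
  set p := f.rangeRestrict u' with hp
  have e1 : f.rangeRestrict (s p) = p := LinearMap.congr_fun hs p
  have e2 : f (u' - s p) = 0 := by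
    have := congrArg Subtype.val e1
    rw [map_sub, sub_eq_zero]
    exact this.symm
  have e3 : G u.1 = (j p : E) - g (s p) := LinearMap.congr_fun hG p
  have e4 : ω u.2 = g u' := rfl
  have e5 : (j p : E) + g (u' - s p) = 0 := by
    rw [map_sub, ← h0, e3, e4]
    abel
  have e6 : g (u' - s p) ∈ Submodule.map g (LinearMap.ker f) := ⟨_, e2, rfl⟩
  have e7 : (j p : E) ∈ Submodule.map g (LinearMap.ker f) ⊓ Z := by
    refine ⟨?_, (j p).2⟩
    rw [eq_neg_of_add_eq_zero_left e5]
    exact Submodule.neg_mem _ e6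
  rw [hZ.inf_eq_bot, Submodule.mem_bot] at e7
  have e8 : p = 0 := hj (by rw [map_zero]; exact Subtype.ext e7)
  have e9 : s p = 0 := by rw [e8, map_zero]
  rw [e9, sub_zero] at e5 e2
  rw [e7, zero_add] at e5
  have e10 : u.2 = 0 := hω (by rw [map_zero]; exact e5)
  exact Prod.ext e2 e10

/-- a matrix with independent columns has a nonsingular square submatrix -/
theorem exists_det_ne_zero' {t : ℕ} {T : Type} (w : T → Fin t → ℝ)
    (h : ∀ c : Fin t → ℝ, (∀ τ, ∑ i, c i * w τ i = 0) → c = 0) :
    ∃ j : Fin t → T, (Matrix.of fun i i' => w (j i) i').det ≠ 0 := by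
  classical
  have hspan : Submodule.span ℝ (Set.range w) = ⊤ := by
    by_contra hne
    have hlt : Submodule.span ℝ (Set.range w) < ⊤ := lt_top_iff_ne_top.mpr hne
    obtain ⟨f, hf0, hf⟩ := Submodule.exists_le_ker_of_lt_top _ hlt
    apply hf0
    have hc := h (fun i => f (fun j => if i = j then 1 else 0)) (by
      intro τ
      have h1 : w τ ∈ Submodule.span ℝ (Set.range w) := Submodule.subset_span ⟨τ, rfl⟩
      have h2 : f (w τ) = 0 := hf h1
      rw [LinearMap.pi_apply_eq_sum_univ f (w τ)] at h2
      refine Eq.trans (Finset.sum_congr rfl ?_) h2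
      intro i _
      rw [smul_eq_mul, mul_comm])
    ext x
    have h3 : ∀ i, f (fun j => if i = j then (1:ℝ) else 0) = 0 := fun i => congrFun hc i
    simp only [LinearMap.coe_comp, Function.comp_apply, LinearMap.zero_apply, LinearMap.zero_comp]
    rw [LinearMap.pi_apply_eq_sum_univ f]
    simp [h3]
  obtain ⟨f, hfs, hfspan, hfind⟩ := Submodule.exists_fun_fin_finrank_span_eq ℝ (Set.range w)
  have hrank : Module.finrank ℝ (Submodule.span ℝ (Set.range w)) = t := by
    rw [hspan, finrank_top, Module.finrank_fintype_fun_eq_card, Fintype.card_fin]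
  choose g hg using hfs
  have e : Fin t ≃ Fin (Module.finrank ℝ (Submodule.span ℝ (Set.range w))) := finCongr hrank.symm
  refine ⟨fun i => g (e i), ?_⟩
  have hind : LinearIndependent ℝ (fun i : Fin t => w (g (e i))) := by
    have : (fun i : Fin t => w (g (e i))) = f ∘ e := by
      ext i
      simp [hg]
    rw [this]
    exact hfind.comp _ e.injective
  have h3 : IsUnit (Matrix.of fun (i i' : Fin t) => w (g (e i)) i') :=
    Matrix.linearIndependent_rows_iff_isUnit.mp hind
  rw [Matrix.isUnit_iff_isUnit_det] at h3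
  exact h3.ne_zero

section

variable {k A : Type} [Field k] [Field A] [Algebra k A] {σ : Type}

theorem coefIn_prod {ι : Type} {V : Submodule k A} (s : Finset ι) (P : ι → MvPolynomial σ A)
    (h : ∀ i ∈ s, CoefIn V (P i)) : CoefIn (V ^ s.card) (∏ i ∈ s, P i) := by
  classical
  induction s using Finset.induction_on with
  | empty =>
    intro γ
    rw [Finset.prod_empty, Finset.card_empty, pow_zero, coeff_one]
    split_ifs
    · exact Submodule.one_le.1 le_rfl
    · exact Submodule.zero_mem _
  | insert i s hi ih =>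
    rw [Finset.prod_insert hi, Finset.card_insert_of_notMem hi, pow_succ']
    exact CoefIn.mul (h i (Finset.mem_insert_self i s))
      (ih fun j hj => h j (Finset.mem_insert_of_mem hj))

theorem coefIn_det {t : ℕ} {V : Submodule k A} (M : Matrix (Fin t) (Fin t) (MvPolynomial σ A))
    (h : ∀ i j, CoefIn V (M i j)) : CoefIn (V ^ t) M.det := by
  classical
  rw [Matrix.det_apply]
  refine CoefIn.sum _ _ fun τ _ => ?_
  have h1 : CoefIn (V ^ t) (∏ i, M (τ i) i) := by
    have := coefIn_prod (V := V) Finset.univ (fun i => M (τ i) i) fun i _ => h _ _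
    rwa [Finset.card_univ, Fintype.card_fin] at this
  rcases Int.units_eq_one_or (Equiv.Perm.sign τ) with hs | hs
  · rw [hs, one_smul]
    exact h1
  · rw [hs, Units.neg_smul, one_smul]
    exact h1.neg

theorem degree_det {t : ℕ} (M : Matrix (Fin t) (Fin t) (MvPolynomial σ A))
    (h : ∀ i j, (M i j).totalDegree ≤ 1) : M.det.totalDegree ≤ t := by
  classical
  rw [Matrix.det_apply]
  refine totalDegree_finsetSum_le fun τ _ => ?_
  have h1 : (∏ i, M (τ i) i).totalDegree ≤ t := by
    refine (totalDegree_finsetProd _ _).trans ?_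
    refine (Finset.sum_le_sum fun i _ => h (τ i) i).trans ?_
    rw [Finset.sum_const, Finset.card_univ, Fintype.card_fin, smul_eq_mul, mul_one]
  rcases Int.units_eq_one_or (Equiv.Perm.sign τ) with hs | hs
  · rw [hs, one_smul]
    exact h1
  · rw [hs, Units.neg_smul, one_smul, totalDegree_neg]
    exact h1

end

variable {k : Type} [Field k] [Algebra k ℂ]

/-- **Integer combinations of generic vectors are independent.** -/
theorem forms_indep {I β E : Type} [Fintype I] [Fintype β] [AddCommGroup E] [Module ℝ E]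
    (crd : E ≃ₗ[ℝ] (I → ℝ)) {l M t : ℕ} (e : Fin M ≃ Fin l × I) (W : Submodule k ℂ)
    (h1W : (1 : ℂ) ∈ W) (ω : β → E) (hω : LinearIndependent ℝ ω)
    (hωW : ∀ b r, ((crd (ω b) r : ℝ) : ℂ) ∈ W) (G : Fin l → E)
    (hN : NoRelS (simplexS M t) (W ^ t) (fun u => ((crd (G (e u).1) (e u).2 : ℝ) : ℂ)))
    (ht : t ≤ Fintype.card I) (c : Fin t → (Fin l → ℤ) × (β → ℤ))
    (hc : LinearIndependent ℝ (fun q => ((fun j => ((c q).1 j : ℝ), fun b => ((c q).2 b : ℝ)) :
      (Fin l → ℝ) × (β → ℝ)))) :
    LinearIndependent ℝ (fun q => ∑ j, ((c q).1 j : ℝ) • G j + ∑ b, ((c q).2 b : ℝ) • ω b) := by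
  classical
  by_contra hdep
  have hfE : FiniteDimensional ℝ E := crd.symm.finiteDimensional
  have hfin : finrank ℝ E = Fintype.card I := by
    rw [crd.finrank_eq, Module.finrank_fintype_fun_eq_card]
  set cr : Fin t → (Fin l → ℝ) × (β → ℝ) := fun q =>
    ((fun j => ((c q).1 j : ℝ), fun b => ((c q).2 b : ℝ)) : (Fin l → ℝ) × (β → ℝ)) with hcr
  -- the map given by `ω`
  let Ω : (β → ℝ) →ₗ[ℝ] E := Fintype.linearCombination ℝ ω
  have hΩ : ∀ q, Ω q = ∑ b, q b • ω b := fun q => Fintype.linearCombination_apply ℝ ω q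
  have hΩi : Function.Injective Ω := by
    rw [← LinearMap.ker_eq_bot, LinearMap.ker_eq_bot']
    intro q hq
    rw [hΩ] at hq
    funext b
    exact Fintype.linearIndependent_iff.1 hω q hq b
  obtain ⟨G', hG'⟩ := exists_ext Ω hΩi (Submodule.span ℝ (Set.range cr)) (by
    rw [hfin]
    refine le_trans ?_ ht
    have := finrank_range_le_card (R := ℝ) cr
    rwa [Fintype.card_fin] at this)
  set G₁ : Fin l → E := fun j => G' (Pi.single j 1) with hG₁
  have hG1 : ∀ q, G' (fun j => ((c q).1 j : ℝ)) = ∑ j, ((c q).1 j : ℝ) • G₁ j := by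
    intro q
    conv_lhs => rw [pi_eq_sum_univ' (fun j => ((c q).1 j : ℝ))]
    rw [map_sum]
    refine Finset.sum_congr rfl fun j _ => ?_
    rw [map_smul]
  -- the matrix
  let mat : (Fin l → E) → I → Fin t → ℝ := fun H r q =>
    crd (∑ j, ((c q).1 j : ℝ) • H j + ∑ b, ((c q).2 b : ℝ) • ω b) r
  obtain ⟨ρ, hρ⟩ := exists_det_ne_zero' (mat G₁) (by
    intro v hv
    have h1 : ∑ q, v q • cr q = 0 := by
      apply hG' _ (Submodule.sum_mem _ fun q _ => Submodule.smul_mem _ _
        (Submodule.subset_span ⟨q, rfl⟩))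
      have h2 : G' (∑ q, v q • cr q).1 + Ω (∑ q, v q • cr q).2 =
          ∑ q, v q • (∑ j, ((c q).1 j : ℝ) • G₁ j + ∑ b, ((c q).2 b : ℝ) • ω b) := by
        rw [Prod.fst_sum, Prod.snd_sum, map_sum, map_sum, ← Finset.sum_add_distrib]
        refine Finset.sum_congr rfl fun q _ => ?_
        rw [Prod.smul_fst, Prod.smul_snd, map_smul, map_smul, ← smul_add, hΩ]
        congr 2
        exact hG1 q
      rw [h2]
      apply crd.injective
      rw [map_zero]
      funext r
      rw [map_sum, Finset.sum_apply, Pi.zero_apply, ← hv r]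
      refine Finset.sum_congr rfl fun q _ => ?_
      rw [map_smul, Pi.smul_apply, smul_eq_mul]
    funext q
    exact Fintype.linearIndependent_iff.1 hc v h1 q)
  -- the polynomial
  let P : Matrix (Fin t) (Fin t) (MvPolynomial (Fin M) ℂ) := Matrix.of fun i q =>
    ∑ j, C (((c q).1 j : ℤ) : ℂ) * X (e.symm (j, ρ i)) +
      C (((∑ b, ((c q).2 b : ℝ) * crd (ω b) (ρ i) : ℝ)) : ℂ)
  have hev : ∀ H : Fin l → E, eval (fun u => ((crd (H (e u).1) (e u).2 : ℝ) : ℂ)) P.det =
      (((Matrix.of fun i i' => mat H (ρ i) i').det : ℝ) : ℂ) := by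
    intro H
    rw [RingHom.map_det]
    have h1 : (((Matrix.of fun i i' => mat H (ρ i) i').det : ℝ) : ℂ) =
        Complex.ofRealHom (Matrix.of fun i i' => mat H (ρ i) i').det := rfl
    rw [h1, RingHom.map_det]
    congr 1
    ext i q
    simp only [RingHom.mapMatrix_apply, Matrix.map_apply, Matrix.of_apply, P, mat, map_add, map_sum,
      map_mul, eval_C, eval_X, Equiv.apply_symm_apply, Pi.add_apply, Finset.sum_apply, map_smul,
      Pi.smul_apply, smul_eq_mul]
    simp only [Complex.ofRealHom_eq_coe]
    push_cast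
    rfl
  have hP0 : P.det = 0 := by
    refine hN P.det ?_ ?_ ?_
    · intro γ hγ
      rw [mem_simplexS]
      have h1 : P.det.totalDegree ≤ t := by
        refine degree_det P fun i q => ?_
        refine (totalDegree_add _ _).trans (max_le ?_ ?_)
        · refine totalDegree_finsetSum_le fun j _ => ?_
          refine (totalDegree_mul _ _).trans ?_
          rw [totalDegree_C, totalDegree_X]
        · rw [totalDegree_C]
          exact Nat.zero_le _
      exact (le_totalDegree hγ).trans h1
    · refine coefIn_det P fun i q => ?_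
      refine CoefIn.add (CoefIn.sum _ _ fun j _ => ?_) ?_
      · intro γ
        rw [coeff_C_mul, coeff_X]
        split_ifs
        · rw [mul_one, ← zsmul_one]
          exact zsmul_mem h1W _
        · rw [mul_zero]
          exact W.zero_mem
      · intro γ
        rw [coeff_C]
        split_ifs
        · rw [Complex.ofReal_sum]
          refine Submodule.sum_mem _ fun b _ => ?_
          have h2 : ((((c q).2 b : ℝ) * crd (ω b) (ρ i) : ℝ) : ℂ) =
              (c q).2 b • ((crd (ω b) (ρ i) : ℝ) : ℂ) := by
            rw [zsmul_eq_mul]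
            push_cast
            ring
          rw [h2]
          exact zsmul_mem (hωW b _) _
        · exact W.zero_mem
    · rw [hev G]
      -- the determinant vanishes, since the vectors are dependent
      obtain ⟨v, hv, q₀, hq₀⟩ := Fintype.not_linearIndependent_iff.1 hdep
      have h1 : (Matrix.of fun i i' => mat G (ρ i) i').mulVec v = 0 := by
        funext i
        have h2 := congrFun (congrArg crd hv) (ρ i)
        rw [map_sum, map_zero, Finset.sum_apply, Pi.zero_apply] at h2
        rw [Pi.zero_apply, ← h2, Matrix.mulVec, dotProduct]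
        refine Finset.sum_congr rfl fun q _ => ?_
        rw [map_smul, Pi.smul_apply, smul_eq_mul, mul_comm]
        rfl
      have h3 : (Matrix.of fun i i' => mat G (ρ i) i').det = 0 := by
        by_contra h4
        have h5 := Matrix.eq_zero_of_mulVec_eq_zero h4 h1
        exact hq₀ (congrFun h5 q₀)
      rw [h3, Complex.ofReal_zero]
  apply hρ
  have h6 := hev G₁
  rw [hP0, map_zero] at h6
  exact_mod_cast h6.symm

end Pool.Agent.R350
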