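import Pool.Agent.R350.HY
import Pool.Agent.W54.CL.Core

/-!
# Subspaces with dense subgroups of integer combinations of generic vectors
-/

set_option autoImplicit false

namespace Pool.Agent.R350

open Module MvPolynomial Pool.Agent.W54.CL

/-- the real vector of an integer vector -/
def castV {l : ℕ} {β : Type} (c : (Fin l → ℤ) × (β → ℤ)) : (Fin l → ℝ) × (β → ℝ) :=
  (fun j => (c.1 j : ℝ), fun b => (c.2 b : ℝ))

/-- integer combinations of the vectors are as independent as possible -/
def GenVec {E β : Type} [Fintype β] [AddCommGroup E] [Module ℝ E] {l : ℕ} (G : Fin l → E)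
    (ω : β → E) (n : ℕ) : Prop :=
  ∀ t ≤ n, ∀ c : Fin t → (Fin l → ℤ) × (β → ℤ), LinearIndependent ℝ (fun q => castV (c q)) →
    LinearIndependent ℝ (fun q => ∑ j, ((c q).1 j : ℝ) • G j + ∑ b, ((c q).2 b : ℝ) • ω b)

section

variable {E β : Type} [Fintype β] [NormedAddCommGroup E] [NormedSpace ℝ E] [FiniteDimensional ℝ E]
  {l : ℕ}

/-- **Subspaces in which integer combinations of generic vectors are dense.** -/
theorem dichotomy (G : Fin l → E) (ω : β → E) (hK : GenVec G ω (finrank ℝ E))
    (V : Submodule ℝ E) (S : Set E) (hSV : ∀ u ∈ S, u ∈ V)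
    (hrep : ∀ u ∈ S, ∃ p : Fin l → ℤ, ∃ q : β → ℤ,
      u = ∑ j, (p j : ℝ) • G j + ∑ b, (q b : ℝ) • ω b)
    (hd : ∀ v ∈ V, ∀ δ : ℝ, 0 < δ → ∃ u ∈ S, ‖u - v‖ < δ) :
    V = ⊥ ∨ (V = ⊤ ∧ ∃ c : Fin (finrank ℝ E + 1) → (Fin l → ℤ) × (β → ℤ),
      LinearIndependent ℝ (fun q => castV (c q)) ∧
      ∀ q, ∑ j, ((c q).1 j : ℝ) • G j + ∑ b, ((c q).2 b : ℝ) • ω b ∈ S) := by
  classical
  let F : ((Fin l → ℝ) × (β → ℝ)) →ₗ[ℝ] E :=
    (Fintype.linearCombination ℝ G).coprod (Fintype.linearCombination ℝ ω)
  have hF : ∀ x, F x = ∑ j, x.1 j • G j + ∑ b, x.2 b • ω b := fun x => by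
    rw [LinearMap.coprod_apply, Fintype.linearCombination_apply, Fintype.linearCombination_apply]
  let Λ : Set ((Fin l → ℝ) × (β → ℝ)) :=
    {x | F x ∈ S ∧ ∃ c : (Fin l → ℤ) × (β → ℤ), x = castV c}
  obtain ⟨b, hbΛ, hspan, hind⟩ := exists_linearIndependent ℝ Λ
  have hfin : b.Finite := hind.setFinite
  have : Fintype b := hfin.fintype
  let eb := Fintype.equivFin b
  set t := Fintype.card b with ht
  set x : Fin t → (Fin l → ℝ) × (β → ℝ) := fun i => (eb.symm i : (Fin l → ℝ) × (β → ℝ)) with hx
  have hxi : LinearIndependent ℝ x := hind.comp _ eb.symm.injective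
  have hxr : Set.range x = b := by
    ext z
    constructor
    · rintro ⟨i, rfl⟩
      exact (eb.symm i).2
    · intro hz
      exact ⟨eb ⟨z, hz⟩, by simp [hx]⟩
  choose c hc using fun i => (hbΛ (eb.symm i).2).2
  have hxS : ∀ i, F (x i) ∈ S := fun i => (hbΛ (eb.symm i).2).1
  have hFc : ∀ i, F (x i) = ∑ j, ((c i).1 j : ℝ) • G j + ∑ b, ((c i).2 b : ℝ) • ω b := by
    intro i
    rw [hF]
    simp only [hx, hc]
    rfl
  have hci : LinearIndependent ℝ (fun q => castV (c q)) := by
    have : (fun q => castV (c q)) = x := by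
      funext i
      rw [← hc]
    rw [this]
    exact hxi
  have hSne : ∀ u ∈ S, u ∈ V := hSV
  by_cases hle : t ≤ finrank ℝ E
  · left
    have hFi : LinearIndependent ℝ (fun i => F (x i)) := by
      have := hK t hle c hci
      simpa only [hFc] using this
    set U := Submodule.span ℝ (Set.range x) with hU
    have hinj : LinearMap.ker (F.domRestrict U) = ⊥ := by
      rw [LinearMap.ker_eq_bot']
      rintro ⟨u, hu⟩ h0
      obtain ⟨a, rfl⟩ := (Submodule.mem_span_range_iff_exists_fun ℝ).1 hu
      have h1 : ∑ i, a i • F (x i) = 0 := by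
        have h2 : F (∑ i, a i • x i) = 0 := h0
        rw [map_sum] at h2
        simpa only [map_smul] using h2
      have h2 := Fintype.linearIndependent_iff.1 hFi a h1
      apply Subtype.ext
      change ∑ i, a i • x i = 0
      exact Finset.sum_eq_zero fun i _ => by rw [h2, zero_smul]
    obtain ⟨H, hH⟩ := LinearMap.exists_leftInverse_of_injective (F.domRestrict U) hinj
    have hΛU : ∀ z ∈ Λ, z ∈ U := by
      intro z hz
      rw [hU, hxr, hspan]
      exact Submodule.subset_span hz
    have hHF : ∀ z ∈ Λ, ((H (F z) : U) : (Fin l → ℝ) × (β → ℝ)) = z := by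
      intro z hz
      exact congrArg Subtype.val (LinearMap.congr_fun hH ⟨z, hΛU z hz⟩)
    have hS0 : ∀ u ∈ S, u = 0 := by
      intro u hu
      obtain ⟨p, q, hpq⟩ := hrep u hu
      have hz : castV (p, q) ∈ Λ := ⟨by rw [hF]; exact hpq ▸ hu, (p, q), rfl⟩
      have hFz : F (castV (p, q)) = u := by rw [hF]; exact hpq.symm
      -- every element of `Λ` has integral coordinates
      have h1 : ∀ j, p j = 0 := by
        intro j
        have h2 := int_form hd ((LinearMap.proj j).comp ((LinearMap.fst ℝ (Fin l → ℝ) (β → ℝ)).comp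
          (U.subtype.comp H))) (by
            intro u' hu'
            obtain ⟨p', q', hpq'⟩ := hrep u' hu'
            have hz' : castV (p', q') ∈ Λ := ⟨by rw [hF]; exact hpq' ▸ hu', (p', q'), rfl⟩
            have hFz' : F (castV (p', q')) = u' := by rw [hF]; exact hpq'.symm
            refine ⟨p' j, ?_⟩
            change ((H u' : U) : (Fin l → ℝ) × (β → ℝ)).1 j = _
            rw [← hFz', hHF _ hz']
            rfl) (hSV u hu)
        change ((H u : U) : (Fin l → ℝ) × (β → ℝ)).1 j = 0 at h2
        rw [← hFz, hHF _ hz] at h2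
        exact_mod_cast (show ((p j : ℤ) : ℝ) = 0 from h2)
      have h1' : ∀ j, q j = 0 := by
        intro j
        have h2 := int_form hd ((LinearMap.proj j).comp ((LinearMap.snd ℝ (Fin l → ℝ) (β → ℝ)).comp
          (U.subtype.comp H))) (by
            intro u' hu'
            obtain ⟨p', q', hpq'⟩ := hrep u' hu'
            have hz' : castV (p', q') ∈ Λ := ⟨by rw [hF]; exact hpq' ▸ hu', (p', q'), rfl⟩
            have hFz' : F (castV (p', q')) = u' := by rw [hF]; exact hpq'.symm
            refine ⟨q' j, ?_⟩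
            change ((H u' : U) : (Fin l → ℝ) × (β → ℝ)).2 j = _
            rw [← hFz', hHF _ hz']
            rfl) (hSV u hu)
        change ((H u : U) : (Fin l → ℝ) × (β → ℝ)).2 j = 0 at h2
        rw [← hFz, hHF _ hz] at h2
        exact_mod_cast (show ((q j : ℤ) : ℝ) = 0 from h2)
      rw [hpq]
      simp [h1, h1']
    rw [Submodule.eq_bot_iff]
    intro v hv
    by_contra hne
    obtain ⟨u, hu, hlt⟩ := hd v hv ‖v‖ (norm_pos_iff.2 hne)
    rw [hS0 u hu, zero_sub, norm_neg] at hlt
    exact lt_irrefl _ hlt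
  · right
    push Not at hle
    refine ⟨?_, fun i => c (Fin.castLE hle i), hci.comp _ (Fin.castLE_injective hle), fun q => ?_⟩
    · have h1 : LinearIndependent ℝ (fun i : Fin (finrank ℝ E) => F (x (Fin.castLE hle.le i))) := by
        have := hK (finrank ℝ E) le_rfl (fun i => c (Fin.castLE hle.le i))
          (hci.comp _ (Fin.castLE_injective hle.le))
        simpa only [hFc] using this
      apply Submodule.eq_top_of_finrank_eq
      apply le_antisymm (Submodule.finrank_le V)
      have h2 : LinearIndependent ℝ (fun i : Fin (finrank ℝ E) =>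
          (⟨F (x (Fin.castLE hle.le i)), hSV _ (hxS _)⟩ : V)) :=
        LinearIndependent.of_comp V.subtype h1
      have h3 := h2.fintype_card_le_finrank
      rwa [Fintype.card_fin] at h3
    · have h1 := hxS (Fin.castLE hle q)
      rwa [hFc] at h1

end

end Pool.Agent.R350
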