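import Pool.Agent.R350.HZ
import Pool.Agent.W54.CL.All

/-!
# Closures of groups of points of `R_{K/ℚ}(G_m)` with generic logarithms
-/

set_option autoImplicit false
set_option linter.unusedSectionVars false

namespace Pool.Agent.R350

open Module Topology Filter NumberField Pool.Agent.W54.CL

section

variable {A B : Type} [Fintype A] [Fintype B] [DecidableEq B]

/-- the subgroup of signs -/
def signGroup (A B : Type) [Fintype A] [Fintype B] [DecidableEq B] : Subgroup ((A → ℝ) × (B → ℂ))ˣ where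
  carrier := {ε | IsSign ε}
  mul_mem' := fun ha hb => IsSign.mul ha hb
  one_mem' := IsSign.one
  inv_mem' := fun ha => IsSign.inv ha

theorem sign_sq {ε : ((A → ℝ) × (B → ℂ))ˣ} (h : IsSign ε) : ε * ε = 1 := by
  apply Units.ext
  rw [Units.val_mul, Units.val_one]
  refine Prod.ext (funext fun w => ?_) (funext fun w => ?_)
  · rw [Prod.fst_mul, Pi.mul_apply]
    rcases h.1 w with h | h <;> rw [h] <;> simp
  · rw [Prod.snd_mul, Pi.mul_apply, h.2 w, mul_one]
    rfl

variable {ψ : (A → ℝ) × (B → ℂ) → ((A → ℝ) × (B → ℂ))ˣ}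

/-- the chart as a homomorphism -/
def chartHom (hch : Chart ψ) : ((A → ℝ) × (B → ℂ)) →+ Additive ((A → ℝ) × (B → ℂ))ˣ where
  toFun x := Additive.ofMul (ψ x)
  map_zero' := by
    rw [hch.map_zero]
    rfl
  map_add' x y := by
    rw [hch.map_add]
    rfl

theorem psi_sum (hch : Chart ψ) {N : ℕ} (g : Fin N → (A → ℝ) × (B → ℂ)) (m : Fin N → ℤ) :
    ψ (∑ x, (m x : ℝ) • g x) = ∏ x, ψ (g x) ^ m x := by
  have h1 : chartHom hch (∑ x, (m x : ℝ) • g x) = ∑ x, m x • chartHom hch (g x) := by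
    rw [map_sum]
    refine Finset.sum_congr rfl fun x _ => ?_
    rw [Int.cast_smul_eq_zsmul, map_zsmul]
  have h2 := congrArg Additive.toMul h1
  rw [toMul_sum] at h2
  exact h2

/-- the logarithm of a product of powers -/
theorem map_prod_zpow (hch : Chart ψ) {K : Type} [Field K] (f : K →+* (A → ℝ) × (B → ℂ))
    {N : ℕ} (γ : Fin N → Kˣ) (g : Fin N → (A → ℝ) × (B → ℂ)) (ε : Fin N → ((A → ℝ) × (B → ℂ))ˣ)
    (hε : ∀ j, IsSign (ε j))
    (hg : ∀ j, Units.map (f : K →* (A → ℝ) × (B → ℂ)) (γ j) = ψ (g j) * ε j) (m : Fin N → ℤ) :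
    ∃ δ, IsSign δ ∧ Units.map (f : K →* (A → ℝ) × (B → ℂ)) (∏ x, γ x ^ m x) =
      ψ (∑ x, (m x : ℝ) • g x) * δ := by
  refine ⟨∏ x, ε x ^ m x, Subgroup.prod_mem (signGroup A B) fun x _ =>
    Subgroup.zpow_mem (signGroup A B) (hε x) _, ?_⟩
  rw [psi_sum hch, map_prod, ← Finset.prod_mul_distrib]
  refine Finset.prod_congr rfl fun x _ => ?_
  rw [map_zpow, hg, mul_zpow]

/-- the logarithms of the elements of a finitely generated group -/
theorem rep_gen (hch : Chart ψ) {K : Type} [Field K] (f : K →+* (A → ℝ) × (B → ℂ))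
    {l : ℕ} (δ : Fin l → Kˣ) (G : Fin l → (A → ℝ) × (B → ℂ)) (ε : Fin l → ((A → ℝ) × (B → ℂ))ˣ)
    (hε : ∀ j, IsSign (ε j))
    (hg : ∀ j, Units.map (f : K →* (A → ℝ) × (B → ℂ)) (δ j) = ψ (G j) * ε j)
    {y : Kˣ} (hy : y ∈ Subgroup.closure (Set.range δ)) :
    ∃ (p : Fin l → ℤ) (η : ((A → ℝ) × (B → ℂ))ˣ), IsSign η ∧
      Units.map (f : K →* (A → ℝ) × (B → ℂ)) y = ψ (∑ j, (p j : ℝ) • G j) * η := by
  induction hy using Subgroup.closure_induction with
  | mem y hy =>
    obtain ⟨j, rfl⟩ := hy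
    refine ⟨Pi.single j 1, ε j, hε j, ?_⟩
    have h1 : ∑ k, (((Pi.single j 1 : Fin l → ℤ) k : ℤ) : ℝ) • G k = G j := by
      rw [Finset.sum_eq_single j]
      · simp
      · intro k _ hk
        simp [Pi.single_eq_of_ne hk]
      · intro h
        exact absurd (Finset.mem_univ j) h
    rw [h1, hg]
  | one =>
    refine ⟨0, 1, IsSign.one, ?_⟩
    rw [map_one]
    simp [hch.map_zero]
  | mul x y _ _ ihx ihy =>
    obtain ⟨p, δ, hδ, h1⟩ := ihx
    obtain ⟨p', δ', hδ', h1'⟩ := ihy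
    refine ⟨p + p', δ * δ', hδ.mul hδ', ?_⟩
    have h2 : ∑ j, (((p + p') j : ℤ) : ℝ) • G j = ∑ j, (p j : ℝ) • G j + ∑ j, (p' j : ℝ) • G j := by
      rw [← Finset.sum_add_distrib]
      refine Finset.sum_congr rfl fun j _ => ?_
      rw [Pi.add_apply, Int.cast_add, add_smul]
    rw [map_mul, h1, h1', h2, hch.map_add]
    exact mul_mul_mul_comm _ _ _ _
  | inv x _ ihx =>
    obtain ⟨p, δ, hδ, h1⟩ := ihx
    refine ⟨-p, δ⁻¹, hδ.inv, ?_⟩
    have h2 : ∑ j, (((-p) j : ℤ) : ℝ) • G j = -∑ j, (p j : ℝ) • G j := by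
      rw [← Finset.sum_neg_distrib]
      refine Finset.sum_congr rfl fun j _ => ?_
      rw [Pi.neg_apply, Int.cast_neg, neg_smul]
    rw [map_inv, h1, h2, hch.map_neg, mul_inv]

/-- **The largest subspace in the closure of a subgroup.** -/
theorem alt_gen [Nonempty (A ⊕ B)] (hch : Chart ψ) {K : Type} [Field K]
    (f : K →+* (A → ℝ) × (B → ℂ))
    (hker : ∀ x, IsSign (ψ x) → ∃ q : B → ℤ,
      x = ((0 : A → ℝ), fun w => (q w : ℂ) * (2 * Real.pi * Complex.I)))
    {l : ℕ} (δ : Fin l → Kˣ) (G : Fin l → (A → ℝ) × (B → ℂ)) (ε : Fin l → ((A → ℝ) × (B → ℂ))ˣ)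
    (hε : ∀ j, IsSign (ε j))
    (hg : ∀ j, Units.map (f : K →* (A → ℝ) × (B → ℂ)) (δ j) = ψ (G j) * ε j)
    (hN : GenVec G (wv A) (finrank ℝ ((A → ℝ) × (B → ℂ))))
    (L : Subgroup Kˣ) (hL : L ≤ Subgroup.closure (Set.range δ)) :
    maxSub (pre hch (L.map (Units.map (f : K →* (A → ℝ) × (B → ℂ))))) = ⊥ ∨
      (maxSub (pre hch (L.map (Units.map (f : K →* (A → ℝ) × (B → ℂ))))) = ⊤ ∧
        ∃ c : Fin (finrank ℝ ((A → ℝ) × (B → ℂ)) + 1) → (Fin l → ℤ) × (B → ℤ),
          LinearIndependent ℝ (fun q => castV (c q)) ∧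
          ∀ q, ψ (∑ j, ((c q).1 j : ℝ) • G j + ∑ b, ((c q).2 b : ℝ) • wv A b) ∈
            L.map (Units.map (f : K →* (A → ℝ) × (B → ℂ)))) := by
  classical
  set L' := L.map (Units.map (f : K →* (A → ℝ) × (B → ℂ))) with hL'
  set V := maxSub (pre hch L') with hV
  obtain ⟨_, h2, _⟩ := hComp _ _ ψ hch L'
  rcases dichotomy G (wv A) hN V {u | u ∈ V ∧ ψ u ∈ L'} (fun u hu => hu.1) (by
    rintro u ⟨_, hu⟩
    obtain ⟨y, hy, hyu⟩ := hu
    obtain ⟨p, η, hη, h3⟩ := rep_gen hch f δ G ε hε hg (hL hy)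
    have h4 : ψ (u - ∑ j, (p j : ℝ) • G j) = η := by
      rw [sub_eq_add_neg, hch.map_add, hch.map_neg, ← hyu]
      have h5 : (Units.map (f : K →* (A → ℝ) × (B → ℂ))) y = ψ (∑ j, (p j : ℝ) • G j) * η := h3
      rw [h5, mul_inv_eq_iff_eq_mul, mul_comm]
    obtain ⟨q, hq⟩ := hker _ (by rw [h4]; exact hη)
    refine ⟨p, q, ?_⟩
    rw [sum_wv, ← hq]
    abel) (by
    intro v hv' δ hδ
    obtain ⟨u, hu, h3, h4⟩ := h2 v hv' δ hδ
    exact ⟨u, ⟨hu, h3⟩, h4⟩) with h | ⟨h, c, hc, hc'⟩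
  · exact Or.inl h
  · exact Or.inr ⟨h, c, hc, fun q => (hc' q).2⟩

/-- `L` contains `s` multiplicatively independent elements -/
def IndepIn {K : Type} [Field K] (L : Subgroup Kˣ) (s : ℕ) : Prop :=
  ∃ y : Fin s → Kˣ, (∀ i, y i ∈ L) ∧ ∀ e : Fin s → ℤ, ∏ i, y i ^ e i = 1 → e = 0

theorem wv_indep : LinearIndependent ℝ (wv A : B → (A → ℝ) × (B → ℂ)) := by
  classical
  rw [Fintype.linearIndependent_iff]
  intro v hv b
  have h1 := congrArg (fun z => (z.2 b).im) hv
  simp only [Prod.snd_sum, Finset.sum_apply, Complex.im_sum, wv] at h1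
  rw [Finset.sum_eq_single b] at h1
  · simp at h1
    exact h1
  · intro b' _ hb'
    simp [Pi.single_eq_of_ne hb'.symm]
  · intro h; exact absurd (Finset.mem_univ _) h

theorem psi_wv (hv : ∀ x, ((ψ x : ((A → ℝ) × (B → ℂ))ˣ) : (A → ℝ) × (B → ℂ)) =
      (fun w => Real.exp (x.1 w), fun w => Complex.exp (x.2 w))) (k : B) : ψ (wv A k) = 1 := by
  apply Units.ext
  rw [hv, Units.val_one]
  refine Prod.ext (funext fun w => ?_) (funext fun w => ?_)
  · show Real.exp 0 = 1
    exact Real.exp_zero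
  · show Complex.exp ((Pi.single k (2 * Real.pi * Complex.I) : B → ℂ) w) = 1
    by_cases hw : w = k
    · subst hw
      rw [Pi.single_eq_same]
      exact Complex.exp_two_pi_mul_I
    · rw [Pi.single_eq_of_ne hw, Complex.exp_zero]

/-- groups of large rank are not discrete -/
theorem rank_le_of_bot [Nonempty (A ⊕ B)] (hch : Chart ψ) {K : Type} [Field K]
    (f : K →+* (A → ℝ) × (B → ℂ))
    (hv : ∀ x, ((ψ x : ((A → ℝ) × (B → ℂ))ˣ) : (A → ℝ) × (B → ℂ)) =
      (fun w => Real.exp (x.1 w), fun w => Complex.exp (x.2 w)))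
    (hlift : ∀ g : ((A → ℝ) × (B → ℂ))ˣ, ∃ x ε, g = ψ x * ε ∧ IsSign ε)
    (L : Subgroup Kˣ) {s : ℕ} (hs : IndepIn L s)
    (hV : maxSub (pre hch (L.map (Units.map (f : K →* (A → ℝ) × (B → ℂ))))) = ⊥) :
    s + Fintype.card B ≤ finrank ℝ ((A → ℝ) × (B → ℂ)) := by
  classical
  have : Nontrivial ((A → ℝ) × (B → ℂ)) := ⟨⟨ev A B, 0, ev_ne_zero⟩⟩
  set L' := L.map (Units.map (f : K →* (A → ℝ) × (B → ℂ))) with hL'
  have hcl : IsClosed ((pre hch L' : AddSubgroup ((A → ℝ) × (B → ℂ))) :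
      Set ((A → ℝ) × (B → ℂ))) := by
    have h1 : ((pre hch L' : AddSubgroup ((A → ℝ) × (B → ℂ))) : Set ((A → ℝ) × (B → ℂ))) =
      ψ ⁻¹' (closure (L' : Set ((A → ℝ) × (B → ℂ))ˣ)) := rfl
    rw [h1]
    exact isClosed_closure.preimage hch.cont
  obtain ⟨δ, hδ, h0⟩ := hOpen _ (pre hch L') hcl
  obtain ⟨y, hyL, hy⟩ := hs
  choose v ε hvε hε using fun i => hlift (Units.map (f : K →* (A → ℝ) × (B → ℂ)) (y i))
  have h2v : ∀ i, ψ ((2 : ℤ) • v i) = Units.map (f : K →* (A → ℝ) × (B → ℂ)) (y i ^ (2 : ℤ)) := by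
    intro i
    rw [two_zsmul, hch.map_add, zpow_two, map_mul, hvε, mul_mul_mul_comm, sign_sq (hε i), mul_one]
  let b : Fin s ⊕ B → (A → ℝ) × (B → ℂ) := Sum.elim (fun j => (2 : ℤ) • v j) (fun k => wv A k)
  have hb : LinearIndependent ℤ b := by
    rw [Fintype.linearIndependent_iff]
    intro c hc
    rw [Fintype.sum_sum_type] at hc
    simp only [b, Sum.elim_inl, Sum.elim_inr] at hc
    have h3 := congrArg (chartHom hch) hc
    rw [map_add, map_sum, map_sum, map_zero] at h3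
    have h4 : ∑ k, chartHom hch (c (Sum.inr k) • wv A k) = 0 := by
      refine Finset.sum_eq_zero fun k _ => ?_
      rw [map_zsmul]
      have : chartHom hch (wv A k) = 0 := by
        change Additive.ofMul (ψ (wv A k)) = 0
        rw [psi_wv hv]
        rfl
      rw [this, zsmul_zero]
    rw [h4, add_zero] at h3
    have h5 : Units.map (f : K →* (A → ℝ) × (B → ℂ)) (∏ j, y j ^ (2 * c (Sum.inl j))) = 1 := by
      have h6 := congrArg Additive.toMul h3
      rw [toMul_sum, toMul_zero] at h6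
      rw [← h6, map_prod]
      refine Finset.prod_congr rfl fun j _ => ?_
      rw [map_zsmul, toMul_zsmul]
      change _ = (ψ ((2 : ℤ) • v j)) ^ _
      rw [h2v, ← map_zpow, ← zpow_mul]
    have h6 : ∏ j, y j ^ (2 * c (Sum.inl j)) = 1 := by
      apply Units.map_injective (f := (f : K →* (A → ℝ) × (B → ℂ))) f.injective
      rw [h5, map_one]
    have hz := hy _ h6
    have hz' : ∀ j, c (Sum.inl j) = 0 := fun j => by
      have := congrFun hz j
      simpa using this
    have h7 : ∑ k, ((c (Sum.inr k) : ℝ)) • wv A k = 0 := by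
      simp only [hz', zero_smul, Finset.sum_const_zero, zero_add] at hc
      rw [← hc]
      exact Finset.sum_congr rfl fun k _ => Int.cast_smul_eq_zsmul ℝ _ _
    have hz2 : ∀ k, c (Sum.inr k) = 0 := by
      intro k
      have h8 := Fintype.linearIndependent_iff.1 (wv_indep (A := A)) _ h7 k
      exact_mod_cast h8
    rintro (j | k)
    · exact hz' j
    · exact hz2 k
  have hmem : ∀ i, b i ∈ pre hch L' := by
    rintro (j | k)
    · show ψ ((2 : ℤ) • v j) ∈ L'.topologicalClosure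
      apply Subgroup.le_topologicalClosure
      rw [h2v]
      exact ⟨_, L.zpow_mem (hyL j) _, rfl⟩
    · show ψ (wv A k) ∈ L'.topologicalClosure
      rw [psi_wv hv]
      exact one_mem _
  have hcard := card_le_of_isolated b hb (pre hch L') hmem δ hδ (fun h hh hlt => by
    have := h0 h hh hlt
    rw [hV] at this
    exact (Submodule.mem_bot ℝ).1 this)
  rw [Fintype.card_sum, Fintype.card_fin] at hcard
  exact hcard

/-- dense groups have large rank -/
theorem indepIn_of_top (hch : Chart ψ) {K : Type} [Field K]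
    (f : K →+* (A → ℝ) × (B → ℂ))
    (hker : ∀ x, IsSign (ψ x) → ∃ q : B → ℤ,
      x = ((0 : A → ℝ), fun w => (q w : ℂ) * (2 * Real.pi * Complex.I)))
    {l : ℕ} (G : Fin l → (A → ℝ) × (B → ℂ))
    (hN : GenVec G (wv A) (finrank ℝ ((A → ℝ) × (B → ℂ))))
    (hn : 1 ≤ finrank ℝ ((A → ℝ) × (B → ℂ)))
    (L : Subgroup Kˣ) {n : ℕ} (c : Fin n → (Fin l → ℤ) × (B → ℤ))
    (hc : LinearIndependent ℝ (fun q => castV (c q)))
    (hcL : ∀ q, ψ (∑ j, ((c q).1 j : ℝ) • G j + ∑ b, ((c q).2 b : ℝ) • wv A b) ∈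
            L.map (Units.map (f : K →* (A → ℝ) × (B → ℂ)))) :
    IndepIn L (n - Fintype.card B) := by
  classical
  -- the first components
  set P : Fin n → (Fin l → ℝ) := fun q => (castV (c q)).1 with hP
  have hrank : n - Fintype.card B ≤ finrank ℝ (Submodule.span ℝ (Set.range P)) := by
    set U := Submodule.span ℝ (Set.range fun q => castV (c q)) with hU
    have h1 : finrank ℝ U = n := by
      have := finrank_span_eq_card hc
      rwa [Fintype.card_fin] at this
    let pr : U →ₗ[ℝ] (Fin l → ℝ) := (LinearMap.fst ℝ (Fin l → ℝ) (B → ℝ)).comp U.subtype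
    have h2 := LinearMap.finrank_range_add_finrank_ker pr
    have h3 : finrank ℝ (LinearMap.ker pr) ≤ Fintype.card B := by
      let qr : LinearMap.ker pr →ₗ[ℝ] (B → ℝ) :=
        (LinearMap.snd ℝ (Fin l → ℝ) (B → ℝ)).comp (U.subtype.comp (LinearMap.ker pr).subtype)
      have h4 : Function.Injective qr := by
        intro u u' h
        apply Subtype.ext
        apply Subtype.ext
        exact Prod.ext ((LinearMap.mem_ker.1 u.2).trans (LinearMap.mem_ker.1 u'.2).symm) h
      have h5 := LinearMap.finrank_le_finrank_of_injective h4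
      rwa [Module.finrank_fintype_fun_eq_card] at h5
    have h4 : LinearMap.range pr ≤ Submodule.span ℝ (Set.range P) := by
      rintro _ ⟨⟨u, hu⟩, rfl⟩
      change u.1 ∈ _
      refine Submodule.span_induction (p := fun u _ => u.1 ∈ Submodule.span ℝ (Set.range P))
        ?_ ?_ ?_ ?_ hu
      · rintro _ ⟨q, rfl⟩
        exact Submodule.subset_span ⟨q, rfl⟩
      · exact Submodule.zero_mem _
      · intro a b _ _ ha hb
        exact Submodule.add_mem _ ha hb
      · intro r a _ ha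
        exact Submodule.smul_mem _ _ ha
    have h5 := Submodule.finrank_mono h4
    omega
  obtain ⟨b, hbP, hspan, hind⟩ := exists_linearIndependent ℝ (Set.range P)
  have hfin : b.Finite := hind.setFinite
  have : Fintype b := hfin.fintype
  have hcard : finrank ℝ (Submodule.span ℝ b) = Fintype.card b := by
    have := finrank_span_set_eq_card hind
    rw [this, Set.toFinset_card]
  rw [← hspan, hcard] at hrank
  let eb := Fintype.equivFin b
  choose κ hκ using fun z : b => hbP z.2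
  set τ : Fin (n - Fintype.card B) → Fin n := fun i => κ (eb.symm (Fin.castLE hrank i)) with hτ
  have hτi : LinearIndependent ℝ (fun i => P (τ i)) := by
    have h1 : (fun i => P (τ i)) = (fun i => ((eb.symm (Fin.castLE hrank i) : b) : Fin l → ℝ)) := by
      funext i
      rw [hτ]
      exact hκ _
    rw [h1]
    exact hind.comp _ (eb.symm.injective.comp (Fin.castLE_injective hrank))
  choose y hyL hy using hcL
  refine ⟨fun i => y (τ i), fun i => hyL _, fun e he => ?_⟩
  -- the combination of the logarithms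
  have h1 : ψ (∑ i, (e i : ℝ) • (∑ j, ((c (τ i)).1 j : ℝ) • G j +
      ∑ b, ((c (τ i)).2 b : ℝ) • wv A b)) = 1 := by
    rw [psi_sum hch]
    have h2 := congrArg (Units.map (f : K →* (A → ℝ) × (B → ℂ))) he
    rw [map_prod, map_one] at h2
    rw [← h2]
    refine Finset.prod_congr rfl fun i _ => ?_
    rw [map_zpow, hy]
  obtain ⟨q, hq⟩ := hker _ (by rw [h1]; exact IsSign.one)
  rw [← sum_wv] at hq
  -- the vector
  by_contra hne
  set c' : (Fin l → ℤ) × (B → ℤ) :=
    (fun j => ∑ i, e i * (c (τ i)).1 j, fun b => ∑ i, e i * (c (τ i)).2 b - q b) with hc'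
  have h3 : ∑ j, (c'.1 j : ℝ) • G j + ∑ b, (c'.2 b : ℝ) • wv A b = 0 := by
    have h4 : ∑ j, (c'.1 j : ℝ) • G j = ∑ i, (e i : ℝ) • ∑ j, ((c (τ i)).1 j : ℝ) • G j := by
      simp only [hc', Int.cast_sum, Int.cast_mul, Finset.sum_smul, Finset.smul_sum, mul_smul]
      exact Finset.sum_comm
    have h5 : ∑ b, (c'.2 b : ℝ) • wv A b = ∑ i, (e i : ℝ) • ∑ b, ((c (τ i)).2 b : ℝ) • wv A b -
        ∑ b, (q b : ℝ) • wv A b := by
      simp only [hc', Int.cast_sub, Int.cast_sum, Int.cast_mul, sub_smul, Finset.sum_sub_distrib,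
        Finset.sum_smul, Finset.smul_sum, mul_smul]
      congr 1
      exact Finset.sum_comm
    rw [h4, h5, ← hq]
    simp only [smul_add, Finset.sum_add_distrib]
    abel
  have h4 : castV c' ≠ 0 := by
    intro h0
    apply hne
    have h5 : ∑ i, (e i : ℝ) • P (τ i) = 0 := by
      funext j
      have h6 := congrFun (congrArg Prod.fst h0) j
      simp only [castV, hc', Int.cast_sum, Int.cast_mul] at h6
      rw [Finset.sum_apply]
      exact h6
    have h6 := Fintype.linearIndependent_iff.1 hτi _ h5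
    funext i
    exact_mod_cast h6 i
  have h5 := hN 1 hn (fun _ => c') (LinearIndependent.of_subsingleton (0 : Fin 1) h4)
  exact h5.ne_zero 0 h3

end

end Pool.Agent.R350
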