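import Pool.Agent.R350.IA
import Pool.Agent.R350.Inst
import Pool.Agent.W245.EB.Fam
import Pool.Agent.W320.CL.GEN

/-!
# Generic points of finitely generated groups of points of `R_{K/ℚ}(G_m)`
-/

set_option autoImplicit false
set_option linter.unusedSectionVars false

namespace Pool.Agent.R350

open Module Topology NumberField Pool.Agent.W54.CL
open Pool.Agent.H301R2.SSE (QB mem_QB Lt Lt_log Lt_one Lt_mul)

section

variable {A B : Type} [Fintype A] [Fintype B] [DecidableEq B]

/-- real coordinates -/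
noncomputable def crd (A B : Type) : ((A → ℝ) × (B → ℂ)) ≃ₗ[ℝ] (A ⊕ B ⊕ B → ℝ) where
  toFun x := Sum.elim x.1 (Sum.elim (fun b => (x.2 b).re) (fun b => (x.2 b).im))
  map_add' x y := by
    funext r
    rcases r with r | r | r <;> simp
  map_smul' c x := by
    funext r
    rcases r with r | r | r <;> simp
  invFun f := (fun a => f (Sum.inl a), fun b => ⟨f (Sum.inr (Sum.inl b)), f (Sum.inr (Sum.inr b))⟩)
  left_inv x := rfl
  right_inv f := by
    funext r
    rcases r with r | r | r <;> rfl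

/-- the logarithms of the conjugates -/
noncomputable def cw (r : A ⊕ B ⊕ B) (x : (A → ℝ) × (B → ℂ)) : ℂ :=
  Sum.elim (fun a => ((x.1 a : ℝ) : ℂ))
    (Sum.elim (fun b => x.2 b) (fun b => (starRingEnd ℂ) (x.2 b))) r

theorem alg_I : IsAlgebraic ℚ Complex.I := by
  refine ⟨Polynomial.X ^ 2 + 1, ?_, by simp⟩
  exact (Polynomial.monic_X_pow_add_C (R := ℚ) 1 two_ne_zero).ne_zero

theorem re_cw (z : ℂ) : ((z.re : ℝ) : ℂ) = (1 / 2) * (z + (starRingEnd ℂ) z) := by
  rw [Complex.add_conj]
  push_cast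
  ring

theorem im_cw (z : ℂ) : ((z.im : ℝ) : ℂ) = (-Complex.I / 2) * (z - (starRingEnd ℂ) z) := by
  rw [Complex.sub_conj]
  push_cast
  linear_combination (z.im : ℂ) * Complex.I_mul_I

/-- the coordinates in terms of the logarithms of the conjugates -/
theorem crd_cw (p : A ⊕ B ⊕ B → QB) : ∃ p' : A ⊕ B ⊕ B → QB,
    (∀ x : (A → ℝ) × (B → ℂ), ∑ r, (p r : ℂ) * ((crd A B x r : ℝ) : ℂ) =
      ∑ r, (p' r : ℂ) * cw r x) ∧ (p' = 0 → p = 0) := by
  classical
  let i : QB := ⟨Complex.I, mem_QB.2 alg_I⟩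
  refine ⟨Sum.elim (fun a => p (Sum.inl a)) (Sum.elim
    (fun b => (p (Sum.inr (Sum.inl b)) - i * p (Sum.inr (Sum.inr b))) / 2)
    (fun b => (p (Sum.inr (Sum.inl b)) + i * p (Sum.inr (Sum.inr b))) / 2)), fun x => ?_, fun h => ?_⟩
  · simp only [Fintype.sum_sum_type, Sum.elim_inl, Sum.elim_inr, cw]
    congr 1
    rw [← Finset.sum_add_distrib, ← Finset.sum_add_distrib]
    refine Finset.sum_congr rfl fun b _ => ?_
    have h1 : crd A B x (Sum.inr (Sum.inl b)) = (x.2 b).re := rfl
    have h2 : crd A B x (Sum.inr (Sum.inr b)) = (x.2 b).im := rfl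
    rw [h1, h2, re_cw, im_cw]
    push_cast
    change _ = ((p (Sum.inr (Sum.inl b)) : ℂ) - Complex.I * (p (Sum.inr (Sum.inr b)) : ℂ)) / 2 * _ +
      ((p (Sum.inr (Sum.inl b)) : ℂ) + Complex.I * (p (Sum.inr (Sum.inr b)) : ℂ)) / 2 * _
    ring
  · have hi : i ≠ 0 := by
      intro h0
      exact Complex.I_ne_zero (congrArg Subtype.val h0)
    have ha : ∀ a, p (Sum.inl a) = 0 := fun a => congrFun h (Sum.inl a)
    have h1 : ∀ b, (p (Sum.inr (Sum.inl b)) - i * p (Sum.inr (Sum.inr b))) / 2 = 0 :=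
      fun b => congrFun h (Sum.inr (Sum.inl b))
    have h2 : ∀ b, (p (Sum.inr (Sum.inl b)) + i * p (Sum.inr (Sum.inr b))) / 2 = 0 :=
      fun b => congrFun h (Sum.inr (Sum.inr b))
    funext r
    rcases r with a | b | b
    · exact ha a
    · have h3 := h1 b
      have h4 := h2 b
      change p (Sum.inr (Sum.inl b)) = 0
      linear_combination h3 + h4
    · have h3 := h1 b
      have h4 := h2 b
      change p (Sum.inr (Sum.inr b)) = 0
      apply mul_left_cancel₀ hi
      linear_combination h4 - h3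

/-- the coordinates are in the space of logarithms -/
theorem crd_mem {x : (A → ℝ) × (B → ℂ)} (hx : ∀ r, IsAlgebraic ℚ (Complex.exp (cw r x)))
    (r : A ⊕ B ⊕ B) : ((crd A B x r : ℝ) : ℂ) ∈ Lt := by
  have h1 : ∀ r : A ⊕ B ⊕ B, cw r x ∈ Lt := fun r => Lt_log (hx r)
  have h2 : IsAlgebraic ℚ (1 / 2 : ℂ) := by
    have : (1 / 2 : ℂ) = ((1 / 2 : ℚ) : ℂ) := by push_cast; rfl
    rw [this]
    exact isAlgebraic_algebraMap _
  rcases r with a | b | b
  · exact h1 (Sum.inl a)
  · have h3 : crd A B x (Sum.inr (Sum.inl b)) = (x.2 b).re := rfl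
    rw [h3, re_cw]
    exact Lt_mul h2 (Lt.add_mem (h1 (Sum.inr (Sum.inl b))) (h1 (Sum.inr (Sum.inr b))))
  · have h3 : crd A B x (Sum.inr (Sum.inr b)) = (x.2 b).im := rfl
    rw [h3, im_cw]
    refine Lt_mul ?_ (Lt.sub_mem (h1 (Sum.inr (Sum.inl b))) (h1 (Sum.inr (Sum.inr b))))
    have h4 : -Complex.I / 2 = (-Complex.I) * (1 / 2) := by ring
    rw [h4]
    exact alg_I.neg.mul h2

/-- the condition on tensors of rank one -/
theorem rankOneFree_crd {l n N : ℕ} (g : Fin N → (A → ℝ) × (B → ℂ))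
    (hw : LinearIndependent QB (fun s : (A ⊕ B ⊕ B) × Fin N => cw s.1 (g s.2)))
    (e : Fin n ≃ Fin l × (A ⊕ B ⊕ B)) :
    RankOneFree (k := QB) (fun u => (e u).1)
      (fun u x => ((crd A B (g x) (e u).2 : ℝ) : ℂ)) := by
  classical
  intro i p g' hp h0
  obtain ⟨p', h1, h2⟩ := crd_cw (A := A) (B := B) (fun r => p (e.symm (i, r)))
  have h3 : ∑ s : (A ⊕ B ⊕ B) × Fin N, (p' s.1 * g' s.2) • cw s.1 (g s.2) = 0 := by
    rw [← h0, ← e.symm.sum_comp, Fintype.sum_prod_type, Fintype.sum_prod_type,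
      Finset.sum_eq_single i]
    · simp only [Equiv.apply_symm_apply]
      have h4 : ∀ x, ∑ r, (p (e.symm (i, r)) : ℂ) * ((crd A B (g x) r : ℝ) : ℂ) =
        ∑ r, (p' r : ℂ) * cw r (g x) := fun x => h1 (g x)
      calc ∑ r, ∑ x, (p' r * g' x) • cw r (g x)
          = ∑ x, (g' x : ℂ) * ∑ r, (p' r : ℂ) * cw r (g x) := by
            rw [Finset.sum_comm]
            refine Finset.sum_congr rfl fun x _ => ?_
            rw [Finset.mul_sum]
            refine Finset.sum_congr rfl fun r _ => ?_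
            change ((p' r * g' x : QB) : ℂ) * _ = _
            push_cast
            ring
        _ = ∑ x, (g' x : ℂ) * ∑ r, (p (e.symm (i, r)) : ℂ) * ((crd A B (g x) r : ℝ) : ℂ) := by
            simp only [h4]
        _ = ∑ r, p (e.symm (i, r)) • ∑ x, g' x • ((crd A B (g x) r : ℝ) : ℂ) := by
            simp only [Finset.mul_sum, Finset.smul_sum]
            rw [Finset.sum_comm]
            refine Finset.sum_congr rfl fun r _ => Finset.sum_congr rfl fun x _ => ?_
            change _ = (p (e.symm (i, r)) : ℂ) * ((g' x : ℂ) * _)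
            ring
    · intro i' _ hi'
      refine Finset.sum_eq_zero fun r _ => ?_
      rw [hp (e.symm (i', r)) (by
        change (e (e.symm (i', r))).1 ≠ i
        rw [Equiv.apply_symm_apply]
        exact hi'), zero_smul]
    · intro h; exact absurd (Finset.mem_univ _) h
  have h4 := Fintype.linearIndependent_iff.1 hw (fun s => p' s.1 * g' s.2) h3
  by_cases hg : g' = 0
  · exact Or.inr hg
  · left
    obtain ⟨x, hx⟩ := Function.ne_iff.1 hg
    have h5 : p' = 0 := by
      funext r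
      exact (mul_eq_zero.1 (h4 (r, x))).resolve_right hx
    have h6 := h2 h5
    funext u
    by_cases hu : (e u).1 = i
    · have h7 := congrFun h6 (e u).2
      have h8 : e.symm (i, (e u).2) = u := by
        rw [← hu, Prod.mk.eta, Equiv.symm_apply_apply]
      simp only [h8] at h7
      exact h7
    · exact hp u hu

/-- the space of coefficients -/
noncomputable def WPi : Submodule QB ℂ := Submodule.span QB {1, (Real.pi : ℂ)}

theorem WPi_one : (1 : ℂ) ∈ WPi := Submodule.subset_span (Or.inl rfl)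

theorem WPi_pow (n : ℕ) : Module.Finite QB (WPi ^ n : Submodule QB ℂ) ∧
    finrank QB (WPi ^ n : Submodule QB ℂ) ≤ 2 ^ n := by
  classical
  have h1 : Module.Finite QB WPi := FiniteDimensional.span_of_finite _ (Set.toFinite _)
  have h2 : finrank QB WPi ≤ 2 := by
    have h3 := finrank_span_finset_le_card (R := QB) ({1, (Real.pi : ℂ)} : Finset ℂ)
    rw [Finset.coe_pair] at h3
    exact h3.trans (Finset.card_insert_le _ _)
  exact Pool.Agent.W320.CL.pow WPi 2 n h1 h2

theorem crd_wv (b : B) (r : A ⊕ B ⊕ B) : ((crd A B (wv A b) r : ℝ) : ℂ) ∈ WPi := by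
  rcases r with a | b' | b'
  · have : crd A B (wv A b) (Sum.inl a) = 0 := rfl
    rw [this, Complex.ofReal_zero]
    exact WPi.zero_mem
  · have : crd A B (wv A b) (Sum.inr (Sum.inl b')) =
      ((Pi.single b (2 * Real.pi * Complex.I) : B → ℂ) b').re := rfl
    rw [this]
    by_cases h : b' = b
    · subst h
      rw [Pi.single_eq_same]
      simp
    · rw [Pi.single_eq_of_ne h]
      simp
  · have : crd A B (wv A b) (Sum.inr (Sum.inr b')) =
      ((Pi.single b (2 * Real.pi * Complex.I) : B → ℂ) b').im := rfl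
    rw [this]
    by_cases h : b' = b
    · subst h
      rw [Pi.single_eq_same]
      have h2 : ((2 * Real.pi * Complex.I : ℂ).im : ℂ) = (2 : ℕ) • (Real.pi : ℂ) := by
        simp
      rw [h2]
      exact WPi.nsmul_mem (Submodule.subset_span (Or.inr rfl)) _
    · rw [Pi.single_eq_of_ne h]
      simp

/-- **Almost all tuples are generic.** -/
theorem count_genVec (n l N : ℕ) : ∃ C : ℕ, ∀ (A B : Type) [Fintype A] [Fintype B]
    [DecidableEq B], Fintype.card A + 2 * Fintype.card B = n → ∀ g : Fin N → (A → ℝ) × (B → ℂ),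
    (∀ r x, IsAlgebraic ℚ (Complex.exp (cw r (g x)))) →
    LinearIndependent QB (fun s : (A ⊕ B ⊕ B) × Fin N => cw s.1 (g s.2)) →
    ∀ T : Finset ℤ, T.Nonempty → ∀ F : Finset (Fin l → Fin N → ℤ),
    (∀ m ∈ F, (∀ i x, m i x ∈ T) ∧
      ¬ GenVec (fun i => ∑ x, (m i x : ℝ) • g x) (wv A) n) →
    F.card ≤ C * T.card ^ ((l - 1) * N + (2 ^ n * (l * n + n).choose n + (l * n) ^ 2)) := by
  classical
  obtain ⟨C, hC⟩ := tied_count QB ℂ (l * n) l N (2 ^ n) 0 (fun u => (finProdFinEquiv.symm u).1)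
    (simplexS (l * n) n) (lower_simplexS _ _) Lt setup_complex.hyp
  refine ⟨C, fun A B _ _ _ hAB g hg hw T hT F hF => ?_⟩
  have hcard : Fintype.card (A ⊕ B ⊕ B) = n := by
    rw [Fintype.card_sum, Fintype.card_sum, ← hAB]
    omega
  let eI : Fin n ≃ A ⊕ B ⊕ B := (finCongr hcard.symm).trans (Fintype.equivFin _).symm
  let e : Fin (l * n) ≃ Fin l × (A ⊕ B ⊕ B) :=
    finProdFinEquiv.symm.trans ((Equiv.refl (Fin l)).prodCongr eI)
  have he : ∀ u, (e u).1 = (finProdFinEquiv.symm u).1 := fun u => rfl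
  let cast : (Fin l → Fin N → ℤ) → (Fin l × Fin N → QB) := fun m s => (m s.1 s.2 : QB)
  have hcast : Function.Injective cast := by
    intro m m' h
    funext i x
    have h1 : ((m i x : ℤ) : QB) = ((m' i x : ℤ) : QB) := congrFun h (i, x)
    exact_mod_cast h1
  have hT' : (T.image (fun z : ℤ => (z : QB))).Nonempty := hT.image _
  have h1 := hC (WPi ^ n) (WPi_pow n).1 (WPi_pow n).2 0
    (fun u x => ((crd A B (g x) (e u).2 : ℝ) : ℂ)) (fun u x => crd_mem (fun r => hg r x) _)
    (rankOneFree_crd g hw e) (T.image (fun z : ℤ => (z : QB))) hT' (F.image cast) (by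
      intro b hb
      obtain ⟨m, hm, rfl⟩ := Finset.mem_image.1 hb
      refine ⟨fun y => Finset.mem_image.2 ⟨_, (hF m hm).1 y.1 y.2, rfl⟩, fun hN => ?_⟩
      apply (hF m hm).2
      intro t ht c hc
      refine forms_indep (crd A B) e WPi WPi_one (wv A) wv_indep (fun b r => crd_wv b r)
        (fun i => ∑ x, (m i x : ℝ) • g x) ?_ (by rw [hcard]; exact ht) c hc
      intro P hP hPW h0
      refine hN P ?_ ?_ ?_
      · intro γ hγ
        have := hP hγ
        rw [mem_simplexS] at this ⊢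
        exact this.trans ht
      · exact CoefIn.mono (le_pow_of_one WPi_one ht) hPW
      · rw [← h0]
        congr 1
        congr 1
        funext u
        rw [Pi.zero_apply, zero_add, map_sum, Finset.sum_apply, Complex.ofReal_sum]
        refine Finset.sum_congr rfl fun x _ => ?_
        rw [map_smul, Pi.smul_apply, smul_eq_mul]
        push_cast
        change ((m (finProdFinEquiv.symm u).1 x : QB) : ℂ) * _ = _
        push_cast
        rfl)
  rw [Finset.card_image_of_injective _ hcast] at h1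
  have h2 : (T.image (fun z : ℤ => (z : QB))).card = T.card :=
    Finset.card_image_of_injective _ Int.cast_injective
  rw [h2] at h1
  refine h1.trans (Nat.mul_le_mul_left _ (Nat.pow_le_pow_right (Finset.card_pos.2 hT) ?_))
  have h3 := card_simplexS (l * n) n
  have h4 : 2 ^ n * (simplexS (l * n) n).card ≤ 2 ^ n * (l * n + n).choose n :=
    Nat.mul_le_mul_left _ h3
  have h5 : l * n * (l * n + 0) = (l * n) ^ 2 := by ring
  omega

end

end Pool.Agent.R350
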