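import Pool.Agent.R350.IB

/-!
# Multiplicatively independent conjugates
-/

set_option autoImplicit false
set_option linter.unusedSectionVars false

namespace Pool.Agent.R350

open Module Topology NumberField Pool.Agent.W54.CL
open Pool.Agent.H301R2.SSE (QB mem_QB Lt Lt_log Lt_one Lt_mul)

/-- the conjugates of the `γ x` are multiplicatively independent -/
def ConjIndep (K : Type) [Field K] [NumberField K] {N : ℕ} (γ : Fin N → Kˣ) : Prop :=
  ∀ e : (K →+* ℂ) → Fin N → ℤ, ∏ σ, ∏ x, σ (γ x : K) ^ e σ x = 1 → e = 0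

section

variable (K : Type) [Field K] [NumberField K]

abbrev RP : Type := {w : InfinitePlace K // w.IsReal}
abbrev CP : Type := {w : InfinitePlace K // w.IsComplex}

/-- the embeddings -/
noncomputable def emb : RP K ⊕ CP K ⊕ CP K → (K →+* ℂ) :=
  Sum.elim (fun a => a.1.embedding)
    (Sum.elim (fun b => b.1.embedding) (fun b => ComplexEmbedding.conjugate b.1.embedding))

/-- the places -/
def plc : RP K ⊕ CP K ⊕ CP K → InfinitePlace K :=
  Sum.elim (fun a => a.1) (Sum.elim (fun b => b.1) (fun b => b.1))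

theorem mk_emb (r : RP K ⊕ CP K ⊕ CP K) : InfinitePlace.mk (emb K r) = plc K r := by
  rcases r with a | b | b
  · exact InfinitePlace.mk_embedding a.1
  · exact InfinitePlace.mk_embedding b.1
  · change InfinitePlace.mk (ComplexEmbedding.conjugate b.1.embedding) = b.1
    rw [InfinitePlace.mk_conjugate_eq, InfinitePlace.mk_embedding]

theorem emb_injective : Function.Injective (emb K) := by
  intro r r' h
  have h1 : plc K r = plc K r' := by rw [← mk_emb, ← mk_emb, h]
  have hRC : ∀ (a : RP K) (b : CP K), a.1 ≠ b.1 := fun a b =>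
    InfinitePlace.ne_of_isReal_isComplex a.2 b.2
  have hne : ∀ b : CP K, b.1.embedding ≠ ComplexEmbedding.conjugate b.1.embedding := by
    intro b hb
    have h2 := (InfinitePlace.isComplex_iff (K := K)).1 b.2
    exact h2 (ComplexEmbedding.isReal_iff.2 hb.symm)
  rcases r with a | b | b <;> rcases r' with a' | b' | b'
  · exact congrArg Sum.inl (Subtype.ext h1)
  · exact absurd h1 (hRC a b')
  · exact absurd h1 (hRC a b')
  · exact absurd h1.symm (hRC a' b)
  · exact congrArg (fun z => Sum.inr (Sum.inl z)) (Subtype.ext h1)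
  · have h2 : b = b' := Subtype.ext h1
    subst h2
    exact absurd h (hne b)
  · exact absurd h1.symm (hRC a' b)
  · have h2 : b = b' := Subtype.ext h1
    subst h2
    exact absurd h.symm (hne b)
  · exact congrArg (fun z => Sum.inr (Sum.inr z)) (Subtype.ext h1)

variable {K} {N : ℕ} {γ : Fin N → Kˣ} {ψ : (RP K → ℝ) × (CP K → ℂ) → ((RP K → ℝ) × (CP K → ℂ))ˣ}

/-- the exponentials of the logarithms of the conjugates -/
theorem exp_cw (hv : ∀ x, ((ψ x : ((RP K → ℝ) × (CP K → ℂ))ˣ) : (RP K → ℝ) × (CP K → ℂ)) =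
      (fun w => Real.exp (x.1 w), fun w => Complex.exp (x.2 w)))
    {y : Kˣ} {g : (RP K → ℝ) × (CP K → ℂ)} {ε : ((RP K → ℝ) × (CP K → ℂ))ˣ} (hε : IsSign ε)
    (hg : Units.map (mixedEmbedding K : K →* (RP K → ℝ) × (CP K → ℂ)) y = ψ g * ε)
    (r : RP K ⊕ CP K ⊕ CP K) : Complex.exp (cw r g) ^ 2 = emb K r (y : K) ^ 2 := by
  have h1 : mixedEmbedding K (y : K) = ((ψ g : ((RP K → ℝ) × (CP K → ℂ))ˣ) :
      (RP K → ℝ) × (CP K → ℂ)) * ((ε : ((RP K → ℝ) × (CP K → ℂ))ˣ) : (RP K → ℝ) × (CP K → ℂ)) := by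
    have := congrArg Units.val hg
    rw [Units.val_mul] at this
    exact this
  rw [hv] at h1
  have hb : ∀ b : CP K, b.1.embedding (y : K) = Complex.exp (g.2 b) := by
    intro b
    have h2 := congrFun (congrArg Prod.snd h1) b
    rw [mixedEmbedding.mixedEmbedding_apply_isComplex, Prod.snd_mul, Pi.mul_apply, hε.2 b,
      mul_one] at h2
    exact h2
  rcases r with a | b | b
  · have h2 := congrFun (congrArg Prod.fst h1) a
    rw [mixedEmbedding.mixedEmbedding_apply_isReal, Prod.fst_mul, Pi.mul_apply] at h2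
    change Complex.exp ((g.1 a : ℝ) : ℂ) ^ 2 = a.1.embedding (y : K) ^ 2
    rw [← InfinitePlace.embedding_of_isReal_apply a.2, h2, ← Complex.ofReal_exp]
    rcases hε.1 a with h | h <;> rw [h] <;> simp
  · change Complex.exp (g.2 b) ^ 2 = b.1.embedding (y : K) ^ 2
    rw [hb]
  · change Complex.exp ((starRingEnd ℂ) (g.2 b)) ^ 2 =
      (ComplexEmbedding.conjugate b.1.embedding) (y : K) ^ 2
    rw [ComplexEmbedding.conjugate_coe_eq, hb, Complex.exp_conj]

theorem alg_exp_cw (hv : ∀ x, ((ψ x : ((RP K → ℝ) × (CP K → ℂ))ˣ) : (RP K → ℝ) × (CP K → ℂ)) =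
      (fun w => Real.exp (x.1 w), fun w => Complex.exp (x.2 w)))
    {y : Kˣ} {g : (RP K → ℝ) × (CP K → ℂ)} {ε : ((RP K → ℝ) × (CP K → ℂ))ˣ} (hε : IsSign ε)
    (hg : Units.map (mixedEmbedding K : K →* (RP K → ℝ) × (CP K → ℂ)) y = ψ g * ε)
    (r : RP K ⊕ CP K ⊕ CP K) : IsAlgebraic ℚ (Complex.exp (cw r g)) := by
  have h1 : IsAlgebraic ℚ (Complex.exp (cw r g) ^ 2) := by
    rw [exp_cw hv hε hg r]
    have h2 : IsAlgebraic ℚ (y : K) := Algebra.IsAlgebraic.isAlgebraic _
    exact (h2.algHom ((emb K r).toRatAlgHom)).pow 2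
  exact IsAlgebraic.of_pow (by norm_num : 0 < 2) h1

/-- the logarithms of independent conjugates are independent -/
theorem cw_indep (hγ : ConjIndep K γ)
    (hv : ∀ x, ((ψ x : ((RP K → ℝ) × (CP K → ℂ))ˣ) : (RP K → ℝ) × (CP K → ℂ)) =
      (fun w => Real.exp (x.1 w), fun w => Complex.exp (x.2 w)))
    (g : Fin N → (RP K → ℝ) × (CP K → ℂ)) (ε : Fin N → ((RP K → ℝ) × (CP K → ℂ))ˣ)
    (hε : ∀ j, IsSign (ε j))
    (hg : ∀ j, Units.map (mixedEmbedding K : K →* (RP K → ℝ) × (CP K → ℂ)) (γ j) = ψ (g j) * ε j) :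
    LinearIndependent QB (fun s : (RP K ⊕ CP K ⊕ CP K) × Fin N => cw s.1 (g s.2)) := by
  classical
  apply Pool.Agent.W245.EB.LogFam.indep
  refine ⟨fun s => alg_exp_cw hv (hε s.2) (hg s.2) s.1, ?_⟩
  rw [← LinearIndependent.iff_fractionRing ℤ ℚ, Fintype.linearIndependent_iff]
  intro m hm
  have h1 : ∏ s : (RP K ⊕ CP K ⊕ CP K) × Fin N,
      Complex.exp (cw s.1 (g s.2)) ^ (m s) = 1 := by
    have h2 := congrArg Complex.exp hm
    rw [Complex.exp_sum, Complex.exp_zero] at h2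
    rw [← h2]
    refine Finset.prod_congr rfl fun s _ => ?_
    rw [zsmul_eq_mul, Complex.exp_int_mul]
  have h2 : ∏ r : RP K ⊕ CP K ⊕ CP K, ∏ x, (emb K r (γ x : K)) ^ (2 * m (r, x)) = 1 := by
    have h3 := congrArg (fun z : ℂ => z ^ (2 : ℤ)) h1
    simp only [one_zpow] at h3
    rw [← h3, ← Finset.prod_zpow, Fintype.prod_prod_type]
    refine Finset.prod_congr rfl fun r _ => Finset.prod_congr rfl fun x _ => ?_
    have h4 := exp_cw hv (hε x) (hg x) r
    have h5 : ∀ z : ℂ, z ^ (2 : ℤ) = z ^ 2 := fun z => by norm_cast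
    rw [zpow_mul, h5, ← h4, ← h5, ← zpow_mul, ← zpow_mul, mul_comm]
  have h3 := hγ (Function.extend (emb K) (fun r x => 2 * m (r, x)) 0) (by
    rw [← h2]
    symm
    refine Fintype.prod_of_injective (emb K) (emb_injective K) _ _ ?_ ?_
    · intro σ hσ
      rw [Function.extend_apply' _ _ _ (fun ⟨a, ha⟩ => hσ ⟨a, ha⟩)]
      simp
    · intro r
      rw [(emb_injective K).extend_apply])
  rintro ⟨r, x⟩
  have h4 := congrFun (congrFun h3 (emb K r)) x
  rw [(emb_injective K).extend_apply] at h4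
  simpa using h4

end

end Pool.Agent.R350
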