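import Pool.Agent.W245.PB.Reduce
import Pool.Agent.W289.SL.LogEx

/-!
# Iwasawa's logarithm on the algebraic closure of `ℚ_p`
-/

set_option autoImplicit false

namespace Pool.Agent.R350

open Filter Topology Module

variable {p : ℕ} [hp : Fact p.Prime]

/-- the terms of the series -/
noncomputable def lterm {F : Type} [Field F] (z : F) (n : ℕ) : F :=
  (-1 : F) ^ n * z ^ (n + 1) / ((n : F) + 1)

theorem coe_lterm (z : PadicAlgCl p) (n : ℕ) :
    algebraMap (PadicAlgCl p) ℂ_[p] (lterm z n) = lterm (algebraMap (PadicAlgCl p) ℂ_[p] z) n := by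
  unfold lterm
  simp only [map_div₀, map_mul, map_pow, map_neg, map_one, map_add, map_natCast]

theorem norm_coe (z : PadicAlgCl p) : ‖algebraMap (PadicAlgCl p) ℂ_[p] z‖ = ‖z‖ := by
  rw [← PadicComplex.coe_eq]
  exact PadicComplex.norm_extends p z

theorem cont_coe : Continuous (algebraMap (PadicAlgCl p) ℂ_[p]) := by
  refine AddMonoidHomClass.continuous_of_bound (algebraMap (PadicAlgCl p) ℂ_[p]) 1 fun z => ?_
  rw [norm_coe, one_mul]

/-- the series converges in the algebraic closure -/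
theorem hasSum_alg {z : PadicAlgCl p} (hz : ‖z‖ < 1) : ∃ y, HasSum (lterm z) y := by
  classical
  let E : Submodule ℚ_[p] (PadicAlgCl p) := Subalgebra.toSubmodule (Algebra.adjoin ℚ_[p] {z})
  have hint : IsIntegral ℚ_[p] z := Algebra.IsIntegral.isIntegral z
  have hfd : FiniteDimensional ℚ_[p] E := by
    have h1 := hint.fg_adjoin_singleton
    exact Module.Finite.iff_fg.2 h1
  have hcomp : CompleteSpace E := FiniteDimensional.complete ℚ_[p] E
  have hzE : z ∈ Algebra.adjoin ℚ_[p] {z} := Algebra.subset_adjoin rfl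
  have hmem : ∀ n, lterm z n ∈ E := by
    intro n
    have h1 : lterm z n = ((-1 : ℚ_[p]) ^ n / ((n : ℚ_[p]) + 1)) • z ^ (n + 1) := by
      unfold lterm
      rw [Algebra.smul_def, map_div₀, map_pow, map_neg, map_one, map_add, map_natCast, map_one]
      ring
    rw [h1]
    exact E.smul_mem _ (Subalgebra.pow_mem _ hzE _)
  have hz' : ‖algebraMap (PadicAlgCl p) ℂ_[p] z‖ < 1 := by rwa [norm_coe]
  have hsum : Summable (fun n => ‖(⟨lterm z n, hmem n⟩ : E)‖) := by
    refine Summable.of_nonneg_of_le (fun n => norm_nonneg _) (fun n => ?_)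
      (Pool.Agent.W289.SL.summable_bound hz')
    have h1 : ‖(⟨lterm z n, hmem n⟩ : E)‖ =
      ‖lterm (algebraMap (PadicAlgCl p) ℂ_[p] z) n‖ := by
      rw [← coe_lterm, norm_coe]
      rfl
    rw [h1]
    exact Pool.Agent.W289.SL.bound_term _ (by rw [norm_pow, norm_neg, norm_one, one_pow]) n
  obtain ⟨s, hs⟩ := (Summable.of_norm hsum)
  refine ⟨s, ?_⟩
  have h2 := hs.map E.subtype.toAddMonoidHom continuous_subtype_val
  exact h2

/-- **Iwasawa's logarithm on the algebraic closure of `ℚ_p` exists.** -/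
theorem exists_log (p : ℕ) [hp : Fact p.Prime] :
    ∃ L : PadicAlgCl p → PadicAlgCl p, Pool.Agent.W245.PB.IsIwasawaLog p L := by
  classical
  obtain ⟨Lc, hLc⟩ := Pool.Agent.W289.SL.exists_iwasawaLog p
  set ι := algebraMap (PadicAlgCl p) ℂ_[p] with hι
  have hinj : Function.Injective ι := ι.injective
  have hser : ∀ z : PadicAlgCl p, ‖z‖ < 1 → ∀ y, HasSum (lterm z) y → ι y = Lc (ι (1 + z)) := by
    intro z hz y hy
    have h1 := hy.map ι.toAddMonoidHom cont_coe
    have h2 := hLc.ser (ι z) (by rwa [hι, norm_coe])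
    rw [map_add, map_one]
    refine HasSum.unique ?_ h2
    refine h1.congr_fun ?_
    intro n
    exact (coe_lterm z n).symm
  have hpne : ι (p : PadicAlgCl p) ≠ 0 := by
    rw [map_natCast]
    exact Nat.cast_ne_zero.2 hp.out.ne_zero
  have hex : ∀ x : PadicAlgCl p, x ≠ 0 → ∃ y, ι y = Lc (ι x) := by
    intro x hx
    have hx' : ι x ≠ 0 := fun h => hx (hinj (by rw [h, map_zero]))
    obtain ⟨m, r, hm, hn⟩ := Pool.Agent.W245.PB.exists_near hx
    set u : PadicAlgCl p := x ^ m * (p : PadicAlgCl p) ^ r with hu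
    have hlt : ‖u - 1‖ < 1 := by
      have h8 : (8 : ℝ) ≤ (p : ℝ) ^ 3 := by
        have hp2 : (2 : ℝ) ≤ p := by exact_mod_cast hp.out.two_le
        calc (8 : ℝ) = 2 ^ 3 := by norm_num
          _ ≤ (p : ℝ) ^ 3 := by gcongr
      have h0 := norm_nonneg (u - 1)
      nlinarith
    obtain ⟨y, hy⟩ := hasSum_alg hlt
    have h1 := hser (u - 1) hlt y hy
    rw [add_sub_cancel] at h1
    have hpow : ∀ (r : ℤ), Lc (ι (p : PadicAlgCl p) ^ r) = 0 := by
      have hp1 : Lc (ι (p : PadicAlgCl p)) = 0 := by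
        rw [map_natCast]
        exact hLc.prime
      have hnat : ∀ n : ℕ, Lc (ι (p : PadicAlgCl p) ^ n) = 0 := by
        intro n
        rw [hLc.pow hpne, hp1, mul_zero]
      intro r
      obtain ⟨n, rfl | rfl⟩ := r.eq_nat_or_neg
      · rw [zpow_natCast]
        exact hnat n
      · rw [zpow_neg, zpow_natCast, hLc.inv (pow_ne_zero _ hpne), hnat, neg_zero]
    have h2 : Lc (ι u) = m * Lc (ι x) := by
      rw [hu, map_mul, map_pow, map_zpow₀, hLc.mul _ _ (pow_ne_zero _ hx') (zpow_ne_zero _ hpne),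
        hpow, add_zero, hLc.pow hx']
    have hm0 : (m : ℂ_[p]) ≠ 0 := Nat.cast_ne_zero.2 hm.ne'
    refine ⟨y / m, ?_⟩
    rw [map_div₀, map_natCast, h1, h2, mul_div_cancel_left₀ _ hm0]
  choose! Lg hLg using hex
  refine ⟨Lg, ⟨?_, ?_, ?_⟩⟩
  · intro x y hx hy
    have hx' : ι x ≠ 0 := fun h => hx (hinj (by rw [h, map_zero]))
    have hy' : ι y ≠ 0 := fun h => hy (hinj (by rw [h, map_zero]))
    apply hinj
    rw [hLg _ (mul_ne_zero hx hy), map_mul, hLc.mul _ _ hx' hy', map_add, hLg x hx, hLg y hy]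
  · apply hinj
    rw [hLg _ (Nat.cast_ne_zero.2 hp.out.ne_zero), map_natCast, hLc.prime, map_zero]
  · intro z hz
    obtain ⟨y, hy⟩ := hasSum_alg hz
    have h1 := hser z hz y hy
    have h2 : (1 : PadicAlgCl p) + z ≠ 0 := by
      intro h
      have h3 : z = -1 := by linear_combination h
      rw [h3, norm_neg, norm_one] at hz
      exact lt_irrefl _ hz
    have h3 : Lg (1 + z) = y := hinj (by rw [hLg _ h2, h1])
    rw [h3]
    exact hy

end Pool.Agent.R350
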