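import Pool.Agent.R350.HY
import Pool.Agent.R350.ID
import Pool.Agent.R350.Inst

/-!
# Generic points: matrices of `p`-adic logarithms
-/

set_option autoImplicit false

namespace Pool.Agent.R350

open Module MvPolynomial Filter Topology

section

variable {κ Ω : Type} [Field κ] [Field Ω] [Algebra κ Ω]

/-- **Integer combinations of generic vectors are independent**, over any field. -/
theorem forms_indep_field {I : Type} [Fintype I] {l M t : ℕ} (e : Fin M ≃ Fin l × I)
    (G : Fin l → I → Ω)
    (hN : NoRelS (simplexS M t) (1 : Submodule κ Ω) (fun u => G (e u).1 (e u).2))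
    (ht : t ≤ Fintype.card I) (c : Fin t → Fin l → ℤ)
    (hc : LinearIndependent Ω (fun q j => ((c q j : ℤ) : Ω))) :
    LinearIndependent Ω (fun q => ∑ j, ((c q j : ℤ) : Ω) • G j) := by
  classical
  by_contra hdep
  let ι : Fin t ↪ I := (Fin.castLEEmb ht).trans (Fintype.equivFin I).symm.toEmbedding
  -- other vectors
  let bs := Basis.span hc
  obtain ⟨G', hG'⟩ := LinearMap.exists_extend
    (bs.constr Ω (fun q => (Pi.single (ι q) 1 : I → Ω)))
  have hG'c : ∀ q, G' (fun j => ((c q j : ℤ) : Ω)) = Pi.single (ι q) 1 := by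
    intro q
    have h1 := LinearMap.congr_fun hG' (bs q)
    rw [Basis.constr_basis] at h1
    rw [← h1]
    change _ = G' ((bs q : Submodule.span Ω (Set.range fun q j => ((c q j : ℤ) : Ω))) : Fin l → Ω)
    rw [Basis.span_apply]
  set G₁ : Fin l → I → Ω := fun j => G' (Pi.single j 1) with hG₁
  have hG1 : ∀ q, ∑ j, ((c q j : ℤ) : Ω) • G₁ j = Pi.single (ι q) 1 := by
    intro q
    rw [← hG'c q]
    conv_rhs => rw [pi_eq_sum_univ' (fun j => ((c q j : ℤ) : Ω))]
    rw [map_sum]
    refine Finset.sum_congr rfl fun j _ => ?_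
    rw [map_smul]
  let mat : (Fin l → I → Ω) → Matrix (Fin t) (Fin t) Ω := fun H =>
    Matrix.of fun i q => (∑ j, ((c q j : ℤ) : Ω) • H j) (ι i)
  let P : Matrix (Fin t) (Fin t) (MvPolynomial (Fin M) Ω) := Matrix.of fun i q =>
    ∑ j, C ((c q j : ℤ) : Ω) * X (e.symm (j, ι i))
  have hPe : ∀ i q, P i q = ∑ j, C ((c q j : ℤ) : Ω) * X (e.symm (j, ι i)) := fun _ _ => rfl
  have hev : ∀ H : Fin l → I → Ω, eval (fun u => H (e u).1 (e u).2) P.det = (mat H).det := by
    intro H
    rw [RingHom.map_det]
    congr 1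
    ext i q
    simp only [RingHom.mapMatrix_apply, Matrix.map_apply, Matrix.of_apply, P, mat, map_sum,
      map_mul, eval_C, eval_X, Equiv.apply_symm_apply, Finset.sum_apply, Pi.smul_apply, smul_eq_mul]
  have hP0 : P.det = 0 := by
    refine hN P.det ?_ ?_ ?_
    · intro γ hγ
      rw [mem_simplexS]
      have h1 : P.det.totalDegree ≤ t := by
        refine degree_det (A := Ω) P fun i q => ?_
        rw [hPe]
        refine totalDegree_finsetSum_le fun j _ => ?_
        refine (totalDegree_mul _ _).trans ?_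
        rw [totalDegree_C, totalDegree_X]
      exact (le_totalDegree hγ).trans h1
    · have h1 := coefIn_det (k := κ) (V := (1 : Submodule κ Ω)) P fun i q => by
        rw [hPe]
        refine CoefIn.sum _ _ fun j _ => ?_
        intro γ
        rw [coeff_C_mul, coeff_X]
        split_ifs
        · rw [mul_one, ← zsmul_one]
          exact zsmul_mem (Submodule.one_le.1 le_rfl) _
        · rw [mul_zero]
          exact Submodule.zero_mem _
      rwa [one_pow] at h1
    · rw [hev G]
      obtain ⟨v, hv, q₀, hq₀⟩ := Fintype.not_linearIndependent_iff.1 hdep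
      have h1 : (mat G).mulVec v = 0 := by
        funext i
        have h2 := congrFun hv (ι i)
        rw [Finset.sum_apply, Pi.zero_apply] at h2
        rw [Pi.zero_apply, ← h2, Matrix.mulVec, dotProduct]
        refine Finset.sum_congr rfl fun q _ => ?_
        rw [Pi.smul_apply, smul_eq_mul, mul_comm]
        rfl
      by_contra h4
      exact hq₀ (congrFun (Matrix.eq_zero_of_mulVec_eq_zero h4 h1) q₀)
  have h6 := hev G₁
  rw [hP0, map_zero] at h6
  have h7 : mat G₁ = 1 := by
    ext i q
    change (∑ j, ((c q j : ℤ) : Ω) • G₁ j) (ι i) = _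
    rw [hG1, Matrix.one_apply, Pi.single_apply]
    by_cases h : i = q
    · rw [if_pos h, if_pos (by rw [h])]
    · rw [if_neg h, if_neg fun h' => h (ι.injective h')]
  rw [h7, Matrix.det_one] at h6
  exact zero_ne_one h6

end

open Pool.Agent.W245.PB (IsIwasawaLog QbarP)
open Pool.Agent.W254.PA (LtE logs)

variable {p : ℕ} [hp : Fact p.Prime] {L : PadicAlgCl p → PadicAlgCl p}

/-- rank one tensors, from linear independence -/
theorem rankOneFree_of_li {κ Ω I : Type} [Field κ] [Field Ω] [Algebra κ Ω] [Fintype I] {l n N : ℕ}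
    (w : I → Fin N → Ω) (hw : LinearIndependent κ (fun s : I × Fin N => w s.1 s.2))
    (e : Fin n ≃ Fin l × I) :
    RankOneFree (k := κ) (fun u => (e u).1) (fun u x => w (e u).2 x) := by
  classical
  intro i q g' hq h0
  have h3 : ∑ s : I × Fin N, (q (e.symm (i, s.1)) * g' s.2) • w s.1 s.2 = 0 := by
    rw [← h0, ← e.symm.sum_comp, Fintype.sum_prod_type, Fintype.sum_prod_type,
      Finset.sum_eq_single i]
    · simp only [Equiv.apply_symm_apply, Finset.smul_sum, mul_smul]
    · intro i' _ hi'
      refine Finset.sum_eq_zero fun r _ => ?_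
      rw [hq (e.symm (i', r)) (by
        change (e (e.symm (i', r))).1 ≠ i
        rw [Equiv.apply_symm_apply]
        exact hi'), zero_smul]
    · intro h; exact absurd (Finset.mem_univ _) h
  have h4 := Fintype.linearIndependent_iff.1 hw (fun s => q (e.symm (i, s.1)) * g' s.2) h3
  by_cases hg : g' = 0
  · exact Or.inr hg
  · left
    obtain ⟨x, hx⟩ := Function.ne_iff.1 hg
    funext u
    by_cases hu : (e u).1 = i
    · have h5 := (mul_eq_zero.1 (h4 ((e u).2, x))).resolve_right hx
      have h8 : e.symm (i, (e u).2) = u := by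
        rw [← hu, Prod.mk.eta, Equiv.symm_apply_apply]
      simp only [h8] at h5
      exact h5
    · exact hq u hu

/-- **Almost all tuples are generic, `p`-adic version.** -/
theorem count_padic (hL : IsIwasawaLog p L) (n l N : ℕ) : ∃ C : ℕ, ∀ (I : Type) [Fintype I],
    Fintype.card I = n → ∀ w : I → Fin N → PadicAlgCl p, (∀ r x, w r x ∈ LtE (logs L)) →
    LinearIndependent (QbarP p) (fun s : I × Fin N => w s.1 s.2) →
    ∀ T : Finset ℤ, T.Nonempty → ∀ F : Finset (Fin l → Fin N → ℤ),
    (∀ m ∈ F, (∀ i x, m i x ∈ T) ∧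
      ¬ ∀ t ≤ n, ∀ c : Fin t → Fin l → ℤ,
        LinearIndependent (PadicAlgCl p) (fun q j => ((c q j : ℤ) : PadicAlgCl p)) →
        LinearIndependent (PadicAlgCl p) (fun q =>
          ∑ j, ((c q j : ℤ) : PadicAlgCl p) • fun r => ∑ x, (m j x : PadicAlgCl p) * w r x)) →
    F.card ≤ C * T.card ^ ((l - 1) * N + ((l * n + n).choose n + (l * n) ^ 2)) := by
  classical
  obtain ⟨C, hC⟩ := tied_count (QbarP p) (PadicAlgCl p) (l * n) l N 1 0
    (fun u => (finProdFinEquiv.symm u).1)
    (simplexS (l * n) n) (lower_simplexS _ _) (LtE (logs L)) (setup_padic hL).hyp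
  refine ⟨C, fun I _ hcard w hwL hw T hT F hF => ?_⟩
  let eI : Fin n ≃ I := (finCongr hcard.symm).trans (Fintype.equivFin _).symm
  let e : Fin (l * n) ≃ Fin l × I :=
    finProdFinEquiv.symm.trans ((Equiv.refl (Fin l)).prodCongr eI)
  let cast : (Fin l → Fin N → ℤ) → (Fin l × Fin N → QbarP p) := fun m s => (m s.1 s.2 : QbarP p)
  have hcast : Function.Injective cast := by
    intro m m' h
    funext i x
    have h1 : ((m i x : ℤ) : QbarP p) = ((m' i x : ℤ) : QbarP p) := congrFun h (i, x)
    exact_mod_cast h1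
  have hT' : (T.image (fun z : ℤ => (z : QbarP p))).Nonempty := hT.image _
  have hfd : FiniteDimensional (QbarP p) (1 : Submodule (QbarP p) (PadicAlgCl p)) := by
    rw [Submodule.one_eq_span]
    exact FiniteDimensional.span_of_finite _ (Set.finite_singleton _)
  have hfr : finrank (QbarP p) (1 : Submodule (QbarP p) (PadicAlgCl p)) ≤ 1 := by
    rw [Submodule.one_eq_span]
    exact (finrank_span_singleton (one_ne_zero)).le
  have h1 := hC 1 hfd hfr 0 (fun u x => w (e u).2 x) (fun u x => hwL _ _)
    (rankOneFree_of_li w hw e) (T.image (fun z : ℤ => (z : QbarP p))) hT' (F.image cast) (by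
      intro b hb
      obtain ⟨m, hm, rfl⟩ := Finset.mem_image.1 hb
      refine ⟨fun y => Finset.mem_image.2 ⟨_, (hF m hm).1 y.1 y.2, rfl⟩, fun hN => ?_⟩
      apply (hF m hm).2
      intro t ht c hc
      refine forms_indep_field (κ := QbarP p) e
        (fun j r => ∑ x, (m j x : PadicAlgCl p) * w r x) ?_ (by rw [hcard]; exact ht) c hc
      intro P hP hPW h0
      refine hN P ?_ hPW ?_
      · intro γ hγ
        have := hP hγ
        rw [mem_simplexS] at this ⊢
        exact this.trans ht
      · rw [← h0]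
        congr 1
        congr 1
        funext u
        rw [Pi.zero_apply, zero_add]
        refine Finset.sum_congr rfl fun x _ => ?_
        rw [Algebra.smul_def]
        congr 1)
  rw [Finset.card_image_of_injective _ hcast] at h1
  have h2 : (T.image (fun z : ℤ => (z : QbarP p))).card = T.card :=
    Finset.card_image_of_injective _ Int.cast_injective
  rw [h2] at h1
  refine h1.trans (Nat.mul_le_mul_left _ (Nat.pow_le_pow_right (Finset.card_pos.2 hT) ?_))
  have h3 := card_simplexS (l * n) n
  have h5 : l * n * (l * n + 0) = (l * n) ^ 2 := by ring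
  omega

end Pool.Agent.R350
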