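import Pool.Agent.R350.IE
import Pool.Agent.H440R3.Defs

/-!
# Points of `R_{K/ℚ}(G_m)` over `ℚ_p`
-/

set_option autoImplicit false

namespace Pool.Agent.R350

open Module Filter Topology
open scoped TensorProduct
open Pool.Agent.W245.PB (IsIwasawaLog QbarP)
open Pool.Agent.W254.PA (LtE logs)

variable {p : ℕ} [hp : Fact p.Prime] {L : PadicAlgCl p → PadicAlgCl p}

/-- an element with logarithm `0` is, up to powers of `p`, a root of unity -/
theorem root_of_log_zero (hL : IsIwasawaLog p L) {x : PadicAlgCl p} (hx : x ≠ 0) (h : L x = 0) :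
    ∃ (m : ℕ) (r : ℤ), 0 < m ∧ x ^ m = (p : PadicAlgCl p) ^ r := by
  obtain ⟨m, r, hm, hn⟩ := Pool.Agent.W245.PB.exists_near hx
  have hp0 : (p : PadicAlgCl p) ≠ 0 := Nat.cast_ne_zero.2 hp.out.ne_zero
  have h1 : L (x ^ m * (p : PadicAlgCl p) ^ r) = 0 := by
    rw [hL.mul _ _ (pow_ne_zero _ hx) (zpow_ne_zero _ hp0), hL.pow hx, hL.zpow hp0, h, hL.prime,
      mul_zero, mul_zero, add_zero]
  have h2 := hL.eq_one hn h1
  refine ⟨m, -r, hm, ?_⟩
  rw [zpow_neg]
  exact eq_inv_of_mul_eq_one_left h2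

/-- Brumer's theorem for independent conjugates -/
theorem padic_indep (hL : IsIwasawaLog p L) {K : Type} [Field K] [NumberField K] {N : ℕ}
    (γ : Fin N → Kˣ)
    (hγ : ∀ (e : (K →+* PadicAlgCl p) → Fin N → ℤ) (a : ℤ),
      ∏ σ, ∏ x, σ (γ x : K) ^ e σ x = (p : PadicAlgCl p) ^ a → e = 0) :
    LinearIndependent (QbarP p)
      (fun s : (K →+* PadicAlgCl p) × Fin N => L (s.1 (γ s.2 : K))) := by
  classical
  have hne : ∀ (σ : K →+* PadicAlgCl p) (x : Fin N), σ (γ x : K) ≠ 0 := fun σ x h =>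
    (γ x).ne_zero (σ.injective (by rw [h, map_zero]))
  refine hL.indep_of_indep _ (fun s => ⟨s.1 (γ s.2 : K), hne _ _, ?_, rfl⟩) ?_
  · have h2 : IsAlgebraic ℚ (γ s.2 : K) := Algebra.IsAlgebraic.isAlgebraic _
    exact h2.algHom (s.1.toRatAlgHom)
  · apply Pool.Agent.W245.PB.linearIndependent_of_int
    intro c hc
    set z : PadicAlgCl p := ∏ s : (K →+* PadicAlgCl p) × Fin N, s.1 (γ s.2 : K) ^ c s with hz
    have hz0 : z ≠ 0 := Finset.prod_ne_zero_iff.2 fun s _ => zpow_ne_zero _ (hne _ _)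
    have hLz : L z = 0 := by
      rw [hz, hL.prod _ _ (fun s _ => zpow_ne_zero _ (hne _ _)), ← hc]
      exact Finset.sum_congr rfl fun s _ => hL.zpow (hne _ _) _
    obtain ⟨m, r, hm, hr⟩ := root_of_log_zero hL hz0 hLz
    have h1 := hγ (fun σ x => m * c (σ, x)) r (by
      rw [← hr, hz, Fintype.prod_prod_type, ← Finset.prod_pow]
      refine Finset.prod_congr rfl fun σ _ => ?_
      rw [← Finset.prod_pow]
      refine Finset.prod_congr rfl fun x _ => ?_
      rw [mul_comm, zpow_mul, zpow_natCast])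
    intro s
    have h2 := congrFun (congrFun h1 s.1) s.2
    simp only [Pi.zero_apply, mul_eq_zero, Nat.cast_eq_zero] at h2
    exact h2.resolve_left hm.ne'

section

variable {K : Type} [Field K] [NumberField K]

/-- the homomorphism of `ℚ_p ⊗ K` given by an embedding -/
noncomputable def embP (σ : K →+* PadicAlgCl p) :
    Pool.Agent.H440R3.Kp p K →ₐ[ℚ_[p]] PadicAlgCl p :=
  Algebra.TensorProduct.lift (Algebra.ofId ℚ_[p] (PadicAlgCl p)) (σ.toRatAlgHom)
    (fun _ _ => mul_comm _ _)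

theorem embP_incl (σ : K →+* PadicAlgCl p) (x : Kˣ) :
    embP σ ((Pool.Agent.H440R3.incl p K x : Pool.Agent.H440R3.QpPoints p K) :
      Pool.Agent.H440R3.Kp p K) = σ (x : K) := by
  change embP σ ((1 : ℚ_[p]) ⊗ₜ[ℚ] (x : K)) = _
  rw [embP, Algebra.TensorProduct.lift_tmul, map_one, one_mul]
  rfl

theorem embP_cont (σ : K →+* PadicAlgCl p) : Continuous (embP (p := p) σ) :=
  IsModuleTopology.continuous_of_linearMap (embP σ).toLinearMap

/-- the logarithm is continuous at `1` -/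
theorem log_tendsto (hL : IsIwasawaLog p L) {u : ℕ → PadicAlgCl p}
    (hu : Tendsto u atTop (𝓝 1)) : Tendsto (fun k => L (u k)) atTop (𝓝 0) := by
  have hp2 : (2 : ℝ) ≤ p := by exact_mod_cast hp.out.two_le
  have hp3 : (0 : ℝ) < (p : ℝ) ^ 3 := by positivity
  have h1 : Tendsto (fun k => ‖u k - 1‖) atTop (𝓝 0) := by
    have h2 := (hu.sub_const 1).norm
    rwa [sub_self, norm_zero] at h2
  have h2 : ∀ᶠ k in atTop, ‖u k - 1‖ * (p : ℝ) ^ 3 ≤ 1 := by
    have h3 : ∀ᶠ k in atTop, ‖u k - 1‖ < ((p : ℝ) ^ 3)⁻¹ :=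
      h1.eventually_lt_const (by positivity)
    refine h3.mono fun k hk => ?_
    rw [← le_div_iff₀ hp3, one_div]
    exact hk.le
  refine squeeze_zero_norm' (h2.mono fun k hk => ?_) h1
  have h3 := hL.approx hk
  rw [add_sub_cancel] at h3
  have h4 : L (u k) = (L (u k) - (u k - 1)) + (u k - 1) := by ring
  have h5 : ‖L (u k) - (u k - 1)‖ ≤ ‖u k - 1‖ := by
    refine h3.trans ?_
    have h6 : p * ‖u k - 1‖ ≤ 1 := by
      refine le_trans ?_ hk
      rw [mul_comm]
      gcongr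
      calc (p : ℝ) = (p : ℝ) ^ 1 := (pow_one _).symm
        _ ≤ (p : ℝ) ^ 3 := pow_le_pow_right₀ (by linarith) (by norm_num)
    calc p * ‖u k - 1‖ ^ 2 = (p * ‖u k - 1‖) * ‖u k - 1‖ := by ring
      _ ≤ 1 * ‖u k - 1‖ := by gcongr
      _ = ‖u k - 1‖ := one_mul _
  rw [h4]
  exact (IsUltrametricDist.norm_add_le_max _ _).trans (max_le h5 le_rfl)

theorem norm_int (z : ℤ) : ‖((z : ℤ) : PadicAlgCl p)‖ = ‖((z : ℤ) : ℤ_[p])‖ := by
  have h1 : ((z : ℤ) : PadicAlgCl p) = algebraMap ℚ_[p] (PadicAlgCl p) ((z : ℤ) : ℚ_[p]) := by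
    rw [map_intCast]
  rw [h1]
  have h2 := PadicAlgCl.norm_extends p ((z : ℤ) : ℚ_[p])
  rw [h2, PadicInt.norm_def]
  push_cast
  rfl

/-- **Independence over `ℤ_p` from independent logarithms.** -/
theorem padic_tendsto (hL : IsIwasawaLog p L) {s : ℕ} (y : Fin s → Kˣ)
    (hy : LinearIndependent (PadicAlgCl p) (fun (i : Fin s) (σ : K →+* PadicAlgCl p) =>
      L (σ (y i : K)))) (a : ℕ → Fin s → ℤ)
    (ha : Tendsto (fun k => Pool.Agent.H440R3.incl p K (∏ i, y i ^ a k i)) atTop (𝓝 1)) (i : Fin s) :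
    Tendsto (fun k => ((a k i : ℤ) : ℤ_[p])) atTop (𝓝 0) := by
  classical
  -- the logarithms tend to zero
  have h1 : ∀ σ : K →+* PadicAlgCl p,
      Tendsto (fun k => ∑ j, ((a k j : ℤ) : PadicAlgCl p) * L (σ (y j : K))) atTop (𝓝 0) := by
    intro σ
    have h2 : Tendsto (fun k => embP (p := p) σ
        ((Pool.Agent.H440R3.incl p K (∏ i, y i ^ a k i) : Pool.Agent.H440R3.QpPoints p K) :
          Pool.Agent.H440R3.Kp p K)) atTop (𝓝 1) := by
      have h3 : Tendsto (fun k => ((Pool.Agent.H440R3.incl p K (∏ i, y i ^ a k i) :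
          Pool.Agent.H440R3.QpPoints p K) : Pool.Agent.H440R3.Kp p K)) atTop (𝓝 1) := by
        have h4 := (Units.continuous_val (M := Pool.Agent.H440R3.Kp p K)).tendsto 1
        rw [Units.val_one] at h4
        exact h4.comp ha
      have h4 := (embP_cont (p := p) σ).tendsto 1
      rw [map_one] at h4
      exact h4.comp h3
    have h3 := log_tendsto hL h2
    refine h3.congr fun k => ?_
    rw [embP_incl]
    have hne : ∀ j, σ (y j : K) ≠ 0 := fun j h =>
      (y j).ne_zero (σ.injective (by rw [h, map_zero]))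
    have h4 : σ ((∏ i, y i ^ a k i : Kˣ) : K) = ∏ j, σ (y j : K) ^ a k j := by
      rw [Units.coe_prod, map_prod]
      refine Finset.prod_congr rfl fun j _ => ?_
      rw [Units.val_zpow_eq_zpow_val, map_zpow₀]
    rw [h4, hL.prod _ _ (fun j _ => zpow_ne_zero _ (hne j))]
    exact Finset.sum_congr rfl fun j _ => hL.zpow (hne j) _
  -- a left inverse
  let V : (Fin s → PadicAlgCl p) →ₗ[PadicAlgCl p] ((K →+* PadicAlgCl p) → PadicAlgCl p) :=
    Fintype.linearCombination (PadicAlgCl p) (fun (i : Fin s) (σ : K →+* PadicAlgCl p) =>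
      L (σ (y i : K)))
  have hV : ∀ v σ, V v σ = ∑ j, v j * L (σ (y j : K)) := by
    intro v σ
    have h2 : V v = ∑ j, v j • (fun σ : K →+* PadicAlgCl p => L (σ (y j : K))) :=
      Fintype.linearCombination_apply (PadicAlgCl p) _ v
    rw [h2, Finset.sum_apply]
    rfl
  have hker : LinearMap.ker V = ⊥ := by
    rw [LinearMap.ker_eq_bot']
    intro v hv
    funext j
    have h2 : ∑ j, v j • (fun σ : K →+* PadicAlgCl p => L (σ (y j : K))) = 0 := by
      rw [← hv]
      exact (Fintype.linearCombination_apply (PadicAlgCl p) _ v).symm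
    exact Fintype.linearIndependent_iff.1 hy v h2 j
  obtain ⟨R, hR⟩ := LinearMap.exists_leftInverse_of_injective V hker
  have h2 : ∀ k, ((a k i : ℤ) : PadicAlgCl p) =
      ∑ σ, (R (Pi.single σ 1) i) * ∑ j, ((a k j : ℤ) : PadicAlgCl p) * L (σ (y j : K)) := by
    intro k
    have h3 := congrFun (LinearMap.congr_fun hR (fun j => ((a k j : ℤ) : PadicAlgCl p))) i
    rw [LinearMap.comp_apply, LinearMap.id_apply] at h3
    rw [← h3]
    conv_lhs => rw [pi_eq_sum_univ' (V fun j => ((a k j : ℤ) : PadicAlgCl p))]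
    rw [map_sum, Finset.sum_apply]
    refine Finset.sum_congr rfl fun σ _ => ?_
    rw [map_smul, Pi.smul_apply, smul_eq_mul, hV, mul_comm]
  have h3 : Tendsto (fun k => ((a k i : ℤ) : PadicAlgCl p)) atTop (𝓝 0) := by
    have h4 : Tendsto (fun k => ∑ σ, (R (Pi.single σ 1) i) *
        ∑ j, ((a k j : ℤ) : PadicAlgCl p) * L (σ (y j : K))) atTop
        (𝓝 (∑ σ : K →+* PadicAlgCl p, (R (Pi.single σ 1) i) * 0)) :=
      tendsto_finsetSum _ fun σ _ => (h1 σ).const_mul _
    simp only [mul_zero, Finset.sum_const_zero] at h4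
    exact h4.congr fun k => (h2 k).symm
  rw [tendsto_zero_iff_norm_tendsto_zero] at h3 ⊢
  exact h3.congr fun k => norm_int _

end

end Pool.Agent.R350
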