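import Pool.Agent.R350.IC

/-!
# Norm one tori: generic vectors in the hyperplane of trace zero
-/

set_option autoImplicit false
set_option linter.unusedSectionVars false

namespace Pool.Agent.R350

open Module Topology Filter NumberField Pool.Agent.W54.CL
open Pool.Agent.H301R2.SSE (QB mem_QB Lt Lt_log Lt_one Lt_mul)

/-- **Almost all tuples are generic**, for vectors in any space with coordinates. -/
theorem count_gen (n l N : ℕ) : ∃ C : ℕ, ∀ (I β E : Type) [Fintype I] [Fintype β] [AddCommGroup E]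
    [Module ℝ E] (crd : E ≃ₗ[ℝ] (I → ℝ)) (ω : β → E), Fintype.card I = n →
    LinearIndependent ℝ ω → (∀ b r, ((crd (ω b) r : ℝ) : ℂ) ∈ WPi) → ∀ g : Fin N → E,
    (∀ x r, ((crd (g x) r : ℝ) : ℂ) ∈ Lt) →
    LinearIndependent QB (fun s : I × Fin N => ((crd (g s.2) s.1 : ℝ) : ℂ)) →
    ∀ T : Finset ℤ, T.Nonempty → ∀ F : Finset (Fin l → Fin N → ℤ),
    (∀ m ∈ F, (∀ i x, m i x ∈ T) ∧
      ¬ GenVec (fun i => ∑ x, (m i x : ℝ) • g x) ω n) →
    F.card ≤ C * T.card ^ ((l - 1) * N + (2 ^ n * (l * n + n).choose n + (l * n) ^ 2)) := by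
  classical
  obtain ⟨C, hC⟩ := tied_count QB ℂ (l * n) l N (2 ^ n) 0 (fun u => (finProdFinEquiv.symm u).1)
    (simplexS (l * n) n) (lower_simplexS _ _) Lt setup_complex.hyp
  refine ⟨C, fun I β E _ _ _ _ crd ω hcard hω hωW g hg hw T hT F hF => ?_⟩
  let eI : Fin n ≃ I := (finCongr hcard.symm).trans (Fintype.equivFin _).symm
  let e : Fin (l * n) ≃ Fin l × I :=
    finProdFinEquiv.symm.trans ((Equiv.refl (Fin l)).prodCongr eI)
  let cast : (Fin l → Fin N → ℤ) → (Fin l × Fin N → QB) := fun m s => (m s.1 s.2 : QB)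
  have hcast : Function.Injective cast := by
    intro m m' h
    funext i x
    have h1 : ((m i x : ℤ) : QB) = ((m' i x : ℤ) : QB) := congrFun h (i, x)
    exact_mod_cast h1
  have hT' : (T.image (fun z : ℤ => (z : QB))).Nonempty := hT.image _
  have hrof : RankOneFree (k := QB) (fun u => (e u).1)
      (fun u x => ((crd (g x) (e u).2 : ℝ) : ℂ)) := by
    intro i q g' hq h0
    have h3 : ∑ s : I × Fin N, (q (e.symm (i, s.1)) * g' s.2) • ((crd (g s.2) s.1 : ℝ) : ℂ) = 0 := by
      rw [← h0, ← e.symm.sum_comp, Fintype.sum_prod_type, Fintype.sum_prod_type,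
        Finset.sum_eq_single i]
      · simp only [Equiv.apply_symm_apply, Finset.smul_sum, mul_smul]
      · intro i' _ hi'
        refine Finset.sum_eq_zero fun r _ => ?_
        rw [hq (e.symm (i', r)) (by
          change (e (e.symm (i', r))).1 ≠ i
          rw [Equiv.apply_symm_apply]
          exact hi'), zero_smul]
      · intro h; exact absurd (Finset.mem_univ _) h
    have h4 := Fintype.linearIndependent_iff.1 hw (fun s => q (e.symm (i, s.1)) * g' s.2) h3
    by_cases hg' : g' = 0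
    · exact Or.inr hg'
    · left
      obtain ⟨x, hx⟩ := Function.ne_iff.1 hg'
      funext u
      by_cases hu : (e u).1 = i
      · have h5 := (mul_eq_zero.1 (h4 ((e u).2, x))).resolve_right hx
        have h8 : e.symm (i, (e u).2) = u := by
          rw [← hu, Prod.mk.eta, Equiv.symm_apply_apply]
        simp only [h8] at h5
        exact h5
      · exact hq u hu
  have h1 := hC (WPi ^ n) (WPi_pow n).1 (WPi_pow n).2 0
    (fun u x => ((crd (g x) (e u).2 : ℝ) : ℂ)) (fun u x => hg _ _)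
    hrof (T.image (fun z : ℤ => (z : QB))) hT' (F.image cast) (by
      intro b hb
      obtain ⟨m, hm, rfl⟩ := Finset.mem_image.1 hb
      refine ⟨fun y => Finset.mem_image.2 ⟨_, (hF m hm).1 y.1 y.2, rfl⟩, fun hN => ?_⟩
      apply (hF m hm).2
      intro t ht c hc
      refine forms_indep crd e WPi WPi_one ω hω (fun b r => hωW b r)
        (fun i => ∑ x, (m i x : ℝ) • g x) ?_ (by rw [hcard]; exact ht) c hc
      intro P hP hPW h0
      refine hN P ?_ ?_ ?_
      · intro γ hγ
        have := hP hγ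
        rw [mem_simplexS] at this ⊢
        exact this.trans ht
      · exact CoefIn.mono (le_pow_of_one WPi_one ht) hPW
      · rw [← h0]
        congr 1
        congr 1
        funext u
        rw [Pi.zero_apply, zero_add, map_sum, Finset.sum_apply, Complex.ofReal_sum]
        refine Finset.sum_congr rfl fun x _ => ?_
        rw [map_smul, Pi.smul_apply, smul_eq_mul]
        push_cast
        change ((m (finProdFinEquiv.symm u).1 x : QB) : ℂ) * _ = _
        push_cast
        rfl)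
  rw [Finset.card_image_of_injective _ hcast] at h1
  have h2 : (T.image (fun z : ℤ => (z : QB))).card = T.card :=
    Finset.card_image_of_injective _ Int.cast_injective
  rw [h2] at h1
  refine h1.trans (Nat.mul_le_mul_left _ (Nat.pow_le_pow_right (Finset.card_pos.2 hT) ?_))
  have h3 := card_simplexS (l * n) n
  have h4 : 2 ^ n * (simplexS (l * n) n).card ≤ 2 ^ n * (l * n + n).choose n :=
    Nat.mul_le_mul_left _ h3
  have h5 : l * n * (l * n + 0) = (l * n) ^ 2 := by ring
  omega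

section

variable {A B : Type} [Fintype A] [Fintype B] [DecidableEq B]

/-- from coordinates to logarithms of conjugates -/
noncomputable def toCw (p : A ⊕ B ⊕ B → QB) : A ⊕ B ⊕ B → QB :=
  Sum.elim (fun a => p (Sum.inl a)) (Sum.elim
    (fun b => (p (Sum.inr (Sum.inl b)) -
      (⟨Complex.I, mem_QB.2 alg_I⟩ : QB) * p (Sum.inr (Sum.inr b))) / 2)
    (fun b => (p (Sum.inr (Sum.inl b)) +
      (⟨Complex.I, mem_QB.2 alg_I⟩ : QB) * p (Sum.inr (Sum.inr b))) / 2))

theorem toCw_sum (p : A ⊕ B ⊕ B → QB) (x : (A → ℝ) × (B → ℂ)) :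
    ∑ r, (p r : ℂ) * ((crd A B x r : ℝ) : ℂ) = ∑ r, (toCw p r : ℂ) * cw r x := by
  simp only [Fintype.sum_sum_type, Sum.elim_inl, Sum.elim_inr, cw, toCw]
  congr 1
  rw [← Finset.sum_add_distrib, ← Finset.sum_add_distrib]
  refine Finset.sum_congr rfl fun b _ => ?_
  have h1 : crd A B x (Sum.inr (Sum.inl b)) = (x.2 b).re := rfl
  have h2 : crd A B x (Sum.inr (Sum.inr b)) = (x.2 b).im := rfl
  rw [h1, h2, re_cw, im_cw]
  push_cast
  change _ = ((p (Sum.inr (Sum.inl b)) : ℂ) - Complex.I * (p (Sum.inr (Sum.inr b)) : ℂ)) / 2 * _ +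
    ((p (Sum.inr (Sum.inl b)) : ℂ) + Complex.I * (p (Sum.inr (Sum.inr b)) : ℂ)) / 2 * _
  ring

theorem toCw_zero {p : A ⊕ B ⊕ B → QB} (h : ∀ r, toCw p r = 0) : p = 0 := by
  set i : QB := ⟨Complex.I, mem_QB.2 alg_I⟩ with hi'
  have hi : i ≠ 0 := by
    intro h0
    exact Complex.I_ne_zero (congrArg Subtype.val h0)
  have ha : ∀ a, p (Sum.inl a) = 0 := fun a => h (Sum.inl a)
  have h1 : ∀ b, (p (Sum.inr (Sum.inl b)) - i * p (Sum.inr (Sum.inr b))) / 2 = 0 :=
    fun b => h (Sum.inr (Sum.inl b))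
  have h2 : ∀ b, (p (Sum.inr (Sum.inl b)) + i * p (Sum.inr (Sum.inr b))) / 2 = 0 :=
    fun b => h (Sum.inr (Sum.inr b))
  funext r
  rcases r with a | b | b
  · exact ha a
  · have h3 := h1 b
    have h4 := h2 b
    change p (Sum.inr (Sum.inl b)) = 0
    linear_combination h3 + h4
  · have h3 := h1 b
    have h4 := h2 b
    change p (Sum.inr (Sum.inr b)) = 0
    apply mul_left_cancel₀ hi
    linear_combination h4 - h3

/-- the coefficients of the trace -/
noncomputable def trv : A ⊕ B ⊕ B → QB := Sum.elim (fun _ => 1) (Sum.elim (fun _ => 2) (fun _ => 0))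

theorem toCw_sub (p : A ⊕ B ⊕ B → QB) (c : QB) (r : A ⊕ B ⊕ B) :
    toCw (fun r => p r - c * trv r) r = toCw p r - c := by
  rcases r with a | b | b
  · simp only [toCw, trv, Sum.elim_inl, mul_one]
  · simp only [toCw, trv, Sum.elim_inl, Sum.elim_inr]
    ring
  · simp only [toCw, trv, Sum.elim_inl, Sum.elim_inr]
    ring

/-- independence of the coordinates different from `r₀` -/
theorem crd_indep_of_rel {N : ℕ} (g : Fin N → (A → ℝ) × (B → ℂ)) (r₀ : A ⊕ B ⊕ B)
    (hr₀ : (trv r₀ : QB) ≠ 0)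
    (hrel : ∀ c : (A ⊕ B ⊕ B) × Fin N → QB, ∑ s, c s • cw s.1 (g s.2) = 0 →
      ∀ x r r', c (r, x) = c (r', x)) :
    LinearIndependent QB (fun s : {r : A ⊕ B ⊕ B // r ≠ r₀} × Fin N =>
      ((crd A B (g s.2) s.1.1 : ℝ) : ℂ)) := by
  classical
  rw [Fintype.linearIndependent_iff]
  intro c hc
  let p : Fin N → (A ⊕ B ⊕ B) → QB := fun x r => if h : r ≠ r₀ then c (⟨r, h⟩, x) else 0
  have h1 : ∑ s : (A ⊕ B ⊕ B) × Fin N, (toCw (p s.2) s.1) • cw s.1 (g s.2) = 0 := by
    rw [← hc, Fintype.sum_prod_type_right, Fintype.sum_prod_type_right]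
    refine Finset.sum_congr rfl fun x _ => ?_
    have h2 := toCw_sum (p x) (g x)
    have h3 : ∑ r, (toCw (p x) r) • cw r (g x) = ∑ r, (toCw (p x) r : ℂ) * cw r (g x) := rfl
    rw [h3, ← h2]
    have h4 : ∑ r, (p x r : ℂ) * ((crd A B (g x) r : ℝ) : ℂ) =
        ∑ r ∈ Finset.univ.filter (fun r => r ≠ r₀), (p x r : ℂ) * ((crd A B (g x) r : ℝ) : ℂ) := by
      rw [Finset.sum_filter]
      refine Finset.sum_congr rfl fun r _ => ?_
      split_ifs with h
      · rfl
      · have : p x r = 0 := dif_neg h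
        rw [this, ZeroMemClass.coe_zero, zero_mul]
    rw [h4, ← Finset.sum_subtype_eq_sum_filter]
    rw [Finset.subtype_univ]
    refine Finset.sum_congr rfl fun r _ => ?_
    have : p x r.1 = c (r, x) := dif_pos r.2
    rw [this]
    rfl
  have h2 := hrel (fun s => toCw (p s.2) s.1) h1
  rintro ⟨r, x⟩
  have h3 : (fun r => p x r - toCw (p x) r₀ * trv r) = 0 := by
    apply toCw_zero
    intro r
    rw [toCw_sub]
    exact sub_eq_zero.2 (h2 x r r₀)
  have h4 := congrFun h3 r₀
  have h5 : p x r₀ = 0 := dif_neg (not_not.2 rfl)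
  simp only [h5, Pi.zero_apply, zero_sub, neg_eq_zero, mul_eq_zero] at h4
  have h6 := h4.resolve_right hr₀
  have h7 := congrFun h3 r.1
  simp only [h6, zero_mul, sub_zero, Pi.zero_apply] at h7
  have h8 : p x r.1 = c (r, x) := dif_pos r.2
  rw [← h8]
  exact h7

/-- the trace -/
noncomputable def trl (A B : Type) [Fintype A] [Fintype B] : ((A → ℝ) × (B → ℂ)) →ₗ[ℝ] ℝ where
  toFun x := ∑ a, x.1 a + 2 * ∑ b, (x.2 b).re
  map_add' x y := by
    simp only [Prod.fst_add, Prod.snd_add, Pi.add_apply, Complex.add_re, Finset.sum_add_distrib]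
    ring
  map_smul' c x := by
    simp only [Prod.smul_fst, Prod.smul_snd, Pi.smul_apply, smul_eq_mul, Complex.real_smul,
      RingHom.id_apply, Complex.mul_re, Complex.ofReal_re, Complex.ofReal_im, zero_mul, sub_zero,
      ← Finset.mul_sum]
    ring

theorem trl_cw (x : (A → ℝ) × (B → ℂ)) : ((trl A B x : ℝ) : ℂ) = ∑ r, cw r x := by
  rw [Fintype.sum_sum_type, Fintype.sum_sum_type]
  simp only [cw, Sum.elim_inl, Sum.elim_inr]
  change ((∑ a, x.1 a + 2 * ∑ b, (x.2 b).re : ℝ) : ℂ) = _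
  push_cast
  congr 1
  rw [Finset.mul_sum, ← Finset.sum_add_distrib]
  refine Finset.sum_congr rfl fun b _ => ?_
  rw [re_cw]
  ring

theorem trl_wv (b : B) : trl A B (wv A b) = 0 := by
  change ∑ a : A, (0 : ℝ) + 2 * ∑ b', ((Pi.single b (2 * Real.pi * Complex.I) : B → ℂ) b').re = 0
  have h1 : ∀ b', ((Pi.single b (2 * Real.pi * Complex.I) : B → ℂ) b').re = 0 := by
    intro b'
    by_cases h : b' = b
    · subst h
      rw [Pi.single_eq_same]
      simp
    · rw [Pi.single_eq_of_ne h]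
      simp
  simp only [h1]
  simp

/-- a coordinate in which the trace can be solved -/
theorem exists_r₀ [h : Nonempty (A ⊕ B)] : ∃ r₀ : A ⊕ B ⊕ B, (trv r₀ : QB) ≠ 0 := by
  obtain ⟨a | b⟩ := h
  · exact ⟨Sum.inl a, one_ne_zero⟩
  · exact ⟨Sum.inr (Sum.inl b), two_ne_zero⟩

/-- real coefficients of the trace -/
noncomputable def trr : A ⊕ B ⊕ B → ℝ := Sum.elim (fun _ => 1) (Sum.elim (fun _ => 2) (fun _ => 0))

theorem trl_crd (x : (A → ℝ) × (B → ℂ)) : trl A B x = ∑ r, trr r * crd A B x r := by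
  rw [Fintype.sum_sum_type, Fintype.sum_sum_type]
  simp only [trr, Sum.elim_inl, Sum.elim_inr, one_mul, zero_mul, Finset.sum_const_zero, add_zero,
    ← Finset.mul_sum]
  rfl

theorem trr_ne {r₀ : A ⊕ B ⊕ B} (h : (trv r₀ : QB) ≠ 0) : trr r₀ ≠ 0 := by
  rcases r₀ with a | b | b
  · exact one_ne_zero
  · exact two_ne_zero
  · exact absurd rfl h

/-- coordinates on the hyperplane of trace zero -/
theorem exists_crd (r₀ : A ⊕ B ⊕ B) (hr₀ : (trv r₀ : QB) ≠ 0) :
    ∃ e : LinearMap.ker (trl A B) ≃ₗ[ℝ] ({r : A ⊕ B ⊕ B // r ≠ r₀} → ℝ),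
      ∀ x r, e x r = crd A B (x : (A → ℝ) × (B → ℂ)) r.1 := by
  classical
  have hr := trr_ne hr₀
  let f : LinearMap.ker (trl A B) →ₗ[ℝ] ({r : A ⊕ B ⊕ B // r ≠ r₀} → ℝ) :=
    (LinearMap.funLeft ℝ ℝ (Subtype.val : {r : A ⊕ B ⊕ B // r ≠ r₀} → A ⊕ B ⊕ B)).comp
      ((crd A B).toLinearMap.comp (LinearMap.ker (trl A B)).subtype)
  have hf : ∀ x r, f x r = crd A B (x : (A → ℝ) × (B → ℂ)) r.1 := fun _ _ => rfl
  have hinj : Function.Injective f := by
    rw [← LinearMap.ker_eq_bot, LinearMap.ker_eq_bot']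
    intro x hx
    apply Subtype.ext
    apply (crd A B).injective
    rw [Submodule.coe_zero, map_zero]
    have h1 : ∀ r, r ≠ r₀ → crd A B (x : (A → ℝ) × (B → ℂ)) r = 0 := fun r h =>
      congrFun hx ⟨r, h⟩
    have h2 : trl A B (x : (A → ℝ) × (B → ℂ)) = 0 := x.2
    rw [trl_crd, Finset.sum_eq_single r₀ (fun r _ h => by rw [h1 r h, mul_zero])
      (fun h => absurd (Finset.mem_univ _) h)] at h2
    funext r
    by_cases h : r = r₀
    · rw [h]
      exact (mul_eq_zero.1 h2).resolve_left hr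
    · exact h1 r h
  have hdim : finrank ℝ (LinearMap.ker (trl A B)) = finrank ℝ ({r : A ⊕ B ⊕ B // r ≠ r₀} → ℝ) := by
    have h1 := LinearMap.finrank_range_add_finrank_ker (trl A B)
    have h2 : LinearMap.range (trl A B) = ⊤ := by
      rw [LinearMap.range_eq_top]
      intro t
      refine ⟨(crd A B).symm (Pi.single r₀ (t / trr r₀)), ?_⟩
      rw [trl_crd, LinearEquiv.apply_symm_apply, Finset.sum_eq_single r₀]
      · rw [Pi.single_eq_same, mul_div_cancel₀ _ hr]
      · intro r _ h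
        rw [Pi.single_eq_of_ne h, mul_zero]
      · intro h; exact absurd (Finset.mem_univ _) h
    rw [h2, finrank_top, (crd A B).finrank_eq, Module.finrank_fintype_fun_eq_card] at h1
    rw [Module.finrank_fintype_fun_eq_card, Fintype.card_subtype_compl, Fintype.card_subtype_eq]
    have h3 : finrank ℝ ℝ = 1 := Module.finrank_self ℝ
    omega
  exact ⟨LinearEquiv.ofInjectiveOfFinrankEq f hinj hdim, fun x r => hf x r⟩

end

end Pool.Agent.R350
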