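import Pool.Agent.R350.IG

/-!
# Norm one tori: closures
-/

set_option autoImplicit false
set_option linter.unusedSectionVars false

namespace Pool.Agent.R350

open Module Topology Filter NumberField Pool.Agent.W54.CL
open Pool.Agent.H301R2.SSE (QB mem_QB Lt Lt_log Lt_one Lt_mul)

section

variable {A B : Type} [Fintype A] [Fintype B] [DecidableEq B]

/-- the norm of a unit of `ℝ ^ A × ℂ ^ B` -/
noncomputable def nrm (u : (A → ℝ) × (B → ℂ)) : ℝ := (∏ a, u.1 a) * ∏ b, ‖u.2 b‖ ^ 2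

theorem nrm_mul (u v : (A → ℝ) × (B → ℂ)) : nrm (u * v) = nrm u * nrm v := by
  unfold nrm
  simp only [Prod.fst_mul, Prod.snd_mul, Pi.mul_apply, norm_mul, mul_pow, Finset.prod_mul_distrib]
  ring

theorem nrm_one : nrm (1 : (A → ℝ) × (B → ℂ)) = 1 := by
  unfold nrm
  simp

/-- the subgroup of units of norm one -/
noncomputable def N1 (A B : Type) [Fintype A] [Fintype B] [DecidableEq B] :
    Subgroup ((A → ℝ) × (B → ℂ))ˣ where
  carrier := {u | nrm (u : (A → ℝ) × (B → ℂ)) = 1}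
  one_mem' := by
    change nrm ((1 : ((A → ℝ) × (B → ℂ))ˣ) : (A → ℝ) × (B → ℂ)) = 1
    rw [Units.val_one, nrm_one]
  mul_mem' := by
    intro u v hu hv
    change nrm ((u * v : ((A → ℝ) × (B → ℂ))ˣ) : (A → ℝ) × (B → ℂ)) = 1
    change nrm (u : (A → ℝ) × (B → ℂ)) = 1 at hu
    change nrm (v : (A → ℝ) × (B → ℂ)) = 1 at hv
    rw [Units.val_mul, nrm_mul, hu, hv, one_mul]
  inv_mem' := by
    intro u hu
    change nrm (u : (A → ℝ) × (B → ℂ)) = 1 at hu
    change nrm ((u⁻¹ : ((A → ℝ) × (B → ℂ))ˣ) : (A → ℝ) × (B → ℂ)) = 1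
    have h1 := nrm_mul (u : (A → ℝ) × (B → ℂ)) ((u⁻¹ : ((A → ℝ) × (B → ℂ))ˣ) : (A → ℝ) × (B → ℂ))
    rw [Units.mul_inv, nrm_one, hu, one_mul] at h1
    exact h1.symm

theorem nrm_continuous : Continuous (nrm : (A → ℝ) × (B → ℂ) → ℝ) := by
  unfold nrm
  refine Continuous.mul ?_ ?_
  · exact continuous_finset_prod _ fun a _ => (continuous_apply a).comp continuous_fst
  · exact continuous_finset_prod _ fun b _ => ((continuous_apply b).comp continuous_snd).norm.pow 2

theorem N1_closed : IsClosed ((N1 A B : Subgroup ((A → ℝ) × (B → ℂ))ˣ) :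
    Set ((A → ℝ) × (B → ℂ))ˣ) := by
  have h1 : ((N1 A B : Subgroup ((A → ℝ) × (B → ℂ))ˣ) : Set ((A → ℝ) × (B → ℂ))ˣ) =
      (fun u : ((A → ℝ) × (B → ℂ))ˣ => nrm (u : (A → ℝ) × (B → ℂ))) ⁻¹' {1} := rfl
  rw [h1]
  exact isClosed_singleton.preimage (nrm_continuous.comp Units.continuous_val)

variable {ψ : (A → ℝ) × (B → ℂ) → ((A → ℝ) × (B → ℂ))ˣ}

theorem nrm_psi (hv : ∀ x, ((ψ x : ((A → ℝ) × (B → ℂ))ˣ) : (A → ℝ) × (B → ℂ)) =
      (fun w => Real.exp (x.1 w), fun w => Complex.exp (x.2 w))) (x : (A → ℝ) × (B → ℂ)) :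
    nrm (ψ x : (A → ℝ) × (B → ℂ)) = Real.exp (trl A B x) := by
  rw [hv]
  unfold nrm
  change (∏ a, Real.exp (x.1 a)) * ∏ b, ‖Complex.exp (x.2 b)‖ ^ 2 =
    Real.exp (∑ a, x.1 a + 2 * ∑ b, (x.2 b).re)
  rw [Real.exp_add, Real.exp_sum, Finset.mul_sum, Real.exp_sum]
  congr 1
  refine Finset.prod_congr rfl fun b _ => ?_
  rw [Complex.norm_exp, ← Real.exp_nat_mul]
  norm_num

/-- the tangent space of the group of norm one -/
theorem maxSub_N1 (hch : Chart ψ)
    (hv : ∀ x, ((ψ x : ((A → ℝ) × (B → ℂ))ˣ) : (A → ℝ) × (B → ℂ)) =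
      (fun w => Real.exp (x.1 w), fun w => Complex.exp (x.2 w))) :
    maxSub (pre hch (N1 A B)) = LinearMap.ker (trl A B) := by
  have hcl : closure ((N1 A B : Subgroup ((A → ℝ) × (B → ℂ))ˣ) : Set ((A → ℝ) × (B → ℂ))ˣ) =
    (N1 A B : Subgroup ((A → ℝ) × (B → ℂ))ˣ) := N1_closed.closure_eq
  have h1 : ∀ x, x ∈ pre hch (N1 A B) ↔ trl A B x = 0 := by
    intro x
    change ψ x ∈ closure ((N1 A B : Subgroup ((A → ℝ) × (B → ℂ))ˣ) :
      Set ((A → ℝ) × (B → ℂ))ˣ) ↔ _
    rw [hcl]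
    change nrm (ψ x : (A → ℝ) × (B → ℂ)) = 1 ↔ _
    rw [nrm_psi hv, Real.exp_eq_one_iff]
  ext v
  rw [LinearMap.mem_ker]
  constructor
  · intro h
    have h2 := (h1 _).1 (h 1)
    rwa [one_smul] at h2
  · intro h t
    rw [h1, map_smul, h, smul_zero]

theorem comp_N1 (hch : Chart ψ)
    (hv : ∀ x, ((ψ x : ((A → ℝ) × (B → ℂ))ˣ) : (A → ℝ) × (B → ℂ)) =
      (fun w => Real.exp (x.1 w), fun w => Complex.exp (x.2 w))) :
    connectedComponentIn ((N1 A B : Subgroup ((A → ℝ) × (B → ℂ))ˣ) :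
      Set ((A → ℝ) × (B → ℂ))ˣ) 1 = ψ '' (LinearMap.ker (trl A B) : Set _) := by
  obtain ⟨h1, _, _⟩ := hComp _ _ ψ hch (N1 A B)
  rw [N1_closed.closure_eq, maxSub_N1 hch hv] at h1
  exact h1

theorem maxSub_mono (hch : Chart ψ) {L L' : Subgroup ((A → ℝ) × (B → ℂ))ˣ} (h : L ≤ L') :
    maxSub (pre hch L) ≤ maxSub (pre hch L') := by
  intro v hv t
  exact Subgroup.topologicalClosure_mono h (hv t)

/-- **The largest subspace in the closure of a subgroup of the norm one torus.** -/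
theorem alt_norm (hch : Chart ψ) {K : Type} [Field K]
    (f : K →+* (A → ℝ) × (B → ℂ))
    (hv : ∀ x, ((ψ x : ((A → ℝ) × (B → ℂ))ˣ) : (A → ℝ) × (B → ℂ)) =
      (fun w => Real.exp (x.1 w), fun w => Complex.exp (x.2 w)))
    (hker : ∀ x, IsSign (ψ x) → ∃ q : B → ℤ,
      x = ((0 : A → ℝ), fun w => (q w : ℂ) * (2 * Real.pi * Complex.I)))
    {l : ℕ} (δ : Fin l → Kˣ) (G : Fin l → (A → ℝ) × (B → ℂ)) (ε : Fin l → ((A → ℝ) × (B → ℂ))ˣ)
    (hε : ∀ j, IsSign (ε j))
    (hg : ∀ j, Units.map (f : K →* (A → ℝ) × (B → ℂ)) (δ j) = ψ (G j) * ε j)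
    (hG : ∀ j, trl A B (G j) = 0)
    (hN : GenVec (fun j => (⟨G j, hG j⟩ : LinearMap.ker (trl A B)))
      (fun b => ⟨wv A b, trl_wv b⟩) (finrank ℝ (LinearMap.ker (trl A B))))
    (L : Subgroup Kˣ) (hL : L ≤ Subgroup.closure (Set.range δ))
    (hLN : L.map (Units.map (f : K →* (A → ℝ) × (B → ℂ))) ≤ N1 A B) :
    maxSub (pre hch (L.map (Units.map (f : K →* (A → ℝ) × (B → ℂ))))) = ⊥ ∨
      (maxSub (pre hch (L.map (Units.map (f : K →* (A → ℝ) × (B → ℂ))))) =
        LinearMap.ker (trl A B) ∧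
        ∃ c : Fin (finrank ℝ (LinearMap.ker (trl A B)) + 1) → (Fin l → ℤ) × (B → ℤ),
          LinearIndependent ℝ (fun q => castV (c q)) ∧
          ∀ q, ψ (∑ j, ((c q).1 j : ℝ) • G j + ∑ b, ((c q).2 b : ℝ) • wv A b) ∈
            L.map (Units.map (f : K →* (A → ℝ) × (B → ℂ)))) := by
  classical
  set L' := L.map (Units.map (f : K →* (A → ℝ) × (B → ℂ))) with hL'
  set V := maxSub (pre hch L') with hV
  have hVk : V ≤ LinearMap.ker (trl A B) := by
    rw [← maxSub_N1 hch hv]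
    exact maxSub_mono hch hLN
  obtain ⟨_, h2, _⟩ := hComp _ _ ψ hch L'
  have hcoe : ∀ (p : Fin l → ℤ) (q : B → ℤ),
      ((∑ j, (p j : ℝ) • (⟨G j, hG j⟩ : LinearMap.ker (trl A B)) +
        ∑ b, (q b : ℝ) • (⟨wv A b, trl_wv b⟩ : LinearMap.ker (trl A B)) :
          LinearMap.ker (trl A B)) : (A → ℝ) × (B → ℂ)) =
      ∑ j, (p j : ℝ) • G j + ∑ b, (q b : ℝ) • wv A b := by
    intro p q
    rw [Submodule.coe_add, Submodule.coe_sum, Submodule.coe_sum]
    rfl
  rcases dichotomy (fun j => (⟨G j, hG j⟩ : LinearMap.ker (trl A B)))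
    (fun b => (⟨wv A b, trl_wv b⟩ : LinearMap.ker (trl A B))) hN
    (V.comap (LinearMap.ker (trl A B)).subtype)
    {u | (u : (A → ℝ) × (B → ℂ)) ∈ V ∧ ψ u ∈ L'} (fun u hu => hu.1) (by
    rintro u ⟨_, hu⟩
    obtain ⟨y, hy, hyu⟩ := hu
    obtain ⟨p, η, hη, h3⟩ := rep_gen hch f δ G ε hε hg (hL hy)
    have h4 : ψ ((u : (A → ℝ) × (B → ℂ)) - ∑ j, (p j : ℝ) • G j) = η := by
      rw [sub_eq_add_neg, hch.map_add, hch.map_neg, ← hyu]
      have h5 : (Units.map (f : K →* (A → ℝ) × (B → ℂ))) y = ψ (∑ j, (p j : ℝ) • G j) * η := h3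
      rw [h5, mul_inv_eq_iff_eq_mul, mul_comm]
    obtain ⟨q, hq⟩ := hker _ (by rw [h4]; exact hη)
    refine ⟨p, q, ?_⟩
    apply Subtype.ext
    rw [hcoe, sum_wv, ← hq]
    abel) (by
    intro v hv' δ hδ
    obtain ⟨u, hu, h3, h4⟩ := h2 (v : (A → ℝ) × (B → ℂ)) hv' δ hδ
    exact ⟨⟨u, hVk hu⟩, ⟨hu, h3⟩, h4⟩) with h | ⟨h, c, hc, hc'⟩
  · left
    rw [Submodule.eq_bot_iff]
    intro v hv'
    have h3 : (⟨v, hVk hv'⟩ : LinearMap.ker (trl A B)) ∈
      V.comap (LinearMap.ker (trl A B)).subtype := hv'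
    rw [h, Submodule.mem_bot] at h3
    exact congrArg Subtype.val h3
  · right
    refine ⟨le_antisymm hVk ?_, c, hc, fun q => ?_⟩
    · intro v hv'
      have h3 : (⟨v, hv'⟩ : LinearMap.ker (trl A B)) ∈
        V.comap (LinearMap.ker (trl A B)).subtype := by
        rw [h]
        exact Submodule.mem_top
      exact h3
    · have h3 := (hc' q).2
      rw [hcoe] at h3
      exact h3

/-- groups of large rank are not discrete, norm one version -/
theorem rank_le_of_bot_norm [Nonempty (A ⊕ B)] (hch : Chart ψ) {K : Type} [Field K]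
    (f : K →+* (A → ℝ) × (B → ℂ))
    (hv : ∀ x, ((ψ x : ((A → ℝ) × (B → ℂ))ˣ) : (A → ℝ) × (B → ℂ)) =
      (fun w => Real.exp (x.1 w), fun w => Complex.exp (x.2 w)))
    (hlift : ∀ g : ((A → ℝ) × (B → ℂ))ˣ, ∃ x ε, g = ψ x * ε ∧ IsSign ε)
    (L : Subgroup Kˣ) (hLN : L.map (Units.map (f : K →* (A → ℝ) × (B → ℂ))) ≤ N1 A B)
    {s : ℕ} (hs : IndepIn L s)
    (hV : maxSub (pre hch (L.map (Units.map (f : K →* (A → ℝ) × (B → ℂ))))) = ⊥) :
    s + Fintype.card B ≤ finrank ℝ (LinearMap.ker (trl A B)) := by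
  classical
  have : Nontrivial ((A → ℝ) × (B → ℂ)) := ⟨⟨ev A B, 0, ev_ne_zero⟩⟩
  set L' := L.map (Units.map (f : K →* (A → ℝ) × (B → ℂ))) with hL'
  have hcl : IsClosed ((pre hch L' : AddSubgroup ((A → ℝ) × (B → ℂ))) :
      Set ((A → ℝ) × (B → ℂ))) := by
    have h1 : ((pre hch L' : AddSubgroup ((A → ℝ) × (B → ℂ))) : Set ((A → ℝ) × (B → ℂ))) =
      ψ ⁻¹' (closure (L' : Set ((A → ℝ) × (B → ℂ))ˣ)) := rfl
    rw [h1]
    exact isClosed_closure.preimage hch.cont
  obtain ⟨δ, hδ, h0⟩ := hOpen _ (pre hch L') hcl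
  obtain ⟨y, hyL, hy⟩ := hs
  choose v ε hvε hε using fun i => hlift (Units.map (f : K →* (A → ℝ) × (B → ℂ)) (y i))
  have h2v : ∀ i, ψ ((2 : ℤ) • v i) = Units.map (f : K →* (A → ℝ) × (B → ℂ)) (y i ^ (2 : ℤ)) := by
    intro i
    rw [two_zsmul, hch.map_add, zpow_two, map_mul, hvε, mul_mul_mul_comm, sign_sq (hε i), mul_one]
  have htr : ∀ i, trl A B ((2 : ℤ) • v i) = 0 := by
    intro i
    have h3 := nrm_psi hv ((2 : ℤ) • v i)
    have h4 : ψ ((2 : ℤ) • v i) ∈ N1 A B := by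
      rw [h2v]
      exact hLN ⟨_, L.zpow_mem (hyL i) _, rfl⟩
    have h5 : nrm (ψ ((2 : ℤ) • v i) : (A → ℝ) × (B → ℂ)) = 1 := h4
    rw [h5] at h3
    exact Real.exp_eq_one_iff _ |>.1 h3.symm
  let b : Fin s ⊕ B → LinearMap.ker (trl A B) :=
    Sum.elim (fun j => ⟨(2 : ℤ) • v j, htr j⟩) (fun k => ⟨wv A k, trl_wv k⟩)
  have hb : LinearIndependent ℤ b := by
    rw [Fintype.linearIndependent_iff]
    intro c hc'
    have hc : ∑ j, c (Sum.inl j) • ((2 : ℤ) • v j) + ∑ k, c (Sum.inr k) • wv A k = 0 := by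
      have h3 := congrArg (Subtype.val) hc'
      rw [Fintype.sum_sum_type, Submodule.coe_add, Submodule.coe_sum, Submodule.coe_sum] at h3
      exact h3
    have h3 := congrArg (chartHom hch) hc
    rw [map_add, map_sum, map_sum, map_zero] at h3
    have h4 : ∑ k, chartHom hch (c (Sum.inr k) • wv A k) = 0 := by
      refine Finset.sum_eq_zero fun k _ => ?_
      rw [map_zsmul]
      have : chartHom hch (wv A k) = 0 := by
        change Additive.ofMul (ψ (wv A k)) = 0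
        rw [psi_wv hv]
        rfl
      rw [this, zsmul_zero]
    rw [h4, add_zero] at h3
    have h5 : Units.map (f : K →* (A → ℝ) × (B → ℂ)) (∏ j, y j ^ (2 * c (Sum.inl j))) = 1 := by
      have h6 := congrArg Additive.toMul h3
      rw [toMul_sum, toMul_zero] at h6
      rw [← h6, map_prod]
      refine Finset.prod_congr rfl fun j _ => ?_
      rw [map_zsmul, toMul_zsmul]
      change _ = (ψ ((2 : ℤ) • v j)) ^ _
      rw [h2v, ← map_zpow, ← zpow_mul]
    have h6 : ∏ j, y j ^ (2 * c (Sum.inl j)) = 1 := by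
      apply Units.map_injective (f := (f : K →* (A → ℝ) × (B → ℂ))) f.injective
      rw [h5, map_one]
    have hz := hy _ h6
    have hz' : ∀ j, c (Sum.inl j) = 0 := fun j => by
      have := congrFun hz j
      simpa using this
    have h7 : ∑ k, ((c (Sum.inr k) : ℝ)) • wv A k = 0 := by
      simp only [hz', zero_smul, Finset.sum_const_zero, zero_add] at hc
      rw [← hc]
      exact Finset.sum_congr rfl fun k _ => Int.cast_smul_eq_zsmul ℝ _ _
    have hz2 : ∀ k, c (Sum.inr k) = 0 := by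
      intro k
      have h8 := Fintype.linearIndependent_iff.1 (wv_indep (A := A)) _ h7 k
      exact_mod_cast h8
    rintro (j | k)
    · exact hz' j
    · exact hz2 k
  have hmem : ∀ i, b i ∈ (pre hch L').comap (LinearMap.ker (trl A B)).subtype.toAddMonoidHom := by
    rintro (j | k)
    · show ψ ((2 : ℤ) • v j) ∈ L'.topologicalClosure
      apply Subgroup.le_topologicalClosure
      rw [h2v]
      exact ⟨_, L.zpow_mem (hyL j) _, rfl⟩
    · show ψ (wv A k) ∈ L'.topologicalClosure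
      rw [psi_wv hv]
      exact one_mem _
  have hcard := card_le_of_isolated b hb
    ((pre hch L').comap (LinearMap.ker (trl A B)).subtype.toAddMonoidHom) hmem δ hδ
    (fun h hh hlt => by
      have := h0 (h : (A → ℝ) × (B → ℂ)) hh hlt
      rw [hV] at this
      exact Subtype.ext ((Submodule.mem_bot ℝ).1 this))
  rw [Fintype.card_sum, Fintype.card_fin] at hcard
  exact hcard

/-- groups with large closure have large rank -/
theorem indepIn_of_vecs (hch : Chart ψ) {K : Type} [Field K]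
    (f : K →+* (A → ℝ) × (B → ℂ))
    (hker : ∀ x, IsSign (ψ x) → ∃ q : B → ℤ,
      x = ((0 : A → ℝ), fun w => (q w : ℂ) * (2 * Real.pi * Complex.I)))
    {l : ℕ} (G : Fin l → (A → ℝ) × (B → ℂ))
    (hN : ∀ c : (Fin l → ℤ) × (B → ℤ), castV c ≠ 0 →
      ∑ j, (c.1 j : ℝ) • G j + ∑ b, (c.2 b : ℝ) • wv A b ≠ 0)
    (L : Subgroup Kˣ) {n : ℕ} (c : Fin n → (Fin l → ℤ) × (B → ℤ))
    (hc : LinearIndependent ℝ (fun q => castV (c q)))
    (hcL : ∀ q, ψ (∑ j, ((c q).1 j : ℝ) • G j + ∑ b, ((c q).2 b : ℝ) • wv A b) ∈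
            L.map (Units.map (f : K →* (A → ℝ) × (B → ℂ)))) :
    IndepIn L (n - Fintype.card B) := by
  classical
  -- the first components
  set P : Fin n → (Fin l → ℝ) := fun q => (castV (c q)).1 with hP
  have hrank : n - Fintype.card B ≤ finrank ℝ (Submodule.span ℝ (Set.range P)) := by
    set U := Submodule.span ℝ (Set.range fun q => castV (c q)) with hU
    have h1 : finrank ℝ U = n := by
      have := finrank_span_eq_card hc
      rwa [Fintype.card_fin] at this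
    let pr : U →ₗ[ℝ] (Fin l → ℝ) := (LinearMap.fst ℝ (Fin l → ℝ) (B → ℝ)).comp U.subtype
    have h2 := LinearMap.finrank_range_add_finrank_ker pr
    have h3 : finrank ℝ (LinearMap.ker pr) ≤ Fintype.card B := by
      let qr : LinearMap.ker pr →ₗ[ℝ] (B → ℝ) :=
        (LinearMap.snd ℝ (Fin l → ℝ) (B → ℝ)).comp (U.subtype.comp (LinearMap.ker pr).subtype)
      have h4 : Function.Injective qr := by
        intro u u' h
        apply Subtype.ext
        apply Subtype.ext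
        exact Prod.ext ((LinearMap.mem_ker.1 u.2).trans (LinearMap.mem_ker.1 u'.2).symm) h
      have h5 := LinearMap.finrank_le_finrank_of_injective h4
      rwa [Module.finrank_fintype_fun_eq_card] at h5
    have h4 : LinearMap.range pr ≤ Submodule.span ℝ (Set.range P) := by
      rintro _ ⟨⟨u, hu⟩, rfl⟩
      change u.1 ∈ _
      refine Submodule.span_induction (p := fun u _ => u.1 ∈ Submodule.span ℝ (Set.range P))
        ?_ ?_ ?_ ?_ hu
      · rintro _ ⟨q, rfl⟩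
        exact Submodule.subset_span ⟨q, rfl⟩
      · exact Submodule.zero_mem _
      · intro a b _ _ ha hb
        exact Submodule.add_mem _ ha hb
      · intro r a _ ha
        exact Submodule.smul_mem _ _ ha
    have h5 := Submodule.finrank_mono h4
    omega
  obtain ⟨b, hbP, hspan, hind⟩ := exists_linearIndependent ℝ (Set.range P)
  have hfin : b.Finite := hind.setFinite
  have : Fintype b := hfin.fintype
  have hcard : finrank ℝ (Submodule.span ℝ b) = Fintype.card b := by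
    have := finrank_span_set_eq_card hind
    rw [this, Set.toFinset_card]
  rw [← hspan, hcard] at hrank
  let eb := Fintype.equivFin b
  choose κ hκ using fun z : b => hbP z.2
  set τ : Fin (n - Fintype.card B) → Fin n := fun i => κ (eb.symm (Fin.castLE hrank i)) with hτ
  have hτi : LinearIndependent ℝ (fun i => P (τ i)) := by
    have h1 : (fun i => P (τ i)) = (fun i => ((eb.symm (Fin.castLE hrank i) : b) : Fin l → ℝ)) := by
      funext i
      rw [hτ]
      exact hκ _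
    rw [h1]
    exact hind.comp _ (eb.symm.injective.comp (Fin.castLE_injective hrank))
  choose y hyL hy using hcL
  refine ⟨fun i => y (τ i), fun i => hyL _, fun e he => ?_⟩
  -- the combination of the logarithms
  have h1 : ψ (∑ i, (e i : ℝ) • (∑ j, ((c (τ i)).1 j : ℝ) • G j +
      ∑ b, ((c (τ i)).2 b : ℝ) • wv A b)) = 1 := by
    rw [psi_sum hch]
    have h2 := congrArg (Units.map (f : K →* (A → ℝ) × (B → ℂ))) he
    rw [map_prod, map_one] at h2
    rw [← h2]
    refine Finset.prod_congr rfl fun i _ => ?_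
    rw [map_zpow, hy]
  obtain ⟨q, hq⟩ := hker _ (by rw [h1]; exact IsSign.one)
  rw [← sum_wv] at hq
  -- the vector
  by_contra hne
  set c' : (Fin l → ℤ) × (B → ℤ) :=
    (fun j => ∑ i, e i * (c (τ i)).1 j, fun b => ∑ i, e i * (c (τ i)).2 b - q b) with hc'
  have h3 : ∑ j, (c'.1 j : ℝ) • G j + ∑ b, (c'.2 b : ℝ) • wv A b = 0 := by
    have h4 : ∑ j, (c'.1 j : ℝ) • G j = ∑ i, (e i : ℝ) • ∑ j, ((c (τ i)).1 j : ℝ) • G j := by
      simp only [hc', Int.cast_sum, Int.cast_mul, Finset.sum_smul, Finset.smul_sum, mul_smul]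
      exact Finset.sum_comm
    have h5 : ∑ b, (c'.2 b : ℝ) • wv A b = ∑ i, (e i : ℝ) • ∑ b, ((c (τ i)).2 b : ℝ) • wv A b -
        ∑ b, (q b : ℝ) • wv A b := by
      simp only [hc', Int.cast_sub, Int.cast_sum, Int.cast_mul, sub_smul, Finset.sum_sub_distrib,
        Finset.sum_smul, Finset.smul_sum, mul_smul]
      congr 1
      exact Finset.sum_comm
    rw [h4, h5, ← hq]
    simp only [smul_add, Finset.sum_add_distrib]
    abel
  refine hN c' ?_ h3
  intro h0
  apply hne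
  have h5 : ∑ i, (e i : ℝ) • P (τ i) = 0 := by
    funext j
    have h6 := congrFun (congrArg Prod.fst h0) j
    simp only [castV, hc', Int.cast_sum, Int.cast_mul] at h6
    rw [Finset.sum_apply]
    exact h6
  have h6 := Fintype.linearIndependent_iff.1 hτi _ h5
  funext i
  exact_mod_cast h6 i

end

end Pool.Agent.R350
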