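import Pool.Agent.R350.IH
import Pool.Agent.R350.IF

/-!
# Points of norm one tori
-/

set_option autoImplicit false
set_option linter.unusedSectionVars false

namespace Pool.Agent.R350

open Module Topology Filter NumberField Pool.Agent.W54.CL
open Pool.Agent.H301R2.SSE (QB mem_QB Lt Lt_log Lt_one Lt_mul)

section

variable (K : Type) [Field K] [NumberField K] [Fintype (RP K)] [Fintype (CP K)]
  [DecidableEq (CP K)]

theorem card_RC : Fintype.card (RP K ⊕ CP K ⊕ CP K) = finrank ℚ K := by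
  have h1 : InfinitePlace.nrRealPlaces K = Fintype.card (RP K) := by
    unfold InfinitePlace.nrRealPlaces
    convert rfl
  have h2 : InfinitePlace.nrComplexPlaces K = Fintype.card (CP K) := by
    unfold InfinitePlace.nrComplexPlaces
    convert rfl
  rw [Fintype.card_sum, Fintype.card_sum, ← InfinitePlace.card_add_two_mul_card_eq_rank K, h1, h2]
  omega

theorem emb_bijective : Function.Bijective (emb K) := by
  classical
  rw [Fintype.bijective_iff_injective_and_card]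
  refine ⟨emb_injective K, ?_⟩
  rw [NumberField.Embeddings.card K ℂ, card_RC]

theorem prod_emb (y : K) : ∏ r, emb K r y = ((Algebra.norm ℚ y : ℚ) : ℂ) := by
  classical
  have h1 : ((Algebra.norm ℚ y : ℚ) : ℂ) = ∏ σ : K →ₐ[ℚ] ℂ, σ y := by
    rw [← Algebra.norm_eq_prod_embeddings ℚ ℂ y]
    rfl
  rw [h1, ← Equiv.prod_comp (RingHom.equivRatAlgHom (R := K) (S := ℂ)), ← (Equiv.ofBijective _ (emb_bijective K)).prod_comp]
  rfl

/-- the norm of `K ⊗ ℝ` extends the norm of `K` -/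
theorem nrm_mixed (y : K) : nrm (A := RP K) (B := CP K) (mixedEmbedding K y) =
    ((Algebra.norm ℚ y : ℚ) : ℝ) := by
  classical
  apply Complex.ofReal_injective
  have h1 := prod_emb K y
  rw [Complex.ofReal_ratCast, ← h1, Fintype.prod_sum_type, Fintype.prod_sum_type]
  unfold nrm
  rw [Complex.ofReal_mul, Complex.ofReal_prod, Complex.ofReal_prod, ← Finset.prod_mul_distrib]
  congr 1
  · refine Finset.prod_congr rfl fun a _ => ?_
    rw [mixedEmbedding.mixedEmbedding_apply_isReal]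
    exact InfinitePlace.embedding_of_isReal_apply a.2 y
  · refine Finset.prod_congr rfl fun b _ => ?_
    rw [mixedEmbedding.mixedEmbedding_apply_isComplex]
    change ((‖b.1.embedding y‖ ^ 2 : ℝ) : ℂ) =
      b.1.embedding y * (ComplexEmbedding.conjugate b.1.embedding) y
    rw [ComplexEmbedding.conjugate_coe_eq, Complex.mul_conj, Complex.normSq_eq_norm_sq]

variable {K} {N : ℕ} {γ : Fin N → Kˣ} {ψ : (RP K → ℝ) × (CP K → ℂ) → ((RP K → ℝ) × (CP K → ℂ))ˣ}

/-- the logarithms of elements of norm one have trace zero -/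
theorem trl_zero (hv : ∀ x, ((ψ x : ((RP K → ℝ) × (CP K → ℂ))ˣ) : (RP K → ℝ) × (CP K → ℂ)) =
      (fun w => Real.exp (x.1 w), fun w => Complex.exp (x.2 w)))
    {y : Kˣ} {g : (RP K → ℝ) × (CP K → ℂ)} {ε : ((RP K → ℝ) × (CP K → ℂ))ˣ} (hε : IsSign ε)
    (hg : Units.map (mixedEmbedding K : K →* (RP K → ℝ) × (CP K → ℂ)) y = ψ g * ε)
    (hN : Algebra.norm ℚ (y : K) = 1) : trl (RP K) (CP K) g = 0 := by
  have h1 : nrm (A := RP K) (B := CP K) (mixedEmbedding K (y : K)) = 1 := by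
    rw [nrm_mixed, hN, Rat.cast_one]
  have h2 : mixedEmbedding K (y : K) = ((ψ g : ((RP K → ℝ) × (CP K → ℂ))ˣ) :
      (RP K → ℝ) × (CP K → ℂ)) * ((ε : ((RP K → ℝ) × (CP K → ℂ))ˣ) : (RP K → ℝ) × (CP K → ℂ)) := by
    have := congrArg Units.val hg
    rw [Units.val_mul] at this
    exact this
  rw [h2, nrm_mul, nrm_psi hv] at h1
  have h3 : nrm ((ε : ((RP K → ℝ) × (CP K → ℂ))ˣ) : (RP K → ℝ) × (CP K → ℂ)) *
      nrm ((ε : ((RP K → ℝ) × (CP K → ℂ))ˣ) : (RP K → ℝ) × (CP K → ℂ)) = 1 := by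
    rw [← nrm_mul, ← Units.val_mul, sign_sq hε, Units.val_one, nrm_one]
  have h4 : Real.exp (trl (RP K) (CP K) g) * Real.exp (trl (RP K) (CP K) g) = 1 := by
    have h5 : (Real.exp (trl (RP K) (CP K) g) * nrm ((ε : ((RP K → ℝ) × (CP K → ℂ))ˣ) :
      (RP K → ℝ) × (CP K → ℂ))) * (Real.exp (trl (RP K) (CP K) g) *
        nrm ((ε : ((RP K → ℝ) × (CP K → ℂ))ˣ) : (RP K → ℝ) × (CP K → ℂ))) = 1 := by
      rw [h1, one_mul]
    rw [mul_mul_mul_comm, h3, mul_one] at h5
    exact h5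
  rw [← Real.exp_add, Real.exp_eq_one_iff] at h4
  linarith

/-- the only relations between the logarithms are those of the trace -/
theorem hrel_norm
    (hγ : ∀ e : (K →+* ℂ) → Fin N → ℤ, ∏ σ, ∏ x, σ (γ x : K) ^ e σ x = 1 →
      ∀ x σ σ', e σ x = e σ' x)
    (hv : ∀ x, ((ψ x : ((RP K → ℝ) × (CP K → ℂ))ˣ) : (RP K → ℝ) × (CP K → ℂ)) =
      (fun w => Real.exp (x.1 w), fun w => Complex.exp (x.2 w)))
    (g : Fin N → (RP K → ℝ) × (CP K → ℂ)) (ε : Fin N → ((RP K → ℝ) × (CP K → ℂ))ˣ)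
    (hε : ∀ j, IsSign (ε j))
    (hg : ∀ j, Units.map (mixedEmbedding K : K →* (RP K → ℝ) × (CP K → ℂ)) (γ j) = ψ (g j) * ε j)
    (ht : ∀ j, trl (RP K) (CP K) (g j) = 0) (r₀ : RP K ⊕ CP K ⊕ CP K)
    (c : (RP K ⊕ CP K ⊕ CP K) × Fin N → QB) (hc : ∑ s, c s • cw s.1 (g s.2) = 0) :
    ∀ x r r', c (r, x) = c (r', x) := by
  classical
  have hind : LinearIndependent QB (fun s : {r : RP K ⊕ CP K ⊕ CP K // r ≠ r₀} × Fin N =>
      cw s.1.1 (g s.2)) := by
    apply Pool.Agent.W245.EB.LogFam.indep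
    refine ⟨fun s => alg_exp_cw hv (hε s.2) (hg s.2) s.1.1, ?_⟩
    rw [← LinearIndependent.iff_fractionRing ℤ ℚ, Fintype.linearIndependent_iff]
    intro m hm
    set M : RP K ⊕ CP K ⊕ CP K → Fin N → ℤ :=
      fun r x => if h : r ≠ r₀ then m (⟨r, h⟩, x) else 0 with hM
    have hM0 : ∀ x, M r₀ x = 0 := fun x => dif_neg (not_not.2 rfl)
    have hM1 : ∀ (r : {r : RP K ⊕ CP K ⊕ CP K // r ≠ r₀}) x, M r.1 x = m (r, x) := fun r x =>
      dif_pos r.2
    have h0 : ∑ x, ∑ r, M r x • cw r (g x) = 0 := by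
      rw [← hm, Fintype.sum_prod_type_right]
      refine Finset.sum_congr rfl fun x _ => ?_
      rw [Fintype.sum_eq_add_sum_subtype_ne _ r₀, hM0, zero_smul, zero_add]
      exact Finset.sum_congr rfl fun r _ => by rw [hM1]
    have h1 : ∏ x, ∏ r : RP K ⊕ CP K ⊕ CP K, Complex.exp (cw r (g x)) ^ (M r x) = 1 := by
      have h2 := congrArg Complex.exp h0
      rw [Complex.exp_sum, Complex.exp_zero] at h2
      rw [← h2]
      refine Finset.prod_congr rfl fun x _ => ?_
      rw [Complex.exp_sum]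
      refine Finset.prod_congr rfl fun r _ => ?_
      rw [zsmul_eq_mul, Complex.exp_int_mul]
    have h2 : ∏ r : RP K ⊕ CP K ⊕ CP K, ∏ x, (emb K r (γ x : K)) ^ (2 * M r x) = 1 := by
      have h3 := congrArg (fun z : ℂ => z ^ (2 : ℤ)) h1
      simp only [one_zpow] at h3
      rw [← h3, ← Finset.prod_zpow, Finset.prod_comm]
      refine Finset.prod_congr rfl fun x _ => ?_
      rw [← Finset.prod_zpow]
      refine Finset.prod_congr rfl fun r _ => ?_
      have h4 := exp_cw hv (hε x) (hg x) r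
      have h5 : ∀ z : ℂ, z ^ (2 : ℤ) = z ^ 2 := fun z => by norm_cast
      rw [zpow_mul, h5, ← h4, ← h5, ← zpow_mul, ← zpow_mul, mul_comm]
    have h3 := hγ (fun σ x => 2 * M ((Equiv.ofBijective _ (emb_bijective K)).symm σ) x) (by
      rw [← h2, ← (Equiv.ofBijective _ (emb_bijective K)).prod_comp]
      refine Finset.prod_congr rfl fun r _ => Finset.prod_congr rfl fun x _ => ?_
      rw [Equiv.symm_apply_apply]
      rfl)
    rintro ⟨r, x⟩
    have h4 := h3 x (emb K r.1) (emb K r₀)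
    have h5 : ∀ r, (Equiv.ofBijective _ (emb_bijective K)).symm (emb K r) = r := fun r =>
      (Equiv.ofBijective _ (emb_bijective K)).symm_apply_apply r
    simp only [h5, hM0, hM1, mul_zero] at h4
    omega
  have hsum : ∀ x, ∑ r, cw r (g x) = 0 := fun x => by
    rw [← trl_cw, ht, Complex.ofReal_zero]
  have h1 : ∑ s : {r : RP K ⊕ CP K ⊕ CP K // r ≠ r₀} × Fin N,
      (c (s.1.1, s.2) - c (r₀, s.2)) • cw s.1.1 (g s.2) = 0 := by
    have h2 : ∀ x, ∑ r : {r : RP K ⊕ CP K ⊕ CP K // r ≠ r₀},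
        (c (r.1, x) - c (r₀, x)) • cw r.1 (g x) = ∑ r, c (r, x) • cw r (g x) := by
      intro x
      have h3 : ∑ r, (c (r, x) - c (r₀, x)) • cw r (g x) = ∑ r, c (r, x) • cw r (g x) := by
        simp only [sub_smul, Finset.sum_sub_distrib]
        rw [← Finset.smul_sum, hsum, smul_zero, sub_zero]
      rw [← h3, Fintype.sum_eq_add_sum_subtype_ne _ r₀, sub_self, zero_smul, zero_add]
    rw [Fintype.sum_prod_type_right]
    simp only [h2]
    rw [← hc, Fintype.sum_prod_type_right]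
  have h2 := Fintype.linearIndependent_iff.1 hind _ h1
  have h3 : ∀ x r, c (r, x) = c (r₀, x) := by
    intro x r
    by_cases h : r = r₀
    · rw [h]
    · exact sub_eq_zero.1 (h2 (⟨r, h⟩, x))
  intro x r r'
  rw [h3 x r, h3 x r']

end

/-- nonzero integer combinations of generic vectors are not zero -/
theorem GenVec.ne_zero {E β : Type} [Fintype β] [AddCommGroup E] [Module ℝ E] {l n : ℕ}
    {G : Fin l → E} {ω : β → E} (h : GenVec G ω n) (hn : 1 ≤ n) (c : (Fin l → ℤ) × (β → ℤ))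
    (hc : castV c ≠ 0) : ∑ j, (c.1 j : ℝ) • G j + ∑ b, (c.2 b : ℝ) • ω b ≠ 0 := by
  have h1 : LinearIndependent ℝ (fun q : Fin 1 => castV ((fun _ => c) q)) :=
    LinearIndependent.of_subsingleton (R := ℝ) (0 : Fin 1) hc
  exact (h 1 hn (fun _ => c) h1).ne_zero 0

end Pool.Agent.R350
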