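import Pool.Agent.R350.II

/-!
# Norm one tori: the embeddings in different fields, and the `p`-adic logarithms
-/

set_option autoImplicit false
set_option linter.unusedSectionVars false

namespace Pool.Agent.R350

open Module Topology Filter NumberField
open Pool.Agent.W245.PB (IsIwasawaLog QbarP)
open Pool.Agent.W254.PA (LtE logs)

/-- relations between conjugates in different algebraically closed fields -/
theorem transfer {E : Type} [Field E] [CharZero E] [IsAlgClosed E] {K : Type} [Field K]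
    [NumberField K] {N : ℕ} {γ : Fin N → Kˣ}
    (hγ : ∀ (e : (K →+* AlgebraicClosure ℚ) → Fin N → ℤ) (r : ℚ),
      ∏ σ, ∏ x, σ (γ x : K) ^ e σ x = (r : AlgebraicClosure ℚ) → ∀ x σ σ', e σ x = e σ' x)
    (e : (K →+* E) → Fin N → ℤ) (r : ℚ) (h : ∏ σ, ∏ x, σ (γ x : K) ^ e σ x = (r : E)) :
    ∀ x σ σ', e σ x = e σ' x := by
  classical
  have hal : Algebra.IsAlgebraic ℚ (AlgebraicClosure ℚ) := AlgebraicClosure.isAlgebraic ℚ
  let ι : AlgebraicClosure ℚ →+* E :=
    ((IsAlgClosed.lift : AlgebraicClosure ℚ →ₐ[ℚ] E) : AlgebraicClosure ℚ →+* E)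
  have hφ : Function.Bijective (fun σ : K →+* AlgebraicClosure ℚ => ι.comp σ) := by
    rw [Fintype.bijective_iff_injective_and_card]
    refine ⟨fun σ τ hστ => ?_, ?_⟩
    · ext z
      apply ι.injective
      exact RingHom.congr_fun hστ z
    · rw [NumberField.Embeddings.card K (AlgebraicClosure ℚ), NumberField.Embeddings.card K E]
  have h1 := hγ (fun σ x => e (ι.comp σ) x) r (by
    apply ι.injective
    rw [map_ratCast, ← h, ← (Equiv.ofBijective _ hφ).prod_comp, map_prod]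
    refine Finset.prod_congr rfl fun σ _ => ?_
    rw [map_prod]
    refine Finset.prod_congr rfl fun x _ => ?_
    rw [map_zpow₀]
    rfl)
  intro x σ σ'
  obtain ⟨τ, rfl⟩ := hφ.2 σ
  obtain ⟨τ', rfl⟩ := hφ.2 σ'
  exact h1 x τ τ'

variable {p : ℕ} [hp : Fact p.Prime] {L : PadicAlgCl p → PadicAlgCl p}

/-- Brumer's theorem for elements of norm one tori -/
theorem padic_indep_norm (hL : IsIwasawaLog p L) {K : Type} [Field K] [NumberField K] {N : ℕ}
    (γ : Fin N → Kˣ)
    (hγ : ∀ (e : (K →+* PadicAlgCl p) → Fin N → ℤ) (a : ℤ),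
      ∏ σ, ∏ x, σ (γ x : K) ^ e σ x = (p : PadicAlgCl p) ^ a → ∀ x σ σ', e σ x = e σ' x)
    (σ₀ : K →+* PadicAlgCl p) :
    LinearIndependent (QbarP p)
      (fun s : {σ : K →+* PadicAlgCl p // σ ≠ σ₀} × Fin N => L (s.1.1 (γ s.2 : K))) := by
  classical
  have hne : ∀ (σ : K →+* PadicAlgCl p) (x : Fin N), σ (γ x : K) ≠ 0 := fun σ x h =>
    (γ x).ne_zero (σ.injective (by rw [h, map_zero]))
  refine hL.indep_of_indep _ (fun s => ⟨s.1.1 (γ s.2 : K), hne _ _, ?_, rfl⟩) ?_
  · have h2 : IsAlgebraic ℚ (γ s.2 : K) := Algebra.IsAlgebraic.isAlgebraic _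
    exact h2.algHom (s.1.1.toRatAlgHom)
  · apply Pool.Agent.W245.PB.linearIndependent_of_int
    intro c hc
    set z : PadicAlgCl p := ∏ s : {σ : K →+* PadicAlgCl p // σ ≠ σ₀} × Fin N,
      s.1.1 (γ s.2 : K) ^ c s with hz
    have hz0 : z ≠ 0 := Finset.prod_ne_zero_iff.2 fun s _ => zpow_ne_zero _ (hne _ _)
    have hLz : L z = 0 := by
      rw [hz, hL.prod _ _ (fun s _ => zpow_ne_zero _ (hne _ _)), ← hc]
      exact Finset.sum_congr rfl fun s _ => hL.zpow (hne _ _) _
    obtain ⟨m, r, hm, hr⟩ := root_of_log_zero hL hz0 hLz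
    set M : (K →+* PadicAlgCl p) → Fin N → ℤ :=
      fun σ x => if h : σ ≠ σ₀ then m * c (⟨σ, h⟩, x) else 0 with hM
    have hM0 : ∀ x, M σ₀ x = 0 := fun x => dif_neg (not_not.2 rfl)
    have hM1 : ∀ (σ : {σ : K →+* PadicAlgCl p // σ ≠ σ₀}) x, M σ.1 x = m * c (σ, x) := fun r x =>
      dif_pos r.2
    have h1 := hγ M r (by
      rw [← hr, hz, Fintype.prod_prod_type, ← Finset.prod_pow,
        Fintype.prod_eq_mul_prod_subtype_ne _ σ₀]
      have h2 : ∏ x, σ₀ (γ x : K) ^ M σ₀ x = 1 := by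
        refine Finset.prod_eq_one fun x _ => ?_
        rw [hM0, zpow_zero]
      rw [h2, one_mul]
      refine Finset.prod_congr rfl fun σ _ => ?_
      rw [← Finset.prod_pow]
      refine Finset.prod_congr rfl fun x _ => ?_
      rw [hM1, mul_comm, zpow_mul, zpow_natCast])
    intro s
    have h2 := h1 s.2 s.1.1 σ₀
    rw [hM0, hM1, mul_eq_zero] at h2
    exact h2.resolve_left (by exact_mod_cast hm.ne')

end Pool.Agent.R350
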