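import Mathlib

/-!
# Doubly transitive Galois groups: the only relations between conjugates are norm relations
-/

set_option autoImplicit false
set_option linter.unusedSectionVars false

namespace Pool.Agent.R350

open Module NumberField

section

variable {Ω : Type} [Fintype Ω] [DecidableEq Ω]

/-- counting elements of the stabilizer -/
theorem stab_count (S : Finset (Ω → Ω)) (hinj : ∀ π ∈ S, Function.Injective π)
    (hcomp : ∀ π ∈ S, ∀ ρ ∈ S, (fun σ => ρ (π σ)) ∈ S) (σ₁ : Ω)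
    (hT : ∀ τ τ', τ ≠ σ₁ → τ' ≠ σ₁ → ∃ π ∈ S, π σ₁ = σ₁ ∧ π τ = τ') (σ τ τ' : Ω)
    (hτ : τ ≠ σ₁) (hτ' : τ' ≠ σ₁) :
    ((S.filter fun π => π σ₁ = σ₁).filter fun π => π σ = τ).card ≤
      ((S.filter fun π => π σ₁ = σ₁).filter fun π => π σ = τ').card := by
  obtain ⟨ρ, hρ, h1, h2⟩ := hT τ τ' hτ hτ'
  refine Finset.card_le_card_of_injOn (fun π σ => ρ (π σ)) ?_ ?_
  · intro π hπ
    have hπ' := Finset.mem_filter.1 hπ
    have hπ'' := Finset.mem_filter.1 hπ'.1
    refine Finset.mem_filter.2 ⟨Finset.mem_filter.2 ⟨hcomp π hπ''.1 ρ hρ, ?_⟩, ?_⟩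
    · change ρ (π σ₁) = σ₁
      rw [hπ''.2, h1]
    · change ρ (π σ) = τ'
      rw [hπ'.2, h2]
  · intro π _ π' _ h
    funext σ
    exact hinj ρ hρ (congrFun h σ)

/-- products over the stabilizer -/
theorem stab_prod (S : Finset (Ω → Ω)) (hinj : ∀ π ∈ S, Function.Injective π)
    (hcomp : ∀ π ∈ S, ∀ ρ ∈ S, (fun σ => ρ (π σ)) ∈ S) (σ₁ : Ω)
    (hT : ∀ τ τ', τ ≠ σ₁ → τ' ≠ σ₁ → ∃ π ∈ S, π σ₁ = σ₁ ∧ π τ = τ') (σ : Ω) (hσ : σ ≠ σ₁)
    {M : Type} [CommGroup M] (f : Ω → M) (hf : ∏ τ, f τ = 1) :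
    (∏ π ∈ S.filter (fun π => π σ₁ = σ₁), f (π σ)) ^ (Fintype.card Ω - 1) =
      (f σ₁)⁻¹ ^ (S.filter fun π => π σ₁ = σ₁).card := by
  set P := S.filter fun π => π σ₁ = σ₁ with hP
  set c := (P.filter fun π => π σ = σ).card with hc
  have hcard : ∀ τ, τ ≠ σ₁ → (P.filter fun π => π σ = τ).card = c := fun τ hτ =>
    le_antisymm (stab_count S hinj hcomp σ₁ hT σ τ σ hτ hσ)
      (stab_count S hinj hcomp σ₁ hT σ σ τ hσ hτ)
  have h0 : (P.filter fun π => π σ = σ₁).card = 0 := by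
    rw [Finset.card_eq_zero, Finset.filter_eq_empty_iff]
    intro π hπ h
    have h1 := Finset.mem_filter.1 hπ
    exact hσ (hinj π h1.1 (h.trans h1.2.symm))
  have h1 : P.card = (Fintype.card Ω - 1) * c := by
    rw [Finset.card_eq_sum_card_fiberwise (f := fun π => π σ) (t := Finset.univ)
      (fun _ _ => Finset.mem_coe.2 (Finset.mem_univ _)), Fintype.sum_eq_add_sum_subtype_ne _ σ₁, h0, zero_add]
    have h2 : ∀ τ : {τ // τ ≠ σ₁}, (P.filter fun π => π σ = τ.1).card = c := fun τ =>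
      hcard τ.1 τ.2
    simp only [h2]
    rw [Finset.sum_const, Finset.card_univ, Fintype.card_subtype_compl, Fintype.card_subtype_eq,
      smul_eq_mul]
  have h2 : ∏ π ∈ P, f (π σ) = ∏ τ, f τ ^ (P.filter fun π => π σ = τ).card := by
    rw [← Finset.prod_fiberwise P (fun π => π σ)]
    refine Finset.prod_congr rfl fun τ _ => ?_
    rw [← Finset.prod_const]
    refine Finset.prod_congr rfl fun π hπ => ?_
    rw [(Finset.mem_filter.1 hπ).2]
  have h3 : ∏ τ : {τ // τ ≠ σ₁}, f τ.1 = (f σ₁)⁻¹ := by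
    rw [Fintype.prod_eq_mul_prod_subtype_ne _ σ₁] at hf
    exact (inv_eq_of_mul_eq_one_right hf).symm
  have h4 : ∏ π ∈ P, f (π σ) = (f σ₁)⁻¹ ^ c := by
    rw [h2, Fintype.prod_eq_mul_prod_subtype_ne _ σ₁, h0, pow_zero, one_mul, ← h3,
      ← Finset.prod_pow]
    exact Finset.prod_congr rfl fun τ _ => by rw [hcard τ.1 τ.2]
  rw [h4, h1, ← pow_mul, mul_comm]

end

/-- **Doubly transitive groups**: independent elements of norm one have conjugates without other
relations. -/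
theorem only_norm_relations {K : Type} [Field K] [NumberField K]
    (hDT : ∀ σ σ' τ τ' : K →+* AlgebraicClosure ℚ, σ ≠ σ' → τ ≠ τ' →
      ∃ g : AlgebraicClosure ℚ →+* AlgebraicClosure ℚ, g.comp σ = τ ∧ g.comp σ' = τ')
    {N : ℕ} (γ : Fin N → Kˣ) (hN : ∀ x, Algebra.norm ℚ (γ x : K) = 1)
    (hγ : ∀ e : Fin N → ℤ, ∏ i, γ i ^ e i = 1 → e = 0)
    (e : (K →+* AlgebraicClosure ℚ) → Fin N → ℤ) (r : ℚ)
    (hr : ∏ σ, ∏ x, σ (γ x : K) ^ e σ x = (r : AlgebraicClosure ℚ)) :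
    ∀ x σ σ', e σ x = e σ' x := by
  classical
  let Ω := K →+* AlgebraicClosure ℚ
  set n := finrank ℚ K with hn
  have hncard : Fintype.card Ω = n := NumberField.Embeddings.card K (AlgebraicClosure ℚ)
  have hnpos : 0 < n := finrank_pos
  have hne : ∀ (σ : Ω) (z : Kˣ), σ (z : K) ≠ 0 := fun σ z h =>
    z.ne_zero (σ.injective (by rw [h, map_zero]))
  let v : Ω → Fin N → (AlgebraicClosure ℚ)ˣ := fun σ x => Units.map (σ : K →* _) (γ x)
  have hr0 : (r : AlgebraicClosure ℚ) ≠ 0 := by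
    rw [← hr]
    exact Finset.prod_ne_zero_iff.2 fun σ _ => Finset.prod_ne_zero_iff.2 fun x _ =>
      zpow_ne_zero _ (hne σ _)
  set ρ : (AlgebraicClosure ℚ)ˣ := Units.mk0 _ hr0 with hρ
  have hrel : ∏ σ, ∏ x, v σ x ^ e σ x = ρ := by
    apply Units.ext
    rw [Units.coe_prod, hρ, Units.val_mk0, ← hr]
    refine Finset.prod_congr rfl fun σ _ => ?_
    rw [Units.coe_prod]
    refine Finset.prod_congr rfl fun x _ => ?_
    rw [Units.val_zpow_eq_zpow_val]
    rfl
  have hnorm : ∀ x, ∏ σ, v σ x = 1 := by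
    intro x
    apply Units.ext
    rw [Units.coe_prod, Units.val_one]
    have hal : Algebra.IsAlgebraic ℚ (AlgebraicClosure ℚ) := AlgebraicClosure.isAlgebraic ℚ
    have h1 : ((Algebra.norm ℚ (γ x : K) : ℚ) : AlgebraicClosure ℚ) =
        ∏ σ : K →ₐ[ℚ] AlgebraicClosure ℚ, σ (γ x : K) := by
      rw [← Algebra.norm_eq_prod_embeddings ℚ (AlgebraicClosure ℚ) (γ x : K)]
      rfl
    rw [hN, Rat.cast_one, ← Equiv.prod_comp (RingHom.equivRatAlgHom K (AlgebraicClosure ℚ))] at h1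
    exact h1.symm
  let S : Finset (Ω → Ω) := Finset.univ.filter fun π =>
    ∃ g : AlgebraicClosure ℚ →+* AlgebraicClosure ℚ, ∀ σ, g.comp σ = π σ
  have hS : ∀ π, π ∈ S ↔ ∃ g : AlgebraicClosure ℚ →+* AlgebraicClosure ℚ, ∀ σ, g.comp σ = π σ :=
    fun π => by simp [S]
  have hinj : ∀ π ∈ S, Function.Injective π := by
    intro π hπ σ σ' h
    obtain ⟨g, hg⟩ := (hS π).1 hπ
    rw [← hg, ← hg] at h
    ext z
    exact g.injective (RingHom.congr_fun h z)
  have hcomp : ∀ π ∈ S, ∀ ρ ∈ S, (fun σ => ρ (π σ)) ∈ S := by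
    intro π hπ ρ hρ
    obtain ⟨g, hg⟩ := (hS π).1 hπ
    obtain ⟨g', hg'⟩ := (hS ρ).1 hρ
    refine (hS _).2 ⟨g'.comp g, fun σ => ?_⟩
    rw [RingHom.comp_assoc, hg, hg']
  have hT : ∀ σ₁ τ τ', τ ≠ σ₁ → τ' ≠ σ₁ → ∃ π ∈ S, π σ₁ = σ₁ ∧ π τ = τ' := by
    intro σ₁ τ τ' hτ hτ'
    obtain ⟨g, h1, h2⟩ := hDT σ₁ τ σ₁ τ' hτ.symm hτ'.symm
    exact ⟨fun σ => g.comp σ, (hS _).2 ⟨g, fun _ => rfl⟩, h1, h2⟩
  -- the relation and the group
  have hrelS : ∀ π ∈ S, ∏ x, ∏ σ, v (π σ) x ^ e σ x = ρ := by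
    intro π hπ
    obtain ⟨g, hg⟩ := (hS π).1 hπ
    have h1 := congrArg (Units.map (g : AlgebraicClosure ℚ →* AlgebraicClosure ℚ)) hrel
    have h2 : Units.map (g : AlgebraicClosure ℚ →* AlgebraicClosure ℚ) ρ = ρ := by
      apply Units.ext
      change g (r : AlgebraicClosure ℚ) = r
      exact map_ratCast g r
    rw [h2] at h1
    rw [← h1, Finset.prod_comm, map_prod]
    refine Finset.prod_congr rfl fun σ _ => ?_
    rw [map_prod]
    refine Finset.prod_congr rfl fun x _ => ?_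
    rw [map_zpow]
    congr 1
    apply Units.ext
    change (π σ) (γ x : K) = g (σ (γ x : K))
    rw [← hg]
    rfl
  have hmain : ∀ σ₁ x, (n : ℤ) * e σ₁ x = ∑ σ, e σ x := by
    intro σ₁
    set P := S.filter fun π => π σ₁ = σ₁ with hP
    have hPpos : 0 < P.card := by
      rw [Finset.card_pos]
      refine ⟨id, Finset.mem_filter.2 ⟨(hS _).2 ⟨RingHom.id _, fun σ => RingHom.id_comp σ⟩, rfl⟩⟩
    set D := P.card with hD
    have h1 : ∀ σ x, (∏ π ∈ P, v (π σ) x) ^ (n - 1) =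
        v σ₁ x ^ ((D : ℤ) * ((n : ℤ) * (if σ = σ₁ then 1 else 0) - 1)) := by
      intro σ x
      by_cases h : σ = σ₁
      · rw [if_pos h, h]
        have h2 : ∏ π ∈ P, v (π σ₁) x = v σ₁ x ^ D := by
          rw [hD, ← Finset.prod_const]
          exact Finset.prod_congr rfl fun π hπ => by rw [(Finset.mem_filter.1 hπ).2]
        rw [h2, ← pow_mul, ← zpow_natCast]
        congr 1
        push_cast [Nat.cast_sub hnpos]
        ring
      · rw [if_neg h]
        have h2 := stab_prod S hinj hcomp σ₁ (hT σ₁) σ h (fun τ => v τ x) (hnorm x)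
        rw [hncard] at h2
        rw [h2, inv_pow, ← zpow_natCast, ← zpow_neg]
        congr 1
        ring
    set b : Fin N → ℤ := fun x => (D : ℤ) * ((n : ℤ) * e σ₁ x - ∑ σ, e σ x) with hb
    have h2 : ∏ x, v σ₁ x ^ b x = ρ ^ (D * (n - 1)) := by
      have h3 : ∏ π ∈ P, ∏ x, ∏ σ, v (π σ) x ^ e σ x = ρ ^ D := by
        rw [hD, ← Finset.prod_const]
        exact Finset.prod_congr rfl fun π hπ => hrelS π (Finset.mem_filter.1 hπ).1
      rw [pow_mul, ← h3, Finset.prod_comm, ← Finset.prod_pow]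
      refine Finset.prod_congr rfl fun x _ => ?_
      rw [Finset.prod_comm, ← Finset.prod_pow]
      have h4 : ∀ σ, (∏ π ∈ P, v (π σ) x ^ e σ x) ^ (n - 1) =
          v σ₁ x ^ ((D : ℤ) * ((n : ℤ) * (if σ = σ₁ then 1 else 0) - 1) * e σ x) := by
        intro σ
        rw [zpow_mul, ← h1, Finset.prod_zpow, ← zpow_natCast, ← zpow_natCast, ← zpow_mul,
          ← zpow_mul, mul_comm]
      simp only [h4]
      have h5 : ∀ (s : Finset Ω) (k : Ω → ℤ), ∏ σ ∈ s, v σ₁ x ^ k σ = v σ₁ x ^ (∑ σ ∈ s, k σ) := by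
        intro s k
        induction s using Finset.induction_on with
        | empty => simp
        | insert i s hi ih => rw [Finset.sum_insert hi, Finset.prod_insert hi, zpow_add, ih]
      rw [h5]
      congr 1
      rw [hb]
      simp only [mul_sub, mul_one, sub_mul, Finset.sum_sub_distrib]
      congr 1
      · rw [Finset.sum_eq_single σ₁]
        · rw [if_pos rfl]
          ring
        · intro σ _ hσ
          rw [if_neg hσ]
          ring
        · intro h
          exact absurd (Finset.mem_univ _) h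
      · rw [Finset.mul_sum]
    -- back to `K`
    set z : Kˣ := ∏ x, γ x ^ b x with hz
    have h3 : σ₁ (z : K) = ((r ^ (D * (n - 1)) : ℚ) : AlgebraicClosure ℚ) := by
      have h4 := congrArg Units.val h2
      rw [Units.val_pow_eq_pow_val, hρ, Units.val_mk0] at h4
      push_cast
      rw [← h4, hz, Units.coe_prod, Units.coe_prod, map_prod]
      refine Finset.prod_congr rfl fun x _ => ?_
      rw [Units.val_zpow_eq_zpow_val, Units.val_zpow_eq_zpow_val, map_zpow₀]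
      rfl
    have h4 : (z : K) = algebraMap ℚ K (r ^ (D * (n - 1))) := by
      apply σ₁.injective
      rw [h3, eq_ratCast, map_ratCast]
    have h5 : Algebra.norm ℚ (z : K) = 1 := by
      have h6 : Units.map (Algebra.norm ℚ : K →* ℚ) z = 1 := by
        rw [hz, map_prod]
        refine Finset.prod_eq_one fun x _ => ?_
        have h7 : Units.map (Algebra.norm ℚ : K →* ℚ) (γ x) = 1 := Units.ext (hN x)
        rw [map_zpow, h7, one_zpow]
      exact congrArg Units.val h6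
    have h6 : (r ^ (D * (n - 1))) ^ n = 1 := by
      rw [h4, Algebra.norm_algebraMap] at h5
      exact h5
    have h7 : z ^ (n : ℤ) = 1 := by
      apply Units.ext
      rw [Units.val_zpow_eq_zpow_val, h4, zpow_natCast, ← map_pow, h6, map_one, Units.val_one]
    have h8 := hγ (fun x => b x * n) (by
      rw [← h7, hz, ← Finset.prod_zpow]
      exact Finset.prod_congr rfl fun x _ => zpow_mul _ _ _)
    intro x
    have h9 := congrFun h8 x
    simp only [Pi.zero_apply, mul_eq_zero, hb, Nat.cast_eq_zero, hnpos.ne', hPpos.ne',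
      or_false, false_or] at h9
    linarith
  intro x σ σ'
  have h1 := hmain σ x
  rw [← hmain σ' x] at h1
  exact mul_left_cancel₀ (show (n : ℤ) ≠ 0 by exact_mod_cast hnpos.ne') h1

end Pool.Agent.R350
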