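import Mathlib

/-!
# Linear algebra for the grid theorem

`HypV v L`: the hyperplane property of a space `L` with the bound `d (d + v)`.
-/

set_option autoImplicit false

namespace Pool.Agent.R350

open Module Finset

section

variable {k A : Type*} [Field k] [Field A] [Algebra k A]

/-- hyperplane property with defect `v` -/
def HypV (v : ℕ) (L : Submodule k A) : Prop :=
  ∀ (d l : ℕ) (x : Fin d → A) (a : Fin d → Fin l → A), LinearIndependent k x →
    (∀ i j, a i j ∈ L) → (∀ j, ∑ i, x i * a i j = 0) →
    LinearIndependent k (fun j i => a i j) → l ≤ d * (d + v)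

/-- basis free form of the hyperplane property -/
theorem HypV.dual {v : ℕ} {L : Submodule k A} (h : HypV v L) {κ τ : Type*} [Fintype κ] [Fintype τ]
    (Ω : Submodule k A) [FiniteDimensional k Ω] (ω ℓ : κ → τ → A) (hω : ∀ c t, ω c t ∈ Ω)
    (hℓ : ∀ c t, ℓ c t ∈ L) (h0 : ∀ c, ∑ t, ω c t * ℓ c t = 0)
    (hind : ∀ η : κ → k, (∀ φ : A →ₗ[k] k, ∑ c, η c • ∑ t, φ (ω c t) • ℓ c t = 0) → ∀ c, η c = 0) :
    Fintype.card κ ≤ finrank k Ω * (finrank k Ω + v) := by
  classical
  let b := Module.finBasis k Ω
  let e := Fintype.equivFin κ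
  have hrepr : ∀ c t, ∑ u, (b.repr ⟨ω c t, hω c t⟩ u) • ((b u : Ω) : A) = ω c t := by
    intro c t
    have h1 := b.sum_repr ⟨ω c t, hω c t⟩
    have h2 := congrArg (fun z : Ω => (z : A)) h1
    simp only [Submodule.coe_sum, Submodule.coe_smul] at h2
    exact h2
  refine h (finrank k Ω) (Fintype.card κ) (fun u => ((b u : Ω) : A))
    (fun u j => ∑ t, (b.repr ⟨ω (e.symm j) t, hω _ t⟩ u) • ℓ (e.symm j) t) ?_ ?_ ?_ ?_
  · exact b.linearIndependent.map' Ω.subtype Ω.ker_subtype
  · intro u j
    exact Submodule.sum_mem _ fun t _ => L.smul_mem _ (hℓ _ _)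
  · intro j
    rw [← h0 (e.symm j)]
    simp only [Finset.mul_sum]
    rw [Finset.sum_comm]
    refine Finset.sum_congr rfl fun t _ => ?_
    nth_rewrite 2 [← hrepr (e.symm j) t]
    rw [Finset.sum_mul]
    refine Finset.sum_congr rfl fun u _ => ?_
    rw [mul_smul_comm, smul_mul_assoc]
  · rw [Fintype.linearIndependent_iff]
    intro η hη
    have h1 := hind (fun c => η (e c)) (by
      intro φ
      have h2 : ∀ c : κ, ∑ t, φ (ω c t) • ℓ c t =
          ∑ u, φ ((b u : Ω) : A) • ∑ t, (b.repr ⟨ω c t, hω c t⟩ u) • ℓ c t := by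
        intro c
        simp only [Finset.smul_sum]
        rw [Finset.sum_comm]
        refine Finset.sum_congr rfl fun t _ => ?_
        nth_rewrite 1 [← hrepr c t]
        rw [map_sum, Finset.sum_smul]
        refine Finset.sum_congr rfl fun u _ => ?_
        rw [map_smul, smul_eq_mul, mul_comm, mul_smul]
      calc ∑ c, η (e c) • ∑ t, φ (ω c t) • ℓ c t
          = ∑ c, η (e c) • ∑ u, φ ((b u : Ω) : A) • ∑ t, (b.repr ⟨ω c t, hω c t⟩ u) • ℓ c t :=
            Finset.sum_congr rfl fun c _ => by rw [h2 c]
        _ = ∑ u, φ ((b u : Ω) : A) • ∑ c, η (e c) • ∑ t, (b.repr ⟨ω c t, hω c t⟩ u) • ℓ c t := by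
            simp only [Finset.smul_sum]
            rw [Finset.sum_comm]
            refine Finset.sum_congr rfl fun u _ => Finset.sum_congr rfl fun c _ =>
              Finset.sum_congr rfl fun t _ => ?_
            rw [smul_comm]
        _ = 0 := by
            refine Finset.sum_eq_zero fun u _ => ?_
            have h3 := congrFun hη u
            rw [Finset.sum_apply, Pi.zero_apply] at h3
            have h4 : ∑ c, η (e c) • ∑ t, (b.repr ⟨ω c t, hω c t⟩ u) • ℓ c t = 0 := by
              rw [← h3]
              refine Fintype.sum_equiv e _ _ fun c => ?_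
              rw [Pi.smul_apply]
              simp only [Equiv.symm_apply_apply]
            rw [h4, smul_zero])
    intro j
    have := h1 (e.symm j)
    simpa using this

/-- a functional which vanishes on `W` and has prescribed values on a family independent modulo
`W` -/
theorem exists_dual {ι : Type*} [Fintype ι] (W : Submodule k A) (e : ι → A)
    (he : ∀ c : ι → k, ∑ i, c i • e i ∈ W → ∀ i, c i = 0) (z : ι → k) :
    ∃ φ : A →ₗ[k] k, (∀ w ∈ W, φ w = 0) ∧ ∀ i, φ (e i) = z i := by
  classical
  have hli : LinearIndependent k (fun i => W.mkQ (e i)) := by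
    rw [Fintype.linearIndependent_iff]
    intro c hc
    apply he c
    rw [← Submodule.ker_mkQ W, LinearMap.mem_ker, map_sum]
    simpa using hc
  obtain ⟨ψ, hψ⟩ : ∃ ψ : (A ⧸ W) →ₗ[k] k, ∀ i, ψ (W.mkQ (e i)) = z i := by
    obtain ⟨g, hg⟩ := LinearMap.exists_extend
      ((Fintype.linearCombination k z) ∘ₗ
        (Finsupp.linearEquivFunOnFinite k k ι).toLinearMap ∘ₗ hli.repr)
    refine ⟨g, fun i => ?_⟩
    have hmem : W.mkQ (e i) ∈ Submodule.span k (Set.range fun i => W.mkQ (e i)) :=
      Submodule.subset_span ⟨i, rfl⟩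
    have h1 := LinearMap.congr_fun hg ⟨W.mkQ (e i), hmem⟩
    rw [LinearMap.comp_apply, Submodule.subtype_apply] at h1
    rw [h1]
    have h2 : hli.repr ⟨W.mkQ (e i), hmem⟩ = Finsupp.single i 1 :=
      hli.repr_eq_single i _ rfl
    rw [LinearMap.comp_apply, LinearMap.comp_apply]
    change (Fintype.linearCombination k z) ((Finsupp.linearEquivFunOnFinite k k ι)
      (hli.repr ⟨W.mkQ (e i), hmem⟩)) = z i
    rw [h2, Finsupp.linearEquivFunOnFinite_single, Fintype.linearCombination_apply_single,
      one_smul]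
  refine ⟨ψ ∘ₗ W.mkQ, fun w hw => ?_, fun i => ?_⟩
  · rw [LinearMap.comp_apply, (Submodule.mkQ_apply W w), (Submodule.Quotient.mk_eq_zero W).2 hw,
      map_zero]
  · rw [LinearMap.comp_apply, hψ]

/-- a functional which vanishes on `W` and not at `z` -/
theorem exists_dual_ne (W : Submodule k A) {z : A} (hz : z ∉ W) :
    ∃ φ : A →ₗ[k] k, (∀ w ∈ W, φ w = 0) ∧ φ z = 1 := by
  obtain ⟨φ, h1, h2⟩ := exists_dual (ι := Unit) W (fun _ => z) (by
    intro c hc i
    by_contra h
    apply hz
    simp only [Finset.univ_unique, Finset.sum_singleton] at hc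
    have := W.smul_mem (c i)⁻¹ hc
    rwa [smul_smul, inv_mul_cancel₀ h, one_smul] at this) (fun _ => 1)
  exact ⟨φ, h1, h2 ()⟩

/-- a family which is not independent modulo `W` in any larger subset: deletion -/
theorem deletion {ι : Type*} [Fintype ι] [DecidableEq ι] (w : ι → A) (hw : LinearIndependent k w)
    (V : Submodule k A) [FiniteDimensional k V] :
    ∃ T : Finset ι, Fintype.card ι ≤ T.card + finrank k V ∧
      ∀ c : ι → k, (∀ i ∉ T, c i = 0) → ∑ i, c i • w i ∈ V → ∀ i, c i = 0 := by
  classical
  let P : Finset ι → Prop := fun T =>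
    ∀ c : ι → k, (∀ i ∉ T, c i = 0) → ∑ i, c i • w i ∈ V → ∀ i, c i = 0
  have hP : P ∅ := fun c hc _ i => hc i (Finset.notMem_empty i)
  obtain ⟨T, hT, hmax⟩ := (Finset.univ.filter P).exists_maximal
    ⟨∅, Finset.mem_filter.2 ⟨Finset.mem_univ _, hP⟩⟩
  rw [Finset.mem_filter] at hT
  refine ⟨T, ?_, hT.2⟩
  -- all `w i` are in the span of `V` and the `w i`, `i ∈ T`
  set U : Submodule k A := V ⊔ Submodule.span k ((T.image w : Finset A) : Set A) with hU
  have hUfin : FiniteDimensional k U := by
    rw [hU]; infer_instance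
  have hmem : ∀ i, w i ∈ U := by
    intro i
    by_cases hi : i ∈ T
    · exact Submodule.mem_sup_right (Submodule.subset_span (by
        rw [Finset.coe_image]; exact ⟨i, hi, rfl⟩))
    · have h1 : ¬ P (insert i T) := by
        intro h
        have h2 := hmax (Finset.mem_filter.2 ⟨Finset.mem_univ _, h⟩) (Finset.subset_insert i T)
        exact hi (h2 (Finset.mem_insert_self i T))
      simp only [P] at h1
      push Not at h1
      obtain ⟨c, hc1, hc2, j, hj⟩ := h1
      have hci : c i ≠ 0 := by
        intro h0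
        apply hj
        refine hT.2 c (fun l hl => ?_) hc2 j
        by_cases hli : l = i
        · rw [hli, h0]
        · exact hc1 l (by simp [hli, hl])
      have h3 : c i • w i ∈ U := by
        have h4 : c i • w i = (∑ l, c l • w l) - ∑ l ∈ Finset.univ.erase i, c l • w l := by
          rw [← Finset.add_sum_erase _ _ (Finset.mem_univ i)]
          ring
        rw [h4]
        refine Submodule.sub_mem _ (Submodule.mem_sup_left hc2) (Submodule.sum_mem _ fun l hl => ?_)
        by_cases hlT : l ∈ T
        · exact U.smul_mem _ (Submodule.mem_sup_right (Submodule.subset_span (by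
            rw [Finset.coe_image]; exact ⟨l, hlT, rfl⟩)))
        · rw [hc1 l (by
            rw [Finset.mem_insert, not_or]
            exact ⟨(Finset.mem_erase.1 hl).1, hlT⟩), zero_smul]
          exact U.zero_mem
      have h5 := U.smul_mem (c i)⁻¹ h3
      rwa [smul_smul, inv_mul_cancel₀ hci, one_smul] at h5
  have h6 : Fintype.card ι ≤ finrank k U := by
    have h7 : LinearIndependent k (fun i => (⟨w i, hmem i⟩ : U)) := by
      apply LinearIndependent.of_comp U.subtype
      exact hw
    exact h7.fintype_card_le_finrank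
  have h8 : finrank k U ≤ finrank k V + T.card := by
    refine (Submodule.finrank_add_le_finrank_add_finrank _ _).trans ?_
    gcongr
    exact (finrank_span_finset_le_card _).trans Finset.card_image_le
  omega

end

end Pool.Agent.R350
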