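import Pool.Agent.R350.TwoRate

/-!
# Linear relations with generic coefficients are alternating
-/

set_option autoImplicit false

namespace Pool.Agent.R350

open Module Finset Pool.Agent.W245 Pool.Agent.W245.PB Pool.Agent.TH681.QC

section

variable {κ C : Type} [Field κ] [Field C] [Algebra κ C]

/-- the members of `f` are generic over `V` -/
def Gen (v : ℕ) (L V : Submodule κ C) {k : ℕ} (f : Fin k → C) : Prop :=
  ∀ j : Fin k, f j ∉ suppSp v L (stage V f j) ⊔ stage V f j ∧
    ¬ Exc L (stage V f j) (Submodule.span κ {1}) (f j)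

theorem stage_le {V L : Submodule κ C} (hV : V ≤ L) {k : ℕ} {f : Fin k → C} (hf : ∀ i, f i ∈ L)
    (n : ℕ) : stage V f n ≤ L := by
  refine sup_le hV ?_
  rw [Submodule.span_le]
  rintro _ ⟨i, -, rfl⟩
  exact hf i

/-- **Relations with generic coefficients are alternating.** -/
theorem skewness {v : ℕ} {L V : Submodule κ C} (hL : HypV v L) (hVL : V ≤ L) [Module.Finite κ V]
    {k : ℕ} (f : Fin k → C) (hf : ∀ i, f i ∈ L) (hgen : Gen v L V f) (φ : C →ₗ[κ] κ) :
    ∀ n ≤ k, ∀ T : Submodule κ C, T ≤ stage V f n →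
      (∀ (τ : Type) [Fintype τ] (ω ℓ : τ → C), (∀ t, ω t ∈ T ⊓ V) → (∀ t, ℓ t ∈ L) →
        ∑ t, ω t * ℓ t = 0 → ∑ t, φ (ω t) • ℓ t = 0) →
      ∀ (τ : Type) [Fintype τ] (ω ℓ : τ → C), (∀ t, ω t ∈ T) → (∀ t, ℓ t ∈ L) →
        ∑ t, ω t * ℓ t = 0 →
        ∑ t, φ (ω t) • ℓ t ∈ T ∧ φ (∑ t, φ (ω t) • ℓ t) = 0 := by
  classical
  intro n
  induction n with
  | zero =>
    intro _ T hT hbase τ _ ω ℓ hω hℓ h0
    rw [stage_zero] at hT
    have h1 := hbase τ ω ℓ (fun t => ⟨hω t, hT (hω t)⟩) hℓ h0
    rw [h1]
    exact ⟨T.zero_mem, map_zero φ⟩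
  | succ n ih =>
    intro hn T hT hbase τ _ ω ℓ hω hℓ h0
    by_cases hTn : T ≤ stage V f n
    · exact ih (by omega) T hTn hbase τ ω ℓ hω hℓ h0
    have hstf := stage_finite V f n
    set z := f ⟨n, by omega⟩ with hz
    have hzs : stage V f (n + 1) = stage V f n ⊔ Submodule.span κ {z} :=
      stage_succ V f n (by omega)
    have hzF := (hgen ⟨n, by omega⟩).1
    have hzE := (hgen ⟨n, by omega⟩).2
    change z ∉ suppSp v L (stage V f n) ⊔ stage V f n at hzF
    change ¬ Exc L (stage V f n) (Submodule.span κ {1}) z at hzE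
    have hzn : z ∉ stage V f n := fun h => hzF (Submodule.mem_sup_right h)
    have hzL : z ∈ L := hf _
    have hstL := stage_le hVL hf n
    -- the coordinate
    obtain ⟨c, hc0, hc1⟩ := exists_dual_ne (stage V f n) hzn
    have hrep : ∀ t ∈ T, t - c t • z ∈ stage V f n := by
      intro t ht
      have h1 := hT ht
      rw [hzs] at h1
      obtain ⟨s, hs, w, hw, rfl⟩ := Submodule.mem_sup.1 h1
      obtain ⟨α, rfl⟩ := Submodule.mem_span_singleton.1 hw
      rw [map_add, hc0 s hs, map_smul, hc1, zero_add, smul_eq_mul, mul_one, add_sub_cancel_right]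
      exact hs
    obtain ⟨t1, ht1T, ht1⟩ : ∃ t1 ∈ T, c t1 ≠ 0 := by
      by_contra hno
      push Not at hno
      apply hTn
      intro t ht
      have h1 := hrep t ht
      rwa [hno t ht, zero_smul, sub_zero] at h1
    set t0 : C := (c t1)⁻¹ • t1 with ht0
    have ht0T : t0 ∈ T := T.smul_mem _ ht1T
    have hct0 : c t0 = 1 := by
      rw [ht0, map_smul, smul_eq_mul, inv_mul_cancel₀ ht1]
    have ht' : t0 - z ∈ stage V f n := by
      have h1 := hrep t0 ht0T
      rwa [hct0, one_smul] at h1
    have ht0L : t0 ∈ L := by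
      have h1 := L.add_mem (hstL ht') hzL
      rwa [sub_add_cancel] at h1
    set T' : Submodule κ C := T ⊓ stage V f n with hT'
    set ω' : τ → C := fun t => ω t - c (ω t) • t0 with hω'
    have hω'T : ∀ t, ω' t ∈ T' := by
      intro t
      refine ⟨T.sub_mem (hω t) (T.smul_mem _ ht0T), ?_⟩
      have h1 := (stage V f n).sub_mem (hrep _ (hω t)) ((stage V f n).smul_mem (c (ω t)) ht')
      refine (congrArg (· ∈ stage V f n) ?_).mp h1
      simp only [hω', smul_sub]
      abel
    set y : C := ∑ t, c (ω t) • ℓ t with hy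
    have hyL : y ∈ L := Submodule.sum_mem _ fun t _ => L.smul_mem _ (hℓ t)
    have hrel : t0 * y + ∑ t, ω' t * ℓ t = 0 := by
      rw [← h0, hy, Finset.mul_sum, ← Finset.sum_add_distrib]
      refine Finset.sum_congr rfl fun t _ => ?_
      simp only [hω', sub_mul, mul_smul_comm, smul_mul_assoc]
      ring
    -- first step
    have hyΩ : y ∈ stage V f n := by
      by_contra hno
      apply hzE
      refine ⟨y, ?_, hno, ?_⟩
      · have := Submodule.mul_mem_mul (Submodule.mem_span_singleton_self (R := κ) (1 : C)) hyL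
        rwa [one_mul] at this
      · have h1 : z * y = -((t0 - z) * y) - ∑ t, ω' t * ℓ t := by
          linear_combination hrel
        rw [h1]
        refine Submodule.sub_mem _ (Submodule.neg_mem _ (Submodule.mul_mem_mul ht' hyL))
          (Submodule.sum_mem _ fun t _ => Submodule.mul_mem_mul (hω'T t).2 (hℓ t))
    -- second step
    have hyT : y ∈ T' := by
      by_contra hno
      obtain ⟨ψ, hψ0, hψ1⟩ := exists_dual_ne T' hno
      have h1 := (suppSp_spec hL (stage V f n)).2.2.2 (τ ⊕ Unit)
        (Sum.elim ω' (fun _ => y)) (Sum.elim ℓ (fun _ => t0)) (by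
          rintro (t | u)
          · exact (hω'T t).2
          · exact hyΩ) (by
          rintro (t | u)
          · exact hℓ t
          · exact ht0L) (by
          rw [Fintype.sum_sum_type]
          simp only [Sum.elim_inl, Sum.elim_inr, Finset.univ_unique, Finset.sum_singleton]
          rw [← hrel]; ring) ψ
      rw [Fintype.sum_sum_type] at h1
      simp only [Sum.elim_inl, Sum.elim_inr, Finset.univ_unique, Finset.sum_singleton] at h1
      rw [Finset.sum_eq_zero (fun t _ => by rw [hψ0 _ (hω'T t), zero_smul]), hψ1, one_smul,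
        zero_add] at h1
      apply hzF
      have h2 := Submodule.sub_mem _ (Submodule.mem_sup_left (T := stage V f n) h1)
        (Submodule.mem_sup_right (S := suppSp v L (stage V f n)) ht')
      rwa [sub_sub_cancel] at h2
    -- third step
    obtain ⟨h1, h2⟩ := ih (by omega) T' inf_le_right (by
      intro τ' _ ω'' ℓ'' h3 h4 h5
      exact hbase τ' ω'' ℓ'' (fun t => ⟨(h3 t).1.1, (h3 t).2⟩) h4 h5) (τ ⊕ Unit)
        (Sum.elim ω' (fun _ => y)) (Sum.elim ℓ (fun _ => t0)) (by
          rintro (t | u)
          · exact hω'T t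
          · exact hyT) (by
          rintro (t | u)
          · exact hℓ t
          · exact ht0L) (by
          rw [Fintype.sum_sum_type]
          simp only [Sum.elim_inl, Sum.elim_inr, Finset.univ_unique, Finset.sum_singleton]
          rw [← hrel]; ring)
    rw [Fintype.sum_sum_type] at h1 h2
    simp only [Sum.elim_inl, Sum.elim_inr, Finset.univ_unique, Finset.sum_singleton] at h1 h2
    have h3 : ∑ t, φ (ω t) • ℓ t = (∑ t, φ (ω' t) • ℓ t + φ y • t0) +
        (φ t0 • y - φ y • t0) := by
      have h4 : ∑ t, φ (ω t) • ℓ t = ∑ t, φ (ω' t) • ℓ t + φ t0 • y := by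
        rw [hy, Finset.smul_sum, ← Finset.sum_add_distrib]
        refine Finset.sum_congr rfl fun t _ => ?_
        simp only [hω', map_sub, map_smul, smul_eq_mul, sub_smul, smul_smul]
        rw [mul_comm (c (ω t))]
        abel
      rw [h4]
      abel
    rw [h3]
    refine ⟨T.add_mem h1.1 (T.sub_mem (T.smul_mem _ hyT.1) (T.smul_mem _ ht0T)), ?_⟩
    rw [map_add, h2, map_sub, LinearMap.map_smul φ (φ t0) y, LinearMap.map_smul φ (φ y) t0,
      smul_eq_mul, smul_eq_mul, mul_comm, sub_self, add_zero]

/-- the members of a generic family are independent modulo `V` -/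
theorem Gen.indep {v : ℕ} {L V : Submodule κ C} [Module.Finite κ V] {k : ℕ} {f : Fin k → C}
    (hgen : Gen v L V f) (c : Fin k → κ) (hc : ∑ i, c i • f i ∈ V) : ∀ i, c i = 0 := by
  classical
  have main : ∀ n ≤ k, ∀ i : Fin k, k - n ≤ i.val → c i = 0 := by
    intro n
    induction n with
    | zero => intro _ i hi; exact absurd i.2 (by omega)
    | succ n ih =>
      intro hn i hi
      by_cases hi' : k - n ≤ i.val
      · exact ih (by omega) i hi'
      have hival : i.val = k - (n + 1) := by omega
      by_contra hne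
      have h1 : ∑ j, c j • f j = c i • f i + ∑ j ∈ Finset.univ.erase i, c j • f j :=
        (Finset.add_sum_erase _ _ (Finset.mem_univ i)).symm
      have h2 : ∑ j ∈ Finset.univ.erase i, c j • f j ∈ stage V f i := by
        refine Submodule.sum_mem _ fun j hj => ?_
        by_cases hj' : j.val < i.val
        · exact Submodule.smul_mem _ _ (mem_stage V f hj')
        · have hji : j ≠ i := (Finset.mem_erase.1 hj).1
          have : i.val ≠ j.val := fun h => hji (Fin.ext h.symm)
          rw [ih (by omega) j (by omega), zero_smul]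
          exact Submodule.zero_mem _
      have h3 : c i • f i ∈ stage V f i := by
        have h4 := Submodule.sub_mem _ (le_stage V f i hc) h2
        rwa [h1, add_sub_cancel_right] at h4
      have h4 := Submodule.smul_mem _ (c i)⁻¹ h3
      rw [smul_smul, inv_mul_cancel₀ hne, one_smul] at h4
      exact (hgen i).1 (Submodule.mem_sup_right h4)
  intro i
  exact main k le_rfl i (by omega)

/-- the coefficient spaces -/
theorem stage_pred (V : Submodule κ C) [Module.Finite κ V] (lg : ℕ → C) (k : ℕ) {m : ℕ}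
    (hV : finrank κ V ≤ m) {M : ℕ} (hM : m + k ≤ M) :
    Pred M (fun (j : Fin k) (a : Fin k → ℕ) => stage V (fun i => lg (a i)) j) := by
  refine ⟨fun j a b hab => ?_, fun j a => ?_, fun j a => ?_⟩
  · exact stage_congr V (f := fun i => lg (a i)) (g := fun i => lg (b i)) j
      (fun i hi => by rw [hab i hi])
  · exact stage_finite V (fun i => lg (a i)) j
  · exact (finrank_stage_le V (fun i => lg (a i)) j).trans (by omega)

end

/-- **Almost all tuples are generic.** -/
theorem rate_gen (k m v : ℕ) : ∃ c : ℕ, ∀ x ≥ 16, ∀ (κ C : Type) [Field κ] [Field C]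
    [Algebra κ C] (lg : ℕ → C) (L : Submodule κ C), Setup v lg L →
    ∀ V : Submodule κ C, Module.Finite κ V →
    finrank κ V ≤ m → ∀ B : Finset (Fin k → ℕ),
    B ⊆ Fintype.piFinset (fun _ : Fin k => Ioc 0 x) →
    (∀ a ∈ B, ¬ Gen (v + m) (L ⊔ V) V (fun i => lg (a i))) →
    (B.card : ℝ) ≤ er c x * x ^ k := by
  classical
  set N := m + k + 1 with hN
  obtain ⟨c, hc⟩ := chain (N * (N + (v + m)) * N + N) (v + m) k
  refine ⟨c, fun x hx κ C _ _ _ lg L hS V hVf hVm B hB hbad => ?_⟩
  have hS' := hS.sup V hVm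
  have hP := stage_pred (M := N) V lg k hVm (by omega)
  refine hc x hx κ C lg (L ⊔ V) hS' (fun (j : Fin k) (a : Fin k → ℕ) => stage V (fun i => lg (a i)) j)
    (fun _ _ => Submodule.span κ {1})
    (fun j a => suppSp (v + m) (L ⊔ V) (stage V (fun i => lg (a i)) j) ⊔
        stage V (fun i => lg (a i)) j) (stage_pred V lg k hVm (by omega))
    (const_pred _ span_one_finite (finrank_span_one_le.trans (by omega)))
    (supp_pred hS'.hyp hP le_rfl) B hB ?_
  intro a haB
  by_contra hno
  push Not at hno
  refine hbad a haB (fun j => ⟨fun h => hno j (Or.inl h), fun h => hno j (Or.inr h)⟩)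

end Pool.Agent.R350
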