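import Pool.Agent.R350.Lin

/-!
# Sunflowers of subspaces, and the key lemma
-/

set_option autoImplicit false

namespace Pool.Agent.R350

open Module Finset

section

variable {k A : Type*} [Field k] [Field A] [Algebra k A]

/-- the spaces `R d`, `d ∈ D`, are independent modulo `W` -/
def IndFam {ι : Type*} (W : Submodule k A) (R : ι → Submodule k A) (D : Finset ι) : Prop :=
  ∀ v : ι → A, (∀ d ∈ D, v d ∈ R d ⊔ W) → ∑ d ∈ D, v d ∈ W → ∀ d ∈ D, v d ∈ W

theorem IndFam.mono {ι : Type*} {W : Submodule k A} {R : ι → Submodule k A} {D D' : Finset ι}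
    (h : IndFam W R D) (hD : D' ⊆ D) : IndFam W R D' := by
  classical
  intro v hv hs d hd
  have h1 := h (fun d => if d ∈ D' then v d else 0) (fun d hd => by
    by_cases h' : d ∈ D'
    · simp only [h', if_true]
      exact hv d h'
    · simp only [h', if_false]
      exact Submodule.zero_mem _) (by
    rw [← Finset.sum_subset hD (f := fun d => if d ∈ D' then v d else 0)]
    · rw [Finset.sum_congr rfl (fun d hd => if_pos hd)]
      exact hs
    · intro d _ hd'
      rw [if_neg hd']) d (hD hd)
  simpa [hd] using h1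

/-- the number of subspaces needed for a sunflower -/
def sB (Φ : ℕ → ℕ) : ℕ → ℕ → ℕ
  | 0, n0 => Φ n0
  | (r + 1), n0 => sB Φ r (n0 + (r + 1) * Φ n0) + Φ n0

theorem sunflower (Φ : ℕ → ℕ) (hΦ : Monotone Φ) {ι : Type} (R : ι → Submodule k A)
    (hRf : ∀ d, FiniteDimensional k (R d)) (r : ℕ) : ∀ n0 : ℕ,
    ∀ (W0 : Submodule k A) (D0 : Finset ι), FiniteDimensional k W0 → finrank k W0 ≤ n0 →
      (∀ d ∈ D0, finrank k (R d ⊔ W0 : Submodule k A) ≤ finrank k W0 + r) →
      sB Φ r n0 ≤ D0.card →
      ∃ W : Submodule k A, W0 ≤ W ∧ FiniteDimensional k W ∧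
        ∃ D ⊆ D0, Φ (finrank k W) ≤ D.card ∧ IndFam W R D := by
  classical
  induction r with
  | zero =>
    intro n0 W0 D0 hWf hW0 hR hB
    refine ⟨W0, le_rfl, hWf, D0, Subset.rfl, (hΦ hW0).trans hB, ?_⟩
    intro v hv _ d hd
    have h1 : W0 = R d ⊔ W0 := by
      have := hRf d
      apply Submodule.eq_of_le_of_finrank_le le_sup_right
      have := hR d hd
      omega
    have h2 := hv d hd
    rwa [← h1] at h2
  | succ r ih =>
    intro n0 W0 D0 hWf hW0 hR hB
    have h := ih (n0 + (r + 1) * Φ n0)
    change sB Φ r (n0 + (r + 1) * Φ n0) + Φ n0 ≤ D0.card at hB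
    obtain ⟨D, hD, hmax⟩ := (D0.powerset.filter (IndFam W0 R)).exists_maximal
      ⟨∅, Finset.mem_filter.2 ⟨Finset.empty_mem_powerset _, fun v _ _ d hd => absurd hd
        (Finset.notMem_empty d)⟩⟩
    rw [Finset.mem_filter, Finset.mem_powerset] at hD
    rcases Nat.lt_or_ge D.card (Φ (finrank k W0)) with hlt | hge
    · -- enlarge the space
      set W1 : Submodule k A := W0 ⊔ ⨆ d ∈ D, R d with hW1
      have hW1f : FiniteDimensional k W1 := by
        have : FiniteDimensional k (⨆ d ∈ D, R d : Submodule k A) := by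
          have := hRf
          exact Submodule.finite_finset_sup D R |> fun h => by
            rwa [Finset.sup_eq_iSup] at h
        rw [hW1]; infer_instance
      have hW1r : ∀ D' ⊆ D, finrank k (W0 ⊔ ⨆ d ∈ D', R d : Submodule k A) ≤
          finrank k W0 + (r + 1) * D'.card := by
        intro D'
        induction D' using Finset.induction_on with
        | empty =>
          intro _
          have : (W0 ⊔ ⨆ d ∈ (∅ : Finset ι), R d : Submodule k A) = W0 := by simp
          rw [this]
          simp
        | insert d D' hd ih' =>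
          intro hsub
          have h1 := ih' ((Finset.subset_insert d D').trans hsub)
          have hdD : d ∈ D := hsub (Finset.mem_insert_self d D')
          have h2 : (W0 ⊔ ⨆ e ∈ insert d D', R e : Submodule k A) =
              (R d ⊔ W0) ⊔ (W0 ⊔ ⨆ e ∈ D', R e) := by
            rw [Finset.iSup_insert]
            apply le_antisymm
            · refine sup_le (le_sup_of_le_right le_sup_left) (sup_le
                (le_sup_of_le_left le_sup_left) (le_sup_of_le_right le_sup_right))
            · refine sup_le (sup_le (le_sup_of_le_right le_sup_left) le_sup_left)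
                (sup_le le_sup_left (le_sup_of_le_right le_sup_right))
          have := hRf d
          have : FiniteDimensional k (⨆ e ∈ D', R e : Submodule k A) := by
            have := hRf
            exact Submodule.finite_finset_sup D' R |> fun h => by
              rwa [Finset.sup_eq_iSup] at h
          rw [h2, Finset.card_insert_of_notMem hd]
          have h3 := Submodule.finrank_sup_add_finrank_inf_eq (R d ⊔ W0)
            (W0 ⊔ ⨆ e ∈ D', R e : Submodule k A)
          have h4 : finrank k W0 ≤ finrank k ((R d ⊔ W0) ⊓ (W0 ⊔ ⨆ e ∈ D', R e) :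
              Submodule k A) :=
            Submodule.finrank_mono (le_inf le_sup_right le_sup_left)
          have h5 := hR d (hD.1 hdD)
          have h6 : (r + 1) * (D'.card + 1) = (r + 1) * D'.card + (r + 1) := by ring
          omega
      have hW1n : finrank k W1 ≤ n0 + (r + 1) * Φ n0 := by
        refine (hW1r D Subset.rfl).trans ?_
        have h1 : D.card ≤ Φ n0 := hlt.le.trans (hΦ hW0)
        have h2 : (r + 1) * D.card ≤ (r + 1) * Φ n0 := Nat.mul_le_mul_left _ h1
        omega
      have hstep : ∀ d ∈ D0 \ D, finrank k (R d ⊔ W1 : Submodule k A) ≤ finrank k W1 + r := by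
        intro d hd
        rw [Finset.mem_sdiff] at hd
        have h1 : ¬ IndFam W0 R (insert d D) := by
          intro h'
          have h2 := hmax (Finset.mem_filter.2 ⟨Finset.mem_powerset.2
            (Finset.insert_subset hd.1 hD.1), h'⟩) (Finset.subset_insert d D)
          exact hd.2 (h2 (Finset.mem_insert_self d D))
        unfold IndFam at h1
        push Not at h1
        obtain ⟨v, hv, hs, e, he, hve⟩ := h1
        have hvd : v d ∉ W0 := by
          intro h0
          apply hve
          rcases Finset.mem_insert.1 he with rfl | heD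
          · exact h0
          · refine hD.2 v (fun d' hd' => hv d' (Finset.mem_insert_of_mem hd')) ?_ e heD
            rw [Finset.sum_insert hd.2] at hs
            have := W0.sub_mem hs h0
            rwa [add_sub_cancel_left] at this
        have hvW1 : v d ∈ W1 := by
          rw [Finset.sum_insert hd.2] at hs
          have h2 : ∑ e ∈ D, v e ∈ W1 := by
            refine Submodule.sum_mem _ fun e he => ?_
            refine (sup_le ?_ le_sup_left : R e ⊔ W0 ≤ W1) (hv e (Finset.mem_insert_of_mem he))
            exact le_sup_of_le_right (le_iSup₂_of_le e he le_rfl)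
          have h3 := W1.sub_mem ((le_sup_left : W0 ≤ W1) hs) h2
          rwa [add_sub_cancel_right] at h3
        have := hRf d
        have h3 := Submodule.finrank_sup_add_finrank_inf_eq (R d ⊔ W0) W1
        have h4 : finrank k W0 < finrank k ((R d ⊔ W0) ⊓ W1 : Submodule k A) := by
          apply Submodule.finrank_lt_finrank_of_lt
          refine lt_of_le_of_ne (le_inf le_sup_right le_sup_left) ?_
          intro heq
          apply hvd
          rw [heq]
          exact ⟨hv d (Finset.mem_insert_self d D), hvW1⟩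
        have h5 := hR d hd.1
        have h6 : ((R d ⊔ W0) ⊔ W1 : Submodule k A) = R d ⊔ W1 := by
          rw [sup_assoc, sup_eq_right.2 (le_sup_left : W0 ≤ W1)]
        rw [h6] at h3
        omega
      obtain ⟨W, h1, h2, D', h4, h5, h6⟩ := h W1 (D0 \ D) hW1f hW1n hstep (by
        have h1 : D.card ≤ Φ n0 := hlt.le.trans (hΦ hW0)
        have h2 := Finset.le_card_sdiff D D0
        omega)
      exact ⟨W, le_sup_left.trans h1, h2, D', h4.trans Finset.sdiff_subset, h5, h6⟩
    · exact ⟨W0, le_rfl, hWf, D, hD.1, hge, hD.2⟩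

/-- **Key lemma.** -/
theorem key {v : ℕ} {L : Submodule k A} (hL : HypV v L) {ι τ : Type*} [Fintype τ]
    (Ω Ω0 W : Submodule k A) [FiniteDimensional k Ω] (R : ι → Submodule k A) (D : Finset ι)
    (hR : IndFam W R D) (ω ℓ : ι → τ → A) (φ : ι → (A →ₗ[k] k))
    (hω : ∀ d ∈ D, ∀ t, ω d t ∈ Ω) (hℓ : ∀ d ∈ D, ∀ t, ℓ d t ∈ L)
    (h0 : ∀ d ∈ D, ∑ t, ω d t * ℓ d t = 0) (hφ : ∀ d ∈ D, ∀ z ∈ Ω0, φ d z = 0)
    (hterm : ∀ d ∈ D, ∀ t, ω d t ∈ Ω0 ∨ ℓ d t ∈ R d ⊔ W)
    (hbad : ∀ d ∈ D, ∑ t, φ d (ω d t) • ℓ d t ∉ W) :
    D.card ≤ finrank k Ω * (finrank k Ω + v) := by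
  classical
  have h := hL.dual (κ := D) (τ := τ) Ω (fun d t => ω d t) (fun d t => ℓ d t)
    (fun d t => hω d d.2 t) (fun d t => hℓ d d.2 t) (fun d => h0 d d.2) ?_
  · rwa [Fintype.card_coe] at h
  intro η hη d0
  have h1 := hη (φ d0)
  let v : ι → A := fun d => if hd : d ∈ D then η ⟨d, hd⟩ • ∑ t, φ d0 (ω d t) • ℓ d t else 0
  have hv : ∀ d : D, v d = η d • ∑ t, φ d0 (ω d t) • ℓ d t := fun d => by
    simp only [v, d.2, dif_pos, Subtype.coe_eta]
  have h2 := hR v (fun d hd => by
    rw [hv ⟨d, hd⟩]
    refine Submodule.smul_mem _ _ (Submodule.sum_mem _ fun t _ => ?_)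
    rcases hterm d hd t with h3 | h3
    · rw [hφ d0 d0.2 _ h3, zero_smul]
      exact Submodule.zero_mem _
    · exact Submodule.smul_mem _ _ h3) (by
    rw [← Finset.sum_coe_sort D v]
    simp only [hv]
    rw [h1]
    exact W.zero_mem) d0 d0.2
  rw [hv d0] at h2
  by_contra hne
  apply hbad d0 d0.2
  have := W.smul_mem (η d0)⁻¹ h2
  rwa [smul_smul, inv_mul_cancel₀ hne, one_smul] at this

end

end Pool.Agent.R350
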