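import Pool.Agent.R350.Dens

/-!
# Singular `2 × 2` matrices with a generic row
-/

set_option autoImplicit false

namespace Pool.Agent.R350

open Module Finset

/-! ### Stages -/

section

variable {K C : Type*} [Field K] [Field C] [Algebra K C]

/-- the space generated by `V` and the first `n` members of `f` -/
def stage (V : Submodule K C) {k : ℕ} (f : Fin k → C) (n : ℕ) : Submodule K C :=
  V ⊔ Submodule.span K (f '' {i | i.val < n})

theorem stage_zero (V : Submodule K C) {k : ℕ} (f : Fin k → C) : stage V f 0 = V := by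
  unfold stage
  have : {i : Fin k | i.val < 0} = ∅ := by ext i; simp
  rw [this, Set.image_empty, Submodule.span_empty, sup_bot_eq]

theorem stage_full (V : Submodule K C) {k : ℕ} (f : Fin k → C) :
    stage V f k = V ⊔ Submodule.span K (Set.range f) := by
  unfold stage
  have : {i : Fin k | i.val < k} = Set.univ := by ext i; simp
  rw [this, Set.image_univ]

theorem stage_succ (V : Submodule K C) {k : ℕ} (f : Fin k → C) (n : ℕ) (hn : n < k) :
    stage V f (n + 1) = stage V f n ⊔ Submodule.span K {f ⟨n, hn⟩} := by
  unfold stage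
  have : {i : Fin k | i.val < n + 1} = insert ⟨n, hn⟩ {i : Fin k | i.val < n} := by
    ext i
    simp only [Set.mem_ofPred_eq, Set.mem_insert_iff, Fin.ext_iff]
    omega
  rw [this, Set.image_insert_eq, Submodule.span_insert, sup_comm (Submodule.span K {f ⟨n, hn⟩}),
    sup_assoc]

theorem le_stage (V : Submodule K C) {k : ℕ} (f : Fin k → C) (n : ℕ) : V ≤ stage V f n :=
  le_sup_left

theorem mem_stage (V : Submodule K C) {k : ℕ} (f : Fin k → C) {n : ℕ} {i : Fin k}
    (hi : i.val < n) : f i ∈ stage V f n :=
  Submodule.mem_sup_right (Submodule.subset_span ⟨i, hi, rfl⟩)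

theorem stage_finite (V : Submodule K C) [hV : Module.Finite K V] {k : ℕ} (f : Fin k → C)
    (n : ℕ) : Module.Finite K (stage V f n) := by
  have : Module.Finite K (Submodule.span K (f '' {i : Fin k | i.val < n})) :=
    FiniteDimensional.span_of_finite K (Set.toFinite _)
  unfold stage
  infer_instance

theorem finrank_stage_le (V : Submodule K C) [hV : Module.Finite K V] {k : ℕ} (f : Fin k → C)
    (n : ℕ) : finrank K (stage V f n) ≤ finrank K V + k := by
  classical
  have h0 : Module.Finite K (Submodule.span K (Set.range f)) :=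
    FiniteDimensional.span_of_finite K (Set.finite_range f)
  have h1 : stage V f n ≤ V ⊔ Submodule.span K (Set.range f) :=
    sup_le_sup_left (Submodule.span_mono (Set.image_subset_range _ _)) _
  have h2 : finrank K (V ⊔ Submodule.span K (Set.range f) : Submodule K C) ≤
      finrank K V + k := by
    refine (Submodule.finrank_add_le_finrank_add_finrank _ _).trans ?_
    have := finrank_range_le_card (R := K) f
    rw [Set.finrank, Fintype.card_fin] at this
    exact Nat.add_le_add_left this _
  exact (Submodule.finrank_mono h1).trans h2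

theorem stage_congr (V : Submodule K C) {k : ℕ} {f g : Fin k → C} (n : ℕ)
    (h : ∀ i, i.val < n → f i = g i) : stage V f n = stage V g n := by
  unfold stage
  congr 2
  exact Set.image_congr fun i hi => h i hi

end

/-! ### The support space -/

section

variable {κ C : Type*} [Field κ] [Field C] [Algebra κ C]

/-- the property of the support space -/
def IsSupp (v : ℕ) (L Ω F : Submodule κ C) : Prop :=
  FiniteDimensional κ F ∧
      finrank κ F ≤ finrank κ Ω * (finrank κ Ω + v) * finrank κ Ω ∧ F ≤ L ∧
      ∀ (τ : Type) [Fintype τ] (ω ℓ : τ → C), (∀ t, ω t ∈ Ω) → (∀ t, ℓ t ∈ L) →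
        ∑ t, ω t * ℓ t = 0 → ∀ φ : C →ₗ[κ] κ, ∑ t, φ (ω t) • ℓ t ∈ F

open Classical in
/-- a support space of the relations over `Ω` -/
noncomputable def suppSp (v : ℕ) (L Ω : Submodule κ C) : Submodule κ C :=
  if h : ∃ F, IsSupp v L Ω F then h.choose else ⊥

theorem suppSp_spec {v : ℕ} {L : Submodule κ C} (hL : HypV v L) (Ω : Submodule κ C)
    [FiniteDimensional κ Ω] : IsSupp v L Ω (suppSp v L Ω) := by
  classical
  have h : ∃ F, IsSupp v L Ω F := exists_support hL Ω
  unfold suppSp
  rw [dif_pos h]
  exact h.choose_spec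

/-- the space of coefficients attached to a space over a smaller field -/
def hullSp (κ : Type*) {K C : Type*} [Field κ] [Field K] [Field C] [Algebra κ C] [Algebra K C]
    (V : Submodule K C) : Submodule κ C := Submodule.span κ {1} ⊔ Submodule.span κ (V : Set C)

end

section

variable {K κ C : Type*} [Field K] [Field κ] [Field C] [Algebra K C] [Algebra κ C] [Algebra K κ]
  [IsScalarTower K κ C]

theorem span_eq_of_basis (V : Submodule K C) [Module.Finite K V] :
    ∃ f : Fin (finrank K V) → C, Submodule.span κ (V : Set C) = Submodule.span κ (Set.range f) := by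
  let b := Module.finBasis K V
  refine ⟨fun u => ((b u : V) : C), le_antisymm ?_ ?_⟩
  · rw [Submodule.span_le]
    intro z hz
    have h1 := b.sum_repr ⟨z, hz⟩
    have h2 := congrArg (fun z : V => (z : C)) h1
    simp only [Submodule.coe_sum, Submodule.coe_smul] at h2
    rw [SetLike.mem_coe, ← h2]
    refine Submodule.sum_mem _ fun u _ => ?_
    rw [← algebraMap_smul κ (b.repr ⟨z, hz⟩ u)]
    exact Submodule.smul_mem _ _ (Submodule.subset_span ⟨u, rfl⟩)
  · refine Submodule.span_mono ?_
    rintro _ ⟨u, rfl⟩
    exact (b u).2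

include K in
theorem spanK_finite (V : Submodule K C) [Module.Finite K V] :
    Module.Finite κ (Submodule.span κ (V : Set C)) := by
  obtain ⟨f, hf⟩ := span_eq_of_basis (κ := κ) V
  rw [hf]
  exact FiniteDimensional.span_of_finite κ (Set.finite_range f)

theorem finrank_spanK_le (V : Submodule K C) [Module.Finite K V] :
    finrank κ (Submodule.span κ (V : Set C)) ≤ finrank K V := by
  obtain ⟨f, hf⟩ := span_eq_of_basis (κ := κ) V
  rw [hf]
  have := finrank_range_le_card (R := κ) f
  rwa [Set.finrank, Fintype.card_fin] at this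

theorem hullSp_finite (V : Submodule K C) [Module.Finite K V] :
    Module.Finite κ (hullSp κ V) := by
  have h1 := spanK_finite (κ := κ) V
  unfold hullSp
  infer_instance

theorem finrank_hullSp_le (V : Submodule K C) [Module.Finite K V] :
    finrank κ (hullSp κ V) ≤ finrank K V + 1 := by
  classical
  have h1 := spanK_finite (κ := κ) V
  refine (Submodule.finrank_add_le_finrank_add_finrank _ _).trans ?_
  have h2 := finrank_spanK_le (κ := κ) V
  have h3 : finrank κ (Submodule.span κ ({1} : Set C)) ≤ 1 := by
    have := finrank_span_finset_le_card (R := κ) ({1} : Finset C)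
    rwa [Finset.coe_singleton, Finset.card_singleton] at this
  omega

theorem one_mem_hullSp (V : Submodule K C) : (1 : C) ∈ hullSp κ V :=
  Submodule.mem_sup_left (Submodule.mem_span_singleton_self _)

theorem mem_hullSp (V : Submodule K C) {z : C} (hz : z ∈ V) : z ∈ hullSp κ V :=
  Submodule.mem_sup_right (Submodule.subset_span hz)

omit [Algebra κ C] [Algebra K κ] [IsScalarTower K κ C] [Field κ] in
theorem pair_ind {l : Fin 2 → C} (hli : LinearIndependent K l) {i j : Fin 2} (hij : i ≠ j)
    (a b : K) (h : a • l i + b • l j = 0) : a = 0 ∧ b = 0 := by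
  have h1 := Fintype.linearIndependent_iff.1 hli (fun t => if t = i then a else b) (by
    rw [Fin.sum_univ_two]
    have h01 : i = 0 ∨ i = 1 := by omega
    rcases h01 with rfl | rfl
    · have hj : j = 1 := by omega
      subst hj
      simpa using h
    · have hj : j = 0 := by omega
      subst hj
      simpa [add_comm] using h)
  refine ⟨by simpa using h1 i, ?_⟩
  have := h1 j
  rwa [if_neg hij.symm] at this

/-- **One step.** -/
theorem two_step {v : ℕ} {L : Submodule κ C} (V' : Submodule K C) (Ω0 F : Submodule κ C)
    (hF : IsSupp v L Ω0 F) (hV'Ω : ∀ z ∈ V', z ∈ Ω0) (hV'L : ∀ z ∈ V', z ∈ L) {z : C}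
    (hzL : z ∈ L) (hzF : z ∉ F ⊔ Ω0) (hzE : ¬ Exc L Ω0 (Submodule.span κ {1}) z)
    (l m : Fin 2 → C) (hl : ∀ j, l j ∈ V' ⊔ Submodule.span K {z}) (hm : ∀ j, m j ∈ L)
    (hdet : l 0 * m 1 = l 1 * m 0) (hli : LinearIndependent K l) :
    (∃ ρ : κ, ∀ j, m j = ρ • l j) ∨ ∀ j, l j ∈ V' := by
  classical
  have hrep : ∀ j, ∃ u ∈ V', ∃ c : K, l j = u + c • z := by
    intro j
    obtain ⟨u, hu, w, hw, h⟩ := Submodule.mem_sup.1 (hl j)
    obtain ⟨c, rfl⟩ := Submodule.mem_span_singleton.1 hw
    exact ⟨u, hu, c, h.symm⟩
  choose u hu c hc using hrep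
  -- the main case
  have main : ∀ i j : Fin 2, l i * m j = l j * m i → i ≠ j → c i ≠ 0 →
      ∃ ρ : κ, m i = ρ • l i ∧ m j = ρ • l j := by
    intro i j hdet hij hci
    have hz' : z + (c i)⁻¹ • u i = (c i)⁻¹ • l i := by
      rw [hc i, smul_add, smul_smul, inv_mul_cancel₀ hci, one_smul, add_comm]
    set t : K := c j * (c i)⁻¹ with ht
    set u2 : C := l j - t • l i with hu2
    set m2 : C := m j - t • m i with hm2
    have hu2V : u2 ∈ V' := by
      have : u2 = u j - t • u i := by
        rw [hu2, hc i, hc j, smul_add, smul_smul, ht, mul_assoc, inv_mul_cancel₀ hci, mul_one]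
        abel
      rw [this]
      exact V'.sub_mem (hu j) (V'.smul_mem _ (hu i))
    have hKL : ∀ (a : K) {y : C}, y ∈ L → a • y ∈ L := fun a y hy => by
      rw [← algebraMap_smul κ a]
      exact L.smul_mem _ hy
    have hm2L : m2 ∈ L := L.sub_mem (hm j) (hKL t (hm i))
    have hu20 : u2 ≠ 0 := by
      intro h0
      have h1 := pair_ind hli hij (-t) 1 (by
        rw [one_smul, neg_smul, ← h0, hu2]
        abel)
      exact one_ne_zero h1.2
    have hrel : (z + (c i)⁻¹ • u i) * m2 = u2 * ((c i)⁻¹ • m i) := by
      rw [hz', smul_mul_assoc, mul_smul_comm]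
      congr 1
      rw [hm2, hu2, mul_sub, sub_mul, hdet, mul_smul_comm, smul_mul_assoc]
    have hzu : z + (c i)⁻¹ • u i ∈ L := L.add_mem hzL (hV'L _ (V'.smul_mem _ (hu i)))
    by_cases hm2Ω : m2 ∈ Ω0
    · by_cases hdep : ∃ ρ : κ, m2 = ρ • u2
      · obtain ⟨ρ, hρ⟩ := hdep
        refine ⟨ρ, ?_⟩
        have h1 : m i = ρ • l i := by
          rw [hz', hρ] at hrel
          have he : algebraMap K C (c i)⁻¹ ≠ 0 := by
            rw [Ne, FaithfulSMul.algebraMap_eq_zero_iff]
            exact inv_ne_zero hci
          have h2 : u2 * (ρ • l i) = u2 * m i := by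
            simp only [Algebra.smul_def] at hrel ⊢
            apply mul_left_cancel₀ he
            linear_combination hrel
          exact (mul_left_cancel₀ hu20 h2).symm
        refine ⟨h1, ?_⟩
        have h2 : m j = m2 + t • m i := by rw [hm2]; abel
        rw [h2, hρ, h1, hu2, ← algebraMap_smul κ t, ← algebraMap_smul κ t, smul_sub, smul_comm]
        abel
      · exfalso
        push Not at hdep
        obtain ⟨φ, hφ⟩ := exists_dual (⊥ : Submodule κ C) ![m2, u2] (by
          intro a ha
          rw [Submodule.mem_bot, Fin.sum_univ_two] at ha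
          simp only [Matrix.cons_val_zero, Matrix.cons_val_one] at ha
          have ha0 : a 0 = 0 := by
            by_contra hne
            apply hdep (-(a 0)⁻¹ * a 1)
            have h1 := congrArg (fun y => (a 0)⁻¹ • y) ha
            simp only [smul_add, smul_smul, smul_zero, inv_mul_cancel₀ hne, one_smul] at h1
            rw [neg_mul, neg_smul]
            exact eq_neg_of_add_eq_zero_left h1
          rw [ha0, zero_smul, zero_add] at ha
          have ha1 : a 1 = 0 := (smul_eq_zero.1 ha).resolve_right hu20
          intro i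
          fin_cases i
          · exact ha0
          · exact ha1) ![1, 0]
        have h1 := hF.2.2.2 (Fin 2) ![m2, u2] ![z + (c i)⁻¹ • u i, -((c i)⁻¹ • m i)] (by
          intro t
          fin_cases t
          · exact hm2Ω
          · exact hV'Ω _ hu2V) (by
          intro t
          fin_cases t
          · exact hzu
          · exact L.neg_mem (hKL _ (hm i))) (by
          rw [Fin.sum_univ_two]
          simp only [Matrix.cons_val_zero, Matrix.cons_val_one]
          rw [mul_comm m2, hrel]
          ring) φ
        rw [Fin.sum_univ_two] at h1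
        have h2 := hφ.2 0
        have h3 := hφ.2 1
        simp only [Matrix.cons_val_zero, Matrix.cons_val_one] at h1 h2 h3
        rw [h2, h3, one_smul, zero_smul, add_zero] at h1
        apply hzF
        have h4 := Submodule.sub_mem (F ⊔ Ω0) (Submodule.mem_sup_left (T := Ω0) h1)
          (Submodule.mem_sup_right (S := F) (hV'Ω _ (V'.smul_mem (c i)⁻¹ (hu i))))
        rwa [add_sub_cancel_right] at h4
    · exfalso
      apply hzE
      refine ⟨m2, ?_, hm2Ω, ?_⟩
      · have := Submodule.mul_mem_mul (Submodule.mem_span_singleton_self (R := κ) (1 : C)) hm2L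
        rwa [one_mul] at this
      · have h1 : z * m2 = u2 * ((c i)⁻¹ • m i) - ((c i)⁻¹ • u i) * m2 := by
          rw [← hrel]; ring
        rw [h1]
        exact Submodule.sub_mem _ (Submodule.mul_mem_mul (hV'Ω _ hu2V) (hKL _ (hm i)))
          (Submodule.mul_mem_mul (hV'Ω _ (V'.smul_mem _ (hu i))) hm2L)
  by_cases h0 : c 0 = 0
  · by_cases h1 : c 1 = 0
    · right
      intro j
      rw [hc j]
      have : c j = 0 := by fin_cases j <;> assumption
      rw [this, zero_smul, add_zero]
      exact hu j
    · left
      obtain ⟨ρ, h2, h3⟩ := main 1 0 hdet.symm (by decide) h1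
      refine ⟨ρ, fun j => ?_⟩
      fin_cases j
      · exact h3
      · exact h2
  · left
    obtain ⟨ρ, h2, h3⟩ := main 0 1 hdet (by decide) h0
    refine ⟨ρ, fun j => ?_⟩
    fin_cases j
    · exact h2
    · exact h3

end

end Pool.Agent.R350
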